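import Pool.Agent.P.MP_dba3d2_lc.C.DefsT

/-! Interface, chapter C1: group theory, tree lemmas and value level statements for two factors. -/

namespace Pool.Agent.P.MP_dba3d2_lc

open Filter

-- deps:
def S_C_AM1 : Prop := ∀ (G : Type) [Group G] (X Y C : Subgroup G), C ≤ X → C ≤ Y → UnivP X Y C →
  RedNT (fun i => bif i then Y else X) C

-- deps: C2_STARFIN
def S_C_AM2 : Prop := ∀ (G : Type) [Group G] (A : Bool → Subgroup G) (C : Subgroup G),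
  (∀ i, C ≤ A i) → RedNT A C → ∀ K : Subgroup G, K ≤ A false ⊔ A true → Finite K →
    ∃ p ∈ A false ⊔ A true, ∃ i, ∀ k ∈ K, p⁻¹ * k * p ∈ A i

-- deps:
def S_C_GRAPH : Prop := ∀ (G G' : Type) [Group G] [Group G'] (X Y : Subgroup G) (θ0 : X →* G')
  (θ1 : Y →* G') (H : Subgroup (G × G')), (∀ x : X, ((x : G), θ0 x) ∈ H) →
  (∀ y : Y, ((y : G), θ1 y) ∈ H) → (∀ g, ((1 : G), g) ∈ H → g = 1) →
    ∃ θ : ↥(X ⊔ Y) →* G', (∀ x : X, θ ⟨x, (le_sup_left : X ≤ X ⊔ Y) x.2⟩ = θ0 x) ∧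
      ∀ y : Y, θ ⟨y, (le_sup_right : Y ≤ X ⊔ Y) y.2⟩ = θ1 y

-- deps: ELEM
-- imports: Pool.Agent.P.MP_dba3d2_lc.C.LTb
def S_C_TORQ : Prop := ∀ (Γ : HG) (a : Amb) (c : MM Γ a), ¬ IsOfFinOrder c →
  ∃ (Q : Type) (_ : CommGroup Q) (φ : Ep c →* Q), (∀ f : Ep c, φ f = 1 ↔ IsOfFinOrder (f : MM Γ a)) ∧
    ∀ g, InE c g → g ∉ Ep c → ∀ f f' : Ep c, (f' : MM Γ a) = g * f * g⁻¹ → φ f' = (φ f)⁻¹

-- deps:
-- imports: Pool.Agent.P.MP_dba3d2_lc.C.LTb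
def S_C_PATH : Prop := ∀ (Γ : HG) (a : Amb) (ν : a.K) (X : Type) (v : X → MM Γ a) (L : List X),
  Big ν → ¬ Geo ν (L.map v) → ∃ (A : List X) (s : X) (z : List X) (s' : X) (B : List X),
    L = A ++ s :: z ++ s' :: B ∧ Ls ν (ln (v s)) ∧
    Ls ν (ln (v s')) ∧ Ll ((z.map v).map ln).sum ν ∧
    ∃ q, Ls ν (ln q) ∧ On ν q 1 (v s)⁻¹ ∧ On ν (((z.map v).prod)⁻¹ * q) 1 (v s')

-- deps:
-- imports: Pool.Agent.P.MP_dba3d2_lc.C.LTb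
def S_C_FIRST : Prop := ∀ (Γ : HG) (a : Amb) (ν : a.K) (X : Type) (v : X → MM Γ a) (L : List X)
  (q : MM Γ a), Big ν → Geo ν (L.map v) → Ls ν (ln q) → On ν q 1 (L.map v).prod →
  ∃ (z : List X) (s : X) (B : List X), L = z ++ s :: B ∧ Ll ((z.map v).map ln).sum ν ∧ Ls ν (ln (v s)) ∧
    ∃ q', Ls ν (ln q') ∧ On ν q' 1 q ∧ On ν (((z.map v).prod)⁻¹ * q') 1 (v s)

-- deps:
-- imports: Pool.Agent.P.MP_dba3d2_lc.C.LTb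
def S_C_PROJ : Prop := ∀ (Γ : HG) (a : Amb) (b y : MM Γ a), Prim b → Cen b → NE b y →
  Ls (ln y) (ln (y * b * y⁻¹)) ∧ ∀ μ, Big μ → Ll (md b) μ → Ls (ln y) μ →
    (∀ r, Ll (ds r (b * r)) μ → On μ 1 y⁻¹ r) ∧ Ll (2 * ln y - ln (y * b * y⁻¹)) μ

-- deps: C_PROJ
-- imports: Pool.Agent.P.MP_dba3d2_lc.C.LTb
def S_C_BRIDGE : Prop := ∀ (Γ : HG) (a : Amb) (b b' h : MM Γ a), Prim b → Cen b → Prim b' → Cen b' →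
  NE b h⁻¹ → NE b' h → ∀ q,
    Ls (ln b + ln (h * b' * h⁻¹)) (ds q (b * q) + ds q (h * b' * h⁻¹ * q))

-- deps: ELEM LINE
-- imports: Pool.Agent.P.MP_dba3d2_lc.C.LTb
def S_C_DISP : Prop := ∀ (Γ : HG) (a : Amb) (b c : MM Γ a), Prim b → c ∈ Ep b →
  (∀ x, Ls (ds x (c * x)) (md c + ds x (b * x))) ∧
  (Ls (md c) (md b) → ∃ n : ℤ, IsOfFinOrder (c⁻¹ * b ^ n)) ∧
  (Ll (md b) (md c) → ¬ IsOfFinOrder c ∧ Big (md c) ∧ (Cen c → ∃ (N : ℕ) (p q : MM Γ a),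
    Ls (ln c) (ds p q) ∧ On (ln c) p 1 (c ^ N) ∧ On (ln c) q 1 (c ^ N) ∧ Stab (ln c) p q b))

-- deps: ELEM LINE PERC C_PROJ
-- imports: Pool.Agent.P.MP_dba3d2_lc.C.LTb
def S_C_TWOBR : Prop := ∀ (Γ : HG) (a : Amb) (ν : a.K) (b d w w' f f' : MM Γ a), Prim b → Cen b →
  Prim d → Cen d → NE b w⁻¹ → NE b w'⁻¹ → NE d w → NE d w' → f ∈ Ep b → f' ∈ Ep d →
  f * w' = w * f' → ¬ Cj w d b → Big ν → Ll (md b) ν → Ll (md d) ν →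
  Ls (ln f + ln f' + ln w + ln w') ν → Ll (ln f) ν ∧ Ll (ln f') ν

-- deps: ELEM ROOT
-- imports: Pool.Agent.P.MP_dba3d2_lc.C.TTb
def S_C_EMEM : Prop := ∀ (Γ : HG) (a : Amb) (F : Bool → Subgroup (MM Γ a)), TwoF F →
  ∀ c ∈ XF F none, ¬ IsOfFinOrder c → ∀ i, ∀ e ∈ EF F c,
    ∃ x ∈ F i, ∃ y ∈ F (!i), x ∈ Ep c ∧ y ∈ Ep c ∧ e = x * y

-- deps: C_TORQ C_EMEM
-- imports: Pool.Agent.P.MP_dba3d2_lc.C.TTb
def S_C_PURE : Prop := ∀ (Γ : HG) (a : Amb) (F : Bool → Subgroup (MM Γ a)), TwoF F →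
  ∀ c ∈ XF F none, Prim c → ∀ f ∈ EF F c, ∀ n : ℕ, 0 < n →
    ∃ f' ∈ EF F c, ∃ r : ℕ, IsOfFinOrder (f⁻¹ * (f' ^ n * c ^ r))

-- deps: ELEM ROOT C_TORQ C_PURE
-- imports: Pool.Agent.P.MP_dba3d2_lc.C.TTb
def S_C_FINE : Prop := ∀ (Γ : HG) (a : Amb) (F : Bool → Subgroup (MM Γ a)), TwoF F →
  ∀ c ∈ PM F, ∀ K : Subgroup (MM Γ a), K ≤ EPM F c → Finite K →
    ∃ p ∈ EF F c, ∀ k ∈ K, p⁻¹ * k * p ∈ XF F none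

-- deps: ELEM LINE ROOT
-- imports: Pool.Agent.P.MP_dba3d2_lc.C.TTb
def S_C_ARC : Prop := ∀ (Γ : HG) (a : Amb) (F : Bool → Subgroup (MM Γ a)), TwoF F →
  ∀ (ν : a.K) (t : Tg Γ a) (y p q : MM Γ a), Big ν → TOK F (fun _ => True) t → y ∈ LF F t →
    (∀ c, t = .inr c → y ∉ XF F none) → Ls (ln y) ν → On ν p 1 y → On ν q 1 y → Arc F ν t y p q

-- deps: ELEM PERC
-- imports: Pool.Agent.P.MP_dba3d2_lc.C.TTb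
def S_C_J0 : Prop := ∀ (Γ : HG) (a : Amb) (F : Bool → Subgroup (MM Γ a)), TwoF F →
  ∀ (ν : a.K) (t t' : Tg Γ a) (y y' z p q : MM Γ a), Big ν → Ls ν (ds p q) →
    TOK F (fun _ => True) t → TOK F (fun _ => True) t' → y ∈ LF F t → y' ∈ LF F t' →
    Arc F ν t y p q → Arc F ν t' y' (z⁻¹ * p) (z⁻¹ * q) →
    (∃ o o', t = .inl o ∧ t' = .inl o' ∧ ∃ g ∈ XF F o, ∃ g' ∈ XF F o', z = g * g') ∨
    ∃ b b', Att F ν t y p q b ∧ Att F ν t' y' (z⁻¹ * p) (z⁻¹ * q) b' ∧ Cj z b' b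

-- deps: ELEM PERC ROOT
-- imports: Pool.Agent.P.MP_dba3d2_lc.C.TTb
def S_C_JS0 : Prop := ∀ (Γ : HG) (a : Amb) (F : Bool → Subgroup (MM Γ a)), TwoF F →
  ∀ (ν : a.K) (s s' : Tg Γ a × MM Γ a), Big ν → (idC F).ok s → (idC F).ok s' → Pair F s s' →
    ¬ Ovp F ν s 1 s'

-- deps: ELEM LINE ROOT RIG C_EMEM C_J0
-- imports: Pool.Agent.P.MP_dba3d2_lc.C.TTb
def S_C_JS2 : Prop := ∀ (Γ : HG) (a : Amb) (F : Bool → Subgroup (MM Γ a)), TwoF F →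
  ∀ (ν : a.K) (o o' : Option Bool) (y y' c e : MM Γ a), Big ν → y ∈ XF F o → y' ∈ XF F o' →
    c ∈ PM F → e ∈ EF F c → NE c y → (∀ g ∈ XF F o, ∀ g' ∈ XF F o', e ≠ g * g') →
    ¬ Ovp F ν (.inl o, y) e (.inl o', y')

-- deps: ELEM LINE NP ROOT
-- imports: Pool.Agent.P.MP_dba3d2_lc.C.TTb
def S_C_R2A : Prop := ∀ (Γ : HG) (a : Amb) (F : Bool → Subgroup (MM Γ a)), TwoF F →
  ∀ o o', ∀ b ∈ XF F o, ∀ b' ∈ XF F o', Prim b → Prim b' → ∀ x, Cj x b' b →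
    Ll (ln x) (ln b + ln b') → ∃ g ∈ XF F o, ∃ g' ∈ XF F o', x = g * g'

-- deps: ROOT
-- imports: Pool.Agent.P.MP_dba3d2_lc.C.TTb
def S_C_TFF : Prop := ∀ (Γ : HG) (a : Amb) (F : Bool → Subgroup (MM Γ a)), TwoF F →
  ∀ o o' i j, (o = none ∨ o = some i) → (o' = none ∨ o' = some j) → ∀ g ∈ F i, ∀ g' ∈ F j,
    TC F o o' (g * g')

-- deps: ELEM LINE ROOT NORM C_TFF
-- imports: Pool.Agent.P.MP_dba3d2_lc.C.TTb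
def S_C_R2B : Prop := ∀ (Γ : HG) (a : Amb) (F : Bool → Subgroup (MM Γ a)), TwoF F →
  ∀ o o', ∀ b ∈ XF F o, ∀ b' ∈ XF F o', Prim b → Prim b' → Cen b → Cen b' → ∀ h, Cj h b' b →
    Ls (ln h) (md b) → TC1 F o o' b b' h

-- deps: ROOT
-- imports: Pool.Agent.P.MP_dba3d2_lc.C.TTb
def S_C_REDX : Prop := ∀ (Γ : HG) (a : Amb) (F : Bool → Subgroup (MM Γ a)), TwoF F →
  ∀ o o', ∀ b ∈ XF F o, ∀ b' ∈ XF F o', Prim b → Prim b' → ∀ x, Cj x b' b →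
    ∃ o1 b1, Typ F o1 b1 ∧ (o1 ≠ none → o = o1 ∧ o' = o1) ∧ ∃ g ∈ XF F o, ∃ g' ∈ XF F o',
      ∃ f ∈ Ep b1, x = g * f * g'⁻¹ ∧ Cj g b1 b ∧ Cj g' b1 b'

-- deps: ROOT NORM
-- imports: Pool.Agent.P.MP_dba3d2_lc.C.TTb
def S_C_PRE : Prop := ∀ (Γ : HG) (a : Amb) (F : Bool → Subgroup (MM Γ a)), TwoF F →
  ∀ (i : Bool) (b y : MM Γ a) (t : Tg Γ a), b ∈ F i → Prim b → Cen b → y ∈ F i →
    y⁻¹ * b * y ∉ XF F none → (t = .inl (some (!i)) ∨ ∃ c ∈ PM F, t = .inr c) →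
    ∃ f ∈ F i, f ∈ Ep b ∧ ∃ g ∈ F i, g ∈ LF F t ∧ NE b (f * y * g)⁻¹ ∧
      ∀ y1, (t = .inl (some (!i)) → y1 ∉ XF F none) → Pair F (.inl (some i), f * y * g) (t, y1)

-- deps: ELEM ROOT C_INJ C_GRAPH
-- imports: Pool.Agent.P.MP_dba3d2_lc.C.TTb
def S_C_EXT2 : Prop := ∀ (Γ : HG) (a : Amb) (F : Bool → Subgroup (MM Γ a)), TwoF F →
  Ext2 (F false) (F true)

-- deps: ELEM ROOT C_EXT2
-- imports: Pool.Agent.P.MP_dba3d2_lc.C.TTb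
def S_C_UP : Prop := ∀ (Γ : HG) (a : Amb) (F : Bool → Subgroup (MM Γ a)), TwoF F →
  ∀ i, UnivP (F i) (NS F (PM F) ⊔ F (!i)) (MI F i)

-- deps: ELEM C_INJ C_GRAPH
-- imports: Pool.Agent.P.MP_dba3d2_lc.C.TTb
def S_C_UPN : Prop := ∀ (Γ : HG) (a : Amb) (F : Bool → Subgroup (MM Γ a)), TwoF F →
  ∀ c ∈ PM F, UnivP (NS F {d | d ∈ PM F ∧ ¬ ∃ b ∈ XF F none, Cj b c d}) (EPM F c)
    (XF F none ⊓ IE c)

-- deps: C_AM1 C_AM2 C_UPN C_FINE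
-- imports: Pool.Agent.P.MP_dba3d2_lc.C.TTb
def S_C_FINN : Prop := ∀ (Γ : HG) (a : Amb) (F : Bool → Subgroup (MM Γ a)), TwoF F →
  ∀ K : Subgroup (MM Γ a), K ≤ NS F (PM F) → Finite K →
    ∃ p ∈ NS F (PM F), ∀ k ∈ K, p⁻¹ * k * p ∈ XF F none

-- deps: C_AM1 C_AM2 C_UP C_FINN
-- imports: Pool.Agent.P.MP_dba3d2_lc.C.TTb
def S_C_FINP : Prop := ∀ (Γ : HG) (a : Amb) (F : Bool → Subgroup (MM Γ a)), TwoF F →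
  FinRed (F false ⊔ F true) (F false) (F true)

-- deps: ELEM LINE PERC ROOT NORM TRUNC
-- imports: Pool.Agent.P.MP_dba3d2_lc.C.LTb
def S_C_GRTW : Prop := ∀ (Γ : HG) (a : Amb) (H W : Subgroup (MM Γ a)), GC0 H → GC0 W → Sep H W →
  TwoF fun i => bif i then W else H

end Pool.Agent.P.MP_dba3d2_lc
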