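import Pool.Agent.P.MP_dba3d2_lc.C.TTb0

/-! Toolbox for two factors: words and covers. -/

namespace Pool.Agent.P.MP_dba3d2_lc

open Filter

variable {Γ : HG} {a : Amb} {F : Bool → Subgroup (MM Γ a)} {G : Type} [Group G]
  {s s' : Tg Γ a × G} {u v w z r : List (Tg Γ a × G)} {t : Tg Γ a} {x y : G} {o o' : Option Bool}
  {c : MM Γ a} {A B A' B' : Subgroup G} {ν : a.K}

@[simp] theorem vl_nil : vl ([] : List (Tg Γ a × G)) = 1 := rfl
@[simp] theorem vl_cons : vl (s :: w) = s.2 * vl w := by simp [vl]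
@[simp] theorem vl_append : vl (v ++ w) = vl v * vl w := by simp [vl]
omit [Group G] in
@[simp] theorem ct_nil : ct ([] : List (Tg Γ a × G)) = 0 := rfl
omit [Group G] in
@[simp] theorem ct_cons : ct (s :: w) = kc s.1 + ct w := by simp [ct]
omit [Group G] in
@[simp] theorem ct_append : ct (v ++ w) = ct v + ct w := by simp [ct]
omit [Group G] in
theorem ct_eq_zero (h : ct w ≤ 0) : w = [] := by
  cases w with
  | nil => rfl
  | cons s w => have := kc_pos s.1; rw [ct_cons] at h; omega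
omit [Group G] in
theorem ct_tags (h : v.map Prod.fst = w.map Prod.fst) : ct v = ct w := by
  have e : ∀ u : List (Tg Γ a × G), ct u = ((u.map Prod.fst).map kc).sum := fun u => by
    rw [ct, List.map_map]; rfl
  rw [e, e, h]
@[simp] theorem sinv_fst : (sinv s).1 = s.1 := rfl
@[simp] theorem sinv_snd : (sinv s).2 = s.2⁻¹ := rfl
@[simp] theorem sinv_sinv : sinv (sinv s) = s := by simp [sinv]
@[simp] theorem winv_nil : winv ([] : List (Tg Γ a × G)) = [] := rfl
@[simp] theorem winv_cons : winv (s :: w) = winv w ++ [sinv s] := by simp [winv]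
@[simp] theorem winv_append : winv (v ++ w) = winv w ++ winv v := by simp [winv]
@[simp] theorem vl_winv : vl (winv w) = (vl w)⁻¹ := by
  induction w with
  | nil => simp
  | cons s w ih => simp [ih]
@[simp] theorem ct_winv : ct (winv w) = ct w := by
  induction w with
  | nil => simp
  | cons s w ih => simp [ih, add_comm]
@[simp] theorem winv_winv : winv (winv w) = w := by
  induction w with
  | nil => simp
  | cons s w ih => simp [ih]
theorem mem_winv : s ∈ winv w ↔ sinv s ∈ w := by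
  simp only [winv, List.mem_reverse, List.mem_map]
  exact ⟨fun ⟨_, h, e⟩ => by simpa [← e] using h, fun h => ⟨_, h, sinv_sinv⟩⟩
theorem winv_sub (h : v <:+: w) : winv v <:+: winv w := by
  obtain ⟨p, q, rfl⟩ := h
  exact ⟨winv q, winv p, by simp⟩
section
variable {X : Type} (e e' : Option X) (l : List X) (p q : X)
@[simp] theorem xw_nn : xw none l none = l := by simp [xw]
@[simp] theorem xw_sn : xw (some p) l none = p :: l := by simp [xw]
@[simp] theorem xw_ns : xw none l (some q) = l ++ [q] := by simp [xw]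
@[simp] theorem xw_ss : xw (some p) l (some q) = p :: l ++ [q] := by simp [xw]
theorem single_sub {l : List X} {p : X} (h : p ∈ l) : [p] <:+: l := by
  obtain ⟨u, v, rfl⟩ := List.append_of_mem h
  exact ⟨u, v, by simp⟩
theorem mem_xw : p ∈ xw e l e' ↔ p ∈ e ∨ p ∈ l ∨ p ∈ e' := by simp [xw]
end
theorem winv_xw (e e' : Option (Tg Γ a × G)) :
    winv (xw e u e') = xw (e'.map sinv) (winv u) (e.map sinv) := by
  cases e <;> cases e' <;> simp

namespace Cv

variable {C : Cv F G}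

theorem wd_nil : C.Wd [] := fun _ h => by cases h
theorem wd_cons : C.Wd (s :: w) ↔ C.ok s ∧ C.Wd w := List.forall_mem_cons
theorem wd_append : C.Wd (v ++ w) ↔ C.Wd v ∧ C.Wd w := List.forall_mem_append
theorem wd_single (h : C.ok s) : C.Wd [s] := wd_cons.2 ⟨h, wd_nil⟩
theorem Wd.sub (h : C.Wd w) (h' : v <:+: w) : C.Wd v := fun s hs => h s (h'.subset hs)
theorem ok.inv (h : C.ok s) : C.ok (sinv s) := ⟨h.1, inv_mem h.2⟩
theorem ok.mk' (h : C.ok s) (hx : x ∈ C.L s.1) : C.ok (s.1, x) := ⟨h.1, hx⟩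
theorem ok_base (hx : x ∈ C.L (.inl none)) : C.ok (.inl none, x) := ⟨C.s0, hx⟩
theorem ok.pr (h : C.ok s) : (idC F).ok (C.pr s) := ⟨h.1.top, C.le _ h.1 _ h.2⟩
theorem Wd.winv (h : C.Wd w) : C.Wd (winv w) := fun s hs => by
  simpa using (h _ (mem_winv.1 hs)).inv
theorem wd_xw {e e' : Option (Tg Γ a × G)} (h1 : ∀ s ∈ e, C.ok s) (h : C.Wd u)
    (h2 : ∀ s ∈ e', C.ok s) : C.Wd (xw e u e') := fun s hs => by
  rcases (mem_xw _ _ _ _).1 hs with k | k | k
  exacts [h1 s k, h s k, h2 s k]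
@[simp] theorem pr_fst : (C.pr s).1 = s.1 := rfl
@[simp] theorem pr_snd : (C.pr s).2 = C.π s.2 := rfl
theorem pr_mk : C.pr (t, x) = (t, C.π x) := rfl
theorem pr_sinv : C.pr (sinv s) = sinv (C.pr s) := by simp [pr, sinv]
@[simp] theorem LO_none : C.LO none = ⊥ := rfl
@[simp] theorem LO_some : C.LO (some s) = C.L s.1 := rfl
theorem LO_tags {e e' : Option (Tg Γ a × G)} (h : e.map Prod.fst = e'.map Prod.fst) :
    C.LO e = C.LO e' := by
  cases e <;> cases e' <;> simp_all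
@[simp] theorem LO_sinv (e : Option (Tg Γ a × G)) : C.LO (e.map sinv) = C.LO e := by
  cases e <;> rfl
@[simp] theorem vs_nil : C.vs [] = [] := rfl
@[simp] theorem vs_cons : C.vs (s :: w) = C.π s.2 :: C.vs w := rfl
@[simp] theorem vs_append : C.vs (v ++ w) = C.vs v ++ C.vs w := by simp [vs]
theorem vs_prod : (C.vs w).prod = C.π (vl w) := by
  induction w with
  | nil => simp
  | cons s w ih => simp [ih]
theorem vs_winv : C.vs (winv w) = ((C.vs w).map fun x => x⁻¹).reverse := by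
  induction w with
  | nil => simp
  | cons s w ih => simp [ih]
@[simp] theorem sl_nil : C.sl [] = 0 := rfl
@[simp] theorem sl_cons : C.sl (s :: w) = ln (C.π s.2) + C.sl w := by simp [sl]
@[simp] theorem sl_append : C.sl (v ++ w) = C.sl v + C.sl w := by simp [sl]
@[simp] theorem sl_winv : C.sl (winv w) = C.sl w := by
  induction w with
  | nil => simp
  | cons s w ih => simp [ih, add_comm]
theorem sl_nonneg : 0 ≤ C.sl w := by
  induction w with
  | nil => simp
  | cons s w ih => rw [sl_cons]; exact add_nonneg (ln_nonneg _) ih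
theorem ln_vl_le : ln (C.π (vl w)) ≤ C.sl w := by
  rw [← vs_prod]; exact ln_prod_le _
theorem sl_sub (h : v <:+: w) : C.sl v ≤ C.sl w := by
  obtain ⟨p, q, rfl⟩ := h
  have h1 := sl_nonneg (C := C) (w := p)
  have h2 := sl_nonneg (C := C) (w := q)
  simp only [sl_append]
  linarith
theorem ln_le_sl (h : s ∈ w) : ln (C.π s.2) ≤ C.sl w := by
  simpa using sl_sub (C := C) (single_sub h)
theorem geo_iff : Geo ν (C.vs w) ↔ Ll (C.sl w - ln (C.π (vl w))) ν := by rw [Geo, vs_prod]; rfl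

theorem base_le (ho : C.S o) (hx : x ∈ C.L (.inl none)) : x ∈ C.L (.inl o) :=
  C.mem (.inl none) o C.s0 ho x hx (M_le_XF o (C.le (.inl none) C.s0 x hx))
theorem to_base (ht : TOK F C.S t) (hx : x ∈ C.L t) (h : C.π x ∈ XF F none) :
    x ∈ C.L (.inl none) := C.mem t none ht C.s0 x hx h
theorem inj' (ht : TOK F C.S t) (hx : x ∈ C.L t) (h : C.π x = 1) : x = 1 :=
  C.inj x (to_base ht hx (h ▸ one_mem _)) h
theorem eq_of (ht : TOK F C.S t) (hx : x ∈ C.L t) (hy : y ∈ C.L t) (h : C.π x = C.π y) : x = y :=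
  inv_mul_eq_one.1 (inj' ht (mul_mem (inv_mem hx) hy) (by simp [h]))
theorem lift_both (ho : C.S o) (hc : TOK F C.S (.inr c)) {f : MM Γ a} (h1 : f ∈ XF F o)
    (h2 : f ∈ Ep c) : ∃ x ∈ C.L (.inl o), x ∈ C.L (.inr c) ∧ C.π x = f := by
  obtain ⟨x, hx, rfl⟩ := C.sur (.inr c) hc f (mem_EF' o h1 h2)
  exact ⟨x, C.mem _ o hc ho x hx h1, hx, rfl⟩
theorem mem_E (ho : C.S o) (hc : TOK F C.S (.inr c)) (hx : x ∈ C.L (.inl o)) (h : C.π x ∈ Ep c) :
    x ∈ C.L (.inr c) := by
  obtain ⟨y, h1, h2, h3⟩ := lift_both ho hc (C.le (.inl o) ho x hx) h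
  rwa [eq_of (t := .inl o) ho hx h1 h3.symm]
theorem lift_base {m : MM Γ a} (h : m ∈ XF F none) : ∃ x ∈ C.L (.inl none), C.π x = m :=
  C.sur (.inl none) C.s0 m h
theorem cj' {d : MM Γ a} (hc : TOK F C.S (.inr c)) (hd : TOK F C.S (.inr d))
    (hy : y ∈ C.L (.inl none)) (h : Cj (C.π y) c d) (hx : x ∈ C.L (.inr d)) :
    y⁻¹ * x * y ∈ C.L (.inr c) := by
  simpa using C.cj d c hd hc y⁻¹ (inv_mem hy) (by simpa using h.inv) x hx

theorem ok.mem_PP (h : C.ok s) : s.2 ∈ C.PP := Subgroup.subset_closure ⟨s.1, h⟩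
theorem L_le_PP (ht : TOK F C.S t) : C.L t ≤ C.PP := fun x hx => ok.mem_PP (s := (t, x)) ⟨ht, hx⟩
theorem Wd.mem_PP (h : C.Wd w) : vl w ∈ C.PP := by
  induction w with
  | nil => exact one_mem _
  | cons s w ih => rw [vl_cons]; exact mul_mem (wd_cons.1 h).1.mem_PP (ih (wd_cons.1 h).2)
theorem exists_word (h : x ∈ C.PP) : ∃ w, C.Wd w ∧ vl w = x := by
  induction h using Subgroup.closure_induction with
  | mem x h => obtain ⟨t, h⟩ := h; exact ⟨[(t, x)], wd_single h, by simp⟩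
  | one => exact ⟨[], wd_nil, rfl⟩
  | mul x y _ _ h1 h2 =>
    obtain ⟨v, a1, rfl⟩ := h1
    obtain ⟨w, a2, rfl⟩ := h2
    exact ⟨v ++ w, wd_append.2 ⟨a1, a2⟩, vl_append⟩
  | inv x _ h => obtain ⟨v, a1, rfl⟩ := h; exact ⟨winv v, a1.winv, vl_winv⟩
theorem Wd.mem_P (h : C.Wd w) : C.π (vl w) ∈ F false ⊔ F true := by
  induction w with
  | nil => simp
  | cons s w ih =>
    obtain ⟨h1, h2⟩ := wd_cons.1 h
    rw [vl_cons, map_mul]
    exact mul_mem (LF_le_P _ (C.le _ h1.1 _ h1.2)) (ih h2)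

theorem exists_cMin (A B : Subgroup G) (h : C.Wd w) : ∃ u, C.CMin A B u ∧ ct u ≤ ct w ∧
    ∃ x ∈ A, ∃ y ∈ B, vl u = x * vl w * y := by
  classical
  have ex : ∃ n, ∃ u, C.Wd u ∧ (∃ x ∈ A, ∃ y ∈ B, vl u = x * vl w * y) ∧ ct u = n :=
    ⟨_, w, h, ⟨1, one_mem _, 1, one_mem _, by simp⟩, rfl⟩
  obtain ⟨u, h1, ⟨x, hx, y, hy, e⟩, h2⟩ := Nat.find_spec ex
  refine ⟨u, ⟨h1, fun r hr x' hx' y' hy' e' => h2 ▸ Nat.find_min' ex
    ⟨r, hr, ⟨x' * x, mul_mem hx' hx, y * y', mul_mem hy hy', by rw [e', e]; group⟩, rfl⟩⟩,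
    h2 ▸ Nat.find_min' ex ⟨w, h, ⟨1, one_mem _, 1, one_mem _, by simp⟩, rfl⟩, x, hx, y, hy, e⟩
theorem CMin.mono (h : C.CMin A B w) (h1 : A' ≤ A) (h2 : B' ≤ B) : C.CMin A' B' w :=
  ⟨h.1, fun r hr x hx y hy e => h.2 r hr x (h1 hx) y (h2 hy) e⟩
theorem cMin_nil : C.CMin A B [] := ⟨wd_nil, fun _ _ _ _ _ _ _ => Nat.zero_le _⟩
theorem CMin.of_eq (h : C.CMin A B w) (hu : C.Wd u) (hc : ct u ≤ ct w) (hx : x ∈ A) (hy : y ∈ B)
    (e : vl u = x * vl w * y) : C.CMin A B u :=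
  ⟨hu, fun r hr x' hx' y' hy' e' => hc.trans
    (h.2 r hr (x' * x) (mul_mem hx' hx) (y * y') (mul_mem hy hy') (by rw [e', e]; group))⟩
theorem CMin.winv (h : C.CMin A B w) : C.CMin B A (winv w) :=
  ⟨h.1.winv, fun r hr x hx y hy e => by
    simpa using h.2 _ hr.winv y⁻¹ (inv_mem hy) x⁻¹ (inv_mem hx) (by simp [e, mul_assoc])⟩
theorem CMin.left (h : C.CMin A B (s :: w)) : C.CMin (C.L s.1) B w := by
  obtain ⟨h1, h2⟩ := wd_cons.1 h.1
  refine ⟨h2, fun r hr x hx y hy e => ?_⟩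
  simpa using h.2 ((s.1, s.2 * x⁻¹) :: r) (wd_cons.2 ⟨h1.mk' (mul_mem h1.2 (inv_mem hx)), hr⟩)
    1 (one_mem _) y hy (by simp [e, mul_assoc])
theorem CMin.right (h : C.CMin A B (w ++ [s])) : C.CMin A (C.L s.1) w := by
  have := h.winv
  rw [winv_append] at this
  simpa using (CMin.left (s := sinv s) this).winv
theorem CMin.dropl (h : C.CMin A B (v ++ w)) : C.CMin ⊥ B w := by
  induction v generalizing A with
  | nil => exact h.mono bot_le le_rfl
  | cons s v ih => exact ih (CMin.left h)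
theorem CMin.dropr (h : C.CMin A B (v ++ w)) : C.CMin A ⊥ v := by
  have := h.winv
  rw [winv_append] at this
  simpa using this.dropl.winv
theorem CMin.sub (h : C.CMin A B w) (h' : v <:+: w) : C.CMin ⊥ ⊥ v := by
  obtain ⟨p, q, rfl⟩ := h'
  exact h.dropr.dropl
theorem CMin.left' (h : C.CMin A B (v ++ s :: w)) : C.CMin (C.L s.1) B w := h.dropl.left
theorem CMin.right' (h : C.CMin A B (v ++ s :: w)) : C.CMin A (C.L s.1) v := by
  rw [show v ++ s :: w = v ++ [s] ++ w by simp] at h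
  exact h.dropr.right
/-- if the value lies in the double coset of `1` the word is empty -/
theorem CMin.eq_nil (h : C.CMin A B w) (hx : x ∈ A) (hy : y ∈ B) (e : vl w = x * y) : w = [] :=
  ct_eq_zero (h.2 [] wd_nil x⁻¹ (inv_mem hx) y⁻¹ (inv_mem hy) (by simp [e]))
theorem CMin.nz (h : C.CMin A B w) : C.Nz w := fun s hs hm => by
  have k := h.sub (single_sub hs)
  have o := h.1 s hs
  have := k.2 [(.inl none, s.2)] (wd_single (ok_base (to_base o.1 o.2 hm))) 1 (one_mem _) 1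
    (one_mem _) (by simp)
  exact kc_eq_one (by simpa using this)
theorem Nz.nzE (h : C.Nz w) : C.NzE w := fun s hs c e hm => by simp [h s hs hm] at e
theorem Nz.sub (h : C.Nz w) (h' : v ⊆ w) : C.Nz v := fun s hs => h s (h' hs)
theorem NzE.sub (h : C.NzE w) (h' : v ⊆ w) : C.NzE v := fun s hs => h s (h' hs)
theorem NzE.winv (h : C.NzE w) : C.NzE (winv w) := fun s hs c e hm => by
  simpa using h _ (mem_winv.1 hs) c e (by simpa using hm)
/-- a long syllable of exponent type is not in the base -/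
theorem NzE.big (h : C.NzE w) (hs : s ∈ w) (hν : Big ν) (hb : Ls ν (ln (C.π s.2))) :
    ∀ c, s.1 = .inr c → C.π s.2 ∉ XF F none := fun c e hm => by
  simpa [h s hs c e hm] using hb.pos hν.pos
/-- the pieces of a word with optional ends -/
theorem CMin.piece {e e' : Option (Tg Γ a × G)} (h : C.CMin (C.LO e) (C.LO e') u)
    {p q : List (Tg Γ a × G)} (k : xw e u e' = p ++ z ++ q) (h1 : e.toList.length ≤ p.length)
    (h2 : e'.toList.length ≤ q.length) : C.CMin (C.LO p.getLast?) (C.LO q.head?) z := by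
  obtain ⟨p', rfl⟩ : e.toList <+: p := by
    rcases e with _ | s0
    · exact ⟨p, rfl⟩
    rcases p with _ | ⟨s1, p⟩
    · simp at h1
    · obtain rfl : s0 = s1 := by simpa [xw] using congrArg List.head? k
      exact ⟨p, rfl⟩
  obtain ⟨q', rfl⟩ : e'.toList <:+ q :=
    List.suffix_of_suffix_length_le (l₃ := xw e u e') ⟨e.toList ++ u, rfl⟩ ⟨_, k.symm⟩ h2
  obtain rfl : u = p' ++ z ++ q' := by
    have : e.toList ++ u ++ e'.toList = e.toList ++ (p' ++ z ++ q') ++ e'.toList := by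
      simpa [xw] using k
    exact List.append_cancel_left (List.append_cancel_right this)
  have h3 : C.CMin (C.LO e) (C.LO (q' ++ e'.toList).head?) (p' ++ z) := by
    cases q' with
    | nil => cases e' <;> simpa using h
    | cons s q' => exact h.right'
  rcases p'.eq_nil_or_concat with rfl | ⟨p', s, rfl⟩
  · cases e <;> simpa using h3
  · rw [List.concat_eq_append, List.append_assoc] at h3
    simpa using CMin.left' h3
theorem CMin.junction {e e' : Option (Tg Γ a × G)} (h : C.CMin (C.LO e) (C.LO e') u)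
    (k : s :: z ++ [s'] <:+: xw e u e') : C.CMin (C.L s.1) (C.L s'.1) z := by
  obtain ⟨p, q, k⟩ := k
  simpa using h.piece (p := p ++ [s]) (z := z) (q := s' :: q) (by simp [← k])
    (by cases e <;> simp) (by cases e' <;> simp)
/-- minimal words of small cost between syllables of the base or the factors -/
theorem CMin.short (h : C.CMin (C.L (.inl o)) B z) (ho : C.S o) (hc : ct z ≤ 2) :
    z = [] ∨ ∃ c e, z = [(.inr c, e)] := by
  rcases z with _ | ⟨⟨t, x⟩, z⟩
  · exact .inl rfl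
  have k := (wd_cons.1 h.1).1
  rcases t with (_ | i) | c
  · have := h.2 z (wd_cons.1 h.1).2 x⁻¹ (inv_mem (base_le ho k.2)) 1 (one_mem _) (by simp)
    simp at this
  · simp at hc; omega
  · obtain rfl : z = [] := ct_eq_zero (by simpa using hc)
    exact .inr ⟨c, x, rfl⟩

theorem HE.winv (h : C.HE s z s') : C.HE (sinv s') (winv z) (sinv s) := fun c c' m e1 e2 e3 k => by
  have : z = [(.inl none, m⁻¹)] := by simpa [sinv] using congrArg Pool.Agent.P.MP_dba3d2_lc.winv e3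
  exact h c' c m⁻¹ e2 e1 this (by simpa using k.inv)
/-- exponent syllables around a base syllable of a minimal word have different axes -/
theorem CMin.he {e e' : Option (Tg Γ a × G)} (h : C.CMin (C.LO e) (C.LO e') u)
    (hw : C.Wd (xw e u e')) (h0 : ∀ s ∈ e, ∀ s' ∈ e', C.HE s u s')
    (k : s :: z ++ [s'] <:+: xw e u e') : C.HE s z s' := by
  rintro c c' m e1 e2 rfl hj
  have k0 := hw.sub k
  obtain ⟨p, q, k⟩ := k
  obtain ⟨t, x⟩ := s
  obtain ⟨t', x'⟩ := s'
  obtain rfl : t = _ := e1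
  obtain rfl : t' = _ := e2
  have a1 := k0 (.inr c, x) (by simp)
  have a2 := k0 (.inl none, m) (by simp)
  have a3 := k0 (.inr c', x') (by simp)
  by_cases hq : e'.toList.length ≤ q.length
  · have := (h.piece (p := p ++ [(.inr c, x)]) (z := [(.inl none, m), (.inr c', x')]) (q := q)
      (by simp [← k]) (by cases e <;> simp) hq).2 [(.inl none, m)] (wd_single a2) (m * x' * m⁻¹)⁻¹
      (by simpa using inv_mem (C.cj c' c a3.1 a1.1 m a2.2 hj x' a3.2)) 1 (one_mem _)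
      (by simp [mul_assoc])
    simp at this
  by_cases hp : e.toList.length ≤ p.length
  · have := (h.piece (p := p) (z := [(.inr c, x), (.inl none, m)]) (q := (.inr c', x') :: q)
      (by simp [← k]) hp (by cases e' <;> simp)).2 [(.inl none, m)] (wd_single a2) 1 (one_mem _)
      (m⁻¹ * x * m)⁻¹ (by simpa using inv_mem (cj' a3.1 a1.1 a2.2 hj a1.2)) (by simp [mul_assoc])
    simp at this
  rcases e with _ | s0
  · simp at hp
  rcases e' with _ | s1
  · simp at hq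
  obtain rfl : p = [] := by simpa using hp
  obtain rfl : q = [] := by simpa using hq
  simp only [xw_ss, List.nil_append, List.append_nil, List.cons_append, List.cons.injEq] at k
  obtain ⟨rfl, k⟩ := k
  obtain ⟨rfl, k'⟩ := List.append_inj' (show [_] ++ [_] = u ++ [s1] from k) rfl
  obtain rfl : (Sum.inr c', x') = s1 := by simpa using k'
  exact h0 _ rfl _ rfl c c' m rfl rfl rfl hj
theorem PCh.sub (h : C.PCh w) (h' : v <:+: w) : C.PCh v := by
  obtain ⟨p, q, rfl⟩ := h'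
  exact (List.IsChain.left_of_append h).right_of_append
theorem PCh.winv (h : C.PCh w) : C.PCh (winv w) := by
  rw [PCh, Pool.Agent.P.MP_dba3d2_lc.winv, List.isChain_reverse, List.isChain_map]
  exact h.imp fun _ _ k => by simpa only [flip, pr_sinv] using k.inv
theorem good_of {e e' : Option (Tg Γ a × G)} (h : C.CMin (C.LO e) (C.LO e') u)
    (hw : C.Wd (xw e u e')) (hp : C.PCh (xw e u e')) (h0 : ∀ s ∈ e, ∀ s' ∈ e', C.HE s u s') :
    C.Good (xw e u e') :=
  ⟨hw, fun _ _ _ k => ⟨hw.sub k, hp.sub k, h.junction k, h.he hw h0 k⟩⟩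
theorem he_nil : C.HE s [] s' := fun _ _ _ _ _ h => by cases h
theorem Good.sub (h : C.Good w) (h' : v <:+: w) : C.Good v :=
  ⟨h.1.sub h', fun s z s' k => h.2 s z s' (k.trans h')⟩
theorem Good.jok {p q : List (Tg Γ a × G)} (h : C.Good (p ++ s :: z ++ s' :: q)) : C.JOK s z s' :=
  h.2 s z s' ⟨p, q, by simp⟩
theorem JOK.winv (h : C.JOK s z s') : C.JOK (sinv s') (winv z) (sinv s) :=
  ⟨by simpa using h.wd.winv, by simpa using h.ch.winv, h.min.winv, h.he.winv⟩
theorem Good.winv (h : C.Good w) : C.Good (winv w) :=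
  ⟨h.1.winv, fun s z s' k => by
    simpa using (h.2 (sinv s') (Pool.Agent.P.MP_dba3d2_lc.winv z) (sinv s)
      (by simpa using winv_sub k)).winv⟩
theorem JOK.okl (h : C.JOK s z s') : C.ok s := h.wd s (by simp)
theorem JOK.okr (h : C.JOK s z s') : C.ok s' := h.wd s' (by simp)
theorem JOK.pair (h : C.JOK s [] s') : Pair F (C.pr s) (C.pr s') := by
  simpa [PCh] using h.ch

theorem exists_cycMin (h : C.Wd w) : ∃ u, C.CycMin u ∧ ct u ≤ ct w ∧
    ∃ g ∈ C.PP, vl u = g⁻¹ * vl w * g := by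
  classical
  have ex : ∃ n, ∃ u, C.Wd u ∧ (∃ g ∈ C.PP, vl u = g⁻¹ * vl w * g) ∧ ct u = n :=
    ⟨_, w, h, ⟨1, one_mem _, by simp⟩, rfl⟩
  obtain ⟨u, h1, ⟨x, hx, e⟩, h2⟩ := Nat.find_spec ex
  refine ⟨u, ⟨h1, fun r hr x' hx' e' => h2 ▸ Nat.find_min' ex
    ⟨r, hr, ⟨x * x', mul_mem hx hx', by rw [e', e]; group⟩, rfl⟩⟩,
    h2 ▸ Nat.find_min' ex ⟨w, h, ⟨1, one_mem _, by simp⟩, rfl⟩, x, hx, e⟩
theorem CycMin.of_eq (h : C.CycMin w) (hu : C.Wd u) (hc : ct u ≤ ct w) (hx : x ∈ C.PP)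
    (e : vl u = x⁻¹ * vl w * x) : C.CycMin u :=
  ⟨hu, fun r hr x' hx' e' => hc.trans (h.2 r hr (x * x') (mul_mem hx hx') (by rw [e', e]; group))⟩
theorem rot_split {X : Type} {l l' : List X} (h : l ~r l') : ∃ p q, l = p ++ q ∧ l' = q ++ p := by
  obtain ⟨n, h1, rfl⟩ := List.isRotated_iff_mod.1 h
  exact ⟨l.take n, l.drop n, by simp, List.rotate_eq_drop_append_take h1⟩
theorem Wd.rot (h : C.Wd w) (k : w ~r v) :
    C.Wd v ∧ ct v = ct w ∧ C.sl v = C.sl w ∧ ∃ g ∈ C.PP, vl v = g⁻¹ * vl w * g := by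
  obtain ⟨p, q, rfl, rfl⟩ := rot_split k
  obtain ⟨h1, h2⟩ := wd_append.1 h
  exact ⟨wd_append.2 ⟨h2, h1⟩, by simp [add_comm], by simp [add_comm], vl p, h1.mem_PP,
    by simp⟩
theorem CycMin.rot (h : C.CycMin w) (k : w ~r v) : C.CycMin v := by
  obtain ⟨h1, h2, -, g, h3, h4⟩ := h.1.rot k
  exact h.of_eq h1 h2.le h3 h4
theorem CycMin.cMin (h : C.CycMin w) : C.CMin ⊥ ⊥ w :=
  ⟨h.1, fun r hr x hx y hy e => h.2 r hr 1 (one_mem _) (by
    rw [Subgroup.mem_bot] at hx hy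
    simp [e, hx, hy])⟩
theorem CycMin.head (h : C.CycMin (s :: w)) : C.CMin (C.L s.1) (C.L s.1) w := by
  obtain ⟨h1, h2⟩ := wd_cons.1 h.1
  refine ⟨h2, fun r hr x hx y hy e => ?_⟩
  simpa using h.2 ((s.1, y⁻¹ * s.2 * x⁻¹) :: r)
    (wd_cons.2 ⟨h1.mk' (mul_mem (mul_mem (inv_mem hy) h1.2) (inv_mem hx)), hr⟩)
    y (L_le_PP h1.1 hy) (by simp [e, mul_assoc])
theorem PCh.rot (h : C.PCh (w ++ w)) (k : w ~r v) : C.PCh (v ++ v) := by
  obtain ⟨p, q, rfl, rfl⟩ := rot_split k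
  rcases p with _ | ⟨s, p⟩
  · simpa using h
  have h1 : C.PCh (q ++ (s :: p) ++ q ++ [s] ) ∧ C.PCh (s :: p) := by
    have a := h.sub (v := (s :: p) ++ q ++ [s]) ⟨[], p ++ q, by simp⟩
    have b := h.sub (v := q ++ [s]) ⟨s :: p, p ++ q, by simp⟩
    refine ⟨?_, h.sub ⟨[], q ++ (s :: p ++ q), by simp⟩⟩
    have := List.isChain_split (R := fun s s' => Pair F (C.pr s) (C.pr s')) (c := s) (l₁ := q)
      (l₂ := p ++ q ++ [s])
    simpa [PCh] using this.2 ⟨b, by simpa [PCh] using a⟩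
  have := List.isChain_split (R := fun s s' => Pair F (C.pr s) (C.pr s')) (c := s)
    (l₁ := q ++ (s :: p) ++ q) (l₂ := p)
  simpa [PCh] using this.2 h1

end Cv

@[simp] theorem idC_π (x : MM Γ a) : (idC F).π x = x := rfl
@[simp] theorem idC_L (t : Tg Γ a) : (idC F).L t = LF F t := rfl
@[simp] theorem idC_pr (s : Tg Γ a × MM Γ a) : (idC F).pr s = s := rfl
theorem idC_S (o : Option Bool) : (idC F).S o := trivial
theorem idC_ok {g : MM Γ a} (h : g ∈ XF F o) : (idC F).ok (.inl o, g) := ⟨trivial, h⟩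
theorem idC_lift (t t' : Tg Γ a) (z : List (Tg Γ a × MM Γ a)) : (idC F).Lift t z t' :=
  fun _ _ _ h => h
theorem idC_PP : (idC F).PP = F false ⊔ F true :=
  le_antisymm ((Subgroup.closure_le _).2 fun _ ⟨t, h⟩ => LF_le_P t h.2)
    (sup_le (Cv.L_le_PP (C := idC F) (t := .inl (some false)) trivial)
      (Cv.L_le_PP (C := idC F) (t := .inl (some true)) trivial))
theorem exists_wordP {h : MM Γ a} (hh : h ∈ F false ⊔ F true) : ∃ w, (idC F).Wd w ∧ vl w = h :=
  Cv.exists_word (idC_PP ▸ hh)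

section
variable {w v : List (Tg Γ a × MM Γ a)}
theorem idC_prod : ((idC F).vs w).prod = vl w := Cv.vs_prod
theorem Nice.mem (h : Nice F w) : vl w ∈ F false ⊔ F true := h.wd.mem_P
theorem Nice.winv (h : Nice F w) : Nice F (winv w) :=
  ⟨h.wd.winv, h.nz.winv, fun ν hν hl => by
    rw [Cv.vs_winv]; exact geo_inv (h.geo ν hν (by simpa using hl))⟩
theorem Nice.ls (h : Nice F w) (hν : Big ν) (hl : Ls (ln (vl w)) ν) : Ls ((idC F).sl w) ν := by
  by_cases hb : Big ((idC F).sl w)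
  · refine Ls.trans' ?_ hl
    exact (Ls.refl' _).of_le_add (Cv.geo_iff.1 (h.geo _ hb (Ls.refl' _))) hb.pos 1 (by simp)
  · exact (hν.ll_of_not_big hb).ls
theorem Nice.geo' (h : Nice F w) (hν : Big ν) (hl : Ls (ln (vl w)) ν) : Geo ν ((idC F).vs w) :=
  h.geo ν hν (h.ls hν hl)
theorem XW.nzE {b b' : MM Γ a} {e e' : Option (Tg Γ a × MM Γ a)} (h : XW F b b' e w e') :
    (idC F).NzE (xw e w e') := fun s hs c k hm => by
  rcases (mem_xw _ _ _ _).1 hs with m | m | m
  · rcases (h.l s m).1.cases with ⟨rfl, -⟩ | ⟨i, y, rfl, -⟩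
    exacts [rfl, by cases k]
  · exact h.nz.nzE s m c k hm
  · rcases (h.r s m).1.cases with ⟨q, -⟩ | ⟨i, y, q, -⟩
    · simpa using congrArg Prod.snd q
    · have := congrArg Prod.fst q
      simp [k] at this
theorem XW.winv {b b' : MM Γ a} {e e' : Option (Tg Γ a × MM Γ a)} (h : XW F b b' e w e') :
    XW F b' b (e'.map sinv) (winv w) (e.map sinv) := by
  refine ⟨fun s hs => ?_, fun s hs => ?_, winv_xw e e' ▸ h.good.winv, fun s hs hm => ?_⟩
  · obtain ⟨s0, h0, rfl⟩ := Option.mem_map.1 hs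
    simpa using h.r s0 h0
  · obtain ⟨s0, h0, rfl⟩ := Option.mem_map.1 hs
    simpa using h.l s0 h0
  · simpa using h.nz _ (mem_winv.1 hs) (by simpa using hm)
end

end Pool.Agent.P.MP_dba3d2_lc
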