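import Pool.Agent.P.MP_dba3d2_lc.C.IfaceT2
import Pool.Agent.P.MP_dba3d2_lc.A.Iface
import Pool.Agent.P.MP_dba3d2_lc.B.Iface
import Pool.Agent.P.MP_dba3d2_lc.C.IfaceT
import Pool.Agent.P.MP_dba3d2_lc.C.TTb

/-! Step C_ANC of the stability project. -/

namespace Pool.Agent.P.MP_dba3d2_lc

open Filter

namespace C_ancA
variable {Γ : HG} {a : Amb} {F : Bool → Subgroup (MM Γ a)} {β f h p q : MM Γ a} {μ : a.K}

/-- the axis of `β` is a translate of a typed axis -/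
def Tc (F : Bool → Subgroup (MM Γ a)) (β : MM Γ a) : Prop :=
  ∃ z ∈ F false ⊔ F true, ∃ o b, Typ F o b ∧ Ep (z * b * z⁻¹) = Ep β

theorem Tc.conj {z : MM Γ a} (hz : z ∈ F false ⊔ F true) (k : Tc F (z⁻¹ * β * z)) : Tc F β := by
  obtain ⟨w, hw, o, b, t, e⟩ := k
  refine ⟨z * w, mul_mem hz hw, o, b, t, (Ep_conj_iff' z).1 ?_⟩
  rw [← e]
  congr 1
  group

theorem arc (hE : S_ELEM) (hP : S_PERC) (hG : S_C_G20S) (hF : TwoF F) (hβ : ¬ IsOfFinOrder β)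
    (hμ : Big μ) (hh : h ∈ F false ⊔ F true) (hl : Ls (ln h) μ) (hn : Ls μ (ds p q))
    (o1 : On μ p 1 h) (o2 : On μ q 1 h) (s : Stab μ p q β) : Tc F β := by
  obtain ⟨z, hz, o, b, t, s'⟩ := hG Γ a F hF μ hμ h hh hl p q hn o1 o2 ⟨β, hβ, s⟩
  exact ⟨z, hz, o, b, t, Ep_eq_of_stab hE hP hμ hn (t.2.1.conj z).1 hβ s' s⟩

theorem typ (hE : S_ELEM) {z b : MM Γ a} {o : Option Bool} (hβ : ¬ IsOfFinOrder β)
    (hf : ¬ IsOfFinOrder f) (hm : f ∈ Ep β) (hz : z ∈ F false ⊔ F true) (t : Typ F o b)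
    (e : z⁻¹ * f * z ∈ Ep b) : Tc F β :=
  ⟨z, hz, o, b, t, (Ep_eq hE (t.2.1.conj z).1 (mem_Ep_conj.2 e) hf).symm.trans (Ep_eq hE hβ hm hf)⟩

theorem mem_conj (z : MM Γ a) (hm : f ∈ Ep β) : z⁻¹ * f * z ∈ Ep (z⁻¹ * β * z) :=
  mem_Ep_conj'.2 (by simpa [mul_assoc] using hm)

theorem pert (hE : S_ELEM) (hP : S_PERC) (hD : S_C_DISP) (hG : S_C_G20S) (hC : S_C_CYC)
    (hF : TwoF F) (hβ : Prim β) (hf : f ∈ F false ⊔ F true) (hm : f ∈ Ep β)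
    (hl : Ll (md β) (md f)) : Tc F β := by
  have fi := ((hD Γ a β f hβ hm).2.2 hl).1
  obtain ⟨z, hz, ⟨o, b, t, e⟩ | cen⟩ := hC Γ a F hF f hf fi
  · exact typ hE hβ.1 fi hm hz t e
  obtain ⟨-, big, k⟩ := (hD Γ a _ _ (hβ.conj' z) (mem_conj z hm)).2.2
    (by rw [md_conj, md_conj]; exact hl)
  obtain ⟨N, p, q, hn, o1, o2, s⟩ := k cen
  exact Tc.conj hz (arc hE hP hG hF (hβ.conj' z).1 (big.of_ls (Ls.of_le (md_le_ln _)))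
    (pow_mem (mul_mem (mul_mem (inv_mem hz) hf) hz) N) ⟨N, ln_pow_le _ N⟩ hn o1 o2 s)

end C_ancA

open C_ancA in
theorem p_C_ANC (hELEM : S_ELEM) (hLINE : S_LINE) (hPERC : S_PERC) (hROOT : S_ROOT) (hC_DISP : S_C_DISP) (hC_G20S : S_C_G20S) (hC_CYC : S_C_CYC) :
    S_C_ANC := by
  intro Γ a F hF
  refine ⟨fun c _ pc f hf hm hl => ?_, fun γ hγ fi => ?_⟩
  · obtain ⟨z, hz, o, b, t, e⟩ := pert hELEM hPERC hC_DISP hC_G20S hC_CYC hF pc hf hm hl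
    have k : z⁻¹ * c * z ∈ XF F o := hF.root4 hROOT t.1 t.2.1.1 (pc.conj' z)
      ((Ep_conj_iff z).1 (by rw [e]; congr 1; group))
    obtain ⟨i, hi⟩ := exists_F o
    refine ⟨z, hz, ?_⟩
    cases i
    exacts [.inl (XF_le_F hi k), .inr (XF_le_F hi k)]
  obtain ⟨β, pβ, eβ⟩ := (hELEM Γ a γ fi).1
  have hm : γ ∈ Ep β := eβ ▸ self_mem_Ep γ
  by_cases T : Tc F β
  · obtain ⟨z, hz, o, b, t, e⟩ := T
    exact ⟨z, hz, b, ⟨t.2.1, t.2.2.1, .inl ⟨o, t⟩⟩, e.trans eβ⟩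
  obtain ⟨z, hz, ⟨o, b, t, e⟩ | cen⟩ := hC_CYC Γ a F hF γ hγ fi
  · exact (T (typ hELEM pβ.1 fi hm hz t e)).elim
  have pb := pβ.conj' z
  refine ⟨z, hz, z⁻¹ * β * z, ⟨pb, ?_, .inr fun h hh big _ ⟨q, hq, o1, s⟩ => T (Tc.conj hz ?_)⟩, ?_⟩
  · have k := pb.disp hELEM hLINE (mem_conj z hm) (mt (finOrder_conj' z γ).1 fi) 1
    rw [ds_one_mul, ds_one_mul] at k
    refine (k.trans' cen).trans' ?_
    rw [md_conj, md_conj]
    exact (ll_or_ls (one_pos.trans_le (one_le_md' fi)) _).resolve_left fun l =>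
      T (pert hELEM hPERC hC_DISP hC_G20S hC_CYC hF pβ hγ hm l)
  · exact arc hELEM hPERC hC_G20S hF pb.1 big (inv_mem hh) (by rw [ln_inv]; exact Ls.refl' _)
      (by rwa [ds_one_left]) (on_left big.pos.le _ _) o1 s
  · rw [← eβ]
    congr 1
    group

end Pool.Agent.P.MP_dba3d2_lc
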