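import Pool.Agent.P.MP_dba3d2_lc.C.IfaceT2
import Pool.Agent.P.MP_dba3d2_lc.A.Iface
import Pool.Agent.P.MP_dba3d2_lc.C.IfaceT
import Pool.Agent.P.MP_dba3d2_lc.C.TTb

/-! Step C_CEN of the stability project. -/

namespace Pool.Agent.P.MP_dba3d2_lc

open Filter

namespace C_cenA

variable {Γ : HG} {a : Amb} {c c' d d' p x : MM Γ a}

theorem l1 (u v : a.K) (hv : 0 ≤ v) : Ls u (u + v) := Ls.of_le (le_add_of_nonneg_right hv)
theorem l2 (u v : a.K) (hu : 0 ≤ u) : Ls v (u + v) := Ls.of_le (le_add_of_nonneg_left hu)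

theorem len (hD : S_C_DISP) (hd : Prim d) (hx : x ∈ Ep d) (q : MM Γ a) :
    Ls (ln x) (ds q (x * q) + ln d) := by
  have := (hD Γ a d x hd hx).1 1
  rw [ds_one_mul, ds_one_mul] at this
  exact this.mono_right (add_le_add_left (md_le_ds x q) _)

/-- a centred pair of primitive elements centres the pairs taken in their closures -/
theorem two (hE : S_ELEM) (hL : S_LINE) (hD : S_C_DISP) (hd : Prim d) (hd' : Prim d')
    (h : Cj p d c) (h' : Cj p d' c') (hc : ¬ IsOfFinOrder c) (hc' : ¬ IsOfFinOrder c')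
    (z : ∀ q, Ls (ln d + ln d') (ds q (d * q) + ds q (d' * q))) (q : MM Γ a) :
    Ls (ln (p⁻¹ * c * p) + ln (p⁻¹ * c' * p)) (ln (q⁻¹ * c * q) + ln (q⁻¹ * c' * q)) := by
  have m : p⁻¹ * c * p ∈ Ep d := mem_Ep_conj.1 (by rw [show Ep _ = _ from h]; exact self_mem_Ep c)
  have m' : p⁻¹ * c' * p ∈ Ep d' :=
    mem_Ep_conj.1 (by rw [show Ep _ = _ from h']; exact self_mem_Ep c')
  have e : ∀ u : MM Γ a, ds (p⁻¹ * q) (p⁻¹ * u * p * (p⁻¹ * q)) = ln (q⁻¹ * u * q) := fun u => by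
    rw [disp_conj', mul_inv_cancel_left, ds_conj]
  have k := hd.disp hE hL m (mt (finOrder_conj' p c).1 hc) (p⁻¹ * q)
  have k' := hd'.disp hE hL m' (mt (finOrder_conj' p c').1 hc') (p⁻¹ * q)
  have s := len hD hd m (p⁻¹ * q)
  have s' := len hD hd' m' (p⁻¹ * q)
  rw [e] at k k' s s'
  have u := l1 (ln (q⁻¹ * c * q)) _ (ln_nonneg (q⁻¹ * c' * q))
  have u' := l2 _ (ln (q⁻¹ * c' * q)) (ln_nonneg (q⁻¹ * c * q))
  have w := (z (p⁻¹ * q)).trans' ((k.trans' u).add (k'.trans' u'))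
  exact (s.trans' (u.add ((l1 _ _ (ln_nonneg d')).trans' w))).add
    (s'.trans' (u'.add ((l2 _ _ (ln_nonneg d)).trans' w)))

/-- a centring conjugator of two elements with different closures is short -/
theorem short (hE : S_ELEM) (hP : S_PERC) (hc : ¬ IsOfFinOrder c) (hc' : ¬ IsOfFinOrder c')
    (hne : Ep c ≠ Ep c') (h : Ls (ln (p⁻¹ * c * p) + ln (p⁻¹ * c' * p)) (ln c + ln c')) :
    Ls (ln p) (ln c + ln c') :=
  ls_of_scale (le_add_of_le_of_nonneg ((one_le_md' hc).trans (md_le_ln c)) (ln_nonneg c'))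
    fun hb hl => hne
    (Ep_eq_of_stab hE hP hb (p := 1) (q := p) (by rw [ds_one_left]; exact Ls.refl' _) hc hc'
      ⟨by rw [ds_one_mul]; exact hl.ls_left (l1 _ _ (ln_nonneg c')),
        by rw [ds_conj]; exact hl.ls_left ((l1 _ _ (ln_nonneg _)).trans' h)⟩
      ⟨by rw [ds_one_mul]; exact hl.ls_left (l2 _ _ (ln_nonneg c)),
        by rw [ds_conj]; exact hl.ls_left ((l2 _ _ (ln_nonneg _)).trans' h)⟩)

end C_cenA

theorem p_C_CEN (hELEM : S_ELEM) (hLINE : S_LINE) (hPERC : S_PERC) (hC_PROJ : S_C_PROJ) (hC_BRIDGE : S_C_BRIDGE) (hC_DISP : S_C_DISP) (hC_ANC : S_C_ANC) (hC_NA : S_C_NA) :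
    S_C_CEN := by
  intro Γ a F hF c mc c' mc' hc hc'
  obtain ⟨z, mz, b, hb, eb⟩ := (hC_ANC Γ a F hF).2 c mc hc
  obtain ⟨z', mz', b', hb', eb'⟩ := (hC_ANC Γ a F hF).2 c' mc' hc'
  obtain ⟨g, mg, eg, ng⟩ := (hC_NA Γ a F hF).1 b hb z mz
  have e1 : Cj (z * g) b c := Cj.mul (c' := b) eb (Cj.of_mem eg)
  by_cases e : Ep c = Ep c'
  · refine ⟨z * g, mul_mem mz mg, ?_, C_cenA.two hELEM hLINE hC_DISP hb.1 hb.1 e1
      (Eq.trans e1 e) hc hc' fun q => ?_⟩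
    · have k := (hb.1.conj (z * g)).disp' hELEM hLINE hc e1 1
      rw [ds_one_mul, ds_one_mul] at k
      exact ((hC_PROJ Γ a b _ hb.1 hb.2.1 ng).1.trans' k).trans' (C_cenA.l1 _ _ (ln_nonneg c'))
    · have k : Ls (ln b) (ds q (b * q) + ds q (b * q)) :=
        (Ls.mono_right hb.2.1 (md_le_ds b q)).trans' (C_cenA.l1 _ _ (ds_nonneg _ _))
      exact k.add k
  · obtain ⟨f, mf, f', mf', ef, ef', n, n'⟩ := (hC_NA Γ a F hF).2 b b' hb hb' ((z * g)⁻¹ * z')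
      (mul_mem (inv_mem (mul_mem mz mg)) mz') fun k => e (by
        have := e1.mul k
        rw [mul_inv_cancel_left] at this
        exact Eq.trans (Eq.symm this) eb')
    have e2 : Cj (z * g * f⁻¹) b c := e1.mul (Cj.of_mem (inv_mem ef))
    have e3 : Cj (z * g * f⁻¹)
        (f * ((z * g)⁻¹ * z') * f' * b' * (f * ((z * g)⁻¹ * z') * f')⁻¹) c' := by
      have := Cj.mul (c' := b') eb' (Cj.of_mem ef')
      rw [Cj, ← show Ep _ = _ from this]; congr 1; group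
    have k := C_cenA.two hELEM hLINE hC_DISP hb.1 (hb'.1.conj _) e2 e3 hc hc'
      (hC_BRIDGE Γ a b b' _ hb.1 hb.2.1 hb'.1 hb'.2.1 n n')
    refine ⟨_, mul_mem (mul_mem mz mg) (inv_mem mf), C_cenA.short hELEM hPERC hc hc' e ?_, k⟩
    simpa only [inv_one, one_mul, mul_one] using k 1

end Pool.Agent.P.MP_dba3d2_lc
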