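import Pool.Agent.P.MP_dba3d2_lc.C.IfaceT2
import Pool.Agent.P.MP_dba3d2_lc.A.Iface
import Pool.Agent.P.MP_dba3d2_lc.C.IfaceT
import Pool.Agent.P.MP_dba3d2_lc.C.TTb

/-! Step C_EX of the stability project. -/

namespace Pool.Agent.P.MP_dba3d2_lc

open Filter

namespace C_exA

variable {Γ : HG} {a : Amb}

theorem aux (hE : S_ELEM) (hL : S_LINE) (hP : S_C_PROJ) {μ : a.K} {b d y : MM Γ a} (hμ : Big μ)
    (hb : Prim b) (cb : Cen b) (hd : Prim d) (ne : NE b y) (e : Cj y b d) (h1 : Ls (ln d) μ)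
    (h2 : Ll (md d) μ) : Ll (2 * ln y - ln d) μ := by
  have hβ := hb.conj y
  have a1 : Ll (md b) μ := by
    rw [← md_conj' y b]
    exact Ll.ls_left (Prim.md_ls hE hL hβ hd.1 e) h2
  have a2 := Prim.disp' hE hL hβ hd.1 e 1
  rw [ds_one_mul, ds_one_mul] at a2
  obtain ⟨p1, p2⟩ := hP Γ a b y hb cb ne
  have a3 := (p2 μ hμ a1 (p1.trans' (a2.trans' h1))).2
  have a4 := disp_ll (c := y * b * y⁻¹) hμ h2 (fun w hw => Prim.fix hE hL hβ hd.1 e hw) 1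
  rw [ds_one_mul, ds_one_mul] at a4
  exact Ll.mono_left (by linarith) (a3.add a4)

end C_exA

theorem p_C_EX (hELEM : S_ELEM) (hLINE : S_LINE) (hC_PROJ : S_C_PROJ) (hC_ANC : S_C_ANC) (hC_NA : S_C_NA) :
    S_C_EX := by
  intro Γ a F hF μ hμ h hh l1 c hc pc l2 l3
  obtain ⟨z, hz, b, anc, e⟩ := (hC_ANC Γ a F hF).2 c hc pc.1
  have e0 : Cj z b c := e
  obtain ⟨f1, m1, e1, n1⟩ := (hC_NA Γ a F hF).1 b anc z hz
  obtain ⟨f2, m2, e2, n2⟩ := (hC_NA Γ a F hF).1 b anc (h⁻¹ * z) (mul_mem (inv_mem hh) hz)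
  have a1 := C_exA.aux hELEM hLINE hC_PROJ hμ anc.1 anc.2.1 pc n1 (e0.mul (Cj.of_mem e1)) l2 l3
  have l4 : Ls (ln (h⁻¹ * c * h)) μ := by
    refine Ls.mono_left ?_ ((l1.add l2).add l1)
    have b1 := ln_mul_le (h⁻¹ * c) h
    have b2 := ln_mul_le h⁻¹ c
    rw [ln_inv] at b2
    linarith
  have a2 := C_exA.aux hELEM hLINE hC_PROJ hμ anc.1 anc.2.1 (pc.conj' h) n2
    (((Cj.self' h c).inv.mul e0).mul (Cj.of_mem e2)) l4 (by rwa [md_conj])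
  refine ⟨z * (f2 * f1⁻¹) * z⁻¹, mul_mem (mul_mem hz (mul_mem m2 (inv_mem m1))) (inv_mem hz),
    e0.mem_Ep (mul_mem e2 (inv_mem e1)), Ll.mono_left ?_ (a1.add a2)⟩
  have b1 := ln_mul_le (z * f1) (h⁻¹ * z * f2)⁻¹
  have b2 : ds (z * (f2 * f1⁻¹) * z⁻¹) h = ln (z * f1 * (h⁻¹ * z * f2)⁻¹) := by
    rw [ds]; congr 1; group
  rw [ln_inv] at b1
  linarith

end Pool.Agent.P.MP_dba3d2_lc
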