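import Pool.Agent.P.MP_dba3d2_lc.C.IfaceT2
import Pool.Agent.P.MP_dba3d2_lc.A.Iface
import Pool.Agent.P.MP_dba3d2_lc.C.IfaceT
import Pool.Agent.P.MP_dba3d2_lc.C.TTb

/-! Step C_G2 of the stability project. -/

namespace Pool.Agent.P.MP_dba3d2_lc

open Filter

namespace C_g2A

variable {Γ : HG} {a : Amb} {μ : a.K} {F : Bool → Subgroup (MM Γ a)}
  {g h h' m p q x y c : MM Γ a} {w w' : List (Tg Γ a × MM Γ a)}

theorem tr (h : On μ p g (g * x)) : On μ (g⁻¹ * p) 1 x := by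
  simpa using h.mul g⁻¹

theorem st (h : Stab μ (g⁻¹ * p) (g⁻¹ * q) c) : Stab μ p q (g * c * g⁻¹) := by
  simpa using (stab_conj g).2 h

theorem cutw (hμ : Big μ) (hw : Nice F w) (hl : Ls (ln (vl w)) μ) (N : MM Γ a → MM Γ a → Prop)
    (hN : ∀ p q, N p q → Ls μ (ds p q)) (hc : ∀ p q m, N p q → On μ m p q → N p m ∨ N m q)
    (x₀ : MM Γ a) (hp : On μ p x₀ (x₀ * vl w)) (hq : On μ q x₀ (x₀ * vl w)) (h : N p q) :
    ∃ z ∈ F false ⊔ F true, ∃ t y, TOK F (fun _ => True) t ∧ y ∈ LF F t ∧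
      (∀ c, t = .inr c → y ∉ XF F none) ∧ Ls (ln y) μ ∧ ∃ p' q', N p' q' ∧
        On μ p' (x₀ * z) (x₀ * z * y) ∧ On μ q' (x₀ * z) (x₀ * z * y) := by
  obtain ⟨L₁, x, L₂, p', q', e, h1, h2, h3⟩ := (Geo.cut hμ N False hN
    (fun p q m k k' => (hc p q m k k').imp_right Or.inl) _ x₀ p q (hw.geo' hμ hl)
    (by rwa [idC_prod]) (by rwa [idC_prod]) h).resolve_left id
  obtain ⟨w₁, w₂, rfl, rfl, e2⟩ := List.map_eq_append_iff.1 e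
  obtain ⟨s, w₃, rfl, rfl, -⟩ := List.map_eq_cons_iff.1 e2
  have hs : s ∈ w₁ ++ s :: w₃ := by simp
  have b : Ls μ (ln ((idC F).π s.2)) := by
    simpa only [ds_mul_right] using On.nondeg hμ h2 h3 (hN _ _ h1)
  refine ⟨_, ?_, s.1, s.2, (hw.wd s hs).1, (hw.wd s hs).2, hw.nz.big hs hμ b,
    (hw.ls hμ hl).mono_left (Cv.ln_le_sl hs), p', q', h1, h2, h3⟩
  exact (idC_prod (F := F) (w := w₁)).symm ▸ (Cv.wd_append.1 hw.wd).1.mem_P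

theorem piece (hA : S_C_ARC) (hJ : S_C_J0) (T : TwoF F) (hμ : Big μ) (hw : Nice F w)
    (hw' : Nice F w') (hl : Ls (ln (vl w)) μ) (hl' : Ls (ln (vl w')) μ)
    (ov : Ov μ p q 1 (vl w) g (g * vl w')) (N : MM Γ a → MM Γ a → Prop)
    (hN : ∀ p' q', N p' q' → Ls μ (ds p' q') ∧ On μ p' p q ∧ On μ q' p q)
    (hc : ∀ p q m, N p q → On μ m p q → N p m ∨ N m q) (h : N p q) :
    g ∈ F false ⊔ F true ∨ ∃ z ∈ F false ⊔ F true, ∃ z' ∈ F false ⊔ F true, ∃ o o',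
      ∃ b ∈ XF F o, ∃ b' ∈ XF F o', Prim b ∧ Prim b' ∧ Cj (z⁻¹ * g * z') b' b ∧
        ∃ p' q', N p' q' ∧ Stab μ p' q' (z * b * z⁻¹) := by
  obtain ⟨-, a1, a2, b1, b2⟩ := ov
  obtain ⟨z, hz, t, y, t1, t2, t3, t4, p1, q1, n1, o1, o2⟩ := cutw hμ hw hl N
    (fun _ _ k => (hN _ _ k).1) hc 1 (by rwa [one_mul]) (by rwa [one_mul]) h
  rw [one_mul] at o1 o2
  obtain ⟨z', hz', t', y', s1, s2, s3, s4, p2, q2, ⟨n2, o3, o4⟩, o5, o6⟩ := cutw hμ hw' hl'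
    (fun p' q' => N p' q' ∧ On μ p' z (z * y) ∧ On μ q' z (z * y)) (fun _ _ k => (hN _ _ k.1).1)
    (fun p' q' m e hm =>
      have om := On.conv hμ e.2.1 e.2.2 hm
      (hc p' q' m e.1 hm).imp (fun x => ⟨x, e.2.1, om⟩) fun x => ⟨x, om, e.2.2⟩) g
    (b1.conv hμ b2 (hN _ _ n1).2.1) (b1.conv hμ b2 (hN _ _ n1).2.2) ⟨n1, o1, o2⟩
  have e : ∀ r : MM Γ a, (z⁻¹ * g * z')⁻¹ * (z⁻¹ * r) = (g * z')⁻¹ * r := fun r => by group
  rcases hJ Γ a F T μ t t' y y' (z⁻¹ * g * z') (z⁻¹ * p2) (z⁻¹ * q2) hμ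
    (by rw [ds_mul_left]; exact (hN _ _ n2).1) t1 s1 t2 s2
    (hA Γ a F T μ t y _ _ hμ t1 t2 t3 t4 (tr o3) (tr o4))
    (by rw [e, e]; exact hA Γ a F T μ t' y' _ _ hμ s1 s2 s3 s4 (tr o5) (tr o6)) with
    ⟨o, o', -, -, k, hk, k', hk', e1⟩ | ⟨b, b', c1, c2, c3⟩
  · left
    have : g = z * (k * k') * z'⁻¹ := by rw [← e1]; group
    rw [this]
    exact mul_mem (mul_mem hz (mul_mem (XF_le_P o hk) (XF_le_P o' hk'))) (inv_mem hz')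
  · exact .inr ⟨z, hz, z', hz', _, _, b, c1.1, b', c2.1, c1.2.1, c2.2.1, c3, p2, q2, n2,
      st c1.2.2.1⟩

end C_g2A

open C_g2A in
theorem p_C_G2 (hELEM : S_ELEM) (hLINE : S_LINE) (hC_ARC : S_C_ARC) (hC_J0 : S_C_J0) (hC_NFE : S_C_NFE) (hC_RIGX : S_C_RIGX) :
    S_C_G2 := by
  intro Γ a F T μ hμ h hh h' hh' hl hl' g p q ov np
  have h0 := hμ.pos.le
  obtain ⟨w, hw, rfl⟩ := (hC_NFE Γ a F T).1 h hh
  obtain ⟨w', hw', rfl⟩ := (hC_NFE Γ a F T).1 h' hh'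
  rcases piece hC_ARC hC_J0 T hμ hw hw' hl hl' ov
    (fun p' q' => Ls μ (ds p' q') ∧ On μ p' p q ∧ On μ q' p q) (fun _ _ k => k)
    (fun p' q' m e hm =>
      have om := On.conv hμ e.2.1 e.2.2 hm
      (Ls.add_cases (e.1.mono_right (ds_tri p' m q'))).imp (fun x => ⟨x, e.2.1, om⟩)
        fun x => ⟨x, om, e.2.2⟩) ⟨ov.1, on_left h0 _ _, on_right h0 _ _⟩ with
    e | ⟨z, hz, z', hz', o, o', b, hb, b', hb', p1, p2, j1, -⟩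
  · exact e
  have ns : ¬ Stab μ p q (z * b * z⁻¹) := fun k => np ⟨_, (p1.conj z).1, k⟩
  rcases piece hC_ARC hC_J0 T hμ hw hw' hl hl' ov
    (fun p' q' => (Ls μ (ds p' q') ∧ On μ p' p q ∧ On μ q' p q) ∧ ¬ Stab μ p' q' (z * b * z⁻¹))
    (fun _ _ k => k.1) (by
      rintro p' q' m ⟨⟨e1, e2, e3⟩, e4⟩ hm
      have om := On.conv hμ e2 e3 hm
      have tri := ds_tri p' m q'
      rcases ll_or_ls hμ.pos (ds p' m) with u | u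
      · exact Or.inr ⟨⟨e1.of_le_add u hμ.pos 1 (by push_cast; linarith), om, e3⟩,
          fun e => e4 (e.congr (FixA.ll_comm u) (FixA.ll_self h0 _))⟩
      rcases ll_or_ls hμ.pos (ds m q') with v | v
      · exact Or.inl ⟨⟨u, e2, om⟩, fun e => e4 (e.congr (FixA.ll_self h0 _) v)⟩
      by_cases k1 : Stab μ p' m (z * b * z⁻¹)
      · exact Or.inr ⟨⟨v, om, e3⟩, fun e => e4 ⟨k1.1, e.2⟩⟩
      · exact Or.inl ⟨⟨u, e2, om⟩, k1⟩) ⟨⟨ov.1, on_left h0 _ _, on_right h0 _ _⟩, ns⟩ with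
    e | ⟨k, hk, k', hk', o1, o1', d, hd, d', hd', q1, q2, j2, p', q', n, s⟩
  · exact e
  exact hC_RIGX Γ a F T g z hz z' hz' k hk k' hk' o o' o1 o1' b hb b' hb' d hd d' hd' p1 p2 q1 q2
    j1 j2 fun e => n.2 ⟨(p1.conj z).fix hELEM hLINE (q1.conj k).1 e s.1,
      (p1.conj z).fix hELEM hLINE (q1.conj k).1 e s.2⟩

end Pool.Agent.P.MP_dba3d2_lc
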