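import Pool.Agent.P.MP_dba3d2_lc.C.IfaceT2
import Pool.Agent.P.MP_dba3d2_lc.C.IfaceT
import Pool.Agent.P.MP_dba3d2_lc.C.TTb

/-! Step C_PUR of the stability project. -/

namespace Pool.Agent.P.MP_dba3d2_lc

open Filter

namespace C_purA

variable {Γ : HG} {a : Amb}

/-- the conclusion of purity -/
def Pu (P : Subgroup (MM Γ a)) (c f : MM Γ a) (n : ℕ) : Prop :=
  ∃ f' ∈ P, f' ∈ Ep c ∧ ∃ r : ℕ, IsOfFinOrder (f⁻¹ * (f' ^ n * c ^ r))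

theorem Pu.conj {P : Subgroup (MM Γ a)} {c f p : MM Γ a} {n : ℕ} (hp : p ∈ P)
    (h : Pu P (p⁻¹ * c * p) (p⁻¹ * f * p) n) : Pu P c f n := by
  obtain ⟨f', h1, h2, r, h3⟩ := h
  refine ⟨p * f' * p⁻¹, mul_mem (mul_mem hp h1) (inv_mem hp), mem_Ep_conj'.1 h2, r, ?_⟩
  have e : f⁻¹ * ((p * f' * p⁻¹) ^ n * c ^ r) =
      p * ((p⁻¹ * f * p)⁻¹ * (f' ^ n * (p⁻¹ * c * p) ^ r)) * p⁻¹ := by
    have e2 : (p⁻¹ * c * p) ^ r = p⁻¹ * c ^ r * p := by simpa using conj_pow (a := p⁻¹) (b := c)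
    rw [conj_pow, e2]
    group
  rw [e, finOrder_conj]
  exact h3

theorem F_le (F : Bool → Subgroup (MM Γ a)) (i : Bool) : F i ≤ F false ⊔ F true := by
  cases i
  exacts [le_sup_left, le_sup_right]

theorem conj_mem_Ep {c f : MM Γ a} (p : MM Γ a) (h : f ∈ Ep c) :
    p⁻¹ * f * p ∈ Ep (p⁻¹ * c * p) :=
  mem_Ep_conj'.2 (by simpa [mul_assoc] using h)

theorem base (hC_PURE : S_C_PURE) (hC_E12 : S_C_E12) {F : Bool → Subgroup (MM Γ a)}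
    (hF : TwoF F) (i : Bool) {c f : MM Γ a} (hc : c ∈ F i) (hp : Prim c)
    (hf : f ∈ F false ⊔ F true) (he : f ∈ Ep c) {n : ℕ} (hn : 0 < n) :
    Pu (F false ⊔ F true) c f n := by
  by_cases h : ∃ g ∈ F i, g⁻¹ * c * g ∈ F (!i)
  · obtain ⟨g, h1, h2⟩ := h
    have h3 : g⁻¹ * c * g ∈ F i := mul_mem (mul_mem (inv_mem h1) hc) h1
    have h4 : g⁻¹ * c * g ∈ XF F none := by
      cases i
      exacts [⟨h3, h2⟩, ⟨h2, h3⟩]
    have hg := F_le F i h1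
    refine Pu.conj hg ?_
    obtain ⟨f', a1, r, a2⟩ := hC_PURE Γ a F hF _ h4 (hp.conj' g) _
      ((hC_E12 Γ a F hF).1 _ h4 (hp.conj' g) _ (mul_mem (mul_mem (inv_mem hg) hf) hg)
        (conj_mem_Ep g he)) n hn
    exact ⟨f', EF_le_P a1, EF_le_Ep a1, r, a2⟩
  · obtain ⟨f', a1, a2, a3⟩ := (hF.gc i).pur c hc hp f
      ((hC_E12 Γ a F hF).2 i c hc hp (fun g h1 h2 => h ⟨g, h1, h2⟩) f hf he) he n hn
    exact ⟨f', F_le F i a1, a2, a3⟩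

end C_purA

open C_purA

theorem p_C_PUR (hC_DISP : S_C_DISP) (hC_PURE : S_C_PURE) (hC_ANC : S_C_ANC) (hC_E12 : S_C_E12) :
    S_C_PUR := by
  intro Γ a F hF c hc hp f hf he n hn
  by_cases h : Ls (md f) (md c)
  · obtain ⟨m, hm⟩ := (hC_DISP Γ a c f hp he).2.1 h
    have hn' : (n : ℤ) ≠ 0 := by omega
    obtain ⟨r, hr⟩ := Int.eq_ofNat_of_zero_le (Int.emod_nonneg m hn')
    refine ⟨c ^ (m / n), zpow_mem hc _, zpow_mem (self_mem_Ep c) _, r, ?_⟩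
    rw [← zpow_natCast, ← zpow_natCast c, ← zpow_mul, ← zpow_add, ← hr, Int.ediv_mul_add_emod]
    exact hm
  · have k : Ll (md c) (md f) := fun n => (not_le.1 fun a => h ⟨n, a⟩).le
    obtain ⟨p, h1, h2⟩ := (hC_ANC Γ a F hF).1 c hc hp f hf he k
    have h3 : ∃ i, p⁻¹ * c * p ∈ F i := h2.elim (fun e => ⟨false, e⟩) fun e => ⟨true, e⟩
    obtain ⟨i, h3⟩ := h3
    exact Pu.conj h1 (base hC_PURE hC_E12 hF i h3 (hp.conj' p)
      (mul_mem (mul_mem (inv_mem h1) hf) h1) (conj_mem_Ep p he) hn)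

end Pool.Agent.P.MP_dba3d2_lc
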