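import Pool.Agent.P.MP_dba3d2_lc.C.IfaceE
import Pool.Agent.P.MP_dba3d2_lc.C.C_g2
import Pool.Agent.P.MP_dba3d2_lc.C.C_anc
import Pool.Agent.P.MP_dba3d2_lc.C.C_cen
import Pool.Agent.P.MP_dba3d2_lc.C.C_ex
import Pool.Agent.P.MP_dba3d2_lc.C.C_pur

/-! Step ADJ0 of the stability project. -/

namespace Pool.Agent.P.MP_dba3d2_lc

open Filter

namespace Adj0A

variable {Γ : HG} {a : Amb} {μ : a.K} {B T : Subgroup (MM Γ a)} {g h h' p q β f b z : MM Γ a}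

theorem cut (D : AdjD B T) (hμ : Big μ) (hh : h ∈ T) (hl : Ls (ln h) μ)
    (N : MM Γ a → MM Γ a → Prop) (hN : ∀ p q, N p q → Ls μ (ds p q))
    (hc : ∀ p q m, N p q → On μ m p q → N p m ∨ N m q) (x₀ : MM Γ a)
    (hp : On μ p x₀ (x₀ * h)) (hq : On μ q x₀ (x₀ * h)) (k : N p q) :
    ∃ z ∈ T, ∃ p' q', N p' q' ∧ ((∃ w ∈ B, Ls (ln w) μ ∧ On μ p' (x₀ * z) (x₀ * z * w) ∧
      On μ q' (x₀ * z) (x₀ * z * w)) ∨
      ∃ d ∈ B, Prim d ∧ Stab μ p' q' (x₀ * z * d * (x₀ * z)⁻¹)) := by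
  obtain ⟨L, rfl, hG, hL⟩ := D.cov μ hμ h hh hl
  obtain ⟨L₁, x, L₂, p', q', rfl, h1, h2, h3⟩ := (Geo.cut hμ N False hN
    (fun p q m k k' => (hc p q m k k').imp_right Or.inl) L x₀ p q hG hp hq k).resolve_left id
  obtain ⟨-, g, hg, e⟩ := hL x (by simp)
  refine ⟨L₁.prod * g, mul_mem (T.list_prod_mem fun y hy => (hL y (by simp [hy])).1) hg, p', q', h1,
    e.imp ?_ fun e => ?_⟩
  · rintro ⟨w, hw, l, a1, a2⟩
    have b1 := a1.mul (x₀ * L₁.prod)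
    have b2 := a2.mul (x₀ * L₁.prod)
    simp only [mul_one, ← mul_assoc] at b1 b2 ⊢
    exact ⟨w, hw, l, On.conv hμ b1 b2 h2, On.conv hμ b1 b2 h3⟩
  · obtain ⟨d, d1, d2, d3⟩ := e (by simpa only [ds_mul_right] using On.nondeg hμ h2 h3 (hN _ _ h1))
    have s := (stab_conj (x₀ * L₁.prod)).2 d3
    rw [mul_one] at s
    refine ⟨d, d1, d2, ?_⟩
    rw [show x₀ * (L₁.prod * g) * d * (x₀ * (L₁.prod * g))⁻¹ =
      x₀ * L₁.prod * (g * d * g⁻¹) * (x₀ * L₁.prod)⁻¹ by group]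
    exact s.sub hμ h2 h3

/-- the axis of `β` is a translate of a centred axis of the base -/
def Tc (B T : Subgroup (MM Γ a)) (β : MM Γ a) : Prop :=
  ∃ z ∈ T, ∃ b ∈ B, Prim b ∧ Cen b ∧ Cj z b β

theorem tc (D : AdjD B T) (hz : z ∈ T) (hb : b ∈ B) (pb : Prim b) (e : Cj z b β) : Tc B T β := by
  obtain ⟨x, hx, -, k⟩ := D.gc.cen1 hb pb.1
  exact ⟨z * x, mul_mem hz (D.le hx), _, mul_mem (mul_mem (inv_mem hx) hb) hx, pb.conj' x, k,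
    e.mul (Cj.self' x b)⟩

theorem Tc.conj (hz : z ∈ T) (k : Tc B T (z⁻¹ * β * z)) : Tc B T β := by
  obtain ⟨w, hw, b, t1, t2, t3, e⟩ := k
  exact ⟨z * w, mul_mem hz hw, b, t1, t2, t3, (Cj.self' z β).mul e⟩

theorem arc (hE : S_ELEM) (hP : S_PERC) (D : AdjD B T) (hβ : ¬ IsOfFinOrder β) (hμ : Big μ)
    (hh : h ∈ T) (hl : Ls (ln h) μ) (hn : Ls μ (ds p q)) (o1 : On μ p 1 h) (o2 : On μ q 1 h)
    (s : Stab μ p q β) : Tc B T β := by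
  obtain ⟨z, hz, p', q', ⟨n', s'⟩, e⟩ := cut D hμ hh hl
    (fun p' q' => Ls μ (ds p' q') ∧ Stab μ p' q' β) (fun _ _ k => k.1)
    (fun p' q' m k hm => (Ls.add_cases (k.1.mono_right (ds_tri p' m q'))).imp
      (fun l => ⟨l, k.2.sub hμ (on_left hμ.pos.le _ _) hm⟩)
      fun l => ⟨l, k.2.sub hμ hm (on_right hμ.pos.le _ _)⟩) 1 (by rwa [one_mul]) (by rwa [one_mul])
    ⟨hn, s⟩
  rw [one_mul] at e
  obtain ⟨d, d1, d2, d3⟩ : ∃ d ∈ B, Prim d ∧ Stab μ p' q' (z * d * z⁻¹) := by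
    rcases e with ⟨w, hw, l, a1, a2⟩ | e
    · obtain ⟨d, d1, d2, d3⟩ := D.gc.g20 μ hμ w hw l _ _ (by rwa [ds_mul_left]) (C_g2A.tr a1)
        (C_g2A.tr a2) ((per_mul_iff _).2 ⟨β, hβ, s'⟩)
      exact ⟨d, d1, d2, C_g2A.st d3⟩
    · exact e
  exact tc D hz d1 d2 (Ep_eq_of_stab hE hP hμ n' (d2.conj z).1 hβ d3 s')

theorem g20s (hE : S_ELEM) (hL : S_LINE) (hP : S_PERC) (D : AdjD B T) (hμ : Big μ) (hh : h ∈ T)
    (hl : Ls (ln h) μ) (hn : Ls μ (ds p q)) (o1 : On μ p 1 h) (o2 : On μ q 1 h) (s : Per μ p q) :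
    ∃ z ∈ T, ∃ b ∈ B, Prim b ∧ Cen b ∧ Stab μ p q (z * b * z⁻¹) := by
  obtain ⟨β, hβ, s⟩ := s
  obtain ⟨z, hz, b, t1, t2, t3, e⟩ := arc hE hP D hβ hμ hh hl hn o1 o2 s
  exact ⟨z, hz, b, t1, t2, t3, (t2.conj z).fix hE hL hβ e s.1, (t2.conj z).fix hE hL hβ e s.2⟩

theorem piece (hE : S_ELEM) (hL : S_LINE) (hP : S_PERC) (hR : S_ROOT) (D : AdjD B T) (hμ : Big μ)
    (hh : h ∈ T) (hh' : h' ∈ T) (hl : Ls (ln h) μ) (hl' : Ls (ln h') μ)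
    (ov : Ov μ p q 1 h g (g * h')) (N : MM Γ a → MM Γ a → Prop)
    (hN : ∀ p' q', N p' q' → Ls μ (ds p' q') ∧ On μ p' p q ∧ On μ q' p q)
    (hc : ∀ p q m, N p q → On μ m p q → N p m ∨ N m q) (k : N p q) :
    g ∈ T ∨ ∃ z ∈ T, ∃ z' ∈ T, ∃ b ∈ B, Prim b ∧ Cen b ∧ z⁻¹ * g * z' ∈ Ep b ∧
      ∃ p' q', N p' q' ∧ Stab μ p' q' (z * b * z⁻¹) := by
  obtain ⟨-, a1, a2, b1, b2⟩ := ov
  have per : ∀ p' q', N p' q' → Per μ p' q' → ∃ z ∈ T, ∃ z' ∈ T, ∃ b ∈ B, Prim b ∧ Cen b ∧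
      z⁻¹ * g * z' ∈ Ep b ∧ ∃ p' q', N p' q' ∧ Stab μ p' q' (z * b * z⁻¹) := by
    intro p' q' n s
    obtain ⟨n1, n2, n3⟩ := hN _ _ n
    obtain ⟨z, hz, b, t1, t2, t3, e⟩ := g20s hE hL hP D hμ hh hl n1 (a1.conv hμ a2 n2)
      (a1.conv hμ a2 n3) s
    obtain ⟨z', hz', b', u1, u2, -, e'⟩ := g20s hE hL hP D hμ hh' hl' (by rwa [ds_mul_left])
      (C_g2A.tr (b1.conv hμ b2 n2)) (C_g2A.tr (b1.conv hμ b2 n3)) ((per_mul_iff _).2 s)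
    have j : Cj g (z' * b' * z'⁻¹) (z * b * z⁻¹) :=
      Ep_eq_of_stab hE hP hμ n1 ((u2.conj z').conj g).1 (t2.conj z).1 (C_g2A.st e') e
    obtain ⟨y, hy, k⟩ := (hR Γ a B D.gc).2.2.2.2.2 b t1 b' u1 t2.1 u2.1 _
      (((Cj.self z b).inv.mul j).mul (Cj.self z' b'))
    exact ⟨z, hz, z' * y⁻¹, mul_mem hz' (inv_mem (D.le hy)), b, t1, t2, t3,
      by rwa [← mul_assoc], p', q', n, e⟩
  obtain ⟨z, hz, p1, q1, n1, ⟨y, hy, l, o1, o2⟩ | ⟨d, -, d2, d3⟩⟩ := cut D hμ hh hl N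
    (fun _ _ k => (hN _ _ k).1) hc 1 (by rwa [one_mul]) (by rwa [one_mul]) k
  swap
  · exact .inr (per _ _ n1 ⟨_, (d2.conj _).1, d3⟩)
  rw [one_mul] at o1 o2
  obtain ⟨z', hz', p2, q2, ⟨n2, o3, o4⟩, ⟨y', hy', l', o5, o6⟩ | ⟨d, -, d2, d3⟩⟩ := cut D hμ hh' hl'
    (fun p' q' => N p' q' ∧ On μ p' z (z * y) ∧ On μ q' z (z * y)) (fun _ _ k => (hN _ _ k.1).1)
    (fun p' q' m e hm =>
      have om := On.conv hμ e.2.1 e.2.2 hm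
      (hc p' q' m e.1 hm).imp (fun x => ⟨x, e.2.1, om⟩) fun x => ⟨x, om, e.2.2⟩) g
    (b1.conv hμ b2 (hN _ _ n1).2.1) (b1.conv hμ b2 (hN _ _ n1).2.2) ⟨n1, o1, o2⟩
  swap
  · exact .inr (per _ _ n2 ⟨_, (d2.conj _).1, d3⟩)
  by_cases s : Per μ p2 q2
  · exact .inr (per _ _ n2 s)
  have e := D.gc.g2 μ hμ y hy y' hy' l l' (z⁻¹ * (g * z')) (z⁻¹ * p2) (z⁻¹ * q2)
    ⟨by rw [ds_mul_left]; exact (hN _ _ n2).1, C_g2A.tr o3, C_g2A.tr o4,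
      by simpa only [mul_assoc] using o5.mul z⁻¹, by simpa only [mul_assoc] using o6.mul z⁻¹⟩
    (mt (per_mul_iff _).1 s)
  have := D.le e
  rw [mul_mem_cancel_left (inv_mem hz), mul_mem_cancel_right hz'] at this
  exact .inl this

theorem g2 (hE : S_ELEM) (hL : S_LINE) (hP : S_PERC) (hR : S_ROOT) (D : AdjD B T) (hμ : Big μ)
    (hh : h ∈ T) (hh' : h' ∈ T) (hl : Ls (ln h) μ) (hl' : Ls (ln h') μ)
    (ov : Ov μ p q 1 h g (g * h')) (np : ¬ Per μ p q) : g ∈ T := by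
  have h0 := hμ.pos.le
  rcases piece hE hL hP hR D hμ hh hh' hl hl' ov
    (fun p' q' => Ls μ (ds p' q') ∧ On μ p' p q ∧ On μ q' p q) (fun _ _ k => k)
    (fun p' q' m e hm =>
      have om := On.conv hμ e.2.1 e.2.2 hm
      (Ls.add_cases (e.1.mono_right (ds_tri p' m q'))).imp (fun x => ⟨x, e.2.1, om⟩)
        fun x => ⟨x, om, e.2.2⟩) ⟨ov.1, on_left h0 _ _, on_right h0 _ _⟩ with
    e | ⟨z, hz, z', hz', b, hb, p1, c1, j1, -⟩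
  · exact e
  have ns : ¬ Stab μ p q (z * b * z⁻¹) := fun k => np ⟨_, (p1.conj z).1, k⟩
  rcases piece hE hL hP hR D hμ hh hh' hl hl' ov
    (fun p' q' => (Ls μ (ds p' q') ∧ On μ p' p q ∧ On μ q' p q) ∧ ¬ Stab μ p' q' (z * b * z⁻¹))
    (fun _ _ k => k.1) (by
      rintro p' q' m ⟨⟨e1, e2, e3⟩, e4⟩ hm
      have om := On.conv hμ e2 e3 hm
      have tri := ds_tri p' m q'
      rcases ll_or_ls hμ.pos (ds p' m) with u | u
      · exact Or.inr ⟨⟨e1.of_le_add u hμ.pos 1 (by push_cast; linarith), om, e3⟩,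
          fun e => e4 (e.congr (FixA.ll_comm u) (FixA.ll_self h0 _))⟩
      rcases ll_or_ls hμ.pos (ds m q') with v | v
      · exact Or.inl ⟨⟨u, e2, om⟩, fun e => e4 (e.congr (FixA.ll_self h0 _) v)⟩
      by_cases k1 : Stab μ p' m (z * b * z⁻¹)
      · exact Or.inr ⟨⟨v, om, e3⟩, fun e => e4 ⟨k1.1, e.2⟩⟩
      · exact Or.inl ⟨⟨u, e2, om⟩, k1⟩) ⟨⟨ov.1, on_left h0 _ _, on_right h0 _ _⟩, ns⟩ with
    e | ⟨k, hk, k', hk', d, hd, q1, c2, j2, p', q', n, s⟩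
  · exact e
  have := D.rig b hb d hd p1 c1 q1 c2 (z⁻¹ * k) (mul_mem (inv_mem hz) hk) (z'⁻¹ * k')
    (mul_mem (inv_mem hz') hk') _ j1 _ j2 (by group) fun j => by
      have e := (Cj.self z b).mul j
      rw [mul_inv_cancel_left] at e
      exact n.2 ⟨(p1.conj z).fix hE hL (q1.conj k).1 (Eq.symm e) s.1,
        (p1.conj z).fix hE hL (q1.conj k).1 (Eq.symm e) s.2⟩
  rwa [mul_mem_cancel_right hz', mul_mem_cancel_left (inv_mem hz)] at this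

theorem typ (hE : S_ELEM) (D : AdjD B T) (hβ : ¬ IsOfFinOrder β) (hf : ¬ IsOfFinOrder f)
    (hm : f ∈ Ep β) (hz : z ∈ T) (hb : b ∈ B) (pb : Prim b) (e : z⁻¹ * f * z ∈ Ep b) : Tc B T β :=
  tc D hz hb pb ((Ep_eq hE (pb.conj z).1 (mem_Ep_conj.2 e) hf).symm.trans (Ep_eq hE hβ hm hf))

theorem pert (hE : S_ELEM) (hP : S_PERC) (hD : S_C_DISP) (D : AdjD B T) (hβ : Prim β) (hf : f ∈ T)
    (hm : f ∈ Ep β) (hl : Ll (md β) (md f)) : Tc B T β := by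
  have fi := ((hD Γ a β f hβ hm).2.2 hl).1
  obtain ⟨z, hz, ⟨b, t1, t2, e⟩ | cen⟩ := D.cyc f hf fi
  · exact typ hE D hβ.1 fi hm hz t1 t2 e
  obtain ⟨-, big, k⟩ := (hD Γ a _ _ (hβ.conj' z) (C_ancA.mem_conj z hm)).2.2
    (by rw [md_conj, md_conj]; exact hl)
  obtain ⟨N, p, q, hn, o1, o2, s⟩ := k cen
  exact Tc.conj hz (arc hE hP D (hβ.conj' z).1 (big.of_ls (Ls.of_le (md_le_ln _)))
    (pow_mem (mul_mem (mul_mem (inv_mem hz) hf) hz) N) ⟨N, ln_pow_le _ N⟩ hn o1 o2 s)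

/-- anchored axes -/
def An (B T : Subgroup (MM Γ a)) (b : MM Γ a) : Prop :=
  Prim b ∧ Cen b ∧ (b ∈ B ∨ ∀ h ∈ T, NE b h)

theorem anc (hE : S_ELEM) (hL : S_LINE) (hP : S_PERC) (hD : S_C_DISP) (D : AdjD B T) (hγ : f ∈ T)
    (fi : ¬ IsOfFinOrder f) : ∃ z ∈ T, ∃ b, An B T b ∧ Cj z b f := by
  obtain ⟨β, pβ, eβ⟩ := (hE Γ a f fi).1
  have hm : f ∈ Ep β := eβ ▸ self_mem_Ep f
  by_cases t : Tc B T β
  · obtain ⟨z, hz, b, t1, t2, t3, e⟩ := t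
    exact ⟨z, hz, b, ⟨t2, t3, .inl t1⟩, Eq.trans e eβ⟩
  obtain ⟨z, hz, ⟨b, t1, t2, e⟩ | cen⟩ := D.cyc f hγ fi
  · exact (t (typ hE D pβ.1 fi hm hz t1 t2 e)).elim
  have pb := pβ.conj' z
  refine ⟨z, hz, z⁻¹ * β * z, ⟨pb, ?_, .inr fun h hh big _ ⟨q, hq, o1, s⟩ => t (Tc.conj hz ?_)⟩,
    Eq.trans (Cj.self' z β) eβ⟩
  · have k := pb.disp hE hL (C_ancA.mem_conj z hm) (mt (finOrder_conj' z f).1 fi) 1
    rw [ds_one_mul, ds_one_mul] at k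
    refine (k.trans' cen).trans' ?_
    rw [md_conj, md_conj]
    exact (ll_or_ls (one_pos.trans_le (one_le_md' fi)) _).resolve_left fun l =>
      t (pert hE hP hD D pβ hγ hm l)
  · exact arc hE hP D pb.1 big (inv_mem hh) (by rw [ln_inv]; exact Ls.refl' _)
      (by rwa [ds_one_left]) (on_left big.pos.le _ _) o1 s

theorem na1 (D : AdjD B T) (hb : An B T b) (hh : h ∈ T) : ∃ f ∈ T, f ∈ Ep b ∧ NE b (h * f) := by
  rcases hb.2.2 with t | n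
  · exact D.n1 b t hb.1 hb.2.1 h hh
  · exact ⟨1, one_mem _, one_mem _, n _ (mul_mem hh (one_mem _))⟩

theorem na2 {b' : MM Γ a} (D : AdjD B T) (hb : An B T b) (hb' : An B T b') (hh : h ∈ T)
    (hj : ¬ Cj h b' b) : ∃ f ∈ T, ∃ f' ∈ T, f ∈ Ep b ∧ f' ∈ Ep b' ∧ NE b (f * h * f')⁻¹ ∧
      NE b' (f * h * f') := by
  rcases hb'.2.2 with t' | n'
  · rcases hb.2.2 with t | n
    · exact D.n2 b t b' t' hb.1 hb.2.1 hb'.1 hb'.2.1 h hh hj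
    · obtain ⟨f, hf, e1, e2⟩ := na1 D hb' hh
      exact ⟨1, one_mem _, f, hf, one_mem _, e1,
        n _ (inv_mem (mul_mem (mul_mem (one_mem _) hh) hf)), by rwa [one_mul]⟩
  · obtain ⟨f, hf, e1, e2⟩ := na1 D hb (inv_mem hh)
    exact ⟨f⁻¹, inv_mem hf, 1, one_mem _, inv_mem e1, one_mem _,
      by rwa [mul_one, mul_inv_rev, inv_inv],
      n' _ (mul_mem (mul_mem (inv_mem hf) hh) (one_mem _))⟩

end Adj0A

open Adj0A in
theorem p_ADJ0 (hELEM : S_ELEM) (hLINE : S_LINE) (hPERC : S_PERC) (hROOT : S_ROOT) (hC_PROJ : S_C_PROJ) (hC_BRIDGE : S_C_BRIDGE) (hC_DISP : S_C_DISP) :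
    S_ADJ0 := by
  intro Γ a B T D
  have per : ∀ c, Prim c → ∀ f ∈ T, f ∈ Ep c → Ll (md c) (md f) → ∃ p ∈ T, p⁻¹ * c * p ∈ B := by
    intro c pc f hf hm hl
    obtain ⟨z, hz, b, t1, t2, -, e⟩ := pert hELEM hPERC hC_DISP D pc hf hm hl
    exact ⟨z, hz, (hROOT Γ a B D.gc).2.2.2.1 b t1 t2.1 _ (pc.conj' z) e.ep⟩
  refine ⟨⟨D.gc.base.trans D.le, fun μ hμ h hh h' hh' hl hl' g p q ov np =>
    g2 hELEM hLINE hPERC hROOT D hμ hh hh' hl hl' ov np, fun μ hμ h hh l p q n hp hq hr => ?_,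
    fun μ hμ h hh l1 c hc pc l2 l3 => ?_, fun c hc hp f hf he n hn => ?_,
    fun c mc c' mc' hc hc' => ?_⟩, fun c _ pc f hf hm hl =>
      (per c pc f hf hm hl).imp fun _ k => ⟨k.1, .inl k.2⟩⟩
  · obtain ⟨z, hz, b, t1, t2, -, hs⟩ := g20s hELEM hLINE hPERC D hμ hh l n hp hq hr
    exact ⟨_, mul_mem (mul_mem hz (D.le t1)) (inv_mem hz), t2.conj z, hs⟩
  · obtain ⟨z, hz, b, an, e0⟩ := anc hELEM hLINE hPERC hC_DISP D hc pc.1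
    obtain ⟨f1, m1, e1, n1⟩ := na1 D an hz
    obtain ⟨f2, m2, e2, n2⟩ := na1 D an (mul_mem (inv_mem hh) hz)
    have a1 := C_exA.aux hELEM hLINE hC_PROJ hμ an.1 an.2.1 pc n1 (e0.mul (Cj.of_mem e1)) l2 l3
    have l4 : Ls (ln (h⁻¹ * c * h)) μ := by
      refine Ls.mono_left ?_ ((l1.add l2).add l1)
      have b1 := ln_mul_le (h⁻¹ * c) h
      have b2 := ln_mul_le h⁻¹ c
      rw [ln_inv] at b2
      linarith
    have a2 := C_exA.aux hELEM hLINE hC_PROJ hμ an.1 an.2.1 (pc.conj' h) n2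
      (((Cj.self' h c).inv.mul e0).mul (Cj.of_mem e2)) l4 (by rwa [md_conj])
    refine ⟨z * (f2 * f1⁻¹) * z⁻¹, mul_mem (mul_mem hz (mul_mem m2 (inv_mem m1))) (inv_mem hz),
      e0.mem_Ep (mul_mem e2 (inv_mem e1)), Ll.mono_left ?_ (a1.add a2)⟩
    have b1 := ln_mul_le (z * f1) (h⁻¹ * z * f2)⁻¹
    have b2 : ds (z * (f2 * f1⁻¹) * z⁻¹) h = ln (z * f1 * (h⁻¹ * z * f2)⁻¹) := by
      rw [ds]; congr 1; group
    rw [ln_inv] at b1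
    linarith
  · by_cases h : Ls (md f) (md c)
    · obtain ⟨m, hm⟩ := (hC_DISP Γ a c f hp he).2.1 h
      have hn' : (n : ℤ) ≠ 0 := by omega
      obtain ⟨r, hr⟩ := Int.eq_ofNat_of_zero_le (Int.emod_nonneg m hn')
      refine ⟨c ^ (m / n), zpow_mem hc _, zpow_mem (self_mem_Ep c) _, r, ?_⟩
      rw [← zpow_natCast, ← zpow_natCast c, ← zpow_mul, ← zpow_add, ← hr, Int.ediv_mul_add_emod]
      exact hm
    · obtain ⟨p, h1, h2⟩ := per c hp f hf he fun n => (not_le.1 fun a => h ⟨n, a⟩).le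
      exact C_purA.Pu.conj h1 (D.pur _ h2 (hp.conj' p) _
        (mul_mem (mul_mem (inv_mem h1) hf) h1) (C_purA.conj_mem_Ep p he) n hn)
  · obtain ⟨z, mz, b, hb, eb⟩ := anc hELEM hLINE hPERC hC_DISP D mc hc
    obtain ⟨z', mz', b', hb', eb'⟩ := anc hELEM hLINE hPERC hC_DISP D mc' hc'
    obtain ⟨g, mg, eg, ng⟩ := na1 D hb mz
    have e1 : Cj (z * g) b c := eb.mul (Cj.of_mem eg)
    by_cases e : Ep c = Ep c'
    · refine ⟨z * g, mul_mem mz mg, ?_, C_cenA.two hELEM hLINE hC_DISP hb.1 hb.1 e1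
        (Eq.trans e1 e) hc hc' fun q => ?_⟩
      · have k := (hb.1.conj (z * g)).disp' hELEM hLINE hc e1 1
        rw [ds_one_mul, ds_one_mul] at k
        exact ((hC_PROJ Γ a b _ hb.1 hb.2.1 ng).1.trans' k).trans' (C_cenA.l1 _ _ (ln_nonneg c'))
      · have k : Ls (ln b) (ds q (b * q) + ds q (b * q)) :=
          (Ls.mono_right hb.2.1 (md_le_ds b q)).trans' (C_cenA.l1 _ _ (ds_nonneg _ _))
        exact k.add k
    · obtain ⟨f, mf, f', mf', ef, ef', n, n'⟩ := na2 D hb hb'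
        (mul_mem (inv_mem (mul_mem mz mg)) mz') fun k => e (by
          have := e1.mul k
          rw [mul_inv_cancel_left] at this
          exact Eq.trans (Eq.symm this) eb')
      have e2 : Cj (z * g * f⁻¹) b c := e1.mul (Cj.of_mem (inv_mem ef))
      have e3 : Cj (z * g * f⁻¹)
          (f * ((z * g)⁻¹ * z') * f' * b' * (f * ((z * g)⁻¹ * z') * f')⁻¹) c' := by
        have := eb'.mul (Cj.of_mem ef')
        rw [Cj, ← show Ep _ = _ from this]; congr 1; group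
      have k := C_cenA.two hELEM hLINE hC_DISP hb.1 (hb'.1.conj _) e2 e3 hc hc'
        (hC_BRIDGE Γ a b b' _ hb.1 hb.2.1 hb'.1 hb'.2.1 n n')
      refine ⟨_, mul_mem (mul_mem mz mg) (inv_mem mf), C_cenA.short hELEM hPERC hc hc' e ?_, k⟩
      simpa only [inv_one, one_mul, mul_one] using k 1

end Pool.Agent.P.MP_dba3d2_lc
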