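import Pool.Agent.P.MP_dba3d2_lc.C.IfaceL

/-! Step C2_BIP of the stability project. -/

namespace Pool.Agent.P.MP_dba3d2_lc

open Filter

namespace C2_bip

variable {V W : Type}

/-- the incidence relation on the disjoint union -/
def rel (adj : V → W → Prop) : V ⊕ W → V ⊕ W → Prop
  | .inl v, .inr w => adj v w
  | .inr w, .inl v => adj v w
  | _, _ => False

/-- the incidence graph -/
def gr (adj : V → W → Prop) : SimpleGraph (V ⊕ W) where
  Adj := rel adj
  symm := ⟨fun x y h => by cases x <;> cases y <;> exact h⟩
  loopless := ⟨fun x h => by cases x <;> exact h⟩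

variable {adj : V → W → Prop}

theorem chain : ∀ (n : ℕ) (x y : V ⊕ W) (p : (gr adj).Walk x y), p.length ≤ n → p.edges.Nodup →
    ∀ v v', x = .inl v → y = .inl v' → 0 < p.length →
      ∃ w, s(Sum.inl v, Sum.inr w) ∈ p.edges ∧ RCh adj v w v' := by
  intro n
  induction n with
  | zero => intro x y p h _ v v' _ _ h'; omega
  | succ n ih =>
    intro x y p hn hp v v' hx hy h0
    subst hx
    cases p with
    | nil => simp at h0
    | @cons _ z _ h q =>
      cases z with
      | inl _ => exact h.elim
      | inr w =>
        cases q with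
        | nil => cases hy
        | @cons _ z' _ h' r =>
          cases z' with
          | inr _ => exact h'.elim
          | inl v₁ =>
            simp only [SimpleGraph.Walk.edges_cons, List.nodup_cons, List.mem_cons, not_or] at hp
            have hv : v ≠ v₁ := by
              rintro rfl
              exact hp.1.1 Sym2.eq_swap
            refine ⟨w, by simp, ?_⟩
            by_cases hr : 0 < r.length
            · obtain ⟨w', h1, h2⟩ := ih _ _ r (by simp at hn; omega) hp.2.2 v₁ v' rfl hy hr
              refine RCh.cons h h' hv ?_ h2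
              rintro rfl
              exact hp.2.1 (Sym2.eq_swap ▸ h1)
            · have e := SimpleGraph.Walk.eq_of_length_eq_zero (p := r) (by omega)
              rw [hy] at e
              cases e
              exact RCh.one h h' hv

theorem acyclic (h : ∀ v w v', RCh adj v w v' → v ≠ v') : (gr adj).IsAcyclic := by
  intro x c hc
  have h1 := hc.isTrail.edges_nodup
  have h2 := hc.three_le_length
  cases x with
  | inl v =>
    obtain ⟨w, -, h3⟩ := chain _ _ _ c le_rfl h1 v v rfl rfl (by omega)
    exact h _ _ _ h3 rfl
  | inr w =>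
    cases c with
    | nil => simp at h2
    | @cons _ z _ a q =>
      cases z with
      | inr _ => exact a.elim
      | inl v =>
        obtain ⟨w, -, h3⟩ := chain _ _ _ (q.concat a) le_rfl (by
          rw [SimpleGraph.Walk.edges_concat, List.concat_eq_append]
          exact (List.perm_append_singleton _ _).nodup_iff.mpr h1) v v rfl rfl (by simp)
        exact h _ _ _ h3 rfl

theorem reach {v v' : V} (h : Conn adj v v') : (gr adj).Reachable (.inl v) (.inl v') := by
  induction h with
  | refl => rfl
  | tail _ h ih =>
    obtain ⟨w, h1, h2⟩ := h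
    exact (ih.trans (SimpleGraph.Adj.reachable (G := gr adj) (v := .inr w) h1)).trans
      (SimpleGraph.Adj.reachable (G := gr adj) (u := .inr w) h2)

theorem conn {v : V} {x : V ⊕ W} (h : (gr adj).Reachable (.inl v) x) :
    (∀ v', x = .inl v' → Conn adj v v') ∧
      ∀ w, x = .inr w → ∃ v', Conn adj v v' ∧ adj v' w := by
  rw [SimpleGraph.reachable_iff_reflTransGen] at h
  induction h with
  | refl =>
    refine ⟨fun v' e => ?_, fun w e => by cases e⟩
    cases e
    exact Relation.ReflTransGen.refl
  | @tail y z _ h ih =>
    refine ⟨?_, ?_⟩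
    · rintro v' rfl
      cases y with
      | inl _ => exact h.elim
      | inr w =>
        obtain ⟨v₁, h1, h2⟩ := ih.2 w rfl
        exact h1.tail ⟨w, h2, h⟩
    · rintro w rfl
      cases y with
      | inr _ => exact h.elim
      | inl v₁ => exact ⟨v₁, ih.1 v₁ rfl, h⟩

end C2_bip

open C2_bip in
theorem p_C2_BIP (hC2_TREEFIX : S_C2_TREEFIX) :
    S_C2_BIP := by
  intro G V W _ _ _ adj K v₀ h1 h2 h3 h4
  obtain ⟨x, hx, hk⟩ := hC2_TREEFIX G (V ⊕ W) (gr adj) Sum.isLeft K (.inl v₀) (acyclic h1) h2
    (fun k hk x y h => by
      cases x <;> cases y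
      · exact h.elim
      · exact h3 k hk _ _ h
      · exact h3 k hk _ _ h
      · exact h.elim)
    (fun k _ x => by cases x <;> rfl)
    (fun x y h => by
      cases x <;> cases y
      · exact h.elim
      · simp
      · simp
      · exact h.elim)
    (fun k hk => reach (h4 k hk))
  cases x with
  | inl v => exact ⟨v, (conn hx).1 v rfl, Or.inl fun k h => Sum.inl_injective (hk k h)⟩
  | inr w =>
    obtain ⟨v, a1, a2⟩ := (conn hx).2 w rfl
    exact ⟨v, a1, Or.inr ⟨w, a2, fun k h => Sum.inr_injective (hk k h)⟩⟩

end Pool.Agent.P.MP_dba3d2_lc
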