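import Pool.Agent.P.MP_dba3d2_lc.C.DefsL

/-! Interface, chapter C2: pure group theory for the adjunctions. -/

namespace Pool.Agent.P.MP_dba3d2_lc

open Filter

-- deps:
def S_C2_TREEFIX : Prop := ∀ (G X : Type) [Group G] [MulAction G X] (Δ : SimpleGraph X)
  (col : X → Bool) (K : Subgroup G) (x₀ : X), Δ.IsAcyclic → Finite K →
  (∀ k ∈ K, ∀ x y, Δ.Adj x y → Δ.Adj (k • x) (k • y)) → (∀ k ∈ K, ∀ x, col (k • x) = col x) →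
  (∀ x y, Δ.Adj x y → col x ≠ col y) → (∀ k ∈ K, Δ.Reachable x₀ (k • x₀)) →
  ∃ x, Δ.Reachable x₀ x ∧ ∀ k ∈ K, k • x = x

-- deps: C2_TREEFIX
def S_C2_BIP : Prop := ∀ (G V W : Type) [Group G] [MulAction G V] [MulAction G W]
  (adj : V → W → Prop) (K : Subgroup G) (v₀ : V), (∀ v w v', RCh adj v w v' → v ≠ v') → Finite K →
  (∀ k ∈ K, ∀ v w, adj v w → adj (k • v) (k • w)) → (∀ k ∈ K, Conn adj v₀ (k • v₀)) →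
  ∃ v, Conn adj v₀ v ∧ ((∀ k ∈ K, k • v = v) ∨ ∃ w, adj v w ∧ ∀ k ∈ K, k • w = w)

-- deps: C2_BIP
def S_C2_STARFIN : Prop := ∀ (G : Type) [Group G] (B : Subgroup G) (ι : Type) (A : ι → Subgroup G)
  (Q : ι → G → ι → Prop), (∀ i, ∀ b ∈ B, b ∈ A i ↔ Q i b i) → (∀ i b j, Q i b j → Q j b⁻¹ i) →
  (∀ i b j b' k, Q i b j → Q j b' k → Q i (b * b') k) →
  (∀ i b j, Q i b j → ∀ x ∈ A j, b * x * b⁻¹ ∈ A i) →
  (∀ l : List (G × ι × G), l ≠ [] → (∀ s ∈ l, s.1 ∈ B ∧ s.2.2 ∈ A s.2.1 ∧ s.2.2 ∉ B) →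
    l.IsChain (fun s s' => ¬ Q s.2.1 s'.1 s'.2.1) → (l.map fun s => s.1 * s.2.2).prod ∉ B) →
  ∀ K : Subgroup G, K ≤ B ⊔ ⨆ i, A i → Finite K →
    ∃ p ∈ B ⊔ ⨆ i, A i, (∀ k ∈ K, p⁻¹ * k * p ∈ B) ∨ ∃ i, ∀ k ∈ K, p⁻¹ * k * p ∈ A i

-- deps: C2_BIP
def S_C2_HFIN : Prop := ∀ (G : Type) [Group G] (B : Subgroup G) (ι : Type) (u : ι → G),
  WBr B (hv u) (HP B u) → ∀ K : Subgroup G, K ≤ B ⊔ Subgroup.closure (Set.range u) → Finite K →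
    ∃ p ∈ B ⊔ Subgroup.closure (Set.range u), ∀ k ∈ K, p⁻¹ * k * p ∈ B

-- deps:
def S_C2_RW : Prop := ∀ (G : Type) [Group G] (B : Subgroup G) (Λ : Type) (v : Λ → G)
  (P : Λ → G → Λ → Prop), WS B v P → ∀ t ∈ B ⊔ Subgroup.closure (Set.range v),
  (∃ l, ∃ b ∈ B, WRed B P l ∧ t = wval v l * b) ∧
  ∃ g ∈ B ⊔ Subgroup.closure (Set.range v), g⁻¹ * t * g ∈ B ∨
    (∃ l, l ≠ [] ∧ g⁻¹ * t * g = wval v l ∧ WRed B P (l ++ l ++ l)) ∨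
    ∃ b ∈ B, ∃ s, g⁻¹ * t * g = b * v s ∧ P s b s

-- deps: C2_RW
def S_C2_RW3 : Prop := ∀ (G G' : Type) [Group G] [Group G'] (B : Subgroup G) (Λ : Type)
  (v : Λ → G) (P : Λ → G → Λ → Prop) (θ0 : B →* G') (ν : Λ → G'), WBr B v P →
  (∀ s, ∃ s', v s' = (v s)⁻¹ ∧ ν s' = (ν s)⁻¹) →
  (∀ s (b : B) s', P s b s' → (∃ x : B, v s * b * v s' = x ∧ ν s * θ0 b * ν s' = θ0 x) ∨
    ∃ (s'' : Λ) (x y : B), v s * b * v s' = x * v s'' * y ∧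
      ν s * θ0 b * ν s' = θ0 x * ν s'' * θ0 y) →
  ∀ T : Subgroup G, T = B ⊔ Subgroup.closure (Set.range v) →
  ∃ θ : T →* G', (∀ (t : T) (x : B), (t : G) = x → θ t = θ0 x) ∧
    ∀ (t : T) (s : Λ), (t : G) = v s → θ t = ν s

-- deps: C2_RW3
def S_C2_HEXT : Prop := ∀ (Γ : HG) (a : Amb) (B : Subgroup (MM Γ a)) (r : ℕ) (u : Fin r → MM Γ a),
  WBr B (hv u) (HP B u) → ExtL B u

end Pool.Agent.P.MP_dba3d2_lc
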