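import Pool.Agent.P.MP_dba3d2_lc.C.IfaceL2
import Pool.Agent.P.MP_dba3d2_lc.A.Iface
import Pool.Agent.P.MP_dba3d2_lc.B.Iface
import Pool.Agent.P.MP_dba3d2_lc.C.IfaceL
import Pool.Agent.P.MP_dba3d2_lc.C.LTb

/-! Step C2_EEP of the stability project. -/

namespace Pool.Agent.P.MP_dba3d2_lc

open Filter

theorem p_C2_EEP (hELEM : S_ELEM) (hLINE : S_LINE) (hPERC : S_PERC) (hROOT : S_ROOT) (hC2_RW : S_C2_RW) (hC2_ELOC : S_C2_ELOC) (hC2_EGEO : S_C2_EGEO) :
    S_C2_EEP := by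
  intro Γ a μ B c k D
  have hμ := D.big
  obtain ⟨L1, L2, -⟩ := hC2_ELOC Γ a μ B c k D
  have key : ∀ s l, WRed B (EP c) (s :: l) → ∀ b ∈ B, ∃ x ∈ B, s.1⁻¹ * x ∈ Ep c ∧ ∃ e,
      Ls μ (ln e) ∧ On μ x 1 (wval (ev c k) (s :: l) * b) ∧
      On μ (x * e) 1 (wval (ev c k) (s :: l) * b) ∧ Stab μ 1 e c := by
    intro s l h b hb
    obtain ⟨x, hx, h1, e, he, h2, h3, -⟩ := ((hC2_EGEO Γ a μ B c k D).1 _ h b hb).2 s l rfl
    exact ⟨x, hx, h1, e, L2 e he, h2, h3, L1 e (SE.mem he).2⟩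
  have big : ∀ s l, WRed B (EP c) (s :: l) → ∀ b ∈ B, Ls μ (ln (wval (ev c k) (s :: l) * b)) := by
    intro s l h b hb
    obtain ⟨x, -, -, e, h1, h2, h3, -⟩ := key s l h b hb
    simpa only [ds_one_left] using On.nondeg hμ h2 h3 (by rwa [ds_mul_right])
  have nf : ∀ t ∈ ET B c k, ∃ l, ∃ b ∈ B, WRed B (EP c) l ∧ t = wval (ev c k) l * b :=
    fun t ht => (hC2_RW _ B _ _ _ (ews B c k) t (ET_eq B c k ▸ ht)).1
  refine ⟨fun l hl h0 hB => ?_, fun t ht hB => ?_, fun d hd pd hx f hf hfd => ?_,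
    fun f hf hfc => ?_⟩
  · obtain ⟨s, l, rfl⟩ := List.exists_cons_of_ne_nil h0
    have := big s l hl _ (inv_mem hB)
    rw [mul_inv_cancel, ← ds_one_left, ds_self] at this
    exact (Ll.zero hμ.pos.le).not_ls hμ.pos this
  · obtain ⟨l, b, hb, hl, rfl⟩ := nf t ht
    cases l with
    | nil => exact absurd (by simpa using hb) hB
    | cons s l => exact big s l hl b hb
  · obtain ⟨y, hy, -, cen⟩ := D.gc.cen1 hd pd.1
    have d0 : y⁻¹ * d * y ∈ B := mul_mem (mul_mem (inv_mem hy) hd) hy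
    have f0 : y⁻¹ * f * y ∈ ET B c k :=
      mul_mem (mul_mem (inv_mem (le_ET B c k hy)) hf) (le_ET B c k hy)
    have e0 : y⁻¹ * f * y ∈ Ep (y⁻¹ * d * y) := mem_Ep_conj'.2 (by simpa [mul_assoc] using hfd)
    suffices h : y⁻¹ * f * y ∈ B by
      simpa [mul_assoc] using mul_mem (mul_mem hy h) (inv_mem hy)
    rcases ll_or_ls hμ.pos (md (y⁻¹ * d * y)) with h | h
    · have st := (pd.conj' y).stab_ep hELEM hLINE (cen.ll h) e0
      obtain ⟨l, b, hb, hl, e⟩ := nf _ f0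
      rw [e] at st ⊢
      cases l with
      | nil => simpa using hb
      | cons s l =>
        obtain ⟨x, hxB, -, e, h1, h2, h3, h4⟩ := key s l hl b hb
        have h5 := (stab_conj x).2 h4
        rw [mul_one] at h5
        have h6 : Cj x c (y⁻¹ * d * y) := Ep_eq_of_stab hELEM hPERC hμ (by rwa [ds_mul_right])
          (D.prim.conj x).1 (pd.conj' y).1 h5 (st.sub hμ h2 h3)
        have h7 : Cj y (y⁻¹ * d * y) d := by
          rw [Cj]; congr 1; group
        exact absurd (h7.mul h6) (hx _ (mul_mem hy hxB))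
    · exact ((hROOT Γ a B D.gc).2.1 _ d0 _ d0 (pd.conj' y) (pd.conj' y) _ (Cj.of_mem e0)).2 cen cen
        ((ball_ls hμ D.tb f0).trans' h)
  · obtain ⟨l, b, hb, hl, rfl⟩ := nf f hf
    have main : ∀ β ∈ B, β * wval (ev c k) l * b ∈ Ep c →
        ∃ f0 ∈ B, ∃ q, β * wval (ev c k) l * b = f0 * ipow c (k q) := by
      clear hf hfc
      induction l with
      | nil => exact fun β hβ _ => ⟨β * b, mul_mem hβ hb, 0, by rw [es_zero, wval_nil, mul_one, mul_one]⟩
      | cons s l ih =>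
        intro β hβ hz
        have hβ' := mul_mem hβ hl.mem
        obtain ⟨x, -, h0, e, h1, h2, h3, h4⟩ := key _ l (hl.head hβ') b hb
        have ez : wval (ev c k) ((β * s.1, s.2) :: l) * b = β * wval (ev c k) (s :: l) * b := by
          simp [mul_assoc]
        rw [ez] at h2 h3
        have h5 : InE c x := inE_of_stab hELEM hPERC hμ (by rwa [ds_one_left]) D.prim.1 h4
          (by rw [mul_one]; exact (L1 _ hz).sub hμ h2 h3)
        have h6 : InE c (β * s.1) := by simpa using h5.mul (InE.of_mem h0).inv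
        obtain ⟨ε, -, h7⟩ := es_inE h6 k
        have ez' : β * wval (ev c k) (s :: l) * b =
            ipow c (k (ε * s.2.1)) * (β * s.1 * wval (ev c k) l * b) := by
          rw [← mul_assoc, ← mul_assoc, ← h7, wval_cons, ev]
          simp only [mul_assoc]
        rw [ez'] at hz ⊢
        have hz' := (Subgroup.mul_mem_cancel_left _ (ipow_mem_Ep c _)).1 hz
        obtain ⟨f0, hf0, q, e'⟩ := ih hl.tail _ hβ' hz'
        rw [e'] at hz' ⊢
        have := (Subgroup.mul_mem_cancel_right _ (ipow_mem_Ep c _)).1 hz'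
        exact ⟨f0, hf0, ε * s.2.1 + q, by
          rw [es_add, ← mul_assoc, ← mul_assoc, (es_comm this k _).eq]⟩
    simpa using main 1 (one_mem _) (by simpa using hfc)

end Pool.Agent.P.MP_dba3d2_lc
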