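import Pool.Agent.P.MP_dba3d2_lc.C.IfaceL2
import Pool.Agent.P.MP_dba3d2_lc.C.IfaceL
import Pool.Agent.P.MP_dba3d2_lc.C.LTb

/-! Step C2_EEXT of the stability project. -/

namespace Pool.Agent.P.MP_dba3d2_lc

open Filter

theorem p_C2_EEXT (hC2_RW3 : S_C2_RW3) :
    S_C2_EEXT := by
  intro Γ a B c k hW G _ θ0 ν n1 n2
  obtain ⟨θ, h1, h2⟩ := hC2_RW3 _ G B _ (ev c k) (EP c) θ0 (fun s => ν (.ofAdd s.1)) hW
    (fun s => ⟨⟨-s.1, neg_ne_zero.2 s.2⟩, es_neg c k s.1, by rw [ofAdd_neg, map_inv]⟩)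
    (fun s b s' h => by
      obtain ⟨q, e1, e2⟩ : ∃ q, (b : MM Γ a) * ipow c (k s'.1) = ipow c (k q) * b ∧
          θ0 b * ν (.ofAdd s'.1) = ν (.ofAdd q) * θ0 b := by
        by_cases e : (b : MM Γ a) ∈ Ep c
        · exact ⟨_, (es_comm e k _).eq, (n1 b _ e).eq⟩
        · exact ⟨-s'.1, by rw [← es_flip h e, inv_mul_cancel_right],
            by rw [← n2 b _ h e, inv_mul_cancel_right]⟩
      have e3 : ev c k s * b * ev c k s' = ipow c (k (s.1 + q)) * b := by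
        rw [es_add, mul_assoc, mul_assoc, ← e1]
        rfl
      have e4 : ν (.ofAdd s.1) * θ0 b * ν (.ofAdd s'.1) = ν (.ofAdd (s.1 + q)) * θ0 b := by
        rw [ofAdd_add, map_mul, mul_assoc, mul_assoc, e2]
      by_cases h0 : s.1 + q = 0
      · exact Or.inl ⟨b, by rw [e3, h0, es_zero, one_mul], by
          rw [e4, h0, ofAdd_zero, map_one, one_mul]⟩
      · exact Or.inr ⟨⟨_, h0⟩, 1, b, by rw [e3, OneMemClass.coe_one, one_mul]; rfl, by
          rw [e4, map_one, one_mul]⟩) _ (ET_eq B c k)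
  refine ⟨θ, fun x => h1 _ x rfl, fun q => ?_⟩
  by_cases h0 : q = 0
  · subst h0
    exact (h1 _ 1 (es_zero c k)).trans (by rw [ofAdd_zero, map_one, map_one])
  · exact h2 _ ⟨q, h0⟩ rfl

end Pool.Agent.P.MP_dba3d2_lc
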