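import Pool.Agent.P.MP_dba3d2_lc.C.IfaceL2
import Pool.Agent.P.MP_dba3d2_lc.B.Iface
import Pool.Agent.P.MP_dba3d2_lc.C.IfaceL
import Pool.Agent.P.MP_dba3d2_lc.C.LTb

/-! Step C2_EFIN of the stability project. -/

namespace Pool.Agent.P.MP_dba3d2_lc

open Filter

namespace C2_efin

variable {Γ : HG} {a : Amb} {B : Subgroup (MM Γ a)} {c : MM Γ a} {k : ℚ →+ a.Z}

theorem swap {i : MM Γ a} (h : InE c i) (k : ℚ →+ a.Z) (q : ℚ) :
    ∃ q', ipow c (k q) * i = i * ipow c (k q') := by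
  obtain ⟨ε, -, e⟩ := es_inE h.inv k
  refine ⟨ε * q, ?_⟩
  rw [← inv_mul_eq_iff_eq_mul, ← mul_assoc, e, inv_mul_cancel_right]

/-- the vertex group -/
def EA (B : Subgroup (MM Γ a)) (c : MM Γ a) (k : ℚ →+ a.Z) : Subgroup (MM Γ a) where
  carrier := {x | ∃ i ∈ B, InE c i ∧ ∃ q, x = i * ipow c (k q)}
  one_mem' := ⟨1, one_mem _, InE.of_mem (one_mem _), 0, by rw [es_zero, mul_one]⟩
  mul_mem' := by
    rintro _ _ ⟨i, i1, i2, q, rfl⟩ ⟨j, j1, j2, r, rfl⟩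
    obtain ⟨q', e⟩ := swap j2 k q
    refine ⟨i * j, mul_mem i1 j1, i2.mul j2, q' + r, ?_⟩
    rw [es_add, mul_assoc, ← mul_assoc (ipow c (k q)), e]
    simp only [mul_assoc]
  inv_mem' := by
    rintro _ ⟨i, i1, i2, q, rfl⟩
    obtain ⟨q', e⟩ := swap i2.inv k (-q)
    exact ⟨i⁻¹, inv_mem i1, i2.inv, q', by rw [mul_inv_rev, ← es_neg, e]⟩

theorem word : ∀ (l : List (MM Γ a × Unit × MM Γ a)) (s : MM Γ a × Unit × MM Γ a),
    (∀ y ∈ s :: l, y.1 ∈ B ∧ y.2.2 ∈ EA B c k ∧ y.2.2 ∉ B) →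
    (s :: l).IsChain (fun _ s' => ¬ s'.1 ∈ EA B c k) →
    ∃ i ∈ B, InE c i ∧ ∃ q l', WRed B (EP c) ((s.1 * i, q) :: l') ∧
      wval (ev c k) ((s.1 * i, q) :: l') = ((s :: l).map fun s => s.1 * s.2.2).prod := by
  intro l
  induction l with
  | nil =>
    intro s h _
    obtain ⟨h1, ⟨i, i1, i2, q, e⟩, h3⟩ := h s List.mem_cons_self
    have hq : q ≠ 0 := by
      rintro rfl
      exact h3 (by rw [e, es_zero, mul_one]; exact i1)
    refine ⟨i, i1, i2, ⟨q, hq⟩, [], ⟨?_, List.IsChain.singleton _⟩, ?_⟩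
    · simpa using mul_mem h1 i1
    · simp [ev, e, mul_assoc]
  | cons y l ih =>
    intro s h hc
    obtain ⟨h1, ⟨i, i1, i2, q, e⟩, h3⟩ := h s List.mem_cons_self
    have hq : q ≠ 0 := by
      rintro rfl
      exact h3 (by rw [e, es_zero, mul_one]; exact i1)
    obtain ⟨c1, c2⟩ := List.isChain_cons_cons.1 hc
    obtain ⟨j, j1, j2, r, l', w1, w2⟩ := ih y (fun z hz => h z (List.mem_cons_of_mem _ hz)) c2
    refine ⟨i, i1, i2, ⟨q, hq⟩, (y.1 * j, r) :: l', ⟨fun z hz => ?_, ?_⟩, ?_⟩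
    · rcases List.mem_cons.1 hz with rfl | hz
      · exact mul_mem h1 i1
      · exact w1.1 z hz
    · refine List.isChain_cons_cons.2 ⟨fun hp => c1 ?_, w1.2⟩
      have hy : InE c (y.1 * j * j⁻¹) := InE.mul hp j2.inv
      rw [mul_inv_cancel_right] at hy
      exact ⟨y.1, (h y (by simp)).1, hy, 0, by rw [es_zero, mul_one]⟩
    · rw [wval_cons, w2, List.map_cons (l := y :: l), List.prod_cons, e, ev, mul_assoc s.1]

theorem sup_eq : B ⊔ ⨆ _ : Unit, EA B c k = ET B c k := by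
  rw [iSup_const]
  refine le_antisymm (sup_le (le_ET B c k) ?_) (sup_le_sup_left ((Subgroup.closure_le _).2 ?_) _)
  · rintro _ ⟨i, i1, -, q, rfl⟩
    exact mul_mem (le_ET B c k i1) (es_mem B c k q)
  · rintro _ ⟨q, rfl⟩
    exact ⟨1, one_mem _, InE.of_mem (one_mem _), q, (one_mul _).symm⟩

theorem flip_mul {x y : MM Γ a} (h1 : InE c x) (h2 : x ∉ Ep c) (h3 : InE c y) (h4 : y ∉ Ep c) :
    x⁻¹ * y ∈ Ep c := by
  have e1 : x * c ^ Γ.e * x⁻¹ = (c ^ Γ.e)⁻¹ :=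
    h1.resolve_left fun e => h2 (mem_Ep.2 (mul_inv_eq_iff_eq_mul.1 e))
  have e2 : y * c ^ Γ.e * y⁻¹ = (c ^ Γ.e)⁻¹ :=
    h3.resolve_left fun e => h4 (mem_Ep.2 (mul_inv_eq_iff_eq_mul.1 e))
  refine mem_Ep.2 ?_
  calc x⁻¹ * y * c ^ Γ.e = x⁻¹ * (y * c ^ Γ.e * y⁻¹) * y := by group
    _ = x⁻¹ * (x * c ^ Γ.e * x⁻¹) * y := by rw [e1, e2]
    _ = c ^ Γ.e * (x⁻¹ * y) := by group

end C2_efin

open C2_efin

theorem p_C2_EFIN (hROOT : S_ROOT) (hC2_STARFIN : S_C2_STARFIN) :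
    S_C2_EFIN := by
  intro Γ a B c k hB hc hi hW K hK hfin
  obtain ⟨p, hp, h⟩ := hC2_STARFIN (MM Γ a) B Unit (fun _ => EA B c k) (fun _ b _ => b ∈ EA B c k)
    (fun _ _ _ => Iff.rfl) (fun _ _ _ h => inv_mem h) (fun _ _ _ _ _ h h' => mul_mem h h')
    (fun _ _ _ h _ hx => mul_mem (mul_mem h hx) (inv_mem h))
    (fun l hl h1 h2 => by
      obtain ⟨s, l, rfl⟩ := List.exists_cons_of_ne_nil hl
      obtain ⟨i, -, -, q, l', w1, w2⟩ := word l s h1 h2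
      rw [← w2]
      exact hW _ w1 (List.cons_ne_nil _ _))
    K (by rwa [sup_eq]) hfin
  rw [sup_eq] at hp
  rcases h with h | ⟨-, h⟩
  · exact ⟨p, hp, Or.inl h⟩
  have Z : ∀ x ∈ K, p⁻¹ * x * p ∈ Ep c → p⁻¹ * x * p ∈ B := fun x hx he =>
    (hROOT Γ a B hB).2.2.1 c hc hi _ he ((finOrder_conj' p x).2
      (K.subtype.isOfFinOrder (isOfFinOrder_of_finite (⟨x, hx⟩ : K))))
  have I : ∀ x ∈ K, InE c (p⁻¹ * x * p) := fun x hx => by
    obtain ⟨i, -, i2, q, e⟩ := h x hx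
    rw [e]
    exact i2.mul (InE.of_mem (ipow_mem_Ep c _))
  by_cases hall : ∀ x ∈ K, p⁻¹ * x * p ∈ Ep c
  · exact ⟨p, hp, Or.inl fun x hx => Z x hx (hall x hx)⟩
  push Not at hall
  obtain ⟨x0, hx0, n0⟩ := hall
  obtain ⟨i, i1, i2, q, e⟩ := h x0 hx0
  have i3 : i ∉ Ep c := fun hE => n0 (by rw [e]; exact mul_mem hE (ipow_mem_Ep c _))
  have fixed : ∀ y ∈ Ep c, (ipow c (k (-(q / 2))))⁻¹ * y * ipow c (k (-(q / 2))) = y := fun y hy => by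
    rw [mul_assoc, (es_comm hy k _).eq, inv_mul_cancel_left]
  have e0 : (ipow c (k (-(q / 2))))⁻¹ * (p⁻¹ * x0 * p) * ipow c (k (-(q / 2))) = i := by
    rw [e, mul_assoc, mul_assoc, ← es_add, show q + -(q / 2) = q / 2 by ring, ← es_flip i2 i3]
    group
  refine ⟨p * ipow c (k (-(q / 2))), mul_mem hp (es_mem B c k _), Or.inl fun x hx => ?_⟩
  generalize ipow c (k (-(q / 2))) = t at fixed e0
  by_cases hE : p⁻¹ * x * p ∈ Ep c
  · rw [show (p * t)⁻¹ * x * (p * t) = t⁻¹ * (p⁻¹ * x * p) * t by group, fixed _ hE]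
    exact Z x hx hE
  · have hm := flip_mul (I x0 hx0) n0 (I x hx) hE
    rw [show (p⁻¹ * x0 * p)⁻¹ * (p⁻¹ * x * p) = p⁻¹ * (x0⁻¹ * x) * p by group] at hm
    rw [show (p * t)⁻¹ * x * (p * t) =
      t⁻¹ * (p⁻¹ * x0 * p) * t * (t⁻¹ * (p⁻¹ * (x0⁻¹ * x) * p) * t) by group, e0, fixed _ hm]
    exact mul_mem i1 (Z _ (mul_mem (inv_mem hx0) hx) hm)

end Pool.Agent.P.MP_dba3d2_lc
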