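import Pool.Agent.P.MP_dba3d2_lc.C.IfaceL2
import Pool.Agent.P.MP_dba3d2_lc.C.LTb

/-! Step C2_EGEO of the stability project. -/

namespace Pool.Agent.P.MP_dba3d2_lc

open Filter

theorem p_C2_EGEO (hC2_ENRM : S_C2_ENRM) (hC2_ELOC : S_C2_ELOC) :
    S_C2_EGEO := by
  intro Γ a μ B c k D
  obtain ⟨N1, N2, N3⟩ := hC2_ENRM Γ a μ B c k D
  obtain ⟨-, -, E3⟩ := hC2_ELOC Γ a μ B c k D
  refine ⟨fun l hl b hb => ?_, fun l h0 hl => ?_⟩
  · cases l with
    | nil =>
      exact ⟨⟨[b], by simp, geo_single D.big.pos.le b, by simp [hb]⟩, fun s l' e => by simp at e⟩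
    | cons s l' =>
      obtain ⟨g, g1, g2, g3⟩ := N1 b⁻¹ (inv_mem hb)
      rw [mul_inv_rev, inv_inv] at g3
      obtain ⟨f2, a1, a2, l2, a3, a4⟩ := N3 l' hl.ep_tail g g1 g2
      obtain ⟨f1, b1, b2, b3⟩ := N1 s.1 hl.mem
      have he : f1⁻¹ * ev c k s.2 * f2 ∈ SE B c k :=
        SE.mul (ev_mem_SE B c k s.2) (inv_mem b1) (inv_mem b2) a1 a2
      have hG := E3 l2 a3 _ b3 _ he _ g3
      have hp : s.1 * f1 * (f1⁻¹ * ev c k s.2 * f2 * (wflat id l2 ++ [g⁻¹ * b]).prod) =
          wval (ev c k) (s :: l') * b := by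
        have e : wval id l2 = f2⁻¹ * (wval (ev c k) l' * g) := by rw [a4, inv_mul_cancel_left]
        rw [List.prod_append, wflat_prod, List.prod_singleton, wval_cons, e]
        group
      refine ⟨⟨_, by rw [List.prod_cons, List.prod_cons, hp], hG, fun x hx => ?_⟩,
        fun s' l'' e => ?_⟩
      · rcases List.mem_cons.1 hx with rfl | hx
        · exact Or.inl (mul_mem hl.mem b1)
        rcases List.mem_cons.1 hx with rfl | hx
        · exact Or.inr he
        rcases List.mem_append.1 hx with hx | hx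
        · obtain ⟨t, ht, rfl | rfl⟩ := mem_wflat hx
          exacts [Or.inl (a3 t ht).1, Or.inr (a3 t ht).2.2.2.2]
        · rw [List.mem_singleton.1 hx]
          exact Or.inl (mul_mem (inv_mem g1) hb)
      · obtain ⟨rfl, -⟩ := List.cons.inj e
        have := hG.head2
        rw [hp] at this
        exact ⟨_, mul_mem hl.mem b1, by rwa [inv_mul_cancel_left], _, he, this⟩
  · cases l with
    | nil => exact absurd rfl h0
    | cons s l' =>
      have h1 : s.1 ∈ B ∧ ¬ InE c s.1 :=
        WRed.ep_tail (s := s) (l := l' ++ s :: l') hl s (by simp)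
      obtain ⟨f, f1, f', f2, y, y1, f3, f4, e, y2, y3, y4⟩ := N2 s.1 h1.1 h1.2
      obtain ⟨g, a1, a2, l2, a3, a4⟩ := N3 l' hl.left.ep_tail f f1 f3
      have he : f' * ev c k s.2 * g ∈ SE B c k := SE.mul (ev_mem_SE B c k s.2) f2 f4 a1 a2
      have h3 : NW μ B c k (l2 ++ (y, f' * ev c k s.2 * g) :: l2) := by
        intro t ht
        rcases List.mem_append.1 ht with ht | ht
        · exact a3 t ht
        rcases List.mem_cons.1 ht with rfl | ht
        · exact ⟨y1, y2, y3, y4, he⟩
        · exact a3 t ht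
      have h4 : ¬ Fol μ 1 c := by
        rintro ⟨q, q1, q2, -⟩
        have := On.nondeg D.big (on_left D.big.pos.le 1 1) q2 (by simpa using q1)
        rw [ds_self] at this
        exact (Ll.zero D.big.pos.le).not_ls D.big.pos this
      have hG := E3 _ h3 y y4 _ he 1 h4
      refine ⟨f, f1, wflat id ((y, f' * ev c k s.2 * g) :: l2), ?_, ?_⟩
      · have e2 : wval id l2 = g⁻¹ * (wval (ev c k) l' * f) := by rw [a4, inv_mul_cancel_left]
        rw [wflat_prod, wval_cons, wval_cons, e2, e]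
        simp only [id]
        group
      · rw [← wflat_append]
        exact Geo.left (L₂ := [1]) (by simpa using hG)

end Pool.Agent.P.MP_dba3d2_lc
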