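import Pool.Agent.P.MP_dba3d2_lc.C.IfaceL2
import Pool.Agent.P.MP_dba3d2_lc.A.Iface
import Pool.Agent.P.MP_dba3d2_lc.C.LTb

/-! Step C2_ELOC of the stability project. -/

namespace Pool.Agent.P.MP_dba3d2_lc

open Filter

theorem p_C2_ELOC (hELEM : S_ELEM) (hLINE : S_LINE) (hPERC : S_PERC) :
    S_C2_ELOC := by
  intro Γ a μ B c k D
  have hμ := D.big
  have h0 := hμ.pos.le
  have st : ∀ f ∈ Ep c, Stab μ 1 f c := fun f hf => D.prim.stab_ep hELEM hLINE D.short hf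
  have bg : ∀ e ∈ SE B c k, Ls μ (ln e) := by
    rintro _ ⟨f, h1, h2, q, hq, rfl⟩
    exact (D.long q hq f h1 h2).mono_right (md_le_ln _)
  refine ⟨st, bg, fun l hl b₀ hb₀ e he b hb => Loc.geo hμ ?_⟩
  have j1 : ∀ x, ¬ Fol μ x⁻¹ c → ∀ e ∈ SE B c k, On μ 1 x⁻¹ e := fun x hx e he =>
    on_of_not_fol hμ D.short hx (st e (SE.mem he).2).2
  have j2 : ∀ x, ¬ Fol μ x c → ∀ e ∈ SE B c k, On μ 1 e⁻¹ x := fun x hx e he =>
    (on_of_not_fol hμ D.short hx (st _ (inv_mem (SE.mem he).2)).2).symm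
  have j3 : ∀ x, ¬ InE c x → Ll (ln x) μ → ∀ e ∈ SE B c k, ∀ e' ∈ SE B c k,
      On μ 1 e⁻¹ (x * e') := by
    intro x hx t e he e' he'
    by_contra hn
    obtain ⟨q, q1, q2, q3⟩ := exists_ovl hμ hn
    have s1 : Stab μ 1 q c := (st _ (inv_mem (SE.mem he).2)).sub hμ (on_left h0 _ _) q2
    have q4 : On μ q x (x * e') :=
      q3.congr (FixA.ll_self h0 _) (by rwa [ds_one_left]) (FixA.ll_self h0 _)
    have q5 : On μ (x⁻¹ * q) 1 e' := by simpa using q4.mul x⁻¹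
    have s2 := st e' (SE.mem he').2
    have s3 : Stab μ (x⁻¹ * 1) (x⁻¹ * q) c :=
      ⟨fix_congr s2.1 (by rwa [mul_one, ds_one_left, ln_inv]), fix_conv hμ s2.1 s2.2 q5⟩
    have := (inE_of_stab hELEM hPERC hμ (by rwa [ds_one_left]) D.prim.1 s1 s3).inv
    rw [inv_inv] at this
    exact hx this
  induction l generalizing b₀ e with
  | nil =>
    exact ⟨j1 b₀ hb₀ e he, fun t => absurd (bg e he) (t.not_ls hμ.pos), j2 b hb e he,
      fun _ w hw => by simp at hw, trivial⟩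
  | cons s l ih =>
    obtain ⟨-, a2, a3, a4, a5⟩ := hl s List.mem_cons_self
    refine ⟨j1 b₀ hb₀ e he, fun t => absurd (bg e he) (t.not_ls hμ.pos), j2 _ a3 e he,
      fun t w hw => ?_, ih (fun x hx => hl x (List.mem_cons_of_mem _ hx)) s.1 a4 s.2 a5⟩
    obtain rfl : s.2 = w := by simpa using hw
    exact ⟨bg _ a5, j3 _ a2 t e he _ a5⟩

end Pool.Agent.P.MP_dba3d2_lc
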