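import Pool.Agent.P.MP_dba3d2_lc.C.IfaceL2
import Pool.Agent.P.MP_dba3d2_lc.A.Iface
import Pool.Agent.P.MP_dba3d2_lc.B.Iface
import Pool.Agent.P.MP_dba3d2_lc.C.LTb

/-! Step C2_ENRM of the stability project. -/

namespace Pool.Agent.P.MP_dba3d2_lc

open Filter

namespace C2_enrm

variable {Γ : HG} {a : Amb} {μ : a.K} {B : Subgroup (MM Γ a)} {c y : MM Γ a} {k : ℚ →+ a.Z}

theorem nf (D : ExpD μ B c k) (hy : y ∈ B) (h : NE c y) : ¬ Fol μ y⁻¹ c := by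
  intro hf
  have m0 := D.big.pos.le
  have h1 : Ls μ (ln y) := by
    obtain ⟨q, h1, h2, -⟩ := hf
    have := On.nondeg D.big (on_left m0 _ _) h2 (by rwa [ds_one_left])
    rwa [ds_one_left, ln_inv] at this
  have s : Sim (ln y) μ := ⟨(mem_ball m0).1 (D.bd hy), h1⟩
  exact h (D.big.of_ls h1) ((s.ll_iff (ln_nonneg _) m0).2 D.md)
    ((s.fol_iff (ln_nonneg _) m0).2 hf)

end C2_enrm

open C2_enrm in
theorem p_C2_ENRM (hELEM : S_ELEM) (hNORM : S_NORM) :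
    S_C2_ENRM := by
  intro Γ a μ B c k D
  obtain ⟨N1, N2⟩ := hNORM Γ a B D.gc
  have P2 : ∀ h ∈ B, ¬ InE c h → ∃ f ∈ B, ∃ f' ∈ B, ∃ y ∈ B, f ∈ Ep c ∧ f' ∈ Ep c ∧
      h = f * y * f' ∧ ¬ InE c y ∧ ¬ Fol μ y c ∧ ¬ Fol μ y⁻¹ c := fun h hh hn => by
    obtain ⟨f, f1, f', f2, f3, f4, n1, n2, -⟩ := N2 c D.mem c D.mem D.prim D.prim D.cen D.cen h hh
      fun e => hn (((hELEM Γ a c D.prim.1).2.2.2.1 h).2 e)
    have hy : f * h * f' ∈ B := mul_mem (mul_mem f1 hh) f2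
    have e : h = f⁻¹ * (f * h * f') * f'⁻¹ := by group
    refine ⟨f⁻¹, inv_mem f1, f'⁻¹, inv_mem f2, _, hy, inv_mem f3, inv_mem f4, e, fun k => hn ?_,
      by simpa only [inv_inv] using nf D (inv_mem hy) n1, nf D hy n2⟩
    rw [e]
    exact ((InE.of_mem f3).inv.mul k).mul (InE.of_mem f4).inv
  refine ⟨fun h hh => ?_, P2, fun l => ?_⟩
  · obtain ⟨f, f1, f2, -, n⟩ := N1 c D.mem D.prim D.cen h hh
    exact ⟨f, f1, f2, nf D (mul_mem hh f1) n⟩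
  · induction l with
    | nil => exact fun _ g g1 g2 => ⟨g, g1, g2, [], by simp [NW], by simp [wval]⟩
    | cons s l ih =>
      intro hl g g1 g2
      obtain ⟨f2, a1, a2, l2, a3, a4⟩ := ih (fun t ht => hl t (List.mem_cons_of_mem _ ht)) g g1 g2
      obtain ⟨f, b1, f', b2, y, b3, b4, b5, b6, b7, b8, b9⟩ :=
        P2 s.1 (hl s List.mem_cons_self).1 (hl s List.mem_cons_self).2
      refine ⟨f, b1, b4, (y, f' * ev c k s.2 * f2) :: l2, fun t ht => ?_, ?_⟩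
      · rcases List.mem_cons.1 ht with rfl | ht
        · exact ⟨b3, b7, b8, b9, SE.mul (ev_mem_SE B c k s.2) b2 b5 a1 a2⟩
        · exact a3 t ht
      · simp only [wval, List.map_cons, List.prod_cons, id] at a4 ⊢
        rw [mul_assoc, a4, b6]
        group

end Pool.Agent.P.MP_dba3d2_lc
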