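import Pool.Agent.P.MP_dba3d2_lc.C.IfaceL2
import Pool.Agent.P.MP_dba3d2_lc.A.Iface
import Pool.Agent.P.MP_dba3d2_lc.C.IfaceL
import Pool.Agent.P.MP_dba3d2_lc.C.LTb

/-! Step C2_ESTAR of the stability project. -/

namespace Pool.Agent.P.MP_dba3d2_lc

open Filter

namespace C2estar

variable {Γ : HG} {a : Amb} {μ : a.K} {B : Subgroup (MM Γ a)} {c d x : MM Γ a} {k : ℚ →+ a.Z}

theorem fix_conj (g : MM Γ a) (h : Ll (ds x (d * x)) μ) :
    Ll (ds (g⁻¹ * x) (g⁻¹ * d * g * (g⁻¹ * x))) μ := by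
  rwa [disp_conj', mul_inv_cancel_left]

theorem cen_fix (hB : GC0 B) (hd : d ∈ B) (hf : ¬ IsOfFinOrder d) (h : Ll (md d) μ) :
    ∃ y ∈ B, Ll (ds y (d * y)) μ := by
  obtain ⟨y, hy, -, hc⟩ := hB.cen1 hd hf
  exact ⟨y, hy, by rw [ds_conj]; exact hc.ll (by rwa [md_conj])⟩

/-- elliptic elements of infinite order are conjugate into the base -/
theorem ell (hE : S_ELEM) (hRW : S_C2_RW) (hG : S_C2_EGEO) (hP : S_C2_EEP) (D : ExpD μ B c k)
    (hd : d ∈ ET B c k) (hf : ¬ IsOfFinOrder d) (hm : Ll (md d) μ) :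
    ∃ g ∈ ET B c k, g⁻¹ * d * g ∈ B := by
  have hn := hm.not_ls D.big.pos
  obtain ⟨-, g, hg, h⟩ := hRW _ B _ (ev c k) (EP c) (ews B c k) d (ET_eq B c k ▸ hd)
  rw [← ET_eq] at hg
  rcases h with h | ⟨l, hl, e, hr⟩ | ⟨b, hb, s, e, hI⟩
  · exact ⟨g, hg, h⟩
  · obtain ⟨f, hfB, L, hL, hGeo⟩ := (hG Γ a μ B c k D).2 l hl hr.left
    have hgf := mul_mem hg (le_ET B c k hfB)
    have e' : L.prod = (g * f)⁻¹ * d * (g * f) := by rw [hL, ← e]; group
    refine ⟨g * f, hgf, by_contra fun hB => hn ?_⟩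
    have := hGeo.md D.big (e' ▸ (hP Γ a μ B c k D).2.1 _
      (mul_mem (mul_mem (inv_mem hgf) hd) hgf) hB)
    rwa [e', md_conj] at this
  · exfalso
    by_cases hbE : b ∈ Ep c
    · refine hn ?_
      rw [← md_conj d g, e]
      exact D.long s.1 s.2 b hb hbE
    · refine hf ((finOrder_conj' g d).1 (e ▸ (hE Γ a c D.prim.1).2.2.2.2.1 _
        (InE.mul hI (InE.of_mem (ipow_mem_Ep c _))) fun h => hbE ?_))
      exact (Subgroup.mul_mem_cancel_right _ (ipow_mem_Ep c _)).1 h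

/-- the induction along a reduced word -/
theorem es (hE : S_ELEM) (hPC : S_PERC) (hL : S_C2_ELOC) (hG : S_C2_EGEO) (hP : S_C2_EEP)
    (D : ExpD μ B c k) {b : MM Γ a} (hb : b ∈ B) (l : List (MM Γ a × {q : ℚ // q ≠ 0})) :
    WRed B (EP c) l → ∀ z, z = wval (ev c k) l * b → ∀ d' ∈ ET B c k, ¬ IsOfFinOrder d' →
      Ll (ds z (d' * z)) μ → z⁻¹ * d' * z ∈ B → ∀ d ∈ B, ¬ IsOfFinOrder d → ∀ x,
      Ll (ds x (d * x)) μ → Ll (ds x (d' * x)) μ →
      ∃ t ∈ ET B c k, t⁻¹ * d * t ∈ B ∧ t⁻¹ * d' * t ∈ B := by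
  have hμ := D.big
  induction l with
  | nil =>
    intro _ z hz d' _ _ _ h1 d hd _ x _ _
    rw [wval_nil, one_mul] at hz
    subst hz
    exact ⟨z, le_ET B c k hb, mul_mem (mul_mem (inv_mem hb) hd) hb, h1⟩
  | cons s l ih =>
    intro hr z hz d' hd' hf' hz' hzB d hd hf x hx hx'
    obtain ⟨y, hy, hyd⟩ := cen_fix D.gc hd hf (hx.mono_left (md_le_ds d x))
    obtain ⟨x1, hx1, hE1, e, he, o1, o2, o3⟩ := ((hG Γ a μ B c k D).1 _
      (hr.head (mul_mem (inv_mem hy) hr.mem)) b hb).2 _ _ rfl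
    have ez : y * (wval (ev c k) ((y⁻¹ * s.1, s.2) :: l) * b) = z := by
      rw [hz, wval_cons, wval_cons]
      group
    have p1 := o1.mul y
    have p2 := o2.mul y
    have p3 := o3.mul y
    rw [mul_one, ez] at p1 p2
    rw [mul_one] at p3
    rw [← mul_assoc] at p2 p3
    have hu : s.1⁻¹ * (y * x1) ∈ Ep c := by simpa [mul_assoc] using hE1
    have hX : y * x1 ∈ B := mul_mem hy hx1
    generalize y * x1 = X at p1 p2 p3 hu hX
    have hbig : Ls μ (ds X (X * e)) := by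
      rw [ds_mul_right]
      exact (hL Γ a μ B c k D).2.1 e he
    have hst : Stab μ X (X * e) (X * c * X⁻¹) := by
      simpa using (stab_conj X).2 ((hL Γ a μ B c k D).1 e (SE.mem he).2)
    have hcf : ¬ IsOfFinOrder (X * c * X⁻¹) := mt (finOrder_conj X c).1 D.prim.1
    have p4 := (On.sub p2 p3).2
    obtain ⟨m, m1, m2, m3⟩ := two_fix hμ (⟨hyd, hx⟩ : Stab μ y x d) (⟨hz', hx'⟩ : Stab μ z x d')
    by_cases hA : Ll (ds X (d' * X)) μ
    · have h1 := mem_Ep_conj.1 (mem_Ep_of_stab hE hPC hμ hbig hcf hst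
        ⟨hA, fix_conv hμ hA hz' p4⟩)
      have hXT := le_ET B c k hX
      obtain ⟨f0, hf0, q, eq⟩ := (hP Γ a μ B c k D).2.2.2 _
        (mul_mem (mul_mem (inv_mem hXT) hd') hXT) h1
      refine ⟨X, hXT, mul_mem (mul_mem (inv_mem hX) hd) hX, ?_⟩
      by_cases hq : q = 0
      · rwa [eq, hq, es_zero, mul_one]
      · have h2 := D.long q hq f0 hf0
          ((Subgroup.mul_mem_cancel_right _ (ipow_mem_Ep c _)).1 (eq ▸ h1))
        rw [← eq, md_conj] at h2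
        exact absurd h2 ((hx'.mono_left (md_le_ds d' x)).not_ls hμ.pos)
    · obtain ⟨a1, a2⟩ := (On.total hμ m1 p1).resolve_left fun h =>
        hA (fix_conv hμ m3.1 m3.2 h.2)
      have a3 : Ls μ (ds X m) := (ll_or_ls hμ.pos _).resolve_left fun h =>
        hA (fix_congr m3.1 (FixA.ll_comm h))
      have a4 := fix_conv hμ m2.1 m2.2 a1
      have h1 : X⁻¹ * d * X ∈ Ep c := mem_Ep_conj.1 (by
        rcases On.total hμ a2 p4 with h | h
        · exact mem_Ep_of_stab hE hPC hμ a3 hcf ⟨hst.1, fix_conv hμ hst.1 hst.2 h.1⟩ ⟨a4, m2.2⟩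
        · exact mem_Ep_of_stab hE hPC hμ hbig hcf hst ⟨a4, fix_conv hμ a4 m2.2 h.1⟩)
      have h2 : s.1⁻¹ * d * s.1 ∈ Ep c := by
        have := mul_mem (mul_mem hu h1) (inv_mem hu)
        convert this using 1
        group
      have ht0 : s.1 * ev c k s.2 ∈ ET B c k := mul_mem (le_ET B c k hr.mem) (es_mem B c k _)
      have h3 : (s.1 * ev c k s.2)⁻¹ * d * (s.1 * ev c k s.2) ∈ B := by
        have e1 : s.1⁻¹ * d * s.1 * ev c k s.2 = ev c k s.2 * (s.1⁻¹ * d * s.1) :=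
          (es_comm h2 k s.2.1).eq
        have e2 : (s.1 * ev c k s.2)⁻¹ * d * (s.1 * ev c k s.2) =
            (ev c k s.2)⁻¹ * (s.1⁻¹ * d * s.1 * ev c k s.2) := by group
        rw [e2, e1, inv_mul_cancel_left]
        exact mul_mem (mul_mem (inv_mem hr.mem) hd) hr.mem
      rw [wval_cons] at hz
      generalize s.1 * ev c k s.2 = t0 at hz ht0 h3
      obtain ⟨t, ht, b1, b2⟩ := ih hr.tail (t0⁻¹ * z) (by rw [hz]; group) (t0⁻¹ * d' * t0)
        (mul_mem (mul_mem (inv_mem ht0) hd') ht0) (mt (finOrder_conj' t0 d').1 hf')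
        (fix_conj t0 hz') (by convert hzB using 1; group) _ h3 (mt (finOrder_conj' t0 d).1 hf)
        (t0⁻¹ * x) (fix_conj t0 hx) (fix_conj t0 hx')
      exact ⟨t0 * t, mul_mem ht0 ht, by convert b1 using 1; group, by convert b2 using 1; group⟩

end C2estar

open C2estar in
theorem p_C2_ESTAR (hELEM : S_ELEM) (hPERC : S_PERC) (hC2_RW : S_C2_RW) (hC2_ELOC : S_C2_ELOC) (hC2_EGEO : S_C2_EGEO) (hC2_EEP : S_C2_EEP) :
    S_C2_ESTAR := by
  intro Γ a μ B c k D d hd d' hd' hf hf' x hx hx'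
  have hm' := hx'.mono_left (md_le_ds d' x)
  obtain ⟨g, hg, h1⟩ := ell hELEM hC2_RW hC2_EGEO hC2_EEP D hd hf (hx.mono_left (md_le_ds d x))
  obtain ⟨g', hg', h2⟩ := ell hELEM hC2_RW hC2_EGEO hC2_EEP D hd' hf' hm'
  obtain ⟨y, hy, h3⟩ := cen_fix (μ := μ) D.gc h2 (mt (finOrder_conj' g' d').1 hf')
    (by rwa [md_conj])
  rw [disp_conj'] at h3
  obtain ⟨⟨l, b, hb, hr, e⟩, -⟩ := hC2_RW _ B _ (ev c k) (EP c) (ews B c k) (g⁻¹ * (g' * y))
    (ET_eq B c k ▸ mul_mem (inv_mem hg) (mul_mem hg' (le_ET B c k hy)))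
  obtain ⟨t, ht, b1, b2⟩ := es hELEM hPERC hC2_ELOC hC2_EGEO hC2_EEP D hb l hr _ e (g⁻¹ * d' * g)
    (mul_mem (mul_mem (inv_mem hg) hd') hg) (mt (finOrder_conj' g d').1 hf') (fix_conj g h3)
    (by convert mul_mem (mul_mem (inv_mem hy) h2) hy using 1; group) _ h1
    (mt (finOrder_conj' g d).1 hf) (g⁻¹ * x) (fix_conj g hx) (fix_conj g hx')
  exact ⟨g * t, mul_mem hg ht, by convert b1 using 1; group, by convert b2 using 1; group⟩

end Pool.Agent.P.MP_dba3d2_lc
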