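import Pool.Agent.P.MP_dba3d2_lc.C.IfaceL2
import Pool.Agent.P.MP_dba3d2_lc.A.Iface
import Pool.Agent.P.MP_dba3d2_lc.C.IfaceL
import Pool.Agent.P.MP_dba3d2_lc.C.LTb

/-! Step C2_EXP0 of the stability project. -/

namespace Pool.Agent.P.MP_dba3d2_lc

open Filter

theorem p_C2_EXP0 (hELEM : S_ELEM) (hPERC : S_PERC) (hC2_RW : S_C2_RW) (hC2_RX : S_C2_RX) (hC2_TOP : S_C2_TOP) (hC2_ELOC : S_C2_ELOC) (hC2_EGEO : S_C2_EGEO) (hC2_EEP : S_C2_EEP) (hC2_ESTAR : S_C2_ESTAR) (hC2_EFIN : S_C2_EFIN) :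
    S_C2_EXP0 := by
  intro Γ a μ B c k D
  have hμ := D.big
  have h0 := hμ.pos.le
  obtain ⟨e1, e2, e3, e4⟩ := hC2_EEP Γ a μ B c k D
  have nf : ∀ t ∈ ET B c k, ∃ L : List (MM Γ a), L.prod = t ∧ Geo μ L ∧
      ∀ x ∈ L, x ∈ B ∨ x ∈ SE B c k := fun t ht => by
    obtain ⟨⟨l, b, hb, hl, rfl⟩, -⟩ := hC2_RW _ B _ _ _ (ews B c k) t (ET_eq B c k ▸ ht)
    exact ((hC2_EGEO Γ a μ B c k D).1 l hl b hb).1
  have st : ∀ f ∈ Ep c, ∀ g p q, On μ p g (g * f) → On μ q g (g * f) → Stab μ p q (g * c * g⁻¹) :=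
    fun f hf g p q hp hq => ((stab_conj g).2 ((hC2_ELOC Γ a μ B c k D).1 f hf)).sub hμ
      (by rwa [mul_one]) (by rwa [mul_one])
  have st1 : ∀ f ∈ Ep c, ∀ p q, On μ p 1 f → On μ q 1 f → Stab μ p q c := fun f hf p q hp hq =>
    ((hC2_ELOC Γ a μ B c k D).1 f hf).sub hμ hp hq
  have bl : ∀ w ∈ B, Ls (ln w) μ := fun w hw => ball_ls hμ D.bd hw
  have T : TopD μ B (ET B c k) {g | g ∈ B ∨ g ∈ SE B c k}
      (B ∪ Set.range fun q => ipow c (k q)) := by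
    refine ⟨hμ, D.gc, le_ET B c k, D.tb, e2, fun t ht => ?_, ?_, ?_, hC2_ESTAR Γ a μ B c k D, ?_, ?_,
      fun d hd hp f hf hfd n hn => ?_⟩
    · obtain ⟨L, a1, a2, a3⟩ := nf t ht
      exact ⟨L, a1, a2, fun x hx => ⟨(a3 x hx).elim (fun h => le_ET B c k h) fun h => (SE.mem h).1,
        1, one_mem _, x, a3 x hx, on_left h0 _ _, by rw [one_mul]; exact on_right h0 _ _⟩⟩
    · rintro w (hw | hw) w' hw' g p q ho hn
      · rcases hw' with hw' | hw'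
        · exact le_ET B c k (D.gc.g2 μ hμ w hw w' hw' (bl w hw) (bl w' hw') g p q ho hn)
        · exact absurd ⟨_, mt (finOrder_conj g c).1 D.prim.1,
            st w' (SE.mem hw').2 g p q ho.2.2.2.1 ho.2.2.2.2⟩ hn
      · exact absurd ⟨c, D.prim.1, st1 w (SE.mem hw).2 p q ho.2.1 ho.2.2.1⟩ hn
    · rintro w (hw | hw) p q h1 h2 h3 h4
      · obtain ⟨d, a1, a2⟩ := D.gc.g20 μ hμ w hw (bl w hw) p q h1 h2 h3 h4
        exact ⟨d, le_ET B c k a1, a2⟩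
      · exact ⟨c, le_ET B c k D.mem, D.prim, st1 w (SE.mem hw).2 p q h2 h3⟩
    · rw [Subgroup.closure_union, Subgroup.closure_eq]
      rfl
    · rintro s hs d hd hp hm
      obtain ⟨-, -, -, r4, r5⟩ := hC2_RX Γ a μ (ET B c k) d hμ hp.1 hm
      rcases hs with hs | ⟨q, rfl⟩
      · exact r5 B (le_ET B c k) D.gc D.bd hp s hs
      refine (r4 1 _).elim id fun ⟨p', q', a1, a2, a3, a4⟩ => ⟨_, es_mem B c k q, ?_, ?_⟩
      · rw [Ep_eq_of_stab hELEM hPERC hμ a1 hp.1 D.prim.1 a4 (st1 _ (ipow_mem_Ep c _) p' q' a2 a3)]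
        exact ipow_mem_Ep c _
      · refine Ll.of_nonpos ?_ h0
        rw [mul_one, ds_self, mul_zero, zero_sub, neg_nonpos]
        exact add_nonneg (ds_nonneg _ _) (ds_nonneg _ _)
    by_cases hx : ∀ x ∈ B, ¬ Cj x c d
    · obtain ⟨f', a1, a2⟩ := D.gc.pur d hd hp f (e3 d hd hp hx f hf hfd) hfd n hn
      exact ⟨f', le_ET B c k a1, a2⟩
    push Not at hx
    obtain ⟨x, hx, cj⟩ := hx
    have xT := le_ET B c k hx
    have me : ∀ y, y ∈ Ep d ↔ x⁻¹ * y * x ∈ Ep c := fun y => by rw [← cj, mem_Ep_conj]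
    have cm : ∀ y ∈ Ep d, ∀ q, Commute y (x * ipow c (k q) * x⁻¹) := fun y hy q => by
      simpa [mul_assoc] using (es_comm ((me y).1 hy) k q).map (MulAut.conj x)
    have sm : ∀ q, x * ipow c (k q) * x⁻¹ ∈ Ep d := fun q =>
      (me _).2 (by simpa [mul_assoc] using ipow_mem_Ep c (k q))
    obtain ⟨f0, b0, q, e⟩ := e4 _ (mul_mem (mul_mem (inv_mem xT) hf) xT) ((me f).1 hfd)
    have e' : f = x * f0 * x⁻¹ * (x * ipow c (k q) * x⁻¹) := by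
      rw [conj_mul, ← e]
      group
    have m1 : x * f0 * x⁻¹ ∈ Ep d := by
      rw [← mul_inv_eq_iff_eq_mul.2 e']
      exact mul_mem hfd (inv_mem (sm q))
    obtain ⟨f', a1, a2, r, a3⟩ := D.gc.pur d hd hp _ (mul_mem (mul_mem hx b0) (inv_mem hx)) m1 n hn
    refine ⟨f' * (x * ipow c (k (q / n)) * x⁻¹), mul_mem (le_ET B c k a1)
      (mul_mem (mul_mem xT (es_mem B c k _)) (inv_mem xT)), mul_mem a2 (sm _), r, ?_⟩
    have e2 := (cm _ (mul_mem (inv_mem m1) (pow_mem a2 n)) q).eq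
    rw [(cm f' a2 _).mul_pow, conj_pow, es_pow, mul_div_cancel₀ _ (Nat.cast_ne_zero.2 hn.ne'), e']
    generalize x * ipow c (k q) * x⁻¹ = σ at e2 ⊢
    generalize x * f0 * x⁻¹ = f1 at e2 a3 ⊢
    rwa [show (f1 * σ)⁻¹ * (f' ^ n * σ * d ^ r) = σ⁻¹ * (f1⁻¹ * f' ^ n * σ) * d ^ r by group, e2,
      inv_mul_cancel_left, mul_assoc]
  obtain ⟨g1, g2⟩ := hC2_TOP Γ a μ B _ _ _ T
  exact ⟨⟨g1, D.tb, hC2_EFIN Γ a B c k D.gc D.mem D.prim.1 e1, g2, e2⟩,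
    addNF_of hμ D.tb e2 (fun x hx => Or.inl hx) nf⟩

end Pool.Agent.P.MP_dba3d2_lc
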