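import Pool.Agent.P.MP_dba3d2_lc.C.IfaceL2
import Pool.Agent.P.MP_dba3d2_lc.A.Iface
import Pool.Agent.P.MP_dba3d2_lc.B.Iface
import Pool.Agent.P.MP_dba3d2_lc.C.LTb

/-! Step C2_G2 of the stability project. -/

namespace Pool.Agent.P.MP_dba3d2_lc

open Filter

namespace C2_g2

variable {Γ : HG} {a : Amb} {μ : a.K} {B T : Subgroup (MM Γ a)} {W S : Set (MM Γ a)}
  {g h h' m p q x y c : MM Γ a}

theorem tr (h : On μ p g (g * x)) : On μ (g⁻¹ * p) 1 x := by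
  simpa using h.mul g⁻¹

theorem st (h : Stab μ (g⁻¹ * p) (g⁻¹ * q) c) : Stab μ p q (g * c * g⁻¹) := by
  simpa using (stab_conj g).2 h

theorem g20 (hE : S_ELEM) (hL : S_LINE) (hP : S_PERC) (D : TopD μ B T W S) (hh : h ∈ T)
    (hn : Ls μ (ds p q)) (hp : On μ p 1 h) (hq : On μ q 1 h) (hper : Per μ p q) :
    ∃ c ∈ T, Prim c ∧ Stab μ p q c := by
  have hμ := D.big
  obtain ⟨d, hd, sd⟩ := hper
  have key := D.cut (fun p' q' => On μ p' p q ∧ On μ q' p q ∧ Ls μ (ds p' q')) False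
    (fun _ _ e => e.2.2) (fun p' q' m e hm =>
      have om := On.conv hμ e.1 e.2.1 hm
      (Ls.add_cases (e.2.2.mono_right (ds_tri p' m q'))).elim (fun x => Or.inl ⟨e.1, om, x⟩)
        fun x => Or.inr (Or.inl ⟨om, e.2.1, x⟩)) hh 1 (by simpa using hp) (by simpa using hq)
    ⟨on_left hμ.pos.le _ _, on_right hμ.pos.le _ _, hn⟩
  obtain ⟨g, hg, w, hw, p', q', ⟨n1, n2, n3⟩, o1, o2⟩ := key.resolve_left id
  rw [one_mul] at o1 o2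
  have sd' := sd.sub hμ n1 n2
  obtain ⟨c, hc, pc, sc⟩ := D.w20 w hw _ _ (by rwa [ds_mul_left]) (tr o1) (tr o2)
    ((per_mul_iff _).2 ⟨d, hd, sd'⟩)
  have he := Ep_eq_of_stab hE hP hμ n3 (pc.conj g).1 hd (st sc) sd'
  exact ⟨g * c * g⁻¹, mul_mem (mul_mem hg hc) (inv_mem hg), pc.conj g,
    (pc.conj g).fix hE hL hd he sd.1, (pc.conj g).fix hE hL hd he sd.2⟩

/-- two periodic halves of a nonperiodic segment -/
theorem joint (hE : S_ELEM) (hL : S_LINE) (hP : S_PERC) (hR : S_RIG) (D : TopD μ B T W S)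
    (hh : h ∈ T) (hh' : h' ∈ T) (x1 : On μ x 1 h) (m1 : On μ m 1 h) (y1 : On μ y 1 h)
    (x2 : On μ x g (g * h')) (m2 : On μ m g (g * h')) (y2 : On μ y g (g * h'))
    (n1 : Ls μ (ds x m)) (n2 : Ls μ (ds m y)) (p1 : Per μ x m) (p2 : Per μ m y)
    (np : ¬ Per μ x y) : g ∈ T := by
  have hμ := D.big
  obtain ⟨c, hc, pc, sc⟩ := g20 hE hL hP D hh n1 x1 m1 p1
  obtain ⟨d, hd, pd, sd⟩ := g20 hE hL hP D hh n2 m1 y1 p2
  obtain ⟨c', hc', pc', sc'⟩ := g20 hE hL hP D hh' (by rwa [ds_mul_left]) (tr x2) (tr m2)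
    ((per_mul_iff _).2 p1)
  obtain ⟨d', hd', pd', sd'⟩ := g20 hE hL hP D hh' (by rwa [ds_mul_left]) (tr m2) (tr y2)
    ((per_mul_iff _).2 p2)
  have ne : Ep c ≠ Ep d := fun e => np ⟨c, pc.1, sc.1, pc.fix hE hL pd.1 e sd.2⟩
  obtain ⟨t, ht, t1, t2⟩ := D.star c hc d hd pc.1 pd.1 m sc.2 sd.1
  obtain ⟨t', ht', t1', t2'⟩ := D.star c' hc' d' hd' pc'.1 pd'.1 _ sc'.2 sd'.1
  have j1 : Cj g c' c := Ep_eq_of_stab hE hP hμ n1 (pc'.conj g).1 pc.1 (st sc') sc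
  have j2 : Cj g d' d := Ep_eq_of_stab hE hP hμ n2 (pd'.conj g).1 pd.1 (st sd') sd
  have := D.le ((hR Γ a B D.gc).1 _ t1 _ t2 _ t1' _ t2' (pc.conj' t).1 (pd.conj' t).1
    (pc'.conj' t').1 (pd'.conj' t').1 (fun e => ne ((Ep_conj_iff' t).1 e)) _ (j1.conj t t')
    (j2.conj t t'))
  simpa [mul_assoc] using mul_mem (mul_mem ht this) (inv_mem ht')

theorem g2 (hE : S_ELEM) (hL : S_LINE) (hP : S_PERC) (hR : S_RIG) (D : TopD μ B T W S)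
    (hh : h ∈ T) (hh' : h' ∈ T) (ov : Ov μ p q 1 h g (g * h')) (np : ¬ Per μ p q) : g ∈ T := by
  have hμ := D.big
  have h0 := hμ.pos.le
  obtain ⟨hn, a1, a2, b1, b2⟩ := ov
  have hc : ∀ p' q' m, (On μ p' p q ∧ On μ q' p q ∧ Ls μ (ds p' q') ∧ ¬ Per μ p' q') →
      On μ m p' q' → (On μ p' p q ∧ On μ m p q ∧ Ls μ (ds p' m) ∧ ¬ Per μ p' m) ∨
        (On μ m p q ∧ On μ q' p q ∧ Ls μ (ds m q') ∧ ¬ Per μ m q') ∨ g ∈ T := by
    rintro p' q' m ⟨e1, e2, e3, e4⟩ hm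
    have om := On.conv hμ e1 e2 hm
    have tri := ds_tri p' m q'
    rcases ll_or_ls hμ.pos (ds p' m) with u | u
    · exact Or.inr (Or.inl ⟨om, e2, e3.of_le_add u hμ.pos 1 (by push_cast; linarith),
        fun e => e4 (e.congr (FixA.ll_comm u) (FixA.ll_self h0 _))⟩)
    rcases ll_or_ls hμ.pos (ds m q') with v | v
    · exact Or.inl ⟨e1, om, u, fun e => e4 (e.congr (FixA.ll_self h0 _) v)⟩
    by_cases k1 : Per μ p' m
    · by_cases k2 : Per μ m q'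
      · exact Or.inr (Or.inr (joint hE hL hP hR D hh hh' (a1.conv hμ a2 e1) (a1.conv hμ a2 om)
          (a1.conv hμ a2 e2) (b1.conv hμ b2 e1) (b1.conv hμ b2 om) (b1.conv hμ b2 e2) u v k1 k2 e4))
      · exact Or.inr (Or.inl ⟨om, e2, v, k2⟩)
    · exact Or.inl ⟨e1, om, u, k1⟩
  rcases D.cut _ _ (fun _ _ e => e.2.2.1) hc hh 1 (by simpa using a1) (by simpa using a2)
    ⟨on_left h0 _ _, on_right h0 _ _, hn, np⟩ with e | ⟨g1, hg1, w, hw, p1, q1, n1, o1, o2⟩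
  · exact e
  rw [one_mul] at o1 o2
  rcases D.cut (fun p' q' => (On μ p' p q ∧ On μ q' p q ∧ Ls μ (ds p' q') ∧ ¬ Per μ p' q') ∧
      On μ p' g1 (g1 * w) ∧ On μ q' g1 (g1 * w)) (g ∈ T) (fun _ _ e => e.1.2.2.1)
    (fun p' q' m e hm =>
      have om := On.conv hμ e.2.1 e.2.2 hm
      (hc p' q' m e.1 hm).imp (fun x => ⟨x, e.2.1, om⟩) (Or.imp_left fun x => ⟨x, om, e.2.2⟩))
    hh' g (b1.conv hμ b2 n1.1) (b1.conv hμ b2 n1.2.1) ⟨n1, o1, o2⟩ with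
    e | ⟨g2, hg2, w', hw', p2, q2, ⟨⟨-, -, n2, n3⟩, o3, o4⟩, o5, o6⟩
  · exact e
  have := D.w2 w hw w' hw' (g1⁻¹ * (g * g2)) (g1⁻¹ * p2) (g1⁻¹ * q2)
    ⟨by rwa [ds_mul_left], tr o3, tr o4, by simpa only [mul_assoc] using o5.mul g1⁻¹,
      by simpa only [mul_assoc] using o6.mul g1⁻¹⟩ (mt (per_mul_iff _).1 n3)
  simpa [mul_assoc] using mul_mem (mul_mem hg1 this) (inv_mem hg2)

end C2_g2

theorem p_C2_G2 (hELEM : S_ELEM) (hLINE : S_LINE) (hPERC : S_PERC) (hRIG : S_RIG) :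
    S_C2_G2 := fun _ _ _ _ _ _ _ D =>
  ⟨fun _ hh _ _ hn hp hq h => C2_g2.g20 hELEM hLINE hPERC D hh hn hp hq h,
    fun _ hh _ hh' _ _ _ ov np => C2_g2.g2 hELEM hLINE hPERC hRIG D hh hh' ov np⟩

end Pool.Agent.P.MP_dba3d2_lc
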