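import Pool.Agent.P.MP_dba3d2_lc.C.IfaceL

/-! Step C2_HEXT of the stability project. -/

namespace Pool.Agent.P.MP_dba3d2_lc

open Filter

theorem p_C2_HEXT (hC2_RW3 : S_C2_RW3) :
    S_C2_HEXT := by
  intro Γ a B r u hW G _ θ0 ν hν
  have hT : B ⊔ Subgroup.closure (Set.range u) = B ⊔ Subgroup.closure (Set.range (hv u)) := by
    congr 1
    apply le_antisymm
    · refine (Subgroup.closure_le _).2 ?_
      rintro _ ⟨i, rfl⟩
      exact Subgroup.subset_closure ⟨(i, true), rfl⟩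
    · refine (Subgroup.closure_le _).2 ?_
      rintro _ ⟨⟨i, _ | _⟩, rfl⟩
      · exact inv_mem (Subgroup.subset_closure ⟨i, rfl⟩ : u i ∈ Subgroup.closure (Set.range u))
      · exact Subgroup.subset_closure ⟨i, rfl⟩
  obtain ⟨θ, h1, h2⟩ := hC2_RW3 _ G B _ (hv u) (HP B u) θ0 (hv ν) hW
    (by
      rintro ⟨i, _ | _⟩
      · exact ⟨(i, true), (inv_inv _).symm, (inv_inv _).symm⟩
      · exact ⟨(i, false), rfl, rfl⟩)
    (by
      rintro ⟨i, s⟩ b ⟨j, t⟩ ⟨e, hne, hm⟩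
      obtain rfl : i = j := e
      refine Or.inl ⟨⟨_, hm⟩, rfl, ?_⟩
      cases s <;> cases t
      · exact absurd rfl hne
      · exact (hν i b ⟨_, hm⟩ rfl).symm
      · have := hν i ⟨_, hm⟩ b (by
          show (b : MM Γ a) = (u i)⁻¹ * (u i * b * (u i)⁻¹) * u i
          group)
        show ν i * θ0 b * (ν i)⁻¹ = _
        rw [this]
        group
      · exact absurd rfl hne) _ hT
  exact ⟨θ, fun x => h1 _ x rfl, fun i => h2 _ (i, true) rfl⟩

end Pool.Agent.P.MP_dba3d2_lc
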