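import Pool.Agent.P.MP_dba3d2_lc.C.IfaceL

/-! Step C2_HFIN of the stability project. -/

namespace Pool.Agent.P.MP_dba3d2_lc

open Filter

namespace C2hfin

variable {G : Type} [Group G] {B : Subgroup G} {ι : Type} {u : ι → G}

/-- edges -/
abbrev W (B : Subgroup G) (ι : Type) : Type := Σ _ : ι, (G ⧸ B) × (G ⧸ B)

/-- the edge which starts at `g` -/
def ed (B : Subgroup G) (u : ι → G) (g : G) (i : ι) : W B ι := ⟨i, ((g : G ⧸ B), (g * u i : G))⟩

/-- incidence -/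
def adj (B : Subgroup G) (u : ι → G) (v : G ⧸ B) (w : W B ι) : Prop :=
  (∃ g i, w = ed B u g i) ∧ (v = w.2.1 ∨ v = w.2.2)

/-- the edge crossed by a letter -/
def vx (B : Subgroup G) (u : ι → G) (y : G) (s : ι × Bool) : W B ι :=
  bif s.2 then ed B u y s.1 else ed B u (y * (u s.1)⁻¹) s.1

theorem ed_eq {x : G} {i : ι} (y : G) (h1 : x ∈ B) (h2 : (u i)⁻¹ * x * u i ∈ B) :
    ed B u y i = ed B u (y * x) i := by
  have e1 : (y : G ⧸ B) = (y * x : G) := QuotientGroup.eq.2 (by rwa [inv_mul_cancel_left])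
  have e2 : ((y * u i : G) : G ⧸ B) = (y * x * u i : G) := QuotientGroup.eq.2 (by
    rwa [show (y * u i)⁻¹ * (y * x * u i) = (u i)⁻¹ * x * u i by group])
  rw [ed, ed, ← e1, ← e2]

theorem pinch {s s' : ι × Bool} {b : G} (y : G) (hb : b ∈ B) (h : HP B u s b s') :
    vx B u y s = vx B u (y * hv u s * b) s' := by
  obtain ⟨i, c⟩ := s
  obtain ⟨j, c'⟩ := s'
  obtain ⟨rfl, h1, h2⟩ : i = j ∧ c ≠ c' ∧ _ := h
  cases c <;> cases c'
  · exact absurd rfl h1
  · exact ed_eq _ hb h2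
  · refine (ed_eq y h2 ?_).trans (congrArg (ed B u · i) ?_)
    · simpa [hv, mul_assoc] using hb
    · simp [hv, mul_assoc]
  · exact absurd rfl h1

theorem step {v v' : G ⧸ B} {w : W B ι} (h : adj B u v w) (h' : adj B u v' w) (hne : v ≠ v')
    {g : G} (hg : v = g) : ∃ s : G × ι × Bool, s.1 ∈ B ∧ v' = (g * (s.1 * hv u s.2) : G) ∧
      w = vx B u (g * s.1) s.2 := by
  obtain ⟨⟨y, i, rfl⟩, h1⟩ := h
  rcases h1 with h1 | h1 <;> rcases h'.2 with h2 | h2
  · exact absurd (h1.trans h2.symm) hne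
  · refine ⟨(g⁻¹ * y, i, true), QuotientGroup.eq.1 (hg.symm.trans h1), h2.trans ?_, ?_⟩
    · simp [hv, ed, mul_assoc]
    · simp [vx]
  · refine ⟨(g⁻¹ * (y * u i), i, false), QuotientGroup.eq.1 (hg.symm.trans h1), h2.trans ?_, ?_⟩
    · simp [hv, ed, mul_assoc]
    · simp [vx]
  · exact absurd (h1.trans h2.symm) hne

theorem chain {v v' : G ⧸ B} {w : W B ι} (h : RCh (adj B u) v w v') : ∀ g : G, v = g →
    ∃ s l, WRed B (HP B u) (s :: l) ∧ v' = (g * wval (hv u) (s :: l) : G) ∧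
      w = vx B u (g * s.1) s.2 := by
  induction h with
  | one h1 h2 h3 =>
    intro g hg
    obtain ⟨s, a1, a2, a3⟩ := step h1 h2 h3 hg
    exact ⟨s, [], ⟨by simpa using a1, List.IsChain.singleton _⟩, by simpa [wval] using a2, a3⟩
  | cons h1 h2 h3 h4 _ ih =>
    intro g hg
    obtain ⟨s, a1, a2, a3⟩ := step h1 h2 h3 hg
    obtain ⟨s', l, b1, b2, b3⟩ := ih _ a2
    refine ⟨s, s' :: l, ⟨List.forall_mem_cons.2 ⟨a1, b1.1⟩, List.isChain_cons_cons.2
      ⟨fun hp => h4 ?_, b1.2⟩⟩, by simpa [wval, mul_assoc] using b2, a3⟩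
    rw [a3, b3, pinch _ (b1.1 s' List.mem_cons_self) hp, mul_assoc g]

theorem symm {V W : Type} {A : V → W → Prop} {v v' : V} (h : Conn A v v') : Conn A v' v := by
  induction h with
  | refl => exact Relation.ReflTransGen.refl
  | tail _ h ih =>
    obtain ⟨w, h1, h2⟩ := h
    exact Relation.ReflTransGen.head ⟨w, h2, h1⟩ ih

theorem conn (B : Subgroup G) (u : ι → G) {t : G} (ht : t ∈ B ⊔ Subgroup.closure (Set.range u))
    (g : G) : Conn (adj B u) (g : G ⧸ B) (g * t : G) := by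
  let T : Subgroup G :=
    { carrier := {t | ∀ g : G, Conn (adj B u) (g : G ⧸ B) (g * t : G)}
      one_mem' := fun g => by rw [mul_one]; exact Relation.ReflTransGen.refl
      mul_mem' := fun {a b} ha hb g => by
        rw [← mul_assoc]
        exact (ha g).trans (hb _)
      inv_mem' := fun {a} ha g => by
        have := ha (g * a⁻¹)
        rw [inv_mul_cancel_right] at this
        exact symm this }
  refine (sup_le (fun b hb g => ?_) ((Subgroup.closure_le _).2 ?_) : _ ≤ T) ht g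
  · rw [QuotientGroup.mk_mul_of_mem g hb]
    exact Relation.ReflTransGen.refl
  · rintro _ ⟨i, rfl⟩ g
    exact Relation.ReflTransGen.single
      ⟨ed B u g i, ⟨⟨g, i, rfl⟩, Or.inl rfl⟩, ⟨⟨g, i, rfl⟩, Or.inr rfl⟩⟩

theorem of_conn {v : G ⧸ B} (h : Conn (adj B u) ((1 : G) : G ⧸ B) v) :
    ∃ p ∈ B ⊔ Subgroup.closure (Set.range u), v = (p : G ⧸ B) := by
  induction h with
  | refl => exact ⟨1, one_mem _, rfl⟩
  | @tail v v' _ h ih =>
    obtain ⟨p, hp, e⟩ := ih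
    obtain ⟨w, h1, h2⟩ := h
    by_cases hne : v = v'
    · exact ⟨p, hp, hne ▸ e⟩
    obtain ⟨⟨b, i, c⟩, a1, a2, -⟩ := step h1 h2 hne e
    have m : u i ∈ B ⊔ Subgroup.closure (Set.range u) :=
      Subgroup.mem_sup_right (Subgroup.subset_closure ⟨i, rfl⟩)
    refine ⟨_, mul_mem hp (mul_mem (Subgroup.mem_sup_left a1) ?_), a2⟩
    cases c
    · exact inv_mem m
    · exact m

end C2hfin

open C2hfin in
theorem p_C2_HFIN (hC2_BIP : S_C2_BIP) :
    S_C2_HFIN := by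
  intro G _ B ι u hB K hK hf
  obtain ⟨v, h1, h2⟩ := hC2_BIP G (G ⧸ B) (W B ι) (adj B u) K ((1 : G) : G ⧸ B)
    (fun v w v' h e => by
      obtain ⟨g, rfl⟩ := QuotientGroup.mk_surjective v
      obtain ⟨s, l, a1, a2, -⟩ := chain h g rfl
      refine hB _ a1 (List.cons_ne_nil _ _) ?_
      simpa using QuotientGroup.eq.1 (e.trans a2)) hf
    (fun k _ v w h => by
      obtain ⟨⟨g, i, rfl⟩, h⟩ := h
      refine ⟨⟨k * g, i, ?_⟩, h.imp (congrArg (k • ·)) (congrArg (k • ·))⟩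
      rw [ed, ed, mul_assoc]
      rfl)
    fun k hk => by
      have := conn B u (hK hk) 1
      rw [one_mul] at this
      rwa [MulAction.Quotient.smul_mk, smul_eq_mul, mul_one]
  obtain ⟨p, hp, rfl⟩ := of_conn h1
  have h3 : ∀ k ∈ K, k • (p : G ⧸ B) = p := by
    rcases h2 with h2 | ⟨⟨i, x, y⟩, ⟨-, h | h⟩, h2⟩
    · exact h2
    · exact fun k hk => h ▸ congrArg (fun w : W B ι => w.2.1) (h2 k hk)
    · exact fun k hk => h ▸ congrArg (fun w : W B ι => w.2.2) (h2 k hk)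
  refine ⟨p, hp, fun k hk => ?_⟩
  rw [mul_assoc]
  exact QuotientGroup.eq.1 (h3 k hk).symm

end Pool.Agent.P.MP_dba3d2_lc
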