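import Pool.Agent.P.MP_dba3d2_lc.C.IfaceL2
import Pool.Agent.P.MP_dba3d2_lc.A.Iface
import Pool.Agent.P.MP_dba3d2_lc.B.Iface
import Pool.Agent.P.MP_dba3d2_lc.C.LTb

/-! Step C2_HST of the stability project. -/

namespace Pool.Agent.P.MP_dba3d2_lc

open Filter

namespace C2hst

variable {Γ : HG} {a : Amb} {μ : a.K} {d d' m z : MM Γ a}

/-- a segment with a nonperiodic germ is not covered by two periodic segments -/
theorem npg_two (hμ : Big μ) (hz : Npg μ z) (hd : ¬ IsOfFinOrder d) (hd' : ¬ IsOfFinOrder d')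
    (hm : On μ m 1 z) (h1 : Stab μ 1 m d) (h2 : Stab μ m z d') : False := by
  obtain ⟨t, t', ht, ht', hb, N⟩ := hz
  have h0 := hμ.pos.le
  have fin : ∀ e, ¬ IsOfFinOrder e → Stab μ t t' e → False := fun e he hs =>
    N t' (on_right h0 _ _) hb ⟨e, he, hs⟩
  rcases On.total hμ ht hm with a1 | a1 <;> rcases On.total hμ ht' hm with a2 | a2
  · exact fin d hd (h1.sub hμ a1.1 a2.1)
  · rcases ll_or_ls hμ.pos (ds t m) with e | e
    · exact fin d' hd' ⟨fix_congr h2.1 (FixA.ll_comm e), fix_conv hμ h2.1 h2.2 a2.2⟩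
    · exact N m (On.sub a2.1 a1.1).2 e ⟨d, hd, h1.sub hμ a1.1 (on_right h0 _ _)⟩
  · rcases ll_or_ls hμ.pos (ds t m) with e | e
    · exact fin d hd ⟨fix_congr h1.2 (FixA.ll_comm e), fix_conv hμ h1.1 h1.2 a2.1⟩
    · exact N m (On.sub a1.1 a2.1).2.symm e ⟨d', hd', h2.sub hμ a1.2 (on_left h0 _ _)⟩
  · exact fin d' hd' (h2.sub hμ a1.2 a2.2)

theorem centre {B T : Subgroup (MM Γ a)} (hB : GC0 B) (hBT : B ≤ T) {c g : MM Γ a}
    (hc : ¬ IsOfFinOrder c) (hm : Ll (md c) μ) (hg : g ∈ T) (h : g⁻¹ * c * g ∈ B) :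
    ∃ u ∈ T, u⁻¹ * c * u ∈ B ∧ Ll (ds u (c * u)) μ := by
  obtain ⟨y, hy, -, hcen⟩ := hB.cen1 h (mt (finOrder_conj' g c).1 hc)
  have e : (g * y)⁻¹ * c * (g * y) = y⁻¹ * (g⁻¹ * c * g) * y := by group
  refine ⟨g * y, mul_mem hg (hBT hy), ?_, ?_⟩
  · rw [e]
    exact mul_mem (mul_mem (inv_mem hy) h) hy
  · rw [ds_conj, e]
    exact hcen.ll (by rwa [md_conj, md_conj])

end C2hst

open C2hst in
theorem p_C2_HST (hELEM : S_ELEM) (hLINE : S_LINE) (hROOT : S_ROOT) :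
    S_C2_HST := by
  intro Γ a μ B T hμ hB hBT hT hN
  refine ⟨fun t ht hn => ?_, fun c hc hp f hf hfc => ?_, fun H c hc c' hc' n n' x hx hx' => ?_⟩
  · obtain ⟨s, s', h1, h2, h3, -⟩ := hN t ht hn
    simpa using On.nondeg hμ h1 h2 h3
  · obtain ⟨y, hy, -, hcen⟩ := hB.cen1 hc hp.1
    have hc0 : y⁻¹ * c * y ∈ B := mul_mem (mul_mem (inv_mem hy) hc) hy
    have hp0 := hp.conj' y
    have hf0 : y⁻¹ * f * y ∈ T := mul_mem (mul_mem (inv_mem (hBT hy)) hf) (hBT hy)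
    have he : y⁻¹ * f * y ∈ Ep (y⁻¹ * c * y) := by
      rw [mem_Ep_conj']
      simpa [mul_assoc] using hfc
    have key : y⁻¹ * f * y ∈ B := by
      rcases ll_or_ls hμ.pos (md (y⁻¹ * c * y)) with e | e
      · by_contra hn
        have hs := hp0.stab_ep hELEM hLINE (hcen.ll e) he
        exact npg_two hμ (hN _ hf0 hn) hp0.1 hp0.1 (on_right hμ.pos.le _ _) hs ⟨hs.2, hs.2⟩
      · exact ((hROOT Γ a B hB).2.1 _ hc0 _ hc0 hp0 hp0 _ (Cj.of_mem he)).2 hcen hcen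
          ((ball_ls hμ hT hf0).trans' e)
    have e : f = y * (y⁻¹ * f * y) * y⁻¹ := by group
    rw [e]
    exact mul_mem (mul_mem hy key) (inv_mem hy)
  · have m1 : Ll (md c) μ := hx.mono_left (md_le_ds c x)
    have m2 : Ll (md c') μ := hx'.mono_left (md_le_ds c' x)
    obtain ⟨g, hg, b1⟩ := H c hc m1
    obtain ⟨g', hg', b2⟩ := H c' hc' m2
    obtain ⟨u, hu, c1, c2⟩ := centre hB hBT n m1 hg b1
    obtain ⟨u', hu', d1, d2⟩ := centre hB hBT n' m2 hg' b2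
    obtain ⟨m, o, s1, s2⟩ := two_fix hμ (u := u) (z := u') ⟨c2, hx⟩ ⟨d2, hx'⟩
    have hz : u⁻¹ * u' ∈ B := by
      by_contra hn
      refine npg_two (m := u⁻¹ * m) hμ (hN _ (mul_mem (inv_mem hu) hu') hn)
        (mt (finOrder_conj' u c).1 n) (mt (finOrder_conj' u c').1 n') ?_ ?_ ?_
      · simpa using o.mul u⁻¹
      · rw [stab_conj']
        simpa using s1
      · rw [stab_conj']
        simpa using s2
    refine ⟨u, hu, c1, ?_⟩
    have e : u⁻¹ * c' * u = u⁻¹ * u' * (u'⁻¹ * c' * u') * (u⁻¹ * u')⁻¹ := by group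
    rw [e]
    exact mul_mem (mul_mem hz d1) (inv_mem hz)

end Pool.Agent.P.MP_dba3d2_lc
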