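import Pool.Agent.P.MP_dba3d2_lc.C.IfaceL2
import Pool.Agent.P.MP_dba3d2_lc.C.LTb

/-! Step C2_LGEO of the stability project. -/

namespace Pool.Agent.P.MP_dba3d2_lc

open Filter

namespace C2_lgeo

variable {Γ : HG} {a : Amb} {μ : a.K} {B : Subgroup (MM Γ a)} {r : ℕ} {K : Fin r → Subgroup Γ.G}
  {u : Fin r → MM Γ a} {p q x y x' y' z : MM Γ a}

theorem rev2 (h : Ov μ p q x y x' y') : Ov μ p q x y y' x' :=
  ⟨h.1, h.2.1, h.2.2.1, h.2.2.2.1.symm, h.2.2.2.2.symm⟩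

theorem flip (h : Ov μ p q 1 x⁻¹ x' y') : Ov μ (x * p) (x * q) 1 x (x * x') (x * y') := by
  simpa only [mul_inv_cancel, mul_one] using (rev2 h.symm).symm.mul x

theorem ov_one (hμ : Big μ) (h : Ls μ (ln q)) (h1 : On μ q 1 x) (h2 : On μ q 1 y)
    (hz : Ll (ln z) μ) : Ov μ 1 q 1 x z y :=
  ⟨by rwa [ds_one_left], on_left hμ.pos.le _ _, h1, On.of_near (by rwa [ds_one_right]) _,
    h2.congr (FixA.ll_self hμ.pos.le _) (by rwa [ds_one_left]) (FixA.ll_self hμ.pos.le _)⟩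

theorem ll_one (hμ : Big μ) : Ll (ln (1 : MM Γ a)) μ := Ll.of_nonpos ln_one.le hμ.pos.le

theorem no_ov (hμ : Big μ) (hb : B ≤ ball Γ μ) (hL : Letters μ B K u) (i : Fin r) (hx : x ∈ B)
    (h : Ls μ (ln q)) (h1 : On μ q 1 (u i)) (h2 : On μ q 1 x) : False :=
  hL.base i x hx (ball_ls hμ hb hx) 1 1 q (by rw [one_mul]; exact ov_one hμ h h1 h2 (ll_one hμ))

theorem not_mem (hμ : Big μ) (hb : B ≤ ball Γ μ) (hL : Letters μ B K u) (i : Fin r) : u i ∉ B :=
  fun h => no_ov hμ hb hL i h (hL.sim i).2 (on_right hμ.pos.le _ _) (on_right hμ.pos.le _ _)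

theorem on_base (hμ : Big μ) (hb : B ≤ ball Γ μ) (hL : Letters μ B K u) (i : Fin r) (hx : x ∈ B) :
    On μ 1 (u i) x ∧ On μ 1 (u i)⁻¹ x := by
  refine ⟨by_contra fun h => ?_, by_contra fun h => ?_⟩ <;>
    obtain ⟨q, h0, h1, h2⟩ := exists_ovl hμ h
  · exact no_ov hμ hb hL i hx h0 h1 h2
  · have := flip (ov_one hμ h0 h1 h2 (ll_one hμ))
    rw [mul_one] at this
    exact hL.base i x hx (ball_ls hμ hb hx) _ _ _ this

theorem on_hv (hμ : Big μ) (hb : B ≤ ball Γ μ) (hL : Letters μ B K u) (s : Fin r × Bool)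
    (hx : x ∈ B) : On μ 1 (hv u s) x ∧ On μ 1 (hv u s)⁻¹ x := by
  obtain ⟨i, _ | _⟩ := s
  · rw [hv_false, inv_inv]
    exact (on_base hμ hb hL i hx).symm
  · exact on_base hμ hb hL i hx

theorem big_hv (hL : Letters μ B K u) (s : Fin r × Bool) : Ls μ (ln (hv u s)) := by
  obtain ⟨i, _ | _⟩ := s
  · rw [hv_false, ln_inv]
    exact (hL.sim i).2
  · exact (hL.sim i).2

theorem junction (hμ : Big μ) (hB : GC0 B) (hb : B ≤ ball Γ μ) (hL : Letters μ B K u)
    {s s' : Fin r × Bool} (hz : z ∈ B) (ht : Ll (ln z) μ) (hn : ¬ HP B u s z s') :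
    On μ 1 (hv u s)⁻¹ (z * hv u s') := by
  by_contra h
  obtain ⟨q, h0, h1, h2⟩ := exists_ovl hμ h
  have o := ov_one hμ h0 h1 h2 ht
  have m : ∀ {i g}, g ∈ (K i).map (cst Γ a) → g ∈ B := fun ⟨k, _, e⟩ => hB.base ⟨k, e⟩
  obtain ⟨i, _ | _⟩ := s <;> obtain ⟨j, _ | _⟩ := s' <;>
    simp only [hv_false, hv_true, inv_inv] at o
  · have := hL.self i j (z * (u j)⁻¹) _ _ (by rw [inv_mul_cancel_right]; exact rev2 o)
    exact not_mem hμ hb hL j (inv_mem_iff.1 ((mul_mem_cancel_left hz).1 (m this.2)))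
  · obtain ⟨rfl, k, hk, rfl⟩ := hL.self i j z _ _ o
    refine hn ⟨rfl, by simp, ?_⟩
    rwa [hv_false, hv_true, mul_assoc, ← (hL.comm i k hk).eq, inv_mul_cancel_left]
  · have := hL.self i j (u i * z * (u j)⁻¹) _ _ (by
      rw [inv_mul_cancel_right, mul_assoc]; exact rev2 (flip o))
    exact hn ⟨this.1, by simp, m this.2⟩
  · have := hL.self i j (u i * z) _ _ (by rw [mul_assoc]; exact flip o)
    exact not_mem hμ hb hL i ((mul_mem_cancel_right hz).1 (m this.2))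

theorem loc (hμ : Big μ) (hB : GC0 B) (hb : B ≤ ball Γ μ) (hL : Letters μ B K u) (hz : z ∈ B)
    (l : List (MM Γ a × Fin r × Bool)) : ∀ s, WRed B (HP B u) (s :: l) →
      Loc μ (s.1 :: hv u s.2 :: (wflat (hv u) l ++ [z])) := by
  induction l with
  | nil =>
    exact fun s h => ⟨(on_hv hμ hb hL _ (inv_mem h.mem)).1.symm,
      fun e => absurd (big_hv hL _) (e.not_ls hμ.pos), (on_hv hμ hb hL _ hz).2, by simp, trivial⟩
  | cons s' l ih =>
    refine fun s h => ⟨(on_hv hμ hb hL _ (inv_mem h.mem)).1.symm,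
      fun e => absurd (big_hv hL _) (e.not_ls hμ.pos), ?_⟩
    rw [wflat_cons]
    refine ⟨(on_hv hμ hb hL _ h.tail.mem).2, fun e w hw => ?_, ih s' h.tail⟩
    obtain rfl : hv u s'.2 = w := by simpa using hw
    exact ⟨big_hv hL _, junction hμ hB hb hL h.tail.mem e h.np⟩

end C2_lgeo

open C2_lgeo in
theorem p_C2_LGEO :
    S_C2_LGEO := by
  intro Γ a μ B r K u hμ hB hb hL
  refine ⟨not_mem hμ hb hL, fun i x hx hy => ?_, fun l hl b h => ?_⟩
  · have h1 := on_one_iff'.1 (on_base hμ hb hL i (inv_mem hx)).1.symm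
    have h2 := on_one_iff'.1 (on_base hμ hb hL i hy).2
    have h3 := on_mul_self_iff.1 h2
    rw [mul_assoc, mul_inv_cancel_left] at h2 h3
    have t : Ll (ln x) μ := (ll_or_ls hμ.pos _).resolve_right fun e =>
      (On.total hμ h1 h2).elim (fun o => no_ov hμ hb hL i hx e o.1 (on_right hμ.pos.le _ _))
        fun o => no_ov hμ hb hL i hx (hL.sim i).2 (on_right hμ.pos.le _ _) o.1
    have t' : Ll (ds (x * u i) (u i)) μ := by
      rw [ds_comm]
      refine (h3.add t).mono_left ?_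
      have := ln_mul_le x (u i)
      rw [ds]
      linarith
    exact (hL.self i i x 1 (u i) ⟨by simpa using (hL.sim i).2, on_left hμ.pos.le _ _,
      on_right hμ.pos.le _ _, On.of_near (by rwa [ds_one_right]) _, (On.of_near t' x).symm⟩).2
  · cases l with
    | nil => exact geo_single hμ.pos.le b
    | cons s l =>
      rw [wflat_cons]
      exact (loc hμ hB hb hL h l s hl).geo hμ

end Pool.Agent.P.MP_dba3d2_lc
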