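import Pool.Agent.P.MP_dba3d2_lc.C.IfaceL2
import Pool.Agent.P.MP_dba3d2_lc.C.IfaceL
import Pool.Agent.P.MP_dba3d2_lc.C.LTb

/-! Step C2_LNF of the stability project. -/

namespace Pool.Agent.P.MP_dba3d2_lc

open Filter

namespace C2_lnf

variable {Γ : HG} {a : Amb} {μ : a.K} {B : Subgroup (MM Γ a)} {r : ℕ} {K : Fin r → Subgroup Γ.G}
  {u : Fin r → MM Γ a}

theorem big (h : Letters μ B K u) (s : Fin r × Bool) : Ls μ (ln (hv u s)) := by
  obtain ⟨i, _ | _⟩ := s
  · rw [hv_false, ln_inv]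
    exact (h.sim i).2
  · exact (h.sim i).2

theorem nper (h : Letters μ B K u) (s : Fin r × Bool) {g p q : MM Γ a} (hn : Ls μ (ds p q))
    (hp : On μ p g (g * hv u s)) (hq : On μ q g (g * hv u s)) : ¬ Per μ p q := by
  obtain ⟨i, _ | _⟩ := s
  · rw [← per_mul_iff (u i * g⁻¹)]
    refine h.nper i _ _ (by rwa [ds_mul_left]) ?_ ?_
    · simpa [mul_assoc] using (hp.mul (u i * g⁻¹)).symm
    · simpa [mul_assoc] using (hq.mul (u i * g⁻¹)).symm
  · rw [← per_mul_iff g⁻¹]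
    refine h.nper i _ _ (by rwa [ds_mul_left]) ?_ ?_
    · simpa using hp.mul g⁻¹
    · simpa using hq.mul g⁻¹

end C2_lnf

open C2_lnf in
theorem p_C2_LNF (hC2_RW : S_C2_RW) (hC2_LGEO : S_C2_LGEO) :
    S_C2_LNF := by
  intro Γ a μ B r K u hμ hB hb hL
  have geo := (hC2_LGEO Γ a μ B r K u hμ hB hb hL).2.2
  have rw1 := hC2_RW (MM Γ a) B _ (hv u) (HP B u) (hws B u)
  rw [closure_hv] at rw1
  have pr : ∀ (l : List (MM Γ a × (Fin r × Bool))) (b : MM Γ a),
      (wflat (hv u) l ++ [b]).prod = wval (hv u) l * b := fun l b => by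
    rw [List.prod_append, wflat_prod, List.prod_singleton]
  refine ⟨fun l hl hne hm => ?_, fun t ht => ?_, fun z hz hn => ?_, fun c hc hm => ?_⟩
  · obtain ⟨s, l, rfl⟩ := List.exists_cons_of_ne_nil hne
    have := (geo _ hl _ (inv_mem hm)).ls_mem hμ (x := hv u s.2) (by simp) (big hL s.2)
    rw [pr, mul_inv_cancel, ln_one] at this
    exact (Ll.zero hμ.pos.le).not_ls hμ.pos this
  · obtain ⟨l, b, h1, h2, rfl⟩ := (rw1 t ht).1
    refine ⟨_, pr l b, geo l h2 b h1, fun x hx => ?_⟩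
    rcases List.mem_append.1 hx with hx | hx
    · obtain ⟨⟨β, i, ε⟩, hs, rfl | rfl⟩ := mem_wflat hx
      · exact Or.inl (h2.1 _ hs)
      · cases ε
        exacts [Or.inr ⟨i, Or.inr rfl⟩, Or.inr ⟨i, Or.inl rfl⟩]
    · exact Or.inl (List.mem_singleton.1 hx ▸ h1)
  · obtain ⟨l, b, h1, h2, rfl⟩ := (rw1 z hz).1
    cases l with
    | nil => exact absurd (by simpa using h1) hn
    | cons s l =>
      have k := geo _ h2 b h1
      rw [wflat_cons, List.cons_append, List.cons_append] at k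
      have k2 := k.head2
      rw [pr] at k2
      rw [wval_cons, mul_assoc, mul_assoc]
      exact ⟨s.1, s.1 * hv u s.2, k2.1, k2.2.1, by rw [ds_mul_right]; exact big hL s.2,
        fun q h3 h4 => nper hL s.2 h4 (on_left hμ.pos.le _ _) h3⟩
  · obtain ⟨g, hg, h | ⟨l, hne, e, h⟩ | ⟨b, -, s, -, h⟩⟩ := (rw1 c hc).2
    · exact ⟨g, hg, h⟩
    · have k := (geo _ h.left 1 (one_mem _)).left
      rw [wflat_append] at k
      obtain ⟨s, l, rfl⟩ := List.exists_cons_of_ne_nil hne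
      have := k.md hμ (k.left.ls_mem hμ (x := hv u s.2) (by simp) (big hL s.2))
      rw [wflat_prod, ← e, md_conj] at this
      exact absurd this (hm.not_ls hμ.pos)
    · exact absurd rfl h.2.1

end Pool.Agent.P.MP_dba3d2_lc
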