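import Pool.Agent.P.MP_dba3d2_lc.C.IfaceL2
import Pool.Agent.P.MP_dba3d2_lc.C.LTb

/-! Step C2_PGEO of the stability project. -/

namespace Pool.Agent.P.MP_dba3d2_lc

open Filter

namespace C2_pgeo

section grp
variable {G : Type} [Group G] (p : G)

/-- outgoing part of a letter -/
def out : Bool → G
  | true => p
  | false => 1

/-- incoming part of a letter -/
def inn : Bool → G
  | true => 1
  | false => p

/-- the pieces of a word -/
def pcs : Bool → List (G × (Fin 1 × Bool)) → G → List G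
  | ε, [], b => [(inn p ε)⁻¹ * b * 1]
  | ε, s :: l, b => (inn p ε)⁻¹ * s.1 * out p s.2.2 :: pcs s.2.2 l b

/-- the pieces of a word, without the last one -/
def body : Bool → List (G × (Fin 1 × Bool)) → List G
  | _, [] => []
  | ε, s :: l => (inn p ε)⁻¹ * s.1 * out p s.2.2 :: body s.2.2 l

/-- the last letter -/
def last : Bool → List (G × (Fin 1 × Bool)) → Bool
  | ε, [] => ε
  | _, s :: l => last s.2.2 l

theorem out_cases (ε : Bool) : out p ε = 1 ∨ out p ε = p := by cases ε <;> simp [out]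
theorem inn_cases (ε : Bool) : inn p ε = 1 ∨ inn p ε = p := by cases ε <;> simp [inn]

theorem hv_eq (s : Fin 1 × Bool) : hv (fun _ : Fin 1 => p) s = out p s.2 * (inn p s.2)⁻¹ := by
  obtain ⟨i, ε⟩ := s
  cases ε <;> simp [out, inn]

theorem pcs_append (b : G) (l₂ : List (G × (Fin 1 × Bool))) :
    ∀ (l₁ : List (G × (Fin 1 × Bool))) (ε : Bool),
      pcs p ε (l₁ ++ l₂) b = body p ε l₁ ++ pcs p (last ε l₁) l₂ b
  | [], _ => rfl
  | s :: l, ε => by
    simp only [List.cons_append, pcs, body, last, pcs_append b l₂ l]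

theorem body_prod : ∀ (l : List (G × (Fin 1 × Bool))) (ε : Bool),
    (body p ε l).prod = (inn p ε)⁻¹ * wval (hv fun _ : Fin 1 => p) l * inn p (last ε l)
  | [], ε => by simp [body, last]
  | s :: l, ε => by
    simp only [body, last, List.prod_cons, body_prod l, wval_cons, hv_eq, mul_assoc]

theorem pcs_prod (b : G) : ∀ (l : List (G × (Fin 1 × Bool))) (ε : Bool),
    (pcs p ε l b).prod = (inn p ε)⁻¹ * (wval (hv fun _ : Fin 1 => p) l * b)
  | [], ε => by simp [pcs]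
  | s :: l, ε => by
    simp only [pcs, List.prod_cons, pcs_prod b l, wval_cons, hv_eq, mul_assoc]

theorem pcs_mem {B : Subgroup G} {b : G} (hb : b ∈ B) :
    ∀ (l : List (G × (Fin 1 × Bool))) (ε : Bool), (∀ s ∈ l, s.1 ∈ B) → ∀ x ∈ pcs p ε l b,
      ∃ α α', (α = 1 ∨ α = p) ∧ (α' = 1 ∨ α' = p) ∧ ∃ β ∈ B, x = α⁻¹ * β * α'
  | [], ε, _, x, hx => by
    rw [pcs, List.mem_singleton] at hx
    exact ⟨_, 1, inn_cases p ε, Or.inl rfl, b, hb, hx⟩
  | s :: l, ε, h, x, hx => by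
    rw [pcs, List.mem_cons] at hx
    rcases hx with hx | hx
    · exact ⟨_, _, inn_cases p ε, out_cases p _, s.1, h s List.mem_cons_self, hx⟩
    · exact pcs_mem hb l _ (fun t ht => h t (List.mem_cons_of_mem _ ht)) x hx

end grp

variable {Γ : HG} {a : Amb} {μ : a.K} {B : Subgroup (MM Γ a)} {p h : MM Γ a}

theorem big1 (D : PtD μ B p h) {β : MM Γ a} (hβ : β ∈ B) : Ls μ (ln (p⁻¹ * β * 1)) := by
  rw [mul_one]
  exact D.far β hβ

theorem big2 (D : PtD μ B p h) {β : MM Γ a} (hβ : β ∈ B) : Ls μ (ln (1⁻¹ * β * p)) := by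
  have := D.far β⁻¹ (inv_mem hβ)
  rw [ds_comm, ds, inv_inv] at this
  rwa [inv_one, one_mul]

theorem big3 (J : S_C2_PJN) (D : PtD μ B p h) {β : MM Γ a} (hβ : β ∈ B)
    (hn : p⁻¹ * β * p ∉ B) : Ls μ (ln (p⁻¹ * β * p)) := by
  rw [← ds_conj]
  exact (ll_or_ls D.big.pos _).resolve_left fun e => hn (((J Γ a μ B p h D).2.1 β hβ).2 e)

theorem np {β : MM Γ a} {i : Fin 1} {ε : Bool} {s : MM Γ a × (Fin 1 × Bool)}
    {l : List (MM Γ a × (Fin 1 × Bool))}
    (hw : WRed B (HP B fun _ : Fin 1 => p) ((β, (i, ε)) :: s :: l)) (hne : ε ≠ s.2.2) :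
    hv (fun _ : Fin 1 => p) (i, ε) * s.1 * hv (fun _ : Fin 1 => p) s.2 ∉ B :=
  fun hm => hw.np ⟨Subsingleton.elim _ _, hne, hm⟩

theorem head (J : S_C2_PJN) (D : PtD μ B p h) {β b : MM Γ a} {i : Fin 1} {ε : Bool}
    {l : List (MM Γ a × (Fin 1 × Bool))}
    (hw : WRed B (HP B fun _ : Fin 1 => p) ((β, (i, ε)) :: l)) (hb : b ∈ B) :
    ∃ β' ∈ B, ∃ α', (α' = 1 ∨ α' = p) ∧ ∃ L, pcs p ε l b = ((inn p ε)⁻¹ * β' * α') :: L ∧
      (ε = false → Ls μ (ln (p⁻¹ * β' * α'))) := by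
  cases l with
  | nil => exact ⟨b, hb, 1, Or.inl rfl, [], rfl, fun _ => big1 D hb⟩
  | cons s l =>
    refine ⟨s.1, hw.tail.mem, out p s.2.2, out_cases p _, _, rfl, ?_⟩
    rintro rfl
    obtain ⟨z, j, e⟩ := s
    cases e
    · exact big1 D hw.tail.mem
    · exact big3 J D hw.tail.mem (np hw (by simp))

theorem junc (J : S_C2_PJN) (D : PtD μ B p h) {α α' β β' : MM Γ a} (hα : α = 1 ∨ α = p)
    (hα' : α' = 1 ∨ α' = p) (hβ : β ∈ B) (hβ' : β' ∈ B) (ε : Bool) :
    On μ 1 (α⁻¹ * β * out p ε)⁻¹ ((inn p ε)⁻¹ * β' * α') := by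
  cases ε
  · have := (((J Γ a μ B p h D).2.2 α' α hα' hα β' hβ').2.2 β⁻¹ (inv_mem hβ)).1.symm
    simpa [out, inn] using this
  · have := (((J Γ a μ B p h D).2.2 α α' hα hα' β⁻¹ (inv_mem hβ)).2.2 β' hβ').1
    simpa [out, inn, mul_assoc] using this

theorem key (J : S_C2_PJN) (D : PtD μ B p h) {b : MM Γ a} (hb : b ∈ B) :
    ∀ (l : List (MM Γ a × (Fin 1 × Bool))) (β : MM Γ a) (i : Fin 1) (ε : Bool) (α : MM Γ a),
      WRed B (HP B fun _ : Fin 1 => p) ((β, (i, ε)) :: l) → (α = 1 ∨ α = p) →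
      Loc μ (α⁻¹ * β * out p ε :: pcs p ε l b)
  | [], β, i, ε, α, hw, hα => by
    refine ⟨junc J D hα (Or.inl rfl) hw.mem hb ε, fun _ w hw => ?_, trivial⟩
    simp at hw
  | (z, j, e) :: l, β, i, ε, α, hw, hα => by
    have hz : z ∈ B := hw.tail.mem
    refine ⟨junc J D hα (out_cases p _) hw.mem hz ε, fun ht w hh => ?_,
      key J D hb l z j e _ hw.tail (inn_cases p ε)⟩
    have h0 := D.big.pos
    cases ε <;> cases e
    · exact absurd (big1 D hz) (ht.not_ls h0)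
    · exact absurd (big3 J D hz (np hw (by simp))) (ht.not_ls h0)
    · obtain ⟨β', hβ', α', hα', L, e1, e2⟩ := head J D hw.tail hb
      dsimp only at hh
      rw [e1] at hh
      obtain rfl : (inn p false)⁻¹ * β' * α' = w := by simpa using hh
      refine ⟨e2 rfl, ?_⟩
      have := (((J Γ a μ B p h D).2.2 α α' hα hα' β⁻¹ (inv_mem hw.mem)).2.2 β' hβ').2 z hz
        (by simpa [out, inn] using ht) (np hw (by simp))
      simpa [out, inn, mul_assoc] using this
    · exact absurd (big2 D hz) (ht.not_ls h0)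

theorem germ {y : MM Γ a} (H : ∀ r, On μ r 1 y → Ls μ (ln r) → ¬ Per μ 1 r) (t r : MM Γ a)
    (h1 : On μ r t (t * y)) (h2 : Ls μ (ds t r)) : ¬ Per μ t r := fun hp =>
  H (t⁻¹ * r) (by simpa using h1.mul t⁻¹) h2 (by simpa using (per_mul_iff t⁻¹).2 hp)

end C2_pgeo

open C2_pgeo in
theorem p_C2_PGEO (hC2_PJN : S_C2_PJN) :
    S_C2_PGEO := by
  intro Γ a μ B p h D
  have h0 := D.big.pos
  refine ⟨fun l hw b hb => ?_, fun l hl hw => ?_⟩
  · have hP : (pcs p true l b).prod = wval (hv fun _ : Fin 1 => p) l * b := by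
      simp [pcs_prod, inn]
    cases l with
    | nil => exact ⟨_, hP, geo_single h0.le _, pcs_mem p hb _ _ hw.1, fun hn => absurd rfl hn⟩
    | cons s l =>
      obtain ⟨z, j, e⟩ := s
      have hz : z ∈ B := hw.mem
      have hG : Geo μ (pcs p true ((z, j, e) :: l) b) :=
        Loc.geo D.big (key hC2_PJN D hb l z j e 1 hw (Or.inl rfl))
      refine ⟨_, hP, hG, pcs_mem p hb _ _ hw.1, fun _ => ?_⟩
      rw [← hP]
      cases e
      · obtain ⟨β', hβ', α', hα', L, e1, e2⟩ := head hC2_PJN D hw hb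
        rw [pcs] at hG ⊢
        dsimp only at hG ⊢
        rw [e1] at hG ⊢
        have := hG.head2
        rw [List.prod_cons, List.prod_cons]
        refine ⟨_, _, this.1, this.2.1, by rw [ds_mul_right]; exact e2 rfl, germ ?_ _⟩
        exact ((hC2_PJN Γ a μ B p h D).2.2 α' 1 hα' (Or.inl rfl) β' hβ').2.1
      · rw [pcs] at hG ⊢
        rw [List.prod_cons]
        refine ⟨_, 1, hG.head, on_left h0.le _ _, ?_, fun r h1 => germ
          ((hC2_PJN Γ a μ B p h D).2.2 1 1 (Or.inl rfl) (Or.inl rfl) z⁻¹ (inv_mem hz)).2.1 _ r ?_⟩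
        · rw [ds_comm, ds_one_left]
          exact big2 D hz
        · simpa [out, inn, mul_assoc] using h1
  · obtain ⟨⟨z, j, e⟩, l, rfl⟩ := List.exists_cons_of_ne_nil hl
    rw [List.append_assoc, List.cons_append] at hw
    have hG := Loc.geo D.big (key hC2_PJN D (one_mem B) _ z j e 1 hw (Or.inl rfl))
    refine ⟨inn p (last e l), inn_cases p _, body p (last e l) ((z, j, e) :: l),
      body_prod p _ _, ?_⟩
    have h1 := (geo_cons.1 hG).2
    rw [pcs_append, pcs_append, ← List.append_nil ((z, j, e) :: l), pcs_append,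
      List.append_nil] at h1
    have h2 := h1.right
    rw [← List.append_assoc] at h2
    exact h2.left

end Pool.Agent.P.MP_dba3d2_lc
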