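import Pool.Agent.P.MP_dba3d2_lc.C.IfaceL2
import Pool.Agent.P.MP_dba3d2_lc.C.LTb

/-! Step C2_PJN of the stability project. -/

namespace Pool.Agent.P.MP_dba3d2_lc

open Filter

namespace C2_pjn

variable {Γ : HG} {a : Amb} {μ : a.K} {B : Subgroup (MM Γ a)} {p h α α' β β' g q y y' z : MM Γ a}

theorem not_mem (D : PtD μ B p h) : p ∉ B := fun hp =>
  (FixA.ll_self D.big.pos.le p).not_ls D.big.pos (D.far p hp)

theorem on_h (D : PtD μ B p h) (hα : α = 1 ∨ α = p) : On μ α 1 h := by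
  rcases hα with rfl | rfl
  exacts [on_left D.big.pos.le _ _, D.on]

theorem hl (D : PtD μ B p h) (hα : α = 1 ∨ α = p) (hα' : α' = 1 ∨ α' = p) (hβ : β ∈ B) :
    ∃ y ∈ B, ∃ y' ∈ B, On μ α y y' ∧ On μ (β * α') y y' := by
  obtain ⟨u, hu, w, hw, k⟩ := hull D.big (on_h D hα) ((on_h D hα').mul β)
  refine ⟨u, ?_, w, ?_, k⟩
  · rcases hu with rfl | rfl
    exacts [one_mem _, D.mem]
  · rcases hw with rfl | rfl
    exacts [mul_mem hβ (one_mem _), mul_mem hβ D.mem]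

theorem on_germ (D : PtD μ B p h) (hα : α = 1 ∨ α = p) (hβ : β ∈ B)
    (hq : On μ q 1 (p⁻¹ * β * α)) : ∃ y ∈ B, ∃ y' ∈ B, On μ p y y' ∧ On μ (p * q) y y' := by
  obtain ⟨y, hy, y', hy', k1, k2⟩ := hl D (Or.inr rfl) hα hβ
  have := hq.mul p
  rw [mul_one, mul_assoc, mul_inv_cancel_left] at this
  exact ⟨y, hy, y', hy', k1, On.conv D.big k1 k2 this⟩

theorem germ (D : PtD μ B p h) (hα : α = 1 ∨ α = p) (hβ : β ∈ B)
    (hq : On μ q 1 (p⁻¹ * β * α)) (hb : Ls μ (ln q)) : ¬ Per μ p (p * q) := fun hP => by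
  obtain ⟨y, hy, y', hy', k1, k2⟩ := on_germ D hα hβ hq
  obtain ⟨c, hc, c1, c2⟩ := D.gc.g20' D.big hy hy' (ball_ds D.big D.bd hy hy')
    (by rwa [ds_mul_right]) k1 k2 hP
  exact c1.1 (D.fix c hc c2.1).2

theorem key (D : PtD μ B p h) (hα : α = 1 ∨ α = p) (hβ : β ∈ B)
    (hq : On μ q 1 (p⁻¹ * β * α)) (hb : Ls μ (ln q)) (hy : y ∈ B) (hy' : y' ∈ B)
    (h1 : On μ p (g * y) (g * y')) (h2 : On μ (p * q) (g * y) (g * y')) : g ∈ B := by
  obtain ⟨x, hx, x', hx', k1, k2⟩ := on_germ D hα hβ hq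
  exact D.gc.g2' D.big hx hx' hy hy' (ball_ds D.big D.bd hx hx') (ball_ds D.big D.bd hy hy')
    ⟨by rwa [ds_mul_right], k1, k2, h1, h2⟩ (germ D hα hβ hq hb)

theorem jn1 (D : PtD μ B p h) (hα : α = 1 ∨ α = p) (hα' : α' = 1 ∨ α' = p) (hβ : β ∈ B)
    (hβ' : β' ∈ B) : On μ 1 (p⁻¹ * β * α) (β' * α') := by
  by_contra hn
  obtain ⟨q, hb, q1, q2⟩ := exists_ovl D.big hn
  obtain ⟨y, hy, y', hy', k1, k2⟩ := hl D (Or.inl rfl) hα' hβ'
  exact not_mem D (key D hα hβ q1 hb hy hy' (by simpa using k1.mul p)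
    ((On.conv D.big k1 k2 q2).mul p))

theorem jn2 (D : PtD μ B p h) (hα : α = 1 ∨ α = p) (hα' : α' = 1 ∨ α' = p) (hβ : β ∈ B)
    (hβ' : β' ∈ B) (hz : Ll (ln z) μ) (hz' : p * z * p⁻¹ ∉ B) :
    On μ 1 (p⁻¹ * β * α) (z * (p⁻¹ * β' * α')) := by
  have h0 := D.big.pos.le
  by_contra hn
  obtain ⟨q, hb, q1, q2⟩ := exists_ovl D.big hn
  obtain ⟨y, hy, y', hy', k1, k2⟩ := hl D (Or.inr rfl) hα' hβ'
  have e : Ll (ds 1 z) μ := by rwa [ds_one_left]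
  have a1 := (q2.congr (FixA.ll_self h0 _) e (FixA.ll_self h0 _)).mul p
  have a2 := (On.of_near (FixA.ll_comm e) (z * (p⁻¹ * β' * α'))).mul p
  have b1 := k1.mul (p * z * p⁻¹)
  have b2 := k2.mul (p * z * p⁻¹)
  rw [inv_mul_cancel_right] at b1
  rw [show p * z * p⁻¹ * (β' * α') = p * (z * (p⁻¹ * β' * α')) by simp only [mul_assoc]] at b2
  rw [mul_one] at a2
  exact hz' (key D hα hβ q1 hb hy hy' (On.conv D.big b1 b2 a2) (On.conv D.big b1 b2 a1))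

end C2_pjn

open C2_pjn in
theorem p_C2_PJN :
    S_C2_PJN := by
  intro Γ a μ B p h D
  refine ⟨?_, fun x hx => ⟨fun hy => ?_, fun k => D.gc.base (D.fix x hx k).1⟩,
    fun α α' hα hα' β hβ => ⟨hl D hα hα' hβ, fun r h1 h2 hP => germ D hα hβ h1 h2 ?_,
      fun β' hβ' => ⟨jn1 D hα hα' hβ hβ', fun z _ => jn2 D hα hα' hβ hβ'⟩⟩⟩
  · simpa only [ds_one_left] using D.on.ls_left (ball_ds D.big D.bd (one_mem _) D.mem)
  · have := jn1 D (Or.inr rfl) (Or.inl rfl) hx hy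
    rw [On, mul_one, ds_self, sub_zero, ds_comm _ 1, ds_one_left, ← two_mul] at this
    rw [ds, ← mul_assoc]
    exact this.half
  · simpa only [mul_one] using (per_mul_iff p).2 hP

end Pool.Agent.P.MP_dba3d2_lc
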