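import Pool.Agent.P.MP_dba3d2_lc.C.IfaceL

/-! Step C2_RW of the stability project. -/

namespace Pool.Agent.P.MP_dba3d2_lc

open Filter

namespace C2_rw

variable {G : Type} [Group G] {B : Subgroup G} {Λ : Type} {v : Λ → G} {P : Λ → G → Λ → Prop}

theorem wval_nil : wval v ([] : List (G × Λ)) = 1 := rfl

theorem wval_cons (s : G × Λ) (l : List (G × Λ)) :
    wval v (s :: l) = s.1 * v s.2 * wval v l := by
  simp [wval]

theorem wval_append (l l' : List (G × Λ)) : wval v (l ++ l') = wval v l * wval v l' := by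
  simp [wval]

/-- `t` has a word of length `n` -/
def Wd (B : Subgroup G) (v : Λ → G) (n : ℕ) (t : G) : Prop :=
  ∃ l : List (G × Λ), ∃ b ∈ B, l.length = n ∧ (∀ s ∈ l, s.1 ∈ B) ∧ t = wval v l * b

theorem Wd.base {b : G} (hb : b ∈ B) : Wd B v 0 b :=
  ⟨[], b, hb, rfl, by simp, by simp [wval_nil]⟩

theorem Wd.letter (s : Λ) : Wd B v 1 (v s) :=
  ⟨[(1, s)], 1, B.one_mem, rfl, by simp, by simp [wval]⟩

theorem Wd.word {l : List (G × Λ)} (h : ∀ s ∈ l, s.1 ∈ B) : Wd B v l.length (wval v l) :=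
  ⟨l, 1, B.one_mem, rfl, h, (mul_one _).symm⟩

theorem Wd.mul {n m : ℕ} {t t' : G} (h : Wd B v n t) (h' : Wd B v m t') :
    Wd B v (n + m) (t * t') := by
  obtain ⟨l, b, hb, rfl, hl, rfl⟩ := h
  obtain ⟨l', b', hb', rfl, hl', rfl⟩ := h'
  cases l' with
  | nil => exact ⟨l, b * b', B.mul_mem hb hb', rfl, hl, by simp [wval_nil, mul_assoc]⟩
  | cons x l' =>
    refine ⟨l ++ (b * x.1, x.2) :: l', b', hb', by simp, fun s hs => ?_, ?_⟩
    · rcases List.mem_append.1 hs with hs | hs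
      · exact hl s hs
      · rcases List.mem_cons.1 hs with rfl | hs
        · exact B.mul_mem hb (hl' x List.mem_cons_self)
        · exact hl' s (List.mem_cons_of_mem _ hs)
    · simp [wval_append, wval_cons, mul_assoc]

theorem ex (h : WS B v P) {t : G} (ht : t ∈ B ⊔ Subgroup.closure (Set.range v)) :
    ∃ n, Wd B v n t := by
  rw [← Subgroup.closure_eq B, ← Subgroup.closure_union] at ht
  induction ht using Subgroup.closure_induction'' with
  | mem x hx =>
    rcases hx with hx | ⟨s, rfl⟩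
    exacts [⟨_, .base hx⟩, ⟨_, .letter s⟩]
  | inv_mem x hx =>
    rcases hx with hx | ⟨s, rfl⟩
    · exact ⟨_, .base (B.inv_mem hx)⟩
    · obtain ⟨s', e⟩ := h.inv s
      exact ⟨1, e ▸ Wd.letter s'⟩
  | one => exact ⟨_, .base B.one_mem⟩
  | mul x y _ _ hx hy =>
    obtain ⟨n, hx⟩ := hx
    obtain ⟨m, hy⟩ := hy
    exact ⟨_, hx.mul hy⟩

theorem short (h : WS B v P) {l : List (G × Λ)} (hl : ∀ s ∈ l, s.1 ∈ B)
    (hn : ∀ n < l.length, ¬ Wd B v n (wval v l)) : WRed B P l := by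
  refine ⟨hl, List.isChain_iff_forall_rel_of_append_cons_cons.2 fun x y l₁ l₂ e hP => ?_⟩
  subst e
  have h1 : Wd B v _ _ := .word (l := l₁) fun s hs => hl s (by simp [hs])
  have h2 : Wd B v _ _ := .word (l := l₂) fun s hs => hl s (by simp [hs])
  have hx : Wd B v 0 x.1 := .base (hl x (by simp))
  obtain ⟨k, hk, h3⟩ : ∃ k ≤ 1, Wd B v k (v x.2 * y.1 * v y.2) := by
    rcases h.red _ _ _ (hl y (by simp)) hP with k | ⟨s, p, hp, q, hq, e⟩
    · exact ⟨0, zero_le_one, .base k⟩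
    · exact ⟨_, le_rfl, e ▸ ((Wd.base hp).mul (.letter s)).mul (.base hq)⟩
  refine hn (l₁.length + (0 + k + l₂.length)) (by simp; omega) ?_
  convert h1.mul ((hx.mul h3).mul h2) using 1
  simp [wval_append, wval_cons, mul_assoc]

end C2_rw

open C2_rw in
theorem p_C2_RW :
    S_C2_RW := by
  classical
  intro G _ B Λ v P h t ht
  constructor
  · obtain ⟨l, b, hb, e, hl, e'⟩ := Nat.find_spec (ex h ht)
    refine ⟨l, b, hb, short h hl fun n hn k => Nat.find_min (ex h ht) (e ▸ hn) ?_, e'⟩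
    exact e' ▸ k.mul (.base hb)
  have hex : ∃ n, ∃ g ∈ B ⊔ Subgroup.closure (Set.range v), Wd B v n (g⁻¹ * t * g) :=
    (ex h ht).imp fun n k => ⟨1, Subgroup.one_mem _, by simpa using k⟩
  have key : ∀ g ∈ B ⊔ Subgroup.closure (Set.range v), ∀ l : List (G × Λ),
      l.length = Nat.find hex → (∀ s ∈ l, s.1 ∈ B) → g⁻¹ * t * g = wval v l → WRed B P l :=
    fun g hg l e hl e' => short h hl fun n hn k => Nat.find_min hex (e ▸ hn) ⟨g, hg, e' ▸ k⟩
  have hB : ∀ b ∈ B, b ∈ B ⊔ Subgroup.closure (Set.range v) := fun b => Subgroup.mem_sup_left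
  obtain ⟨g₀, hg₀, l₀, b, hb, e₀, hl₀, e₀'⟩ := Nat.find_spec hex
  cases l₀ with
  | nil => exact ⟨g₀, hg₀, Or.inl (by rwa [e₀', wval_nil, one_mul])⟩
  | cons x₀ l₀ =>
    obtain ⟨g, hg, l, hne, e, hl, e'⟩ : ∃ g ∈ B ⊔ Subgroup.closure (Set.range v),
        ∃ l : List (G × Λ), l ≠ [] ∧ l.length = Nat.find hex ∧ (∀ s ∈ l, s.1 ∈ B) ∧
          g⁻¹ * t * g = wval v l := by
      refine ⟨g₀ * b⁻¹, Subgroup.mul_mem _ hg₀ (hB _ (B.inv_mem hb)), (b * x₀.1, x₀.2) :: l₀,
        by simp, e₀, fun s hs => ?_, ?_⟩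
      · rcases List.mem_cons.1 hs with rfl | hs
        · exact B.mul_mem hb (hl₀ x₀ List.mem_cons_self)
        · exact hl₀ s (List.mem_cons_of_mem _ hs)
      · rw [show (g₀ * b⁻¹)⁻¹ * t * (g₀ * b⁻¹) = b * (g₀⁻¹ * t * g₀) * b⁻¹ by group, e₀']
        simp [wval_cons, mul_assoc]
    have hc := key g hg l e hl e'
    have fin : (∀ x ∈ l.getLast?, ∀ y ∈ l.head?, ¬ P x.2 y.1 y.2) → WRed B P (l ++ l ++ l) :=
      fun k => ⟨fun s hs => hl s (by simpa using hs),
        (hc.2.append hc.2 k).append hc.2 (by rwa [List.getLast?_append_of_ne_nil _ hne])⟩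
    refine ⟨g, hg, Or.inr ?_⟩
    obtain ⟨m, y, rfl⟩ := (List.eq_nil_or_concat' l).resolve_left hne
    have hy := hl y (by simp)
    cases m with
    | nil =>
      by_cases hP : P y.2 y.1 y.2
      · exact Or.inr ⟨y.1, hy, y.2, by simpa [wval] using e', hP⟩
      · exact Or.inl ⟨_, hne, e', fin (by simpa using hP)⟩
    | cons x m =>
      have := key (g * (y.1 * v y.2)⁻¹) (Subgroup.mul_mem _ hg (Subgroup.inv_mem _
        (Subgroup.mul_mem _ (hB _ hy)
          (Subgroup.mem_sup_right (Subgroup.subset_closure ⟨_, rfl⟩))))) (y :: x :: m)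
        (by simpa using e) (fun s hs => hl s (by
          rcases List.mem_cons.1 hs with rfl | hs
          · simp
          · exact List.mem_append_left _ hs)) (by
          rw [show (g * (y.1 * v y.2)⁻¹)⁻¹ * t * (g * (y.1 * v y.2)⁻¹) =
            y.1 * v y.2 * (g⁻¹ * t * g) * (y.1 * v y.2)⁻¹ by group, e', wval_append,
            wval_cons y, wval_cons y, wval_nil]
          group)
      refine Or.inl ⟨_, hne, e', fin ?_⟩
      have h2 := (List.isChain_cons_cons.1 this.2).1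
      rw [List.getLast?_concat]
      simpa using h2

end Pool.Agent.P.MP_dba3d2_lc
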