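import Pool.Agent.P.MP_dba3d2_lc.C.IfaceL

/-! Step C2_RW3 of the stability project. -/

namespace Pool.Agent.P.MP_dba3d2_lc

open Filter

theorem C2_rw3.fst_wval {G G' Λ : Type} [Group G] [Group G'] (v : Λ → G) (ν : Λ → G')
    (l : List ((G × G') × Λ)) :
    (wval (fun s => (v s, ν s)) l).1 = wval v (l.map fun s => (s.1.1, s.2)) := by
  induction l with
  | nil => rfl
  | cons s l ih =>
    simp only [wval, List.map_cons, List.prod_cons, Prod.fst_mul] at ih ⊢
    rw [ih]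

theorem p_C2_RW3 (hC2_RW : S_C2_RW) :
    S_C2_RW3 := by
  intro G G' _ _ B Λ v P θ0 ν hBr hinv hred T hT
  have hWS : WS (B.subtype.prod θ0).range (fun s => (v s, ν s)) fun s b s' => P s b.1 s' := by
    refine ⟨fun s => ?_, ?_⟩
    · obtain ⟨s', h1, h2⟩ := hinv s
      exact ⟨s', Prod.ext h1 h2⟩
    · rintro s _ s' ⟨b, rfl⟩ h
      rcases hred s b s' h with ⟨x, h1, h2⟩ | ⟨s'', x, y, h1, h2⟩
      · exact Or.inl ⟨x, Prod.ext h1.symm h2.symm⟩
      · exact Or.inr ⟨s'', _, ⟨x, rfl⟩, _, ⟨y, rfl⟩, Prod.ext h1 h2⟩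
  obtain ⟨T', hT'⟩ : ∃ T' : Subgroup (G × G'), T' = (B.subtype.prod θ0).range ⊔
    Subgroup.closure (Set.range fun s => (v s, ν s)) := ⟨_, rfl⟩
  have inj : ∀ t ∈ T', t.1 = 1 → t = 1 := by
    intro t ht h1
    obtain ⟨⟨l, _, ⟨b, rfl⟩, hl, e⟩, -⟩ := hC2_RW _ _ _ _ _ hWS t (hT' ▸ ht)
    have e1 : wval v (l.map fun s => (s.1.1, s.2)) * b = 1 := by
      rw [← C2_rw3.fst_wval v ν, ← h1, e]
      rfl
    have hn : l.map (fun s => (s.1.1, s.2)) = [] := by
      by_contra hn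
      refine hBr _ ⟨fun s hs => ?_, (List.isChain_map _).2 hl.2⟩ hn ?_
      · obtain ⟨s', hs', rfl⟩ := List.mem_map.1 hs
        obtain ⟨x, hx⟩ := hl.1 s' hs'
        rw [← hx]
        exact x.2
      · rw [eq_inv_of_mul_eq_one_left e1]
        exact B.inv_mem b.2
    rw [hn] at e1
    rw [List.map_eq_nil_iff.1 hn] at e
    have hb : b = 1 := Subtype.ext (by simpa [wval] using e1)
    rw [e, hb, map_one, mul_one]
    rfl
  have hmap : T'.map (MonoidHom.fst G G') = T := by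
    rw [hT', hT, Subgroup.map_sup, MonoidHom.map_closure, ← Set.range_comp,
      MonoidHom.map_range, MonoidHom.fst_comp_prod, Subgroup.range_subtype]
    rfl
  let f : T' →* T := ((MonoidHom.fst G G').comp T'.subtype).codRestrict T fun t =>
    hmap ▸ Subgroup.mem_map_of_mem _ t.2
  have hf : Function.Bijective f := by
    refine ⟨(injective_iff_map_eq_one f).2 fun t ht =>
      Subtype.ext (inj t t.2 (congrArg Subtype.val ht)), fun t => ?_⟩
    obtain ⟨x, hx, e⟩ := Subgroup.mem_map.1 (hmap.symm ▸ t.2 : (t : G) ∈ T'.map (MonoidHom.fst G G'))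
    exact ⟨⟨x, hx⟩, Subtype.ext e⟩
  have key : ∀ (t : T) (x : G × G'), x ∈ T' → (t : G) = x.1 →
      (((MulEquiv.ofBijective f hf).symm t : T') : G × G').2 = x.2 := fun t x hx e => by
    rw [(MulEquiv.ofBijective f hf).symm_apply_eq.2 (show t = f ⟨x, hx⟩ from Subtype.ext e)]
  refine ⟨((MonoidHom.snd G G').comp T'.subtype).comp (MulEquiv.ofBijective f hf).symm.toMonoidHom,
    fun t x e => key t (x, θ0 x) ?_ e, fun t s e => key t (v s, ν s) ?_ e⟩
  · rw [hT']
    exact Subgroup.mem_sup_left ⟨x, rfl⟩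
  · rw [hT']
    exact Subgroup.mem_sup_right (Subgroup.subset_closure ⟨s, rfl⟩)

end Pool.Agent.P.MP_dba3d2_lc
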