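import Pool.Agent.P.MP_dba3d2_lc.C.IfaceL2
import Pool.Agent.P.MP_dba3d2_lc.A.Iface
import Pool.Agent.P.MP_dba3d2_lc.B.Iface
import Pool.Agent.P.MP_dba3d2_lc.C.LTb

/-! Step C2_RX of the stability project. -/

namespace Pool.Agent.P.MP_dba3d2_lc

open Filter

namespace C2_rx

variable {Γ : HG} {a : Amb} {μ : a.K} {d f x y z m n : MM Γ a}

/-- the projections agree -/
def E (μ : a.K) (d x y : MM Γ a) : Prop :=
  Ll (2 * ds x y - (ds x (d * x) + ds y (d * y))) μ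

/-- `m` is the projection of `x` -/
def Pj (μ : a.K) (d x m : MM Γ a) : Prop :=
  2 * ds x m ≤ ds x (d * x) ∧ ds x (d * x) ≤ 2 * ds x m + 2 ∧ Ll (ds m (d * m)) μ ∧
    ∀ z, Ll (ds z (d * z)) μ → On μ m x z

theorem pj (hμ : Big μ) (hd : Ll (md d) μ) (x : MM Γ a) : ∃ m, Pj μ d x m := by
  obtain ⟨m, -, h⟩ := exists_proj hμ hd x
  exact ⟨m, h⟩

theorem lemA (hm : Pj μ d x m) (hn : Pj μ d y n) (h : Ll (ds m n) μ) : E μ d x y := by
  refine Ll.mono_left ?_ h.two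
  have h1 := ds_tri x m y
  have h2 := ds_tri m n y
  rw [ds_comm n y] at h2
  linarith [hm.1, hn.1]

theorem lemB0 (hμ : Big μ) (hm : Pj μ d x m) (hn : Pj μ d y n) (h : Ls μ (ds m n)) :
    On μ m x y ∧ On μ n x y :=
  On.glue hμ (hm.2.2.2 n hn.2.2.1) (hn.2.2.2 m hm.2.2.1).symm h

theorem lemB (hμ : Big μ) (hm : Pj μ d x m) (hn : Pj μ d y n) (h : E μ d x y) :
    Ll (ds m n) μ := by
  refine (ll_or_ls hμ.pos _).elim id fun hl => Ll.half ?_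
  have h1 : Ll (ds x m + ds m n - ds x n) μ := hm.2.2.2 n hn.2.2.1
  have h2 : Ll (ds x n + ds n y - ds x y) μ := (lemB0 hμ hm hn hl).2
  refine Ll.mono_left ?_ (((h1.two.add h2.two).add h).add (FixA.ll_two hμ).two)
  rw [ds_comm n y]
  linarith [hm.2.1, hn.2.1]

theorem E.trans (hμ : Big μ) (hd : Ll (md d) μ) (h1 : E μ d x y) (h2 : E μ d y z) :
    E μ d x z := by
  obtain ⟨m, hm⟩ := pj hμ hd x
  obtain ⟨n, hn⟩ := pj hμ hd y
  obtain ⟨o, ho⟩ := pj hμ hd z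
  exact lemA hm ho (Ll.mono_left (ds_tri m n o) ((lemB hμ hm hn h1).add (lemB hμ hn ho h2)))

theorem lemC (hE : S_ELEM) (hL : S_LINE) (hμ : Big μ) (hd : ¬ IsOfFinOrder d) (hm : Ll (md d) μ)
    (hf : f ∈ Ep d) (x : MM Γ a) : Ll (ds (f * x) (d * (f * x)) - ds x (d * x)) μ := by
  rw [← disp_conj']
  refine disp_ll hμ hm (fun w hw => fix_of_fix hE hL hd ?_ hw ?_) x
  · exact mul_mem (mul_mem (inv_mem hf) (self_mem_Ep d)) hf
  · rwa [md_conj]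

theorem lemC' (hE : S_ELEM) (hL : S_LINE) (hμ : Big μ) (hd : ¬ IsOfFinOrder d) (hm : Ll (md d) μ)
    (hf : f ∈ Ep d) (x : MM Γ a) : Ll (ds x (d * x) - ds (f * x) (d * (f * x))) μ := by
  have h := lemC hE hL hμ hd hm (inv_mem hf) (f * x)
  rwa [inv_mul_cancel_left] at h

end C2_rx

open C2_rx in
theorem p_C2_RX (hELEM : S_ELEM) (hLINE : S_LINE) (hPERC : S_PERC) (hROOT : S_ROOT) :
    S_C2_RX := by
  intro Γ a μ T d hμ hd hm
  have h4 : ∀ x y, Rx μ T d x y ∨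
      ∃ p q, Ls μ (ds p q) ∧ On μ p x y ∧ On μ q x y ∧ Stab μ p q d := by
    intro x y
    obtain ⟨m, hm'⟩ := pj hμ hm x
    obtain ⟨n, hn'⟩ := pj hμ hm y
    rcases ll_or_ls hμ.pos (ds m n) with h | h
    · exact Or.inl ⟨1, one_mem _, one_mem _, by rw [one_mul]; exact lemA hm' hn' h⟩
    · exact Or.inr ⟨m, n, h, (lemB0 hμ hm' hn' h).1, (lemB0 hμ hm' hn' h).2, hm'.2.2.1, hn'.2.2.1⟩
  refine ⟨?_, ?_, ?_, h4, ?_⟩
  · rintro x y ⟨f, hT, hf, h⟩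
    refine ⟨f⁻¹, inv_mem hT, inv_mem hf, ?_⟩
    rwa [← ds_mul_left f (f⁻¹ * y), mul_inv_cancel_left, ds_comm y (f * x), add_comm]
  · rintro x y z ⟨f, hT, hf, h⟩ ⟨f', hT', hf', h'⟩
    refine ⟨f' * f, mul_mem hT' hT, mul_mem hf' hf, ?_⟩
    have c1 := lemC' hELEM hLINE hμ hd hm (mul_mem hf' hf) x
    have c2 := lemC' hELEM hLINE hμ hd hm hf' y
    have c3 := lemC hELEM hLINE hμ hd hm (mul_mem hf' hf) x
    have e1 : E μ d (f' * f * x) (f' * y) := by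
      refine Ll.mono_left (le_of_eq ?_) ((h.add c1).add c2)
      have : ds (f' * f * x) (f' * y) = ds (f * x) y := by rw [mul_assoc, ds_mul_left]
      rw [this]; ring
    have e2 : E μ d (f' * y) z := Ll.mono_left (le_of_eq (by ring)) (h'.add c2)
    exact Ll.mono_left (le_of_eq (by ring)) (Ll.add (e1.trans hμ hm e2) c3)
  · rintro t ht x y ⟨f, hT, hf, h⟩
    refine ⟨t * f * t⁻¹, mul_mem (mul_mem ht hT) (inv_mem ht), mem_Ep_conj'.1 hf, ?_⟩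
    have : ds (t * f * t⁻¹ * (t * x)) (t * y) = ds (f * x) y := by
      rw [mul_assoc, inv_mul_cancel_left, mul_assoc, ds_mul_left]
    rwa [this, ← disp_conj', ← disp_conj']
  · intro B hBT hB hb hp s hs
    refine (h4 1 s).elim id ?_
    rintro ⟨p, q, h1, h2, h3, h5⟩
    have hdB : d ∈ B := hB.per_mem hELEM hPERC hROOT hμ (one_mem _) hs
      (ball_ds hμ hb (one_mem _) hs) h1 h2 h3 hp h5
    obtain ⟨f, hf, hf', h⟩ := hB.ex μ hμ s hs (ball_ls hμ hb hs) d hdB hp (ball_ls hμ hb hdB) hm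
    refine ⟨f, hBT hf, hf', ?_⟩
    rwa [ds_one_mul, ds_conj, mul_one]

end Pool.Agent.P.MP_dba3d2_lc
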