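import Pool.Agent.P.MP_dba3d2_lc.C.IfaceL

/-! Step C2_STARFIN of the stability project. -/

namespace Pool.Agent.P.MP_dba3d2_lc

open Filter

namespace C2StarfinA

variable {G ι : Type} [Group G] {B : Subgroup G} {A : ι → Subgroup G} {Q : ι → G → ι → Prop}

/-- the hypotheses on the pinch relation -/
structure Hyp (B : Subgroup G) (A : ι → Subgroup G) (Q : ι → G → ι → Prop) : Prop where
  h1 : ∀ i, ∀ b ∈ B, b ∈ A i ↔ Q i b i
  h2 : ∀ i b j, Q i b j → Q j b⁻¹ i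
  h3 : ∀ i b j b' k, Q i b j → Q j b' k → Q i (b * b') k
  h4 : ∀ i b j, Q i b j → ∀ x ∈ A j, b * x * b⁻¹ ∈ A i

/-- the edge vertices are classes of pairs -/
def st (H : Hyp B A Q) : Setoid (G × ι) where
  r p q := ∃ x ∈ A p.2, ∃ b ∈ B, p.1⁻¹ * q.1 = x * b ∧ Q p.2 b q.2
  iseqv :=
    { refl := fun p => ⟨1, one_mem _, 1, one_mem _, by simp, (H.h1 _ 1 (one_mem _)).1 (one_mem _)⟩
      symm := fun {p q} ⟨x, hx, b, hb, e, h⟩ =>
        ⟨b⁻¹ * x⁻¹ * b⁻¹⁻¹, H.h4 _ _ _ (H.h2 _ _ _ h) _ (inv_mem hx), b⁻¹, inv_mem hb,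
          by rw [← inv_inj, mul_inv_rev, inv_inv, e]; group, H.h2 _ _ _ h⟩
      trans := fun {p q r} ⟨x, hx, b, hb, e, h⟩ ⟨x', hx', b', hb', e', h'⟩ =>
        ⟨x * (b * x' * b⁻¹), mul_mem hx (H.h4 _ _ _ h _ hx'), b * b', mul_mem hb hb',
          by rw [show p.1⁻¹ * r.1 = p.1⁻¹ * q.1 * (q.1⁻¹ * r.1) by group, e, e']; group,
          H.h3 _ _ _ _ _ h h'⟩ }

/-- left multiplication on the edge vertices -/
@[reducible] def act (H : Hyp B A Q) : MulAction G (Quotient (st H)) where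
  smul k := Quotient.map (fun p => (k * p.1, p.2)) fun p q ⟨x, hx, b, hb, e, h⟩ =>
    ⟨x, hx, b, hb, by rw [← e]; group, h⟩
  one_smul w := Quotient.inductionOn w fun p =>
    show Quotient.mk (st H) (1 * p.1, p.2) = _ by rw [one_mul]
  mul_smul k k' w := Quotient.inductionOn w fun p =>
    show Quotient.mk (st H) (k * k' * p.1, p.2) = Quotient.mk (st H) (k * (k' * p.1), p.2) by
      rw [mul_assoc]

/-- incidence -/
def adj (H : Hyp B A Q) (v : G ⧸ B) (w : Quotient (st H)) : Prop :=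
  ∃ (g : G) (i : ι), v = (g : G ⧸ B) ∧ w = Quotient.mk (st H) (g, i)

theorem step (H : Hyp B A Q) {v v' : G ⧸ B} {w : Quotient (st H)} (h : adj H v w)
    (h' : adj H v' w) (hne : v ≠ v') {g : G} (hg : v = (g : G ⧸ B)) :
    ∃ b ∈ B, ∃ i, ∃ x ∈ A i, x ∉ B ∧ v' = ((g * b * x : G) : G ⧸ B) ∧
      w = Quotient.mk (st H) (g * b, i) := by
  obtain ⟨g1, i, rfl, rfl⟩ := h
  obtain ⟨g2, j, rfl, e⟩ := h'
  obtain ⟨x, hx, b, hb, e1, -⟩ := Quotient.exact e
  have e2 : g * (g⁻¹ * g1) = g1 := by group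
  have e3 : g2 = g1 * x * b := by rw [mul_assoc, ← e1]; group
  refine ⟨g⁻¹ * g1, QuotientGroup.eq.1 hg.symm, i, x, hx, fun hxB => hne ?_, ?_, by rw [e2]⟩
  · exact QuotientGroup.eq.2 (e1 ▸ mul_mem hxB hb)
  · rw [e2, e3]
    exact QuotientGroup.mk_mul_of_mem _ hb

theorem word (H : Hyp B A Q) {v v' : G ⧸ B} {w : Quotient (st H)} (h : RCh (adj H) v w v') :
    ∀ g : G, v = (g : G ⧸ B) → ∃ (s : G × ι × G) (l : List (G × ι × G)),
      (∀ t ∈ s :: l, t.1 ∈ B ∧ t.2.2 ∈ A t.2.1 ∧ t.2.2 ∉ B) ∧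
      (s :: l).IsChain (fun t t' => ¬ Q t.2.1 t'.1 t'.2.1) ∧
      v' = ((g * ((s :: l).map fun t => t.1 * t.2.2).prod : G) : G ⧸ B) ∧
      w = Quotient.mk (st H) (g * s.1, s.2.1) := by
  induction h with
  | one h h' hne =>
    intro g hg
    obtain ⟨b, hb, i, x, hx, hxB, e1, e2⟩ := step H h h' hne hg
    exact ⟨(b, i, x), [], by simpa using ⟨hb, hx, hxB⟩, by simp, by simpa [mul_assoc] using e1, e2⟩
  | cons h h' hne hw _ ih =>
    intro g hg
    obtain ⟨b, hb, i, x, hx, hxB, e1, e2⟩ := step H h h' hne hg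
    obtain ⟨s, l, k1, k2, k3, k4⟩ := ih _ e1
    refine ⟨(b, i, x), s :: l, fun t ht => ?_, List.IsChain.cons_cons (fun hQ => hw ?_) k2, ?_, e2⟩
    · rcases List.mem_cons.1 ht with rfl | ht
      exacts [⟨hb, hx, hxB⟩, k1 t ht]
    · rw [e2, k4]
      exact Quotient.sound ⟨x, hx, s.1, (k1 s List.mem_cons_self).1, by group, hQ⟩
    · rw [k3]
      simp only [List.map_cons, List.prod_cons, mul_assoc]

theorem conn_symm {V W : Type} {a : V → W → Prop} {v v' : V} (h : Conn a v v') : Conn a v' v := by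
  induction h with
  | refl => exact Relation.ReflTransGen.refl
  | tail _ h ih =>
    obtain ⟨w, h1, h2⟩ := h
    exact Relation.ReflTransGen.head ⟨w, h2, h1⟩ ih

theorem conn_of_mem (H : Hyp B A Q) {t : G} (ht : t ∈ B ⊔ ⨆ i, A i) (g : G) :
    Conn (adj H) (g : G ⧸ B) ((g * t : G) : G ⧸ B) := by
  let T : Subgroup G :=
    { carrier := {t | ∀ g : G, Conn (adj H) (g : G ⧸ B) ((g * t : G) : G ⧸ B)}
      one_mem' := fun g => by rw [mul_one]; exact Relation.ReflTransGen.refl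
      mul_mem' := fun {a b} ha hb g => by
        rw [← mul_assoc]; exact Relation.ReflTransGen.trans (ha g) (hb _)
      inv_mem' := fun {a} ha g => by
        have := conn_symm (ha (g * a⁻¹))
        rwa [inv_mul_cancel_right] at this }
  have hT : B ⊔ ⨆ i, A i ≤ T := sup_le (fun b hb g => by
      rw [QuotientGroup.mk_mul_of_mem _ hb]; exact Relation.ReflTransGen.refl)
    (iSup_le fun i x hx g => Relation.ReflTransGen.single
      ⟨Quotient.mk (st H) (g, i), ⟨g, i, rfl, rfl⟩, g * x, i, rfl, Quotient.sound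
        ⟨x, hx, 1, one_mem _, by group, (H.h1 _ 1 (one_mem _)).1 (one_mem _)⟩⟩)
  exact hT ht g

theorem mem_of_conn (H : Hyp B A Q) {v : G ⧸ B} (h : Conn (adj H) ((1 : G) : G ⧸ B) v) :
    ∃ p ∈ B ⊔ ⨆ i, A i, v = (p : G ⧸ B) := by
  induction h with
  | refl => exact ⟨1, one_mem _, rfl⟩
  | @tail v v' _ h ih =>
    obtain ⟨w, h1, h2⟩ := h
    obtain ⟨p, hp, e⟩ := ih
    by_cases hne : v = v'
    · exact ⟨p, hp, hne ▸ e⟩
    · obtain ⟨b, hb, i, x, hx, -, e1, -⟩ := step H h1 h2 hne e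
      exact ⟨p * b * x, mul_mem (mul_mem hp (Subgroup.mem_sup_left hb))
        (Subgroup.mem_sup_right (Subgroup.mem_iSup_of_mem i hx)), e1⟩

end C2StarfinA

open C2StarfinA in
theorem p_C2_STARFIN (hC2_BIP : S_C2_BIP) :
    S_C2_STARFIN := by
  intro G _ B ι A Q h1 h2 h3 h4 h5 K hK hfin
  have H : Hyp B A Q := ⟨h1, h2, h3, h4⟩
  let _ := act H
  obtain ⟨v, hv, hfix⟩ := hC2_BIP G (G ⧸ B) (Quotient (st H)) (adj H) K ((1 : G) : G ⧸ B)
    (fun v w v' h e => by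
      obtain ⟨g, rfl⟩ := QuotientGroup.mk_surjective v
      obtain ⟨s, l, k1, k2, k3, -⟩ := word H h g rfl
      refine h5 (s :: l) (List.cons_ne_nil _ _) k1 k2 ?_
      have := QuotientGroup.eq.1 (e.trans k3)
      rwa [inv_mul_cancel_left] at this) hfin
    (fun k _ v w h => by
      obtain ⟨g, i, rfl, rfl⟩ := h
      exact ⟨k * g, i, rfl, rfl⟩)
    (fun k hk => by
      have := conn_of_mem H (hK hk) 1
      rw [one_mul, ← mul_one k] at this
      exact this)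
  obtain ⟨p, hp, rfl⟩ := mem_of_conn H hv
  rcases hfix with h | ⟨w, ⟨g, i, e, rfl⟩, h⟩
  · refine ⟨p, hp, Or.inl fun k hk => ?_⟩
    have : (p : G ⧸ B) = ((k * p : G) : G ⧸ B) := (h k hk).symm
    rw [mul_assoc]
    exact QuotientGroup.eq.1 this
  · refine ⟨g, ?_, Or.inr ⟨i, fun k hk => ?_⟩⟩
    · have := mul_mem hp (Subgroup.mem_sup_left (QuotientGroup.eq.1 e))
      rwa [mul_inv_cancel_left] at this
    · have : Quotient.mk (st H) (g, i) = Quotient.mk (st H) (k * g, i) := (h k hk).symm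
      obtain ⟨x, hx, b, hb, e1, hQ⟩ := Quotient.exact this
      rw [mul_assoc]
      exact e1 ▸ mul_mem hx ((h1 i b hb).2 hQ)

end Pool.Agent.P.MP_dba3d2_lc
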