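import Pool.Agent.P.MP_dba3d2_lc.C.IfaceL2
import Pool.Agent.P.MP_dba3d2_lc.C.LTb

/-! Step C2_TOP of the stability project. -/

namespace Pool.Agent.P.MP_dba3d2_lc

open Filter

namespace C2top

variable {Γ : HG} {a : Amb} {μ ν : a.K} {B T : Subgroup (MM Γ a)} {W S : Set (MM Γ a)}

theorem rx (hX : S_C2_RX) (D : TopD μ B T W S) {h : MM Γ a} (hh : h ∈ T) :
    ∀ d ∈ T, Prim d → Ll (md d) μ → Rx μ T d 1 h := by
  have hT : ∀ x ∈ Subgroup.closure S, x ∈ T := fun x hx => D.gen ▸ hx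
  have hh' : h ∈ Subgroup.closure S := D.gen ▸ hh
  clear hh
  induction hh' using Subgroup.closure_induction with
  | mem x hx => exact D.ex1 x hx
  | one =>
    intro d _ _ _
    refine ⟨1, one_mem _, one_mem _, Ll.of_nonpos ?_ D.big.pos.le⟩
    have := ds_nonneg 1 (d * 1)
    rw [mul_one (1 : MM Γ a), ds_self]
    linarith
  | mul x y hx hy ihx ihy =>
    intro d hd hp hm
    obtain ⟨-, r2, r3, -⟩ := hX Γ a μ T d D.big hp.1 hm
    have hx' := hT x hx
    have k := r3 x hx' 1 y (ihy _ (mul_mem (mul_mem (inv_mem hx') hd) hx') (hp.conj' x)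
      (by rwa [md_conj]))
    rw [mul_one] at k
    exact r2 _ _ _ (ihx d hd hp hm) k
  | inv x hx ih =>
    intro d hd hp hm
    obtain ⟨r1, -, r3, -⟩ := hX Γ a μ T d D.big hp.1 hm
    have hx' := hT x hx
    have k := r3 x⁻¹ (inv_mem hx') 1 x (ih _ (mul_mem (mul_mem (inv_mem (inv_mem hx')) hd)
      (inv_mem hx')) (hp.conj' x⁻¹) (by rwa [md_conj]))
    rw [mul_one, inv_mul_cancel] at k
    exact r1 _ _ k

theorem small (D : TopD μ B T W S) (e : Ll ν μ) {h : MM Γ a} (hh : h ∈ T) (hl : Ls (ln h) ν) :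
    h ∈ B :=
  by_contra fun k => (Ll.ls_left hl e).not_ls D.big.pos (D.top h hh k)

theorem sim (D : TopD μ B T W S) (hν : Big ν) (e : Ls μ ν) {h p q : MM Γ a} (hh : h ∈ T)
    (hn : Ls ν (ds p q)) (hp : On ν p 1 h) (hq : On ν q 1 h) : Sim μ ν :=
  ⟨e, (On.nondeg hν hp hq hn).trans' (by simpa using ball_ls D.big D.bd hh)⟩

end C2top

open C2top in
theorem p_C2_TOP (hC2_RX : S_C2_RX) (hC2_G2 : S_C2_G2) (hC2_TPC : S_C2_TPC) :
    S_C2_TOP := by
  intro Γ a μ B T W S D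
  obtain ⟨t1, t2, t3⟩ := hC2_TPC Γ a μ B T W S D
  obtain ⟨g1, g2⟩ := hC2_G2 Γ a μ B T W S D
  have h0 := D.big.pos
  refine ⟨⟨D.gc.base.trans D.le, ?_, ?_, ?_, t2, t3⟩, t1⟩
  · intro ν hν h hh h' hh' l l' g p q o n
    rcases ll_or_ls h0 ν with e | e
    · exact D.le (D.gc.g2 ν hν h (small D e hh l) h' (small D e hh' l') l l' g p q o n)
    · have s := sim D hν e hh o.1 o.2.1 o.2.2.1
      exact g2 h hh h' hh' g p q ((s.ov_iff h0.le hν.pos.le).2 o)
        (mt (s.per_iff h0.le hν.pos.le).1 n)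
  · intro ν hν h hh l p q hn hp hq n
    rcases ll_or_ls h0 ν with e | e
    · obtain ⟨c, hc, k⟩ := D.gc.g20 ν hν h (small D e hh l) l p q hn hp hq n
      exact ⟨c, D.le hc, k⟩
    · have s := sim D hν e hh hn hp hq
      obtain ⟨c, hc, k1, k2⟩ := g1 h hh p q (e.trans' hn) ((s.on_iff h0.le hν.pos.le).2 hp)
        ((s.on_iff h0.le hν.pos.le).2 hq) ((s.per_iff h0.le hν.pos.le).2 n)
      exact ⟨c, hc, k1, (s.stab_iff h0.le hν.pos.le).1 k2⟩
  · intro ν hν h hh l c hc hp lc hm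
    rcases ll_or_ls h0 ν with e | e
    · obtain ⟨f, hf, k⟩ := D.gc.ex ν hν h (small D e hh l) l c (small D e hc lc) hp lc hm
      exact ⟨f, D.le hf, k⟩
    rcases ll_or_ls hν.pos μ with e' | e'
    · refine ⟨1, one_mem _, one_mem _,
        (Ll.ls_left (ball_ls D.big D.bd hh) e').two.mono_left ?_⟩
      have := ln_nonneg c
      have := ln_nonneg (h⁻¹ * c * h)
      rw [ds_one_left]
      linarith
    · obtain ⟨f, f1, f2, k⟩ := rx hC2_RX D hh c hc hp (hm.ls_right e' h0.le)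
      rw [mul_one f, ds_one_mul, ds_conj] at k
      exact ⟨f, f1, f2, k.ls_right e hν.pos.le⟩

end Pool.Agent.P.MP_dba3d2_lc
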