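import Pool.Agent.P.MP_dba3d2_lc.C.IfaceL2
import Pool.Agent.P.MP_dba3d2_lc.A.Iface
import Pool.Agent.P.MP_dba3d2_lc.C.LTb

/-! Step C2_TPC of the stability project. -/

namespace Pool.Agent.P.MP_dba3d2_lc

open Filter

namespace C2TpcA

variable {Γ : HG} {a : Amb} {μ : a.K} {B T : Subgroup (MM Γ a)} {W S : Set (MM Γ a)}
  {c f : MM Γ a}

theorem red (D : TopD μ B T W S) (hc : c ∈ T) (h : ¬ IsOfFinOrder c) (hm : Ll (md c) μ) :
    ∃ t ∈ T, t⁻¹ * c * t ∈ B := by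
  obtain ⟨q, hq⟩ := exists_md_ds c
  obtain ⟨t, ht, h1, -⟩ := D.star c hc c hc h h q (hq ▸ hm) (hq ▸ hm)
  exact ⟨t, ht, h1⟩

theorem int_exp (hE : S_ELEM) (hL : S_LINE) (hc : Prim c) (hf : f ∈ Ep c)
    (hm : Ls (md f) (md c)) : ∃ j : ℤ, IsOfFinOrder (f⁻¹ * c ^ j) := by
  obtain ⟨k, hk⟩ := hc.2 f hf
  have h1 := pow_sq_eq hE hc.1 hf (ipow_mem_Ep c k) hk
  rw [ipow_pow] at h1
  obtain ⟨q, hq⟩ := exists_md_ds c
  obtain ⟨L, hs, h2⟩ := (hL Γ a c q hc.1 (Ls.of_le hq.le)).1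
  have h3 := (h2 (k * ((Γ.e * Γ.e : ℕ) : a.Z))).2.2
  have hL0 : 0 < L := hs.2.pos (zero_lt_one.trans_le (one_le_md' hc.1))
  have he : (0 : a.K) < ((Γ.e * Γ.e : ℕ) : a.K) :=
    Nat.cast_pos.2 (Nat.pos_of_ne_zero (ee_ne_zero Γ))
  rw [← h1, zK_mul, zK_natCast, abs_mul, abs_of_pos he] at h3
  have h4 : |zK k| * L ≤ md f :=
    le_of_mul_le_mul_left (by linarith [md_pow_le f (Γ.e * Γ.e)]) he
  obtain ⟨n, hn⟩ := hm.trans' hs.2
  have h5 : |zK k| ≤ n := le_of_mul_le_mul_right (h4.trans hn) hL0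
  obtain ⟨j, rfl⟩ := exists_int_of_not_big (not_big_of_ls (Ls.of_le h5) (not_big_nat n))
  exact ⟨j, by rwa [ipow_intCast] at hk⟩

end C2TpcA

open C2TpcA in
theorem p_C2_TPC (hELEM : S_ELEM) (hLINE : S_LINE) :
    S_C2_TPC := by
  intro Γ a μ B T W S D
  have hμ := D.big
  have h0 := hμ.pos
  have hmd : ∀ f ∈ T, Ls (md f) μ := fun f hf => Ls.mono_left (md_le_ln f) (ball_ls hμ D.bd hf)
  refine ⟨fun c hc hp f hf _ hm => ?_, fun c hc hp f hf hfc n hn => ?_,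
    fun c hc c' hc' h h' => ?_⟩
  · obtain ⟨t, ht, h1⟩ := red D hc hp.1 (hm.ls_right (hmd f hf) h0.le)
    exact ⟨t, ht, Or.inl h1⟩
  · rcases ll_or_ls h0 (md c) with hm | hm
    · obtain ⟨t, ht, h1⟩ := red D hc hp.1 hm
      obtain ⟨g, hg, hg', r, hr⟩ := D.pur1 _ h1 (hp.conj' t) (t⁻¹ * f * t)
        (mul_mem (mul_mem (inv_mem ht) hf) ht)
        (mem_Ep_conj'.2 (by rwa [show t * (t⁻¹ * f * t) * t⁻¹ = f by group])) n hn
      refine ⟨t * g * t⁻¹, mul_mem (mul_mem ht hg) (inv_mem ht), mem_Ep_conj'.1 hg', r, ?_⟩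
      have e : (t⁻¹ * c * t) ^ r = t⁻¹ * c ^ r * t := by
        simpa using conj_pow (a := t⁻¹) (b := c) (i := r)
      rw [e, ← finOrder_conj t] at hr
      rw [conj_pow]
      exact (show t * ((t⁻¹ * f * t)⁻¹ * (g ^ n * (t⁻¹ * c ^ r * t))) * t⁻¹ =
        f⁻¹ * (t * g ^ n * t⁻¹ * c ^ r) by group) ▸ hr
    · obtain ⟨j, hj⟩ := int_exp hELEM hLINE hp hfc ((hmd f hf).trans' hm)
      refine ⟨c ^ (j / n), zpow_mem hc _, zpow_mem (self_mem_Ep c) _, (j % n).toNat, ?_⟩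
      rw [← zpow_natCast, ← zpow_natCast c, ← zpow_mul, ← zpow_add,
        Int.toNat_of_nonneg (Int.emod_nonneg _ (by exact_mod_cast hn.ne')),
        Int.ediv_mul_add_emod]
      exact hj
  · by_cases hB : c ∈ B ∧ c' ∈ B
    · obtain ⟨p, hp, k⟩ := D.gc.cen c hB.1 c' hB.2 h h'
      exact ⟨p, D.le hp, k⟩
    have hs : Ls μ (ln c + ln c') := by
      rcases not_and_or.1 hB with k | k
      · exact (D.top c hc k).mono_right (le_add_of_nonneg_right (ln_nonneg _))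
      · exact (D.top c' hc' k).mono_right (le_add_of_nonneg_left (ln_nonneg _))
    obtain ⟨q0, hq0, -⟩ := exists_min_disp c c'
    rcases ll_or_ls h0 (ds q0 (c * q0) + ds q0 (c' * q0)) with hm | hm
    · obtain ⟨t, ht, h1, h2⟩ := D.star c hc c' hc' h h' q0
        (Ll.mono_left (le_add_of_nonneg_right (ds_nonneg _ _)) hm)
        (Ll.mono_left (le_add_of_nonneg_left (ds_nonneg _ _)) hm)
      obtain ⟨p, hp, -, k⟩ := D.gc.cen _ h1 _ h2 (mt (finOrder_conj' t c).1 h)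
        (mt (finOrder_conj' t c').1 h')
      have hpT := mul_mem ht (D.le hp)
      refine ⟨t * p, hpT, (ball_ls hμ D.bd hpT).trans' hs, fun q => ?_⟩
      have e1 : ∀ x, p⁻¹ * (t⁻¹ * x * t) * p = (t * p)⁻¹ * x * (t * p) := fun x => by group
      have e2 : ∀ x, (t⁻¹ * q)⁻¹ * (t⁻¹ * x * t) * (t⁻¹ * q) = q⁻¹ * x * q := fun x => by group
      have := k (t⁻¹ * q)
      rwa [e1, e1, e2, e2] at this
    · refine ⟨1, one_mem _, ?_, fun q => ?_⟩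
      · rw [ln_one]
        exact Ls.zero (add_nonneg (ln_nonneg _) (ln_nonneg _))
      · rw [inv_one, one_mul, one_mul, mul_one, mul_one, ← ds_conj, ← ds_conj]
        exact (((ball_ls hμ D.bd hc).add (ball_ls hμ D.bd hc')).trans' hm).mono_right (hq0 q)

end Pool.Agent.P.MP_dba3d2_lc
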