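import Pool.Agent.P.MP_dba3d2_lc.C.IfaceL

/-! Step C2_TREEFIX of the stability project. -/

namespace Pool.Agent.P.MP_dba3d2_lc

open Filter

namespace C2_treefix

open SimpleGraph

variable {X : Type} {Δ : SimpleGraph X} {y a b v z : X}

theorem parent (h : Δ.IsAcyclic) (ha : Δ.Adj a v) (hb : Δ.Adj b v) (hr : Δ.Reachable y v)
    (h1 : Δ.dist y v = Δ.dist y a + 1) (h2 : Δ.dist y v = Δ.dist y b + 1) : a = b := by
  obtain ⟨p, hp⟩ := (hr.trans ha.symm.reachable).exists_walk_length_eq_dist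
  obtain ⟨q, hq⟩ := (hr.trans hb.symm.reachable).exists_walk_length_eq_dist
  have e := congrArg (fun w : Δ.Path y v => w.1.penultimate) (h.path_unique
    ⟨p.concat ha, Walk.isPath_of_length_eq_dist _ (by rw [Walk.length_concat, hp, h1])⟩
    ⟨q.concat hb, Walk.isPath_of_length_eq_dist _ (by rw [Walk.length_concat, hq, h2])⟩)
  simpa using e

theorem up (h : Δ.IsAcyclic) (q : Δ.Walk b z) : ∀ {a : X} (ha : Δ.Adj a b),
    (Walk.cons ha q).IsPath → Δ.Reachable y b → Δ.dist y b = Δ.dist y a + 1 →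
      Δ.dist y z = Δ.dist y b + q.length := by
  induction q with
  | nil => simp
  | cons hb q ih =>
    intro a ha hp hr e
    rw [Walk.cons_isPath_iff] at hp
    rcases h.dist_eq_dist_add_one_of_adj_of_reachable y hb hr with e' | e'
    · obtain rfl := parent h ha hb.symm hr e e'
      simp at hp
    · rw [ih hb hp.1 (hr.trans hb.reachable) e', e', Walk.length_cons]
      omega

end C2_treefix

open SimpleGraph C2_treefix in
theorem p_C2_TREEFIX :
    S_C2_TREEFIX := by
  intro G X _ _ Δ col K x₀ hΔ hK hA hc hb hr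
  have := Fintype.ofFinite K
  have m1 : ∀ k ∈ K, ∀ u v, Δ.Reachable u v → Δ.Reachable (k • u) (k • v) ∧
      Δ.dist (k • u) (k • v) ≤ Δ.dist u v := fun k hk u v h => by
    obtain ⟨p, hp⟩ := h.exists_walk_length_eq_dist
    have q := p.map (G' := Δ) ⟨fun x => k • x, fun e => hA k hk _ _ e⟩
    exact ⟨⟨q⟩, (dist_le (p.map (G' := Δ) ⟨fun x => k • x, fun e => hA k hk _ _ e⟩)).trans_eq
      ((Walk.length_map _ _).trans hp)⟩
  obtain ⟨x, hx, hm⟩ := (measure fun x => Finset.univ.sup fun k : K =>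
    Δ.dist ((k : G) • x₀) x).wf.has_min {x | Δ.Reachable x₀ x} ⟨x₀, Reachable.refl _⟩
  refine ⟨x, hx, fun k hk => by_contra fun hne => ?_⟩
  have r1 : ∀ j ∈ K, Δ.Reachable (j • x₀) x := fun j hj => (hr j hj).symm.trans hx
  obtain ⟨p, hp, hl⟩ := ((r1 k hk).symm.trans (m1 k hk _ _ hx).1).exists_path_of_dist
  have l2 := ((r1 k hk).symm.trans (m1 k hk _ _ hx).1).one_lt_dist_of_ne_of_not_adj
    (Ne.symm hne) fun e => hb _ _ e (hc k hk x).symm
  have le : ∀ j ∈ K, Δ.dist (j • x₀) x ≤ Finset.univ.sup fun k : K =>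
      Δ.dist ((k : G) • x₀) x := fun j hj =>
    Finset.le_sup (f := fun k : K => Δ.dist ((k : G) • x₀) x) (Finset.mem_univ ⟨j, hj⟩)
  have le' : ∀ j ∈ K, Δ.dist (j • x₀) (k • x) ≤ Finset.univ.sup fun k : K =>
      Δ.dist ((k : G) • x₀) x := fun j hj => by
    have h1 := K.mul_mem (K.inv_mem hk) hj
    have h2 := (m1 k hk _ _ (r1 _ h1)).2
    rw [smul_smul, mul_inv_cancel_left] at h2
    exact h2.trans (le _ h1)
  generalize k • x = z at p hp hl l2 le'
  cases p with
  | nil => simp at l2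
  | @cons _ m _ ha q =>
    have key : ∀ j ∈ K, Δ.dist (j • x₀) m < Finset.univ.sup fun k : K =>
        Δ.dist ((k : G) • x₀) x := fun j hj => by
      have a1 := le j hj
      have a2 := le' j hj
      rcases hΔ.dist_eq_dist_add_one_of_adj_of_reachable _ ha (r1 j hj) with e | e
      · omega
      · have := up hΔ q ha hp ((r1 j hj).trans ha.reachable) e
        rw [Walk.length_cons] at hl
        omega
    exact hm m (hx.trans ha.reachable) ((Finset.sup_lt_iff
      ((Nat.zero_le _).trans_lt (key 1 K.one_mem))).2 fun j _ => key j j.2)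

end Pool.Agent.P.MP_dba3d2_lc
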