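import Pool.Agent.P.MP_dba3d2_lc.C.IfaceT

/-! Step C_AM1 of the stability project. -/

namespace Pool.Agent.P.MP_dba3d2_lc

open Filter

namespace C_am1A

open Monoid

theorem lift_list {G : Type} [Group G] (A : Bool → Subgroup G) (l : List (Bool × G))
    (h : ∀ s ∈ l, s.2 ∈ A s.1) :
    ∃ L : List (Σ i, A i), L.map (fun s => (s.1, (s.2 : G))) = l := by
  induction l with
  | nil => exact ⟨[], rfl⟩
  | cons s l ih =>
    obtain ⟨L, hL⟩ := ih fun t ht => h t (List.mem_cons_of_mem _ ht)
    exact ⟨⟨s.1, ⟨s.2, h s List.mem_cons_self⟩⟩ :: L, by rw [List.map_cons, hL]⟩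

theorem key {G : Type} [Group G] (A : Bool → Subgroup G) (C J : Subgroup G) (hC : ∀ i, C ≤ A i)
    (hJ : ∀ i, A i ≤ J)
    (θ : J →* PushoutI (fun i => Subgroup.inclusion (hC i)))
    (hθ : ∀ i (x : A i), θ ⟨x, hJ i x.2⟩ = PushoutI.of (φ := fun i => Subgroup.inclusion (hC i)) i x) :
    RedNT A C := by
  intro l hl hm hch hp
  obtain ⟨L, rfl⟩ := lift_list A l fun s hs => (hm s hs).1
  have hn : ∀ s ∈ L, (s.2 : G) ∉ C := fun s hs =>
    (hm _ (List.mem_map_of_mem (f := fun s : (Σ i, A i) => (s.1, (s.2 : G))) hs)).2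
  let w : CoprodI.Word (fun i => A i) :=
    { toList := L
      ne_one := fun s hs h1 => hn s hs (by rw [h1]; exact C.one_mem)
      chain_ne := by
        rw [List.isChain_map] at hch
        exact hch }
  have hw : PushoutI.Reduced (fun i => Subgroup.inclusion (hC i)) w := by
    rintro s hs ⟨c, hc⟩
    refine hn s hs ?_
    rw [← hc]
    exact c.2
  let j : (Σ i, A i) → J := fun s => ⟨s.2, hJ _ s.2.2⟩
  have h1 : (((L.map j).prod : J) : G) =
      ((L.map (fun s : (Σ i, A i) => (s.1, (s.2 : G)))).map Prod.snd).prod := by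
    rw [SubmonoidClass.coe_list_prod, List.map_map, List.map_map]
    rfl
  have h2 : θ (L.map j).prod = PushoutI.ofCoprodI w.prod := by
    rw [map_list_prod, CoprodI.Word.prod, map_list_prod, List.map_map, List.map_map]
    congr 1
    refine List.map_congr_left fun s _ => ?_
    simp only [Function.comp_apply, PushoutI.ofCoprodI_of]
    exact hθ s.1 s.2
  have h3 : PushoutI.ofCoprodI w.prod ∈
      (PushoutI.base (fun i => Subgroup.inclusion (hC i))).range := by
    rw [← h2]
    refine ⟨⟨_, hp⟩, ?_⟩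
    rw [← PushoutI.of_apply_eq_base _ false, ← hθ]
    congr 1
    exact Subtype.ext h1.symm
  have h4 := hw.eq_empty_of_mem_range (fun i => Subgroup.inclusion_injective (hC i)) h3
  have h5 : L = [] := congrArg CoprodI.Word.toList h4
  exact hl (by rw [h5]; rfl)

end C_am1A

open Monoid in
theorem p_C_AM1 :
    S_C_AM1 := by
  intro G _ X Y C hX hY hU
  have hC : ∀ i : Bool, C ≤ (bif i then Y else X) := by
    intro i
    cases i
    exacts [hX, hY]
  have hJ : ∀ i : Bool, (bif i then Y else X) ≤ X ⊔ Y := by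
    intro i
    cases i
    exacts [le_sup_left, le_sup_right]
  obtain ⟨θ, h0, h1⟩ := hU (PushoutI (fun i => Subgroup.inclusion (hC i)))
    (PushoutI.of (φ := fun i => Subgroup.inclusion (hC i)) false)
    (PushoutI.of (φ := fun i => Subgroup.inclusion (hC i)) true) (by
      intro x y hx hxy
      have e0 := PushoutI.of_apply_eq_base (fun i => Subgroup.inclusion (hC i)) false ⟨x, hx⟩
      have e1 := PushoutI.of_apply_eq_base (fun i => Subgroup.inclusion (hC i)) true ⟨x, hx⟩
      have e2 : Subgroup.inclusion (hC true) ⟨x, hx⟩ = y := Subtype.ext hxy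
      rw [e2] at e1
      exact e0.trans e1.symm)
  refine C_am1A.key _ C (X ⊔ Y) hC hJ θ ?_
  intro i x
  cases i
  exacts [h0 x, h1 x]

end Pool.Agent.P.MP_dba3d2_lc
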