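import Pool.Agent.P.MP_dba3d2_lc.C.IfaceT
import Pool.Agent.P.MP_dba3d2_lc.C.IfaceL

/-! Step C_AM2 of the stability project. -/

namespace Pool.Agent.P.MP_dba3d2_lc

open Filter

theorem p_C_AM2 (hC2_STARFIN : S_C2_STARFIN) :
    S_C_AM2 := by
  intro G _ A C hC hR K hK hF
  have e : C ⊔ ⨆ i, A i = A false ⊔ A true := by
    rw [iSup_bool_eq, sup_comm (A true)]
    exact sup_eq_right.2 ((hC false).trans le_sup_left)
  obtain ⟨p, hp, h⟩ := hC2_STARFIN G C Bool A (fun i b j => i = j ∧ b ∈ C)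
    (fun i b hb => iff_of_true (hC i hb) ⟨rfl, hb⟩) (fun i b j h => ⟨h.1.symm, inv_mem h.2⟩)
    (fun i b j b' k h h' => ⟨h.1.trans h'.1, mul_mem h.2 h'.2⟩)
    (fun i b j h x hx => mul_mem (mul_mem (hC i h.2) (h.1 ▸ hx)) (inv_mem (hC i h.2)))
    (fun l hl h1 h2 => by
      have k := hR (l.map fun s => (s.2.1, s.1 * s.2.2)) (by simpa using hl) (fun s hs => by
        obtain ⟨t, ht, rfl⟩ := List.mem_map.1 hs
        obtain ⟨a, b, c⟩ := h1 t ht
        exact ⟨mul_mem (hC _ a) b, fun k => c ((C.mul_mem_cancel_left a).1 k)⟩) (by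
        rw [List.isChain_map]
        exact h2.imp_of_mem_imp fun s s' _ hs' k e => k ⟨e, (h1 s' hs').1⟩)
      rwa [List.map_map] at k) K (e ▸ hK) hF
  refine ⟨p, e ▸ hp, ?_⟩
  rcases h with h | h
  exacts [⟨false, fun k hk => hC false (h k hk)⟩, h]

end Pool.Agent.P.MP_dba3d2_lc
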