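import Pool.Agent.P.MP_dba3d2_lc.C.IfaceT
import Pool.Agent.P.MP_dba3d2_lc.A.Iface
import Pool.Agent.P.MP_dba3d2_lc.B.Iface
import Pool.Agent.P.MP_dba3d2_lc.C.TTb

/-! Step C_ARC of the stability project. -/

namespace Pool.Agent.P.MP_dba3d2_lc

open Filter

theorem p_C_ARC (hELEM : S_ELEM) (hLINE : S_LINE) (hROOT : S_ROOT) :
    S_C_ARC := by
  intro Γ a F T ν t y p q hν ht hy hM hl hp hq
  cases t with
  | inl o => exact Or.inl ⟨hl, hp, hq⟩
  | inr c =>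
    obtain ⟨h1, h2, h3⟩ := ht
    have hE : y ∈ Ep c := EF_le_Ep hy
    rcases ll_or_ls hν.pos (md c) with e | e
    · exact (h2.stab_ep hELEM hLINE (h3.ll e) hE).sub hν hp hq
    · exact absurd (((hROOT Γ a _ T.gcm).2.1 c h1 c h1 h2 h2 y (Cj.of_mem hE)).2 h3 h3
        (Ls.trans' hl e)) (hM c rfl)

end Pool.Agent.P.MP_dba3d2_lc
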