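import Pool.Agent.P.MP_dba3d2_lc.C.IfaceT
import Pool.Agent.P.MP_dba3d2_lc.C.LTb

/-! Step C_BRIDGE of the stability project. -/

namespace Pool.Agent.P.MP_dba3d2_lc

open Filter

theorem p_C_BRIDGE (hC_PROJ : S_C_PROJ) :
    S_C_BRIDGE := by
  intro Γ a b b' h hb cb hb' cb' n1 n2 q
  have p1 := ds_nonneg q (b * q)
  have p2 := ds_nonneg q (h * b' * h⁻¹ * q)
  have m1 := md_le_ds b q
  have m2 := md_le_ds (h * b' * h⁻¹) q
  rw [md_conj'] at m2
  have o1 := one_le_md' hb.1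
  have l1 : Ls (ln b) (ds q (b * q) + ds q (h * b' * h⁻¹ * q)) := Ls.mono_right cb (by linarith)
  have l2 : Ls (ln b') (ds q (b * q) + ds q (h * b' * h⁻¹ * q)) := Ls.mono_right cb' (by linarith)
  have l3 : Ls (ln h) (ds q (b * q) + ds q (h * b' * h⁻¹ * q)) := by
    refine ls_of_scale (by linarith) fun hB hl => ll_irrefl hB.pos ?_
    have k1 := ((hC_PROJ Γ a b h⁻¹ hb cb n1).2 _ hB (hl.mono_left (by linarith))
      (Ls.of_le (ln_inv h).le)).1 q (hl.mono_left (by linarith))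
    have e : ds (h⁻¹ * q) (b' * (h⁻¹ * q)) = ds q (h * b' * h⁻¹ * q) := by
      rw [← disp_conj h, mul_inv_cancel_left]
    have k2 := (((hC_PROJ Γ a b' h hb' cb' n2).2 _ hB (hl.mono_left (by linarith))
      (Ls.refl' _)).1 (h⁻¹ * q) (hl.mono_left (by linarith))).mul h
    rw [inv_inv] at k1
    rw [mul_one, mul_inv_cancel, mul_inv_cancel_left] at k2
    have k := k1.symm.antisymm k2.symm
    rwa [ds_one_left] at k
  have t1 := ln_mul_le (h * b') h⁻¹
  have t2 := ln_mul_le h b'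
  rw [ln_inv] at t1
  exact l1.add (Ls.mono_left (by linarith) (l3.two.add l2))

end Pool.Agent.P.MP_dba3d2_lc
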