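import Pool.Agent.P.MP_dba3d2_lc.C.IfaceT2
import Pool.Agent.P.MP_dba3d2_lc.A.Iface
import Pool.Agent.P.MP_dba3d2_lc.B.Iface
import Pool.Agent.P.MP_dba3d2_lc.C.IfaceT
import Pool.Agent.P.MP_dba3d2_lc.C.TTb

/-! Step C_CYC of the stability project. -/

namespace Pool.Agent.P.MP_dba3d2_lc

open Filter

namespace C_cycA

variable {Γ : HG} {a : Amb} {F : Bool → Subgroup (MM Γ a)}

/-- the conclusion for one element -/
def Goal (F : Bool → Subgroup (MM Γ a)) (γ : MM Γ a) : Prop := ∃ z ∈ F false ⊔ F true,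
  (∃ o b, Typ F o b ∧ z⁻¹ * γ * z ∈ Ep b) ∨ Cen (z⁻¹ * γ * z)

theorem Goal.conj {γ δ g : MM Γ a} (hg : g ∈ (idC F).PP) (e : δ = g⁻¹ * γ * g) (h : Goal F δ) :
    Goal F γ := by
  obtain ⟨z, hz, h⟩ := h
  refine ⟨g * z, mul_mem (idC_PP ▸ hg) hz, ?_⟩
  rwa [show (g * z)⁻¹ * γ * (g * z) = z⁻¹ * δ * z by rw [e]; group]

theorem goal_ep {γ c : MM Γ a} (hc : TOK F (idC F).S (.inr c)) (h : γ ∈ Ep c) : Goal F γ :=
  ⟨1, one_mem _, .inl ⟨none, c, ⟨hc.1, hc.2.1, hc.2.2, fun e => absurd rfl e⟩, by simpa using h⟩⟩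

theorem goal_cen {γ : MM Γ a} (h : Cen γ) : Goal F γ := ⟨1, one_mem _, .inr (by simpa using h)⟩

theorem ll_sl {ν : a.K} (h0 : 0 ≤ ν) {w : List (Tg Γ a × MM Γ a)} (h : ∀ s ∈ w, Ll (ln s.2) ν) :
    Ll ((idC F).sl w) ν := by
  induction w with
  | nil => exact Ll.zero h0
  | cons s w ih =>
    rw [Cv.sl_cons]
    exact (h s List.mem_cons_self).add (ih fun t ht => h t (List.mem_cons_of_mem _ ht))

theorem cen_of_geo {ν : a.K} (hν : Big ν) {y : MM Γ a} {L : List (MM Γ a)}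
    (h : Geo ν (y :: L ++ [y])) (hy : Ls ν (ln y)) : Ls ν (md (y * L.prod)) := by
  have h1 : On ν 1 (y * L.prod)⁻¹ y := on_one_iff'.2 (by simpa [mul_assoc] using h.on)
  have h2 : On ν y 1 (y * L.prod) := h.left.head
  have h3 := (On.glue hν h1 h2 (by simpa using hy)).1
  have h4 : Geo ν ([y * L.prod] ++ [y * L.prod]) :=
    geo_cons.2 ⟨by simpa using h3, geo_single hν.pos.le _⟩
  have h5 := h.left.ls_mem hν List.mem_cons_self hy
  simpa using h4.md hν (by simpa using h5)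

end C_cycA

open C_cycA

theorem p_C_CYC (hELEM : S_ELEM) (hROOT : S_ROOT) (hC_REDX : S_C_REDX) (hC_CYCG : S_C_CYCG) (hC_GEOP : S_C_GEOP) :
    S_C_CYC := by
  intro Γ a F hF γ hγ hfo
  change Goal F γ
  obtain ⟨w0, hw0, rfl⟩ := exists_wordP hγ
  obtain ⟨w, hw, hz, -, ⟨g, hg, e⟩, hc⟩ := hC_CYCG Γ a F hF _ (idC F) w0 hw0
  refine Goal.conj hg e ?_
  have hf : ¬ IsOfFinOrder (vl w) := by rwa [e, finOrder_conj']
  clear e hg hfo hγ hw0 g w0
  rcases hc with hc | ⟨c, e, m, hr, hj⟩ | hc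
  · rcases w with _ | ⟨⟨t, x⟩, _ | ⟨s, w⟩⟩
    · exact absurd IsOfFinOrder.one hf
    · have k := (Cv.wd_cons.1 hw).1
      simp only [vl_cons, vl_nil, mul_one] at hf ⊢
      rcases t with o | c
      · obtain ⟨c, c1, c2, c3⟩ := (hROOT Γ a _ (hF.gcx o)).1 x k.2 hf
        obtain ⟨o1, b1, t1, -, g, g1, -, -, -, -, -, g2, -⟩ :=
          hC_REDX Γ a F hF o o c c1 c c1 c2 c2 1 (Cj.one_iff.2 rfl)
        exact ⟨g, XF_le_P o g1, .inl ⟨o1, b1, t1, g2.mem_Ep' (c3 ▸ self_mem_Ep x)⟩⟩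
      · exact goal_ep k.1 (EF_le_Ep k.2)
    · simp at hc
  · obtain ⟨h1, -, -, g, hg, e1⟩ := hw.rot hr
    refine Goal.conj hg e1 ?_
    have k := (Cv.wd_cons.1 h1).1
    have hf' : ¬ IsOfFinOrder (vl [(Sum.inr c, e), ((Sum.inl none : Tg Γ a), m)]) := by
      rwa [e1, finOrder_conj']
    refine goal_ep k.1 (InE.mem hELEM k.1.2.1.1 ?_ hf')
    simp only [vl_cons, vl_nil, mul_one]
    exact (InE.of_mem (EF_le_Ep k.2)).mul (((hELEM Γ a c k.1.2.1.1).2.2.2.1 m).2 hj)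
  · by_cases hν : Big ((idC F).sl w)
    · obtain ⟨s, hs, hb⟩ : ∃ s ∈ w, Ls ((idC F).sl w) (ln s.2) := by
        by_contra hn
        exact ll_irrefl hν.pos (ll_sl hν.pos.le fun s hs =>
          (ll_or_ls hν.pos _).resolve_right fun k => hn ⟨s, hs, k⟩)
      have hl := Cv.ln_le_sl (C := idC F) hs
      obtain ⟨p, q, rfl⟩ := List.append_of_mem hs
      have hr : p ++ s :: q ~r s :: (q ++ p) := List.isRotated_append
      obtain ⟨h1, -, h2, g, hg, e1⟩ := hw.rot hr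
      refine Goal.conj hg e1 (goal_cen ?_)
      have h3 := (hC_GEOP Γ a F hF).1 _ (hc.2 s _ hr) (hz.nzE.sub fun t ht => by
        simp only [List.cons_append, List.mem_cons, List.mem_append] at ht ⊢
        tauto)
      have h4 := h3.geo _ hν ⟨2, by
        rw [Cv.sl_append, h2, Cv.sl_cons, Cv.sl_nil]
        push_cast
        linarith⟩
      rw [Cv.vs_append, Cv.vs_cons, Cv.vs_cons, Cv.vs_nil] at h4
      have h5 := cen_of_geo hν h4 hb
      rw [idC_prod] at h5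
      exact (Ls.of_le (h2 ▸ Cv.ln_vl_le (C := idC F))).trans' h5
    · exact goal_cen (ls_of_scale (one_le_md' hf) fun k _ =>
        hν (k.of_ls (Ls.of_le (Cv.ln_vl_le (C := idC F)))))

end Pool.Agent.P.MP_dba3d2_lc
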