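import Pool.Agent.P.MP_dba3d2_lc.C.IfaceT2
import Pool.Agent.P.MP_dba3d2_lc.C.TTb

/-! Step C_CYCG of the stability project. -/

namespace Pool.Agent.P.MP_dba3d2_lc

open Filter

namespace C_cycgA

variable {Γ : HG} {a : Amb} {F : Bool → Subgroup (MM Γ a)} {G : Type} [Group G] {C : Cv F G}
  {s : Tg Γ a × G} {w ρ : List (Tg Γ a × G)}

theorem he (h : ¬ C.Exc w) (k : w ~r s :: ρ) : C.HE s ρ s := by
  rintro c c' m e1 e2 rfl hj
  obtain ⟨t, x⟩ := s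
  obtain rfl : t = _ := e1
  cases e2
  exact h ⟨c, x, m, k, hj⟩

theorem fin (h : C.CycMin w) (hl : 2 ≤ w.length) (hp : C.PCh (w ++ w)) : C.Exc w ∨ C.CG w := by
  refine (em _).imp_right fun e => ⟨hl, fun s ρ k => ?_⟩
  have h1 := h.rot k
  have o := Cv.wd_cons.1 h1.1
  have := Cv.good_of (C := C) (e := some s) (e' := some s) (u := ρ) h1.head
    (Cv.wd_xw (by rintro _ ⟨⟩; exact o.1) o.2 (by rintro _ ⟨⟩; exact o.1))
    ((hp.rot k).sub ⟨[], ρ, by simp⟩) (by rintro _ ⟨⟩ _ ⟨⟩; exact he e k)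
  simpa using this

theorem dbl {c : MM Γ a} {x : G} (h : C.PCh ((.inr c, x) :: w ++ [(.inr c, x)])) (y : G) :
    C.PCh (((.inr c, y) :: w) ++ (.inr c, y) :: w) := by
  have h1 : C.PCh ((.inr c, x) :: w ++ [(.inr c, y)]) := by
    have := List.isChain_append.1 h
    refine List.isChain_append.2 ⟨this.1, List.isChain_singleton _, fun p hp q hq => ?_⟩
    obtain rfl : (Sum.inr c, y) = q := by simpa using hq
    exact (pair_inr_right _ _ _).1 (this.2.2 p hp (.inr c, x) rfl)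
  have h2 : C.PCh ((.inr c, y) :: w ++ [(.inr c, y)]) := by
    have := List.isChain_append.1 (show List.IsChain _ ([_] ++ (w ++ [(.inr c, y)])) from h1)
    refine (List.isChain_append (l₁ := [_])).2 ⟨List.isChain_singleton _, this.2.1,
      fun p hp q hq => ?_⟩
    obtain rfl : (Sum.inr c, y) = p := by simpa using hp
    exact (pair_inr_left _ _ _).1 (this.2.2 (.inr c, x) rfl q hq)
  exact List.isChain_split.2 ⟨h2, h2.sub ⟨[], [_], rfl⟩⟩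

end C_cycgA

open C_cycgA

theorem p_C_CYCG (hC_EXTM : S_C_EXTM) (hC_CYP : S_C_CYP) :
    S_C_CYCG := by
  intro Γ a F hF G _ C w hw
  obtain ⟨u, hu, hc, g, hg, e⟩ := Cv.exists_cycMin hw
  by_cases h1 : u.length ≤ 1
  · exact ⟨u, hu.1, hu.cMin.nz, hc, ⟨g, hg, e⟩, .inl h1⟩
  by_cases h2 : C.Exc u
  · exact ⟨u, hu.1, hu.cMin.nz, hc, ⟨g, hg, e⟩, .inr (.inl h2)⟩
  suffices k : ∃ v, C.Wd v ∧ ct v = ct u ∧ v.length = u.length ∧ C.PCh (v ++ v) ∧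
      ∃ g ∈ C.PP, vl v = g⁻¹ * vl u * g by
    obtain ⟨v, a1, a2, a3, a4, g', a5, a6⟩ := k
    have m := hu.of_eq a1 a2.le a5 a6
    exact ⟨v, a1, m.cMin.nz, a2.le.trans hc, ⟨g * g', mul_mem hg a5, by rw [a6, e]; group⟩,
      .inr (fin m (by omega) a4)⟩
  by_cases h3 : ∀ s ∈ u, ∃ o, s.1 = .inl o
  · obtain ⟨v, a1, a2, a3, a4⟩ := hC_CYP Γ a F hF G C u hu (by omega) h3
    exact ⟨v, a2, ct_tags a1, by simpa using congrArg List.length a1, a3, a4⟩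
  push Not at h3
  obtain ⟨⟨o | c, x⟩, hs, h3⟩ := h3
  · exact absurd rfl (h3 o)
  obtain ⟨p, q, rfl⟩ := List.append_of_mem hs
  have k : p ++ (Sum.inr c, x) :: q ~r (Sum.inr c, x) :: (q ++ p) := List.isRotated_append
  have m := hu.rot k
  obtain ⟨-, b2, -, g', b3, b4⟩ := hu.1.rot k
  have b5 := k.perm.length_eq
  have o := Cv.wd_cons.1 m.1
  obtain ⟨v, a1, a2, a3, x', hx, y', hy, a4⟩ := hC_EXTM Γ a F hF G C (some (.inr c, x))
    (some (.inr c, x)) (q ++ p) (by rintro _ ⟨⟩; exact ⟨o.1, c, rfl⟩)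
    (by rintro _ ⟨⟩; exact ⟨o.1, c, rfl⟩) m.head (by
      rintro _ ⟨⟩ _ ⟨⟩
      refine ⟨he h2 k, fun z => absurd ?_ h1⟩
      rw [b5, z]; rfl)
  refine ⟨(.inr c, y'⁻¹ * x * x'⁻¹) :: v, Cv.wd_cons.2
    ⟨o.1.mk' (mul_mem (mul_mem (inv_mem hy) o.1.2) (inv_mem hx)), a2⟩, ?_, ?_,
    dbl (by simpa using a3) _, g' * y', mul_mem b3 (Cv.L_le_PP o.1.1 hy), ?_⟩
  · rw [← b2, ct_cons, ct_cons, ct_tags a1]
  · rw [b5, List.length_cons, List.length_cons]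
    simpa using congrArg List.length a1
  · rw [vl_cons] at b4
    rw [vl_cons, a4, mul_inv_rev, mul_assoc y'⁻¹ g'⁻¹, mul_assoc y'⁻¹ (g'⁻¹ * _),
      ← mul_assoc (g'⁻¹ * _), ← b4]
    group

end Pool.Agent.P.MP_dba3d2_lc
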