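import Pool.Agent.P.MP_dba3d2_lc.C.IfaceT2
import Pool.Agent.P.MP_dba3d2_lc.C.TTb

/-! Step C_CYP of the stability project. -/

namespace Pool.Agent.P.MP_dba3d2_lc

open Filter

namespace C_cypA

variable {Γ : HG} {a : Amb} {F : Bool → Subgroup (MM Γ a)} {G : Type} [Group G] {C : Cv F G}
  {s s' : Tg Γ a × G} {w : List (Tg Γ a × G)} {x y : G}

theorem base_mem (h : C.ok s) (ht : ∃ o, s.1 = .inl o) (hx : x ∈ C.L (.inl none)) :
    x ∈ C.L s.1 := by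
  obtain ⟨t, z⟩ := s
  obtain ⟨o, rfl⟩ := ht
  exact Cv.base_le h.1 hx

theorem modL (hw : C.Wd w) (hne : w.map Prod.fst ≠ []) (ht : ∀ t ∈ w.map Prod.fst, ∃ o, t = .inl o)
    (hx : x ∈ C.L (.inl none)) :
    ∃ v, v.map Prod.fst = w.map Prod.fst ∧ C.Wd v ∧ vl v = x * vl w := by
  rcases w with _ | ⟨s, w⟩
  · exact absurd rfl hne
  obtain ⟨h1, h2⟩ := Cv.wd_cons.1 hw
  exact ⟨(s.1, x * s.2) :: w, rfl, Cv.wd_cons.2
    ⟨h1.mk' (mul_mem (base_mem h1 (ht _ (by simp)) hx) h1.2), h2⟩, by simp [mul_assoc]⟩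

theorem modR (hw : C.Wd w) (hne : w.map Prod.fst ≠ []) (ht : ∀ t ∈ w.map Prod.fst, ∃ o, t = .inl o)
    (hx : x ∈ C.L (.inl none)) :
    ∃ v, v.map Prod.fst = w.map Prod.fst ∧ C.Wd v ∧ vl v = vl w * x := by
  rcases w.eq_nil_or_concat with rfl | ⟨w, s, rfl⟩
  · exact absurd rfl hne
  rw [List.concat_eq_append] at hw ht ⊢
  obtain ⟨h2, h1⟩ := Cv.wd_append.1 hw
  have h3 := h1 s (by simp)
  exact ⟨w ++ [(s.1, s.2 * x)], by simp, Cv.wd_append.2 ⟨h2, Cv.wd_single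
    (h3.mk' (mul_mem h3.2 (base_mem h3 (ht _ (by simp)) hx)))⟩, by simp [mul_assoc]⟩

theorem rp_tags (h : RP F (C.pr s) (C.pr s')) (h1 : ∃ o, s.1 = .inl o) (h2 : ∃ o, s'.1 = .inl o) :
    ∃ i, s.1 = .inl (some i) ∧ s'.1 = .inl (some (!i)) := by
  obtain ⟨t, z⟩ := s
  obtain ⟨t', z'⟩ := s'
  obtain ⟨o, rfl⟩ := h1
  obtain ⟨o', rfl⟩ := h2
  obtain ⟨i, rfl, rfl⟩ := h
  exact ⟨i, rfl, rfl⟩

theorem not_expT (hF : TwoF F) {i : Bool} (h : C.CMin ⊥ ⊥ [(.inl (some i), y)]) :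
    ¬ ExpT (F false ⊓ F true) (C.π y) := by
  rintro ⟨m, hm, m', hm', c, hc, hp, f, hf, e⟩
  have o := h.1 (.inl (some i), y) (by simp)
  have hy : C.π y ∈ F i := C.le _ o.1 _ o.2
  have hfi : f ∈ F i := by
    have : f = m⁻¹ * C.π y * m'⁻¹ := by rw [e]; group
    rw [this]
    exact mul_mem (mul_mem (inv_mem (M_le_F i hm)) hy) (inv_mem (M_le_F i hm'))
  obtain ⟨p, p1, p2, p3, p4, p5⟩ := hF.cenx (o := none) hc hp
  have hc0 : TOK F C.S (.inr (p⁻¹ * c * p)) := ⟨p2, p3, p4⟩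
  obtain ⟨x, x1, x2, x3⟩ := Cv.lift_both (C := C) (o := some i) o.1 hc0
    (mul_mem (mul_mem (inv_mem (M_le_F i p1)) hfi) (M_le_F i p1)) (p5.mem_Ep' hf)
  obtain ⟨u, u1, u2⟩ := Cv.lift_base (C := C) (mul_mem hm p1)
  obtain ⟨v, v1, v2⟩ := Cv.lift_base (C := C) (mul_mem (inv_mem p1) hm')
  have e2 : u * x * v = y := Cv.eq_of o.1
    (mul_mem (mul_mem (Cv.base_le o.1 u1) x1) (Cv.base_le o.1 v1)) o.2
    (by rw [map_mul, map_mul, u2, v2, x3, e]; group)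
  have := h.2 [(.inl none, u), (.inr (p⁻¹ * c * p), x), (.inl none, v)]
    (Cv.wd_cons.2 ⟨Cv.ok_base u1, Cv.wd_cons.2 ⟨⟨hc0, x2⟩, Cv.wd_single (Cv.ok_base v1)⟩⟩)
    1 (one_mem _) 1 (one_mem _) (by simp [← e2, mul_assoc])
  simp at this

end C_cypA

open C_cypA in
theorem p_C_CYP (hC_RED : S_C_RED) (hC_NORMW : S_C_NORMW) :
    S_C_CYP := by
  intro Γ a F hF G _ C w hw hl ht
  have red : ∀ u, C.CMin ⊥ ⊥ u → C.Red u := fun u hu => by
    simpa using hC_RED Γ a F hF G C none none u (by simp) (by simp) hu (by simp)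
  rcases w with _ | ⟨s1, ρ⟩
  · simp at hl
  have hne : ρ ≠ [] := by rintro rfl; simp at hl
  have hne' : ρ.map Prod.fst ≠ [] := by simpa using hne
  have tρ : ∀ t ∈ ρ.map Prod.fst, ∃ o, t = .inl o := fun t h => by
    obtain ⟨s, hs, rfl⟩ := List.mem_map.1 h
    exact ht s (List.mem_cons_of_mem _ hs)
  have t1 := ht s1 List.mem_cons_self
  obtain ⟨sh, hsh⟩ : ∃ s, ρ.head? = some s := ⟨_, List.head?_eq_some_head hne⟩
  obtain ⟨sl, hsl⟩ : ∃ s, ρ.getLast? = some s := ⟨_, List.getLast?_eq_some_getLast hne⟩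
  obtain ⟨i, e1, e2⟩ := rp_tags ((List.isChain_cons.1 (red _ hw.cMin).ch).1 sh hsh) t1
    (ht _ (List.mem_cons_of_mem _ (List.mem_of_head? hsh)))
  have hrot : s1 :: ρ ~r ρ ++ [s1] := List.isRotated_append (l := [s1])
  obtain ⟨j, e3, e4⟩ := rp_tags
    ((List.isChain_append.1 (red _ (hw.rot hrot).cMin).ch).2.2 sl hsl s1 rfl)
    (ht _ (List.mem_cons_of_mem _ (List.mem_of_getLast? hsl))) t1
  obtain rfl : i = !j := by simpa [e1] using e4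
  obtain ⟨t, y⟩ := s1
  obtain rfl : t = _ := e1
  obtain ⟨o1, oρ⟩ := Cv.wd_cons.1 hw.1
  obtain ⟨m, hm, m', hm', n1, n2⟩ := hF.n2 (!j) _ (C.le _ o1.1 _ o1.2)
    (fun h => by simpa using hw.cMin.nz _ List.mem_cons_self h)
    (not_expT hF (hw.cMin.sub (single_sub List.mem_cons_self)))
  obtain ⟨σ, σ1, rfl⟩ := Cv.lift_base (C := C) hm
  obtain ⟨σ', σ2, rfl⟩ := Cv.lift_base (C := C) hm'
  have o2 : C.ok (.inl (some (!j)), σ * y * σ') :=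
    o1.mk' (mul_mem (mul_mem (Cv.base_le o1.1 σ1) o1.2) (Cv.base_le o1.1 σ2))
  obtain ⟨ρ0, a1, a2, a3⟩ := modL oρ hne' tρ (inv_mem σ2)
  obtain ⟨ρ1, b1, b2, b3⟩ := modR a2 (a1 ▸ hne') (a1 ▸ tρ) (inv_mem σ1)
  have hσ : σ⁻¹ ∈ C.PP := inv_mem (Cv.ok_base σ1).mem_PP
  have cyc : ∀ v : List (Tg Γ a × G), v.map Prod.fst = ρ1.map Prod.fst → C.Wd v → vl v = vl ρ1 →
      C.CycMin ((.inl (some (!j)), σ * y * σ') :: v) ∧
      vl ((.inl (some (!j)), σ * y * σ') :: v) = σ⁻¹⁻¹ * vl ((.inl (some (!j)), y) :: ρ) * σ⁻¹ :=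
    fun v k1 k2 k3 => by
      have e : vl ((.inl (some (!j)), σ * y * σ') :: v) =
          σ⁻¹⁻¹ * vl ((.inl (some (!j)), y) :: ρ) * σ⁻¹ := by
        rw [vl_cons, vl_cons, k3, b3, a3]
        group
      exact ⟨hw.of_eq (Cv.wd_cons.2 ⟨o2, k2⟩) (ct_tags (by simp [k1, b1, a1])).le hσ e, e⟩
  obtain ⟨ρ2, c1, c2, c3, c4⟩ := hC_NORMW Γ a F hF G C ρ1
    (red _ ((cyc ρ1 rfl b2 rfl).1.cMin.sub (List.suffix_cons _ _).isInfix))
  obtain ⟨d1, d2⟩ := cyc ρ2 c1 c2 c3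
  have tg : ρ2.map Prod.fst = ρ.map Prod.fst := c1.trans (b1.trans a1)
  have nz : ∀ s ∈ ρ2, ∀ k, s.1 = .inl (some k) → C.π s.2 ∉ XF F none := fun s hs k e h => by
    simpa [e] using d1.cMin.nz s (List.mem_cons_of_mem _ hs) h
  rw [← map_mul, ← map_mul] at n1 n2
  have ch : C.PCh ((.inl (some (!j)), σ * y * σ') :: ρ2) := by
    refine List.isChain_cons.2 ⟨fun s hs => ?_, c4⟩
    have e : s.1 = .inl (some (!!j)) := by
      have := congrArg List.head? tg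
      rw [List.head?_map, List.head?_map, hsh, Option.mem_def.1 hs] at this
      exact (Option.some.inj this).trans e2
    have k := nz s (List.mem_of_head? hs) _ e
    obtain ⟨t, z⟩ := s
    obtain rfl : t = _ := e
    exact ⟨_, rfl, rfl, .inl ⟨n1, k⟩⟩
  refine ⟨_, by simp [tg], d1.1, List.isChain_append.2 ⟨ch, ch, fun s hs s' hs' => ?_⟩, _, hσ, d2⟩
  obtain rfl : (Sum.inl (some (!j)), σ * y * σ') = s' := by simpa using hs'
  have hne2 : ρ2 ≠ [] := by rintro rfl; exact hne' tg.symm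
  rw [List.getLast?_cons_of_ne_nil hne2] at hs
  have e : s.1 = .inl (some j) := by
    have := congrArg List.getLast? tg
    rw [List.getLast?_map, List.getLast?_map, hsl, Option.mem_def.1 hs] at this
    exact (Option.some.inj this).trans e3
  have k := nz s (List.mem_of_getLast? hs) _ e
  obtain ⟨t, z⟩ := s
  obtain rfl : t = _ := e
  rw [Bool.not_not] at n2
  exact ⟨j, rfl, rfl, .inr ⟨n2, k⟩⟩

end Pool.Agent.P.MP_dba3d2_lc
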