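import Pool.Agent.P.MP_dba3d2_lc.C.IfaceT
import Pool.Agent.P.MP_dba3d2_lc.A.Iface
import Pool.Agent.P.MP_dba3d2_lc.C.LTb

/-! Step C_DISP of the stability project. -/

namespace Pool.Agent.P.MP_dba3d2_lc

open Filter

namespace C_dispA

variable {Γ : HG} {a : Amb} {b c : MM Γ a} {k : a.Z}

theorem key (hE : S_ELEM) (hL : S_LINE) (hb : Prim b) (hc : c ∈ Ep b)
    (hk : IsOfFinOrder (c⁻¹ * ipow b k)) : Ls (md (ipow b k)) (md c) := by
  by_cases h0 : k = 0
  · subst h0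
    rw [ipow_zero]
    exact Ls.of_le ((md_le_ln _).trans (by simpa using md_nonneg c))
  · have h1 := md_pow_ls hE hL (ipow_inf hE hb.1 h0) (ee_ne_zero Γ)
    rw [← pow_sq_eq hE hb.1 hc (ipow_mem_Ep b k) hk] at h1
    exact h1.trans' ⟨_, md_pow_le c _⟩

end C_dispA

open C_dispA in
theorem p_C_DISP (hELEM : S_ELEM) (hLINE : S_LINE) :
    S_C_DISP := by
  intro Γ a b c hb hc
  obtain ⟨k, hk⟩ := hb.2 c hc
  have k0 := key hELEM hLINE hb hc hk
  have b1 := one_le_md' hb.1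
  refine ⟨fun x => ?_, fun h => ?_, fun h => ?_⟩
  · obtain ⟨z, hz, hx⟩ := exists_centre hLINE hb.1 x
    obtain ⟨⟨L, -, hL⟩, -, h3⟩ := hLINE Γ a b z hb.1 (Ls.of_le hz.le)
    obtain ⟨-, l2, l3⟩ := hL k
    have t : (c⁻¹ * ipow b k)⁻¹ ∈ Ep b := inv_mem (mul_mem (inv_mem hc) (ipow_mem_Ep b k))
    have l4 := h3 _ t hk.inv
    have e : c = ipow b k * (c⁻¹ * ipow b k)⁻¹ := by group
    have d1 := disp_le c x z
    have d2 := disp_mul (ipow b k) (c⁻¹ * ipow b k)⁻¹ z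
    rw [← e] at d2
    have n1 := md_nonneg c
    have n2 := ds_nonneg x (b * x)
    have n3 := md_le_ds b x
    have u1 : Ls (ds x z) (md c + ds x (b * x)) := hx.mono_right (by linarith)
    have u2 : Ls (md b) (md c + ds x (b * x)) := Ls.of_le (by linarith)
    have u3 : Ls (md (ipow b k)) (md c + ds x (b * x)) := k0.mono_right (by linarith)
    exact Ls.mono_left (by linarith)
      (((u1.two.add (l2.trans' u2)).add u3).add (l4.trans' u2))
  · obtain ⟨z, hz⟩ := exists_md_ds b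
    obtain ⟨L, hL1, hL⟩ := (hLINE Γ a b z hb.1 (Ls.of_le hz.le)).1
    have L0 : 0 < L := hL1.2.pos (by linarith)
    obtain ⟨n, hn⟩ := Ls.mono_left (hL k).2.2 ((k0.trans' h).trans' hL1.2)
    have hn' : |zK k| ≤ n := le_of_mul_le_mul_right hn L0
    obtain ⟨m, rfl⟩ := exists_int_of_not_big (k := k)
      (not_big_of_ls (Ls.of_le hn') (not_big_nat n))
    exact ⟨m, by rwa [ipow_intCast] at hk⟩
  · have hB : Big (md c) := big_iff_ll.2 (Ll.mono_left b1 h)
    have hi : ¬ IsOfFinOrder c := fun ho => by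
      obtain ⟨z, hz⟩ := exists_md_ds b
      have := (hLINE Γ a b z hb.1 (Ls.of_le hz.le)).2.2 c hc ho
      exact h.not_ls hB.pos (Ls.mono_left (md_le_ds c z) this)
    refine ⟨hi, hB, fun hcen => ?_⟩
    have hμ : Big (ln c) := hB.of_ls (Ls.of_le (md_le_ln c))
    obtain ⟨z, hz, h1⟩ := exists_centre hLINE hb.1 1
    have h2 := hb.disp hELEM hLINE hc hi 1
    rw [ds_one_mul c] at h2
    have h3 : Ls (ds 1 z) (ln c) := h1.trans' h2
    obtain ⟨N, -, hN⟩ := pow_long hLINE hi (D := 2 * ds 1 z + ln c + ln c)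
      (((h3.two.add (Ls.refl' _)).add (Ls.refl' _)).trans' hcen)
    have h4 := (hN N le_rfl).trans (md_le_ln _)
    obtain ⟨p, q, ho, -⟩ := exists_ov hμ (x := 1) (y := c ^ N) (x' := z) (y' := c ^ N * z)
      (D := ds 1 z) (T := ln c) le_rfl (by rw [ds_mul_right, ds_one_left]) le_rfl
      (by rwa [ds_one_left (c ^ N)])
    have hm : Ll (md b) (ln c) := h.mono_right (md_le_ln c)
    have f1 : Ll (ds z (b * z)) (ln c) := hz ▸ hm
    have f2 : Ll (ds (c ^ N * z) (b * (c ^ N * z))) (ln c) := by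
      rw [← disp_conj']
      exact (hb.conj' (c ^ N)).fix hELEM hLINE hb.1 (Ep_conj_mem' (pow_mem hc N)) f1
    exact ⟨N, p, q, ho.1, ho.2.1, ho.2.2.1, Stab.sub hμ ⟨f1, f2⟩ ho.2.2.2.1 ho.2.2.2.2⟩

end Pool.Agent.P.MP_dba3d2_lc
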