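import Pool.Agent.P.MP_dba3d2_lc.C.IfaceT2
import Pool.Agent.P.MP_dba3d2_lc.B.Iface
import Pool.Agent.P.MP_dba3d2_lc.C.IfaceT
import Pool.Agent.P.MP_dba3d2_lc.C.TTb

/-! Step C_E12 of the stability project. -/

namespace Pool.Agent.P.MP_dba3d2_lc

open Filter

theorem p_C_E12 (hROOT : S_ROOT) (hC_EMEM : S_C_EMEM) (hC_T : S_C_T) :
    S_C_E12 := by
  intro Γ a F hF
  refine ⟨fun c hc hp f hf he => ?_, fun i c hc hp hn f hf he => ?_⟩
  · rcases hC_T Γ a F hF f hf none none c hc c hc hp hp (Cj.of_mem he) with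
      ⟨c0, -, -, -, e, h4, g, h5, g', h6, h7, h8, -⟩ | ⟨i, h1, -⟩
    · have k1 : g * e * g⁻¹ ∈ EF F c := EF_conj h5 h8 h4
      have k2 : g * g'⁻¹ = (g * e * g⁻¹)⁻¹ * f := by rw [h7]; group
      have k3 : g * g'⁻¹ ∈ EF F c := mem_EF' none (mul_mem h5 (inv_mem h6))
        (k2 ▸ mul_mem (inv_mem (EF_le_Ep k1)) he)
      have k4 : f = g * e * g⁻¹ * (g * g'⁻¹) := by rw [h7]; group
      exact k4 ▸ mul_mem k1 k3
    · cases h1
  · rcases hC_T Γ a F hF f hf (some i) (some i) c hc c hc hp hp (Cj.of_mem he) with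
      ⟨c0, h1, h2, -, e, -, g, h5, g', -, -, h8, -⟩ | ⟨j, h1, -, h3⟩
    · exact absurd (M_le_F (!i) (hF.root4 hROOT h1 h2.1 (hp.conj' g) h8.ep)) (hn g h5)
    · cases h1
      exact h3

end Pool.Agent.P.MP_dba3d2_lc
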