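import Pool.Agent.P.MP_dba3d2_lc.C.IfaceT
import Pool.Agent.P.MP_dba3d2_lc.A.Iface
import Pool.Agent.P.MP_dba3d2_lc.B.Iface
import Pool.Agent.P.MP_dba3d2_lc.C.TTb

/-! Step C_EMEM of the stability project. -/

namespace Pool.Agent.P.MP_dba3d2_lc

open Filter

namespace C_ememA

/-- products of two subgroups whose commutators lie in both -/
theorem prod_mem {G : Type} [Group G] {A B : Subgroup G}
    (h : ∀ x ∈ A, ∀ y ∈ B, y⁻¹ * x⁻¹ * y * x ∈ B) {e : G} (he : e ∈ A ⊔ B) :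
    ∃ x ∈ A, ∃ y ∈ B, e = x * y := by
  let P : Subgroup G :=
    { carrier := {e | ∃ x ∈ A, ∃ y ∈ B, e = x * y}
      one_mem' := ⟨1, A.one_mem, 1, B.one_mem, by simp⟩
      mul_mem' := by
        rintro _ _ ⟨x, hx, y, hy, rfl⟩ ⟨x', hx', y', hy', rfl⟩
        exact ⟨x * x', A.mul_mem hx hx', y * (y⁻¹ * x'⁻¹ * y * x') * y',
          B.mul_mem (B.mul_mem hy (h x' hx' y hy)) hy', by group⟩
      inv_mem' := by
        rintro _ ⟨x, hx, y, hy, rfl⟩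
        exact ⟨x⁻¹, A.inv_mem hx, y⁻¹ * (y⁻¹⁻¹ * x⁻¹⁻¹ * y⁻¹ * x⁻¹),
          B.mul_mem (B.inv_mem hy) (h _ (A.inv_mem hx) _ (B.inv_mem hy)), by group⟩ }
  have k : A ⊔ B ≤ P := sup_le (fun x hx => ⟨x, hx, 1, B.one_mem, by simp⟩)
    fun y hy => ⟨1, A.one_mem, y, hy, by simp⟩
  exact k he

end C_ememA

theorem p_C_EMEM (hELEM : S_ELEM) (hROOT : S_ROOT) :
    S_C_EMEM := by
  intro Γ a F hF c hc h0 i e he
  have he' : e ∈ (F i ⊓ Ep c) ⊔ (F (!i) ⊓ Ep c) := by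
    cases i
    · exact he
    · rw [sup_comm]; exact he
  obtain ⟨x, hx, y, hy, rfl⟩ := C_ememA.prod_mem (fun x hx y hy => by
    have t1 : y⁻¹ * x⁻¹ * y * x ∈ Ep c :=
      mul_mem (mul_mem (mul_mem (inv_mem hy.2) (inv_mem hx.2)) hy.2) hx.2
    have t2 := (hELEM Γ a c h0).2.2.2.2.2.2.2.2.1 _ (inv_mem hy.2) _ (inv_mem hx.2)
    rw [inv_inv, inv_inv] at t2
    have hc' : c ∈ F (!i) := by
      cases i
      exacts [hc.2, hc.1]
    exact ⟨(hROOT Γ a _ (hF.gc (!i))).2.2.1 c hc' h0 _ t1 t2, t1⟩) he'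
  exact ⟨x, hx.1, y, hy.1, hx.2, hy.2, rfl⟩

end Pool.Agent.P.MP_dba3d2_lc
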