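import Pool.Agent.P.MP_dba3d2_lc.C.IfaceT2
import Pool.Agent.P.MP_dba3d2_lc.A.Iface
import Pool.Agent.P.MP_dba3d2_lc.B.Iface
import Pool.Agent.P.MP_dba3d2_lc.C.IfaceT
import Pool.Agent.P.MP_dba3d2_lc.C.TTb

/-! Step C_EXT0 of the stability project. -/

namespace Pool.Agent.P.MP_dba3d2_lc

open Filter

namespace C_ext0A

variable {Γ : HG} {a : Amb} {F : Bool → Subgroup (MM Γ a)} {b b' y m : MM Γ a}
  {s s' : Tg Γ a × MM Γ a} {e e' : Option (Tg Γ a × MM Γ a)} {i : Bool}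

theorem mkXW (h1 : ∀ s ∈ e, EndL F b s ∧ NE b s.2⁻¹)
    (h2 : ∀ s ∈ e', EndL F b' (sinv s) ∧ NE b' s.2) (h3 : ∀ s ∈ e, ∀ s' ∈ e', Pair F s s') :
    XW F b b' e [] e' := by
  refine ⟨h1, h2, Cv.good_of Cv.cMin_nil (Cv.wd_xw (fun s k => (h1 s k).1.ok) Cv.wd_nil
    fun s k => by simpa using (h2 s k).1.ok.inv) ?_ fun _ _ _ _ => Cv.he_nil,
    fun _ k => by cases k⟩
  cases e <;> cases e' <;> simp_all [Cv.PCh]

theorem norm1 (hN : S_NORM) (h : TwoF F) (hb : b ∈ F i) (p : Prim b) (c : Cen b) (hy : y ∈ F i) :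
    ∃ f ∈ F i, f ∈ Ep b ∧ NE b (f * y)⁻¹ := by
  obtain ⟨f, f1, f2, -, f3⟩ := (hN Γ a _ (h.gc i)).1 b hb p c y⁻¹ (inv_mem hy)
  exact ⟨f⁻¹, inv_mem f1, inv_mem f2, by simpa using f3⟩

theorem one_end (hN : S_NORM) (h : TwoF F) (k : EndL F b s) : ∃ y, EndL F b (s.1, y) ∧ NE b y⁻¹ ∧
    ∃ f ∈ LF F s.1, f ∈ Ep b ∧ y = f * s.2 := by
  rcases k.cases with ⟨rfl, -⟩ | ⟨i, y, rfl, k1, k2⟩
  · exact ⟨1, k, by simpa using ne_one b, 1, one_mem _, one_mem _, by simp⟩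
  · obtain ⟨f, f1, f2, f3⟩ := norm1 hN h k2 k.axis.2.1 k.axis.2.2 k1
    exact ⟨_, ⟨k.1, mul_mem f1 k1, k.2.2⟩, f3, f, f1, f2, rfl⟩

theorem ne_base (hE : S_ELEM) (hP : S_PERC) (hR : S_ROOT) (h : TwoF F) (p : Prim b) (c : Cen b)
    (hb : b ∉ XF F none) (hm : m ∈ XF F none) : NE b (b * m)⁻¹ := by
  rintro hν hl ⟨q, q1, q2, q3⟩
  have l := c.ll hl
  rw [inv_inv] at q2
  refine hb (h.gcm.per_mem hE hP hR hν (one_mem _) hm ?_ (by simpa using q1)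
    (on_left hν.pos.le _ _) ?_ p q3)
  · refine Ls.mono_left ?_ (l.ls.add (Ls.refl' _))
    rw [ln_inv]
    simpa using ln_mul_le b⁻¹ (b * m)
  · refine (q2.mul b⁻¹).congr (FixA.ll_comm (fix_inv q3.2)) (by simpa [ds] using l) ?_
    rw [inv_mul_cancel_left]
    exact FixA.ll_self hν.pos.le _

theorem norm2 (hE : S_ELEM) (hP : S_PERC) (hR : S_ROOT) (hN : S_NORM) (h : TwoF F)
    (t : Typ F (some i) b) (hy : y ∈ F i) :
    ∃ f ∈ F i, f ∈ Ep b ∧ NE b (f * y)⁻¹ ∧ f * y ∉ XF F none := by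
  obtain ⟨f, f1, f2, f3⟩ := norm1 hN h t.1 t.2.1 t.2.2.1 hy
  by_cases k : f * y ∈ XF F none
  · have hb : b ∉ XF F none := by simpa using t.2.2.2 (by simp) 1 (one_mem _)
    refine ⟨b * f, mul_mem t.1 f1, mul_mem (self_mem_Ep b) f2, ?_, ?_⟩ <;> rw [mul_assoc]
    · exact ne_base hE hP hR h t.2.1 t.2.2.1 hb k
    · rwa [mul_mem_cancel_right k]
  · exact ⟨f, f1, f2, f3, k⟩

/-- the conclusion for two ends -/
def Co (F : Bool → Subgroup (MM Γ a)) (b b' : MM Γ a) (s s' : Tg Γ a × MM Γ a) : Prop :=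
  ∃ y y', (EndL F b (s.1, y) ∧ NE b y⁻¹) ∧ (EndL F b' (s'.1, y'⁻¹) ∧ NE b' y') ∧
    Pair F (s.1, y) (s'.1, y') ∧ ∃ f ∈ LF F s.1, ∃ f' ∈ LF F s'.1, f ∈ Ep b ∧ f' ∈ Ep b' ∧
      y * y' = f * (s.2 * s'.2) * f'

theorem Co.symm (h : Co F b' b (sinv s') (sinv s)) : Co F b b' s s' := by
  obtain ⟨y, y', h1, h2, h3, f, f1, f', f2, f3, f4, e⟩ := h
  refine ⟨y'⁻¹, y⁻¹, by simpa using h2, by simpa using h1, h3.inv, f'⁻¹, inv_mem f2, f⁻¹,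
    inv_mem f1, inv_mem f4, inv_mem f3, ?_⟩
  rw [← mul_inv_rev, e]
  simp [mul_assoc]

theorem co_ef (hN : S_NORM) (h : TwoF F) (k : EndL F b (.inr b, 1))
    (k' : EndL F b' (.inl (some i), y⁻¹)) (n : ¬ Cj y b' b) :
    Co F b b' (.inr b, 1) (.inl (some i), y) := by
  have hy : y ∈ F i := inv_mem_iff.1 k'.2.1
  obtain ⟨f, f1, f', f2, f3, f4, f5, f6, -⟩ := (hN Γ a _ (h.gc i)).2 b (M_le_F i k.2.1) b' k'.2.2.1
    k.axis.2.1 k'.axis.2.1 k.axis.2.2 k'.axis.2.2 y hy n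
  exact ⟨1, f * y * f', ⟨k, by simpa using ne_one b⟩,
    ⟨⟨k'.1, inv_mem (mul_mem (mul_mem f1 hy) f2), k'.2.2⟩, f6⟩, f5, f, mem_EF i f1 f3, f', f2,
    f3, f4, by simp⟩

end C_ext0A

open C_ext0A in
theorem p_C_EXT0 (hELEM : S_ELEM) (hPERC : S_PERC) (hROOT : S_ROOT) (hNORM : S_NORM) (hC_PRE : S_C_PRE) :
    S_C_EXT0 := by
  intro Γ a F h b b' e e' h1 h2 h3
  rcases e with _ | s <;> rcases e' with _ | s'
  · exact ⟨none, none, rfl, rfl, mkXW (by simp) (by simp) (by simp), 1, one_mem _, 1, one_mem _,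
      one_mem _, one_mem _, by simp⟩
  · obtain ⟨y, k1, k2, f, f1, f2, rfl⟩ := one_end hNORM h (h2 s' rfl).1
    exact ⟨none, some (s'.1, s'.2 * f⁻¹), rfl, rfl,
      mkXW (by simp) (by simpa [sinv] using And.intro k1 k2) (by simp), 1, one_mem _, f⁻¹, inv_mem f1,
      one_mem _, inv_mem f2, by simp⟩
  · obtain ⟨y, k1, k2, f, f1, f2, rfl⟩ := one_end hNORM h (h1 s rfl).1
    exact ⟨some (s.1, f * s.2), none, rfl, rfl,
      mkXW (by simpa using ⟨k1, by simpa using k2⟩) (by simp) (by simp), f, f1, 1, one_mem _,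
      f2, one_mem _, by simp⟩
  obtain ⟨k, t⟩ := h1 s rfl
  obtain ⟨k', t'⟩ := h2 s' rfl
  obtain ⟨n, d⟩ := h3 s rfl s' rfl
  suffices H : Co F b b' s s' by
    obtain ⟨y, y', a1, a2, a3, f, f1, f', f2, f3, f4, e⟩ := H
    exact ⟨some (s.1, y), some (s'.1, y'), rfl, rfl, mkXW (by simpa using a1)
      (by simpa [sinv] using a2) (by simpa using a3), f, f1, f', f2, f3, f4, by simpa using e⟩
  obtain ⟨s', rfl⟩ : ∃ r, s' = sinv r := ⟨sinv s', sinv_sinv.symm⟩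
  rw [sinv_sinv] at k'
  rcases k.cases with ⟨rfl, -⟩ | ⟨i, y, rfl, y1, b1⟩ <;>
    rcases k'.cases with ⟨rfl, -⟩ | ⟨j, y', rfl, y2, b2⟩
  · exact ⟨1, 1, ⟨k, by simpa using ne_one b⟩, ⟨by simpa using k', ne_one b'⟩,
      fun e => n (by simpa using Cj.one_iff.2 e.symm), 1, one_mem _, 1, one_mem _, one_mem _,
      one_mem _, by simp⟩
  · exact co_ef hNORM h k (by simpa using k') (by simpa using n)
  · refine Co.symm ?_
    rw [sinv_sinv]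
    exact co_ef hNORM h k' (by simpa using k) fun e => n (by simpa using e.inv)
  obtain rfl : j = !i := Bool.eq_not.2 fun e => d _ rfl (by simp [e])
  obtain ⟨f, f1, f2, g, g1, g2, g3, g4⟩ := hC_PRE Γ a F h i b y (.inl (some (!i))) b1 t.2.1
    t.2.2.1 y1 (t.2.2.2 (by simp) y y1) (.inl rfl)
  obtain ⟨f', p1, p2, p3⟩ := norm1 hNORM h b2 t'.2.1 t'.2.2.1 (mul_mem y2 g2)
  have m1 := mul_mem (mul_mem f1 y1) g1
  by_cases q : (f' * (y' * g))⁻¹ ∈ XF F none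
  · have m2 := mul_mem m1 (M_le_F i q)
    obtain ⟨f3, r1, r2, r3, r4⟩ := norm2 hELEM hPERC hROOT hNORM h t m2
    exact ⟨_, 1, ⟨⟨k.1, mul_mem r1 m2, k.2.2⟩, r3⟩, ⟨⟨k'.1, inv_mem (one_mem _), k'.2.2⟩, ne_one b'⟩,
      ⟨i, rfl, rfl, .inr ⟨fun _ _ _ e => absurd e.pos (by simp), r4⟩⟩, f3 * f, mul_mem r1 f1,
      f'⁻¹, inv_mem p1, mul_mem r2 f2, inv_mem p2, by simp [mul_assoc]⟩
  · exact ⟨_, _, ⟨⟨k.1, m1, k.2.2⟩, g3⟩,
      ⟨⟨k'.1, inv_mem (inv_mem (mul_mem p1 (mul_mem y2 g2))), k'.2.2⟩, p3⟩, g4 _ fun _ => q,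
      f, f1, f'⁻¹, inv_mem p1, f2, inv_mem p2, by simp [mul_assoc]⟩

end Pool.Agent.P.MP_dba3d2_lc
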