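import Pool.Agent.P.MP_dba3d2_lc.C.DefsT

/-! Interface, chapter C1: the word calculus for two factors. -/

namespace Pool.Agent.P.MP_dba3d2_lc

open Filter

-- deps: ROOT
-- imports: Pool.Agent.P.MP_dba3d2_lc.C.TTb
def S_C_RED : Prop := ∀ (Γ : HG) (a : Amb) (F : Bool → Subgroup (MM Γ a)), TwoF F →
  ∀ (G : Type) [Group G] (C : Cv F G) (e e' : Option (Tg Γ a × G)) (u : List (Tg Γ a × G)),
    (∀ s ∈ e, C.ok s ∧ ∃ c, s.1 = .inr c) → (∀ s ∈ e', C.ok s ∧ ∃ c, s.1 = .inr c) →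
    C.CMin (C.LO e) (C.LO e') u →
    (∀ s ∈ e, ∀ s' ∈ e', C.HE s u s' ∧ (u = [] → RP F (C.pr s) (C.pr s'))) → C.Red (xw e u e')

-- deps: ROOT NORM
-- imports: Pool.Agent.P.MP_dba3d2_lc.C.TTb
def S_C_NORMW : Prop := ∀ (Γ : HG) (a : Amb) (F : Bool → Subgroup (MM Γ a)), TwoF F →
  ∀ (G : Type) [Group G] (C : Cv F G) (w : List (Tg Γ a × G)), C.Red w →
    ∃ w', w'.map Prod.fst = w.map Prod.fst ∧ C.Wd w' ∧ vl w' = vl w ∧ C.PCh w'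

-- deps: C_RED C_NORMW
-- imports: Pool.Agent.P.MP_dba3d2_lc.C.TTb
def S_C_EXTM : Prop := ∀ (Γ : HG) (a : Amb) (F : Bool → Subgroup (MM Γ a)), TwoF F →
  ∀ (G : Type) [Group G] (C : Cv F G) (e e' : Option (Tg Γ a × G)) (u : List (Tg Γ a × G)),
    (∀ s ∈ e, C.ok s ∧ ∃ c, s.1 = .inr c) → (∀ s ∈ e', C.ok s ∧ ∃ c, s.1 = .inr c) →
    C.CMin (C.LO e) (C.LO e') u →
    (∀ s ∈ e, ∀ s' ∈ e', C.HE s u s' ∧ (u = [] → RP F (C.pr s) (C.pr s'))) →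
    ∃ u', u'.map Prod.fst = u.map Prod.fst ∧ C.Wd u' ∧ C.PCh (xw e u' e') ∧
      ∃ x ∈ C.LO e, ∃ y ∈ C.LO e', vl u' = x * vl u * y

-- deps: C_RED C_NORMW
-- imports: Pool.Agent.P.MP_dba3d2_lc.C.TTb
def S_C_CYP : Prop := ∀ (Γ : HG) (a : Amb) (F : Bool → Subgroup (MM Γ a)), TwoF F →
  ∀ (G : Type) [Group G] (C : Cv F G) (w : List (Tg Γ a × G)), C.CycMin w → 2 ≤ w.length →
    (∀ s ∈ w, ∃ o, s.1 = .inl o) → ∃ w', w'.map Prod.fst = w.map Prod.fst ∧ C.Wd w' ∧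
      C.PCh (w' ++ w') ∧ ∃ g ∈ C.PP, vl w' = g⁻¹ * vl w * g

-- deps: C_EXTM C_CYP
-- imports: Pool.Agent.P.MP_dba3d2_lc.C.TTb
def S_C_CYCG : Prop := ∀ (Γ : HG) (a : Amb) (F : Bool → Subgroup (MM Γ a)), TwoF F →
  ∀ (G : Type) [Group G] (C : Cv F G) (w : List (Tg Γ a × G)), C.Wd w →
    ∃ w', C.Wd w' ∧ C.Nz w' ∧ ct w' ≤ ct w ∧ (∃ g ∈ C.PP, vl w' = g⁻¹ * vl w * g) ∧
      (w'.length ≤ 1 ∨ C.Exc w' ∨ C.CG w')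

-- deps: C_EMEM C_J0
-- imports: Pool.Agent.P.MP_dba3d2_lc.C.TTb
def S_C_JLONG : Prop := ∀ (Γ : HG) (a : Amb) (F : Bool → Subgroup (MM Γ a)), TwoF F →
  ∀ (G : Type) [Group G] (C : Cv F G) (ν : a.K) (s : Tg Γ a × G) (z : List (Tg Γ a × G))
    (s' : Tg Γ a × G), Big ν → C.ok s → C.ok s' → C.CMin (C.L s.1) (C.L s'.1) z →
    C.Lift s.1 z s'.1 → TC F (bt s.1) (bt s'.1) (C.π (vl z)) →
    Ovp F ν (C.pr s) (C.π (vl z)) (C.pr s') → Short s.1 z s'.1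

-- deps: C_EMEM C_J0 C_JS0 C_JS2
-- imports: Pool.Agent.P.MP_dba3d2_lc.C.TTb
def S_C_JSHORT : Prop := ∀ (Γ : HG) (a : Amb) (F : Bool → Subgroup (MM Γ a)), TwoF F →
  ∀ (G : Type) [Group G] (C : Cv F G) (ν : a.K) (s : Tg Γ a × G) (z : List (Tg Γ a × G))
    (s' : Tg Γ a × G), Big ν → C.JOK s z s' → Short s.1 z s'.1 →
    ¬ Ovp F ν (C.pr s) (C.π (vl z)) (C.pr s')

-- deps: C_PATH C_ARC
-- imports: Pool.Agent.P.MP_dba3d2_lc.C.TTb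
def S_C_PATHW : Prop := ∀ (Γ : HG) (a : Amb) (F : Bool → Subgroup (MM Γ a)), TwoF F →
  ∀ (G : Type) [Group G] (C : Cv F G) (ν : a.K) (w : List (Tg Γ a × G)), Big ν → C.Wd w →
    C.NzE w → Ls (C.sl w) ν → ¬ Geo ν (C.vs w) →
    ∃ (A : List (Tg Γ a × G)) (s : Tg Γ a × G) (z : List (Tg Γ a × G)) (s' : Tg Γ a × G)
      (B : List (Tg Γ a × G)), w = A ++ s :: z ++ s' :: B ∧ Ls ν (ln (C.π s.2)) ∧
      Ls ν (ln (C.π s'.2)) ∧ Ll (C.sl z) ν ∧ Ovp F ν (C.pr s) (C.π (vl z)) (C.pr s')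

-- deps: C_T C_CYCG C_JLONG C_JSHORT C_PATHW
-- imports: Pool.Agent.P.MP_dba3d2_lc.C.TTb
def S_C_INJ : Prop := ∀ (Γ : HG) (a : Amb) (F : Bool → Subgroup (MM Γ a)), TwoF F →
  ∀ (G : Type) [Group G] (C : Cv F G), ∀ g ∈ C.PP, C.π g = 1 → g = 1

-- deps: ROOT C_EXTM C_PRE
-- imports: Pool.Agent.P.MP_dba3d2_lc.C.TTb
def S_C_EXTN : Prop := ∀ (Γ : HG) (a : Amb) (F : Bool → Subgroup (MM Γ a)), TwoF F →
  ∀ (b b' : MM Γ a) (e e' : Option (Tg Γ a × MM Γ a)) (u : List (Tg Γ a × MM Γ a)),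
    (∀ s ∈ e, EndL F b s ∧ Far F b s) → (∀ s ∈ e', EndL F b' (sinv s) ∧ Far F b' (sinv s)) →
    (idC F).CMin ((idC F).LO e) ((idC F).LO e') u → u ≠ [] →
    (∀ s ∈ e, ∀ s' ∈ e', (idC F).HE s u s') →
    ∃ e1 u1 e1', e1.map Prod.fst = e.map Prod.fst ∧ u1.map Prod.fst = u.map Prod.fst ∧
      e1'.map Prod.fst = e'.map Prod.fst ∧ XW F b b' e1 u1 e1' ∧
      ∃ f ∈ (idC F).LO e, ∃ f' ∈ (idC F).LO e', f ∈ Ep b ∧ f' ∈ Ep b' ∧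
        vl (xw e1 u1 e1') = f * vl (xw e u e') * f'

-- deps: ELEM PERC ROOT NORM C_PRE
-- imports: Pool.Agent.P.MP_dba3d2_lc.C.TTb
def S_C_EXT0 : Prop := ∀ (Γ : HG) (a : Amb) (F : Bool → Subgroup (MM Γ a)), TwoF F →
  ∀ (b b' : MM Γ a) (e e' : Option (Tg Γ a × MM Γ a)),
    (∀ s ∈ e, EndL F b s ∧ Typ F (bt s.1) b) → (∀ s ∈ e', EndL F b' (sinv s) ∧ Typ F (bt s.1) b') →
    (∀ s ∈ e, ∀ s' ∈ e', ¬ Cj (s.2 * s'.2) b' b ∧ ∀ o, s.1 = .inl o → s'.1 ≠ .inl o) →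
    ∃ e1 e1', e1.map Prod.fst = e.map Prod.fst ∧ e1'.map Prod.fst = e'.map Prod.fst ∧
      XW F b b' e1 [] e1' ∧ ∃ f ∈ (idC F).LO e, ∃ f' ∈ (idC F).LO e', f ∈ Ep b ∧ f' ∈ Ep b' ∧
        vl (xw e1 [] e1') = f * vl (xw e [] e') * f'

-- deps: C_FIRST C_ARC
-- imports: Pool.Agent.P.MP_dba3d2_lc.C.TTb
def S_C_LEFT : Prop := ∀ (Γ : HG) (a : Amb) (F : Bool → Subgroup (MM Γ a)), TwoF F →
  ∀ (ν : a.K) (b : MM Γ a) (s : Tg Γ a × MM Γ a) (v : List (Tg Γ a × MM Γ a)), Big ν →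
    EndL F b s → Far F b s → NE b s.2⁻¹ → (idC F).Wd (s :: v) → (idC F).NzE (s :: v) →
    Ls ((idC F).sl (s :: v)) ν → Geo ν ((idC F).vs (s :: v)) → Fol ν (vl (s :: v)) b →
    ∃ (z : List (Tg Γ a × MM Γ a)) (s' : Tg Γ a × MM Γ a) (B : List (Tg Γ a × MM Γ a)),
      v = z ++ s' :: B ∧ Ls ν (ln s'.2) ∧ Ovp F ν s (vl z) s'

-- deps: C_PROJ C_R2A C_TFF C_JLONG C_JSHORT C_PATHW
-- imports: Pool.Agent.P.MP_dba3d2_lc.C.TTb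
def S_C_TGEO : Prop := ∀ (Γ : HG) (a : Amb) (F : Bool → Subgroup (MM Γ a)), TwoF F →
  ∀ (n : ℕ) (ν : a.K) (b b' : MM Γ a) (s s' : Tg Γ a × MM Γ a) (u : List (Tg Γ a × MM Γ a)),
    (∀ z, (idC F).Wd z → ∀ o o', ct z + kx o + kx o' < n → TC F o o' (vl z)) →
    XW F b b' (some s) u (some s') → ct u + k0 s.1 + k0 s'.1 ≤ n →
    Cj (vl (s :: u ++ [s'])) b' b → Big ν → Ls ((idC F).sl (s :: u ++ [s'])) ν →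
    TC1 F (bt s.1) (bt s'.1) b b' (vl (s :: u ++ [s'])) ∨ Geo ν ((idC F).vs (s :: u ++ [s']))

-- deps: ELEM LINE C_ARC C_LEFT C_JLONG C_JSHORT
-- imports: Pool.Agent.P.MP_dba3d2_lc.C.TTb
def S_C_TEND : Prop := ∀ (Γ : HG) (a : Amb) (F : Bool → Subgroup (MM Γ a)), TwoF F →
  ∀ (n : ℕ) (ν : a.K) (b b' : MM Γ a) (s s' : Tg Γ a × MM Γ a) (u : List (Tg Γ a × MM Γ a)),
    (∀ z, (idC F).Wd z → ∀ o o', ct z + kx o + kx o' < n → TC F o o' (vl z)) →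
    XW F b b' (some s) u (some s') → Far F b s → ct u + k0 s.1 + k0 s'.1 ≤ n →
    Cj (vl (s :: u ++ [s'])) b' b → Big ν → Sim ((idC F).sl (s :: u ++ [s'])) ν →
    Ll (md b) ν → ¬ Geo ν ((idC F).vs (s :: u ++ [s']))

-- deps: ROOT C_TFF C_R2B C_EXTN C_TGEO C_TEND
-- imports: Pool.Agent.P.MP_dba3d2_lc.C.TTb
def S_C_TMID : Prop := ∀ (Γ : HG) (a : Amb) (F : Bool → Subgroup (MM Γ a)), TwoF F →
  ∀ (n : ℕ) (b b' : MM Γ a) (s s' : Tg Γ a × MM Γ a) (u : List (Tg Γ a × MM Γ a)),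
    (∀ z, (idC F).Wd z → ∀ o o', ct z + kx o + kx o' < n → TC F o o' (vl z)) →
    EndL F b s → EndL F b' (sinv s') → (idC F).CMin (LF F s.1) (LF F s'.1) u →
    ct u + k0 s.1 + k0 s'.1 ≤ n → Cj (vl (s :: u ++ [s'])) b' b →
    TC1 F (bt s.1) (bt s'.1) b b' (vl (s :: u ++ [s']))

-- deps: C_TMID
-- imports: Pool.Agent.P.MP_dba3d2_lc.C.TTb
def S_C_T : Prop := ∀ (Γ : HG) (a : Amb) (F : Bool → Subgroup (MM Γ a)), TwoF F →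
  ∀ w ∈ F false ⊔ F true, ∀ o o', TC F o o' w

-- deps: C_T C_JLONG C_JSHORT C_PATHW C_LEFT
-- imports: Pool.Agent.P.MP_dba3d2_lc.C.TTb
def S_C_GEOP : Prop := ∀ (Γ : HG) (a : Amb) (F : Bool → Subgroup (MM Γ a)), TwoF F →
  (∀ w, (idC F).Good w → (idC F).NzE w → Nice F w) ∧
  ∀ b s v, (idC F).Good (s :: v) → (idC F).NzE (s :: v) → EndL F b s → Far F b s → NE b s.2⁻¹ →
    NE b (vl (s :: v))⁻¹

-- deps: NORM C_EXTN C_EXT0 C_GEOP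
-- imports: Pool.Agent.P.MP_dba3d2_lc.C.TTb
def S_C_NFX : Prop := ∀ (Γ : HG) (a : Amb) (F : Bool → Subgroup (MM Γ a)), TwoF F →
  ∀ (b b' : MM Γ a) (e e' : Option (Tg Γ a × MM Γ a)) (u : List (Tg Γ a × MM Γ a)),
    (∀ s ∈ e, EndL F b s ∧ Typ F (bt s.1) b) → (∀ s ∈ e', EndL F b' (sinv s) ∧ Typ F (bt s.1) b') →
    (idC F).Wd u → (e ≠ none → e' ≠ none → ¬ Cj (vl (xw e u e')) b' b) →
    ∃ w f f', Nice F w ∧ ct w ≤ ct u + (e.elim 0 fun s => k0 s.1) + (e'.elim 0 fun s => k0 s.1) ∧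
      (∀ s ∈ e, SolL (bt s.1) w ∧ NE b (vl w)⁻¹) ∧ (∀ s ∈ e', SolL (bt s.1) (winv w) ∧ NE b' (vl w)) ∧
      f ∈ (idC F).LO e ∧ f' ∈ (idC F).LO e' ∧ f ∈ Ep b ∧ f' ∈ Ep b' ∧
      vl w = f * vl (xw e u e') * f'

-- deps: NORM C_NFX
-- imports: Pool.Agent.P.MP_dba3d2_lc.C.TTb
def S_C_NFE : Prop := ∀ (Γ : HG) (a : Amb) (F : Bool → Subgroup (MM Γ a)), TwoF F →
  (∀ h ∈ F false ⊔ F true, ∃ w, Nice F w ∧ vl w = h) ∧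
  (∀ o b, Typ F o b → ∀ h ∈ F false ⊔ F true, ∃ f ∈ F false ⊔ F true, f ∈ Ep b ∧ NE b (h * f)) ∧
  ∀ o b o' b' w, Typ F o b → Typ F o' b' → (idC F).Wd w → SolL o w → SolL o' (winv w) →
    ¬ Cj (vl w) b' b → ∃ w1, ∃ f ∈ F false ⊔ F true, ∃ f' ∈ F false ⊔ F true, Nice F w1 ∧
      ct w1 ≤ ct w ∧ SolL o w1 ∧ SolL o' (winv w1) ∧ f ∈ Ep b ∧ f' ∈ Ep b' ∧ NE b (vl w1)⁻¹ ∧
      NE b' (vl w1) ∧ vl w1 = f * vl w * f'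

-- deps: ELEM LINE PERC C_ARC C_REDX C_NFE
-- imports: Pool.Agent.P.MP_dba3d2_lc.C.TTb
def S_C_G20S : Prop := ∀ (Γ : HG) (a : Amb) (F : Bool → Subgroup (MM Γ a)), TwoF F →
  ∀ μ, Big μ → ∀ h ∈ F false ⊔ F true, Ls (ln h) μ → ∀ p q, Ls μ (ds p q) → On μ p 1 h →
    On μ q 1 h → Per μ p q →
    ∃ z ∈ F false ⊔ F true, ∃ o b, Typ F o b ∧ Stab μ p q (z * b * z⁻¹)

-- deps: ELEM ROOT C_REDX C_CYCG C_GEOP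
-- imports: Pool.Agent.P.MP_dba3d2_lc.C.TTb
def S_C_CYC : Prop := ∀ (Γ : HG) (a : Amb) (F : Bool → Subgroup (MM Γ a)), TwoF F →
  ∀ γ ∈ F false ⊔ F true, ¬ IsOfFinOrder γ → ∃ z ∈ F false ⊔ F true,
    (∃ o b, Typ F o b ∧ z⁻¹ * γ * z ∈ Ep b) ∨ Cen (z⁻¹ * γ * z)

-- deps: ELEM LINE PERC ROOT C_DISP C_G20S C_CYC
-- imports: Pool.Agent.P.MP_dba3d2_lc.C.TTb
def S_C_ANC : Prop := ∀ (Γ : HG) (a : Amb) (F : Bool → Subgroup (MM Γ a)), TwoF F →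
  PerRed (F false ⊔ F true) (F false) (F true) ∧
  ∀ γ ∈ F false ⊔ F true, ¬ IsOfFinOrder γ →
    ∃ z ∈ F false ⊔ F true, ∃ b, Anc F b ∧ Ep (z * b * z⁻¹) = Ep γ

-- deps: C_NFE
-- imports: Pool.Agent.P.MP_dba3d2_lc.C.TTb
def S_C_NA : Prop := ∀ (Γ : HG) (a : Amb) (F : Bool → Subgroup (MM Γ a)), TwoF F →
  (∀ b, Anc F b → ∀ h ∈ F false ⊔ F true, ∃ f ∈ F false ⊔ F true, f ∈ Ep b ∧ NE b (h * f)) ∧
  ∀ b b', Anc F b → Anc F b' → ∀ h ∈ F false ⊔ F true, ¬ Cj h b' b →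
    ∃ f ∈ F false ⊔ F true, ∃ f' ∈ F false ⊔ F true, f ∈ Ep b ∧ f' ∈ Ep b' ∧
      NE b (f * h * f')⁻¹ ∧ NE b' (f * h * f')

-- deps: ELEM LINE PERC C_PROJ C_BRIDGE C_DISP C_ANC C_NA
-- imports: Pool.Agent.P.MP_dba3d2_lc.C.TTb
def S_C_CEN : Prop := ∀ (Γ : HG) (a : Amb) (F : Bool → Subgroup (MM Γ a)), TwoF F →
  ∀ c ∈ F false ⊔ F true, ∀ c' ∈ F false ⊔ F true, ¬ IsOfFinOrder c → ¬ IsOfFinOrder c' →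
    ∃ p ∈ F false ⊔ F true, Ls (ln p) (ln c + ln c') ∧ ∀ q : MM Γ a,
      Ls (ln (p⁻¹ * c * p) + ln (p⁻¹ * c' * p)) (ln (q⁻¹ * c * q) + ln (q⁻¹ * c' * q))

-- deps: ELEM LINE C_PROJ C_ANC C_NA
-- imports: Pool.Agent.P.MP_dba3d2_lc.C.TTb
def S_C_EX : Prop := ∀ (Γ : HG) (a : Amb) (F : Bool → Subgroup (MM Γ a)), TwoF F →
  ∀ μ, Big μ → ∀ h ∈ F false ⊔ F true, Ls (ln h) μ → ∀ c ∈ F false ⊔ F true, Prim c →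
    Ls (ln c) μ → Ll (md c) μ →
    ∃ f ∈ F false ⊔ F true, f ∈ Ep c ∧ Ll (2 * ds f h - (ln c + ln (h⁻¹ * c * h))) μ

-- deps: ROOT C_EMEM C_T
-- imports: Pool.Agent.P.MP_dba3d2_lc.C.TTb
def S_C_E12 : Prop := ∀ (Γ : HG) (a : Amb) (F : Bool → Subgroup (MM Γ a)), TwoF F →
  (∀ c ∈ XF F none, Prim c → ∀ f ∈ F false ⊔ F true, f ∈ Ep c → f ∈ EF F c) ∧
  ∀ i, ∀ c ∈ F i, Prim c → (∀ g ∈ F i, g⁻¹ * c * g ∉ F (!i)) →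
    ∀ f ∈ F false ⊔ F true, f ∈ Ep c → f ∈ F i

-- deps: C_DISP C_PURE C_ANC C_E12
-- imports: Pool.Agent.P.MP_dba3d2_lc.C.TTb
def S_C_PUR : Prop := ∀ (Γ : HG) (a : Amb) (F : Bool → Subgroup (MM Γ a)), TwoF F →
  ∀ c ∈ F false ⊔ F true, Prim c → ∀ f ∈ F false ⊔ F true, f ∈ Ep c → ∀ n : ℕ, 0 < n →
    ∃ f' ∈ F false ⊔ F true, f' ∈ Ep c ∧ ∃ r : ℕ, IsOfFinOrder (f⁻¹ * (f' ^ n * c ^ r))

-- deps: ELEM LINE C_FIRST C_ARC C_J0 C_REDX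
-- imports: Pool.Agent.P.MP_dba3d2_lc.C.TTb
def S_C_RSTEP : Prop := ∀ (Γ : HG) (a : Amb) (F : Bool → Subgroup (MM Γ a)), TwoF F →
  ∀ (ν : a.K) o b o' d w w' f f', RI F o b o' d w w' f f' → Nice F w → Nice F w' →
    NE b (vl w)⁻¹ → Big ν → Sim (ln (vl w)) ν → Sim (ln (vl w')) ν → Ll (ln f) ν → Ll (ln f') ν →
    f ∈ F false ⊔ F true ∨
    (∃ o1 b1 w1 w1' f1, RI F o b o1 b1 w1 w1' f f1 ∧ ct w1 + ct w1' < ct w + ct w') ∨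
    (LastX F ν w ∧ LastX F ν w')

-- deps: ROOT C_PROJ C_TWOBR C_R2A C_NFE C_RSTEP
-- imports: Pool.Agent.P.MP_dba3d2_lc.C.TTb
def S_C_RIGP : Prop := ∀ (Γ : HG) (a : Amb) (F : Bool → Subgroup (MM Γ a)), TwoF F →
  ∀ o b o' d w w' f f', RI F o b o' d w w' f f' → f ∈ F false ⊔ F true

-- deps: C_REDX C_RIGP
-- imports: Pool.Agent.P.MP_dba3d2_lc.C.TTb
def S_C_RIGX : Prop := ∀ (Γ : HG) (a : Amb) (F : Bool → Subgroup (MM Γ a)), TwoF F →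
  ∀ x, ∀ z ∈ F false ⊔ F true, ∀ z' ∈ F false ⊔ F true, ∀ k ∈ F false ⊔ F true,
    ∀ k' ∈ F false ⊔ F true, ∀ o o' o1 o1', ∀ b ∈ XF F o, ∀ b' ∈ XF F o', ∀ d ∈ XF F o1,
    ∀ d' ∈ XF F o1', Prim b → Prim b' → Prim d → Prim d' → Cj (z⁻¹ * x * z') b' b →
    Cj (k⁻¹ * x * k') d' d → Ep (z * b * z⁻¹) ≠ Ep (k * d * k⁻¹) → x ∈ F false ⊔ F true

-- deps: ELEM LINE C_ARC C_J0 C_NFE C_RIGX
-- imports: Pool.Agent.P.MP_dba3d2_lc.C.TTb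
def S_C_G2 : Prop := ∀ (Γ : HG) (a : Amb) (F : Bool → Subgroup (MM Γ a)), TwoF F →
  ∀ μ, Big μ → ∀ h ∈ F false ⊔ F true, ∀ h' ∈ F false ⊔ F true, Ls (ln h) μ → Ls (ln h') μ →
    ∀ g p q, Ov μ p q 1 h g (g * h') → ¬ Per μ p q → g ∈ F false ⊔ F true

end Pool.Agent.P.MP_dba3d2_lc
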