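import Pool.Agent.P.MP_dba3d2_lc.C.IfaceT
import Pool.Agent.P.MP_dba3d2_lc.A.Iface
import Pool.Agent.P.MP_dba3d2_lc.B.Iface
import Pool.Agent.P.MP_dba3d2_lc.C.IfaceT2
import Pool.Agent.P.MP_dba3d2_lc.C.TTb

/-! Step C_EXT2 of the stability project. -/

namespace Pool.Agent.P.MP_dba3d2_lc

open Filter

namespace C_ext2A

theorem mem_sup_of_swap {G : Type} [Group G] {A B : Subgroup G}
    (h : ∀ x ∈ A, ∀ y ∈ B, ∃ x' ∈ A, ∃ y' ∈ B, y * x = x' * y') {t : G} (ht : t ∈ A ⊔ B) :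
    ∃ x ∈ A, ∃ y ∈ B, t = x * y := by
  let K : Subgroup G :=
    { carrier := {t | ∃ x ∈ A, ∃ y ∈ B, t = x * y}
      one_mem' := ⟨1, one_mem _, 1, one_mem _, (mul_one _).symm⟩
      mul_mem' := by
        rintro _ _ ⟨x, hx, y, hy, rfl⟩ ⟨x', hx', y', hy', rfl⟩
        obtain ⟨u, hu, v, hv, e⟩ := h x' hx' y hy
        exact ⟨x * u, mul_mem hx hu, v * y', mul_mem hv hy', by
          rw [mul_assoc, ← mul_assoc y, e]; group⟩
      inv_mem' := by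
        rintro _ ⟨x, hx, y, hy, rfl⟩
        obtain ⟨u, hu, v, hv, e⟩ := h x⁻¹ (inv_mem hx) y⁻¹ (inv_mem hy)
        exact ⟨u, hu, v, hv, by rw [mul_inv_rev, e]⟩ }
  exact (sup_le (fun x hx => ⟨x, hx, 1, one_mem _, (mul_one _).symm⟩)
    (fun y hy => ⟨1, one_mem _, y, hy, (one_mul _).symm⟩) : A ⊔ B ≤ K) ht

variable {Γ : HG} {a : Amb} {F : Bool → Subgroup (MM Γ a)} {G : Type} [Group G]

/-- a pair of compatible graphs -/
structure Gr (F : Bool → Subgroup (MM Γ a)) (gr : Bool → Subgroup (MM Γ a × G)) : Prop where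
  le : ∀ i, ∀ z ∈ gr i, z.1 ∈ F i
  sur : ∀ i, ∀ x ∈ F i, ∃ z ∈ gr i, z.1 = x
  uniq : ∀ i j, ∀ z ∈ gr i, ∀ z' ∈ gr j, z.1 = z'.1 → z = z'
  comm : ∀ c ∈ XF F none, ¬ IsOfFinOrder c → ∀ z ∈ gr false, ∀ z' ∈ gr true, z.1 ∈ Ep c →
    z'.1 ∈ Ep c → Commute (z.2 ^ Γ.e) z'.2

/-- the part of a graph over an elementary group -/
def pe (A : Subgroup (MM Γ a × G)) (c : MM Γ a) : Subgroup (MM Γ a × G) :=
  A ⊓ (Ep c).comap (MonoidHom.fst _ _)

/-- the groups of the cover -/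
def LL (gr : Bool → Subgroup (MM Γ a × G)) : Tg Γ a → Subgroup (MM Γ a × G)
  | .inl none => gr false ⊓ gr true
  | .inl (some i) => gr i
  | .inr c => pe (gr false) c ⊔ pe (gr true) c

variable {gr : Bool → Subgroup (MM Γ a × G)}

theorem Gr.cross (h : Gr F gr) {i j : Bool} {z : MM Γ a × G} (hz : z ∈ gr i) (k : z.1 ∈ F j) :
    z ∈ gr j := by
  obtain ⟨z', h1, h2⟩ := h.sur j _ k
  rwa [h.uniq i j z hz z' h1 h2.symm]

theorem Gr.key (h : Gr F gr) (hE : S_ELEM) (hR : S_ROOT) (hF : TwoF F) {c : MM Γ a}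
    (hc : c ∈ XF F none) (hp : Prim c) {t : MM Γ a × G} (ht : t ∈ LL gr (.inr c)) :
    ∃ x ∈ pe (gr false) c, ∃ y ∈ pe (gr true) c, t = x * y := by
  refine mem_sup_of_swap (fun x hx y hy => ?_) ht
  obtain ⟨f, f1, f2, r, f3⟩ := (hF.gc false).pur c hc.1 hp x.1 (h.le _ x hx.1) hx.2 Γ.e Γ.good.pos
  obtain ⟨x', k1, rfl⟩ := h.sur false f f1
  have c1 : c ^ r ∈ Ep c := pow_mem (self_mem_Ep c) r
  have m := hF.root3 hR hc hp.1 (mul_mem (inv_mem hx.2) (mul_mem (pow_mem f2 _) c1)) f3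
  have m1 : ((x' ^ Γ.e)⁻¹ * x).1 ∈ F true := by
    have e : ((x' ^ Γ.e)⁻¹ * x).1 = c ^ r * (x.1⁻¹ * (x'.1 ^ Γ.e * c ^ r))⁻¹ := by
      change (x'.1 ^ Γ.e)⁻¹ * x.1 = _
      group
    rw [e]
    exact (mul_mem (pow_mem hc r) (inv_mem m)).2
  have k2 : x' ^ Γ.e ∈ pe (gr false) c := pow_mem (show x' ∈ pe (gr false) c from ⟨k1, f2⟩) _
  have k3 := mul_mem (inv_mem k2) hx
  have k4 : Commute (x' ^ Γ.e) y :=
    Prod.ext ((hE Γ a c hp.1).2.2.2.2.2.2.2.1 _ f2 _ hy.2) (h.comm c hc hp.1 x' k1 y hy.1 f2 hy.2)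
  exact ⟨_, k2, _, mul_mem hy ⟨h.cross k3.1 m1, k3.2⟩, by
    rw [← mul_assoc, k4.eq, mul_assoc, mul_inv_cancel_left]⟩

theorem Gr.mem (h : Gr F gr) (hE : S_ELEM) (hR : S_ROOT) (hF : TwoF F) {t : Tg Γ a}
    (ht : TOK F (fun _ => True) t) {x : MM Γ a × G} (hx : x ∈ LL gr t) (i : Bool) (k : x.1 ∈ F i) :
    x ∈ gr i := by
  rcases t with (_ | j) | c
  · exact h.cross hx.1 k
  · exact h.cross hx k
  obtain ⟨u, hu, v, hv, rfl⟩ := h.key hE hR hF ht.1 ht.2.1 hx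
  cases i
  · exact mul_mem hu.1 (h.cross hv.1 ((mul_mem_cancel_left (h.le _ u hu.1)).1 k))
  · exact mul_mem (h.cross hu.1 ((mul_mem_cancel_right (h.le _ v hv.1)).1 k)) hv.1

theorem mem_LL (i : Bool) {c : MM Γ a} {x : MM Γ a × G} (h : x ∈ pe (gr i) c) :
    x ∈ LL gr (.inr c) := by
  cases i
  exacts [Subgroup.mem_sup_left h, Subgroup.mem_sup_right h]

theorem LL_le {c : MM Γ a} {K : Subgroup (MM Γ a × G)} (h : ∀ i, pe (gr i) c ≤ K) :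
    LL gr (.inr c) ≤ K := sup_le (h false) (h true)

/-- the cover defined by the graphs -/
def Gr.cv (h : Gr F gr) (hE : S_ELEM) (hR : S_ROOT) (hF : TwoF F) : Cv F (MM Γ a × G) where
  π := MonoidHom.fst _ _
  L := LL gr
  S := fun _ => True
  s0 := trivial
  le := by
    rintro ((_ | i) | c) - x hx
    · exact ⟨h.le _ x hx.1, h.le _ x hx.2⟩
    · exact h.le i x hx
    · exact LL_le (K := (EF F c).comap (MonoidHom.fst _ _))
        (fun i z hz => mem_EF i (h.le i z hz.1) hz.2) hx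
  sur := by
    rintro ((_ | i) | c) - y hy
    · obtain ⟨z, h1, rfl⟩ := h.sur false y hy.1
      exact ⟨z, ⟨h1, h.cross h1 hy.2⟩, rfl⟩
    · exact h.sur i y hy
    · have k : ∀ i, F i ⊓ Ep c ≤ (LL gr (.inr c)).map (MonoidHom.fst _ _) := fun i y hy => by
        obtain ⟨z, h1, rfl⟩ := h.sur i y hy.1
        exact ⟨z, mem_LL i ⟨h1, hy.2⟩, rfl⟩
      exact (sup_le (k false) (k true) : EF F c ≤ _) hy
  inj x hx e := h.uniq false false x hx.1 1 (one_mem _) e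
  mem := by
    rintro t (_ | i) ht - x hx k
    · exact ⟨h.mem hE hR hF ht hx false k.1, h.mem hE hR hF ht hx true k.2⟩
    · exact h.mem hE hR hF ht hx i k
  cj c d _ _ b hb e x hx := by
    refine LL_le (K := (LL gr (.inr d)).comap (MulAut.conj b).toMonoidHom) (fun i z hz => ?_) hx
    have k : b ∈ gr i := by
      cases i
      exacts [hb.1, hb.2]
    exact mem_LL i ⟨(gr i).mul_mem ((gr i).mul_mem k hz.1) ((gr i).inv_mem k), e.mem_Ep hz.2⟩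

end C_ext2A

open C_ext2A in
theorem p_C_EXT2 (hELEM : S_ELEM) (hROOT : S_ROOT) (hC_INJ : S_C_INJ) (hC_GRAPH : S_C_GRAPH) :
    S_C_EXT2 := by
  intro Γ a F hF G _ θ0 θ1 h1 h2
  obtain ⟨θ, rfl, rfl⟩ : ∃ θ : (i : Bool) → F i →* G, θ false = θ0 ∧ θ true = θ1 :=
    ⟨fun i => Bool.rec θ0 θ1 i, rfl, rfl⟩
  have h : Gr F fun i => ((F i).subtype.prod (θ i)).range := by
    refine ⟨?_, fun i x hx => ⟨_, ⟨⟨x, hx⟩, rfl⟩, rfl⟩, ?_, ?_⟩
    · rintro i _ ⟨x, rfl⟩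
      exact x.2
    · rintro i j _ ⟨x, rfl⟩ _ ⟨y, rfl⟩ e
      refine Prod.ext e ?_
      cases i <;> cases j
      · exact congrArg (θ false) (Subtype.ext e)
      · exact h1 x y e
      · exact (h1 y x (Eq.symm e)).symm
      · exact congrArg (θ true) (Subtype.ext e)
    · rintro c hc hn _ ⟨x, rfl⟩ _ ⟨y, rfl⟩ hx hy
      exact h2 c hc hn x y hx hy
  have k : ∀ i (x : F i), ((x : MM Γ a), θ i x) ∈ (h.cv hELEM hROOT hF).PP := fun i x =>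
    Cv.L_le_PP (C := h.cv hELEM hROOT hF) (t := .inl (some i)) trivial ⟨x, rfl⟩
  exact hC_GRAPH _ G _ _ _ _ _ (k false) (k true) fun g hg =>
    congrArg Prod.snd (hC_INJ Γ a F hF _ _ _ hg rfl)

end Pool.Agent.P.MP_dba3d2_lc
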