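import Pool.Agent.P.MP_dba3d2_lc.C.IfaceT2
import Pool.Agent.P.MP_dba3d2_lc.C.TTb

/-! Step C_EXTM of the stability project. -/

namespace Pool.Agent.P.MP_dba3d2_lc

open Filter

namespace C_extmA

variable {Γ : HG} {a : Amb} {F : Bool → Subgroup (MM Γ a)} {G : Type} [Group G] {C : Cv F G}
  {e e1 : Option (Tg Γ a × G)} {l : List (Tg Γ a × G)}

theorem split {X Y : Type} (f : X → Y) (e e' : Option X) (u w : List X)
    (h : w.map f = (xw e u e').map f) : ∃ e1 u' e1', w = xw e1 u' e1' ∧ e1.map f = e.map f ∧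
      u'.map f = u.map f ∧ e1'.map f = e'.map f := by
  have k : ∀ (e : Option X) (v : List X), v.map f = e.toList.map f →
      ∃ e1 : Option X, v = e1.toList ∧ e1.map f = e.map f := by
    rintro (_ | s) v hv
    · exact ⟨none, List.map_eq_nil_iff.1 hv, rfl⟩
    · obtain ⟨s1, t, rfl, h1, h2⟩ := List.map_eq_cons_iff.1 hv
      rw [List.map_eq_nil_iff.1 h2]
      exact ⟨some s1, rfl, congrArg some h1⟩
  rw [xw, List.map_append, List.map_append] at h
  obtain ⟨p, q, rfl, h1, h2⟩ := List.map_eq_append_iff.1 h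
  obtain ⟨p, u', rfl, h3, h4⟩ := List.map_eq_append_iff.1 h1
  obtain ⟨e1, rfl, h5⟩ := k e p h3
  obtain ⟨e1', rfl, h6⟩ := k e' q h2
  exact ⟨e1, u', e1', rfl, h5, h4, h6⟩

theorem chL (he : ∀ s ∈ e, ∃ c, s.1 = .inr c) (h : e1.map Prod.fst = e.map Prod.fst)
    (k : C.PCh (e1.toList ++ l)) : C.PCh (e.toList ++ l) := by
  rcases e with _ | ⟨t, x⟩ <;> rcases e1 with _ | ⟨t1, x1⟩
  · exact k
  · cases h
  · cases h
  · obtain ⟨c, rfl⟩ := he _ rfl
    obtain rfl : t1 = .inr c := Option.some.inj h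
    rcases l with _ | ⟨s, l⟩
    · exact List.isChain_singleton _
    · have k' := List.isChain_cons_cons.1 k
      exact List.isChain_cons_cons.2 ⟨(pair_inr_left _ _ _).1 k'.1, k'.2⟩

theorem chR (he : ∀ s ∈ e, ∃ c, s.1 = .inr c) (h : e1.map Prod.fst = e.map Prod.fst)
    (k : C.PCh (l ++ e1.toList)) : C.PCh (l ++ e.toList) := by
  have w : ∀ e : Option (Tg Γ a × G), winv e.toList = (e.map sinv).toList := fun e => by
    cases e <;> simp
  have k1 := k.winv
  rw [winv_append, w] at k1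
  have k2 := (chL (e := e.map sinv) (fun s hs => by
    obtain ⟨s0, h0, rfl⟩ := Option.mem_map.1 hs
    exact he s0 h0) (by cases e <;> cases e1 <;> simp_all) k1).winv
  rwa [← w, ← winv_append, winv_winv] at k2

theorem mem_LO (h : C.Wd e.toList) : vl e.toList ∈ C.LO e := by
  rcases e with _ | s
  · exact one_mem _
  · simpa using (h s (by simp)).2

end C_extmA

open C_extmA in
theorem p_C_EXTM (hC_RED : S_C_RED) (hC_NORMW : S_C_NORMW) :
    S_C_EXTM := by
  intro Γ a F hF G _ C e e' u he he' hm hj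
  have hr := hC_RED Γ a F hF G C e e' u he he' hm hj
  obtain ⟨w', h1, h2, h3, h4⟩ := hC_NORMW Γ a F hF G C _ hr
  obtain ⟨e1, u', e1', rfl, k1, k2, k3⟩ := split Prod.fst e e' u w' h1
  have a1 := hr.wd
  rw [xw, Cv.wd_append, Cv.wd_append] at h2 a1
  refine ⟨u', k2, h2.1.2, ?_, (vl e1.toList)⁻¹ * vl e.toList,
    mul_mem (inv_mem (Cv.LO_tags k1 ▸ mem_LO h2.1.1)) (mem_LO a1.1.1),
    vl e'.toList * (vl e1'.toList)⁻¹,
    mul_mem (mem_LO a1.2) (inv_mem (Cv.LO_tags k3 ▸ mem_LO h2.2)), ?_⟩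
  · refine chR (fun s hs => (he' s hs).2) k3 ?_
    rw [xw, List.append_assoc] at h4
    rw [List.append_assoc]
    exact chL (fun s hs => (he s hs).2) k1 h4
  · simp only [xw, vl_append] at h3
    rw [show vl u' = (vl e1.toList)⁻¹ * (vl e1.toList * vl u' * vl e1'.toList) *
      (vl e1'.toList)⁻¹ by group, h3]
    group

end Pool.Agent.P.MP_dba3d2_lc
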