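import Pool.Agent.P.MP_dba3d2_lc.C.IfaceT2
import Pool.Agent.P.MP_dba3d2_lc.B.Iface
import Pool.Agent.P.MP_dba3d2_lc.C.IfaceT
import Pool.Agent.P.MP_dba3d2_lc.C.TTb

/-! Step C_EXTN of the stability project. -/

namespace Pool.Agent.P.MP_dba3d2_lc

open Filter

namespace C_extnA

variable {Γ : HG} {a : Amb} {F : Bool → Subgroup (MM Γ a)}

/-- the result of normalising the left end -/
structure LS (F : Bool → Subgroup (MM Γ a)) (b : MM Γ a) (e : Option (Tg Γ a × MM Γ a))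
    (u : List (Tg Γ a × MM Γ a)) (m e1 : Option (Tg Γ a × MM Γ a))
    (u1 : List (Tg Γ a × MM Γ a)) (f g : MM Γ a) : Prop where
  m1 : ∀ s ∈ m, s ∈ e ∧ ∃ c, s.1 = .inr c
  m2 : ∀ x ∈ (idC F).LO m, x ∈ (idC F).LO e ∧ x ∈ Ep b ∧ vl e1.toList * x = x * vl e1.toList
  tg : e1.map Prod.fst = e.map Prod.fst
  en : ∀ s ∈ e1, EndL F b s ∧ NE b s.2⁻¹
  tu : u1.map Prod.fst = u.map Prod.fst
  wd : (idC F).Wd u1
  hg : g ∈ (idC F).LO e
  hf : f ∈ (idC F).LO e
  hE : f ∈ Ep b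
  v1 : vl u1 = g⁻¹ * vl u
  v2 : vl e1.toList = f * vl e.toList * g
  ch : ∀ u2 R, u2.map Prod.fst = u.map Prod.fst → (idC F).Nz u2 →
    (idC F).PCh (m.toList ++ u2 ++ R) → (idC F).PCh (e1.toList ++ u2 ++ R)

theorem left (hP : S_C_PRE) (hF : TwoF F) {b : MM Γ a} {e : Option (Tg Γ a × MM Γ a)}
    {u : List (Tg Γ a × MM Γ a)} {B : Subgroup (MM Γ a)}
    (he : ∀ s ∈ e, EndL F b s ∧ Far F b s) (hm : (idC F).CMin ((idC F).LO e) B u) (hu : u ≠ []) :
    ∃ m e1 u1 f g, LS F b e u m e1 u1 f g := by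
  rcases e with _ | s
  · refine ⟨none, none, u, 1, 1, by simp, fun x hx => ?_, rfl, by simp, rfl, hm.1, one_mem _,
      one_mem _, one_mem _, by simp, by simp, fun _ _ _ _ h => h⟩
    obtain rfl : x = 1 := by simpa using hx
    simp
  obtain ⟨h1, h2⟩ := he s rfl
  rcases h1.cases with ⟨rfl, hb⟩ | ⟨i, y, rfl, hy, hb⟩
  · refine ⟨_, _, u, 1, 1, fun s hs => ⟨hs, b, ?_⟩, fun x hx => ⟨hx, EF_le_Ep hx, by simp⟩, rfl,
      fun s hs => ?_, rfl, hm.1, one_mem _, one_mem _, one_mem _, by simp, by simp,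
      fun _ _ _ _ h => h⟩
    · cases hs; rfl
    · cases hs; exact ⟨h1, by simpa using ne_one b⟩
  obtain ⟨⟨t, y0⟩, u0, rfl⟩ := List.exists_cons_of_ne_nil hu
  obtain ⟨k1, k2⟩ := Cv.wd_cons.1 hm.1
  have n0 : y0 ∉ F i := fun h => by
    have := (Cv.CMin.dropr (v := [(t, y0)]) (w := u0) hm).eq_nil (x := y0) (y := 1) h (one_mem _)
      (by simp)
    cases this
  have ht : t = .inl (some (!i)) ∨ ∃ c ∈ PM F, t = .inr c := by
    rcases t with (_ | j) | c
    · exact absurd (M_le_F i k1.2) n0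
    · left
      have : j ≠ i := by rintro rfl; exact n0 k1.2
      rw [Bool.eq_not_iff.2 this]
    · exact .inr ⟨c, k1.1, rfl⟩
  obtain ⟨f, f1, f2, g, g1, g2, p1, p2⟩ :=
    hP Γ a F hF i b y t hb h1.axis.2.1 h1.axis.2.2 hy (h2 _ rfl) ht
  refine ⟨none, some (.inl (some i), f * y * g), (t, g⁻¹ * y0) :: u0, f, g, by simp,
    fun x hx => ?_, rfl, fun s hs => ?_, rfl,
    Cv.wd_cons.2 ⟨k1.mk' (mul_mem (inv_mem g2) k1.2), k2⟩, g1, f1, f2, by simp [mul_assoc],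
    by simp, fun u2 R e2 nz h => ?_⟩
  · obtain rfl : x = 1 := by simpa using hx
    simp
  · cases hs
    exact ⟨⟨h1.1, mul_mem (mul_mem f1 hy) g1, h1.2.2⟩, p1⟩
  · rcases u2 with _ | ⟨⟨t2, y2⟩, u2⟩
    · cases e2
    obtain rfl : t2 = t := by simpa using congrArg List.head? e2
    refine List.isChain_cons_cons.2 ⟨p2 y2 fun k km => ?_, h⟩
    have := nz _ List.mem_cons_self km
    simp [k] at this

theorem he_tr {s s' s1 s1' : Tg Γ a × MM Γ a} {u u2 : List (Tg Γ a × MM Γ a)} {x y : MM Γ a}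
    (h : (idC F).HE s u s') (t1 : s1.1 = s.1) (t2 : s1'.1 = s'.1)
    (tu : u2.map Prod.fst = u.map Prod.fst) (hx : x ∈ LF F s.1) (hy : y ∈ LF F s'.1)
    (e : vl u2 = x * vl u * y) : (idC F).HE s1 u2 s1' := by
  rintro c c' m e1 e2 rfl k
  rw [t1] at e1
  rw [t2] at e2
  rw [e1] at hx
  rw [e2] at hy
  rcases u with _ | ⟨⟨t, m0⟩, _ | _⟩
  · cases tu
  · obtain rfl : .inl none = t := by simpa using tu
    refine h c c' m0 e1 e2 rfl ?_
    have := ((Cj.of_mem (inv_mem (EF_le_Ep hx))).mul k).mul (Cj.of_mem (inv_mem (EF_le_Ep hy)))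
    have e' : m = x * m0 * y := by simpa using e
    simpa [e', mul_assoc] using this
  · simp at tu

theorem tags_winv (w : List (Tg Γ a × MM Γ a)) :
    (winv w).map Prod.fst = (w.map Prod.fst).reverse := by
  induction w with
  | nil => rfl
  | cons s w ih => simp [ih]

theorem map_sinv (e : Option (Tg Γ a × MM Γ a)) : (e.map sinv).map sinv = e := by
  cases e <;> simp

theorem tags_sinv (e : Option (Tg Γ a × MM Γ a)) :
    (e.map sinv).map Prod.fst = e.map Prod.fst := by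
  cases e <;> simp

theorem vl_sinv (e : Option (Tg Γ a × MM Γ a)) : vl (e.map sinv).toList = (vl e.toList)⁻¹ := by
  cases e <;> simp

theorem of_tags {e e1 : Option (Tg Γ a × MM Γ a)} (h : e1.map Prod.fst = e.map Prod.fst)
    {s : Tg Γ a × MM Γ a} (hs : s ∈ e1) : ∃ s0, e = some s0 ∧ s.1 = s0.1 := by
  cases hs
  cases e with
  | none => cases h
  | some s0 => exact ⟨s0, rfl, by simpa using h⟩

end C_extnA

open C_extnA in
theorem p_C_EXTN (hROOT : S_ROOT) (hC_EXTM : S_C_EXTM) (hC_PRE : S_C_PRE) :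
    S_C_EXTN := by
  intro Γ a F hF b b' e e' u he he' hm hu h0
  obtain ⟨m, e1, u1, f, g, L⟩ := left hC_PRE hF he hm hu
  have c1 : (idC F).CMin ((idC F).LO e) ((idC F).LO e') u1 :=
    hm.of_eq L.wd (ct_tags L.tu).le (inv_mem L.hg) (one_mem _) (by simp [L.v1])
  have n1 : winv u1 ≠ [] := fun h => hu (by
    have := congrArg List.length ((tags_winv u1).symm.trans (congrArg _ h))
    simpa [L.tu] using this)
  obtain ⟨m', e1', u2, f', g', R⟩ := left (b := b') (e := e'.map sinv) (B := (idC F).LO e)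
    hC_PRE hF (fun s hs => by
      obtain ⟨s0, k, rfl⟩ := Option.mem_map.1 hs
      exact he' s0 k) (by simpa using c1.winv) n1
  have tU : (winv u2).map Prod.fst = u.map Prod.fst := by
    rw [tags_winv, R.tu, tags_winv, List.reverse_reverse, L.tu]
  have vU : vl (winv u2) = g⁻¹ * vl u * g' := by simp [R.v1, L.v1, mul_assoc]
  have hg' : g' ∈ (idC F).LO e' := by simpa using R.hg
  have c2 : (idC F).CMin ((idC F).LO e) ((idC F).LO e') (winv u2) :=
    hm.of_eq R.wd.winv (ct_tags tU).le (inv_mem L.hg) hg' vU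
  have l1 : (idC F).LO m ≤ (idC F).LO e := fun x hx => (L.m2 x hx).1
  have l2 : (idC F).LO (m'.map sinv) ≤ (idC F).LO e' := fun x hx => by
    simpa using (R.m2 x (by simpa using hx)).1
  have r1 : ∀ s ∈ m'.map sinv, s ∈ e' ∧ ∃ c, s.1 = .inr c := fun s hs => by
    obtain ⟨s0, k, rfl⟩ := Option.mem_map.1 hs
    obtain ⟨k1, k2⟩ := R.m1 s0 k
    obtain ⟨s1, k3, rfl⟩ := Option.mem_map.1 k1
    exact ⟨by simpa using k3, k2⟩
  obtain ⟨u3, t3, w3, p3, x, hx, y, hy, v3⟩ := hC_EXTM Γ a F hF _ (idC F) m (m'.map sinv) (winv u2)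
    (fun s hs => ⟨(he s (L.m1 s hs).1).1.ok, (L.m1 s hs).2⟩)
    (fun s hs => ⟨by simpa using (he' s (r1 s hs).1).1.ok.inv, (r1 s hs).2⟩) (c2.mono l1 l2)
    (fun s hs s' hs' => by
      have k1 := (L.m1 s hs).1
      have k2 := (r1 s' hs').1
      refine ⟨?_, fun h => absurd (by simpa [h] using tU.symm) hu⟩
      have k := h0 s k1 s' k2
      cases k1
      cases k2
      exact he_tr k rfl rfl tU (inv_mem L.hg) hg' vU)
  have t4 := t3.trans tU
  have v4 : vl u3 = (x * g⁻¹) * vl u * (g' * y) := by rw [v3, vU]; group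
  have a1 := mul_mem (l1 hx) (inv_mem L.hg)
  have a2 := mul_mem hg' (l2 hy)
  have c3 := hm.of_eq w3 (ct_tags t4).le a1 a2 v4
  have p4 : (idC F).PCh (xw e1 u3 (m'.map sinv)) := L.ch u3 _ t4 c3.nz p3
  have p5 := p4.winv
  rw [winv_xw, map_sinv] at p5
  have p6 : (idC F).PCh (xw e1' (winv u3) (e1.map sinv)) :=
    R.ch _ _ (by rw [tags_winv, tags_winv, t4, L.tu]) c3.winv.nz p5
  have p7 := p6.winv
  rw [winv_xw, map_sinv, winv_winv] at p7
  have t5 : (e1'.map sinv).map Prod.fst = e'.map Prod.fst := by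
    rw [tags_sinv, R.tg, tags_sinv]
  have r2 : ∀ s ∈ e1'.map sinv, EndL F b' (sinv s) ∧ NE b' s.2 := fun s hs => by
    obtain ⟨s0, k, rfl⟩ := Option.mem_map.1 hs
    simpa using R.en s0 k
  obtain ⟨x1, x2, x3⟩ := L.m2 x hx
  obtain ⟨y1, y2, y3⟩ := R.m2 y (by simpa using hy)
  refine ⟨e1, u3, e1'.map sinv, L.tg, t4, t5, ⟨L.en, r2, Cv.good_of ?_ (Cv.wd_xw
    (fun s hs => (L.en s hs).1.ok) w3 fun s hs => by simpa using (r2 s hs).1.ok.inv) p7
    fun s hs s' hs' => ?_, c3.nz⟩, x * f, mul_mem x1 L.hf, f'⁻¹ * y,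
    mul_mem (inv_mem (by simpa using R.hf)) (l2 hy), mul_mem x2 L.hE, mul_mem (inv_mem R.hE) y2, ?_⟩
  · rwa [Cv.LO_tags L.tg, Cv.LO_tags t5]
  · obtain ⟨s0, rfl, k1⟩ := of_tags L.tg hs
    obtain ⟨s1, rfl, k2⟩ := of_tags t5 hs'
    exact he_tr (h0 s0 rfl s1 rfl) k1 k2 t4 a1 a2 v4
  · have y4 : y * (vl e1'.toList)⁻¹ = (vl e1'.toList)⁻¹ * y := by
      rw [mul_inv_eq_iff_eq_mul, mul_assoc, ← y3, inv_mul_cancel_left]
    have := R.v2
    rw [vl_sinv] at this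
    calc vl (xw e1 u3 (e1'.map sinv))
        = (vl e1.toList * x) * (g⁻¹ * vl u * g') * (y * (vl e1'.toList)⁻¹) := by
          rw [xw, vl_append, vl_append, vl_sinv, v4]; group
      _ = _ := by
          rw [x3, y4, L.v2, this, xw, vl_append, vl_append]; group

end Pool.Agent.P.MP_dba3d2_lc
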