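import Pool.Agent.P.MP_dba3d2_lc.C.IfaceT
import Pool.Agent.P.MP_dba3d2_lc.A.Iface
import Pool.Agent.P.MP_dba3d2_lc.B.Iface
import Pool.Agent.P.MP_dba3d2_lc.C.TTb

/-! Step C_FINE of the stability project. -/

namespace Pool.Agent.P.MP_dba3d2_lc

open Filter

namespace C_fineA

variable {Γ : HG} {a : Amb} {F : Bool → Subgroup (MM Γ a)} {c g h k : MM Γ a}

theorem dec (hk : k ∈ EPM F c) : ∃ e ∈ EF F c, ∃ i ∈ XF F none, InE c i ∧ k = e * i := by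
  let S : Subgroup (MM Γ a) :=
    { carrier := {k | ∃ e ∈ EF F c, ∃ i ∈ XF F none, InE c i ∧ k = e * i}
      one_mem' := ⟨1, one_mem _, 1, one_mem _, InE.of_mem (one_mem _), (one_mul 1).symm⟩
      mul_mem' := by
        rintro _ _ ⟨e, h1, i, h2, h3, rfl⟩ ⟨e', k1, i', k2, k3, rfl⟩
        exact ⟨e * (i * e' * i⁻¹), mul_mem h1 (EF_conj h2 h3.cj k1), i * i', mul_mem h2 k2,
          h3.mul k3, by group⟩
      inv_mem' := by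
        rintro _ ⟨e, h1, i, h2, h3, rfl⟩
        exact ⟨i⁻¹ * e⁻¹ * i, EF_conj' h2 h3.cj (inv_mem h1), i⁻¹, inv_mem h2, h3.inv, by group⟩ }
  have : EPM F c ≤ S := sup_le
    (fun e he => ⟨e, he, 1, one_mem _, InE.of_mem (one_mem _), (mul_one e).symm⟩)
    fun i hi => ⟨1, one_mem _, i, hi.1, mem_IE.1 hi.2, (one_mul i).symm⟩
  exact this hk

theorem flip (h1 : InE c g) (h2 : g ∉ Ep c) : g * c ^ Γ.e * g⁻¹ = (c ^ Γ.e)⁻¹ :=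
  h1.resolve_left fun e => h2 (mem_Ep.2 (mul_inv_eq_iff_eq_mul.1 e))

theorem two (h1 : InE c g) (h2 : g ∉ Ep c) (k1 : InE c h) (k2 : h ∉ Ep c) : g * h ∈ Ep c := by
  refine mem_Ep.2 (mul_inv_eq_iff_eq_mul.1 ?_)
  rw [show g * h * c ^ Γ.e * (g * h)⁻¹ = g * (h * c ^ Γ.e * h⁻¹) * g⁻¹ by group, flip k1 k2,
    show g * (c ^ Γ.e)⁻¹ * g⁻¹ = (g * c ^ Γ.e * g⁻¹)⁻¹ by group, flip h1 h2, inv_inv]

end C_fineA

theorem p_C_FINE (hELEM : S_ELEM) (hROOT : S_ROOT) (hC_TORQ : S_C_TORQ) (hC_PURE : S_C_PURE) :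
    S_C_FINE := by
  rintro Γ a F hF c ⟨hc, hp, -⟩ K hK hfin
  have tor : ∀ k ∈ K, IsOfFinOrder k := fun k hk =>
    K.subtype.isOfFinOrder (isOfFinOrder_of_finite (⟨k, hk⟩ : K))
  have inE : ∀ k ∈ K, InE c k := fun k hk => by
    obtain ⟨e, h1, i, -, h3, rfl⟩ := C_fineA.dec (hK hk)
    exact (InE.of_mem (EF_le_Ep h1)).mul h3
  have easy : ∀ g ∈ EF F c, ∀ k ∈ K, k ∈ Ep c → g⁻¹ * k * g ∈ XF F none := fun g hg k hk h =>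
    hF.root3 hROOT hc hp.1 (mul_mem (mul_mem (inv_mem (EF_le_Ep hg)) h) (EF_le_Ep hg))
      ((finOrder_conj' g k).2 (tor k hk))
  by_cases h0 : ∀ k ∈ K, k ∈ Ep c
  · exact ⟨1, one_mem _, fun k hk => easy 1 (one_mem _) k hk (h0 k hk)⟩
  obtain ⟨k0, hk0, n0⟩ : ∃ k ∈ K, k ∉ Ep c := by
    by_contra n
    exact h0 fun k hk => by_contra fun e => n ⟨k, hk, e⟩
  obtain ⟨e, h1, i, h2, h3, rfl⟩ := C_fineA.dec (hK hk0)
  obtain ⟨g, hg, r, hr⟩ := hC_PURE Γ a F hF c hc hp e h1 2 two_pos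
  obtain ⟨Q, _, φ, q1, q2⟩ := hC_TORQ Γ a c hp.1
  have me := EF_le_Ep h1
  have mg := EF_le_Ep hg
  have mi : i * g * i⁻¹ ∈ Ep c := h3.cj.mem_Ep mg
  have a1 : φ ⟨_, mi⟩ = (φ ⟨g, mg⟩)⁻¹ := q2 i h3 (fun n => n0 (mul_mem me n)) _ _ rfl
  have a2 : φ ((⟨e, me⟩ : Ep c)⁻¹ * (⟨g, mg⟩ ^ 2 * ⟨c, self_mem_Ep c⟩ ^ r)) = 1 := (q1 _).2 hr
  have a3 : φ ((⟨g, mg⟩ : Ep c)⁻¹ * ⟨e, me⟩ * ⟨_, mi⟩ * (⟨c, self_mem_Ep c⟩ ^ r)⁻¹) = 1 := by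
    rw [map_mul, map_inv, inv_mul_eq_one, map_mul, map_pow] at a2
    rw [map_mul, map_mul, map_mul, map_inv, map_inv, a1, a2, mul_inv_eq_one, pow_two,
      mul_assoc (φ ⟨g, mg⟩), inv_mul_cancel_left, mul_inv_cancel_comm]
  have a4 : g⁻¹ * e * (i * g * i⁻¹) * (c ^ r)⁻¹ ∈ XF F none :=
    hF.root3 hROOT hc hp.1 (mul_mem (mul_mem (mul_mem (inv_mem mg) me) mi)
      (inv_mem (pow_mem (self_mem_Ep c) r))) ((q1 _).1 a3)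
  have a5 : g⁻¹ * (e * i) * g ∈ XF F none := by
    have := mul_mem (mul_mem a4 (pow_mem hc r)) h2
    rwa [show g⁻¹ * e * (i * g * i⁻¹) * (c ^ r)⁻¹ * c ^ r * i = g⁻¹ * (e * i) * g by group] at this
  refine ⟨g, hg, fun k hk => ?_⟩
  by_cases n : k ∈ Ep c
  · exact easy g hg k hk n
  · have := mul_mem (easy g hg _ (mul_mem hk (inv_mem hk0))
      (C_fineA.two (inE k hk) n (inE _ hk0).inv (by rwa [inv_mem_iff]))) a5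
    rwa [show g⁻¹ * (k * (e * i)⁻¹) * g * (g⁻¹ * (e * i) * g) = g⁻¹ * k * g by group] at this

end Pool.Agent.P.MP_dba3d2_lc
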