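import Pool.Agent.P.MP_dba3d2_lc.C.IfaceT
import Pool.Agent.P.MP_dba3d2_lc.C.TTb

/-! Step C_FINN of the stability project. -/

namespace Pool.Agent.P.MP_dba3d2_lc

open Filter

namespace C_finnA

variable {Γ : HG} {a : Amb} {F : Bool → Subgroup (MM Γ a)}

theorem ef_le {S : Set (MM Γ a)} {c : MM Γ a} (h : c ∈ S) : EF F c ≤ NS F S :=
  le_sup_of_le_right (le_iSup₂_of_le (f := fun c (_ : c ∈ S) => EF F c) c h le_rfl)

theorem ns_mono {S T : Set (MM Γ a)} (h : S ⊆ T) : NS F S ≤ NS F T :=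
  sup_le le_sup_left (iSup₂_le fun _ hc => ef_le (h hc))

/-- elements of the group have finite support -/
theorem supp {T : Set (MM Γ a)} {x : MM Γ a} (hx : x ∈ NS F T) :
    ∃ S : Finset (MM Γ a), (S : Set (MM Γ a)) ⊆ T ∧ x ∈ NS F S := by
  classical
  let U : Subgroup (MM Γ a) :=
    { carrier := {x | ∃ S : Finset (MM Γ a), (S : Set (MM Γ a)) ⊆ T ∧ x ∈ NS F S}
      one_mem' := ⟨∅, by simp, one_mem _⟩
      mul_mem' := by
        rintro x y ⟨S, h1, h2⟩ ⟨S', h3, h4⟩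
        refine ⟨S ∪ S', by simpa using ⟨h1, h3⟩, mul_mem (ns_mono ?_ h2) (ns_mono ?_ h4)⟩
        · simp
        · simp
      inv_mem' := by
        rintro x ⟨S, h1, h2⟩
        exact ⟨S, h1, inv_mem h2⟩ }
  have : NS F T ≤ U := sup_le (fun y hy => ⟨∅, by simp, Subgroup.mem_sup_left hy⟩)
    (iSup₂_le fun c hc y hy => ⟨{c}, by simpa using hc, ef_le (by simp) hy⟩)
  exact this hx

theorem suppK {T : Set (MM Γ a)} {K : Subgroup (MM Γ a)} (hK : K ≤ NS F T) (hf : Finite K) :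
    ∃ S : Finset (MM Γ a), (S : Set (MM Γ a)) ⊆ T ∧ K ≤ NS F S := by
  classical
  choose S h1 h2 using fun k : K => supp (hK k.2)
  have := Fintype.ofFinite K
  refine ⟨Finset.univ.biUnion S, fun c hc => ?_, fun k hk => ns_mono ?_ (h2 ⟨k, hk⟩)⟩
  · obtain ⟨k, -, hk⟩ := Finset.mem_biUnion.1 (Finset.mem_coe.1 hc)
    exact h1 k hk
  · exact Finset.coe_subset.2 (Finset.subset_biUnion_of_mem S (Finset.mem_univ _))

theorem rednt_mono {G : Type} [Group G] {A B : Bool → Subgroup G} {C : Subgroup G}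
    (h : RedNT A C) (hB : ∀ i, B i ≤ A i) : RedNT B C := fun l h1 h2 h3 =>
  h l h1 (fun s hs => ⟨hB _ (h2 s hs).1, (h2 s hs).2⟩) h3

theorem conjK {G : Type} [Group G] {K X N M : Subgroup G} (hf : Finite K) {p : G} (hp : p ∈ N)
    (h : ∀ k ∈ K, p⁻¹ * k * p ∈ X)
    (ih : ∀ K' : Subgroup G, K' ≤ X → Finite K' → ∃ q ∈ N, ∀ k ∈ K', q⁻¹ * k * q ∈ M) :
    ∃ q ∈ N, ∀ k ∈ K, q⁻¹ * k * q ∈ M := by
  obtain ⟨q, hq, h'⟩ := ih (K.map (MulAut.conj p⁻¹).toMonoidHom) (by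
      rintro _ ⟨k, hk, rfl⟩
      simpa using h k hk)
    (Finite.of_surjective _ ((MulAut.conj p⁻¹).toMonoidHom.subgroupMap_surjective K))
  refine ⟨p * q, mul_mem hp hq, fun k hk => ?_⟩
  have := h' _ ⟨k, hk, rfl⟩
  simpa [mul_assoc] using this

theorem ns_empty : NS F ((∅ : Finset (MM Γ a)) : Set (MM Γ a)) ≤ XF F none :=
  sup_le le_rfl (iSup₂_le fun c hc => absurd hc (by simp))

theorem ns_split {S T : Set (MM Γ a)} {c : MM Γ a}
    (h : ∀ d ∈ S, (¬ ∃ b ∈ XF F none, Cj b c d) → d ∈ T) : NS F S ≤ NS F T ⊔ EPM F c := by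
  refine sup_le (le_sup_of_le_left le_sup_left) (iSup₂_le fun d hd x hx => ?_)
  by_cases e : ∃ b ∈ XF F none, Cj b c d
  · obtain ⟨b, hb, e⟩ := e
    have k1 : b ∈ NS F T ⊔ EPM F c := Subgroup.mem_sup_left (Subgroup.mem_sup_left hb)
    have k2 : b⁻¹ * x * b ∈ NS F T ⊔ EPM F c :=
      Subgroup.mem_sup_right (Subgroup.mem_sup_left (EF_conj' hb e hx))
    have k3 := mul_mem (mul_mem k1 k2) (inv_mem k1)
    rwa [show b * (b⁻¹ * x * b) * b⁻¹ = x by group] at k3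
  · exact Subgroup.mem_sup_left (ef_le (h d hd e) hx)

/-- the two factor step -/
theorem two (h1 : S_C_AM1) (h2 : S_C_AM2) {G : Type} [Group G] {X X' Y C K : Subgroup G}
    (a1 : C ≤ X') (a2 : X' ≤ X) (a3 : C ≤ Y) (hU : UnivP X Y C) (hK : K ≤ X' ⊔ Y) (hf : Finite K) :
    ∃ p ∈ X' ⊔ Y, (∀ k ∈ K, p⁻¹ * k * p ∈ X') ∨ ∀ k ∈ K, p⁻¹ * k * p ∈ Y := by
  have r1 : RedNT (fun i => bif i then Y else X') C :=
    rednt_mono (h1 G X Y C (a1.trans a2) a3 hU) fun i => by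
      cases i
      exacts [a2, le_rfl]
  obtain ⟨p, hp, i, h⟩ := h2 G _ C (fun i => by
    cases i
    exacts [a1, a3]) r1 K hK hf
  refine ⟨p, hp, ?_⟩
  cases i
  exacts [.inl h, .inr h]

end C_finnA

open C_finnA in
theorem p_C_FINN (hC_AM1 : S_C_AM1) (hC_AM2 : S_C_AM2) (hC_UPN : S_C_UPN) (hC_FINE : S_C_FINE) :
    S_C_FINN := by
  classical
  intro Γ a F hF K hK hf
  obtain ⟨S, hS, hKS⟩ := suppK hK hf
  clear hK
  induction S using Finset.strongInduction generalizing K with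
  | H S ih =>
  rcases S.eq_empty_or_nonempty with rfl | ⟨c, hc⟩
  · refine ⟨1, one_mem _, fun k hk => ?_⟩
    rw [inv_one, one_mul, mul_one]
    exact ns_empty (hKS hk)
  have hcP : c ∈ PM F := hS (Finset.mem_coe.2 hc)
  obtain ⟨S', hS'⟩ : ∃ S' : Finset (MM Γ a), ∀ d, d ∈ S' ↔ d ∈ S ∧ ¬ ∃ b ∈ XF F none, Cj b c d :=
    ⟨S.filter fun d => ¬ ∃ b ∈ XF F none, Cj b c d, fun d => Finset.mem_filter⟩
  have hlt : S' ⊂ S := Finset.ssubset_iff_of_subset (fun d hd => ((hS' d).1 hd).1) |>.2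
    ⟨c, hc, fun h => ((hS' c).1 h).2 ⟨1, one_mem _, Cj.one_iff.2 rfl⟩⟩
  have hS1 : (S' : Set (MM Γ a)) ⊆ PM F := (Finset.coe_subset.2 hlt.1).trans hS
  have l1 : NS F S ≤ NS F S' ⊔ EPM F c :=
    ns_split fun d hd e => Finset.mem_coe.2 ((hS' d).2 ⟨Finset.mem_coe.1 hd, e⟩)
  have l2 : NS F S' ⊔ EPM F c ≤ NS F (PM F) :=
    sup_le (ns_mono hS1) (sup_le (ef_le hcP) (le_sup_of_le_left inf_le_left))
  have l3 : (S' : Set (MM Γ a)) ⊆ {d | d ∈ PM F ∧ ¬ ∃ b ∈ XF F none, Cj b c d} :=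
    fun d hd => ⟨hS1 hd, ((hS' d).1 (Finset.mem_coe.1 hd)).2⟩
  obtain ⟨p, hp, h | h⟩ := two hC_AM1 hC_AM2 (X' := NS F S') (le_sup_of_le_left inf_le_left)
    (ns_mono l3) le_sup_right
    (hC_UPN Γ a F hF c hcP) (hKS.trans l1) hf
  · exact conjK hf (l2 hp) h fun K' h1 h2 => ih S' hlt K' h2 hS1 h1
  · refine conjK hf (l2 hp) h fun K' h1 h2 => ?_
    obtain ⟨q, hq, h3⟩ := hC_FINE Γ a F hF c hcP K' h1 h2
    exact ⟨q, ef_le hcP hq, h3⟩

end Pool.Agent.P.MP_dba3d2_lc
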