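import Pool.Agent.P.MP_dba3d2_lc.C.IfaceT
import Pool.Agent.P.MP_dba3d2_lc.C.TTb

/-! Step C_FINP of the stability project. -/

namespace Pool.Agent.P.MP_dba3d2_lc

open Filter

namespace C_finpA

theorem cj {G : Type} [Group G] {K A : Subgroup G} {p : G} (hK : Finite K)
    (h : ∀ k ∈ K, p⁻¹ * k * p ∈ A) :
    ∃ K' : Subgroup G, K' ≤ A ∧ Finite K' ∧ ∀ k ∈ K, p⁻¹ * k * p ∈ K' := by
  refine ⟨K.map (MulAut.conj p⁻¹).toMonoidHom, ?_, ?_, fun k hk => ⟨k, hk, by simp⟩⟩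
  · rintro _ ⟨k, hk, rfl⟩
    simpa using h k hk
  · exact Finite.of_surjective _ ((MulAut.conj p⁻¹).toMonoidHom.subgroupMap_surjective K)

variable {Γ : HG} {a : Amb} {F : Bool → Subgroup (MM Γ a)}

theorem MI_le_F (i : Bool) : MI F i ≤ F i :=
  sup_le (M_le_F i) (iSup₂_le fun _ _ => inf_le_left)

theorem MI_le_N (i : Bool) : MI F i ≤ NS F (PM F) :=
  sup_le_sup_left (iSup₂_mono fun _ _ _ hx => mem_EF i hx.1 hx.2) _

theorem N_le_P : NS F (PM F) ≤ F false ⊔ F true :=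
  sup_le (XF_le_P none) (iSup₂_le fun _ _ => EF_le_P)

end C_finpA

open C_finpA in
theorem p_C_FINP (hC_AM1 : S_C_AM1) (hC_AM2 : S_C_AM2) (hC_UP : S_C_UP) (hC_FINN : S_C_FINN) :
    S_C_FINP := by
  intro Γ a F hF K hK fK
  have red : ∀ i, RedNT (fun j => bif j then NS F (PM F) ⊔ F (!i) else F i) (MI F i) := fun i =>
    hC_AM1 _ _ _ _ (MI_le_F i) ((MI_le_N i).trans le_sup_left) (hC_UP Γ a F hF i)
  have le1 : F false ⊔ (NS F (PM F) ⊔ F true) ≤ F false ⊔ F true :=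
    sup_le le_sup_left (sup_le N_le_P le_sup_right)
  obtain ⟨p, hp, i, h1⟩ := hC_AM2 _ _ _
    (fun j => by cases j; exacts [MI_le_F false, (MI_le_N false).trans le_sup_left]) (red false) K
    (hK.trans (sup_le_sup_left le_sup_right _)) fK
  replace hp : p ∈ F false ⊔ F true := le1 hp
  cases i
  · exact ⟨p, hp, Or.inl h1⟩
  obtain ⟨K1, l1, f1, m1⟩ := cj fK h1
  have red2 : RedNT (fun j => bif j then NS F (PM F) else F true) (MI F true) :=
    fun l h0 h1 h2 => red true l h0 (fun s hs => ⟨by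
      have := (h1 s hs).1
      rcases s with ⟨_ | _, x⟩
      exacts [this, Subgroup.mem_sup_left this], (h1 s hs).2⟩) h2
  obtain ⟨q, hq, j, h2⟩ := hC_AM2 _ _ _
    (fun j => by cases j; exacts [MI_le_F true, MI_le_N true]) red2 K1
    (l1.trans (sup_comm _ _).le) f1
  replace hq : q ∈ F false ⊔ F true := sup_le le_sup_right N_le_P hq
  have e : ∀ k, (p * q)⁻¹ * k * (p * q) = q⁻¹ * (p⁻¹ * k * p) * q := fun k => by group
  cases j
  · exact ⟨p * q, mul_mem hp hq, Or.inr fun k hk => by rw [e]; exact h2 _ (m1 k hk)⟩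
  obtain ⟨K2, l2, f2, m2⟩ := cj f1 h2
  obtain ⟨r, hr, h3⟩ := hC_FINN Γ a F hF K2 l2 f2
  refine ⟨p * q * r, mul_mem (mul_mem hp hq) (N_le_P hr), Or.inl fun k hk => ?_⟩
  have e' : (p * q * r)⁻¹ * k * (p * q * r) = r⁻¹ * (q⁻¹ * (p⁻¹ * k * p) * q) * r := by group
  rw [e']
  exact (h3 _ (m2 _ (m1 k hk))).1

end Pool.Agent.P.MP_dba3d2_lc
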