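import Pool.Agent.P.MP_dba3d2_lc.C.IfaceT
import Pool.Agent.P.MP_dba3d2_lc.C.LTb

/-! Step C_FIRST of the stability project. -/

namespace Pool.Agent.P.MP_dba3d2_lc

open Filter

namespace C_firstA

variable {Γ : HG} {a : Amb} {ν : a.K} {X : Type}

theorem split (hν : 0 < ν) (v : X → MM Γ a) (L : List X) : Ll ((L.map v).map ln).sum ν ∨
    ∃ (z : List X) (s : X) (B : List X), L = z ++ s :: B ∧ Ll ((z.map v).map ln).sum ν ∧
      Ls ν (ln (v s)) := by
  induction L with
  | nil => exact Or.inl (by simpa using Ll.zero hν.le)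
  | cons x L ih =>
    rcases ll_or_ls hν (ln (v x)) with h | h
    · rcases ih with k | ⟨z, s, B, e, k1, k2⟩
      · exact Or.inl (by simpa only [List.map_cons, List.sum_cons] using h.add k)
      · exact Or.inr ⟨x :: z, s, B, by rw [e, List.cons_append],
          by simpa only [List.map_cons, List.sum_cons] using h.add k1, k2⟩
    · exact Or.inr ⟨[], x, L, rfl, by simpa using Ll.zero hν.le, h⟩

end C_firstA

theorem p_C_FIRST :
    S_C_FIRST := by
  intro Γ a ν X v L q hν hG hq ho
  rcases C_firstA.split hν.pos v L with h | ⟨z, s, B, rfl, h1, h2⟩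
  · have k := ho.le_left
    rw [ds_one_left, ds_one_left] at k
    have k2 := k.add (Ll.mono_left (ln_prod_le _) h)
    rw [sub_add_cancel] at k2
    exact (k2.not_ls hν.pos hq).elim
  refine ⟨z, s, B, rfl, h1, h2, ?_⟩
  have hZ : Ll (ln (z.map v).prod) ν := Ll.mono_left (ln_prod_le _) h1
  rw [List.map_append, List.map_cons] at hG ho
  rcases On.total hν ho hG.piece.2.1 with ⟨k, -⟩ | ⟨k, -⟩
  · refine ⟨q, hq, on_right hν.pos.le _ _, (k.mul (z.map v).prod⁻¹).congr ?_ ?_ ?_⟩
    · rw [ds_self]; exact Ll.zero hν.pos.le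
    · rwa [mul_one, ds_one_right, ln_inv]
    · rw [inv_mul_cancel_left, ds_self]; exact Ll.zero hν.pos.le
  · refine ⟨_, ?_, k, ?_⟩
    · refine Ls.of_le_add h2 hZ hν.pos 1 ?_
      have := ln_mul_le (z.map v).prod⁻¹ ((z.map v).prod * v s)
      rw [inv_mul_cancel_left, ln_inv] at this
      push_cast
      linarith
    · rw [inv_mul_cancel_left]
      exact on_right hν.pos.le _ _

end Pool.Agent.P.MP_dba3d2_lc
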