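import Pool.Agent.P.MP_dba3d2_lc.C.IfaceT2
import Pool.Agent.P.MP_dba3d2_lc.A.Iface
import Pool.Agent.P.MP_dba3d2_lc.C.IfaceT
import Pool.Agent.P.MP_dba3d2_lc.C.TTb

/-! Step C_G20S of the stability project. -/

namespace Pool.Agent.P.MP_dba3d2_lc

open Filter

theorem p_C_G20S (hELEM : S_ELEM) (hLINE : S_LINE) (hPERC : S_PERC) (hC_ARC : S_C_ARC) (hC_REDX : S_C_REDX) (hC_NFE : S_C_NFE) :
    S_C_G20S := by
  rintro Γ a F hF μ hμ h hh hl p q hn hp hq ⟨g, hg, sg⟩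
  obtain ⟨w, hw, rfl⟩ := (hC_NFE Γ a F hF).1 h hh
  have fin : ∀ z b : MM Γ a, Prim b → Ep (z * b * z⁻¹) = Ep g → Stab μ p q (z * b * z⁻¹) :=
    fun z b hb e => ⟨(hb.conj z).fix hELEM hLINE hg e sg.1, (hb.conj z).fix hELEM hLINE hg e sg.2⟩
  obtain ⟨L₁, x, L₂, p', q', e, ⟨n', s'⟩, h1, h2⟩ := (Geo.cut hμ
    (fun p' q' => Ls μ (ds p' q') ∧ Stab μ p' q' g) False (fun _ _ k => k.1)
    (fun p' q' m k hm => (Ls.add_cases (k.1.mono_right (ds_tri p' m q'))).imp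
      (fun l => ⟨l, k.2.sub hμ (on_left hμ.pos.le _ _) hm⟩)
      fun l => .inl ⟨l, k.2.sub hμ hm (on_right hμ.pos.le _ _)⟩)
    _ 1 p q (hw.geo' hμ hl) (by rwa [idC_prod, one_mul]) (by rwa [idC_prod, one_mul])
    ⟨hn, sg⟩).resolve_left id
  obtain ⟨w1, w2, rfl, rfl, e2⟩ := List.map_eq_append_iff.1 e
  obtain ⟨⟨t, y⟩, w3, rfl, rfl, -⟩ := List.map_eq_cons_iff.1 e2
  have ez : (w1.map fun s => (idC F).π s.2).prod = vl w1 := idC_prod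
  rw [ez, one_mul, idC_π] at h1 h2
  have hz : vl w1 ∈ F false ⊔ F true := (Cv.wd_append.1 hw.wd).1.mem_P
  have ok := hw.wd (t, y) (by simp)
  have ly : Ls (ln y) μ := by
    refine Ls.mono_left ?_ (hw.ls hμ hl)
    simpa using Cv.sl_sub (C := idC F) (single_sub (show (t, y) ∈ w1 ++ (t, y) :: w3 by simp))
  have k1 : On μ ((vl w1)⁻¹ * p') 1 y := by simpa using h1.mul (vl w1)⁻¹
  have k2 : On μ ((vl w1)⁻¹ * q') 1 y := by simpa using h2.mul (vl w1)⁻¹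
  have n2 : Ls μ (ds ((vl w1)⁻¹ * p') ((vl w1)⁻¹ * q')) := by rwa [ds_mul_left]
  have key : ∀ b, Prim b → Stab μ ((vl w1)⁻¹ * p') ((vl w1)⁻¹ * q') b →
      Ep (vl w1 * b * (vl w1)⁻¹) = Ep g := fun b hb sb =>
    Ep_eq_of_stab hELEM hPERC hμ n' (hb.conj _).1 hg (by simpa using (stab_conj (vl w1)).2 sb) s'
  rcases t with o | c
  · obtain ⟨b, b1, b2, b3⟩ := (hF.gcx o).g20 μ hμ y ok.2 ly _ _ n2 k1 k2
      ((per_mul_iff _).2 ⟨g, hg, s'⟩)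
    obtain ⟨o1, d, d1, -, u, hu, -, -, -, -, -, d2, -⟩ :=
      hC_REDX Γ a F hF o o b b1 b b1 b2 b2 1 (Cj.one_iff.2 rfl)
    exact ⟨vl w1 * u, mul_mem hz (XF_le_P o hu), o1, d, d1,
      fin _ _ d1.2.1 (Cj.mul (key b b2 b3) d2)⟩
  · have nb := hw.nz.big (s := (.inr c, y)) (by simp) hμ (by simpa using On.nondeg hμ k1 k2 n2)
    have sc : Stab μ _ _ c := hC_ARC Γ a F hF μ (.inr c) y _ _ hμ ok.1 ok.2 nb ly k1 k2
    exact ⟨vl w1, hz, none, c, ⟨ok.1.1, ok.1.2.1, ok.1.2.2, fun k => absurd rfl k⟩,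
      fin _ _ ok.1.2.1 (key c ok.1.2.1 sc)⟩

end Pool.Agent.P.MP_dba3d2_lc
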