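import Pool.Agent.P.MP_dba3d2_lc.C.IfaceT2
import Pool.Agent.P.MP_dba3d2_lc.C.TTb

/-! Step C_GEOP of the stability project. -/

namespace Pool.Agent.P.MP_dba3d2_lc

open Filter

theorem p_C_GEOP (hC_T : S_C_T) (hC_JLONG : S_C_JLONG) (hC_JSHORT : S_C_JSHORT) (hC_PATHW : S_C_PATHW) (hC_LEFT : S_C_LEFT) :
    S_C_GEOP := by
  intro Γ a F T
  have k : ∀ ν s z s', Big ν → (idC F).JOK s z s' → ¬ Ovp F ν s (vl z) s' :=
    fun ν s z s' hν j ho => hC_JSHORT Γ a F T _ (idC F) ν s z s' hν j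
      (hC_JLONG Γ a F T _ (idC F) ν s z s' hν j.okl j.okr j.min (idC_lift _ _ _)
        (hC_T Γ a F T _ j.min.1.mem_P _ _) ho) ho
  have k1 : ∀ w, (idC F).Good w → (idC F).NzE w → Nice F w := fun w hw hz =>
    ⟨hw.1, hz, fun ν hν hl => by
      by_contra hc
      obtain ⟨A, s, z, s', B, rfl, -, -, -, ho⟩ := hC_PATHW Γ a F T _ (idC F) ν w hν hw.1 hz hl hc
      exact k ν s z s' hν hw.jok ho⟩
  refine ⟨k1, fun b s v hw hz he hf hn hb _ hfo => ?_⟩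
  rw [inv_inv, ln_inv] at hfo
  rw [ln_inv] at hb
  have N := k1 _ hw hz
  obtain ⟨z, s', B, rfl, -, ho⟩ := hC_LEFT Γ a F T _ b s v hb he hf hn hw.1 hz
    (N.ls hb (Ls.refl' _)) (N.geo' hb (Ls.refl' _)) hfo
  exact k _ s z s' hb (Cv.Good.jok (p := []) hw) ho

end Pool.Agent.P.MP_dba3d2_lc
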