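import Pool.Agent.P.MP_dba3d2_lc.C.IfaceT

/-! Step C_GRAPH of the stability project. -/

namespace Pool.Agent.P.MP_dba3d2_lc

open Filter

theorem p_C_GRAPH :
    S_C_GRAPH := by
  intro G G' _ _ X Y θ0 θ1 H h0 h1 hk
  -- uniqueness of the second coordinate
  have huniq : ∀ (g : G) (u v : G'), (g, u) ∈ H → (g, v) ∈ H → u = v := by
    intro g u v hu hv
    have h2 : ((g, u) : G × G')⁻¹ * (g, v) ∈ H := H.mul_mem (H.inv_mem hu) hv
    have h3 : ((g, u) : G × G')⁻¹ * (g, v) = ((1 : G), u⁻¹ * v) := by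
      ext <;> simp
    rw [h3] at h2
    exact inv_mul_eq_one.mp (hk _ h2)
  -- existence of the second coordinate
  have hle : X ⊔ Y ≤ H.map (MonoidHom.fst G G') := by
    refine sup_le ?_ ?_
    · intro x hx
      exact ⟨(x, θ0 ⟨x, hx⟩), h0 ⟨x, hx⟩, rfl⟩
    · intro y hy
      exact ⟨(y, θ1 ⟨y, hy⟩), h1 ⟨y, hy⟩, rfl⟩
  have hex : ∀ g : ↥(X ⊔ Y), ∃ u : G', ((g : G), u) ∈ H := by
    intro g
    obtain ⟨p, hp, hpe⟩ := hle g.2
    refine ⟨p.2, ?_⟩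
    have h4 : ((g : G), p.2) = p := by
      ext
      · exact hpe.symm
      · rfl
    rw [h4]
    exact hp
  choose f hf using hex
  refine ⟨MonoidHom.mk' f ?_, ?_, ?_⟩
  · intro a b
    refine huniq ((a * b : ↥(X ⊔ Y)) : G) _ _ (hf _) ?_
    exact H.mul_mem (hf a) (hf b)
  · intro x
    exact huniq (x : G) _ _ (hf ⟨x, (le_sup_left : X ≤ X ⊔ Y) x.2⟩) (h0 x)
  · intro y
    exact huniq (y : G) _ _ (hf ⟨y, (le_sup_right : Y ≤ X ⊔ Y) y.2⟩) (h1 y)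

end Pool.Agent.P.MP_dba3d2_lc
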