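import Pool.Agent.P.MP_dba3d2_lc.C.IfaceT
import Pool.Agent.P.MP_dba3d2_lc.A.Iface
import Pool.Agent.P.MP_dba3d2_lc.B.Iface
import Pool.Agent.P.MP_dba3d2_lc.C.LTb

/-! Step C_GRTW of the stability project. -/

namespace Pool.Agent.P.MP_dba3d2_lc

open Filter

namespace C_grtwA

variable {Γ : HG} {a : Amb} {H W : Subgroup (MM Γ a)}

theorem mem_of_ls (hs : Sep H W) {h w : MM Γ a} (hh : h ∈ H) (hw : w ∈ W) (h0 : 0 < ln w)
    (hl : Ls (ln h) (ln w)) : h ∈ W := by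
  by_contra k
  have k1 := hs h hh k w hw
  have k2 : 0 < ln h := h0.trans_le (by simpa using k1 1)
  exact k1.not_ls k2 hl

theorem nb_one : ¬ Big (ln (1 : MM Γ a)) := fun h => by
  have := h.pos
  rw [ln_one] at this
  exact lt_irrefl _ this

theorem nm (hs : Sep H W) (i : Bool) {y : MM Γ a} (hy : y ∈ (bif i then W else H))
    (hn : y ∉ H ⊓ W) : NM (bif !i then W else H) (H ⊓ W) y := by
  intro v hv hvn hb hsim _
  cases i
  · exact hn ⟨hy, mem_of_ls hs hy hv (hsim.2.pos hb.pos) hsim.2⟩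
  · exact hvn ⟨hv, mem_of_ls hs hv hy hb.pos hsim.1⟩

end C_grtwA

open C_grtwA in
theorem p_C_GRTW (hELEM : S_ELEM) (hLINE : S_LINE) (hPERC : S_PERC) (hROOT : S_ROOT) (hNORM : S_NORM) (hTRUNC : S_TRUNC) :
    S_C_GRTW := by
  intro Γ a H W hH hW hs
  have gc : ∀ i, GC0 (bif i then W else H) := fun i => by cases i; exacts [hH, hW]
  refine ⟨gc, hTRUNC Γ a H W hH hW.base hs, ?_, ?_, ?_, ?_, ?_, ?_⟩
  · intro μ hμ u hu v hv lu lv x p q ov np
    have k := On.nondeg hμ ov.2.2.2.1 ov.2.2.2.2 ov.1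
    rw [ds_mul_right] at k
    have uW : u ∈ W := mem_of_ls hs hu hv (k.pos hμ.pos) (lu.trans' k)
    exact ⟨1, H.one_mem, x, hW.g2 μ hμ u uW v hv lu lv x p q ov np, (one_mul x).symm⟩
  · intro c0 h0 c1 h1 p0 p1 x cj
    obtain ⟨p, hp, -, cen⟩ := hH.cen1 h0 p0.1
    have cH : p⁻¹ * c0 * p ∈ H := H.mul_mem (H.mul_mem (H.inv_mem hp) h0) hp
    have l1 := p0.md_ls hELEM hLINE (p1.conj x).1 (Eq.symm cj)
    rw [md_conj'] at l1
    have l2 : Ls (ln (p⁻¹ * c0 * p)) (ln c1) := by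
      have := cen
      rw [Cen, md_conj] at this
      exact (this.trans' l1).mono_right (md_le_ln c1)
    have cW : p⁻¹ * c0 * p ∈ W := mem_of_ls hs cH h1
      (one_pos.trans_le ((one_le_md' p1.1).trans (md_le_ln c1))) l2
    have j1 : Cj p (p⁻¹ * c0 * p) c0 := by
      rw [Cj]; congr 1; group
    have j2 := cj.inv.mul j1
    obtain ⟨h, hh, e⟩ := (hROOT Γ a W hW).2.2.2.2.2 c1 h1 _ cW p1.1 (p0.conj' p).1 _ j2
    have j3 := (Cj.of_mem (inv_mem e)).mul j2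
    have e3 : (x⁻¹ * p * h⁻¹)⁻¹ * (x⁻¹ * p) = h := by group
    rw [e3] at j3
    exact ⟨_, ⟨cH, cW⟩, p0.conj' p, p, hp, h, hh, j1, j3⟩
  · intro i x hx hn c hc c' hc' pc pc' cj
    cases i
    · refine ⟨hc, ?_⟩
      by_contra k
      have l := (hs c hc k x hx).mono_right (le_add_of_nonneg_right (ln_nonneg c'))
      exact hn ⟨((hROOT Γ a H hH).2.1 c hc c' hc' pc pc' x cj).1 l, hx⟩
    · refine ⟨?_, hc⟩
      have k : x ∉ W := fun k => hn ⟨hx, k⟩
      have l1 := hs x hx k c hc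
      have l2 := hs x hx k c' hc'
      have hμ : Big (ln x) :=
        big_iff_ll.2 (Ll.mono_left ((one_le_md' pc.1).trans (md_le_ln c)) l1)
      have st : Stab (ln x) 1 x c := by
        refine ⟨by rwa [ds_one_mul], pc.fix hELEM hLINE (pc'.conj x).1 (Eq.symm cj) ?_⟩
        rwa [inv_mul_cancel_right, ds_mul_right]
      have e : ds 1 x = ln x := ds_one_left x
      exact hH.per_mem hELEM hPERC hROOT hμ H.one_mem hx (e ▸ Ls.refl' _) (e ▸ Ls.refl' _)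
        (on_left hμ.pos.le 1 x) (on_right hμ.pos.le 1 x) pc st
  · intro i y hy hn
    exact ⟨1, Subgroup.one_mem _, by rw [mul_one]; exact nm hs i hy hn⟩
  · intro i y hy hn _
    refine ⟨1, Subgroup.one_mem _, 1, Subgroup.one_mem _, ?_⟩
    rw [mul_one, one_mul]
    exact ⟨nm hs i hy hn, nm hs i (inv_mem hy) fun k => hn (inv_mem_iff.1 k)⟩
  · intro i c hc pc cen y hy _
    obtain ⟨f, hf, fE, -, ne⟩ := (hNORM Γ a _ (gc i)).1 c hc pc cen y⁻¹ (inv_mem hy)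
    refine ⟨f⁻¹, inv_mem hf, inv_mem fE, ?_⟩
    by_cases k : f⁻¹ * y ∈ H ⊓ W
    · refine ⟨_, inv_mem k, ?_⟩
      rw [mul_inv_cancel, inv_one]
      exact ⟨fun _ _ _ hb => (nb_one hb).elim, fun hb => (nb_one hb).elim⟩
    · refine ⟨1, Subgroup.one_mem _, ?_⟩
      rw [mul_one, mul_inv_rev, inv_inv]
      exact ⟨nm hs i (mul_mem (inv_mem hf) hy) k, ne⟩

end Pool.Agent.P.MP_dba3d2_lc
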