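import Pool.Agent.P.MP_dba3d2_lc.C.IfaceT2
import Pool.Agent.P.MP_dba3d2_lc.C.TTb

/-! Step C_INJ of the stability project. -/

namespace Pool.Agent.P.MP_dba3d2_lc

open Filter

namespace C_injA

variable {Γ : HG} {a : Amb} {F : Bool → Subgroup (MM Γ a)} {G : Type} [Group G] {C : Cv F G}

theorem vl_mem {w : List (Tg Γ a × G)} {H : Subgroup G} (h : ∀ s ∈ w, s.2 ∈ H) : vl w ∈ H := by
  induction w with
  | nil => exact one_mem _
  | cons s w ih =>
    rw [vl_cons]
    exact mul_mem (h s (by simp)) (ih fun t ht => h t (by simp [ht]))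

theorem rot_one {w v : List (Tg Γ a × G)} (h : C.Wd w) (k : w ~r v) (e : C.π (vl w) = 1) :
    C.π (vl v) = 1 := by
  obtain ⟨-, -, -, g, -, h4⟩ := h.rot k
  simp [h4, e]

theorem short_of {s s' : Tg Γ a × G} {ρ : List (Tg Γ a × G)} (h : C.JOK s' ρ s)
    (hc : ct ρ + kc s.1 + kc s'.1 ≤ lb s.1 s'.1) : Short s'.1 ρ s.1 ∧ ρ.length ≤ 1 := by
  obtain ⟨t, x⟩ := s
  obtain ⟨t', x'⟩ := s'
  have z0 : ct ρ ≤ 0 → Short t' ρ t ∧ ρ.length ≤ 1 := fun k => by
    obtain rfl := ct_eq_zero k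
    exact ⟨.inl rfl, by simp⟩
  rcases t with o | c <;> rcases t' with o' | c'
  · have k2 : ct ρ ≤ 2 := by
      rcases o with _ | i <;> rcases o' with _ | j <;> simp only [lb, kc_inl, kx_none, kx_some] at hc
      · omega
      · omega
      · omega
      · split_ifs at hc <;> omega
    rcases Cv.CMin.short (o := o') h.min h.okl.1 k2 with rfl | ⟨c, e, rfl⟩
    · exact ⟨.inl rfl, by simp⟩
    · exact ⟨.inr (.inr ⟨o', o, c, e, rfl, rfl, rfl⟩), by simp⟩
  · refine z0 ?_
    simp only [lb, kc_inl, kc_inr] at hc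
    omega
  · refine z0 ?_
    simp only [lb, kc_inl, kc_inr] at hc
    omega
  · simp only [lb, kc_inr] at hc
    omega

theorem junc {X : Type} {s s' t t' : X} {ρ A y B : List X} (h : s' :: ρ ++ [s] = A ++ t :: y ++ t' :: B)
    (hl : ρ.length ≤ 1) : y = [] ∨ (t = s' ∧ y = ρ ∧ t' = s) := by
  rcases y with _ | ⟨u, y⟩
  · exact .inl rfl
  have k := congrArg List.length h
  simp only [List.length_cons, List.length_append, List.length_nil] at k
  obtain rfl : A = [] := List.eq_nil_of_length_eq_zero (by omega)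
  obtain rfl : B = [] := List.eq_nil_of_length_eq_zero (by omega)
  simp only [List.nil_append, List.cons_append, List.cons.injEq] at h
  obtain ⟨rfl, h⟩ := h
  obtain ⟨h1, h2⟩ := List.append_inj' (show ρ ++ [s] = (u :: y) ++ [t'] from h) rfl
  exact .inr ⟨rfl, h1.symm, by simpa using h2.symm⟩

end C_injA

open C_injA in
theorem p_C_INJ (hC_T : S_C_T) (hC_CYCG : S_C_CYCG) (hC_JLONG : S_C_JLONG) (hC_JSHORT : S_C_JSHORT) (hC_PATHW : S_C_PATHW) :
    S_C_INJ := by
  intro Γ a F hF G _ C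
  have main : ∀ n : ℕ, ∀ w, C.Wd w → ct w = n → C.π (vl w) = 1 → vl w = 1 := by
    intro n
    induction n using Nat.strong_induction_on with
    | _ n ih =>
    intro w0 hw0 hn e0
    obtain ⟨w, hw, hz, hc, ⟨g, -, eg⟩, hcase⟩ := hC_CYCG Γ a F hF G C w0 hw0
    have e : C.π (vl w) = 1 := by simp [eg, e0]
    suffices k : vl w = 1 by
      rw [eg] at k
      have : vl w0 = g * (g⁻¹ * vl w0 * g) * g⁻¹ := by group
      rw [this, k]
      simp
    rcases hcase with hl | ⟨c, x, m, hr, -⟩ | hcg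
    · rcases w with _ | ⟨s, _ | ⟨s', w⟩⟩
      · rfl
      · have o := hw s (by simp)
        simpa using Cv.inj' o.1 o.2 (by simpa using e)
      · simp at hl
    · exfalso
      have e1 := rot_one hw hr e
      have o := (hw.rot hr).1 (.inl none, m) (by simp)
      have k1 : C.π m ∈ XF F none := C.le _ o.1 _ o.2
      have k2 : C.π x = (C.π m)⁻¹ := by
        rw [eq_inv_iff_mul_eq_one]
        simpa using e1
      have := hz (.inr c, x) (hr.mem_iff.2 (by simp)) (k2 ▸ inv_mem k1)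
      cases this
    by_cases hν : Big (C.sl w)
    swap
    · refine C.inj _ (vl_mem fun s hs => ?_) e
      have o := hw s hs
      refine Cv.to_base o.1 o.2 (std_le_M hF fun hb => hν fun k => (hb k).trans (Cv.ln_le_sl hs))
    exfalso
    have ng : ¬ Geo (C.sl w) (C.vs w) := fun k => by
      rw [Cv.geo_iff, e] at k
      exact ll_irrefl hν.pos (by simpa using k)
    obtain ⟨A, s, z, s', B, ew, -, b2, lz, ov⟩ :=
      hC_PATHW Γ a F hF G C _ w hν hw hz.nzE (Ls.refl' _) ng
    generalize hν' : C.sl w = ν at hν lz ov b2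
    have r1 : w ~r s :: (z ++ s' :: (B ++ A)) := by
      rw [ew]
      simpa using List.isRotated_append (l := A) (l' := s :: z ++ s' :: B)
    have r2 : w ~r s' :: ((B ++ A) ++ s :: z) := by
      rw [ew]
      simpa using List.isRotated_append (l := A ++ s :: z) (l' := s' :: B)
    generalize B ++ A = ρ at r1 r2
    have j1 : C.JOK s z s' := (hcg.2 _ _ r1).2 s z s' ⟨[], ρ ++ [s], by simp⟩
    have g2 : C.Good (s' :: ρ ++ [s]) := (hcg.2 _ _ r2).sub ⟨[], z ++ [s'], by simp⟩
    have c1 : kc s.1 + (ct z + (kc s'.1 + ct ρ)) = ct w := by simpa using (hw.rot r1).2.1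
    by_cases hlt : ct z + lb s.1 s'.1 < ct w
    · have li : C.Lift s.1 z s'.1 := fun r hr h1 h2 => by
        have := ih (ct (winv r ++ z)) (by simp; omega) (winv r ++ z)
          (Cv.wd_append.2 ⟨hr.winv, j1.min.1⟩) rfl (by simp [h2])
        simpa [inv_mul_eq_one] using this
      exact hC_JSHORT Γ a F hF G C ν s z s' hν j1
        (hC_JLONG Γ a F hF G C ν s z s' hν j1.okl j1.okr j1.min li
          (hC_T Γ a F hF _ j1.min.1.mem_P _ _) ov) ov
    obtain ⟨sh, hl⟩ := short_of (g2.2 s' ρ s ⟨[], [], by simp⟩) (by omega)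
    have sub : s' :: ρ ++ [s] ⊆ w := fun u hu => r2.mem_iff.2 (by
      simp only [List.mem_cons, List.mem_append, List.cons_append, List.not_mem_nil] at hu ⊢
      tauto)
    have e2 : C.π (vl (s' :: ρ ++ [s])) = (C.π (vl z))⁻¹ := by
      rw [eq_inv_iff_mul_eq_one]
      simpa [mul_assoc] using rot_one hw r2 e
    have s2 : C.sl (s' :: ρ ++ [s]) ≤ ν := by
      have h1 := (hw.rot r2).2.2.1
      have h2 := Cv.sl_sub (C := C) (v := s' :: ρ ++ [s]) (w := s' :: (ρ ++ s :: z)) ⟨[], z, by simp⟩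
      rw [← hν', ← h1]
      exact h2
    have ng2 : ¬ Geo ν (C.vs (s' :: ρ ++ [s])) := fun k => by
      have h1 := k.ls_mem hν (x := C.π s'.2) (by simp) b2
      rw [Cv.vs_prod, e2, ln_inv] at h1
      have h2 := lz.lt_of_ls h1 hν.pos 1
      have h3 := Cv.ln_vl_le (C := C) (w := z)
      simp only [Nat.cast_one, one_mul] at h2
      exact absurd h2 (not_lt.2 h3)
    obtain ⟨A', t, y, t', B', ev, -, -, -, ov'⟩ :=
      hC_PATHW Γ a F hF G C ν _ hν g2.1 (hz.sub sub).nzE ⟨1, by simpa using s2⟩ ng2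
    have j2 : C.JOK t y t' := (ev ▸ g2).jok
    refine hC_JSHORT Γ a F hF G C ν t y t' hν j2 ?_ ov'
    rcases junc ev hl with rfl | ⟨rfl, rfl, rfl⟩
    exacts [.inl rfl, sh]
  intro g hg e
  obtain ⟨w, hw, rfl⟩ := Cv.exists_word hg
  exact main _ w hw rfl e

end Pool.Agent.P.MP_dba3d2_lc
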