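import Pool.Agent.P.MP_dba3d2_lc.C.IfaceT
import Pool.Agent.P.MP_dba3d2_lc.A.Iface
import Pool.Agent.P.MP_dba3d2_lc.C.TTb

/-! Step C_J0 of the stability project. -/

namespace Pool.Agent.P.MP_dba3d2_lc

open Filter

namespace C_j0A

variable {Γ : HG} {a : Amb} {F : Bool → Subgroup (MM Γ a)} {ν : a.K} {t : Tg Γ a}
  {y p q : MM Γ a}

theorem att (hF : TwoF F) (hν : Big ν) (hn : Ls ν (ds p q)) (ht : TOK F (fun _ => True) t)
    (hy : y ∈ LF F t) (h : Arc F ν t y p q) (hp : Per ν p q) : ∃ b, Att F ν t y p q b := by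
  cases t with
  | inr c => exact ⟨c, ht.1, ht.2.1, h, fun _ e => Sum.inr.inj e, fun _ e => by cases e⟩
  | inl o =>
    rcases h with ⟨h1, h2, h3⟩ | ⟨b, h1, h2, h3, h4⟩
    · obtain ⟨b, b1, b2, b3⟩ := (hF.gcx o).g20' hν (one_mem _) hy (by simpa using h1) hn h2 h3 hp
      exact ⟨b, b1, b2, b3, fun _ e => (by cases e), fun _ _ _ => ⟨h1, h2, h3⟩⟩
    · exact ⟨b, h1, h3, h4, fun _ e => (by cases e), fun _ _ e => absurd e h2⟩

theorem nper (ht : TOK F (fun _ => True) t) (h : Arc F ν t y p q) (hp : ¬ Per ν p q) :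
    ∃ o, t = .inl o ∧ Ls (ln y) ν ∧ On ν p 1 y ∧ On ν q 1 y := by
  cases t with
  | inr c => exact absurd ⟨c, ht.2.1.1, h⟩ hp
  | inl o =>
    rcases h with h | ⟨b, -, -, h3, h4⟩
    exacts [⟨o, rfl, h⟩, absurd ⟨b, h3.1, h4⟩ hp]

end C_j0A

theorem p_C_J0 (hELEM : S_ELEM) (hPERC : S_PERC) :
    S_C_J0 := by
  intro Γ a F hF ν t t' y y' z p q hν hn ht ht' hy hy' h h'
  have hn' : Ls ν (ds (z⁻¹ * p) (z⁻¹ * q)) := by rwa [ds_mul_left]
  by_cases hp : Per ν p q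
  · obtain ⟨b, hb⟩ := C_j0A.att hF hν hn ht hy h hp
    obtain ⟨b', hb'⟩ := C_j0A.att hF hν hn' ht' hy' h' ((per_mul_iff _).2 hp)
    refine .inr ⟨b, b', hb, hb', ?_⟩
    have s := (stab_conj z).2 hb'.2.2.1
    rw [mul_inv_cancel_left, mul_inv_cancel_left] at s
    exact Ep_eq_of_stab hELEM hPERC hν hn (hb'.2.1.conj z).1 hb.2.1.1 s hb.2.2.1
  · have hp' : ¬ Per ν (z⁻¹ * p) (z⁻¹ * q) := fun e => hp ((per_mul_iff _).1 e)
    obtain ⟨o, rfl, l, a1, a2⟩ := C_j0A.nper ht h hp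
    obtain ⟨o', rfl, l', a3, a4⟩ := C_j0A.nper ht' h' hp'
    have ov : Ov ν p q 1 y z (z * y') :=
      ⟨hn, a1, a2, by simpa using a3.mul z, by simpa using a4.mul z⟩
    have g2 : ∀ u, y ∈ XF F u → y' ∈ XF F u → z ∈ XF F u := fun u m m' =>
      (hF.gcx u).g2 ν hν y m y' m' l l' z p q ov hp
    refine .inl ⟨o, o', rfl, rfl, ?_⟩
    rcases o with _ | i
    · exact ⟨1, one_mem _, z, g2 o' (M_le_XF o' hy) hy', (one_mul z).symm⟩
    rcases o' with _ | j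
    · exact ⟨z, g2 _ hy (M_le_XF _ hy'), 1, one_mem _, (mul_one z).symm⟩
    cases i <;> cases j
    · exact ⟨z, g2 _ hy hy', 1, one_mem _, (mul_one z).symm⟩
    · exact hF.i1 ν hν y hy y' hy' l l' z p q ov hp
    · obtain ⟨g, hg, g', hg', e⟩ := hF.i1 ν hν y' hy' y hy l' l z⁻¹ _ _
        (by simpa using (ov.mul z⁻¹).symm) hp'
      exact ⟨g'⁻¹, inv_mem hg', g⁻¹, inv_mem hg, by rw [← mul_inv_rev, ← e, inv_inv]⟩
    · exact ⟨z, g2 _ hy hy', 1, one_mem _, (mul_one z).symm⟩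

end Pool.Agent.P.MP_dba3d2_lc
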