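import Pool.Agent.P.MP_dba3d2_lc.C.IfaceT2
import Pool.Agent.P.MP_dba3d2_lc.C.IfaceT
import Pool.Agent.P.MP_dba3d2_lc.C.TTb

/-! Step C_JLONG of the stability project. -/

namespace Pool.Agent.P.MP_dba3d2_lc

open Filter

namespace C_jlongA

variable {Γ : HG} {a : Amb} {F : Bool → Subgroup (MM Γ a)} {G : Type} [Group G] {C : Cv F G}
  {t t' : Tg Γ a} {z : List (Tg Γ a × G)}

/-- an inside that is a product of elements of the two end groups is empty -/
theorem two (ht : TOK F C.S t) (ht' : TOK F C.S t') (hm : C.CMin (C.L t) (C.L t') z)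
    (hl : C.Lift t z t') (hc : kc t + kc t' ≤ lb t t') {g g' : MM Γ a} (hg : g ∈ LF F t)
    (hg' : g' ∈ LF F t') (e : C.π (vl z) = g * g') : z = [] := by
  obtain ⟨x, hx, rfl⟩ := C.sur t ht g hg
  obtain ⟨x', hx', rfl⟩ := C.sur t' ht' g' hg'
  have := hl [(t, x), (t', x')] (Cv.wd_cons.2 ⟨⟨ht, hx⟩, Cv.wd_single ⟨ht', hx'⟩⟩)
    (by simpa using hc) (by simp [e])
  exact hm.eq_nil hx hx' (by simpa using this.symm)

theorem lb2 (o o' : Option Bool) :
    kc (.inl o : Tg Γ a) + kc (.inl o' : Tg Γ a) ≤ lb (.inl o : Tg Γ a) (.inl o') := by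
  rcases o with _ | _ | _ <;> rcases o' with _ | _ | _ <;> simp [lb]

theorem lb3 {o o' : Option Bool} (h : ¬ ∃ i, o = some i ∧ o' = some (!i)) :
    kx o + (2 + kx o') ≤ lb (.inl o : Tg Γ a) (.inl o') := by
  rcases o with _ | _ | _ <;> rcases o' with _ | _ | _ <;> simp [lb] at h ⊢

end C_jlongA

open C_jlongA in
theorem p_C_JLONG (hC_EMEM : S_C_EMEM) (hC_J0 : S_C_J0) :
    S_C_JLONG := by
  rintro Γ a F hF G _ C ν ⟨t, x⟩ z ⟨t', x'⟩ hν hs hs' hm hl htc ⟨q, q1, q2, q3⟩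
  rcases hC_J0 Γ a F hF ν t t' (C.π x)⁻¹ (C.π x') (C.π (vl z)) 1 q hν (by rwa [ds_one_left])
    hs.1.top hs'.1.top (inv_mem hs.pr.2) hs'.pr.2 q2 (by rwa [mul_one]) with
    ⟨o, o', rfl, rfl, g, hg, g', hg', e⟩ | ⟨b, b', hb, hb', hj⟩
  · exact .inl (two hs.1 hs'.1 hm hl (lb2 o o') hg hg' e)
  rcases htc b hb.1 b' hb'.1 hb.2.1 hb'.2.1 hj with
    ⟨c, c1, c2, c3, e, he, g, hg, g', hg', k, j, j'⟩ | ⟨i, h1, h2, h3⟩
  · rcases t with o | d <;> rcases t' with o' | d'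
    · by_cases h : ∃ i, o = some i ∧ o' = some (!i)
      · obtain ⟨i, rfl, rfl⟩ := h
        obtain ⟨u, hu, v, hv, -, -, rfl⟩ := hC_EMEM Γ a F hF c c1 c2.1 i e he
        exact .inl (two hs.1 hs'.1 hm hl (lb2 _ _) (mul_mem hg hu) (mul_mem hv (inv_mem hg'))
          (by rw [k]; group))
      · obtain ⟨u, hu, rfl⟩ := C.sur (.inl o) hs.1 g hg
        obtain ⟨v, hv, rfl⟩ := C.sur (.inl o') hs'.1 g' hg'
        obtain ⟨w, hw, rfl⟩ := C.sur (.inr c) ⟨c1, c2, c3⟩ e he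
        have hw' : C.ok (.inr c, w) := ⟨⟨c1, c2, c3⟩, hw⟩
        have k1 := hl [(.inl o, u), (.inr c, w), (.inl o', v⁻¹)] (Cv.wd_cons.2 ⟨⟨hs.1, hu⟩,
          Cv.wd_cons.2 ⟨hw', Cv.wd_single ⟨hs'.1, inv_mem hv⟩⟩⟩) (by simpa using lb3 h)
          (by simp [k, mul_assoc])
        have k2 := hm.2 [(.inr c, w)] (Cv.wd_single hw') u⁻¹ (inv_mem hu) v hv
          (by simp [← k1, mul_assoc])
        rcases hm.short hs.1 (by simpa using k2) with k3 | ⟨c', e', k3⟩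
        exacts [.inl k3, .inr (.inr ⟨o, o', c', e', rfl, rfl, k3⟩)]
    · obtain rfl := hb'.2.2.2.1 d' rfl
      exact .inl (two hs.1 hs'.1 hm hl (by simp [lb]) (mul_mem hg (inv_mem (M_le_XF o hg')))
        (EF_conj hg' j' he) (by rw [k]; group))
    · obtain rfl := hb.2.2.2.1 d rfl
      exact .inl (two hs.1 hs'.1 hm hl (by simp [lb]) (EF_conj hg j he)
        (mul_mem (M_le_XF o' hg) (inv_mem hg')) (by rw [k]; group))
    · obtain rfl := hb.2.2.2.1 d rfl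
      obtain ⟨u, hu, u1⟩ := C.sur (.inr b) hs.1 _ (EF_conj hg j he)
      obtain ⟨m, hm1, m1⟩ := Cv.lift_base (C := C) (mul_mem hg (inv_mem hg'))
      have k1 := hl [(.inr b, u), (.inl none, m)] (Cv.wd_cons.2 ⟨⟨hs.1, hu⟩,
        Cv.wd_single (Cv.ok_base hm1)⟩) (by simp [lb]) (by simp [k, u1, m1, mul_assoc])
      have k2 := hm.2 [(.inl none, m)] (Cv.wd_single (Cv.ok_base hm1)) u⁻¹ (inv_mem hu) 1
        (one_mem _) (by simp [← k1])
      rcases z with _ | ⟨⟨t, y⟩, z⟩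
      · exact .inl rfl
      · simp only [ct_cons, ct_nil, kc_inl, kx_none, add_zero] at k2
        obtain rfl := kc_eq_one (t := t) (by omega)
        obtain rfl : z = [] := ct_eq_zero (by simpa using k2)
        exact .inr (.inl ⟨b, d', y, rfl, rfl, rfl⟩)
  · rcases t with o | d
    · rcases t' with o' | d'
      · obtain rfl : o = some i := h1
        exact .inl (two hs.1 hs'.1 hm hl (lb2 _ _) h3 (one_mem _) (mul_one _).symm)
      · cases h2
    · cases h1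

end Pool.Agent.P.MP_dba3d2_lc
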