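import Pool.Agent.P.MP_dba3d2_lc.C.IfaceT
import Pool.Agent.P.MP_dba3d2_lc.A.Iface
import Pool.Agent.P.MP_dba3d2_lc.B.Iface
import Pool.Agent.P.MP_dba3d2_lc.C.TTb

/-! Step C_JS0 of the stability project. -/

namespace Pool.Agent.P.MP_dba3d2_lc

open Filter

namespace C_js0A

variable {Γ : HG} {a : Amb} {F : Bool → Subgroup (MM Γ a)} {ν : a.K} {c y v q : MM Γ a}
  {o : Option Bool}

theorem nm {G M : Subgroup (MM Γ a)} (h : NM G M y) (hv : v ∈ G) (hv' : v ∉ M) (hν : Big ν)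
    (l : Ls (ln y⁻¹) ν) (l' : Ls (ln v) ν) (hq : Ls ν (ln q)) (a1 : On ν q 1 y⁻¹)
    (a2 : On ν q 1 v) : False := by
  have n : Ls ν (ds 1 q) := by simpa using hq
  have s : Sim (ln y) ν := ⟨by simpa using l, by
    simpa using On.nondeg hν (on_left hν.pos.le 1 y⁻¹) a1 n⟩
  have s' : Sim (ln v) ν := ⟨l', by simpa using On.nondeg hν (on_left hν.pos.le 1 v) a2 n⟩
  have b := s.big_iff.2 hν
  have k := (s.on_iff (ln_nonneg _) hν.pos.le).1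
    ((not_ovl_iff b).1 (h v hv hv' b (s'.trans' s.symm')))
  exact ((k.sub' a2).2.antisymm a1.symm).not_ls hν.pos n

theorem ne (hE : S_ELEM) (hP : S_PERC) (hR : S_ROOT) (hF : TwoF F) (hν : Big ν)
    (hq : Ls ν (ln q)) (hc : TOK F (fun _ => True) (.inr c)) (h : NE c y)
    (a1 : Arc F ν (.inl o) y⁻¹ 1 q) (a2 : Stab ν 1 q c) : False := by
  rcases a1 with ⟨h1, -, h3⟩ | ⟨b, -, h2, h3, h4⟩
  · exact h.not_fol hν (by simpa using h1) ⟨q, hq, h3, a2⟩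
  · exact h2 (hF.root4 hR hc.1 hc.2.1.1 h3
      (Ep_eq_of_stab hE hP hν (by simpa using hq) h3.1 hc.2.1.1 h4 a2))

end C_js0A

theorem p_C_JS0 (hELEM : S_ELEM) (hPERC : S_PERC) (hROOT : S_ROOT) :
    S_C_JS0 := by
  rintro Γ a F hF ν ⟨t, y⟩ ⟨t', y'⟩ hν hs hs' hp ⟨q, hq, a1, a2⟩
  rw [inv_one, one_mul] at a2
  have n : Ls ν (ds 1 q) := by simpa using hq
  rcases t with o | c <;> rcases t' with o' | c'
  · obtain ⟨i, rfl, rfl, hp⟩ := hp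
    have m : y⁻¹ ∈ F i := inv_mem hs.2
    have m' : y' ∈ F (!i) := hs'.2
    rcases a1 with ⟨h1, h2, h3⟩ | ⟨b, h1, h2, h3, h4⟩ <;>
      rcases a2 with ⟨k1, k2, k3⟩ | ⟨b', k1, k2, k3, k4⟩
    · rcases hp with ⟨e, e'⟩ | ⟨e, e'⟩
      · exact C_js0A.nm e m' e' hν h1 k1 hq h3 k3
      · exact C_js0A.nm e m (by rwa [inv_mem_iff]) hν (by simpa using k1) h1 hq
          (by simpa using k3) h3
    · exact k2 ((mem_M_iff i).2 ⟨(hF.gc i).per_mem hELEM hPERC hROOT hν (one_mem _) m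
        (by simpa using h1) n h2 h3 k3 k4, k1⟩)
    · exact h2 ((mem_M_iff i).2 ⟨h1, (hF.gc (!i)).per_mem hELEM hPERC hROOT hν (one_mem _) m'
        (by simpa using k1) n k2 k3 h3 h4⟩)
    · exact h2 ((mem_M_iff i).2 ⟨h1, hF.root4 (o := some (!i)) hROOT k1 k3.1 h3
        (Ep_eq_of_stab hELEM hPERC hν n h3.1 k3.1 h4 k4)⟩)
  · exact C_js0A.ne hELEM hPERC hROOT hF hν hq hs'.1 hp a1 a2
  · exact C_js0A.ne (o := o') hELEM hPERC hROOT hF hν hq hs.1 hp (by rwa [inv_inv]) a1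
  · exact hp (Ep_eq_of_stab hELEM hPERC hν n hs.1.2.1.1 hs'.1.2.1.1 a1 a2)

end Pool.Agent.P.MP_dba3d2_lc
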