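import Pool.Agent.P.MP_dba3d2_lc.C.IfaceT
import Pool.Agent.P.MP_dba3d2_lc.A.Iface
import Pool.Agent.P.MP_dba3d2_lc.B.Iface
import Pool.Agent.P.MP_dba3d2_lc.C.TTb

/-! Step C_JS2 of the stability project. -/

namespace Pool.Agent.P.MP_dba3d2_lc

open Filter

theorem p_C_JS2 (hELEM : S_ELEM) (hLINE : S_LINE) (hROOT : S_ROOT) (hRIG : S_RIG) (hC_EMEM : S_C_EMEM) (hC_J0 : S_C_J0) :
    S_C_JS2 := by
  rintro Γ a F h ν o o' y y' c e hν hy hy' ⟨c1, c2, -⟩ he hn hs ⟨q, q1, q2, q3⟩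
  have hM : ∀ i x, x ∈ F false ⊓ F true → x ∈ F i := fun i x k => M_le_F (F := F) i k
  rcases hC_J0 Γ a F h ν (.inl o) (.inl o') y⁻¹ y' e 1 q hν (by simpa using q1) trivial trivial
    (inv_mem hy) hy' q2 (by rwa [mul_one]) with
    ⟨_, _, ⟨⟩, ⟨⟩, g, g1, g', g2, k⟩ | ⟨b, b', ⟨b1, b2, b3, -, b4⟩, ⟨b1', b2', -⟩, k⟩
  · exact hs g g1 g' g2 k
  have n1 : e ∉ XF F o := fun k => hs e k 1 (one_mem _) (mul_one e).symm
  have n2 : e ∉ XF F o' := fun k => hs 1 (one_mem _) e k (one_mul e).symm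
  obtain ⟨i, i1, i2, i3⟩ : ∃ i, b ∈ F i ∧ b' ∈ F i ∧ e ∉ F i := by
    rcases opt_cases o o' with ⟨i, rfl | rfl, rfl | rfl⟩ | ⟨i, rfl, rfl⟩
    · by_cases k1 : e ∈ F i
      · exact ⟨!i, M_le_F _ b1, M_le_F _ b1', fun k2 => n1 ((mem_M_iff i).2 ⟨k1, k2⟩)⟩
      · exact ⟨i, M_le_F _ b1, M_le_F _ b1', k1⟩
    · exact ⟨i, M_le_F _ b1, b1', n2⟩
    · exact ⟨i, b1, M_le_F _ b1', n1⟩
    · exact ⟨i, b1, b1', n1⟩
    · obtain ⟨x, x1, x', x2, -, -, k⟩ := hC_EMEM Γ a F h c c1 c2.1 i e he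
      exact absurd k (hs x x1 x' x2)
  have m' : b' ∈ XF F none := by
    obtain ⟨x, x1, x', x2, -, -, rfl⟩ := hC_EMEM Γ a F h c c1 c2.1 i e he
    refine h.i5 i x'⁻¹ (inv_mem x2) (fun k => i3 (mul_mem x1 (hM i _ (inv_mem_iff.1 k)))) b' i2
      (x⁻¹ * b * x) (mul_mem (mul_mem (inv_mem x1) i1) x1) b2' (b2.conj' x) ?_
    simpa using (k.conj x 1).inv
  have m : b ∈ XF F none := by
    obtain ⟨x, x1, x', x2, -, -, rfl⟩ := hC_EMEM Γ a F h c c1 c2.1 (!i) e he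
    rw [Bool.not_not] at x2
    refine h.i5 i x x1 (fun k => i3 (mul_mem (hM i _ k) x2)) b i1
      (x' * b' * x'⁻¹) (mul_mem (mul_mem x2 i2) (inv_mem x2)) b2 (b2'.conj x') ?_
    simpa using k.conj 1 x'⁻¹
  obtain ⟨g, g1, -, g2, -⟩ := h.root6 hROOT m m' b2.1 b2'.1 k
  have e1 : Ep c = Ep b := by
    by_contra n
    have k1 := (hRIG Γ a _ h.gcm).2 b m c c1 b2.1 c2.1 (Ne.symm n) (e * g⁻¹)⁻¹ e
      (InE.of_mem (inv_mem g2)) (InE.of_mem (EF_le_Ep he))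
      (by rwa [show (e * g⁻¹)⁻¹ * e = g by group])
    refine i3 (hM i _ ?_)
    have k2 := mul_mem (inv_mem k1) g1
    rwa [show (e * g⁻¹)⁻¹⁻¹ * g = e by group] at k2
  obtain ⟨l1, -, l2⟩ := b4 o rfl m
  rw [ln_inv] at l1
  exact hn.not_fol hν l1 ⟨q, q1, l2, c2.fix hELEM hLINE b2.1 e1 b3.1,
    c2.fix hELEM hLINE b2.1 e1 b3.2⟩

end Pool.Agent.P.MP_dba3d2_lc
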