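import Pool.Agent.P.MP_dba3d2_lc.C.IfaceT2
import Pool.Agent.P.MP_dba3d2_lc.C.IfaceT
import Pool.Agent.P.MP_dba3d2_lc.C.TTb

/-! Step C_JSHORT of the stability project. -/

namespace Pool.Agent.P.MP_dba3d2_lc

open Filter

theorem p_C_JSHORT (hC_EMEM : S_C_EMEM) (hC_J0 : S_C_J0) (hC_JS0 : S_C_JS0) (hC_JS2 : S_C_JS2) :
    S_C_JSHORT := by
  intro Γ a F hF G _ C ν s z s' hν hj hs
  obtain ⟨t, y⟩ := s
  obtain ⟨t', y'⟩ := s'
  have k := hj.okl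
  have k' := hj.okr
  rcases hs with rfl | ⟨c, c', m, rfl, rfl, rfl⟩ | ⟨o, o', c, e, rfl, rfl, rfl⟩
  · simpa using hC_JS0 Γ a F hF ν _ _ hν k.pr k'.pr hj.pair
  · rintro ⟨q, q1, q2, q3⟩
    rcases hC_J0 Γ a F hF ν (.inr c) (.inr c') _ _ (C.π m) 1 q hν (by simpa using q1) k.pr.1
      k'.pr.1 (inv_mem k.pr.2) k'.pr.2 q2 (by simpa using q3) with
      ⟨o, o', h, -⟩ | ⟨b, b', h1, h2, h3⟩
    · cases h
    · rw [h1.2.2.2.1 c rfl, h2.2.2.2.1 c' rfl] at h3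
      exact hj.he c c' m rfl rfl rfl h3
  · have ke : C.ok (.inr c, e) := hj.wd _ (by simp)
    have ch : NE c (C.π y) := (List.isChain_cons_cons.1 hj.ch).1
    have nil : ∀ x ∈ C.L (.inl o), ∀ x' ∈ C.L (.inl o'), e ≠ x * x' := fun x hx x' hx' h => by
      cases hj.min.eq_nil hx hx' (by simpa using h)
    have key : ∀ g ∈ XF F o, ∀ g' ∈ XF F o', C.π e ≠ g * g' := by
      intro g hg g' hg' h
      have l : C.π e ∉ XF F o := fun m =>
        nil e (C.mem _ o ke.1 k.1 e ke.2 m) 1 (one_mem _) (mul_one e).symm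
      have l' : C.π e ∉ XF F o' := fun m =>
        nil 1 (one_mem _) e (C.mem _ o' ke.1 k'.1 e ke.2 m) (one_mul e).symm
      rcases opt_cases o o' with ⟨i, rfl | rfl, h2⟩ | ⟨i, rfl, rfl⟩
      · exact l' (h ▸ mul_mem (M_le_XF o' hg) hg')
      · exact l (h ▸ mul_mem hg (XF_le_F h2 hg'))
      · obtain ⟨x, x1, x', x2, x3, -, x4⟩ := hC_EMEM Γ a F hF c ke.1.1 ke.1.2.1.1 i _ ke.pr.2
        obtain ⟨v, v1, v2, rfl⟩ := Cv.lift_both (C := C) (o := some i) k.1 ke.1 x1 x3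
        refine nil v v1 (v⁻¹ * e) (C.mem _ _ ke.1 k'.1 _ (mul_mem (inv_mem v2) ke.2) ?_) (by group)
        have x5 : C.π e = C.π v * x' := x4
        rw [map_mul, map_inv, x5, inv_mul_cancel_left]
        exact x2
    simpa [Cv.pr_mk] using hC_JS2 Γ a F hF ν o o' (C.π y) (C.π y') c (C.π e) hν k.pr.2 k'.pr.2 ke.1 ke.pr.2
      ch key

end Pool.Agent.P.MP_dba3d2_lc
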