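import Pool.Agent.P.MP_dba3d2_lc.C.IfaceT2
import Pool.Agent.P.MP_dba3d2_lc.C.IfaceT
import Pool.Agent.P.MP_dba3d2_lc.C.TTb

/-! Step C_LEFT of the stability project. -/

namespace Pool.Agent.P.MP_dba3d2_lc

open Filter

theorem p_C_LEFT (hC_FIRST : S_C_FIRST) (hC_ARC : S_C_ARC) :
    S_C_LEFT := by
  intro Γ a F hF ν b s v hν hE hFar hNE hW hNz hsl hG hFol
  obtain ⟨q, hq1, hq2, hq3⟩ := hFol
  obtain ⟨z0, s1, B, e, hz, hs1, q', h1, h2, h3⟩ :=
    hC_FIRST Γ a ν _ (fun s : Tg Γ a × MM Γ a => (idC F).π s.2) (s :: v) q hν hG hq1 hq2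
  have hst : Stab ν 1 q' b := hq3.sub hν (on_left hν.pos.le _ _) h2
  change Ll ((idC F).sl z0) ν at hz
  change Ls ν (ln s1.2) at hs1
  change On ν ((vl z0)⁻¹ * q') 1 s1.2 at h3
  have hm : ∀ s' ∈ s :: v, Ls (ln s'.2) ν := fun s' hs' =>
    Ls.mono_left (Cv.ln_le_sl (C := idC F) hs') hsl
  rcases z0 with _ | ⟨s0, z⟩
  · obtain ⟨rfl, -⟩ := List.cons.inj e
    refine absurd ?_ (hNE.not_fol hν (by simpa using hm s (by simp)))
    rw [inv_inv]
    exact ⟨q', h1, by simpa using h3, hst⟩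
  · obtain ⟨rfl, rfl⟩ := List.cons.inj e
    rw [Cv.sl_cons] at hz
    have hy : Ll (ln s.2) ν :=
      Ll.mono_left (le_add_of_nonneg_right (Cv.sl_nonneg (C := idC F))) hz
    have hvz : Ll (ln (vl z)) ν :=
      Ll.mono_left ((Cv.ln_vl_le (C := idC F)).trans (le_add_of_nonneg_left (ln_nonneg _))) hz
    have hmem : s1 ∈ s :: (z ++ s1 :: B) := by simp
    refine ⟨z, s1, B, rfl, hs1, s.2⁻¹ * q', ?_, ?_, ?_⟩
    · refine h1.of_le_add hy hν.pos 1 ?_
      have := ln_mul_le s.2 (s.2⁻¹ * q')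
      rw [mul_inv_cancel_left] at this
      simpa [add_comm] using this
    · rcases hE.cases with ⟨rfl, -⟩ | ⟨i, y, rfl, hyF, hbF⟩
      · simpa [Arc] using hst
      · refine Or.inr ⟨y⁻¹ * b * y, mul_mem (mul_mem (inv_mem hyF) hbF) hyF, hFar _ rfl,
          hE.axis.2.1.conj' y, (stab_conj' y).2 ?_⟩
        refine hst.congr (by simpa using hy) ?_
        rw [mul_inv_cancel_left]
        exact FixA.ll_self hν.pos.le _
    · refine hC_ARC Γ a F hF ν s1.1 s1.2 _ _ hν (hW s1 hmem).1 (hW s1 hmem).2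
        (hNz.big hmem hν hs1) (hm s1 hmem) (On.of_near (by simpa using hvz) _) ?_
      simpa [mul_assoc] using h3

end Pool.Agent.P.MP_dba3d2_lc
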