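import Pool.Agent.P.MP_dba3d2_lc.C.IfaceT2
import Pool.Agent.P.MP_dba3d2_lc.C.TTb

/-! Step C_NA of the stability project. -/

namespace Pool.Agent.P.MP_dba3d2_lc

open Filter

theorem p_C_NA (hC_NFE : S_C_NFE) :
    S_C_NA := by
  intro Γ a F hF
  obtain ⟨-, h2, h3⟩ := hC_NFE Γ a F hF
  have k : ∀ b, Anc F b → ∀ h ∈ F false ⊔ F true,
      ∃ f ∈ F false ⊔ F true, f ∈ Ep b ∧ NE b (h * f) := by
    rintro b ⟨-, -, ⟨o, hb⟩ | hb⟩ h hh
    · exact h2 o b hb h hh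
    · exact ⟨1, one_mem _, one_mem _, hb _ (mul_mem hh (one_mem _))⟩
  refine ⟨k, fun b b' hb hb' h hh hj => ?_⟩
  rcases hb'.2.2 with ⟨o', t'⟩ | n'
  · rcases hb.2.2 with ⟨o, t⟩ | n
    · obtain ⟨w, hw, rfl⟩ := exists_wordP hh
      have e : vl ((.inl o, 1) :: w ++ [(.inl o', 1)]) = vl w := by simp
      obtain ⟨w1, f, hf, f', hf', -, -, -, -, e1, e2, e3, e4, e5⟩ :=
        h3 o b o' b' ((.inl o, 1) :: w ++ [(.inl o', 1)]) t t'
          (Cv.wd_append.2 ⟨Cv.wd_cons.2 ⟨idC_ok (one_mem _), hw⟩,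
            Cv.wd_single (idC_ok (one_mem _))⟩)
          (fun _ => ⟨(.inl o, 1), by simp, rfl⟩)
          (fun _ => ⟨sinv (.inl o', 1), by simp, rfl⟩) (e ▸ hj)
      rw [e5, e] at e3 e4
      exact ⟨f, hf, f', hf', e1, e2, e3, e4⟩
    · obtain ⟨f, hf, e1, e2⟩ := k b' hb' h hh
      exact ⟨1, one_mem _, f, hf, one_mem _, e1,
        n _ (inv_mem (mul_mem (mul_mem (one_mem _) hh) hf)), by rwa [one_mul]⟩
  · obtain ⟨f, hf, e1, e2⟩ := k b hb h⁻¹ (inv_mem hh)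
    exact ⟨f⁻¹, inv_mem hf, 1, one_mem _, inv_mem e1, one_mem _,
      by rwa [mul_one, mul_inv_rev, inv_inv],
      n' _ (mul_mem (mul_mem (inv_mem hf) hh) (one_mem _))⟩

end Pool.Agent.P.MP_dba3d2_lc
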