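import Pool.Agent.P.MP_dba3d2_lc.C.IfaceT2
import Pool.Agent.P.MP_dba3d2_lc.B.Iface
import Pool.Agent.P.MP_dba3d2_lc.C.TTb

/-! Step C_NFE of the stability project. -/

namespace Pool.Agent.P.MP_dba3d2_lc

open Filter

namespace C_nfeA

variable {Γ : HG} {a : Amb} {F : Bool → Subgroup (MM Γ a)} {o : Option Bool} {b : MM Γ a}
  {w : List (Tg Γ a × MM Γ a)}

theorem ends (h : Typ F o b) : ∃ t, bt t = o ∧ EndL F b (t, 1) := by
  rcases o with _ | i
  · exact ⟨.inr b, rfl, h.endI⟩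
  · exact ⟨.inl (some i), rfl, h.endII (by simp) (one_mem _)⟩

/-- splitting off the left end -/
theorem split (h : Typ F o b) (hw : (idC F).Wd w) (hl : SolL o w) :
    ∃ s u, EndL F b s ∧ bt s.1 = o ∧ (idC F).Wd u ∧ vl w = s.2 * vl u ∧ ct u + k0 s.1 = ct w ∧
      (u = w ∨ w = s :: u ∧ ∃ i, o = some i ∧ s.1 = .inl o) := by
  rcases o with _ | i
  · exact ⟨(.inr b, 1), w, h.endI, rfl, hw, by simp, by simp, .inl rfl⟩
  obtain ⟨s, h1, h2⟩ := hl (by simp)
  rcases w with _ | ⟨s', u⟩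
  · cases h1
  obtain rfl : s' = s := by simpa using h1
  obtain ⟨t, y⟩ := s'
  obtain rfl : t = _ := h2
  obtain ⟨k1, k2⟩ := Cv.wd_cons.1 hw
  exact ⟨_, u, h.endII (by simp) k1.2, rfl, k2, by simp, by simp [add_comm], .inr ⟨rfl, i, rfl, rfl⟩⟩

end C_nfeA

open C_nfeA in
theorem p_C_NFE (hNORM : S_NORM) (hC_NFX : S_C_NFX) :
    S_C_NFE := by
  intro Γ a F T
  refine ⟨fun h hh => ?_, fun o b hb h hh => ?_, fun o b o' b' w hb hb' hw l r nc => ?_⟩
  · obtain ⟨u, hu, rfl⟩ := exists_wordP hh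
    obtain ⟨w, f, f', k1, -, -, -, k2, k3, -, -, k4⟩ := hC_NFX Γ a F T 1 1 none none u
      (by simp) (by simp) hu (by simp)
    rw [Cv.LO_none, Subgroup.mem_bot] at k2 k3
    exact ⟨w, k1, by simpa [k2, k3] using k4⟩
  · obtain ⟨u, hu, rfl⟩ := exists_wordP hh
    obtain ⟨t, rfl, ht⟩ := ends hb
    obtain ⟨w, f, f', -, -, -, k1, k2, k3, -, k4, k5⟩ := hC_NFX Γ a F T 1 b none (some (t, 1)) u
      (by simp) (by
        rintro _ ⟨⟩
        exact ⟨by simpa [sinv] using ht, hb⟩) hu (by simp)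
    rw [Cv.LO_none, Subgroup.mem_bot] at k2
    refine ⟨f', LF_le_P t k3, k4, ?_⟩
    have := (k1 _ rfl).2
    rw [k5] at this
    simpa [k2] using this
  obtain ⟨s, u, a1, a2, a3, a4, a5, a6⟩ := split hb hw l
  by_cases r' : SolL o' (winv u)
  · obtain ⟨s', u', b1, b2, b3, b4, b5, -⟩ := split hb' a3.winv r'
    have e : vl (xw (some s) (winv u') (some (sinv s'))) = vl w := by
      rw [a4, ← inv_inv (vl u), ← vl_winv, b4]
      simp
    obtain ⟨w1, f, f', k1, k2, k3, k4, k5, k6, k7, k8, k9⟩ := hC_NFX Γ a F T b b' (some s)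
      (some (sinv s')) (winv u')
      (by
        rintro _ ⟨⟩
        exact ⟨a1, a2 ▸ hb⟩)
      (by
        rintro _ ⟨⟩
        exact ⟨by simpa using b1, by simpa [b2] using hb'⟩) b3.winv (fun _ _ => e ▸ nc)
    refine ⟨w1, f, LF_le_P _ k5, f', LF_le_P _ k6, k1, ?_, a2 ▸ (k3 _ rfl).1, ?_, k7, k8,
      (k3 _ rfl).2, (k4 _ rfl).2, e ▸ k9⟩
    · simp only [ct_winv, Option.elim_some, sinv_fst] at k2 b5
      omega
    · simpa [b2] using (k4 _ rfl).1
  obtain ⟨rfl, i, rfl, a7⟩ := a6.resolve_left fun e => r' (e ▸ r)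
  have n : o' ≠ none := fun e => r' fun k => absurd e k
  obtain ⟨s', c1, c2⟩ := r n
  obtain rfl : u = [] := by
    by_contra k
    refine r' fun _ => ⟨s', ?_, c2⟩
    rw [winv_cons] at c1
    rcases e : winv u with _ | ⟨x, v⟩
    · exact absurd (by simpa using congrArg winv e) k
    · simpa [e] using c1
  obtain rfl : sinv s = s' := by simpa using c1
  obtain ⟨t, y⟩ := s
  obtain rfl : t = _ := a7
  obtain rfl : some i = o' := by simpa using c2
  have hy : y ∈ F i := (hw _ List.mem_cons_self).2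
  obtain ⟨f, k1, f', k2, k3, k4, k5, k6, -⟩ := (hNORM Γ a (F i) (T.gc i)).2 b hb.1 b' hb'.1 hb.2.1
    hb'.2.1 hb.2.2.1 hb'.2.2.1 y hy (by simpa using nc)
  refine ⟨[(.inl (some i), f * y * f')], f, F_le_P i k1, f', F_le_P i k2,
    ⟨Cv.wd_single (idC_ok (mul_mem (mul_mem k1 hy) k2)), fun s hs c e => ?_,
      fun ν hν _ => geo_single hν.pos.le _⟩, by simp, fun _ => ⟨_, rfl, rfl⟩,
    fun _ => ⟨_, rfl, rfl⟩, k3, k4, by simpa using k5, by simpa using k6, by simp⟩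
  obtain rfl := List.mem_singleton.1 hs
  cases e

end Pool.Agent.P.MP_dba3d2_lc
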