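import Pool.Agent.P.MP_dba3d2_lc.C.IfaceT2
import Pool.Agent.P.MP_dba3d2_lc.B.Iface
import Pool.Agent.P.MP_dba3d2_lc.C.TTb

/-! Step C_NFX of the stability project. -/

namespace Pool.Agent.P.MP_dba3d2_lc

open Filter

namespace C_nfxA

variable {Γ : HG} {a : Amb} {F : Bool → Subgroup (MM Γ a)} {b b' x x1 f f' : MM Γ a}
  {e e' e1 e1' : Option (Tg Γ a × MM Γ a)} {u : List (Tg Γ a × MM Γ a)} {n n1 : ℕ}

/-- the conclusion -/
def Out (F : Bool → Subgroup (MM Γ a)) (b b' : MM Γ a) (e : Option (Tg Γ a × MM Γ a)) (n : ℕ)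
    (e' : Option (Tg Γ a × MM Γ a)) (x : MM Γ a) : Prop :=
  ∃ w f f', Nice F w ∧ ct w ≤ n + (e.elim 0 fun s => k0 s.1) + (e'.elim 0 fun s => k0 s.1) ∧
    (∀ s ∈ e, SolL (bt s.1) w ∧ NE b (vl w)⁻¹) ∧ (∀ s ∈ e', SolL (bt s.1) (winv w) ∧ NE b' (vl w)) ∧
    f ∈ (idC F).LO e ∧ f' ∈ (idC F).LO e' ∧ f ∈ Ep b ∧ f' ∈ Ep b' ∧ vl w = f * x * f'

theorem tag (t : e1.map Prod.fst = e.map Prod.fst) : ∀ s ∈ e, ∃ s1 ∈ e1, s1.1 = s.1 :=
  fun _ hs => Option.mem_map.1 (t ▸ Option.mem_map_of_mem Prod.fst hs)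

theorem tag_k (t : e1.map Prod.fst = e.map Prod.fst) :
    (e1.elim 0 fun s => k0 s.1) = e.elim 0 fun s => k0 s.1 := by
  cases e <;> cases e1 <;> simp_all

theorem Out.of (h : Out F b b' e1 n1 e1' x1) (t : e1.map Prod.fst = e.map Prod.fst)
    (t' : e1'.map Prod.fst = e'.map Prod.fst) (hn : n1 ≤ n) (h1 : f ∈ (idC F).LO e)
    (h2 : f' ∈ (idC F).LO e') (h3 : f ∈ Ep b) (h4 : f' ∈ Ep b') (h5 : x1 = f * x * f') :
    Out F b b' e n e' x := by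
  obtain ⟨w, g, g', a1, a2, a3, a4, a5, a6, a7, a8, a9⟩ := h
  rw [tag_k t, tag_k t'] at a2
  rw [Cv.LO_tags t] at a5
  rw [Cv.LO_tags t'] at a6
  refine ⟨w, g * f, f' * g', a1, by omega, fun s hs => ?_, fun s hs => ?_, mul_mem a5 h1,
    mul_mem h2 a6, mul_mem a7 h3, mul_mem h4 a8, by rw [a9, h5]; group⟩
  · obtain ⟨s1, k1, k2⟩ := tag t s hs
    exact k2 ▸ a3 s1 k1
  · obtain ⟨s1, k1, k2⟩ := tag t' s hs
    exact k2 ▸ a4 s1 k1

theorem toList_sinv (e : Option (Tg Γ a × MM Γ a)) : (e.map sinv).toList = winv e.toList := by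
  cases e <;> simp

/-- trivial ends are removed -/
theorem trim (he : ∀ s ∈ e, EndL F b s) : ∃ p : List (Tg Γ a × MM Γ a),
    (∀ v, Nice F (e.toList ++ v) → Nice F (p ++ v)) ∧ vl p = vl e.toList ∧
      ct p = (e.elim 0 fun s => k0 s.1) ∧ ∀ s ∈ e, ∀ v, SolL (bt s.1) (p ++ v) := by
  rcases e with _ | s
  · exact ⟨[], fun _ h => h, rfl, rfl, fun _ h => by cases h⟩
  rcases (he s rfl).cases with ⟨rfl, -⟩ | ⟨i, y, rfl, -⟩
  · refine ⟨[], fun v h => ⟨(Cv.wd_cons.1 h.wd).2, h.nz.sub (List.subset_cons_self _ _),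
      fun ν h1 h2 => (geo_cons.1 (h.geo ν h1 (by simpa using h2))).2⟩, by simp, rfl, ?_⟩
    rintro _ ⟨⟩ v h
    exact absurd rfl h
  · refine ⟨_, fun _ h => h, rfl, by simp, ?_⟩
    rintro _ ⟨⟩ v -
    exact ⟨_, rfl, rfl⟩

theorem ne_xw (hG : S_C_GEOP) (hF : TwoF F) (h : XW F b b' e u e')
    (ht : ∀ s ∈ e, Typ F (bt s.1) b) : ∀ s ∈ e, NE b (vl (xw e u e'))⁻¹ := by
  rintro s rfl
  exact (hG Γ a F hF).2 b s (u ++ e'.toList) h.good h.nzE (h.l s rfl).1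
    ((h.l s rfl).1.far (ht s rfl)) (h.l s rfl).2

theorem out_xw (hG : S_C_GEOP) (hF : TwoF F) (h : XW F b b' e u e')
    (ht : ∀ s ∈ e, Typ F (bt s.1) b) (ht' : ∀ s ∈ e', Typ F (bt s.1) b') :
    Out F b b' e (ct u) e' (vl (xw e u e')) := by
  obtain ⟨p, a1, a2, a3, a4⟩ := trim fun s hs => (h.l s hs).1
  obtain ⟨q, b1, b2, b3, b4⟩ := trim fun s hs => (h.winv.l s hs).1
  have k1 := (a1 (u ++ e'.toList)
    (by simpa [xw] using (hG Γ a F hF).1 _ h.good h.nzE)).winv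
  rw [← List.append_assoc, winv_append, ← toList_sinv] at k1
  have k2 : vl (winv (q ++ winv (p ++ u))) = vl (xw e u e') := by
    simp [xw, a2, b2, toList_sinv]
  have k3 := ne_xw hG hF h.winv fun s hs => by
    obtain ⟨s0, h0, rfl⟩ := Option.mem_map.1 hs
    exact ht' s0 h0
  rw [← winv_xw, vl_winv, inv_inv] at k3
  refine ⟨_, 1, 1, (b1 _ k1).winv, ?_, fun s hs => ⟨?_, k2 ▸ ne_xw hG hF h ht s hs⟩,
    fun s hs => ⟨?_, k2 ▸ k3 _ (Option.mem_map_of_mem sinv hs)⟩, one_mem _, one_mem _, one_mem _,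
    one_mem _, by rw [k2, one_mul, mul_one]⟩
  · rw [tag_k (e := e') (by cases e' <;> rfl)] at b3
    simp only [ct_winv, ct_append, a3, b3]
    omega
  · simpa using a4 s hs (u ++ winv q)
  · rw [winv_winv]
    exact b4 _ (Option.mem_map_of_mem sinv hs) _

/-- elements of the groups of the ends are absorbed -/
theorem absorb (he : ∀ s ∈ e, EndL F b s) (hx : x ∈ (idC F).LO e) :
    ∃ (e1 : Option (Tg Γ a × MM Γ a)) (f : MM Γ a), e1.map Prod.fst = e.map Prod.fst ∧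
      (∀ s ∈ e1, EndL F b s) ∧ f ∈ (idC F).LO e ∧ f ∈ Ep b ∧ vl e1.toList * x = f * vl e.toList := by
  rcases e with _ | s
  · exact ⟨none, 1, rfl, he, one_mem _, one_mem _, by simp [Subgroup.mem_bot.1 hx]⟩
  have k := he s rfl
  rcases k.cases with ⟨rfl, -⟩ | ⟨i, y, rfl, -⟩
  · exact ⟨_, x, rfl, he, hx, EF_le_Ep hx, by simp⟩
  · refine ⟨some (_, y * x⁻¹), 1, rfl, ?_, one_mem _, one_mem _, by simp⟩
    rintro _ ⟨⟩
    exact ⟨k.1, mul_mem k.2.1 (inv_mem hx), k.2.2⟩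

theorem core (hN : S_NORM) (hE : S_C_EXTN) (h0 : S_C_EXT0) (hG : S_C_GEOP) (hF : TwoF F)
    (he : ∀ s ∈ e, EndL F b s ∧ Typ F (bt s.1) b)
    (he' : ∀ s ∈ e', EndL F b' (sinv s) ∧ Typ F (bt s.1) b')
    (hu : (idC F).CMin ((idC F).LO e) ((idC F).LO e') u)
    (hn : e ≠ none → e' ≠ none → ¬ Cj (vl (xw e u e')) b' b) :
    Out F b b' e (ct u) e' (vl (xw e u e')) := by
  have fin : ∀ {e1 e1' : Option (Tg Γ a × MM Γ a)} {u1}, e1.map Prod.fst = e.map Prod.fst →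
      e1'.map Prod.fst = e'.map Prod.fst → XW F b b' e1 u1 e1' →
      Out F b b' e1 (ct u1) e1' (vl (xw e1 u1 e1')) := fun t t' h =>
    out_xw hG hF h (fun s hs => by
      obtain ⟨s1, k1, k2⟩ := tag t.symm s hs
      exact k2 ▸ (he s1 k1).2) fun s hs => by
      obtain ⟨s1, k1, k2⟩ := tag t'.symm s hs
      exact k2 ▸ (he' s1 k1).2
  rcases eq_or_ne u [] with rfl | hu0
  · by_cases hc : ∀ s ∈ e, ∀ s' ∈ e', ∀ o, s.1 = .inl o → s'.1 ≠ .inl o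
    · obtain ⟨e1, e1', t, t', h, f, a1, f', a2, a3, a4, a5⟩ := h0 Γ a F hF b b' e e' he he' (by
        rintro s rfl s' rfl
        exact ⟨by simpa using hn, hc s rfl s' rfl⟩)
      exact (fin t t' h).of t t' le_rfl a1 a2 a3 a4 a5
    push Not at hc
    obtain ⟨⟨_, y⟩, rfl, ⟨_, y'⟩, rfl, o, rfl, rfl⟩ := hc
    have k := (he _ rfl).1
    have k' := (he' _ rfl).1
    obtain ⟨f, a1, f', a2, a3, a4, a5, a6, -⟩ := (hN Γ a _ (hF.gcx o)).2 b k.2.2.1 b' k'.2.2.1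
      k.2.2.2.1 k'.2.2.2.1 k.2.2.2.2 k'.2.2.2.2 (y * y') (mul_mem k.2.1 (inv_mem_iff.1 k'.2.1))
      (by simpa using hn)
    refine ⟨[(.inl o, f * (y * y') * f')], f, f', ⟨Cv.wd_single (idC_ok (mul_mem (mul_mem a1
      (mul_mem k.2.1 (inv_mem_iff.1 k'.2.1))) a2)), ?_, fun ν h _ => geo_single h.pos.le _⟩,
      by simp, ?_, ?_, a1, a2, a3, a4, by simp⟩
    · simp [Cv.NzE]
    · rintro _ ⟨⟩
      exact ⟨fun _ => ⟨_, rfl, rfl⟩, by simpa using a5⟩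
    · rintro _ ⟨⟩
      exact ⟨fun _ => ⟨_, rfl, rfl⟩, by simpa using a6⟩
  · obtain ⟨e1, u1, e1', t, t1, t', h, f, a1, f', a2, a3, a4, a5⟩ := hE Γ a F hF b b' e e' u
      (fun s hs => ⟨(he s hs).1, (he s hs).1.far (he s hs).2⟩)
      (fun s hs => ⟨(he' s hs).1, (he' s hs).1.far (he' s hs).2⟩) hu hu0 (by
        rintro ⟨_, y⟩ rfl ⟨_, y'⟩ rfl c c' m rfl rfl rfl
        obtain ⟨rfl, -, -, -, rfl⟩ := (he _ rfl).1
        obtain ⟨rfl, -, -, -, k⟩ := (he' _ rfl).1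
        obtain rfl := inv_eq_one.1 k
        simpa using hn)
    exact (fin t t' h).of t t' (ct_tags t1).le a1 a2 a3 a4 a5

end C_nfxA

open C_nfxA in
theorem p_C_NFX (hNORM : S_NORM) (hC_EXTN : S_C_EXTN) (hC_EXT0 : S_C_EXT0) (hC_GEOP : S_C_GEOP) :
    S_C_NFX := by
  intro Γ a F hF b b' e e' u he he' hu hn
  obtain ⟨u1, a1, a2, x, hx, y, hy, a3⟩ := Cv.exists_cMin ((idC F).LO e) ((idC F).LO e') hu
  obtain ⟨e1, f, t, b1, b2, b3, b4⟩ := absorb (fun s hs => (he s hs).1) hx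
  obtain ⟨e2, g, t', c1, c2, c3, c4⟩ := absorb (e := e'.map sinv) (b := b') (x := y⁻¹)
    (fun s hs => by
      obtain ⟨s0, h0, rfl⟩ := Option.mem_map.1 hs
      exact (he' s0 h0).1) (by simpa using hy)
  have t2 : (e2.map sinv).map Prod.fst = e'.map Prod.fst := by
    cases e2 <;> cases e' <;> simp_all
  have k : vl (xw e1 u1 (e2.map sinv)) = f * vl (xw e u e') * g⁻¹ := by
    rw [toList_sinv, vl_winv] at c4
    simp only [xw, vl_append, toList_sinv, vl_winv, a3, eq_mul_inv_of_mul_eq b4,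
      eq_mul_inv_of_mul_eq c4]
    group
  refine (core hNORM hC_EXTN hC_EXT0 hC_GEOP hF (fun s hs => ⟨b1 s hs, ?_⟩) (fun s hs => ⟨?_, ?_⟩)
    (by rwa [Cv.LO_tags t, Cv.LO_tags t2]) fun h1 h2 h3 => ?_).of t t2 a2 b2
      (by simpa using c2) b3 (inv_mem c3) k
  · obtain ⟨s1, k1, k2⟩ := tag t.symm s hs
    exact k2 ▸ (he s1 k1).2
  · obtain ⟨s0, h0, rfl⟩ := Option.mem_map.1 hs
    simpa using c1 s0 h0
  · obtain ⟨s1, k1, k2⟩ := tag t2.symm s hs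
    exact k2 ▸ (he' s1 k1).2
  · refine hn (fun h => h1 (by simpa [h] using t)) (fun h => h2 (by simpa [h] using t2)) ?_
    have := ((Cj.of_mem (inv_mem b3)).mul (k ▸ h3)).mul (Cj.of_mem c3)
    simpa [mul_assoc] using this

end Pool.Agent.P.MP_dba3d2_lc
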