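import Pool.Agent.P.MP_dba3d2_lc.C.IfaceT2
import Pool.Agent.P.MP_dba3d2_lc.B.Iface
import Pool.Agent.P.MP_dba3d2_lc.C.TTb

/-! Step C_NORMW of the stability project. -/

namespace Pool.Agent.P.MP_dba3d2_lc

open Filter

namespace C_normwA

variable {Γ : HG} {a : Amb} {F : Bool → Subgroup (MM Γ a)} {G : Type} [Group G] {C : Cv F G}
  {s s' : Tg Γ a × G} {v w r : List (Tg Γ a × G)} {t : Tg Γ a} {x x' y : G} {o : Option Bool}
  {c : MM Γ a}

/-- factor syllables are not in the base -/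
def X (C : Cv F G) (s : Tg Γ a × G) : Prop := ∀ i, s.1 = .inl (some i) → C.π s.2 ∉ XF F none

/-- the claim of the induction -/
def Q (C : Cv F G) (w : List (Tg Γ a × G)) : Prop :=
  ∃ w', w'.map Prod.fst = w.map Prod.fst ∧ C.Wd w' ∧ vl w' = vl w ∧ C.PCh w' ∧
    ∀ s ∈ w'.head?, X C s

/-- the claim with a fixed first syllable -/
def Q' (C : Cv F G) (s : Tg Γ a × G) (w : List (Tg Γ a × G)) : Prop :=
  ∃ w', w'.map Prod.fst = w.map Prod.fst ∧ C.Wd (s :: w') ∧ vl w' = vl w ∧ C.PCh (s :: w')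

theorem q_nil (h : C.ok s) : Q' C s [] := ⟨[], rfl, Cv.wd_single h, rfl, List.isChain_singleton _⟩

theorem Q.cons (h : Q C ((t, x) :: r)) (h0 : C.ok s)
    (hp : ∀ x', X C (t, x') → Pair F (C.pr s) (t, C.π x')) : Q' C s ((t, x) :: r) := by
  obtain ⟨w', h1, h2, h3, h4, h5⟩ := h
  rcases w' with _ | ⟨⟨t', x'⟩, r'⟩
  · simp at h1
  obtain rfl : t' = t := by simpa using congrArg List.head? h1
  exact ⟨_, h1, Cv.wd_cons.2 ⟨h0, h2⟩, h3, List.isChain_cons_cons.2 ⟨hp x' (h5 _ rfl), h4⟩⟩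

theorem Q'.cons (h : Q' C s' w) (h0 : C.ok s) (hp : Pair F (C.pr s) (C.pr s')) :
    Q' C s (s' :: w) := by
  obtain ⟨w', h1, h2, h3, h4⟩ := h
  exact ⟨s' :: w', by simp [h1], Cv.wd_cons.2 ⟨h0, h2⟩, by simp [h3],
    List.isChain_cons_cons.2 ⟨hp, h4⟩⟩

theorem Q'.toQ (h : Q' C s w) (h0 : X C s) (e1 : (s :: w).map Prod.fst = v.map Prod.fst)
    (e2 : vl (s :: w) = vl v) : Q C v := by
  obtain ⟨w', h1, h2, h3, h4⟩ := h
  refine ⟨s :: w', by rw [← e1]; simp [h1], h2, by rw [← e2]; simp [h3], h4, fun s0 k => ?_⟩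
  obtain rfl : s = s0 := by simpa using k
  exact h0

theorem x_inr : X C (.inr c, x) := fun _ h => by cases h

theorem red_tail (h : C.Red (s :: w)) : C.Red w :=
  ⟨(Cv.wd_cons.1 h.wd).2, fun s0 k => h.pl s0 (List.mem_cons_of_mem _ k), h.ch.tail,
    fun s0 z s1 k => h.he s0 z s1 (k.trans (List.suffix_cons s w).isInfix)⟩

theorem red_head (h : C.Red ((t, x) :: r)) (h1 : x' ∈ C.L t) (h2 : X C (t, x'))
    (h3 : ∀ s', RP F (t, C.π x) s' → RP F (t, C.π x') s') : C.Red ((t, x') :: r) := by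
  obtain ⟨k1, k2⟩ := Cv.wd_cons.1 h.wd
  refine ⟨Cv.wd_cons.2 ⟨⟨k1.1, h1⟩, k2⟩, fun s0 k => ?_, ?_, fun s0 z s1 k => ?_⟩
  · rcases List.mem_cons.1 k with rfl | k
    · exact h2
    · exact h.pl s0 (List.mem_cons_of_mem _ k)
  · rcases r with _ | ⟨s1, r⟩
    · exact List.isChain_singleton _
    · obtain ⟨a1, a2⟩ := List.isChain_cons_cons.1 h.ch
      exact List.isChain_cons_cons.2 ⟨h3 _ a1, a2⟩
  · rcases List.infix_cons_iff.1 k with k | k
    · obtain ⟨rfl, k'⟩ := List.cons_prefix_cons.1 k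
      exact h.he (t, x) z s1 (List.cons_prefix_cons.2 ⟨rfl, k'⟩).isInfix
    · exact h.he s0 z s1 (k.trans (List.suffix_cons _ r).isInfix)

theorem red_inr (h : C.Red ((.inr c, x) :: r)) (h1 : y ∈ C.L (.inr c)) :
    C.Red ((.inr c, y * x) :: r) :=
  red_head h (mul_mem h1 (Cv.wd_cons.1 h.wd).1.2) x_inr fun s' k => (rp_inr_left s' _ _).1 k

theorem red_inl (h : C.Red ((.inl o, x) :: r)) (h1 : y ∈ C.L (.inl none)) :
    C.Red ((.inl o, y * x) :: r) := by
  have k := (Cv.wd_cons.1 h.wd).1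
  have hy : C.π y ∈ XF F none := C.le (.inl none) C.s0 y h1
  refine red_head h (mul_mem (Cv.base_le k.1 h1) k.2) (fun i e m => ?_) ?_
  · rw [map_mul] at m
    exact h.pl _ List.mem_cons_self i e ((mul_mem_cancel_left hy).1 m)
  · rintro ⟨o' | c', y'⟩ k'
    · exact k'
    · intro e m
      refine k' e ?_
      have := mul_mem (mul_mem (inv_mem hy) m) hy
      rw [map_mul] at this
      simpa [mul_assoc] using this

theorem main (hROOT : S_ROOT) (hNORM : S_NORM) (hF : TwoF F) (n : ℕ) :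
    ∀ w : List (Tg Γ a × G), w.length ≤ n → C.Red w → Q C w := by
  induction n with
  | zero =>
    intro w hw _
    obtain rfl := List.length_eq_zero_iff.1 (Nat.le_zero.1 hw)
    exact ⟨[], rfl, Cv.wd_nil, rfl, List.isChain_nil, by simp⟩
  | succ n ih =>
    intro w hw h
    rcases w with _ | ⟨s, _ | ⟨s', r⟩⟩
    · exact ⟨[], rfl, Cv.wd_nil, rfl, List.isChain_nil, by simp⟩
    · exact (q_nil (h.wd s (by simp))).toQ (h.pl s (by simp)) rfl rfl
    have o1 := h.wd s (by simp)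
    have o2 := h.wd s' (by simp)
    have p1 := (List.isChain_cons_cons.1 h.ch).1
    have ht := red_tail h
    have hl : r.length + 1 ≤ n := by simpa using hw
    obtain ⟨o | c, y⟩ := s <;> obtain ⟨o' | c', y'⟩ := s'
    · obtain ⟨i, rfl, rfl⟩ := p1
      have hy := h.pl _ List.mem_cons_self i rfl
      obtain ⟨m, m1, m2⟩ := hF.n1 i _ (C.le _ o1.1 _ o1.2) hy
      obtain ⟨σ, s1, rfl⟩ := Cv.lift_base (C := C) m1
      refine ((ih _ (by simpa using hl) (red_inl ht (inv_mem s1))).cons (s := (_, y * σ))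
        (o1.mk' (mul_mem o1.2 (Cv.base_le o1.1 s1))) fun x' k => ?_).toQ (fun _ _ k => ?_) rfl
        (by simp [mul_assoc])
      · exact ⟨i, rfl, rfl, .inl ⟨by rw [← map_mul] at m2; exact m2, k _ rfl⟩⟩
      · rw [map_mul] at k
        exact hy ((mul_mem_cancel_right m1).1 k)
    · obtain ⟨f, f1, f2, -, f3⟩ := (hNORM Γ a _ (hF.gcx o)).1 c' (M_le_XF o o2.1.1) o2.1.2.1
        o2.1.2.2 _ (C.le _ o1.1 _ o1.2)
      obtain ⟨φ, a1, a2, rfl⟩ := Cv.lift_both (C := C) o1.1 o2.1 f1 f2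
      refine ((ih _ (by simpa using hl) (red_inr ht (inv_mem a2))).cons (s := (_, y * φ))
        (o1.mk' (mul_mem o1.2 a1)) fun x' _ => ?_).toQ (fun i e k => ?_) rfl (by simp [mul_assoc])
      · change NE c' (C.π (y * φ))
        rwa [map_mul]
      · obtain rfl : o = some i := Sum.inl.inj e
        have k1 : (C.π φ)⁻¹ * c' * C.π φ ∈ XF F none :=
          hF.root4 hROOT o2.1.1 o2.1.2.1.1 (o2.1.2.1.conj' _) (Ep_conj_mem' f2)
        have k2 := mul_mem (mul_mem k k1) (inv_mem k)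
        refine p1 (by simp) ?_
        simpa [mul_assoc] using k2
    · rcases r with _ | ⟨⟨o'' | c'', y''⟩, r⟩
      · obtain ⟨f, f1, f2, -, f3⟩ := (hNORM Γ a _ (hF.gcx o')).1 c (M_le_XF o' o1.1.1) o1.1.2.1
          o1.1.2.2 _ (inv_mem (C.le _ o2.1 _ o2.2))
        obtain ⟨φ, a1, a2, rfl⟩ := Cv.lift_both (C := C) o2.1 o1.1 f1 f2
        refine ((q_nil (s := (_, φ⁻¹ * y')) (o2.mk' (mul_mem (inv_mem a1) o2.2))).cons
          (s := (_, y * φ)) (o1.mk' (mul_mem o1.2 a2)) ?_).toQ x_inr rfl (by simp [mul_assoc])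
        change NE c (C.π (φ⁻¹ * y'))⁻¹
        simpa using f3
      · obtain ⟨i, rfl, rfl⟩ := (List.isChain_cons_cons.1 ht.ch).1
        obtain ⟨f, f1, f2, m, m1, m2, m3⟩ := hF.n3 i c (M_le_F i o1.1.1) o1.1.2.1 o1.1.2.2 _
          (C.le _ o2.1 _ o2.2) (p1 (by simp))
        obtain ⟨φ, a1, a2, rfl⟩ := Cv.lift_both (C := C) (o := some i) o2.1 o1.1 f1 f2
        obtain ⟨σ, s1, rfl⟩ := Cv.lift_base (C := C) m1
        refine (((ih _ (by simp at hl ⊢; omega) (red_inl (red_tail ht) (inv_mem s1))).cons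
          (s := (_, φ * y' * σ)) (o2.mk' (mul_mem (mul_mem a1 o2.2) (Cv.base_le o2.1 s1)))
          fun x' k => ?_).cons (s := (_, y * φ⁻¹)) (o1.mk' (mul_mem o1.2 (inv_mem a2))) ?_).toQ
          x_inr rfl (by simp [mul_assoc])
        · exact ⟨i, rfl, rfl, .inl ⟨by rw [← map_mul, ← map_mul] at m2; exact m2, k _ rfl⟩⟩
        · change NE c (C.π (φ * y' * σ))⁻¹
          rwa [map_mul, map_mul]
      · have o3 := h.wd (.inr c'', y'') (by simp)
        have nc : ¬ Cj (C.π y') c'' c := by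
          rcases o' with _ | i
          · exact h.he (.inr c, y) [(.inl none, y')] (.inr c'', y'') ⟨[], r, by simp⟩ c c'' y'
              rfl rfl rfl
          · exact fun k => p1 (by simp)
              (hF.root4 hROOT o3.1.1 o3.1.2.1.1 (o1.1.2.1.conj' _) k.ep)
        obtain ⟨f, f1, f', f1', f2, f2', n1, n2, -⟩ := (hNORM Γ a _ (hF.gcx o')).2 c
          (M_le_XF o' o1.1.1) c'' (M_le_XF o' o3.1.1) o1.1.2.1 o3.1.2.1 o1.1.2.2 o3.1.2.2 _
          (C.le _ o2.1 _ o2.2) nc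
        obtain ⟨φ, a1, a2, rfl⟩ := Cv.lift_both (C := C) o2.1 o1.1 f1 f2
        obtain ⟨φ', a1', a2', rfl⟩ := Cv.lift_both (C := C) o2.1 o3.1 f1' f2'
        refine (((ih _ (by simp at hl ⊢; omega) (red_inr (red_tail ht) (inv_mem a2'))).cons
          (s := (_, φ * y' * φ')) (o2.mk' (mul_mem (mul_mem a1 o2.2) a1'))
          fun x' _ => ?_).cons (s := (_, y * φ⁻¹)) (o1.mk' (mul_mem o1.2 (inv_mem a2))) ?_).toQ
          x_inr rfl (by simp [mul_assoc])
        · change NE c'' (C.π (φ * y' * φ'))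
          rwa [map_mul, map_mul]
        · change NE c (C.π (φ * y' * φ'))⁻¹
          rwa [map_mul, map_mul]
    · exact ((ih _ (by simpa using hl) ht).cons o1 fun _ _ => p1).toQ x_inr rfl rfl

end C_normwA

theorem p_C_NORMW (hROOT : S_ROOT) (hNORM : S_NORM) :
    S_C_NORMW := by
  intro Γ a F hF G _ C w h
  obtain ⟨w', h1, h2, h3, h4, -⟩ := C_normwA.main hROOT hNORM hF _ w le_rfl h
  exact ⟨w', h1, h2, h3, h4⟩

end Pool.Agent.P.MP_dba3d2_lc
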