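import Pool.Agent.P.MP_dba3d2_lc.C.IfaceT
import Pool.Agent.P.MP_dba3d2_lc.C.LTb

/-! Step C_PATH of the stability project. -/

namespace Pool.Agent.P.MP_dba3d2_lc

open Filter

namespace C_pathA

/-- the first long element of a list -/
theorem split {Γ : HG} {a : Amb} {ν : a.K} {X : Type} (v : X → MM Γ a) (h : 0 < ν) (L : List X) :
    Ll ((L.map v).map ln).sum ν ∨ ∃ z s B, L = z ++ s :: B ∧ Ll ((z.map v).map ln).sum ν ∧
      Ls ν (ln (v s)) := by
  induction L with
  | nil => exact Or.inl (Ll.zero h.le)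
  | cons y L ih =>
    rcases ll_or_ls h (ln (v y)) with e | e
    · exact ih.imp (fun k => e.add k) fun ⟨z, s, B, k1, k2, k3⟩ =>
        ⟨y :: z, s, B, k1 ▸ rfl, e.add k2, k3⟩
    · exact Or.inr ⟨[], y, L, rfl, Ll.zero h.le, e⟩

end C_pathA

theorem p_C_PATH :
    S_C_PATH := by
  intro Γ a ν X v L hν
  have h0 := hν.pos
  induction L with
  | nil => exact fun h => absurd (geo_nil h0.le) h
  | cons y L ih =>
    intro h
    by_cases hG : Geo ν (L.map v)
    swap
    · obtain ⟨A, s, z, s', B, e, k⟩ := ih hG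
      exact ⟨y :: A, s, z, s', B, e ▸ rfl, k⟩
    have n : ¬ On ν 1 (v y)⁻¹ (L.map v).prod := fun e => h (geo_cons.2 ⟨e, hG⟩)
    have b : Ls ν (ln (v y)) := (ll_or_ls h0 _).resolve_left fun e =>
      n (On.of_near (by simpa using e) _)
    obtain ⟨z, s, B, rfl, k1, k2⟩ := (C_pathA.split v h0 L).resolve_left fun e =>
      n (On.of_near (by simpa using e.mono_left (ln_prod_le _)) _).symm
    have k3 := k1.mono_left (ln_prod_le _)
    rw [List.map_append, List.map_cons] at hG n
    have k4 : Ls ν (ds 1 ((z.map v).prod * v s)) := k2.of_le_add k3 h0 1 (by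
      simpa [add_comm] using ln_mul_le (z.map v).prod⁻¹ ((z.map v).prod * v s))
    obtain ⟨q, q1, q2, q3⟩ := exists_ovl hν fun e => n (On.glue hν e hG.piece.2.1 k4).1
    refine ⟨[], y, z, s, B, rfl, b, k2, k1, q, q1, q2, ?_⟩
    refine (q3.mul (z.map v).prod⁻¹).congr ?_ (by simpa using k3) ?_ <;> simpa using Ll.zero h0.le

end Pool.Agent.P.MP_dba3d2_lc
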