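import Pool.Agent.P.MP_dba3d2_lc.C.IfaceT2
import Pool.Agent.P.MP_dba3d2_lc.C.IfaceT
import Pool.Agent.P.MP_dba3d2_lc.C.TTb

/-! Step C_PATHW of the stability project. -/

namespace Pool.Agent.P.MP_dba3d2_lc

open Filter

theorem p_C_PATHW (hC_PATH : S_C_PATH) (hC_ARC : S_C_ARC) :
    S_C_PATHW := by
  intro Γ a F hF G _ C ν w hν hw hn hl hg
  obtain ⟨A, s, z, s', B, e, h1, h2, h3, q, q1, q2, q3⟩ :=
    hC_PATH Γ a ν _ (fun s : Tg Γ a × G => C.π s.2) w hν hg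
  have m1 : s ∈ w := by simp [e]
  have m2 : s' ∈ w := by simp [e]
  have ez : (z.map fun s : Tg Γ a × G => C.π s.2).prod = C.π (vl z) := Cv.vs_prod
  rw [ez] at q3
  refine ⟨A, s, z, s', B, e, h1, h2, h3, q, q1, ?_, ?_⟩
  · refine hC_ARC Γ a F hF ν s.1 _ 1 q hν (hw s m1).pr.1 (inv_mem (hw s m1).pr.2)
      (fun c hc hm => hn.big m1 hν h1 c hc (inv_mem_iff.1 hm)) ?_ (on_left hν.pos.le _ _) q2
    rw [ln_inv]
    exact hl.mono_left (Cv.ln_le_sl m1)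
  · refine hC_ARC Γ a F hF ν s'.1 _ _ _ hν (hw s' m2).pr.1 (hw s' m2).pr.2
      (hn.big m2 hν h2) (hl.mono_left (Cv.ln_le_sl m2)) (On.of_near ?_ _) q3
    rw [ds_one_left, ln_inv]
    exact Ll.mono_left Cv.ln_vl_le h3

end Pool.Agent.P.MP_dba3d2_lc
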