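import Pool.Agent.P.MP_dba3d2_lc.C.IfaceT
import Pool.Agent.P.MP_dba3d2_lc.B.Iface
import Pool.Agent.P.MP_dba3d2_lc.C.TTb

/-! Step C_PRE of the stability project. -/

namespace Pool.Agent.P.MP_dba3d2_lc

open Filter

theorem p_C_PRE (hROOT : S_ROOT) (hNORM : S_NORM) :
    S_C_PRE := by
  intro Γ a F hF i b y t hb pb cb hy hn ht
  have le : ∀ x ∈ F false ⊓ F true, x ∈ F i := fun x hx => by
    cases i
    exacts [hx.1, hx.2]
  rcases ht with rfl | ⟨c, ⟨hc, pc, cc⟩, rfl⟩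
  · obtain ⟨f, f1, f2, s, s1, s2, s3⟩ := hF.n3 i b hb pb cb y hy hn
    refine ⟨f, f1, f2, s, le s s1, ?_, s3, fun y1 h => ⟨i, rfl, rfl, Or.inl ⟨s2, h rfl⟩⟩⟩
    cases i
    exacts [s1.2, s1.1]
  · have nc : ¬ Cj y c b := fun h => hn ((hROOT Γ a _ hF.gcm).2.2.2.1 c hc pc.1 _ (pb.conj' y) (by
      have k := (Ep_conj_iff' y).2 h
      rw [← k]
      congr 1
      group))
    obtain ⟨f, f1, g, g1, f2, g2, n1, n2, -⟩ :=
      (hNORM Γ a _ (hF.gc i)).2 b hb c (le c hc) pb pc cb cc y hy nc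
    refine ⟨f, f1, f2, g, g1, ?_, n1, fun _ _ => n2⟩
    have k : g ∈ F i ⊓ Ep c := ⟨g1, g2⟩
    cases i
    exacts [Subgroup.mem_sup_left k, Subgroup.mem_sup_right k]

end Pool.Agent.P.MP_dba3d2_lc
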