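import Pool.Agent.P.MP_dba3d2_lc.C.IfaceT
import Pool.Agent.P.MP_dba3d2_lc.C.LTb

/-! Step C_PROJ of the stability project. -/

namespace Pool.Agent.P.MP_dba3d2_lc

open Filter

theorem p_C_PROJ :
    S_C_PROJ := by
  intro Γ a b y hb hc hn
  have e0 : ds y⁻¹ (b * y⁻¹) = ln (y * b * y⁻¹) := by rw [ds_conj, inv_inv]
  have key : ∀ μ, Big μ → Ll (md b) μ → Ls (ln y) μ →
      ∀ r, Ll (ds r (b * r)) μ → On μ 1 y⁻¹ r := by
    intro μ hμ hm hy r hr
    rcases ll_or_ls hμ.pos (ln y) with e | e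
    · exact On.of_near (by simpa using e) r
    · have s : Sim (ln y) μ := ⟨hy, e⟩
      have B : Big (ln y) := hμ.of_ls e
      have n := hn B (hm.ls_right e B.pos.le)
      rw [s.fol_iff B.pos.le hμ.pos.le] at n
      exact on_of_not_fol hμ (Ll.ls_left hc hm) n hr
  refine ⟨ls_of_scale (one_le_ln fun e => hb.1 ?_) fun B l => ?_, fun μ hμ hm hy =>
    ⟨key μ hμ hm hy, ?_⟩⟩
  · rw [← finOrder_conj y, e]; exact IsOfFinOrder.one
  · have m : Ll (md b) (ln y) := by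
      rw [← md_conj' y b]; exact Ll.mono_left (md_le_ln _) l
    refine hn B m ⟨y⁻¹, by rw [ln_inv]; exact Ls.refl' _, on_right B.pos.le _ _, ?_, ?_⟩
    · rw [ds_one_mul]; exact Ll.ls_left hc m
    · rwa [e0]
  · obtain ⟨m, -, a2, -, a4, k⟩ := exists_proj hμ hm y⁻¹
    have h1 : On μ m y⁻¹ 1 := k 1 (by rw [ds_one_mul]; exact Ll.ls_left hc hm)
    have h2 := h1.antisymm (key μ hμ hm hy m a4)
    refine h2.two.mono_left ?_
    have := ds_tri y⁻¹ m 1
    rw [ds_one_right, ln_inv] at this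
    rw [e0] at a2
    linarith

end Pool.Agent.P.MP_dba3d2_lc
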