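import Pool.Agent.P.MP_dba3d2_lc.C.IfaceT
import Pool.Agent.P.MP_dba3d2_lc.C.TTb

/-! Step C_PURE of the stability project. -/

namespace Pool.Agent.P.MP_dba3d2_lc

open Filter

theorem C_pureA.comm {Q : Type} [CommGroup Q] {x y x' y' c : Q} {n r r' : ℕ}
    (h1 : x⁻¹ * (x' ^ n * c ^ r) = 1) (h2 : y⁻¹ * (y' ^ n * c ^ r') = 1) :
    (x * y)⁻¹ * ((x' * y') ^ n * c ^ (r + r')) = 1 := by
  rw [inv_mul_eq_one] at h1 h2 ⊢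
  rw [h1, h2, mul_pow, pow_add, mul_mul_mul_comm]

theorem p_C_PURE (hC_TORQ : S_C_TORQ) (hC_EMEM : S_C_EMEM) :
    S_C_PURE := by
  intro Γ a F hF c hc hp f hf n hn
  obtain ⟨Q, _, φ, h1, -⟩ := hC_TORQ Γ a c hp.1
  obtain ⟨x, x1, y, y1, x2, y2, rfl⟩ := hC_EMEM Γ a F hF c hc hp.1 false f hf
  obtain ⟨x', x3, x4, r, x5⟩ := (hF.gc false).pur c hc.1 hp x x1 x2 n hn
  obtain ⟨y', y3, y4, r', y5⟩ := (hF.gc true).pur c hc.2 hp y y1 y2 n hn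
  refine ⟨x' * y', mul_mem (mem_EF false x3 x4) (mem_EF true y3 y4), r + r', ?_⟩
  have k : ∀ (u v : Ep c) (m : ℕ), (φ u)⁻¹ * (φ v ^ n * φ ⟨c, self_mem_Ep c⟩ ^ m) = 1 ↔
      IsOfFinOrder ((u : MM Γ a)⁻¹ * ((v : MM Γ a) ^ n * c ^ m)) := fun u v m => by
    rw [← map_pow, ← map_pow, ← map_mul, ← map_inv, ← map_mul, h1, Subgroup.coe_mul,
      Subgroup.coe_mul, Subgroup.coe_inv, Subgroup.coe_pow, Subgroup.coe_pow]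
  have k1 := C_pureA.comm ((k ⟨x, x2⟩ ⟨x', x4⟩ r).2 x5) ((k ⟨y, y2⟩ ⟨y', y4⟩ r').2 y5)
  rw [← map_mul, ← map_mul, k] at k1
  exact k1

end Pool.Agent.P.MP_dba3d2_lc
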