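import Pool.Agent.P.MP_dba3d2_lc.C.IfaceT
import Pool.Agent.P.MP_dba3d2_lc.A.Iface
import Pool.Agent.P.MP_dba3d2_lc.B.Iface
import Pool.Agent.P.MP_dba3d2_lc.C.TTb

/-! Step C_R2A of the stability project. -/

namespace Pool.Agent.P.MP_dba3d2_lc

open Filter

namespace C_r2aA

theorem two (hELEM : S_ELEM) (hLINE : S_LINE) (hNP : S_NP) {Γ : HG} {a : Amb}
    {F : Bool → Subgroup (MM Γ a)} (hF : TwoF F) {c c' x : MM Γ a} (hcH : c ∈ F false)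
    (hcH' : c' ∈ F true) (hc : Prim c) (hc' : Prim c') (h : Cj x c' c)
    (hx : Ll (ln x) (ln c + ln c')) : ∃ g ∈ F false, ∃ g' ∈ F true, x = g * g' := by
  have hE : Γ.e * Γ.e ≠ 0 := Nat.mul_ne_zero Γ.good.pos.ne' Γ.good.pos.ne'
  obtain ⟨γ', m', he, l'⟩ :
      ∃ γ' ∈ F true, x * γ' * x⁻¹ = c ^ (Γ.e * Γ.e) ∧ Ls (ln γ') (ln c') := by
    rcases Cj.pow hELEM hc hc' h with e | e
    · exact ⟨_, pow_mem hcH' _, e, _, ln_pow_le _ _⟩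
    · exact ⟨_, inv_mem (pow_mem hcH' _), e, _, (ln_inv _).le.trans (ln_pow_le _ _)⟩
  have hd : Prim (x * c' * x⁻¹) := hc'.conj x
  have hep : Ep (x * c' * x⁻¹) = Ep c := h
  by_cases hμ : Big (ln c + ln c')
  swap
  · exact ⟨x, M_le_F false (std_le_M hF (not_big_of_ls hx.ls hμ)), 1, one_mem _, (mul_one x).symm⟩
  have n0 := ln_nonneg c
  have n1 := ln_nonneg c'
  obtain ⟨n, e1⟩ : Ls (ln (x * c' * x⁻¹)) (ln c) := by
    simpa only [ds_one_mul] using hd.disp' hELEM hLINE hc.1 hep 1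
  have e2 : ln c' ≤ ln x + ln (x * c' * x⁻¹) + ln x := by
    have k : c' = x⁻¹ * (x * c' * x⁻¹) * x := by group
    have k1 := ln_mul_le (x⁻¹ * (x * c' * x⁻¹)) x
    have k2 := ln_mul_le x⁻¹ (x * c' * x⁻¹)
    rw [← k] at k1
    rw [ln_inv] at k2
    linarith
  have s1 : Ls (ln c + ln c') (ln c) :=
    (Ls.refl' _).of_le_add hx.two hμ.pos (n + 1) (by push_cast; linarith)
  have s2 : Ls (ln c) (ln c + ln c') := Ls.of_le (by linarith)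
  have s3 : Ls (ln c') (ln c + ln c') := Ls.of_le (by linarith)
  obtain ⟨p1, p2⟩ := hNP Γ a c hc (hμ.of_ls s1) (Γ.e * Γ.e * 2)
    (by have := Nat.pos_of_ne_zero hE; omega)
  have e3 : x * γ' ^ 2 = c ^ (Γ.e * Γ.e * 2) * x := by
    rw [pow_mul, ← he, conj_pow, inv_mul_cancel_right]
  have z : ∀ y : MM Γ a, Ll (ds y y) (ln c + ln c') := fun y =>
    Ll.of_nonpos (by simp) hμ.pos.le
  have t1 : Ll (ds 1 x) (ln c + ln c') := by rwa [ds_one_left]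
  have t2 : Ll (ds (c ^ (Γ.e * Γ.e * 2)) (x * γ' ^ 2)) (ln c + ln c') := by
    rwa [e3, ds_mul_right]
  refine hF.i1 _ hμ (c ^ (Γ.e * Γ.e * 2)) (pow_mem hcH _) (γ' ^ 2) (pow_mem m' _)
    (Ls.trans' ⟨_, ln_pow_le _ _⟩ s2) (Ls.trans' ⟨_, ln_pow_le _ _⟩ (l'.trans' s3)) x 1
    (c ^ (Γ.e * Γ.e * 2)) ⟨?_, on_left hμ.pos.le _ _, on_right hμ.pos.le _ _,
      (on_left hμ.pos.le _ _).congr (z _) t1 t2, (on_right hμ.pos.le _ _).congr (z _) t1 t2⟩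
    fun e => p2 ((Sim.per_iff ⟨s2, s1⟩ n0 hμ.pos.le).2 e)
  rw [ds_one_left]
  exact s1.trans' p1

end C_r2aA

theorem p_C_R2A (hELEM : S_ELEM) (hLINE : S_LINE) (hNP : S_NP) (hROOT : S_ROOT) :
    S_C_R2A := by
  intro Γ a F hF o o' b hb b' hb' hp hp' x h hx
  have key : ∀ o₁, b ∈ XF F o₁ → b' ∈ XF F o₁ → x ∈ XF F o₁ := fun o₁ h1 h2 =>
    ((hROOT Γ a _ (hF.gcx o₁)).2.1 b h1 b' h2 hp hp' x h).1 hx
  rcases opt_cases o o' with ⟨i, h1, h2⟩ | ⟨i, rfl, rfl⟩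
  · rcases h1 with rfl | rfl
    · exact ⟨1, one_mem _, x, key o' (M_le_XF o' hb) hb', (one_mul x).symm⟩
    · exact ⟨x, key (some i) hb (XF_le_F h2 hb'), 1, one_mem _, (mul_one x).symm⟩
  · cases i
    · exact C_r2aA.two hELEM hLINE hNP hF hb hb' hp hp' h hx
    · obtain ⟨g, h1, g', h2, e⟩ := C_r2aA.two hELEM hLINE hNP hF (x := x⁻¹) hb' hb hp' hp h.inv
        (by rwa [ln_inv, add_comm])
      exact ⟨g'⁻¹, inv_mem h2, g⁻¹, inv_mem h1, by rw [← mul_inv_rev, ← e, inv_inv]⟩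

end Pool.Agent.P.MP_dba3d2_lc
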