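import Pool.Agent.P.MP_dba3d2_lc.C.IfaceT
import Pool.Agent.P.MP_dba3d2_lc.A.Iface
import Pool.Agent.P.MP_dba3d2_lc.B.Iface
import Pool.Agent.P.MP_dba3d2_lc.C.TTb

/-! Step C_R2B of the stability project. -/

namespace Pool.Agent.P.MP_dba3d2_lc

open Filter

namespace C_r2bA

variable {Γ : HG} {a : Amb}

theorem short (hE : S_ELEM) (hL : S_LINE) (hN : S_NORM) {H : Subgroup (MM Γ a)} (hH : GC0 H)
    {b c g : MM Γ a} (hc : c ∈ H) (pc : Prim c) (cc : Cen c) (hg : g ∈ H) (pb : Prim b)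
    (cb : Cen b) (e : Cj g c b) : ∃ g1 ∈ H, Cj g1 c b ∧ Ls (ln g1) (md c) ∧ Ls (md b) (md c) := by
  obtain ⟨f, m, ef, l, -⟩ := (hN Γ a H hH).1 c hc pc cc g hg
  have a1 := Prim.disp' hE hL (pc.conj g) pb.1 e 1
  rw [ds_one_mul, ds_one_mul] at a1
  have a2 := Prim.md_ls hE hL pb (pc.conj g).1 (Eq.symm e)
  rw [md_conj'] at a2
  exact ⟨g * f, mul_mem hg m, e.mul (Cj.of_mem ef), ((l.trans' a1).trans' cb).trans' a2, a2⟩

theorem two (hE : S_ELEM) (hL : S_LINE) (hR : S_ROOT) (hN : S_NORM) (hT : S_C_TFF)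
    {F : Bool → Subgroup (MM Γ a)} (hF : TwoF F) {b b' h : MM Γ a} (hb : b ∈ F false)
    (hb' : b' ∈ F true) (pb : Prim b) (pb' : Prim b') (cb : Cen b) (cb' : Cen b') (e : Cj h b' b)
    (l : Ls (ln h) (md b)) : TC1 F (some false) (some true) b b' h := by
  obtain ⟨c0, hc0, pc0, g, hg, g', hg', e1, e2⟩ := hF.i2 b hb b' hb' pb pb' h e
  obtain ⟨p, hp, hc, pc, cc, ep⟩ := hF.cenx (o := none) hc0 pc0
  set c := p⁻¹ * c0 * p
  obtain ⟨g1, m1, j1, l1, k1⟩ := short hE hL hN (hF.gc false) hc.1 pc cc (mul_mem hg hp.1) pb cb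
    (e1.mul ep)
  obtain ⟨g2, m2, j2, l2, -⟩ := short hE hL hN (hF.gc true) hc.2 pc cc (mul_mem hg' hp.2) pb' cb'
    (e2.mul ep)
  have ht : g1⁻¹ * h * g2 ∈ F false ⊓ F true := by
    refine ((hR Γ a _ hF.gcm).2.1 c hc c hc pc pc _ ((j1.inv.mul e).mul j2)).2 cc cc ?_
    refine Ls.mono_left ?_ ((l1.add (l.trans' k1)).add l2)
    have b1 := ln_mul_le (g1⁻¹ * h) g2
    have b2 := ln_mul_le g1⁻¹ h
    rw [ln_inv] at b2
    linarith
  have e3 : g1 * (g1⁻¹ * h * g2) * g2⁻¹ = h := by group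
  have := hT Γ a F hF (some false) (some true) false true (Or.inr rfl) (Or.inr rfl) _
    (mul_mem m1 ht.1) _ (inv_mem m2)
  rw [e3] at this
  exact this b hb b' hb' pb pb' e

end C_r2bA

theorem p_C_R2B (hELEM : S_ELEM) (hLINE : S_LINE) (hROOT : S_ROOT) (hNORM : S_NORM) (hC_TFF : S_C_TFF) :
    S_C_R2B := by
  intro Γ a F hF o o' b hb b' hb' pb pb' cb cb' h e l
  rcases opt_cases o o' with ⟨i, h1, h2⟩ | ⟨i, rfl, rfl⟩
  · have hh := ((hROOT Γ a _ (hF.gc i)).2.1 b (XF_le_F h1 hb) b' (XF_le_F h2 hb') pb pb' h e).2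
      cb cb' l
    have := hC_TFF Γ a F hF o o' i i h1 h2 h hh 1 (one_mem _)
    rw [mul_one] at this
    exact this b hb b' hb' pb pb' e
  · cases i
    · exact C_r2bA.two hELEM hLINE hROOT hNORM hC_TFF hF hb hb' pb pb' cb cb' e l
    · have a2 := Prim.md_ls hELEM hLINE pb (pb'.conj h).1 (Eq.symm e)
      rw [md_conj'] at a2
      have := (C_r2bA.two hELEM hLINE hROOT hNORM hC_TFF hF hb' hb pb' pb cb' cb e.inv
        (by rw [ln_inv]; exact l.trans' a2)).symm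
      rwa [inv_inv] at this

end Pool.Agent.P.MP_dba3d2_lc
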