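import Pool.Agent.P.MP_dba3d2_lc.C.IfaceT2
import Pool.Agent.P.MP_dba3d2_lc.B.Iface
import Pool.Agent.P.MP_dba3d2_lc.C.TTb

/-! Step C_RED of the stability project. -/

namespace Pool.Agent.P.MP_dba3d2_lc

open Filter

namespace C_redA

variable {Γ : HG} {a : Amb} {F : Bool → Subgroup (MM Γ a)} {G : Type} [Group G] {C : Cv F G}
  {A B : Subgroup G} {o : Option Bool} {c : MM Γ a} {y : G} {s : Tg Γ a × G}

/-- a factor syllable in front of an exponent syllable moves the axis out of the base -/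
theorem fac (hR : S_ROOT) (hF : TwoF F) (hc : TOK F C.S (.inr c))
    (h : C.CMin A (C.L (.inr c)) [(.inl o, y)]) (ho : o ≠ none) :
    C.π y * c * (C.π y)⁻¹ ∉ XF F none := fun hd => by
  have k := h.1 (.inl o, y) (by simp)
  obtain ⟨g, g1, -, -, g2⟩ := hF.root6 hR hd hc.1 (hc.2.1.conj _).1 hc.2.1.1 (Cj.self _ _)
  obtain ⟨x, x1, rfl⟩ := Cv.lift_base (C := C) g1
  have x2 : x⁻¹ * y ∈ C.L (.inr c) :=
    Cv.mem_E k.1 hc (mul_mem (inv_mem (Cv.base_le k.1 x1)) k.2) (by simpa using g2)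
  have := h.2 [(.inl none, x)] (Cv.wd_single (Cv.ok_base x1)) 1 (one_mem _) _ (inv_mem x2)
    (by simp)
  rcases o with _ | i
  · exact ho rfl
  · simp at this

theorem notl (h : C.CMin A B [s]) : s.2 ∉ A := fun k =>
  List.cons_ne_nil _ _ (h.eq_nil k (one_mem _) (by simp))

theorem notr (h : C.CMin A B [s]) : s.2 ∉ B := fun k =>
  List.cons_ne_nil _ _ (h.eq_nil (one_mem _) k (by simp))

theorem same {d : MM Γ a} (hc : TOK F C.S (.inr c)) (hd : TOK F C.S (.inr d)) (e : Ep c = Ep d)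
    (h : y ∈ C.L (.inr c)) : y ∈ C.L (.inr d) := by
  simpa using C.cj c d hc hd 1 (one_mem _) (by simpa using Cj.one_iff.2 e) y h

theorem endl {X : Type} {e e' : Option X} {u p q : List X} {s : X} (k : xw e u e' = p ++ s :: q)
    (h : ¬ e.toList.length ≤ p.length) : e = some s ∧ p = [] := by
  rcases e with _ | s0
  · simp at h
  obtain rfl : p = [] := by simpa using h
  obtain rfl : s0 = s := by simpa [xw] using congrArg List.head? k
  exact ⟨rfl, rfl⟩

theorem endr {X : Type} {e e' : Option X} {u p q : List X} {s : X} (k : xw e u e' = p ++ s :: q)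
    (h : ¬ e'.toList.length ≤ q.length) : e' = some s ∧ q = [] := by
  rcases e' with _ | s0
  · simp at h
  obtain rfl : q = [] := by simpa using h
  obtain rfl : s0 = s := by simpa [xw] using congrArg List.getLast? k
  exact ⟨rfl, rfl⟩

end C_redA

open C_redA in
theorem p_C_RED (hROOT : S_ROOT) :
    S_C_RED := by
  intro Γ a F hF G _ C e e' u he he' h h0
  have hw : C.Wd (xw e u e') := Cv.wd_xw (fun s hs => (he s hs).1) h.1 fun s hs => (he' s hs).1
  refine ⟨hw, fun s hs i hi hm => ?_, ?_, fun s z s' k => h.he hw (fun s hs s' hs' =>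
    (h0 s hs s' hs').1) k⟩
  · rcases (mem_xw _ _ _ _).1 hs with k | k | k
    · obtain ⟨c, hc⟩ := (he s k).2
      simp [hc] at hi
    · simp [h.nz s k hm] at hi
    · obtain ⟨c, hc⟩ := (he' s k).2
      simp [hc] at hi
  refine List.isChain_iff_forall_rel_of_append_cons_cons.2 fun s s' p q k => ?_
  have o1 : C.ok s := hw s (by simp [k])
  have o2 : C.ok s' := hw s' (by simp [k])
  have hR : (∃ B, C.CMin (C.L s.1) B [s']) ∨ e' = some s' ∧ q = [] := by
    by_cases hq : e'.toList.length ≤ q.length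
    · have := h.piece (p := p ++ [s]) (z := [s']) (q := q) (by simp [k]) (by cases e <;> simp) hq
      exact .inl ⟨_, by simpa using this⟩
    · exact .inr (endr (e := e) (u := u) (p := p ++ [s]) (by simp [k]) hq)
  have hL : (∃ A, C.CMin A (C.L s'.1) [s]) ∨ e = some s ∧ p = [] := by
    by_cases hp : e.toList.length ≤ p.length
    · have := h.piece (p := p) (z := [s]) (q := s' :: q) (by simp [k]) hp (by cases e' <;> simp)
      exact .inl ⟨_, by simpa using this⟩
    · exact .inr (endl k hp)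
  have hR' : ∀ o, s'.1 = .inl o → ∃ B, C.CMin (C.L s.1) B [s'] := fun o ho =>
    hR.resolve_right fun m => by
      obtain ⟨c, hc⟩ := (he' s' m.1).2
      simp [hc] at ho
  have hL' : ∀ o, s.1 = .inl o → ∃ A, C.CMin A (C.L s'.1) [s] := fun o ho =>
    hL.resolve_right fun m => by
      obtain ⟨c, hc⟩ := (he s m.1).2
      simp [hc] at ho
  obtain ⟨o | c, y⟩ := s <;> obtain ⟨o' | c', y'⟩ := s'
  · obtain ⟨B, r⟩ := hR' _ rfl
    obtain ⟨A, l⟩ := hL' _ rfl
    refine (opt_cases o o').resolve_left ?_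
    rintro ⟨i, rfl | rfl, rfl | rfl⟩
    exacts [notl r o2.2, notr l (Cv.base_le o2.1 o1.2), notl r (Cv.base_le o1.1 o2.2),
      notl r o2.2]
  · obtain ⟨A, l⟩ := hL' _ rfl
    exact fac hROOT hF o2.1 l
  · obtain ⟨B, r⟩ := hR' _ rfl
    intro ho
    have := fac (y := y'⁻¹) hROOT hF o1.1 (by simpa [sinv] using r.winv) ho
    simpa using this
  · rcases hR with ⟨B, r⟩ | ⟨rfl, rfl⟩
    · exact fun m => notl r (same o2.1 o1.1 m.symm o2.2)
    rcases hL with ⟨A, l⟩ | ⟨rfl, rfl⟩
    · exact fun m => notr l (same o1.1 o2.1 m o1.2)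
    refine (h0 _ rfl _ rfl).2 ?_
    simpa using congrArg List.length k

end Pool.Agent.P.MP_dba3d2_lc
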