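import Pool.Agent.P.MP_dba3d2_lc.C.IfaceT
import Pool.Agent.P.MP_dba3d2_lc.B.Iface
import Pool.Agent.P.MP_dba3d2_lc.C.TTb

/-! Step C_REDX of the stability project. -/

namespace Pool.Agent.P.MP_dba3d2_lc

open Filter

namespace C_redxA

variable {Γ : HG} {a : Amb} {F : Bool → Subgroup (MM Γ a)} {b c g : MM Γ a} {o : Option Bool}

/-- an axis that is carried into the base is carried to a centred axis of the base -/
theorem base (hF : TwoF F) (hc : c ∈ XF F none) (pc : Prim c) (hg : g ∈ XF F o) (h : Cj g c b) :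
    ∃ b1, Typ F none b1 ∧ ∃ g ∈ XF F o, Cj g b1 b := by
  obtain ⟨p, h1, h2, h3, h4, h5⟩ := hF.cenx hc pc
  exact ⟨_, ⟨h2, h3, h4, fun k => absurd rfl k⟩, g * p, mul_mem hg (M_le_XF o h1), h.mul h5⟩

theorem typ (hF : TwoF F) (hb : b ∈ XF F o) (pb : Prim b) :
    ∃ o1 b1, Typ F o1 b1 ∧ (o1 = none ∨ o1 = o) ∧ ∃ g ∈ XF F o, Cj g b1 b := by
  by_cases h : ∃ g ∈ XF F o, g⁻¹ * b * g ∈ XF F none
  · obtain ⟨g, h1, h2⟩ := h
    obtain ⟨b1, h3, h4⟩ := base hF h2 (pb.conj' g) h1 (Cj.self' g b)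
    exact ⟨none, b1, h3, .inl rfl, h4⟩
  · obtain ⟨p, h1, h2, h3, h4, h5⟩ := hF.cenx hb pb
    exact ⟨o, _, ⟨h2, h3, h4, fun _ g hg k => h ⟨p * g, mul_mem h1 hg, by
      simpa [mul_assoc] using k⟩⟩, .inr rfl, p, h1, h5⟩

end C_redxA

open C_redxA

theorem p_C_REDX (hROOT : S_ROOT) :
    S_C_REDX := by
  intro Γ a F hF o o' b hb b' hb' pb pb' x hx
  have key : ∃ o1 b1, Typ F o1 b1 ∧ (o1 ≠ none → o = o1 ∧ o' = o1) ∧
      ∃ g ∈ XF F o, Cj g b1 b := by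
    have two : ∀ c ∈ XF F none, Prim c → ∀ g ∈ XF F o, Cj g c b → ∃ o1 b1, Typ F o1 b1 ∧
        (o1 ≠ none → o = o1 ∧ o' = o1) ∧ ∃ g ∈ XF F o, Cj g b1 b := fun c h1 h2 g h3 h4 =>
      let ⟨b1, k1, k2⟩ := base hF h1 h2 h3 h4
      ⟨none, b1, k1, fun k => absurd rfl k, k2⟩
    rcases opt_cases o o' with ⟨i, rfl | rfl, h2⟩ | ⟨i, rfl, rfl⟩
    · exact two b hb pb 1 (one_mem _) (Cj.of_mem (one_mem _))
    · rcases h2 with rfl | rfl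
      · obtain ⟨g, k1, k2, -⟩ := hF.root6 hROOT hb (M_le_XF _ hb') pb.1 pb'.1 hx
        exact two b' hb' pb' g k1 k2
      · obtain ⟨o1, b1, k1, k2, k3⟩ := typ hF hb pb
        exact ⟨o1, b1, k1, fun k => ⟨(k2.resolve_left k).symm, (k2.resolve_left k).symm⟩, k3⟩
    · cases i
      · obtain ⟨c, k1, k2, g, k3, -, -, k4, -⟩ := hF.i2 b hb b' hb' pb pb' x hx
        exact two c k1 k2 g k3 k4
      · obtain ⟨c, k1, k2, -, -, g, k3, -, k4⟩ := hF.i2 b' hb' b hb pb' pb x⁻¹ hx.inv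
        exact two c k1 k2 g k3 k4
  obtain ⟨o1, b1, h1, h2, g, h3, h4⟩ := key
  have h5 : b1 ∈ XF F o' := by
    by_cases k : o1 = none
    · exact M_le_XF o' (k ▸ h1.1)
    · exact (h2 k).2 ▸ h1.1
  obtain ⟨h, k1, k2, k3, -⟩ := hF.root6 hROOT h5 hb' h1.2.1.1 pb'.1 (h4.inv.mul hx)
  exact ⟨o1, b1, h1, h2, g, h3, h⁻¹, inv_mem k1, _, k3, by group, h4, k2.inv⟩

end Pool.Agent.P.MP_dba3d2_lc
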