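import Pool.Agent.P.MP_dba3d2_lc.C.IfaceT2
import Pool.Agent.P.MP_dba3d2_lc.B.Iface
import Pool.Agent.P.MP_dba3d2_lc.C.IfaceT
import Pool.Agent.P.MP_dba3d2_lc.C.TTb

/-! Step C_RIGP of the stability project. -/

namespace Pool.Agent.P.MP_dba3d2_lc

open Filter

namespace C_rigpA

variable {Γ : HG} {a : Amb} {F : Bool → Subgroup (MM Γ a)} {o o' : Option Bool}
  {b d f f' x y g : MM Γ a} {w w' : List (Tg Γ a × MM Γ a)} {ν : a.K}

theorem cj_ep (hx : x ∈ Ep b) (hy : y ∈ Ep d) (h : Cj g d b) : Cj (x * g * y) d b :=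
  ((Cj.of_mem hx).mul h).mul (Cj.of_mem hy)

theorem ri_inv (h : RI F o b o' d w w' f f') : RI F o' d o b (winv w) (winv w') f' f := by
  refine ⟨h.td, h.tb, h.wd.winv, h.wd'.winv, h.r, h.r', by rw [winv_winv]; exact h.l,
    by rw [winv_winv]; exact h.l', h.ed, h.eb, ?_, fun k => h.nc ?_⟩
  · rw [vl_winv, vl_winv, eq_inv_mul_iff_mul_eq, ← mul_assoc, ← h.eq, mul_inv_cancel_right]
  · simpa only [vl_winv, inv_inv] using k.inv

theorem ri_nc (h : RI F o b o' d w w' f f') : ¬ Cj (vl w') d b := fun k => h.nc (by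
  have := cj_ep h.eb (inv_mem h.ed) k
  rwa [h.eq, mul_inv_cancel_right] at this)

theorem ri_mem (h : RI F o b o' d w w' f f') (k : f' ∈ F false ⊔ F true) :
    f ∈ F false ⊔ F true := by
  rw [eq_mul_inv_of_mul_eq h.eq]
  exact mul_mem (mul_mem h.wd.mem_P k) (inv_mem h.wd'.mem_P)

theorem single (hν : Big ν) (h1 : LastX F ν w) (h2 : LastX F ν (winv w)) (h3 : Ls ν (ln (vl w))) :
    ∃ t y, w = [(.inl t, y)] := by
  obtain ⟨z, ⟨t, y⟩, o, rfl, rfl, k1⟩ := h1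
  obtain ⟨z', s', -, e, -, k2⟩ := h2
  rcases z with _ | ⟨s, z⟩
  · exact ⟨_, _, rfl⟩
  rw [winv_append, winv_cons (s := s), ← List.append_assoc] at e
  obtain ⟨rfl, -⟩ := List.append_inj' e rfl
  rw [Cv.sl_append, Cv.sl_winv] at k2
  refine ((Ll.mono_left ?_ (k1.add k2)).not_ls hν.pos h3).elim
  have l1 := Cv.ln_vl_le (C := idC F) (w := s :: z ++ [(.inl o, y)])
  have l2 := Cv.sl_nonneg (C := idC F) (w := winv z)
  rw [Cv.sl_append, idC_π] at l1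
  linarith

theorem mem_tag {t : Option Bool} (h : Typ F o' d) (k : SolL o' (winv [(.inl t, y)])) :
    d ∈ XF F t := by
  by_cases e : o' = none
  · exact M_le_XF t (e ▸ h.1)
  · obtain ⟨s, h1, h2⟩ := k e
    obtain rfl : sinv (.inl t, y) = s := by simpa using h1
    obtain rfl : t = o' := by simpa using h2
    exact h.1

theorem base (hP : S_C_PROJ) (hA : S_C_R2A) (hF : TwoF F) {t t' : Option Bool} {y' : MM Γ a}
    (h : RI F o b o' d [(.inl t, y)] [(.inl t', y')] f f') (hn : NE d y) (h1 : Ll (ln f) ν)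
    (h2 : Ls ν (ln y)) : f ∈ F false ⊔ F true := by
  have hy : y ∈ XF F t := (h.wd _ List.mem_cons_self).2
  have hy' : y' ∈ XF F t' := (h.wd' _ List.mem_cons_self).2
  have e : f = y * f' * y'⁻¹ := by simpa using eq_mul_inv_of_mul_eq h.eq
  have p1 := ln_nonneg (y * d * y⁻¹)
  have p2 := ln_nonneg (y' * d * y'⁻¹)
  obtain ⟨g, hg, g', hg', rfl⟩ := hA _ _ F hF t t' (y * d * y⁻¹)
    (mul_mem (mul_mem hy (mem_tag h.td h.r)) (inv_mem hy)) (y' * d * y'⁻¹)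
    (mul_mem (mul_mem hy' (mem_tag h.td h.r')) (inv_mem hy')) (h.td.2.1.conj y) (h.td.2.1.conj y')
    f (by rw [e]; exact ((Cj.self y d).mul (Cj.of_mem h.ed)).mul (Cj.self y' d).inv)
    (h1.ls_right ((h2.trans' (hP _ _ d y h.td.2.1 h.td.2.2.1 hn).1).mono_right (by linarith))
      (by linarith))
  exact mul_mem (XF_le_P t hg) (XF_le_P t' hg')

theorem root (hR : S_ROOT) (hF : TwoF F) (h : Typ F o b) (hf : f ∈ Ep b) (k : Ls (ln f) (md b)) :
    f ∈ F false ⊔ F true :=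
  XF_le_P o (((hR _ _ _ (hF.gcx o)).2.1 b h.1 b h.1 h.2.1 h.2.1 f (Cj.of_mem hf)).2 h.2.2.1
    h.2.2.1 k)

theorem len_le (e : f * y = x * f') : ln x ≤ ln f + ln y + ln f' := by
  rw [← mul_inv_eq_iff_eq_mul.2 e, ← ln_inv f']
  exact (ln_mul_le _ _).trans (add_le_add (ln_mul_le _ _) le_rfl)

end C_rigpA

open C_rigpA in
theorem p_C_RIGP (hROOT : S_ROOT) (hC_PROJ : S_C_PROJ) (hC_TWOBR : S_C_TWOBR) (hC_R2A : S_C_R2A) (hC_NFE : S_C_NFE) (hC_RSTEP : S_C_RSTEP) :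
    S_C_RIGP := by
  intro Γ a F hF
  suffices H : ∀ n o b o' d w w' f f', ct w + ct w' < n → RI F o b o' d w w' f f' →
      f ∈ F false ⊔ F true from fun o b o' d w w' f f' h => H _ o b o' d w w' f f' (lt_add_one _) h
  intro n
  induction n with
  | zero => exact fun _ _ _ _ _ _ _ _ h => absurd h (Nat.not_lt_zero _)
  | succ n ih =>
  intro o b o' d v v' f0 f0' hn h0
  obtain ⟨w, φ, a1, φ', a2, a3, a4, a5, a6, a7, a8, a9, a10, a11⟩ :=
    (hC_NFE _ _ F hF).2.2 o b o' d v h0.tb h0.td h0.wd h0.l h0.r h0.nc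
  obtain ⟨w', ψ, b1, ψ', b2, b3, b4, b5, b6, b7, b8, b9, b10, b11⟩ :=
    (hC_NFE _ _ F hF).2.2 o b o' d v' h0.tb h0.td h0.wd' h0.l' h0.r' (ri_nc h0)
  suffices K : φ * f0 * ψ⁻¹ ∈ F false ⊔ F true by
    rwa [mul_mem_cancel_right (inv_mem b1), mul_mem_cancel_left a1] at K
  have h : RI F o b o' d w w' (φ * f0 * ψ⁻¹) (φ'⁻¹ * f0' * ψ') := by
    refine ⟨h0.tb, h0.td, a3.wd, b3.wd, a5, b5, a6, b6, mul_mem (mul_mem a7 h0.eb) (inv_mem b7),
      mul_mem (mul_mem (inv_mem a8) h0.ed) b8, ?_, fun k => h0.nc ?_⟩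
    · rw [a11, b11]
      calc _ = φ * (f0 * vl v') * ψ' := by group
        _ = _ := by rw [h0.eq]; group
    · have := cj_ep (inv_mem a7) (inv_mem a8) k
      rwa [a11, show φ⁻¹ * (φ * vl v * φ') * φ'⁻¹ = vl v by group] at this
  generalize φ * f0 * ψ⁻¹ = f at h ⊢
  generalize φ'⁻¹ * f0' * ψ' = f' at h
  have p1 := ln_nonneg f
  have p2 := ln_nonneg f'
  have p3 := ln_nonneg (vl w)
  have p4 := ln_nonneg (vl w')
  obtain ⟨ν, hν⟩ : ∃ ν, ν = ln f + ln f' + ln (vl w) + ln (vl w') := ⟨_, rfl⟩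
  have l1 : Ls (ln f) ν := Ls.of_le (by linarith)
  have l2 : Ls (ln f') ν := Ls.of_le (by linarith)
  by_cases hb : Big ν
  swap
  · exact XF_le_P none (std_le_M hF (not_big_of_ls l1 hb))
  rcases ll_or_ls hb.pos (md b) with m1 | m1
  swap
  · exact root hROOT hF h.tb h.eb (l1.trans' m1)
  rcases ll_or_ls hb.pos (md d) with m2 | m2
  swap
  · exact ri_mem h (root hROOT hF h.td h.ed (l2.trans' m2))
  obtain ⟨t1, t2⟩ := hC_TWOBR _ _ ν b d _ _ f f' h.tb.2.1 h.tb.2.2.1 h.td.2.1 h.td.2.2.1 a9 b9 a10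
    b10 h.eb h.ed h.eq h.nc hb m1 m2 (Ls.of_le hν.ge)
  have q1 := len_le h.eq
  have q2 := len_le (show f⁻¹ * vl w = vl w' * f'⁻¹ by
    rw [eq_mul_inv_iff_mul_eq, mul_assoc, ← h.eq, inv_mul_cancel_left])
  rw [ln_inv, ln_inv] at q2
  have s1 : Sim (ln (vl w)) ν := ⟨Ls.of_le (by linarith),
    (Ls.refl' ν).of_le_add (t1.add t2).two hb.pos 2 (by push_cast; linarith)⟩
  have s2 : Sim (ln (vl w')) ν := ⟨Ls.of_le (by linarith),
    (Ls.refl' ν).of_le_add (t1.add t2).two hb.pos 2 (by push_cast; linarith)⟩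
  rcases hC_RSTEP _ _ F hF ν _ _ _ _ _ _ _ _ h a3 b3 a9 hb s1 s2 t1 t2 with
    k | ⟨_, _, _, _, _, k, c⟩ | ⟨k1, k2⟩
  · exact k
  · exact ih _ _ _ _ _ _ _ _ (by omega) k
  rcases hC_RSTEP _ _ F hF ν _ _ _ _ _ _ _ _ (ri_inv h) a3.winv b3.winv
    (by rw [vl_winv, inv_inv]; exact a10) hb (by rw [vl_winv, ln_inv]; exact s1)
    (by rw [vl_winv, ln_inv]; exact s2) t2 t1 with k | ⟨_, _, _, _, _, k, c⟩ | ⟨k3, k4⟩
  · exact ri_mem h k
  · rw [ct_winv, ct_winv] at c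
    exact ri_mem h (ih _ _ _ _ _ _ _ _ (by omega) k)
  obtain ⟨t, y, rfl⟩ := single hb k1 k3 s1.2
  obtain ⟨t', y', rfl⟩ := single hb k2 k4 s2.2
  exact base hC_PROJ hC_R2A hF h (by simpa using a10) t1 (by simpa using s1.2)

end Pool.Agent.P.MP_dba3d2_lc
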