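import Pool.Agent.P.MP_dba3d2_lc.C.IfaceT2
import Pool.Agent.P.MP_dba3d2_lc.C.IfaceT
import Pool.Agent.P.MP_dba3d2_lc.C.TTb

/-! Step C_RIGX of the stability project. -/

namespace Pool.Agent.P.MP_dba3d2_lc

open Filter

theorem C_rigxA.word {Γ : HG} {a : Amb} {F : Bool → Subgroup (MM Γ a)} (o o' : Option Bool)
    {h : MM Γ a} (hh : h ∈ F false ⊔ F true) :
    ∃ w, (idC F).Wd w ∧ SolL o w ∧ SolL o' (winv w) ∧ vl w = h := by
  obtain ⟨w, h1, h2⟩ := exists_wordP hh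
  refine ⟨(.inl o, 1) :: w ++ [(.inl o', 1)], Cv.wd_append.2 ⟨Cv.wd_cons.2 ⟨idC_ok (one_mem _), h1⟩,
    Cv.wd_single (idC_ok (one_mem _))⟩, fun _ => ⟨(.inl o, 1), by simp, rfl⟩,
    fun _ => ⟨sinv (.inl o', 1), by simp, rfl⟩, by simp [h2]⟩

theorem p_C_RIGX (hC_REDX : S_C_REDX) (hC_RIGP : S_C_RIGP) :
    S_C_RIGX := by
  intro Γ a F hF x z hz z' hz' k hk k' hk' o o' o1 o1' b hb b' hb' d hd d' hd' pb pb' pd pd' c1 c2 hne
  obtain ⟨o2, b1, t1, -, g, hg, g', hg', f, hf, e1, j1, -⟩ :=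
    hC_REDX Γ a F hF o o' b hb b' hb' pb pb' _ c1
  obtain ⟨o3, d1, t2, -, g2, hg2, g2', hg2', f', hf', e2, j2, -⟩ :=
    hC_REDX Γ a F hF o1 o1' d hd d' hd' pd pd' _ c2
  have m1 := mul_mem hz (XF_le_P _ hg)
  have m2 := mul_mem hz' (XF_le_P _ hg')
  obtain ⟨w, w1, w2, w3, w4⟩ :=
    C_rigxA.word o2 o3 (mul_mem (inv_mem m1) (mul_mem hk (XF_le_P _ hg2)))
  obtain ⟨w', v1, v2, v3, v4⟩ :=
    C_rigxA.word o2 o3 (mul_mem (inv_mem m2) (mul_mem hk' (XF_le_P _ hg2')))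
  have ef : f = g⁻¹ * (z⁻¹ * x * z') * g' := by rw [e1]; group
  have ef' : f' = g2⁻¹ * (k⁻¹ * x * k') * g2' := by rw [e2]; group
  have hP := hC_RIGP Γ a F hF o2 b1 o3 d1 w w' f f'
    ⟨t1, t2, w1, v1, w2, v2, w3, v3, hf, hf', by rw [w4, v4, ef, ef']; group, fun hc => by
      have a1 := ((Cj.self z b).mul j1).mul hc
      rw [w4, mul_inv_cancel_left] at a1
      exact hne (a1.symm.trans ((Cj.self k d).mul j2))⟩
  have ex : x = z * g * f * (z' * g')⁻¹ := by rw [ef]; group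
  rw [ex]
  exact mul_mem (mul_mem m1 hP) (inv_mem m2)

end Pool.Agent.P.MP_dba3d2_lc
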