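import Pool.Agent.P.MP_dba3d2_lc.C.IfaceT2
import Pool.Agent.P.MP_dba3d2_lc.A.Iface
import Pool.Agent.P.MP_dba3d2_lc.C.IfaceT
import Pool.Agent.P.MP_dba3d2_lc.C.TTb

/-! Step C_RSTEP of the stability project. -/

namespace Pool.Agent.P.MP_dba3d2_lc

open Filter

namespace C_rstepA

variable {Γ : HG} {a : Amb} {F : Bool → Subgroup (MM Γ a)} {ν : a.K} {g x p q : MM Γ a}
  {z B : List (Tg Γ a × MM Γ a)} {s : Tg Γ a × MM Γ a} {o : Option Bool}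

theorem cost (h : Ll ((idC F).sl z) ν) (s : Tg Γ a × MM Γ a) (B : List (Tg Γ a × MM Γ a))
    (g : MM Γ a) : ct (z ++ [(.inl (bt s.1), g)]) ≤ ct (z ++ s :: B) ∧
      (ct (z ++ [(.inl (bt s.1), g)]) < ct (z ++ s :: B) ∨ LastX F ν (z ++ s :: B)) := by
  have k := kx_bt_le s.1
  simp only [ct_append, ct_cons, ct_nil, kc_inl]
  refine ⟨by omega, ?_⟩
  by_cases hB : ct B ≤ 0
  · obtain rfl := ct_eq_zero hB
    obtain ⟨o | c, y⟩ := s
    · exact .inr ⟨z, _, o, rfl, rfl, h⟩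
    · exact .inl (by simp)
  · exact .inl (by omega)

theorem solL (h : SolL o (z ++ s :: B)) (g : MM Γ a) : SolL o (z ++ [(.inl (bt s.1), g)]) := by
  intro h0
  obtain ⟨t, h1, h2⟩ := h h0
  cases z with
  | nil =>
    obtain rfl : s = t := by simpa using h1
    exact ⟨_, rfl, by rw [h2]; rfl⟩
  | cons u z => exact ⟨t, h1, h2⟩

theorem solR (h : o ≠ none → bt s.1 = o) (g : MM Γ a) :
    SolL o (winv (z ++ [(.inl (bt s.1), g)])) := fun h0 =>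
  ⟨sinv (.inl (bt s.1), g), by simp, by rw [← h h0]; rfl⟩

theorem big_mul (hν : Big ν) (hx : Ll (ln x) ν) (h : Ls ν (ln q)) : Ls ν (ln (x * q)) :=
  h.of_le_add hx hν.pos 1 (by
    have := ln_mul_le x⁻¹ (x * q)
    rw [inv_mul_cancel_left, ln_inv] at this
    push_cast; linarith)

theorem on_mul (hx : Ll (ln x) ν) (h : On ν p 1 q) : On ν (x * p) 1 (x * q) :=
  (h.mul x).congr (FixA.ll_self hx.nonneg _) (by simpa using hx) (FixA.ll_self hx.nonneg _)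

theorem ll_mul (hx : Ll (ln x) ν) (hg : Ll (ln g) ν) : Ll (ln (x * g)) ν :=
  (hx.add hg).mono_left (ln_mul_le x g)

theorem ll_inv (hx : Ll (ln x) ν) : Ll (ln x⁻¹) ν := by rwa [ln_inv]

theorem first (hF : S_C_FIRST) {w : List (Tg Γ a × MM Γ a)} (hν : Big ν) (h : Nice F w)
    (h1 : Ls (ln (vl w)) ν) (h2 : Ls ν (ln q)) (h3 : On ν q 1 (vl w)) :
    ∃ z s B, w = z ++ s :: B ∧ Ll ((idC F).sl z) ν ∧ Ll (ln (vl z)) ν ∧ (idC F).Wd z ∧
      (idC F).ok s ∧ (∀ c, s.1 = .inr c → s.2 ∉ XF F none) ∧ Ls (ln s.2) ν ∧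
      ∃ q', Ls ν (ln q') ∧ On ν q' 1 q ∧ On ν ((vl z)⁻¹ * q') 1 s.2 := by
  obtain ⟨z, s, B, rfl, a1, a2, q', a3, a4, a5⟩ := hF Γ a ν _
    (fun s : Tg Γ a × MM Γ a => (idC F).π s.2) w q hν (h.geo' hν h1) h2
    (idC_prod (F := F) (w := w) ▸ h3)
  have hs : s ∈ z ++ s :: B := by simp
  exact ⟨z, s, B, rfl, a1, Ll.mono_left (Cv.ln_vl_le (C := idC F)) a1, (Cv.wd_append.1 h.wd).1,
    h.wd s hs, h.nz.big hs hν a2, Ls.mono_left (Cv.ln_le_sl hs) (h.ls hν h1), q', a3, a4,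
    idC_prod (F := F) (w := z) ▸ a5⟩

end C_rstepA

open C_rstepA

theorem p_C_RSTEP (hELEM : S_ELEM) (hLINE : S_LINE) (hC_FIRST : S_C_FIRST) (hC_ARC : S_C_ARC) (hC_J0 : S_C_J0) (hC_REDX : S_C_REDX) :
    S_C_RSTEP := by
  intro Γ a F hF ν o b o' d w w' f f' R hw hw' hN hν s1 s2 hf hf'
  have h0 := hν.pos.le
  obtain ⟨z, s, B, rfl, a0, a1, a2, a3, a4, a5, q1, a6, a7, a8⟩ :=
    first hC_FIRST hν hw s1.1 s1.2 (on_right h0 _ _)
  obtain ⟨z', s', B', rfl, b0, b1, b2, b3, b4, b5, q2, b6, b7, b8⟩ :=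
    first hC_FIRST (q := f⁻¹ * q1) hν hw' s2.1 (big_mul hν (ll_inv hf) a6)
      ((on_mul (ll_inv hf) a7).congr (FixA.ll_self h0 _) (FixA.ll_self h0 _) (by
        rw [eq_inv_mul_iff_mul_eq.2 R.eq, ← mul_assoc, ds_mul_right]; exact hf'))
  have c1 : On ν (f * q2) 1 q1 := by simpa using on_mul hf b7
  have c2 := (a8.sub (on_mul (ll_inv a1) c1)).1
  have c3 := ll_mul (ll_mul (ll_inv a1) hf) b1
  have c4 := big_mul hν hf b6
  rcases hC_J0 Γ a F hF ν s.1 s'.1 s.2 s'.2 ((vl z)⁻¹ * f * vl z') 1 ((vl z)⁻¹ * (f * q2)) hν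
    (by rw [ds_one_left]; exact big_mul hν (ll_inv a1) c4) a3.1 b3.1 a3.2 b3.2
    (hC_ARC Γ a F hF ν _ _ _ _ hν a3.1 a3.2 a4 a5 (on_left h0 _ _) c2)
    (hC_ARC Γ a F hF ν _ _ _ _ hν b3.1 b3.2 b4 b5
      (On.of_near (by rw [mul_one, ds_one_left]; exact ll_inv c3) _)
      (by
        rw [show ((vl z)⁻¹ * f * vl z')⁻¹ * ((vl z)⁻¹ * (f * q2)) = (vl z')⁻¹ * q2 by group]
        exact b8)) with ⟨_, _, -, -, g, hg, g', hg', e⟩ | ⟨c, c', d1, d2, d3⟩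
  · refine .inl ?_
    rw [show f = vl z * (g * g') * (vl z')⁻¹ by rw [← e]; group]
    exact mul_mem (mul_mem a2.mem_P (mul_mem (XF_le_P _ hg) (XF_le_P _ hg'))) (inv_mem b2.mem_P)
  obtain ⟨o1, b', e1, e2, g, hg, g', hg', f1, hf1, e3, e4, -⟩ :=
    hC_REDX Γ a F hF _ _ c d1.1 c' d2.1 d1.2.1 d2.2.1 _ d3
  obtain ⟨k1, k2⟩ := cost a0 s B g
  obtain ⟨k3, k4⟩ := cost b0 s' B' g'
  by_cases hL : LastX F ν (z ++ s :: B) ∧ LastX F ν (z' ++ s' :: B')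
  · exact .inr (.inr hL)
  refine .inr (.inl ⟨o1, b', z ++ [(.inl (bt s.1), g)], z' ++ [(.inl (bt s'.1), g')], f1,
    ⟨R.tb, e1, Cv.wd_append.2 ⟨a2, Cv.wd_single (idC_ok hg)⟩,
      Cv.wd_append.2 ⟨b2, Cv.wd_single (idC_ok hg')⟩, solL R.l g, solL R.l' g',
      solR (fun h => (e2 h).1) g, solR (fun h => (e2 h).2) g', R.eb, hf1, ?_, fun k => ?_⟩, ?_⟩)
  · simp only [vl_append, vl_cons, vl_nil, mul_one]
    calc _ = vl z * ((vl z)⁻¹ * f * vl z') * g' := by group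
      _ = _ := by rw [e3]; group
  · have k5 : Cj (vl z) c b := by simpa using k.mul e4.inv
    have k6 := ((stab_conj (vl z)).2 d1.2.2.1).congr (p' := 1) (q' := f * q2)
      (by simpa using a1) (by rw [mul_inv_cancel_left]; exact FixA.ll_self h0 _)
    have k7 := mt (finOrder_conj (vl z) c).1 d1.2.1.1
    refine hN.not_fol hν (by rw [ln_inv]; exact s1.1) ⟨f * q2, c4, ?_,
      R.tb.2.1.fix hELEM hLINE k7 k5.symm k6.1, R.tb.2.1.fix hELEM hLINE k7 k5.symm k6.2⟩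
    rw [inv_inv]
    exact (a7.sub c1).1
  · rcases k2 with k2 | k2
    · omega
    · have := k4.resolve_right fun h => hL ⟨k2, h⟩
      omega

end Pool.Agent.P.MP_dba3d2_lc
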