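import Pool.Agent.P.MP_dba3d2_lc.C.IfaceT2
import Pool.Agent.P.MP_dba3d2_lc.C.TTb

/-! Step C_T of the stability project. -/

namespace Pool.Agent.P.MP_dba3d2_lc

open Filter

namespace C_tA

variable {Γ : HG} {a : Amb} {F : Bool → Subgroup (MM Γ a)}

/-- one end of the word -/
theorem one_end {o : Option Bool} {c p : MM Γ a} (hc : c ∈ XF F o) (h1 : Prim c) (h2 : Cen c)
    (hp : p ∈ XF F o) : ∃ (t : Tg Γ a) (pre : List (Tg Γ a × MM Γ a)), bt t = o ∧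
      (idC F).Wd pre ∧ ct pre + k0 t ≤ kx o ∧ ∀ x ∈ LF F t, ∃ y φ, EndL F c (t, y) ∧ φ ∈ Ep c ∧
        p⁻¹ = φ * y * x * vl pre ∧
        ∀ o' c' v, TC1 F o o' c c' v → TC1 F o o' c c' (φ * v) := by
  rcases o with _ | i
  · exact ⟨.inr c, [(.inl none, p⁻¹)], rfl, Cv.wd_single (idC_ok (inv_mem hp)), by simp,
      fun x hx => ⟨1, x⁻¹, ⟨rfl, hc, h1, h2, rfl⟩, inv_mem (EF_le_Ep hx), by simp,
        fun _ _ _ h => h.efl (inv_mem hx)⟩⟩
  · exact ⟨.inl (some i), [], rfl, Cv.wd_nil, by simp, fun x hx => ⟨p⁻¹ * x⁻¹, 1,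
      ⟨by simp, mul_mem (inv_mem hp) (inv_mem hx), hc, h1, h2⟩, one_mem _, by simp,
        fun _ _ _ h => by rwa [one_mul]⟩⟩

end C_tA

open C_tA

theorem p_C_T (hC_TMID : S_C_TMID) :
    S_C_T := by
  intro Γ a F hF
  have key : ∀ n : ℕ, ∀ z, (idC F).Wd z → ∀ o o', ct z + kx o + kx o' ≤ n → TC F o o' (vl z) := by
    intro n
    induction n using Nat.strong_induction_on with
    | _ n ih =>
    intro z hz o o' hn b hb b' hb' pb pb' hj
    obtain ⟨p, hp, c0, c1, c2, -⟩ := hF.cenx hb pb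
    obtain ⟨p', hp', d0, d1, d2, -⟩ := hF.cenx hb' pb'
    obtain ⟨t, pre, rfl, w1, n1, e1⟩ := one_end c0 c1 c2 hp
    obtain ⟨t', pre', rfl, w2, n2, e2⟩ := one_end d0 d1 d2 hp'
    obtain ⟨u, hu, n3, x, hx, y, hy, e⟩ := Cv.exists_cMin (LF F t) (LF F t')
      (Cv.wd_append.2 ⟨Cv.wd_append.2 ⟨w1, hz⟩, w2.winv⟩)
    obtain ⟨s, φ, l1, f1, q1, r1⟩ := e1 x hx
    obtain ⟨s', φ', l2, f2, q2, r2⟩ := e2 y⁻¹ (inv_mem hy)
    have ev : p⁻¹ * vl z * p' = φ * vl ((t, s) :: u ++ [sinv (t', s')]) * φ'⁻¹ := by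
      rw [← inv_inv p', q2, q1]
      simp [e, mul_assoc]
    have k := hC_TMID Γ a F hF n _ _ (t, s) (sinv (t', s')) u
      (fun z hz o o' h => ih _ h z hz o o' le_rfl) l1 (by simpa using l2) hu
      (by simp at n3 ⊢; omega) (by
        have h1 := ((Cj.of_mem (inv_mem f1)).mul (hj.conj p p')).mul (Cj.of_mem f2)
        rwa [ev, mul_assoc, inv_mul_cancel_right, inv_mul_cancel_left] at h1)
    have k1 := (r2 _ _ _ (r1 _ _ _ k).symm).symm
    rw [mul_inv_rev, inv_inv, ← ev] at k1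
    simpa [mul_assoc] using (TC1.left hp' (TC1.left hp k1).symm).symm
  intro w hw o o'
  obtain ⟨z, hz, rfl⟩ := exists_wordP hw
  exact key _ z hz o o' le_rfl

end Pool.Agent.P.MP_dba3d2_lc
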