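import Pool.Agent.P.MP_dba3d2_lc.C.IfaceT2
import Pool.Agent.P.MP_dba3d2_lc.A.Iface
import Pool.Agent.P.MP_dba3d2_lc.C.IfaceT
import Pool.Agent.P.MP_dba3d2_lc.C.TTb

/-! Step C_TEND of the stability project. -/

namespace Pool.Agent.P.MP_dba3d2_lc

open Filter

namespace C_tendA

variable {Γ : HG} {a : Amb} {F : Bool → Subgroup (MM Γ a)} {ν : a.K} {c : MM Γ a}

/-- the last nontrivial syllable runs along the axis at the right end -/
theorem last {p B : List (Tg Γ a × MM Γ a)} {s : Tg Γ a × MM Γ a} (hν : Big ν)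
    (hG : Geo ν ((idC F).vs (p ++ s :: B))) (hB : vl B = 1)
    (h : Stab ν 1 (vl (p ++ s :: B))⁻¹ c) : Stab ν 1 s.2⁻¹ c := by
  rw [Cv.vs_append] at hG
  have k := (hG.on.mul (vl (p ++ s :: B))⁻¹).symm
  rw [← Cv.vs_append, idC_prod, idC_prod, inv_mul_cancel, mul_one,
    show (vl (p ++ s :: B))⁻¹ * vl p = s.2⁻¹ by simp [hB]] at k
  exact h.sub hν (on_left hν.pos.le _ _) k

theorem kx_le (t : Tg Γ a) : kx (bt t) ≤ k0 t + 1 := by cases t <;> simp

end C_tendA

open C_tendA in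
theorem p_C_TEND (hELEM : S_ELEM) (hLINE : S_LINE) (hC_ARC : S_C_ARC) (hC_LEFT : S_C_LEFT) (hC_JLONG : S_C_JLONG) (hC_JSHORT : S_C_JSHORT) :
    S_C_TEND := by
  intro Γ a F T n ν b b' s s' u ih X far hn hj hν hS hm hG
  have good : (idC F).Good (s :: u ++ [s']) := by simpa using X.good
  have nz : (idC F).NzE (s :: u ++ [s']) := by simpa using X.nzE
  obtain ⟨l1, l2⟩ := X.l s rfl
  obtain ⟨r1, r2⟩ := X.r s' rfl
  have big : Ls ν (ln (vl (s :: u ++ [s']))) :=
    hS.2.of_le_add (Cv.geo_iff.1 hG) hν.pos 1 (by simp)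
  obtain ⟨-, s1, s2⟩ := axis_stab hELEM hLINE l1.axis.2.1 r1.axis.2.1 l1.axis.2.2 r1.axis.2.2 hj hm
  obtain ⟨z, t, B, e, tb, ov⟩ := hC_LEFT Γ a F T ν b s (u ++ [s']) hν l1 far l2 good.1 nz hS.1 hG
    ⟨_, big, on_right hν.pos.le _ _, s1⟩
  have eV : s :: u ++ [s'] = (s :: z) ++ t :: B := by rw [List.cons_append, e]; rfl
  have tm : t ∈ s :: u ++ [s'] := by rw [eV]; simp
  have ts : Ls (ln t.2) ν := hS.1.mono_left (Cv.ln_le_sl (C := idC F) tm)
  have lst : vl B = 1 → Stab ν 1 t.2⁻¹ b' := fun hB => last hν (eV ▸ hG) hB (eV ▸ s2)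
  rcases B.eq_nil_or_concat with rfl | ⟨B', t', rfl⟩
  · obtain ⟨-, k⟩ := List.append_inj' e rfl
    obtain rfl : s' = t := by simpa using k
    exact r2.not_fol hν ts ⟨_, by simpa using tb, on_right hν.pos.le _ _, lst rfl⟩
  rw [List.concat_eq_append] at e eV lst
  obtain ⟨rfl, k⟩ := List.append_inj' (show u ++ [s'] = (z ++ t :: B') ++ [t'] by simpa using e) rfl
  obtain rfl : s' = t' := by simpa using k
  have J : (idC F).JOK s z t :=
    Cv.Good.jok (p := []) (q := B' ++ [s']) (by simpa using good)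
  have fin : ct z + kx (bt s.1) + kx (bt t.1) < n → False := fun h =>
    hC_JSHORT Γ a F T _ (idC F) ν s z t hν J
      (hC_JLONG Γ a F T _ (idC F) ν s z t hν J.okl J.okr J.min (idC_lift _ _ _)
        (ih z (fun x hx => J.wd x (by simp [hx])) _ _ h) ov) ov
  have a1 := kx_le s.1
  have a2 := kx_bt_le t.1
  rw [ct_append, ct_cons] at hn
  rcases r1.cases with ⟨q, -⟩ | ⟨i, y, q, -⟩
  swap
  · have q1 : s'.1 = .inl (some i) := congrArg Prod.fst q
    rw [q1, k0_inl, kx_some] at hn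
    exact fin (by omega)
  obtain rfl : s' = (.inr b', 1) := by simpa [sinv] using congrArg sinv q
  rcases B' with _ | ⟨m, B'⟩
  · have J' : (idC F).JOK t [] (.inr b', 1) :=
      Cv.Good.jok (p := s :: z) (q := []) (by simpa using good)
    refine hC_JSHORT Γ a F T _ (idC F) ν t [] _ hν J' (.inl rfl) ⟨t.2⁻¹, by simpa using tb, ?_, ?_⟩
    · refine hC_ARC Γ a F T ν t.1 t.2⁻¹ 1 t.2⁻¹ hν J.okr.1 (inv_mem J.okr.2) (fun c k => ?_)
        (by simpa using ts) (on_left hν.pos.le _ _) (on_right hν.pos.le _ _)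
      rw [inv_mem_iff]
      exact nz.big tm hν tb c k
    · have := lst (by simp)
      simpa [Arc] using this
  · have J' : (idC F).JOK t [] m :=
      Cv.Good.jok (p := s :: z) (q := B' ++ [(.inr b', 1)]) (by simpa using good)
    rw [ct_cons] at hn
    by_cases k1 : kc m.1 ≤ 1
    · have k2 := kc_eq_one k1
      have k3 := J'.pair
      have k4 := kc_pos m.1
      obtain ⟨o | c, y⟩ := t
      · obtain ⟨t1, y1⟩ := m
        obtain rfl : t1 = _ := k2
        obtain ⟨i, -, k5, -⟩ := k3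
        cases k5
      · refine fin ?_
        simp only [kc_inr, bt_inr, kx_none] at hn ⊢
        omega
    · exact fin (by omega)

end Pool.Agent.P.MP_dba3d2_lc
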