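import Pool.Agent.P.MP_dba3d2_lc.C.IfaceT
import Pool.Agent.P.MP_dba3d2_lc.B.Iface
import Pool.Agent.P.MP_dba3d2_lc.C.TTb

/-! Step C_TFF of the stability project. -/

namespace Pool.Agent.P.MP_dba3d2_lc

open Filter

namespace C_tffA

variable {Γ : HG} {a : Amb} {F : Bool → Subgroup (MM Γ a)} {o o' : Option Bool} {i j : Bool}
  {b b' c g g' : MM Γ a}

theorem fix (hR : S_ROOT) (h : TwoF F) (ho : o = none ∨ o = some i) (hg : g ∈ F i)
    (hc : c ∈ XF F none) (pc : Prim c) (hb : b ∈ XF F o) (pb : Prim b) (k : Cj g c b) :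
    ∃ x ∈ XF F o, x⁻¹ * g ∈ EF F c ∧ Cj x c b := by
  rcases ho with rfl | rfl
  · obtain ⟨x, h1, h2, -, h3⟩ := h.root6 hR hb hc pb.1 pc.1 k
    exact ⟨x, h1, mem_EF i (mul_mem (inv_mem (M_le_F i h1)) hg) h3, h2⟩
  · exact ⟨g, hg, by simp, k⟩

theorem key (hR : S_ROOT) (h : TwoF F) (ho : o = none ∨ o = some i) (ho' : o' = none ∨ o' = some j)
    (hb : b ∈ XF F o) (hb' : b' ∈ XF F o') (pb : Prim b) (pb' : Prim b') (hc : c ∈ XF F none)
    (pc : Prim c) (hg : g ∈ F i) (hg' : g' ∈ F j) (k : Cj g c b) (k' : Cj g' c b') :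
    TC1 F o o' b b' (g * g'⁻¹) := by
  obtain ⟨p, p1, p2, p3, p4, p5⟩ := h.cenx hc pc
  obtain ⟨x, x1, x2, x3⟩ := fix hR h ho (mul_mem hg (M_le_F i p1)) p2 p3 hb pb (k.mul p5)
  obtain ⟨y, y1, y2, y3⟩ := fix hR h ho' (mul_mem hg' (M_le_F j p1)) p2 p3 hb' pb' (k'.mul p5)
  exact .inl ⟨_, p2, p3, p4, _, mul_mem x2 (inv_mem y2), x, x1, y, y1, by group, x3, y3⟩

end C_tffA

open C_tffA in
theorem p_C_TFF (hROOT : S_ROOT) :
    S_C_TFF := by
  intro Γ a F h o o' i j ho ho' g hg g' hg' b hb b' hb' pb pb' k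
  by_cases e : i = j
  · subst e
    rcases ho with rfl | rfl
    · simpa using key hROOT h (.inl rfl) ho' hb hb' pb pb' hb pb (one_mem (F i))
        (inv_mem (mul_mem hg hg')) (Cj.one_iff.2 rfl) k.inv
    rcases ho' with rfl | rfl
    · simpa using key hROOT h (.inr rfl) (.inl rfl) hb hb' pb pb' hb' pb' (mul_mem hg hg')
        (one_mem (F i)) k (Cj.one_iff.2 rfl)
    · exact .inr ⟨i, rfl, rfl, mul_mem hg hg'⟩
  · obtain rfl : j = !i := Bool.eq_not_iff.2 (Ne.symm e)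
    have k' : Cj g'⁻¹ (g⁻¹ * b * g) b' := by simpa using k.inv.mul (Cj.self' g b)
    have m : g⁻¹ * b * g ∈ XF F none := (mem_M_iff i).2
      ⟨mul_mem (mul_mem (inv_mem hg) (XF_le_F ho hb)) hg,
        h.root4 (o := some (!i)) hROOT (mul_mem (mul_mem hg' (XF_le_F ho' hb')) (inv_mem hg'))
          (pb'.conj g').1 (pb.conj' g) (by simpa [Cj] using k'.inv.symm)⟩
    simpa using key hROOT h ho ho' hb hb' pb pb' m (pb.conj' g) hg (inv_mem hg') (Cj.self' g b) k'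

end Pool.Agent.P.MP_dba3d2_lc
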