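import Pool.Agent.P.MP_dba3d2_lc.C.IfaceT2
import Pool.Agent.P.MP_dba3d2_lc.C.IfaceT
import Pool.Agent.P.MP_dba3d2_lc.C.TTb

/-! Step C_TGEO of the stability project. -/

namespace Pool.Agent.P.MP_dba3d2_lc

open Filter

namespace C_tgeoA

variable {Γ : HG} {a : Amb} {F : Bool → Subgroup (MM Γ a)}

theorem side {ν : a.K} {b : MM Γ a} {s s1 : Tg Γ a × MM Γ a} {R A T : List (Tg Γ a × MM Γ a)}
    (hν : Big ν) (he : EndL F b s) (hn : NE b s.2⁻¹) (e : s :: R = A ++ s1 :: T)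
    (hg : (idC F).Good (s :: R)) (hb : Ls ν (ln s1.2)) :
    kc s.1 + kx (bt s1.1) ≤ ct A + kc s1.1 + k0 s.1 ∧
    (ct A + kc s1.1 + k0 s.1 ≤ kc s.1 + kx (bt s1.1) → ∃ o, s1.2 ∈ XF F o ∧ vl A = 1 ∧
      b ∈ XF F o ∧ NE b s1.2⁻¹ ∧ (bt s.1 = none ∨ bt s.1 = o)) := by
  have k := kx_bt_le s1.1
  rcases A with _ | ⟨s0, A⟩
  · obtain ⟨rfl, -⟩ := List.cons.inj e
    rcases he.cases with ⟨rfl, -⟩ | ⟨i, y, rfl, h1, h2⟩
    · simpa using hb.pos hν.pos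
    · exact ⟨by simp, fun _ => ⟨some i, h1, rfl, h2, hn, Or.inr rfl⟩⟩
  · obtain ⟨rfl, rfl⟩ := List.cons.inj e
    refine ⟨by rw [ct_cons]; omega, fun h => ?_⟩
    rw [ct_cons] at h
    obtain rfl : A = [] := ct_eq_zero (by omega)
    have j : (idC F).JOK s [] s1 := Cv.Good.jok (p := []) (q := T) hg
    rcases he.cases with ⟨rfl, h0⟩ | ⟨i, y, rfl, -, -⟩
    · obtain ⟨_ | _, y⟩ := s1
      · exact ⟨_, j.okr.2, by simp, M_le_XF _ h0, j.pair, Or.inl rfl⟩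
      · simp at h
    · simp at h; omega

end C_tgeoA

open C_tgeoA in
theorem p_C_TGEO (hC_PROJ : S_C_PROJ) (hC_R2A : S_C_R2A) (hC_TFF : S_C_TFF) (hC_JLONG : S_C_JLONG) (hC_JSHORT : S_C_JSHORT) (hC_PATHW : S_C_PATHW) :
    S_C_TGEO := by
  intro Γ a F hF n ν b b' s s' u ih hx hn hc hν hl
  by_contra con
  obtain ⟨c1, c2⟩ := not_or.1 con
  have hg : (idC F).Good (s :: u ++ [s']) := hx.good
  obtain ⟨A, s1, z, s2, B, e, b1, b2, hz, ov⟩ :=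
    hC_PATHW Γ a F hF _ (idC F) ν _ hν hg.1 hx.nzE hl c2
  have j : (idC F).JOK s1 z s2 := Cv.Good.jok (e ▸ hg)
  by_cases k : ct z + kx (bt s1.1) + kx (bt s2.1) < n
  · exact hC_JSHORT Γ a F hF _ (idC F) ν s1 z s2 hν j (hC_JLONG Γ a F hF _ (idC F) ν s1 z s2 hν
      j.okl j.okr j.min (idC_lift _ _ _) (ih z j.min.1 _ _ k) ov) ov
  obtain ⟨l1, l2⟩ := hx.l s rfl
  obtain ⟨r1, r2⟩ := hx.r s' rfl
  obtain ⟨p1, p2⟩ := side (R := u ++ [s']) (A := A) (s1 := s1) (T := z ++ s2 :: B) hν l1 l2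
    (by simpa using e) hg b1
  obtain ⟨q1, q2⟩ := side (R := winv u ++ [sinv s]) (A := winv B) (s1 := sinv s2)
    (T := winv z ++ sinv s1 :: winv A) hν r1 (by simpa using r2)
    (by simpa using congrArg winv e) (by simpa using hg.winv) (by simpa using b2)
  have t := congrArg ct e
  simp only [ct_append, ct_cons, ct_nil, ct_winv, sinv_fst] at t q1 q2
  obtain ⟨o1, y1, v1, m1, n1, t1⟩ := p2 (by omega)
  obtain ⟨o2, y2, v2, m2, n2, t2⟩ := q2 (by omega)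
  rw [vl_winv, inv_eq_one] at v2
  rw [sinv_snd, inv_mem_iff] at y2
  have ev : vl (s :: u ++ [s']) = s1.2 * vl z * s2.2 := by
    rw [e]; simp [v1, v2, mul_assoc]
  rw [ev] at hc c1
  have cj := hc.conj s1.2 s2.2⁻¹
  rw [show s1.2⁻¹ * (s1.2 * vl z * s2.2) * s2.2⁻¹ = vl z by group] at cj
  have pj := (hC_PROJ Γ a b _ l1.axis.2.1 l1.axis.2.2 n1).1
  rw [ln_inv, inv_inv] at pj
  obtain ⟨g, hg1, g', hg2, eg⟩ := hC_R2A Γ a F hF o1 o2 _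
    ((XF F o1).mul_mem ((XF F o1).mul_mem ((XF F o1).inv_mem y1) m1) y1) _
    ((XF F o2).mul_mem ((XF F o2).mul_mem ((XF F o2).inv_mem ((XF F o2).inv_mem y2)) m2)
      ((XF F o2).inv_mem y2))
    (l1.axis.2.1.conj' _) (r1.axis.2.1.conj' _) _ cj
    ((Ll.mono_left Cv.ln_vl_le hz).ls_right
      ((b1.trans' pj).mono_right (le_add_of_nonneg_right (ln_nonneg _)))
      (add_nonneg (ln_nonneg _) (ln_nonneg _)))
  obtain ⟨i, hi⟩ := exists_F o1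
  obtain ⟨i', hi'⟩ := exists_F o2
  rw [eg, show s1.2 * (g * g') * s2.2 = s1.2 * g * (g' * s2.2) by group] at hc c1
  refine c1 (hC_TFF Γ a F hF _ _ i i' ?_ ?_ _ (XF_le_F hi ((XF F o1).mul_mem y1 hg1)) _
    (XF_le_F hi' ((XF F o2).mul_mem hg2 y2)) b l1.axis.1 b' r1.axis.1 l1.axis.2.1 r1.axis.2.1 hc)
  · rcases t1 with h | h
    exacts [Or.inl h, h ▸ hi]
  · rcases t2 with h | h
    exacts [Or.inl h, h ▸ hi']

end Pool.Agent.P.MP_dba3d2_lc
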