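import Pool.Agent.P.MP_dba3d2_lc.C.IfaceT2
import Pool.Agent.P.MP_dba3d2_lc.B.Iface
import Pool.Agent.P.MP_dba3d2_lc.C.IfaceT
import Pool.Agent.P.MP_dba3d2_lc.C.TTb

/-! Step C_TMID of the stability project. -/

namespace Pool.Agent.P.MP_dba3d2_lc

open Filter

namespace C_tmidA

variable {Γ : HG} {a : Amb} {F : Bool → Subgroup (MM Γ a)} {n : ℕ} {b b' f w : MM Γ a}
  {s s' : Tg Γ a × MM Γ a} {u : List (Tg Γ a × MM Γ a)} {o : Option Bool}

theorem endmem (h : EndL F b s) : s.2 ∈ XF F (bt s.1) := by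
  rcases h.cases with ⟨rfl, -⟩ | ⟨i, y, rfl, h1, -⟩
  exacts [one_mem _, h1]

theorem kx_k0 (t : Tg Γ a) : kx (bt t) ≤ k0 t + 1 := by cases t <;> simp

theorem tred (ih : ∀ z, (idC F).Wd z → ∀ o o', ct z + kx o + kx o' < n → TC F o o' (vl z))
    (h1 : EndL F b s) (h2 : EndL F b' (sinv s')) (hu : (idC F).Wd u)
    (hc : ct u + k0 s.1 + k0 s'.1 ≤ n) (hj : Cj (vl (s :: u ++ [s'])) b' b) (hf : ¬ Far F b s) :
    TC1 F (bt s.1) (bt s'.1) b b' (vl (s :: u ++ [s'])) := by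
  have m1 := endmem h1
  have m2 : s'.2 ∈ XF F (bt s'.1) := by simpa using endmem h2
  have a1 := h1.axis
  have a2 := h2.axis
  simp only [Far, not_forall, not_not] at hf
  obtain ⟨o, ho, hm⟩ := hf
  have k5 : k0 s.1 = 5 := by
    rcases h1.cases with ⟨rfl, -⟩ | ⟨i, y, rfl, -⟩
    · cases ho
    · rfl
  have e : vl (s :: u ++ [s']) = s.2 * (vl u * s'.2) := by simp
  rw [e] at hj ⊢
  refine TC1.left m1 (TC1.right m2 (TC1.weakl ?_ _))
  refine ih u hu none (bt s'.1) (by have := kx_k0 s'.1; rw [kx_none]; omega) _ hm _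
    (mul_mem (mul_mem m2 a2.1) (inv_mem m2)) (a1.2.1.conj' _) (a2.2.1.conj _) ?_
  simpa [mul_assoc] using hj.conj s.2 s'.2⁻¹

theorem tred' (ih : ∀ z, (idC F).Wd z → ∀ o o', ct z + kx o + kx o' < n → TC F o o' (vl z))
    (h1 : EndL F b s) (h2 : EndL F b' (sinv s')) (hu : (idC F).Wd u)
    (hc : ct u + k0 s.1 + k0 s'.1 ≤ n) (hj : Cj (vl (s :: u ++ [s'])) b' b)
    (hf : ¬ Far F b' (sinv s')) : TC1 F (bt s.1) (bt s'.1) b b' (vl (s :: u ++ [s'])) := by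
  have e : vl (sinv s' :: winv u ++ [sinv s]) = (vl (s :: u ++ [s']))⁻¹ := by simp [mul_assoc]
  have := tred (s' := sinv s) (b' := b) ih h2 (by simpa using h1) hu.winv
    (by simp only [ct_winv, sinv_fst]; omega) (e ▸ hj.inv) hf
  rw [e] at this
  simpa only [inv_inv, sinv_fst] using this.symm

theorem trL (h1 : EndL F b s) (hf : f ∈ LF F s.1) (he : f ∈ Ep b)
    (h : TC1 F (bt s.1) o b b' w) : TC1 F (bt s.1) o b b' (f * w) := by
  rcases h1.cases with ⟨rfl, -⟩ | ⟨i, y, rfl, -⟩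
  · exact h.efl hf
  · exact TC1.left hf (h.congr (Ep_conj_mem' he) rfl)

theorem trR (h1 : EndL F b' (sinv s')) (hf : f ∈ LF F s'.1) (he : f ∈ Ep b')
    (h : TC1 F o (bt s'.1) b b' w) : TC1 F o (bt s'.1) b b' (w * f) := by
  simpa using (trL (f := f⁻¹) h1 (inv_mem hf) (inv_mem he) h.symm).symm

end C_tmidA

open C_tmidA in
theorem p_C_TMID (hROOT : S_ROOT) (hC_TFF : S_C_TFF) (hC_R2B : S_C_R2B) (hC_EXTN : S_C_EXTN) (hC_TGEO : S_C_TGEO) (hC_TEND : S_C_TEND) :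
    S_C_TMID := by
  intro Γ a F hF n b b' s s' u ih h1 h2 hm hc hj
  have _ := hROOT
  have m1 := endmem h1
  have m2 : s'.2 ∈ XF F (bt s'.1) := by simpa using endmem h2
  have a1 := h1.axis
  have a2 : b' ∈ XF F (bt s'.1) ∧ Prim b' ∧ Cen b' := h2.axis
  have key : vl u ∈ XF F none → TC1 F (bt s.1) (bt s'.1) b b' (vl (s :: u ++ [s'])) := fun hu => by
    obtain ⟨i, hi⟩ := exists_F (bt s.1)
    obtain ⟨j, hj'⟩ := exists_F (bt s'.1)
    have e : vl (s :: u ++ [s']) = s.2 * vl u * s'.2 := by simp [mul_assoc]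
    rw [e] at hj ⊢
    exact hC_TFF Γ a F hF _ _ i j hi hj' _ (mul_mem (XF_le_F hi m1) (M_le_F i hu)) _
      (XF_le_F hj' m2) b a1.1 b' a2.1 a1.2.1 a2.2.1 hj
  by_cases f1 : Far F b s
  swap
  · exact tred ih h1 h2 hm.1 hc hj f1
  by_cases f2 : Far F b' (sinv s')
  swap
  · exact tred' ih h1 h2 hm.1 hc hj f2
  by_cases u0 : u = []
  · exact key (u0 ▸ one_mem _)
  by_cases he : (idC F).HE s u s'
  swap
  · simp only [Cv.HE, not_forall] at he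
    obtain ⟨c, c', m, -, -, rfl, -⟩ := he
    refine key ?_
    have := (hm.1 (.inl none, m) (by simp)).2
    simpa using this
  obtain ⟨e1, u1, e1', t1, t2, t3, hX, f, hf, f', hf', g1, g2, hv⟩ :=
    hC_EXTN Γ a F hF b b' (some s) (some s') u (by rintro _ ⟨⟩; exact ⟨h1, f1⟩)
      (by rintro _ ⟨⟩; exact ⟨h2, f2⟩) hm u0 (by rintro _ ⟨⟩ _ ⟨⟩; exact he)
  obtain ⟨s1, rfl, q1⟩ : ∃ s1, e1 = some s1 ∧ s1.1 = s.1 := by
    cases e1 <;> simp_all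
  obtain ⟨s1', rfl, q2⟩ : ∃ s1', e1' = some s1' ∧ s1'.1 = s'.1 := by
    cases e1' <;> simp_all
  rw [xw_ss, xw_ss] at hv
  have hc1 : ct u1 + k0 s1.1 + k0 s1'.1 ≤ n := by rwa [ct_tags t2, q1, q2]
  have hj1 : Cj (vl (s1 :: u1 ++ [s1'])) b' b :=
    hv ▸ ((Cj.of_mem g1).mul hj).mul (Cj.of_mem g2)
  have main : TC1 F (bt s1.1) (bt s1'.1) b b' (vl (s1 :: u1 ++ [s1'])) := by
    have l1 := (hX.l s1 rfl).1
    have l2 := (hX.r s1' rfl).1
    have wd : (idC F).Wd (s1 :: u1 ++ [s1']) := by simpa only [xw_ss] using hX.good.1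
    by_cases f3 : Far F b s1
    swap
    · exact tred ih l1 l2 (wd.sub ⟨[s1], [s1'], by simp⟩) hc1 hj1 f3
    by_cases hν : Big ((idC F).sl (s1 :: u1 ++ [s1'])) ∧
      Ll (md b) ((idC F).sl (s1 :: u1 ++ [s1']))
    · exact (hC_TGEO Γ a F hF n _ b b' s1 s1' u1 ih hX hc1 hj1 hν.1 (Ls.refl' _)).resolve_right
        (hC_TEND Γ a F hF n _ b b' s1 s1' u1 ih hX f3 hc1 hj1 hν.1 ⟨Ls.refl' _, Ls.refl' _⟩ hν.2)
    · exact hC_R2B Γ a F hF _ _ b l1.axis.1 b' l2.axis.1 a1.2.1 a2.2.1 a1.2.2 a2.2.2 _ hj1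
        (Ls.mono_left (Cv.ln_vl_le (C := idC F))
          (ls_of_scale (one_le_md' a1.2.1.1) fun x y => hν ⟨x, y⟩))
  rw [q1, q2, hv] at main
  have := trR h2 (inv_mem hf') (inv_mem g2) (trL h1 (inv_mem hf) (inv_mem g1) main)
  rwa [show f⁻¹ * (f * vl (s :: u ++ [s']) * f') * f'⁻¹ = vl (s :: u ++ [s']) by group] at this

end Pool.Agent.P.MP_dba3d2_lc
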