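import Pool.Agent.P.MP_dba3d2_lc.C.IfaceT
import Pool.Agent.P.MP_dba3d2_lc.A.Iface
import Pool.Agent.P.MP_dba3d2_lc.C.LTb

/-! Step C_TORQ of the stability project. -/

namespace Pool.Agent.P.MP_dba3d2_lc

open Filter

theorem p_C_TORQ (hELEM : S_ELEM) :
    S_C_TORQ := by
  intro Γ a c hc
  obtain ⟨-, -, e3, -, -, -, -, -, e9, e10⟩ := hELEM Γ a c hc
  let T : Subgroup (Ep c) :=
    { carrier := {f | IsOfFinOrder (f : MM Γ a)}
      mul_mem' := fun {f g} hf hg => e3 f f.2 g g.2 hf hg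
      one_mem' := IsOfFinOrder.one
      inv_mem' := fun {f} hf => IsOfFinOrder.inv hf }
  have hT : T.Normal := ⟨fun f hf g => (finOrder_conj (g : MM Γ a) f).2 hf⟩
  have h1 : ∀ f : Ep c, QuotientGroup.mk' T f = 1 ↔ IsOfFinOrder (f : MM Γ a) := fun f =>
    QuotientGroup.eq_one_iff f
  have hcm : ∀ x y : Ep c ⧸ T, x * y = y * x := by
    intro x y
    obtain ⟨f, rfl⟩ := QuotientGroup.mk'_surjective T x
    obtain ⟨g, rfl⟩ := QuotientGroup.mk'_surjective T y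
    have := (h1 (f * g * f⁻¹ * g⁻¹)).2 (e9 f f.2 g g.2)
    rw [map_mul, map_mul, map_mul, map_inv, map_inv, mul_inv_eq_one, mul_inv_eq_iff_eq_mul] at this
    exact this
  refine ⟨Ep c ⧸ T, { (inferInstance : Group (Ep c ⧸ T)) with mul_comm := hcm },
    QuotientGroup.mk' T, h1, fun g hg hn f f' e => ?_⟩
  have h2 : f' ^ Γ.e = (f ^ Γ.e)⁻¹ := Subtype.ext (by
    rw [Subgroup.coe_inv, Subgroup.coe_pow, Subgroup.coe_pow, e, conj_pow]
    exact e10 g hg hn f f.2)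
  have h3 : QuotientGroup.mk' T ((f' * f) ^ Γ.e) = 1 := by
    rw [map_pow, map_mul, Commute.mul_pow (hcm _ _), ← map_pow, ← map_pow, h2, map_inv,
      inv_mul_cancel]
  rw [h1, Subgroup.coe_pow] at h3
  have h4 := (h1 _).2 (h3.of_pow Γ.good.pos.ne')
  rw [map_mul] at h4
  exact eq_inv_of_mul_eq_one_left h4

end Pool.Agent.P.MP_dba3d2_lc
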