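import Pool.Agent.P.MP_dba3d2_lc.C.IfaceT
import Pool.Agent.P.MP_dba3d2_lc.A.Iface
import Pool.Agent.P.MP_dba3d2_lc.C.LTb

/-! Step C_TWOBR of the stability project. -/

namespace Pool.Agent.P.MP_dba3d2_lc

open Filter

theorem p_C_TWOBR (hELEM : S_ELEM) (hLINE : S_LINE) (hPERC : S_PERC) (hC_PROJ : S_C_PROJ) :
    S_C_TWOBR := by
  intro Γ a ν b d w w' f f' hb cb hd cd n1 n2 n3 n4 hf hf' e hcj hν mb md' hs
  have p1 := ln_nonneg f
  have p2 := ln_nonneg f'
  have p3 := ln_nonneg w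
  have p4 := ln_nonneg w'
  have sw : Ls (ln w) ν := Ls.mono_left (by linarith) hs
  have sw' : Ls (ln w') ν := Ls.mono_left (by linarith) hs
  have lb := cb.ll mb
  have ld := cd.ll md'
  have s1 := hb.stab_ep hELEM hLINE lb hf
  have s2 := hb.stab_ep hELEM hLINE lb (inv_mem hf)
  have s3 := hd.stab_ep hELEM hLINE ld hf'
  have s4 := hd.stab_ep hELEM hLINE ld (inv_mem hf')
  have o1 := ((hC_PROJ Γ a b w⁻¹ hb cb n1).2 ν hν mb (by rwa [ln_inv])).1 f s1.2
  have o2 := (((hC_PROJ Γ a b w'⁻¹ hb cb n2).2 ν hν mb (by rwa [ln_inv])).1 f⁻¹ s2.2).mul f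
  have o3 := (((hC_PROJ Γ a d w hd cd n3).2 ν hν md' sw).1 f' s3.2).mul w
  have o4 := (((hC_PROJ Γ a d w' hd cd n4).2 ν hν md' sw').1 f'⁻¹ s4.2).mul (f * w')
  rw [inv_inv] at o1 o2
  rw [mul_one, mul_inv_cancel] at o2 o3
  rw [← e] at o3
  rw [mul_one, mul_inv_cancel_right, show f * w' * f'⁻¹ = w by rw [e, mul_inv_cancel_right]] at o4
  have d1 : ds f (f * w') = ln w' := ds_mul_right f w'
  have d2 : ds w (f * w') = ln f' := by rw [e, ds_mul_right]
  have d3 : ds (f * w') f = ln w' := by rw [ds_comm, d1]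
  have d4 : ds (f * w') w = ln f' := by rw [ds_comm, d2]
  have h4 := ds_four 1 (f * w') f w
  unfold On at o1 o2 o3 o4
  rw [ds_comm w f] at o1
  simp only [ds_one_left, ds_one_right, d1, d2, d3, d4] at o1 o2 o3 o4 h4
  have hδ := (hν.ll_delta Γ).two
  rcases le_total (ln f + ln f') (ln w + ln w') with k | k
  · rw [max_eq_right k] at h4
    exact ⟨Ll.half (Ll.mono_left (by linarith) ((o1.add o2).add hδ)),
      Ll.half (Ll.mono_left (by linarith) ((o3.add o4).add hδ))⟩
  · rw [max_eq_left k] at h4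
    have hy : Ll (ln w + ln w') ν :=
      Ll.half (Ll.mono_left (by linarith) (((o1.add o2).add (o3.add o4)).add hδ.two))
    have hx : Ll (ln f) ν := by
      refine (ll_or_ls hν.pos _).resolve_right fun hl => hcj ?_
      refine Ep_eq_of_stab hELEM hPERC hν (p := 1) (q := f) (by rwa [ds_one_left])
        (mt (finOrder_conj w d).1 hd.1) hb.1 (((stab_conj w).2 s3).congr ?_ ?_) s1
      · rw [mul_one, ds_one_right]
        exact Ll.mono_left (by linarith) hy
      · rw [← e, d3]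
        exact Ll.mono_left (by linarith) hy
    refine ⟨hx, Ll.mono_left ?_ (hx.add hy)⟩
    have t1 := ds_tri w f (f * w')
    have t2 := ds_le_ln w f
    linarith

end Pool.Agent.P.MP_dba3d2_lc
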