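import Pool.Agent.P.MP_dba3d2_lc.C.IfaceT
import Pool.Agent.P.MP_dba3d2_lc.A.Iface
import Pool.Agent.P.MP_dba3d2_lc.B.Iface
import Pool.Agent.P.MP_dba3d2_lc.C.TTb

/-! Step C_UP of the stability project. -/

namespace Pool.Agent.P.MP_dba3d2_lc

open Filter

namespace C_upA

/-- restriction of an extension to the join -/
theorem fin {H G : Type} [Group H] [Group G] {X Y Z C P : Subgroup H} (hP : X ⊔ Y ≤ P)
    (hZ : Z ≤ Y) (hCX : C ≤ X) (hCY : C ≤ Y) (hY : Y ≤ Z ⊔ C) (θ0 : X →* G) (θ1 : Y →* G)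
    (h : ∀ (x : X) (y : Y), (x : H) ∈ C → (x : H) = y → θ0 x = θ1 y) (θ : P →* G)
    (h0 : ∀ (x : X) (p : P), (p : H) = x → θ p = θ0 x)
    (h1 : ∀ (y : Y) (p : P), (y : H) ∈ Z → (p : H) = y → θ p = θ1 y) :
    ∃ θ' : ↥(X ⊔ Y) →* G, (∀ x : X, θ' ⟨x, (le_sup_left : X ≤ X ⊔ Y) x.2⟩ = θ0 x) ∧
      ∀ y : Y, θ' ⟨y, (le_sup_right : Y ≤ X ⊔ Y) y.2⟩ = θ1 y := by
  have hYP : Y ≤ P := le_sup_right.trans hP
  refine ⟨θ.comp (Subgroup.inclusion hP), fun x => h0 x _ rfl, fun y => ?_⟩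
  have k : Z ⊔ C ≤ ((θ.comp (Subgroup.inclusion hYP)).eqLocus θ1).map Y.subtype := by
    refine sup_le (fun z hz => ⟨⟨z, hZ hz⟩, h1 _ _ hz rfl, rfl⟩) fun z hz => ⟨⟨z, hCY hz⟩, ?_, rfl⟩
    exact (h0 ⟨z, hCX hz⟩ _ rfl).trans (h _ _ hz rfl)
  obtain ⟨y', e1, e2⟩ := k (hY y.2)
  obtain rfl : y' = y := Subtype.ext e2
  exact e1

variable {Γ : HG} {a : Amb} {F : Bool → Subgroup (MM Γ a)}

theorem mem_MI (hR : S_ROOT) (h : TwoF F) (i : Bool) {c x : MM Γ a} (hc : c ∈ XF F none)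
    (h1 : ¬ IsOfFinOrder c) (hx : x ∈ F i) (hx' : x ∈ Ep c) : x ∈ MI F i := by
  obtain ⟨c0, k1, k2, k3⟩ := (hR Γ a _ (h.gcx none)).1 c hc h1
  obtain ⟨p, p1, p2, p3, p4, p5⟩ := h.cenx k1 k2
  have a1 : p⁻¹ * x * p ∈ F i ⊓ Ep (p⁻¹ * c0 * p) :=
    ⟨(F i).mul_mem ((F i).mul_mem ((F i).inv_mem (M_le_F i p1)) hx) (M_le_F i p1),
      p5.mem_Ep' (k3 ▸ hx')⟩
  have a2 : p⁻¹ * x * p ∈ MI F i :=
    Subgroup.mem_sup_right
      ((le_iSup₂ (f := fun c (_ : c ∈ PM F) => F i ⊓ Ep c) (p⁻¹ * c0 * p) ⟨p2, p3, p4⟩) a1)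
  have a3 : p ∈ MI F i := Subgroup.mem_sup_left p1
  have e : x = p * (p⁻¹ * x * p) * p⁻¹ := by group
  rw [e]
  exact mul_mem (mul_mem a3 a2) (inv_mem a3)

theorem MI_le_F (i : Bool) : MI F i ≤ F i :=
  sup_le (M_le_F i) (iSup₂_le fun _ _ => inf_le_left)

theorem MI_le_NS (i : Bool) : MI F i ≤ NS F (PM F) :=
  sup_le_sup_left (iSup₂_mono fun _ _ _ hx => mem_EF i hx.1 hx.2) _

theorem NS_le (i : Bool) : NS F (PM F) ⊔ F (!i) ≤ F (!i) ⊔ MI F i := by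
  refine sup_le (sup_le ((M_le_F _).trans le_sup_left) (iSup₂_le fun c hc => ?_)) le_sup_left
  have k1 : F i ⊓ Ep c ≤ F (!i) ⊔ MI F i :=
    (le_iSup₂ (f := fun c (_ : c ∈ PM F) => F i ⊓ Ep c) c hc).trans
      (le_sup_right.trans le_sup_right)
  have k2 : F (!i) ⊓ Ep c ≤ F (!i) ⊔ MI F i := inf_le_left.trans le_sup_left
  cases i
  exacts [sup_le k1 k2, sup_le k2 k1]

theorem le_P (i : Bool) : F i ⊔ (NS F (PM F) ⊔ F (!i)) ≤ F false ⊔ F true :=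
  sup_le (F_le_P i) ((NS_le i).trans (sup_le (F_le_P _) ((MI_le_F i).trans (F_le_P i))))

end C_upA

open C_upA in
theorem p_C_UP (hELEM : S_ELEM) (hROOT : S_ROOT) (hC_EXT2 : S_C_EXT2) :
    S_C_UP := by
  intro Γ a F hF i G _ θ0 θ1 hθ
  have hCY : MI F i ≤ NS F (PM F) ⊔ F (!i) := (MI_le_NS i).trans le_sup_left
  have hZ : F (!i) ≤ NS F (PM F) ⊔ F (!i) := le_sup_right
  have ag : ∀ (x : F i) (y : F (!i)), (x : MM Γ a) = y →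
      θ0 x = θ1.comp (Subgroup.inclusion hZ) y := fun x y e =>
    hθ x _ (Subgroup.mem_sup_left ((mem_M_iff i).2 ⟨x.2, e ▸ y.2⟩)) e
  have cm : ∀ c ∈ XF F none, ¬ IsOfFinOrder c → ∀ (x : F i) (y : F (!i)),
      (x : MM Γ a) ∈ Ep c → (y : MM Γ a) ∈ Ep c →
      Commute (θ0 x ^ Γ.e) (θ1.comp (Subgroup.inclusion hZ) y) ∧
        Commute (θ1.comp (Subgroup.inclusion hZ) y ^ Γ.e) (θ0 x) := by
    intro c hc h1 x y hx hy
    have m := mem_MI hROOT hF i hc h1 x.2 hx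
    have e8 := (hELEM Γ a c h1).2.2.2.2.2.2.2.1
    rw [hθ x ⟨x, hCY m⟩ m rfl, MonoidHom.comp_apply, ← map_pow, ← map_pow]
    refine ⟨Commute.map ?_ θ1, Commute.map ?_ θ1⟩
    · exact Subtype.ext (e8 _ hx _ hy).eq
    · exact Subtype.ext (e8 _ hy _ hx).eq
  have key : ∃ θ : ↥(F false ⊔ F true) →* G,
      (∀ x : F i, θ ⟨x, F_le_P i x.2⟩ = θ0 x) ∧
      ∀ y : F (!i), θ ⟨y, F_le_P _ y.2⟩ = θ1.comp (Subgroup.inclusion hZ) y := by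
    cases i
    · exact hC_EXT2 Γ a F hF G θ0 _ ag fun c hc h1 x y hx hy => (cm c hc h1 x y hx hy).1
    · obtain ⟨θ, k1, k2⟩ := hC_EXT2 Γ a F hF G _ θ0 (fun x y e => (ag y x e.symm).symm)
        fun c hc h1 x y hx hy => (cm c hc h1 y x hy hx).2
      exact ⟨θ, k2, k1⟩
  obtain ⟨θ, k1, k2⟩ := key
  refine fin (le_P i) hZ (MI_le_F i) hCY (NS_le i) θ0 θ1 hθ θ (fun x p e => ?_) fun y p hy e => ?_
  · rw [← k1 x]
    exact congrArg θ (Subtype.ext e)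
  · exact (congrArg θ (Subtype.ext e)).trans (k2 ⟨y, hy⟩)

end Pool.Agent.P.MP_dba3d2_lc
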