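import Pool.Agent.P.MP_dba3d2_lc.C.IfaceT
import Pool.Agent.P.MP_dba3d2_lc.A.Iface
import Pool.Agent.P.MP_dba3d2_lc.C.IfaceT2
import Pool.Agent.P.MP_dba3d2_lc.C.TTb

/-! Step C_UPN of the stability project. -/

namespace Pool.Agent.P.MP_dba3d2_lc

open Filter

namespace C_upnA

section graph
variable {M G : Type} [Group M] [Group G] {X : Subgroup M}

/-- the graph of a homomorphism on a subgroup -/
def gr (θ : X →* G) : Subgroup (M × G) := (X.subtype.prod θ).range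

theorem mem_gr {θ : X →* G} {p : M × G} : p ∈ gr θ ↔ ∃ h : p.1 ∈ X, θ ⟨p.1, h⟩ = p.2 :=
  ⟨by rintro ⟨x, rfl⟩; exact ⟨x.2, rfl⟩, fun ⟨h, e⟩ => ⟨⟨p.1, h⟩, Prod.ext rfl e⟩⟩

theorem gr_sur (θ : X →* G) {x : M} (h : x ∈ X) : ∃ p ∈ gr θ, p.1 = x := ⟨_, ⟨⟨x, h⟩, rfl⟩, rfl⟩

theorem gr_le {θ : X →* G} {H : Subgroup (M × G)} (h : X ≤ (gr θ ⊓ H).map (MonoidHom.fst M G))
    (x : X) : ((x : M), θ x) ∈ H := by
  obtain ⟨_, ⟨⟨y, rfl⟩, k⟩, e⟩ := h x.2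
  obtain rfl : y = x := Subtype.ext e
  exact k

end graph

variable {Γ : HG} {a : Amb} {G : Type} [Group G] (F : Bool → Subgroup (MM Γ a)) (c : MM Γ a)
  (X Y : Subgroup (MM Γ a × G))

/-- the lift of the base -/
def LB : Subgroup (MM Γ a × G) := X ⊓ (XF F none).comap (MonoidHom.fst _ _)

/-- the lift of the exponents -/
def LE (d : MM Γ a) : Subgroup (MM Γ a × G) where
  carrier := {t | t.1 ∈ EF F d ∧ (∀ b ∈ LB F X, Cj b.1 c d → b⁻¹ * t * b ∈ Y) ∧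
    ((¬ ∃ b ∈ XF F none, Cj b c d) → t ∈ X)}
  one_mem' := ⟨one_mem _, fun _ _ _ => by simp, fun _ => one_mem _⟩
  mul_mem' := fun {s t} hs ht => ⟨mul_mem hs.1 ht.1, fun b h k => by
    simpa [mul_assoc] using mul_mem (hs.2.1 b h k) (ht.2.1 b h k),
    fun k => mul_mem (hs.2.2 k) (ht.2.2 k)⟩
  inv_mem' := fun {s} hs => ⟨inv_mem hs.1, fun b h k => by
    simpa [mul_assoc] using inv_mem (hs.2.1 b h k), fun k => inv_mem (hs.2.2 k)⟩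

variable {F c X Y}

/-- the cover -/
def cov (hc : ∀ g, Cj g c c → InE c g)
    (x1 : ∀ x ∈ NS F {d | d ∈ PM F ∧ ¬ ∃ b ∈ XF F none, Cj b c d}, ∃ p ∈ X, p.1 = x)
    (x2 : ∀ p ∈ X, p.1 = 1 → p = 1) (y1 : ∀ y ∈ EF F c, ∃ p ∈ Y, p.1 = y)
    (A : ∀ p : MM Γ a × G, p.1 ∈ XF F none → InE c p.1 → (p ∈ X ↔ p ∈ Y)) :
    Cv F (MM Γ a × G) where
  π := MonoidHom.fst _ _
  L := Sum.elim (fun _ => LB F X) (LE F c X Y)
  S o := o = none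
  s0 := rfl
  le := by
    rintro (_ | d) h x hx
    · cases h
      exact hx.2
    · exact hx.1
  sur := by
    rintro (_ | d) h y hy
    · cases h
      obtain ⟨p, h1, rfl⟩ := x1 y (Subgroup.mem_sup_left hy)
      exact ⟨p, ⟨h1, hy⟩, rfl⟩
    by_cases k : ∃ b ∈ XF F none, Cj b c d
    · obtain ⟨b, hb, k⟩ := k
      obtain ⟨b, h1, rfl⟩ := x1 b (Subgroup.mem_sup_left hb)
      obtain ⟨p, h2, e⟩ := y1 _ (EF_conj' hb k hy)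
      have e' : (b * p * b⁻¹).1 = y := by simp [e, mul_assoc]
      refine ⟨b * p * b⁻¹, ⟨e' ▸ hy, fun b' h' k' => ?_, fun n => (n ⟨_, hb, k⟩).elim⟩, e'⟩
      have m : b'⁻¹ * b ∈ Y := (A _ ((XF F none).mul_mem ((XF F none).inv_mem h'.2) hb)
        (hc _ (k'.inv.mul k))).1
        (X.mul_mem (X.inv_mem h'.1) h1)
      simpa [mul_assoc] using mul_mem (mul_mem m h2) (inv_mem m)
    · obtain ⟨p, h1, rfl⟩ := x1 y (Subgroup.mem_sup_right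
        (Subgroup.mem_iSup_of_mem d (Subgroup.mem_iSup_of_mem ⟨h, k⟩ hy)))
      exact ⟨p, ⟨hy, fun b h' k' => (k ⟨_, h'.2, k'⟩).elim, fun _ => h1⟩, rfl⟩
  inj x hx := x2 x hx.1
  mem := by
    rintro (_ | d) _ h rfl x hx hm
    · exact hx
    refine ⟨by_contra fun n => n (hx.2.2 ?_), hm⟩
    rintro ⟨b, hb, k⟩
    obtain ⟨b, h1, rfl⟩ := x1 b (Subgroup.mem_sup_left hb)
    have m := (A _ (mul_mem (mul_mem (inv_mem hb) hm) hb)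
      (InE.of_mem (EF_le_Ep (EF_conj' hb k hx.1)))).2 (hx.2.1 b ⟨h1, hb⟩ k)
    exact n (by simpa [mul_assoc] using mul_mem (mul_mem h1 m) (inv_mem h1))
  cj c1 d _ _ b hb k x hx := ⟨EF_conj hb.2 k hx.1, fun b' h' k' => by
    simpa [mul_assoc] using hx.2.1 (b⁻¹ * b') (mul_mem (inv_mem hb) h') (Cj.mul k.inv k'),
    fun n => mul_mem (mul_mem hb.1 (hx.2.2 fun ⟨b', h', k'⟩ =>
      n ⟨_, mul_mem hb.2 h', Cj.mul k k'⟩)) (inv_mem hb.1)⟩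

end C_upnA

open C_upnA

theorem p_C_UPN (hELEM : S_ELEM) (hC_INJ : S_C_INJ) (hC_GRAPH : S_C_GRAPH) :
    S_C_UPN := by
  intro Γ a F hF c hc G _ θ0 θ1 hag
  have A : ∀ p : MM Γ a × G, p.1 ∈ XF F none → InE c p.1 → (p ∈ gr θ0 ↔ p ∈ gr θ1) := by
    intro p h1 h2
    have m : p.1 ∈ XF F none ⊓ IE c := ⟨h1, mem_IE.2 h2⟩
    rw [mem_gr, mem_gr]
    exact ⟨fun ⟨h, e⟩ => ⟨Subgroup.mem_sup_right m, (hag ⟨_, h⟩ _ m rfl).symm.trans e⟩,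
      fun ⟨h, e⟩ => ⟨Subgroup.mem_sup_left h1, (hag _ ⟨_, h⟩ m rfl).trans e⟩⟩
  let C : Cv F (MM Γ a × G) := cov (fun g => ((hELEM Γ a c hc.2.1.1).2.2.2.1 g).2)
    (fun _ => gr_sur θ0) (by
      rintro _ ⟨x, rfl⟩ e
      obtain rfl : x = 1 := Subtype.ext e
      exact map_one _) (fun _ h => gr_sur θ1 (Subgroup.mem_sup_left h)) A
  refine hC_GRAPH _ G _ _ θ0 θ1 C.PP (gr_le (sup_le (fun y hy => ?_) (iSup₂_le fun d hd y hy => ?_)))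
    (gr_le (sup_le (fun y hy => ?_) fun y hy => ?_)) fun g hg =>
      congrArg Prod.snd (hC_INJ Γ a F hF _ C _ hg rfl)
  · obtain ⟨p, h, e⟩ := C.sur (.inl none) rfl y hy
    exact ⟨p, ⟨h.1, Cv.L_le_PP (t := .inl none) C.s0 h⟩, e⟩
  · obtain ⟨p, h, e⟩ := C.sur (.inr d) hd.1 y hy
    exact ⟨p, ⟨h.2.2 hd.2, Cv.L_le_PP (t := .inr d) hd.1 h⟩, e⟩
  · obtain ⟨p, h, e⟩ := C.sur (.inr c) hc y hy
    exact ⟨p, ⟨by simpa using h.2.1 1 (one_mem _) (Cj.one_iff.2 rfl),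
      Cv.L_le_PP (t := .inr c) hc h⟩, e⟩
  · obtain ⟨p, h, rfl⟩ := C.sur (.inl none) rfl y hy.1
    exact ⟨p, ⟨(A p hy.1 (mem_IE.1 hy.2)).1 h.1, Cv.L_le_PP (t := .inl none) C.s0 h⟩, rfl⟩

end Pool.Agent.P.MP_dba3d2_lc
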