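import Pool.Agent.P.MP_dba3d2_lc.C.DefsT

/-! Definitions for adjunctions at all scales. -/

namespace Pool.Agent.P.MP_dba3d2_lc

open Filter

variable {Γ : HG} {a : Amb}

/-- the data of an adjunction `B ≤ T` at all scales -/
structure AdjD (B T : Subgroup (MM Γ a)) : Prop where
  gc : GC0 B
  le : B ≤ T
  cov : ∀ μ, Big μ → ∀ h ∈ T, Ls (ln h) μ → ∃ L : List (MM Γ a), L.prod = h ∧ Geo μ L ∧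
    ∀ x ∈ L, x ∈ T ∧ ∃ g ∈ T, (∃ w ∈ B, Ls (ln w) μ ∧ On μ 1 g (g * w) ∧ On μ x g (g * w)) ∨
      (Ls μ (ln x) → ∃ d ∈ B, Prim d ∧ Stab μ 1 x (g * d * g⁻¹))
  rig : ∀ b ∈ B, ∀ d ∈ B, Prim b → Cen b → Prim d → Cen d → ∀ w ∈ T, ∀ w' ∈ T, ∀ f ∈ Ep b,
    ∀ f' ∈ Ep d, f * w' = w * f' → ¬ Cj w d b → f ∈ T
  cyc : ∀ γ ∈ T, ¬ IsOfFinOrder γ → ∃ z ∈ T,
    (∃ b ∈ B, Prim b ∧ z⁻¹ * γ * z ∈ Ep b) ∨ Cen (z⁻¹ * γ * z)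
  n1 : ∀ b ∈ B, Prim b → Cen b → ∀ h ∈ T, ∃ f ∈ T, f ∈ Ep b ∧ NE b (h * f)
  n2 : ∀ b ∈ B, ∀ b' ∈ B, Prim b → Cen b → Prim b' → Cen b' → ∀ h ∈ T, ¬ Cj h b' b →
    ∃ f ∈ T, ∃ f' ∈ T, f ∈ Ep b ∧ f' ∈ Ep b' ∧ NE b (f * h * f')⁻¹ ∧ NE b' (f * h * f')
  pur : ∀ c ∈ B, Prim c → ∀ f ∈ T, f ∈ Ep c → ∀ n : ℕ, 0 < n →
    ∃ f' ∈ T, f' ∈ Ep c ∧ ∃ r : ℕ, IsOfFinOrder (f⁻¹ * (f' ^ n * c ^ r))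

end Pool.Agent.P.MP_dba3d2_lc
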