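import Pool.Agent.P.MP_dba3d2_lc.A.Defs2

/-! Definitions for the adjunctions at the top scale: words, chains, geodesic lists. -/

namespace Pool.Agent.P.MP_dba3d2_lc

open Filter

section words
variable {G : Type} [Group G] {Λ ι V W : Type}

/-- reduced chains in a bipartite incidence structure: first vertex, first edge vertex, last vertex -/
inductive RCh (adj : V → W → Prop) : V → W → V → Prop
  | one {v v' : V} {w : W} : adj v w → adj v' w → v ≠ v' → RCh adj v w v'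
  | cons {v v' v'' : V} {w w' : W} : adj v w → adj v' w → v ≠ v' → w ≠ w' → RCh adj v' w' v'' →
      RCh adj v w v''

/-- connectedness in a bipartite incidence structure -/
def Conn (adj : V → W → Prop) : V → V → Prop :=
  Relation.ReflTransGen fun v v' => ∃ w, adj v w ∧ adj v' w

/-- the value of a word -/
def wval (v : Λ → G) (l : List (G × Λ)) : G := (l.map fun s => s.1 * v s.2).prod

/-- the syllables of a word -/
def wflat (v : Λ → G) (l : List (G × Λ)) : List G := l.flatMap fun s => [s.1, v s.2]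

/-- reduced words -/
def WRed (B : Subgroup G) (P : Λ → G → Λ → Prop) (l : List (G × Λ)) : Prop :=
  (∀ s ∈ l, s.1 ∈ B) ∧ l.IsChain fun s s' => ¬ P s.2 s'.1 s'.2

/-- word systems: pinches can be shortened -/
structure WS (B : Subgroup G) (v : Λ → G) (P : Λ → G → Λ → Prop) : Prop where
  inv : ∀ s, ∃ s', v s' = (v s)⁻¹
  red : ∀ s b s', b ∈ B → P s b s' →
    v s * b * v s' ∈ B ∨ ∃ s'', ∃ x ∈ B, ∃ y ∈ B, v s * b * v s' = x * v s'' * y

/-- nonempty reduced words are not in the base -/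
def WBr (B : Subgroup G) (v : Λ → G) (P : Λ → G → Λ → Prop) : Prop :=
  ∀ l, WRed B P l → l ≠ [] → wval v l ∉ B

/-- stable letters and their inverses -/
def hv (u : ι → G) (s : ι × Bool) : G := bif s.2 then u s.1 else (u s.1)⁻¹

/-- pinches for stable letters -/
def HP (B : Subgroup G) (u : ι → G) (s : ι × Bool) (b : G) (s' : ι × Bool) : Prop :=
  s.1 = s'.1 ∧ s.2 ≠ s'.2 ∧ hv u s * b * hv u s' ∈ B

end words

variable {Γ : HG} {a : Amb}

/-- lists whose product is geodesic at scale `μ` -/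
def Geo (μ : a.K) (L : List (MM Γ a)) : Prop := Ll ((L.map ln).sum - ln L.prod) μ

/-- lists without cancellation at the junctions -/
def Loc (μ : a.K) : List (MM Γ a) → Prop
  | x :: y :: L => On μ 1 x⁻¹ y ∧
      (Ll (ln y) μ → ∀ w ∈ L.head?, Ls μ (ln w) ∧ On μ 1 x⁻¹ (y * w)) ∧ Loc μ (y :: L)
  | _ => True

/-- the segment from `1` to `z` contains a nonperiodic germ -/
def Npg (μ : a.K) (z : MM Γ a) : Prop :=
  ∃ t t', On μ t 1 z ∧ On μ t' 1 z ∧ Ls μ (ds t t') ∧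
    ∀ r, On μ r t t' → Ls μ (ds t r) → ¬ Per μ t r

/-- an exponent of `d` in `T` carries the projection of `x` to the projection of `y` -/
def Rx (μ : a.K) (T : Subgroup (MM Γ a)) (d x y : MM Γ a) : Prop :=
  ∃ f ∈ T, f ∈ Ep d ∧ Ll (2 * ds (f * x) y - (ds x (d * x) + ds y (d * y))) μ

/-- the data of an adjunction at the top scale -/
structure TopD (μ : a.K) (B T : Subgroup (MM Γ a)) (W S : Set (MM Γ a)) : Prop where
  big : Big μ
  gc : GC0 B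
  le : B ≤ T
  bd : T ≤ ball Γ μ
  top : ∀ t ∈ T, t ∉ B → Ls μ (ln t)
  cov : ∀ t ∈ T, ∃ L : List (MM Γ a), L.prod = t ∧ Geo μ L ∧
    ∀ x ∈ L, x ∈ T ∧ ∃ g ∈ T, ∃ w ∈ W, On μ 1 g (g * w) ∧ On μ x g (g * w)
  w2 : ∀ w ∈ W, ∀ w' ∈ W, ∀ g p q, Ov μ p q 1 w g (g * w') → ¬ Per μ p q → g ∈ T
  w20 : ∀ w ∈ W, ∀ p q, Ls μ (ds p q) → On μ p 1 w → On μ q 1 w → Per μ p q →
    ∃ c ∈ T, Prim c ∧ Stab μ p q c
  star : ∀ c ∈ T, ∀ c' ∈ T, ¬ IsOfFinOrder c → ¬ IsOfFinOrder c' → ∀ x, Ll (ds x (c * x)) μ →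
    Ll (ds x (c' * x)) μ → ∃ t ∈ T, t⁻¹ * c * t ∈ B ∧ t⁻¹ * c' * t ∈ B
  gen : T = Subgroup.closure S
  ex1 : ∀ s ∈ S, ∀ d ∈ T, Prim d → Ll (md d) μ → Rx μ T d 1 s
  pur1 : ∀ c ∈ B, Prim c → ∀ f ∈ T, f ∈ Ep c → ∀ n : ℕ, 0 < n →
    ∃ f' ∈ T, f' ∈ Ep c ∧ ∃ r : ℕ, IsOfFinOrder (f⁻¹ * (f' ^ n * c ^ r))

/-- the hypotheses of the adjunction of a point -/
structure PtD (μ : a.K) (B : Subgroup (MM Γ a)) (p h : MM Γ a) : Prop where
  big : Big μ
  gc : GC0 B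
  bd : B ≤ ball Γ μ
  mem : h ∈ B
  on : On μ p 1 h
  far : ∀ x ∈ B, Ls μ (ds p x)
  fix : ∀ x ∈ B, Ll (ds p (x * p)) μ → p⁻¹ * x * p ∈ std Γ a ∧ IsOfFinOrder x

/-- the hypotheses of the adjunction of exponents, for a centred element -/
structure ExpD (μ : a.K) (B : Subgroup (MM Γ a)) (c : MM Γ a) (k : ℚ →+ a.Z) : Prop where
  big : Big μ
  gc : GC0 B
  bd : B ≤ ball Γ μ
  mem : c ∈ B
  prim : Prim c
  cen : Cen c
  md : Ll (md c) μ
  sb : ∀ q, ipow c (k q) ∈ ball Γ μ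
  long : ∀ q, q ≠ 0 → ∀ f ∈ B, f ∈ Ep c → Ls μ (Pool.Agent.P.MP_dba3d2_lc.md (f * ipow c (k q)))

/-- the new exponents -/
def ev (c : MM Γ a) (k : ℚ →+ a.Z) (q : {q : ℚ // q ≠ 0}) : MM Γ a := ipow c (k q)

/-- pinches for exponents -/
def EP (c : MM Γ a) (_ : {q : ℚ // q ≠ 0}) (b : MM Γ a) (_ : {q : ℚ // q ≠ 0}) : Prop := InE c b

/-- the group generated by the base and the new exponents -/
def ET (B : Subgroup (MM Γ a)) (c : MM Γ a) (k : ℚ →+ a.Z) : Subgroup (MM Γ a) :=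
  B ⊔ Subgroup.closure (Set.range fun q => ipow c (k q))

/-- exponent syllables -/
def SE (B : Subgroup (MM Γ a)) (c : MM Γ a) (k : ℚ →+ a.Z) : Set (MM Γ a) :=
  {e | ∃ f ∈ B, f ∈ Ep c ∧ ∃ q : ℚ, q ≠ 0 ∧ e = f * ipow c (k q)}

/-- normalised words -/
def NW (μ : a.K) (B : Subgroup (MM Γ a)) (c : MM Γ a) (k : ℚ →+ a.Z)
    (l : List (MM Γ a × MM Γ a)) : Prop :=
  ∀ s ∈ l, s.1 ∈ B ∧ ¬ InE c s.1 ∧ ¬ Fol μ s.1 c ∧ ¬ Fol μ s.1⁻¹ c ∧ s.2 ∈ SE B c k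

end Pool.Agent.P.MP_dba3d2_lc
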