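import Pool.Agent.P.MP_dba3d2_lc.A.Defs2

/-! Definitions for adjunctions at all scales and for the limit stage. -/

namespace Pool.Agent.P.MP_dba3d2_lc

open Filter

variable {Γ : HG} {a : Amb}

/-- `u` is a new limit of elements of `H` along the scales `l` -/
structure PLim (H : Subgroup (MM Γ a)) (l : ℕ → a.K) (u : MM Γ a) : Prop where
  big : ∀ n, Big (l n)
  dec : ∀ n, Ll (l (n + 1)) (l n)
  apx : ∀ n, ∃ v ∈ H, Ls (ds u v) (l n)
  new : ∀ v ∈ H, ∃ n, ¬ Ls (ds u v) (l n)

/-- the exponents in `W` of the primitive elements of `H ⊓ W` -/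
def expW (H W : Subgroup (MM Γ a)) : Subgroup (MM Γ a) :=
  Subgroup.closure {f | f ∈ W ∧ ∃ c ∈ H ⊓ W, Prim c ∧ f ∈ Ep c}

/-- `H` with the exponents of `W` -/
def hatH (H W : Subgroup (MM Γ a)) : Subgroup (MM Γ a) := H ⊔ expW H W

/-- `H ⊓ W` with the exponents of `W` -/
def hatM (H W : Subgroup (MM Γ a)) : Subgroup (MM Γ a) := (H ⊓ W) ⊔ expW H W

/-- admissible types: general, or exponent of a centred primitive element of `H` -/
def TyOk (H : Subgroup (MM Γ a)) (t : Option (MM Γ a)) : Prop :=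
  ∀ c, t = some c → c ∈ H ∧ Prim c ∧ Cen c

/-- `x` has type `t` -/
def HasT (t : Option (MM Γ a)) (x : MM Γ a) : Prop := ∀ c, t = some c → x ∈ Ep c

/-- a typed decomposition of an entry `y` of type `t`, with joints `z` of types `ty` -/
structure TDec (μ : a.K) (H : Subgroup (MM Γ a)) (t : Option (MM Γ a)) (y : MM Γ a) (r : ℕ)
    (h : Fin (r + 1) → MM Γ a) (z : Fin r → MM Γ a) (ty : Fin r → Option (MM Γ a)) : Prop
    extends Dec μ H y r h z where
  ok : ∀ j, TyOk H (ty j)
  has : ∀ j, HasT (ty j) (z j)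
  one : ∀ c, t = some c → r ≤ 1 ∧ (∀ j, ty j = some c) ∧ ∀ j, h j ∈ Ep c

/-- the number of general joints -/
def nG {X : Type} {r : ℕ} (ty : Fin r → Option X) : ℕ :=
  (Finset.univ.filter fun j => (ty j).isNone = true).card

end Pool.Agent.P.MP_dba3d2_lc
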