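import Pool.Agent.P.MP_dba3d2_lc.C.DefsL
import Pool.Agent.P.MP_dba3d2_lc.C.DefsP

/-! Definitions for the adjunctions at all scales: chains of cosets joined by axes or by limit
points. -/

namespace Pool.Agent.P.MP_dba3d2_lc

open Filter

/-- ends: a point (left) or a primitive element standing for its axis (right) -/
abbrev Nd (Γ : HG) (a : Amb) : Type := MM Γ a ⊕ MM Γ a

variable {Γ : HG} {a : Amb}

/-- the translate of an end -/
def Nd.mv (x : MM Γ a) : Nd Γ a → Nd Γ a := Sum.map (fun w => x * w) fun d => x * d * x⁻¹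

/-- `x` is a centred point for `d` -/
def Ct (d x : MM Γ a) : Prop := Ls (ds x (d * x)) (md d)

/-- the segment from `x` to `y` starts along the axis of `d` at scale `μ` -/
def Al (μ : a.K) (d x y : MM Γ a) : Prop := ∃ q, Ls μ (ds x q) ∧ On μ q x y ∧ Stab μ x q d

/-- the segment from `x` to `y` does not start along the axis of `d` -/
def NA (d x y : MM Γ a) : Prop := ∀ μ, Big μ → Ls (ds x y) μ → ¬ Al μ d x y

/-- `u` is near `H` at scale `μ` -/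
def Ap (H : Subgroup (MM Γ a)) (μ : a.K) (u : MM Γ a) : Prop := ∃ h ∈ H, Ll (ds u h) μ

/-- limit letters -/
structure LimD (H : Subgroup (MM Γ a)) (u : MM Γ a) : Prop where
  a1 : ∀ x ∈ H, Big (ds x u) ∧ Ap H (ds x u) u
  a2 : ∀ x ∈ H, (u⁻¹ * x * u ∉ H ∨ ¬ IsOfFinOrder x) →
    Big (ln (u⁻¹ * x * u)) ∧ Ap H (ln (u⁻¹ * x * u)) u

/-- the axis of `d` is adjacent to the coset of `g` -/
def Aj (H : Subgroup (MM Γ a)) (g d : MM Γ a) : Prop := Prim d ∧ g⁻¹ * d * g ∈ H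

/-- the end is attached to the coset of `g` -/
def At (H : Subgroup (MM Γ a)) (u g : MM Γ a) : Nd Γ a → Prop
  | .inl w => g⁻¹ * w ∈ H ∨ (LimD H u ∧ g⁻¹ * w * u⁻¹ ∈ H)
  | .inr d => Aj H g d

/-- the end is a point of the coset of `g` or an adjacent axis -/
def At0 (H : Subgroup (MM Γ a)) (g : MM Γ a) : Nd Γ a → Prop
  | .inl w => g⁻¹ * w ∈ H
  | .inr d => Aj H g d

/-- equivalent ends -/
def Sm (H : Subgroup (MM Γ a)) (u : MM Γ a) : Nd Γ a → Nd Γ a → Prop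
  | .inl w, .inl w' => w⁻¹ * w' ∈ H ∧ u * (w⁻¹ * w') * u⁻¹ ∈ H
  | .inr d, .inr d' => Ep d = Ep d'
  | _, _ => False

/-- reduced chains of cosets; the end `ε t` joins the cosets of `g t` and `g (t + 1)` -/
structure MCh (H : Subgroup (MM Γ a)) (u : MM Γ a) (g : ℕ → MM Γ a) (ε : ℕ → Nd Γ a) (N : ℕ) :
    Prop where
  l : ∀ t < N, At H u (g t) (ε t)
  r : ∀ t < N, At H u (g (t + 1)) (ε t)
  ne : ∀ t < N, (g t)⁻¹ * g (t + 1) ∉ H
  rd : ∀ t, t + 1 < N → ¬ Sm H u (ε t) (ε (t + 1))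

/-- reduced chains of length at most `n` are not closed -/
def Mx (H : Subgroup (MM Γ a)) (u : MM Γ a) (n : ℕ) : Prop :=
  ∀ g ε N, 0 < N → N ≤ n → MCh H u g ε N → (g 0)⁻¹ * g N ∉ H

/-- weakly reduced pairs of ends at a coset -/
def Rd (H : Subgroup (MM Γ a)) (u g : MM Γ a) (ε ε' : Nd Γ a) : Prop :=
  ¬ Sm H u ε ε' ∨ (∃ w, ε = .inl w ∧ g⁻¹ * w ∈ H) ∨ ∃ w, ε' = .inl w ∧ g⁻¹ * w ∈ H

/-- chains with two outer ends; the coset of `g t` carries the ends `ε t` and `ε (t + 1)` -/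
structure XCh (H : Subgroup (MM Γ a)) (u : MM Γ a) (g : ℕ → MM Γ a) (ε : ℕ → Nd Γ a) (N : ℕ) :
    Prop where
  l : ∀ t ≤ N, At H u (g t) (ε t)
  r : ∀ t ≤ N, At H u (g t) (ε (t + 1))
  rd : ∀ t ≤ N, Rd H u (g t) (ε t) (ε (t + 1))
  h0 : ∀ s t, s < t → t ≤ N → (g s)⁻¹ * g t ∉ H
  h2 : ∀ s t, s < t → t ≤ N → ∀ e, Aj H (g s) e → Aj H (g t) e →
    t = s + 1 ∧ Sm H u (.inr e) (ε t)

/-- `x` is a foot of the end in the coset of `g` -/
def Ft (H : Subgroup (MM Γ a)) (g : MM Γ a) : Nd Γ a → MM Γ a → Prop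
  | .inl w, x => x = w
  | .inr d, x => g⁻¹ * x ∈ H ∧ Ct d x

/-- the segment from `x` to `y` does not start along the end -/
def NAe : Nd Γ a → MM Γ a → MM Γ a → Prop
  | .inl _, _, _ => True
  | .inr d, x, y => NA d x y

/-- the segment from `x` to `y` is almost a segment of the coset of `g` -/
def Sd (H : Subgroup (MM Γ a)) (g x y : MM Γ a) : Prop :=
  (g⁻¹ * x ∈ H ∧ g⁻¹ * y ∈ H) ∨ (Big (ds x y) ∧ ∃ h ∈ H, ∃ h' ∈ H,
    Ll (ds x (g * h)) (ds x y) ∧ Ll (ds y (g * h')) (ds x y))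

/-- normal feet of two ends in the coset of `g` -/
structure Fe (H : Subgroup (MM Γ a)) (g : MM Γ a) (ε ε' : Nd Γ a) (x y : MM Γ a) : Prop where
  f : Ft H g ε x
  f' : Ft H g ε' y
  sd : Sd H g x y
  na : NAe ε x y
  na' : NAe ε' y x

/-- the segment from `x` to `y` is short or lies on the axis of the end -/
def Eo (μ : a.K) (ε : Nd Γ a) (x y : MM Γ a) : Prop :=
  Ll (ds x y) μ ∨ ∃ d, ε = .inr d ∧ Stab μ x y d

/-- the length of the path `p 0, v 0, p 1, v 1, …, p (N + 1), v (N + 1)` -/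
def len2 (p v : ℕ → MM Γ a) (N : ℕ) : a.K :=
  ∑ t ∈ Finset.range (N + 2), ds (p t) (v t) + ∑ t ∈ Finset.range (N + 1), ds (v t) (p (t + 1))

/-- the path is geodesic at scale `μ` -/
def G2 (μ : a.K) (p v : ℕ → MM Γ a) (N : ℕ) : Prop :=
  Ll (len2 p v N - ds (p 0) (v (N + 1))) μ

/-- the side from `x` to `y` and the later side from `x'` to `y'` cancel -/
def Ovj (μ : a.K) (x y x' y' : MM Γ a) : Prop :=
  Ll (ds y x') μ ∧ ∃ q, Ls μ (ds y q) ∧ On μ q y x ∧ On μ q x' y'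

/-- a chain that is periodic under `c`, with periodic feet -/
structure QCh (H : Subgroup (MM Γ a)) (u c : MM Γ a) (g : ℕ → MM Γ a) (ε : ℕ → Nd Γ a)
    (p v : ℕ → MM Γ a) (N : ℕ) : Prop where
  pos : 0 < N
  ch : ∀ M, MCh H u g ε M
  fe : ∀ t, Fe H (g (t + 1)) (ε t) (ε (t + 1)) (v t) (p (t + 1))
  pv : ∀ t, v (t + N) = c * v t
  pp : ∀ t, p (t + N + 1) = c * p (t + 1)

/-- the length of one period -/
def per2 (p v : ℕ → MM Γ a) (N : ℕ) : a.K :=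
  ∑ t ∈ Finset.range N, (ds (v t) (p (t + 1)) + ds (p (t + 1)) (v (t + 1)))

/-- walks through cosets of elements of `T` -/
inductive Wk (H : Subgroup (MM Γ a)) (u : MM Γ a) (T : Subgroup (MM Γ a)) :
    ℕ → MM Γ a → MM Γ a → Prop
  | nil {x y : MM Γ a} : x⁻¹ * y ∈ H → Wk H u T 0 x y
  | cons {n : ℕ} {x y z : MM Γ a} {ε : Nd Γ a} : At H u x ε → At H u z ε → z ∈ T →
      Wk H u T n z y → Wk H u T (n + 1) x y

/-- primitive elements that are conjugate in `T` into `H` -/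
def TP (H T : Subgroup (MM Γ a)) (d : MM Γ a) : Prop := ∃ t ∈ T, Aj H t d

/-- the cosets of `H` in `T` are connected -/
structure Cn (H : Subgroup (MM Γ a)) (u : MM Γ a) (T : Subgroup (MM Γ a)) : Prop where
  gc : GC0 H
  le : H ≤ T
  mem : LimD H u → u ∈ T
  conn : ∀ x ∈ T, ∀ y ∈ T, ∃ n, Wk H u T n x y

/-- a normal path in `T` between two ends -/
structure NPa (H : Subgroup (MM Γ a)) (u : MM Γ a) (T : Subgroup (MM Γ a)) (g : ℕ → MM Γ a)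
    (ε : ℕ → Nd Γ a) (p v : ℕ → MM Γ a) (N : ℕ) : Prop where
  ch : XCh H u g ε N
  mem : ∀ t ≤ N, g t ∈ T
  fe : ∀ t ≤ N, Fe H (g t) (ε t) (ε (t + 1)) (v t) (p (t + 1))
  e0 : p 0 = v 0
  e1 : v (N + 1) = p (N + 1)

/-- the pieces of elements of `T` at scale `μ` -/
def Pc (H : Subgroup (MM Γ a)) (u : MM Γ a) (T : Subgroup (MM Γ a)) (μ : a.K) (x : MM Γ a) :
    Prop :=
  x ∈ H ∨ (x ∈ T ∧ ∃ c ∈ H, Prim c ∧ Cen c ∧ Ll (ln c) μ ∧ x ∈ Ep c) ∨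
    (LimD H u ∧ x ∈ T ∧ Ll (ln x) μ)

/-- the segment from `x` to `y` is a geodesic product of elements with property `X` -/
def Cvr (μ : a.K) (X : MM Γ a → Prop) (x y : MM Γ a) : Prop :=
  ∃ L : List (MM Γ a), L.prod = x⁻¹ * y ∧ Geo μ L ∧ ∀ z ∈ L, X z

/-- the data of an adjunction at all scales -/
structure AllD (H : Subgroup (MM Γ a)) (u : MM Γ a) (T : Subgroup (MM Γ a)) : Prop where
  gc : GC0 H
  le : H ≤ T
  cov : ∀ μ, Big μ → ∀ t ∈ T, Ls (ln t) μ → Cvr μ (Pc H u T μ) 1 t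
  rig : ∀ d d' e e', TP H T d → TP H T d' → TP H T e → TP H T e' → Ep d ≠ Ep d' →
    ∀ x, Cj x e d → Cj x e' d' → x ∈ T
  cr : ∀ c ∈ T, ¬ IsOfFinOrder c → ∃ p ∈ T, Ct c p
  n1 : ∀ d, TP H T d → ∀ x ∈ T, ∃ p ∈ T, Ct d p ∧ NA d p x
  n2 : ∀ d d', TP H T d → TP H T d' → Ep d ≠ Ep d' →
    ∃ p ∈ T, ∃ p' ∈ T, Ct d p ∧ Ct d' p' ∧ NA d p p' ∧ NA d' p' p

/-- primitive periods of segments of `T` are conjugate into `H` -/
def PerT (H T : Subgroup (MM Γ a)) : Prop :=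
  ∀ μ, Big μ → ∀ x ∈ T, ∀ y ∈ T, Ls (ds x y) μ → ∀ p q, Ls μ (ds p q) → On μ p x y →
    On μ q x y → ∀ d, Prim d → Stab μ p q d → TP H T d

/-- purity for the primitive elements of `X` -/
def PurT (X T : Subgroup (MM Γ a)) : Prop :=
  ∀ c ∈ X, Prim c → ∀ f ∈ T, f ∈ Ep c → ∀ n : ℕ, 0 < n →
    ∃ f' ∈ T, f' ∈ Ep c ∧ ∃ r : ℕ, IsOfFinOrder (f⁻¹ * (f' ^ n * c ^ r))

/-- the data of a limit of exponents -/
structure LimE (H : Subgroup (MM Γ a)) (l : ℕ → a.K) (c : MM Γ a) (k : ℚ →+ a.Z) : Prop where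
  gc : GC0 H
  big : ∀ n, Big (l n)
  mem : c ∈ H
  prim : Prim c
  cen : Cen c
  sm : ∀ n, Ls (md c) (l n)
  apx : ∀ n, ∃ f ∈ H, f ∈ Ep c ∧ Ls (ds f (ipow c (k 1))) (l n)
  new : ∀ f ∈ H, f ∈ Ep c → ∃ n, ¬ Ls (ds f (ipow c (k 1))) (l n)

end Pool.Agent.P.MP_dba3d2_lc
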