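import Pool.Agent.P.MP_dba3d2_lc.C.DefsL

/-! Definitions for the two factor theorem: syllables, words, covers, junctions. -/

namespace Pool.Agent.P.MP_dba3d2_lc

open Filter

/-- nonempty alternating words are not in the amalgamated subgroup -/
def RedNT {G : Type} [Group G] (A : Bool → Subgroup G) (C : Subgroup G) : Prop :=
  ∀ l : List (Bool × G), l ≠ [] → (∀ s ∈ l, s.2 ∈ A s.1 ∧ s.2 ∉ C) →
    l.IsChain (fun s s' => s.1 ≠ s'.1) → (l.map Prod.snd).prod ∉ C

/-- homomorphisms on `X` and `Y` that agree on `C` extend to the join -/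
def UnivP {G : Type} [Group G] (X Y C : Subgroup G) : Prop :=
  ∀ (G' : Type) [Group G'] (θ0 : X →* G') (θ1 : Y →* G'),
    (∀ (x : X) (y : Y), (x : G) ∈ C → (x : G) = y → θ0 x = θ1 y) →
    ∃ θ : ↥(X ⊔ Y) →* G', (∀ x : X, θ ⟨x, (le_sup_left : X ≤ X ⊔ Y) x.2⟩ = θ0 x) ∧
      ∀ y : Y, θ ⟨y, (le_sup_right : Y ≤ X ⊔ Y) y.2⟩ = θ1 y

variable {Γ : HG} {a : Amb}

/-- the base (`none`) and the factors -/
def XF (F : Bool → Subgroup (MM Γ a)) : Option Bool → Subgroup (MM Γ a)
  | none => F false ⊓ F true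
  | some i => F i

/-- the exponents of `c` -/
def EF (F : Bool → Subgroup (MM Γ a)) (c : MM Γ a) : Subgroup (MM Γ a) :=
  (F false ⊓ Ep c) ⊔ (F true ⊓ Ep c)

/-- the elementary closure as a subgroup -/
def IE (c : MM Γ a) : Subgroup (MM Γ a) := Subgroup.closure {g | InE c g}

/-- tags of syllables -/
abbrev Tg (Γ : HG) (a : Amb) : Type := Option Bool ⊕ MM Γ a

/-- the group of a tag -/
def LF (F : Bool → Subgroup (MM Γ a)) : Tg Γ a → Subgroup (MM Γ a)
  | .inl o => XF F o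
  | .inr c => EF F c

/-- admissible tags -/
def TOK (F : Bool → Subgroup (MM Γ a)) (S : Option Bool → Prop) : Tg Γ a → Prop
  | .inl o => S o
  | .inr c => c ∈ XF F none ∧ Prim c ∧ Cen c

/-- the cost of a base or factor syllable -/
def kx : Option Bool → ℕ
  | none => 1
  | some _ => 5

/-- the cost of a tag -/
def kc : Tg Γ a → ℕ
  | .inl o => kx o
  | .inr _ => 2

/-- the cost of a tag at an end of a word -/
def k0 : Tg Γ a → ℕ
  | .inl o => kx o
  | .inr _ => 0

/-- the group that contains the period of a syllable -/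
def bt : Tg Γ a → Option Bool
  | .inl o => o
  | .inr _ => none

/-- the cost of the words that can replace the inside of an overlapping junction -/
def lb : Tg Γ a → Tg Γ a → ℕ
  | .inr _, .inr _ => 3
  | .inr _, .inl o => 2 + kx o
  | .inl o, .inr _ => kx o + 2
  | .inl (some i), .inl (some j) => if i = j then 12 else 10
  | .inl o, .inl o' => kx o + 2 + kx o'

/-- A group that covers the join of the factors. -/
structure Cv (F : Bool → Subgroup (MM Γ a)) (G : Type) [Group G] where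
  π : G →* MM Γ a
  L : Tg Γ a → Subgroup G
  S : Option Bool → Prop
  s0 : S none
  le : ∀ t, TOK F S t → ∀ x ∈ L t, π x ∈ LF F t
  sur : ∀ t, TOK F S t → ∀ y ∈ LF F t, ∃ x ∈ L t, π x = y
  inj : ∀ x ∈ L (.inl none), π x = 1 → x = 1
  mem : ∀ t o, TOK F S t → S o → ∀ x ∈ L t, π x ∈ XF F o → x ∈ L (.inl o)
  cj : ∀ c d, TOK F S (.inr c) → TOK F S (.inr d) → ∀ b ∈ L (.inl none), Cj (π b) c d →
    ∀ x ∈ L (.inr c), b * x * b⁻¹ ∈ L (.inr d)

section words
variable {G : Type} [Group G]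

/-- the value of a word -/
def vl (w : List (Tg Γ a × G)) : G := (w.map Prod.snd).prod
/-- the cost of a word -/
def ct (w : List (Tg Γ a × G)) : ℕ := (w.map fun s => kc s.1).sum
/-- the inverse of a syllable -/
def sinv (s : Tg Γ a × G) : Tg Γ a × G := (s.1, s.2⁻¹)
/-- the inverse of a word -/
def winv (w : List (Tg Γ a × G)) : List (Tg Γ a × G) := (w.map sinv).reverse

end words

/-- a word with optional ends -/
def xw {X : Type} (e : Option X) (u : List X) (e' : Option X) : List X := e.toList ++ u ++ e'.toList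

/-- compatibility of neighbouring syllables after normalisation -/
def Pair (F : Bool → Subgroup (MM Γ a)) : Tg Γ a × MM Γ a → Tg Γ a × MM Γ a → Prop
  | (.inl _, y), (.inr c, _) => NE c y
  | (.inr c, _), (.inl _, y) => NE c y⁻¹
  | (.inr c, _), (.inr c', _) => Ep c ≠ Ep c'
  | (.inl o, y), (.inl o', y') => ∃ i, o = some i ∧ o' = some (!i) ∧
      (NM (F (!i)) (XF F none) y ∧ y' ∉ XF F none ∨ NM (F i) (XF F none) y'⁻¹ ∧ y ∉ XF F none)

/-- compatibility of neighbouring syllables in a reduced word -/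
def RP (F : Bool → Subgroup (MM Γ a)) : Tg Γ a × MM Γ a → Tg Γ a × MM Γ a → Prop
  | (.inl o, y), (.inr c, _) => o ≠ none → y * c * y⁻¹ ∉ XF F none
  | (.inr c, _), (.inl o, y) => o ≠ none → y⁻¹ * c * y ∉ XF F none
  | (.inr c, _), (.inr c', _) => Ep c ≠ Ep c'
  | (.inl o, _), (.inl o', _) => ∃ i, o = some i ∧ o' = some (!i)

/-- the segment from `p` to `q` lies on the arc of the syllable `(t, y)`, or on a period that is
attached to it -/
def Arc (F : Bool → Subgroup (MM Γ a)) (ν : a.K) : Tg Γ a → MM Γ a → MM Γ a → MM Γ a → Prop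
  | .inr c, _, p, q => Stab ν p q c
  | .inl o, y, p, q => (Ls (ln y) ν ∧ On ν p 1 y ∧ On ν q 1 y) ∨
      ∃ b ∈ XF F o, b ∉ XF F none ∧ Prim b ∧ Stab ν p q b

/-- overlap at a junction with inside `z` -/
def Ovp (F : Bool → Subgroup (MM Γ a)) (ν : a.K) (s : Tg Γ a × MM Γ a) (z : MM Γ a)
    (s' : Tg Γ a × MM Γ a) : Prop :=
  ∃ q, Ls ν (ln q) ∧ Arc F ν s.1 s.2⁻¹ 1 q ∧ Arc F ν s'.1 s'.2 z⁻¹ (z⁻¹ * q)

/-- `b` is a period attached to the syllable `(t, y)` on the segment from `p` to `q` -/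
def Att (F : Bool → Subgroup (MM Γ a)) (ν : a.K) (t : Tg Γ a) (y p q b : MM Γ a) : Prop :=
  b ∈ XF F (bt t) ∧ Prim b ∧ Stab ν p q b ∧ (∀ c, t = .inr c → b = c) ∧
    (∀ o, t = .inl o → b ∈ XF F none → Ls (ln y) ν ∧ On ν p 1 y ∧ On ν q 1 y)

/-- the shape of conjugators -/
def TC1 (F : Bool → Subgroup (MM Γ a)) (o o' : Option Bool) (b b' w : MM Γ a) : Prop :=
  (∃ c ∈ XF F none, Prim c ∧ Cen c ∧ ∃ e ∈ EF F c, ∃ g ∈ XF F o, ∃ g' ∈ XF F o',
    w = g * e * g'⁻¹ ∧ Cj g c b ∧ Cj g' c b') ∨ ∃ i, o = some i ∧ o' = some i ∧ w ∈ F i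

/-- `w` has the shape of a conjugator whenever it is one -/
def TC (F : Bool → Subgroup (MM Γ a)) (o o' : Option Bool) (w : MM Γ a) : Prop :=
  ∀ b ∈ XF F o, ∀ b' ∈ XF F o', Prim b → Prim b' → Cj w b' b → TC1 F o o' b b' w

/-- typed axes -/
def Typ (F : Bool → Subgroup (MM Γ a)) (o : Option Bool) (b : MM Γ a) : Prop :=
  b ∈ XF F o ∧ Prim b ∧ Cen b ∧ (o ≠ none → ∀ g ∈ XF F o, g⁻¹ * b * g ∉ XF F none)

/-- anchored axes -/
def Anc (F : Bool → Subgroup (MM Γ a)) (b : MM Γ a) : Prop :=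
  Prim b ∧ Cen b ∧ ((∃ o, Typ F o b) ∨ ∀ h ∈ F false ⊔ F true, NE b h)

/-- short insides of junctions -/
def Short {G : Type} (t : Tg Γ a) (z : List (Tg Γ a × G)) (t' : Tg Γ a) : Prop :=
  z = [] ∨ (∃ c c' m, t = .inr c ∧ t' = .inr c' ∧ z = [(.inl none, m)]) ∨
    ∃ o o' c e, t = .inl o ∧ t' = .inl o' ∧ z = [(.inr c, e)]

namespace Cv

variable {F : Bool → Subgroup (MM Γ a)} {G : Type} [Group G] (C : Cv F G)

/-- admissible syllables -/
def ok (s : Tg Γ a × G) : Prop := TOK F C.S s.1 ∧ s.2 ∈ C.L s.1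
/-- admissible words -/
def Wd (w : List (Tg Γ a × G)) : Prop := ∀ s ∈ w, C.ok s
/-- the group of values of words -/
def PP : Subgroup G := Subgroup.closure {x | ∃ t, C.ok (t, x)}
/-- the image of a syllable -/
def pr (s : Tg Γ a × G) : Tg Γ a × MM Γ a := (s.1, C.π s.2)
/-- the images of the syllables -/
def vs (w : List (Tg Γ a × G)) : List (MM Γ a) := w.map fun s => C.π s.2
/-- the total length of the syllables -/
def sl (w : List (Tg Γ a × G)) : a.K := ((C.vs w).map ln).sum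
/-- words of least cost in a double coset -/
def CMin (A B : Subgroup G) (w : List (Tg Γ a × G)) : Prop :=
  C.Wd w ∧ ∀ r, C.Wd r → ∀ x ∈ A, ∀ y ∈ B, vl r = x * vl w * y → ct w ≤ ct r
/-- words of least cost in a conjugacy class -/
def CycMin (w : List (Tg Γ a × G)) : Prop :=
  C.Wd w ∧ ∀ r, C.Wd r → ∀ g ∈ C.PP, vl r = g⁻¹ * vl w * g → ct w ≤ ct r
/-- the group of an optional end -/
def LO (e : Option (Tg Γ a × G)) : Subgroup G := e.elim ⊥ fun s => C.L s.1
/-- only base syllables have images in the base -/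
def Nz (w : List (Tg Γ a × G)) : Prop := ∀ s ∈ w, C.π s.2 ∈ XF F none → s.1 = .inl none
/-- exponent syllables with images in the base are trivial -/
def NzE (w : List (Tg Γ a × G)) : Prop :=
  ∀ s ∈ w, ∀ c, s.1 = .inr c → C.π s.2 ∈ XF F none → C.π s.2 = 1
/-- a base syllable between exponent syllables does not identify the axes -/
def HE (s : Tg Γ a × G) (z : List (Tg Γ a × G)) (s' : Tg Γ a × G) : Prop :=
  ∀ c c' m, s.1 = .inr c → s'.1 = .inr c' → z = [(.inl none, m)] → ¬ Cj (C.π m) c' c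
/-- reduced words -/
structure Red (w : List (Tg Γ a × G)) : Prop where
  wd : C.Wd w
  pl : ∀ s ∈ w, ∀ i, s.1 = .inl (some i) → C.π s.2 ∉ XF F none
  ch : w.IsChain fun s s' => RP F (C.pr s) (C.pr s')
  he : ∀ s z s', s :: z ++ [s'] <:+: w → C.HE s z s'
/-- normalised words -/
def PCh (w : List (Tg Γ a × G)) : Prop := w.IsChain fun s s' => Pair F (C.pr s) (C.pr s')
/-- good junctions -/
structure JOK (s : Tg Γ a × G) (z : List (Tg Γ a × G)) (s' : Tg Γ a × G) : Prop where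
  wd : C.Wd (s :: z ++ [s'])
  ch : C.PCh (s :: z ++ [s'])
  min : C.CMin (C.L s.1) (C.L s'.1) z
  he : C.HE s z s'
/-- good words -/
def Good (w : List (Tg Γ a × G)) : Prop :=
  C.Wd w ∧ ∀ s z s', s :: z ++ [s'] <:+: w → C.JOK s z s'
/-- equations between the inside of a junction and short words lift to the cover -/
def Lift (t : Tg Γ a) (z : List (Tg Γ a × G)) (t' : Tg Γ a) : Prop :=
  ∀ r, C.Wd r → ct r ≤ lb t t' → C.π (vl r) = C.π (vl z) → vl r = vl z
/-- the exceptional cyclic words -/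
def Exc (w : List (Tg Γ a × G)) : Prop :=
  ∃ c e m, w ~r [(.inr c, e), (.inl none, m)] ∧ Cj (C.π m) c c
/-- cyclically good words -/
def CG (w : List (Tg Γ a × G)) : Prop :=
  2 ≤ w.length ∧ ∀ s ρ, w ~r s :: ρ → C.Good (s :: ρ ++ [s])

end Cv

theorem EF_conj {F : Bool → Subgroup (MM Γ a)} {b c d x : MM Γ a} (hb : b ∈ XF F none)
    (h : Cj b c d) (hx : x ∈ EF F c) : b * x * b⁻¹ ∈ EF F d := by
  have k : ∀ i, F i ⊓ Ep c ≤ (EF F d).comap (MulAut.conj b).toMonoidHom := by
    rintro i y ⟨h1, h2⟩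
    have h3 : b ∈ F i := by
      cases i
      exacts [hb.1, hb.2]
    have h4 : b * y * b⁻¹ ∈ Ep d := by
      rw [← h, Ep, Subgroup.mem_centralizer_iff]
      rintro _ rfl
      rw [conj_pow, conj_mul, conj_mul, Subgroup.mem_centralizer_iff.1 h2 _ rfl]
    have h5 : b * y * b⁻¹ ∈ F i ⊓ Ep d := ⟨(F i).mul_mem ((F i).mul_mem h3 h1) ((F i).inv_mem h3), h4⟩
    change b * y * b⁻¹ ∈ EF F d
    cases i
    exacts [Subgroup.mem_sup_left h5, Subgroup.mem_sup_right h5]
  exact sup_le (k false) (k true) hx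

/-- the trivial cover -/
def idC (F : Bool → Subgroup (MM Γ a)) : Cv F (MM Γ a) where
  π := MonoidHom.id _
  L := LF F
  S := fun _ => True
  s0 := trivial
  le := fun _ _ _ h => h
  sur := fun _ _ y h => ⟨y, h, rfl⟩
  inj := fun _ _ h => h
  mem := fun _ _ _ _ _ _ h => h
  cj := fun _ _ _ _ _ hb h _ hx => EF_conj hb h hx

/-- `e` is a left end that carries the axis `b` -/
def EndL (F : Bool → Subgroup (MM Γ a)) (b : MM Γ a) : Tg Γ a × MM Γ a → Prop
  | (.inr c, y) => c = b ∧ b ∈ XF F none ∧ Prim b ∧ Cen b ∧ y = 1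
  | (.inl o, y) => o ≠ none ∧ y ∈ XF F o ∧ b ∈ XF F o ∧ Prim b ∧ Cen b

/-- the axis of a left end in a factor is not carried into the base -/
def Far (F : Bool → Subgroup (MM Γ a)) (b : MM Γ a) (e : Tg Γ a × MM Γ a) : Prop :=
  ∀ o, e.1 = .inl o → e.2⁻¹ * b * e.2 ∉ XF F none

/-- words whose first syllable has the type of the axis -/
def SolL (o : Option Bool) (w : List (Tg Γ a × MM Γ a)) : Prop :=
  o ≠ none → ∃ s ∈ w.head?, s.1 = .inl o

/-- words that are geodesic at all scales above their length -/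
structure Nice (F : Bool → Subgroup (MM Γ a)) (w : List (Tg Γ a × MM Γ a)) : Prop where
  wd : (idC F).Wd w
  nz : (idC F).NzE w
  geo : ∀ ν, Big ν → Ls ((idC F).sl w) ν → Geo ν ((idC F).vs w)

/-- normalised words with ends that carry the axes `b`, `b'` -/
structure XW (F : Bool → Subgroup (MM Γ a)) (b b' : MM Γ a) (e : Option (Tg Γ a × MM Γ a))
    (u : List (Tg Γ a × MM Γ a)) (e' : Option (Tg Γ a × MM Γ a)) : Prop where
  l : ∀ s ∈ e, EndL F b s ∧ NE b s.2⁻¹
  r : ∀ s ∈ e', EndL F b' (sinv s) ∧ NE b' s.2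
  good : (idC F).Good (xw e u e')
  nz : (idC F).Nz u

/-- only the last syllable is long, and it is in the base or in a factor -/
def LastX (F : Bool → Subgroup (MM Γ a)) (ν : a.K) (w : List (Tg Γ a × MM Γ a)) : Prop :=
  ∃ z s o, w = z ++ [s] ∧ s.1 = .inl o ∧ Ll ((idC F).sl z) ν

/-- the group generated by the base and the exponents of the elements of `S` -/
def NS (F : Bool → Subgroup (MM Γ a)) (S : Set (MM Γ a)) : Subgroup (MM Γ a) :=
  XF F none ⊔ ⨆ c ∈ S, EF F c

/-- the exponents of `c` and the flips in the base -/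
def EPM (F : Bool → Subgroup (MM Γ a)) (c : MM Γ a) : Subgroup (MM Γ a) :=
  EF F c ⊔ (XF F none ⊓ IE c)

/-- the centred primitive elements of the base -/
def PM (F : Bool → Subgroup (MM Γ a)) : Set (MM Γ a) := {c | c ∈ XF F none ∧ Prim c ∧ Cen c}

/-- the base with the exponents from one factor -/
def MI (F : Bool → Subgroup (MM Γ a)) (i : Bool) : Subgroup (MM Γ a) :=
  XF F none ⊔ ⨆ c ∈ PM F, F i ⊓ Ep c

/-- an instance of the rigidity statement -/
structure RI (F : Bool → Subgroup (MM Γ a)) (o : Option Bool) (b : MM Γ a) (o' : Option Bool)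
    (d : MM Γ a) (w w' : List (Tg Γ a × MM Γ a)) (f f' : MM Γ a) : Prop where
  tb : Typ F o b
  td : Typ F o' d
  wd : (idC F).Wd w
  wd' : (idC F).Wd w'
  l : SolL o w
  l' : SolL o w'
  r : SolL o' (winv w)
  r' : SolL o' (winv w')
  eb : f ∈ Ep b
  ed : f' ∈ Ep d
  eq : f * vl w' = vl w * f'
  nc : ¬ Cj (vl w) d b

end Pool.Agent.P.MP_dba3d2_lc
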