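import Pool.Agent.P.MP_dba3d2_lc.C.DefsL

/-! Interface, chapter C2: geometry of the adjunctions at the top scale. -/

namespace Pool.Agent.P.MP_dba3d2_lc

open Filter

-- deps: ELEM LINE PERC ROOT
-- imports: Pool.Agent.P.MP_dba3d2_lc.C.LTb
def S_C2_RX : Prop := ∀ (Γ : HG) (a : Amb) (μ : a.K) (T : Subgroup (MM Γ a)) (d : MM Γ a),
  Big μ → ¬ IsOfFinOrder d → Ll (md d) μ →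
  (∀ x y, Rx μ T d x y → Rx μ T d y x) ∧
  (∀ x y z, Rx μ T d x y → Rx μ T d y z → Rx μ T d x z) ∧
  (∀ t ∈ T, ∀ x y, Rx μ T (t⁻¹ * d * t) x y → Rx μ T d (t * x) (t * y)) ∧
  (∀ x y, Rx μ T d x y ∨ ∃ p q, Ls μ (ds p q) ∧ On μ p x y ∧ On μ q x y ∧ Stab μ p q d) ∧
  ∀ B ≤ T, GC0 B → B ≤ ball Γ μ → Prim d → ∀ s ∈ B, Rx μ T d 1 s

-- deps: ELEM LINE PERC RIG
-- imports: Pool.Agent.P.MP_dba3d2_lc.C.LTb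
def S_C2_G2 : Prop := ∀ (Γ : HG) (a : Amb) (μ : a.K) (B T : Subgroup (MM Γ a))
  (W S : Set (MM Γ a)), TopD μ B T W S →
  (∀ h ∈ T, ∀ p q, Ls μ (ds p q) → On μ p 1 h → On μ q 1 h → Per μ p q →
    ∃ c ∈ T, Prim c ∧ Stab μ p q c) ∧
  ∀ h ∈ T, ∀ h' ∈ T, ∀ g p q, Ov μ p q 1 h g (g * h') → ¬ Per μ p q → g ∈ T

-- deps: ELEM LINE
-- imports: Pool.Agent.P.MP_dba3d2_lc.C.LTb
def S_C2_TPC : Prop := ∀ (Γ : HG) (a : Amb) (μ : a.K) (B T : Subgroup (MM Γ a))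
  (W S : Set (MM Γ a)), TopD μ B T W S → PerRed T B B ∧
  (∀ c ∈ T, Prim c → ∀ f ∈ T, f ∈ Ep c → ∀ n : ℕ, 0 < n →
    ∃ f' ∈ T, f' ∈ Ep c ∧ ∃ r : ℕ, IsOfFinOrder (f⁻¹ * (f' ^ n * c ^ r))) ∧
  ∀ c ∈ T, ∀ c' ∈ T, ¬ IsOfFinOrder c → ¬ IsOfFinOrder c' →
    ∃ p ∈ T, Ls (ln p) (ln c + ln c') ∧ ∀ q : MM Γ a,
      Ls (ln (p⁻¹ * c * p) + ln (p⁻¹ * c' * p)) (ln (q⁻¹ * c * q) + ln (q⁻¹ * c' * q))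

-- deps: C2_RX C2_G2 C2_TPC
-- imports: Pool.Agent.P.MP_dba3d2_lc.C.LTb
def S_C2_TOP : Prop := ∀ (Γ : HG) (a : Amb) (μ : a.K) (B T : Subgroup (MM Γ a))
  (W S : Set (MM Γ a)), TopD μ B T W S → GC0 T ∧ PerRed T B B

-- deps: ELEM LINE ROOT
-- imports: Pool.Agent.P.MP_dba3d2_lc.C.LTb
def S_C2_HST : Prop := ∀ (Γ : HG) (a : Amb) (μ : a.K) (B T : Subgroup (MM Γ a)),
  Big μ → GC0 B → B ≤ T → T ≤ ball Γ μ → (∀ z ∈ T, z ∉ B → Npg μ z) →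
  (∀ t ∈ T, t ∉ B → Ls μ (ln t)) ∧
  (∀ c ∈ B, Prim c → ∀ f ∈ T, f ∈ Ep c → f ∈ B) ∧
  ((∀ c ∈ T, Ll (md c) μ → ∃ g ∈ T, g⁻¹ * c * g ∈ B) →
    ∀ c ∈ T, ∀ c' ∈ T, ¬ IsOfFinOrder c → ¬ IsOfFinOrder c' → ∀ x, Ll (ds x (c * x)) μ →
      Ll (ds x (c' * x)) μ → ∃ t ∈ T, t⁻¹ * c * t ∈ B ∧ t⁻¹ * c' * t ∈ B)

-- deps:
-- imports: Pool.Agent.P.MP_dba3d2_lc.C.LTb
def S_C2_LGEO : Prop := ∀ (Γ : HG) (a : Amb) (μ : a.K) (B : Subgroup (MM Γ a)) (r : ℕ)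
  (K : Fin r → Subgroup Γ.G) (u : Fin r → MM Γ a), Big μ → GC0 B → B ≤ ball Γ μ →
  Letters μ B K u → (∀ i, u i ∉ B) ∧
  (∀ i, ∀ x ∈ B, (u i)⁻¹ * x * u i ∈ B → x ∈ (K i).map (cst Γ a)) ∧
  ∀ l, WRed B (HP B u) l → ∀ b ∈ B, Geo μ (wflat (hv u) l ++ [b])

-- deps: C2_RW C2_LGEO
-- imports: Pool.Agent.P.MP_dba3d2_lc.C.LTb
def S_C2_LNF : Prop := ∀ (Γ : HG) (a : Amb) (μ : a.K) (B : Subgroup (MM Γ a)) (r : ℕ)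
  (K : Fin r → Subgroup Γ.G) (u : Fin r → MM Γ a), Big μ → GC0 B → B ≤ ball Γ μ →
  Letters μ B K u → WBr B (hv u) (HP B u) ∧
  (∀ t ∈ B ⊔ Subgroup.closure (Set.range u), ∃ L : List (MM Γ a), L.prod = t ∧ Geo μ L ∧
    ∀ x ∈ L, x ∈ B ∨ ∃ i, x = u i ∨ x = (u i)⁻¹) ∧
  (∀ z ∈ B ⊔ Subgroup.closure (Set.range u), z ∉ B → Npg μ z) ∧
  ∀ c ∈ B ⊔ Subgroup.closure (Set.range u), Ll (md c) μ →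
    ∃ g ∈ B ⊔ Subgroup.closure (Set.range u), g⁻¹ * c * g ∈ B

-- deps:
-- imports: Pool.Agent.P.MP_dba3d2_lc.C.LTb
def S_C2_PJN : Prop := ∀ (Γ : HG) (a : Amb) (μ : a.K) (B : Subgroup (MM Γ a)) (p h : MM Γ a),
  PtD μ B p h → Ls (ln p) μ ∧ (∀ x ∈ B, p⁻¹ * x * p ∈ B ↔ Ll (ds p (x * p)) μ) ∧
  ∀ α α', (α = 1 ∨ α = p) → (α' = 1 ∨ α' = p) → ∀ β ∈ B,
    (∃ y ∈ B, ∃ y' ∈ B, On μ α y y' ∧ On μ (β * α') y y') ∧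
    (∀ r, On μ r 1 (p⁻¹ * β * α) → Ls μ (ln r) → ¬ Per μ 1 r) ∧
    ∀ β' ∈ B, On μ 1 (p⁻¹ * β * α) (β' * α') ∧
      ∀ z ∈ B, Ll (ln z) μ → p * z * p⁻¹ ∉ B → On μ 1 (p⁻¹ * β * α) (z * (p⁻¹ * β' * α'))

-- deps: C2_PJN
-- imports: Pool.Agent.P.MP_dba3d2_lc.C.LTb
def S_C2_PGEO : Prop := ∀ (Γ : HG) (a : Amb) (μ : a.K) (B : Subgroup (MM Γ a)) (p h : MM Γ a),
  PtD μ B p h →
  (∀ l, WRed B (HP B fun _ : Fin 1 => p) l → ∀ b ∈ B, ∃ L : List (MM Γ a),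
    L.prod = wval (hv fun _ : Fin 1 => p) l * b ∧ Geo μ L ∧
    (∀ x ∈ L, ∃ α α', (α = 1 ∨ α = p) ∧ (α' = 1 ∨ α' = p) ∧ ∃ β ∈ B, x = α⁻¹ * β * α') ∧
    (l ≠ [] → Npg μ (wval (hv fun _ : Fin 1 => p) l * b))) ∧
  ∀ l, l ≠ [] → WRed B (HP B fun _ : Fin 1 => p) (l ++ l ++ l) → ∃ α, (α = 1 ∨ α = p) ∧
    ∃ L : List (MM Γ a), L.prod = α⁻¹ * wval (hv fun _ : Fin 1 => p) l * α ∧ Geo μ (L ++ L)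

-- deps: ELEM NORM
-- imports: Pool.Agent.P.MP_dba3d2_lc.C.LTb
def S_C2_ENRM : Prop := ∀ (Γ : HG) (a : Amb) (μ : a.K) (B : Subgroup (MM Γ a)) (c : MM Γ a)
  (k : ℚ →+ a.Z), ExpD μ B c k →
  (∀ h ∈ B, ∃ f ∈ B, f ∈ Ep c ∧ ¬ Fol μ (h * f)⁻¹ c) ∧
  (∀ h ∈ B, ¬ InE c h → ∃ f ∈ B, ∃ f' ∈ B, ∃ y ∈ B, f ∈ Ep c ∧ f' ∈ Ep c ∧ h = f * y * f' ∧
    ¬ InE c y ∧ ¬ Fol μ y c ∧ ¬ Fol μ y⁻¹ c) ∧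
  ∀ l, (∀ s ∈ l, Prod.fst s ∈ B ∧ ¬ InE c (Prod.fst s)) → ∀ g ∈ B, g ∈ Ep c →
    ∃ f ∈ B, f ∈ Ep c ∧ ∃ l', NW μ B c k l' ∧ wval (ev c k) l * g = f * wval id l'

-- deps: ELEM LINE PERC
-- imports: Pool.Agent.P.MP_dba3d2_lc.C.LTb
def S_C2_ELOC : Prop := ∀ (Γ : HG) (a : Amb) (μ : a.K) (B : Subgroup (MM Γ a)) (c : MM Γ a)
  (k : ℚ →+ a.Z), ExpD μ B c k →
  (∀ f ∈ Ep c, Stab μ 1 f c) ∧ (∀ e ∈ SE B c k, Ls μ (ln e)) ∧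
  ∀ l, NW μ B c k l → ∀ b₀, ¬ Fol μ b₀⁻¹ c → ∀ e ∈ SE B c k, ∀ b, ¬ Fol μ b c →
    Geo μ (b₀ :: e :: (wflat id l ++ [b]))

-- deps: C2_ENRM C2_ELOC
-- imports: Pool.Agent.P.MP_dba3d2_lc.C.LTb
def S_C2_EGEO : Prop := ∀ (Γ : HG) (a : Amb) (μ : a.K) (B : Subgroup (MM Γ a)) (c : MM Γ a)
  (k : ℚ →+ a.Z), ExpD μ B c k →
  (∀ l, WRed B (EP c) l → ∀ b ∈ B,
    (∃ L : List (MM Γ a), L.prod = wval (ev c k) l * b ∧ Geo μ L ∧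
      ∀ x ∈ L, x ∈ B ∨ x ∈ SE B c k) ∧
    ∀ s l', l = s :: l' → ∃ x ∈ B, s.1⁻¹ * x ∈ Ep c ∧ ∃ e ∈ SE B c k,
      On μ x 1 (wval (ev c k) l * b) ∧ On μ (x * e) 1 (wval (ev c k) l * b) ∧ On μ x 1 (x * e)) ∧
  ∀ l, l ≠ [] → WRed B (EP c) (l ++ l) → ∃ f ∈ B, ∃ L : List (MM Γ a),
    L.prod = f⁻¹ * wval (ev c k) l * f ∧ Geo μ (L ++ L)

-- deps: ELEM LINE PERC ROOT C2_RW C2_ELOC C2_EGEO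
-- imports: Pool.Agent.P.MP_dba3d2_lc.C.LTb
def S_C2_EEP : Prop := ∀ (Γ : HG) (a : Amb) (μ : a.K) (B : Subgroup (MM Γ a)) (c : MM Γ a)
  (k : ℚ →+ a.Z), ExpD μ B c k → WBr B (ev c k) (EP c) ∧
  (∀ t ∈ ET B c k, t ∉ B → Ls μ (ln t)) ∧
  (∀ d ∈ B, Prim d → (∀ x ∈ B, ¬ Cj x c d) → ∀ f ∈ ET B c k, f ∈ Ep d → f ∈ B) ∧
  ∀ f ∈ ET B c k, f ∈ Ep c → ∃ f0 ∈ B, ∃ q, f = f0 * ipow c (k q)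

-- deps: ELEM PERC C2_RW C2_ELOC C2_EGEO C2_EEP
-- imports: Pool.Agent.P.MP_dba3d2_lc.C.LTb
def S_C2_ESTAR : Prop := ∀ (Γ : HG) (a : Amb) (μ : a.K) (B : Subgroup (MM Γ a)) (c : MM Γ a)
  (k : ℚ →+ a.Z), ExpD μ B c k →
  ∀ d ∈ ET B c k, ∀ d' ∈ ET B c k, ¬ IsOfFinOrder d → ¬ IsOfFinOrder d' → ∀ x,
    Ll (ds x (d * x)) μ → Ll (ds x (d' * x)) μ →
    ∃ t ∈ ET B c k, t⁻¹ * d * t ∈ B ∧ t⁻¹ * d' * t ∈ B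

-- deps: ROOT C2_STARFIN
-- imports: Pool.Agent.P.MP_dba3d2_lc.C.LTb
def S_C2_EFIN : Prop := ∀ (Γ : HG) (a : Amb) (B : Subgroup (MM Γ a)) (c : MM Γ a)
  (k : ℚ →+ a.Z), GC0 B → c ∈ B → ¬ IsOfFinOrder c → WBr B (ev c k) (EP c) →
  FinRed (ET B c k) B B

-- deps: C2_RW3
-- imports: Pool.Agent.P.MP_dba3d2_lc.C.LTb
def S_C2_EEXT : Prop := ∀ (Γ : HG) (a : Amb) (B : Subgroup (MM Γ a)) (c : MM Γ a)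
  (k : ℚ →+ a.Z), WBr B (ev c k) (EP c) → ExtE B c k

-- deps: ELEM PERC C2_RW C2_RX C2_TOP C2_ELOC C2_EGEO C2_EEP C2_ESTAR C2_EFIN
-- imports: Pool.Agent.P.MP_dba3d2_lc.C.LTb
def S_C2_EXP0 : Prop := ∀ (Γ : HG) (a : Amb) (μ : a.K) (B : Subgroup (MM Γ a)) (c : MM Γ a)
  (k : ℚ →+ a.Z), ExpD μ B c k →
  TopOut μ B (ET B c k) ∧ AddNF (ET B c k) {g | g ∈ B ∨ g ∈ SE B c k}

end Pool.Agent.P.MP_dba3d2_lc
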