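import Pool.Agent.P.MP_dba3d2_lc.C.Iface
import Pool.Agent.P.MP_dba3d2_lc.C.IfaceL2
import Pool.Agent.P.MP_dba3d2_lc.C.LTb

/-! Step EXP of the stability project. -/

namespace Pool.Agent.P.MP_dba3d2_lc

open Filter

namespace Exp

variable {Γ : HG} {a : Amb} {B : Subgroup (MM Γ a)} {c x y : MM Γ a} {k : ℚ →+ a.Z}

theorem ipow_cj (x c : MM Γ a) (l : a.Z) : ipow (x⁻¹ * c * x) l = x⁻¹ * ipow c l * x := by
  simpa using ipow_conj x⁻¹ c l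

theorem et_le (hx : x ∈ B) (c : MM Γ a) (k : ℚ →+ a.Z) : ET B (x⁻¹ * c * x) k ≤ ET B c k := by
  refine sup_le le_sup_left ((Subgroup.closure_le _).2 (Set.range_subset_iff.2 fun q => ?_))
  have h : x ∈ ET B c k := (le_sup_left : B ≤ _) hx
  rw [ipow_cj]
  exact mul_mem (mul_mem (inv_mem h)
    ((le_sup_right : _ ≤ B ⊔ _) (Subgroup.subset_closure ⟨q, rfl⟩))) h

theorem et_eq (hx : x ∈ B) (c : MM Γ a) (k : ℚ →+ a.Z) : ET B (x⁻¹ * c * x) k = ET B c k :=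
  le_antisymm (et_le hx c k) (by simpa [mul_assoc] using et_le (inv_mem hx) (x⁻¹ * c * x) k)

theorem inE (h : InE (x⁻¹ * c * x) y) : InE c (x * y * x⁻¹) := by
  have e : (x⁻¹ * c * x) ^ Γ.e = x⁻¹ * c ^ Γ.e * x := by simpa using conj_pow (a := x⁻¹) (b := c)
  have k : x * y * x⁻¹ * c ^ Γ.e * (x * y * x⁻¹)⁻¹ =
      x * (y * (x⁻¹ * c ^ Γ.e * x) * y⁻¹) * x⁻¹ := by group
  rw [InE, e] at h
  rw [InE, k]
  exact h.imp (fun h => by rw [h]; group) fun h => by rw [h]; group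

theorem ext (hx : x ∈ B) (h : ExtE B (x⁻¹ * c * x) k) : ExtE B c k := by
  intro G _ θ0 ν h1 h2
  obtain ⟨θ, a1, a2⟩ := h G θ0 ((MulAut.conj (θ0 ⟨x, hx⟩)⁻¹).toMonoidHom.comp ν)
    (fun y q hy => by
      have := (h1 (⟨x, hx⟩ * y * ⟨x, hx⟩⁻¹) q (mem_Ep_conj'.1 hy)).map
        (MulAut.conj (θ0 ⟨x, hx⟩)⁻¹)
      simpa [mul_assoc] using this)
    fun y q hy hn => by
      have := h2 (⟨x, hx⟩ * y * ⟨x, hx⟩⁻¹) q (inE hy) (mt mem_Ep_conj'.2 hn)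
      simp only [MulEquiv.toMonoidHom_eq_coe, MonoidHom.comp_apply, MonoidHom.coe_coe,
        MulAut.conj_apply]
      rw [← this, map_mul, map_mul, map_inv]
      group
  refine ⟨θ.comp (Subgroup.inclusion (et_eq hx c k).ge), a1, fun q => ?_⟩
  have e := congrArg₂ (· * ·) (congrArg₂ (· * ·) (a1 ⟨x, hx⟩) (a2 q)) (congrArg Inv.inv (a1 ⟨x, hx⟩))
  simp only [← map_inv, ← map_mul] at e
  refine Eq.trans (congrArg θ (Subtype.ext ?_)) (e.trans ?_)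
  · show ipow c (k q) = x * ipow (x⁻¹ * c * x) (k q) * x⁻¹
    rw [ipow_cj]
    group
  · simp [mul_assoc]

end Exp

theorem p_EXP (hC2_EEP : S_C2_EEP) (hC2_EEXT : S_C2_EEXT) (hC2_EXP0 : S_C2_EXP0) :
    S_EXP := by
  intro Γ a μ B c k hμ hB hb hc hp hm hs hl
  obtain ⟨x, hx, -, hC⟩ := hB.cen1 hc hp.1
  have cj : ∀ f ∈ B, x * f * x⁻¹ ∈ B := fun f hf => mul_mem (mul_mem hx hf) (inv_mem hx)
  have e : ∀ f q, f * ipow (x⁻¹ * c * x) (k q) = x⁻¹ * (x * f * x⁻¹ * ipow c (k q)) * x :=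
    fun f q => by rw [Exp.ipow_cj]; group
  have D : ExpD μ B (x⁻¹ * c * x) k :=
    ⟨hμ, hB, hb, mul_mem (mul_mem (inv_mem hx) hc) hx, hp.conj' x, hC, by rwa [md_conj],
      fun q => Exp.ipow_cj x c (k q) ▸ mul_mem (mul_mem (inv_mem (hb hx)) (hs q)) (hb hx),
      fun q hq f hf h => by
        rw [e, md_conj]
        exact hl q hq _ (cj f hf) (mem_Ep_conj'.1 h)⟩
  obtain ⟨a1, a2⟩ := hC2_EXP0 Γ a μ B _ k D
  obtain ⟨b1, -, b3, b4⟩ := hC2_EEP Γ a μ B _ k D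
  rw [Exp.et_eq hx] at a1 a2 b3 b4
  refine ⟨a1, Exp.ext hx (hC2_EEXT Γ a B _ k b1), fun g hg => ?_,
    fun d hd h1 h2 => b3 d hd h1 fun y hy h => h2 _ (mul_mem hy (inv_mem hx)) ?_, fun f hf h => ?_⟩
  · obtain ⟨l, k1, k2⟩ := a2 g hg
    refine ⟨l, fun y hy => (k1 y hy).imp_right ?_, k2⟩
    rintro ⟨f, hf, h, q, -, rfl⟩
    exact ⟨x, hx, _, cj f hf, mem_Ep_conj'.1 h, hC, q, e f q⟩
  · rw [Cj, ← h]
    congr 1
    group
  · have hx' : x ∈ ET B c k := (le_sup_left : B ≤ _) hx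
    obtain ⟨f0, h0, q, h1⟩ := b4 (x⁻¹ * f * x) (mul_mem (mul_mem (inv_mem hx') hf) hx')
      (mem_Ep_conj'.2 (by simpa [mul_assoc] using h))
    rw [e] at h1
    exact ⟨_, cj f0 h0, q, mul_left_cancel (mul_right_cancel h1)⟩

end Pool.Agent.P.MP_dba3d2_lc
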