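import Pool.Agent.P.MP_dba3d2_lc.C.DefsE

/-! Interface, chapter C: the closure conditions of an adjunction at all scales. -/

namespace Pool.Agent.P.MP_dba3d2_lc

open Filter

-- deps: ELEM LINE PERC ROOT C_PROJ C_BRIDGE C_DISP
-- imports: Pool.Agent.P.MP_dba3d2_lc.C.TTb
def S_ADJ0 : Prop := ∀ (Γ : HG) (a : Amb) (B T : Subgroup (MM Γ a)), AdjD B T →
  GC0 T ∧ PerRed T B B

end Pool.Agent.P.MP_dba3d2_lc
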