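import Pool.Agent.P.MP_dba3d2_lc.C.SwA
import Pool.Agent.P.MP_dba3d2_lc.C.Exp
import Pool.Agent.P.MP_dba3d2_lc.C.IfaceE
import Pool.Agent.P.MP_dba3d2_lc.C.IfaceL
import Pool.Agent.P.MP_dba3d2_lc.C.C_pur

/-! Step EADJ of the stability project. -/

namespace Pool.Agent.P.MP_dba3d2_lc

open Filter

namespace EadjA

open SwA StarA

variable {Γ : HG} {a : Amb} {F : Bool → Subgroup (MM Γ a)} {u : List (Tg Γ a × MM Γ a)}
  {b b' c d f h x β : MM Γ a} {k : ℚ →+ a.Z} {l : List (MM Γ a × {q : ℚ // q ≠ 0})}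
  {e e' : Option (Tg Γ a × MM Γ a)}

/-- the hypotheses of the adjunction of exponents -/
structure ED (F : Bool → Subgroup (MM Γ a)) (c : MM Γ a) (k : ℚ →+ a.Z) : Prop where
  hy : Hy
  rw : S_C2_RW
  two : TwoF F
  pm : c ∈ PM F
  ef : Ep c ≤ EF F c
  new : ∀ q, q ≠ 0 → ipow c (k q) ∉ XF F none

/-- words in base syllables and new exponents -/
def EW (F : Bool → Subgroup (MM Γ a)) (c : MM Γ a) (k : ℚ →+ a.Z)
    (u : List (Tg Γ a × MM Γ a)) : Prop :=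
  ∀ s ∈ u, s.1 = .inl none ∨ s.1 = .inr c ∧ s.2 ∈ SE (XF F none) c k

theorem ED.se (D : ED F c k) (h : x ∈ SE (XF F none) c k) : x ∉ XF F none := by
  obtain ⟨f, f1, -, q, hq, rfl⟩ := h
  rw [mul_mem_cancel_left f1]
  exact D.new q hq

theorem EW.nz (h : EW F c k u) (D : ED F c k) : (idC F).Nz u :=
  fun s hs hm => (h s hs).resolve_right fun k => D.se k.2 hm

theorem ED.cj (D : ED F c k) (h : ¬ InE c x) : ¬ Cj x c c :=
  mt ((D.hy.el Γ a c D.pm.2.1.1).2.2.2.1 x).2 h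

/-- letters as entries of star words -/
def st (c : MM Γ a) (k : ℚ →+ a.Z) (l : List (MM Γ a × {q : ℚ // q ≠ 0})) :
    List (MM Γ a × MM Γ a × MM Γ a) := l.map fun s => (s.1, c, ev c k s.2)

theorem st_pv : pv (st c k l) = wval (ev c k) l := by simp [pv, st, wval, Function.comp_def]

theorem ED.stv (D : ED F c k) (h : WRed (XF F none) (EP c) l) :
    ∀ s ∈ st c k l, V (XF F none) s := by
  intro s hs
  obtain ⟨s, k1, rfl⟩ := List.mem_map.1 hs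
  exact ⟨h.1 s k1, D.pm.1, D.pm.2.1, ipow_mem_Ep c _, D.new _ s.2.2⟩

theorem ED.str (D : ED F c k) (h : WRed (XF F none) (EP c) l) : (st c k l).IsChain R :=
  (List.isChain_map _).2 (h.2.imp fun _ _ n => D.cj n)

theorem ED.wbr (D : ED F c k) : WBr (XF F none) (ev c k) (EP c) := fun l h n =>
  st_pv (c := c) (k := k) (l := l) ▸ D.hy.st Γ a _ _ D.two.gcm (by simpa [st] using n) (D.stv h) (D.str h)

theorem ED.str1 (D : ED F c k) (h : WRed (XF F none) (EP c) l)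
    (h0 : ∀ s ∈ l.head?, ¬ Cj s.1 c b) : ((x, b, f) :: st c k l).IsChain R :=
  List.IsChain.cons (D.str h) fun s hs => by
    rw [st, List.head?_map] at hs
    obtain ⟨s, k1, rfl⟩ := Option.mem_map.1 hs
    exact h0 s k1

theorem ED.red (D : ED F c k) (hh : h ∈ ET (XF F none) c k) :
    ∃ l, ∃ β ∈ XF F none, WRed (XF F none) (EP c) l ∧ h = wval (ev c k) l * β :=
  (D.rw _ _ _ _ _ (ews _ c k) h (ET_eq _ c k ▸ hh)).1

/-- absorbed letters -/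
def Ab (F : Bool → Subgroup (MM Γ a)) (c : MM Γ a) (k : ℚ →+ a.Z) (b f : MM Γ a) : Prop :=
  f = 1 ∨ ∃ x ∈ XF F none, ∃ q, Cj x c b ∧ f = (x * ev c k q * x⁻¹)⁻¹

theorem Ab.mem (h : Ab F c k b f) : f ∈ ET (XF F none) c k ∧ f ∈ Ep b := by
  rcases h with rfl | ⟨x, hx, q, j, rfl⟩
  · exact ⟨one_mem _, one_mem _⟩
  · have := le_ET _ c k hx
    exact ⟨inv_mem (mul_mem (mul_mem this (es_mem _ c k _)) (inv_mem this)),
      inv_mem (j.mem_Ep (ipow_mem_Ep c _))⟩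

theorem ED.enl (D : ED F c k) (h : WRed (XF F none) (EP c) l) (hβ : β ∈ XF F none) (b : MM Γ a) :
    ∃ f, Ab F c k b f ∧ ∃ l', ∃ β' ∈ XF F none, WRed (XF F none) (EP c) l' ∧
      f * (wval (ev c k) l * β) = wval (ev c k) l' * β' ∧ ∀ s ∈ l'.head?, ¬ Cj s.1 c b := by
  by_cases n : ∀ s ∈ l.head?, ¬ Cj s.1 c b
  · exact ⟨1, .inl rfl, l, β, hβ, h, one_mul _, n⟩
  rcases l with _ | ⟨s, l⟩
  · simp at n
  have j : Cj s.1 c b := by simpa using n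
  refine ⟨_, .inr ⟨s.1, h.mem, s.2, j, rfl⟩, ?_⟩
  rcases l with _ | ⟨s', l⟩
  · exact ⟨[], s.1 * β, mul_mem h.mem hβ, WRed.nil, by simp [mul_assoc], by simp⟩
  · refine ⟨(s.1 * s'.1, s'.2) :: l, β, hβ, h.tail.head (mul_mem h.mem h.tail.mem),
      by simp [mul_assoc], ?_⟩
    rintro _ ⟨⟩ j'
    exact D.cj h.np (by simpa using j.inv.mul j')

theorem ED.enr (D : ED F c k) (h : WRed (XF F none) (EP c) l) (hβ : β ∈ XF F none) (b : MM Γ a) :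
    ∃ f ∈ ET (XF F none) c k, f ∈ Ep b ∧ ∃ l' l'', l = l' ++ l'' ∧ ∃ β' ∈ XF F none,
      wval (ev c k) l * β * f = wval (ev c k) l' * β' ∧ (l' ≠ [] → ¬ Cj β' b c) := by
  by_cases n : l ≠ [] → ¬ Cj β b c
  · exact ⟨1, one_mem _, one_mem _, l, [], by simp, β, hβ, mul_one _, n⟩
  obtain ⟨n, j⟩ := Classical.not_imp.1 n
  rw [not_not] at j
  obtain ⟨l, s, rfl⟩ := l.eq_nil_or_concat'.resolve_left n
  have m := h.1 s (by simp)
  obtain ⟨k1, k2⟩ := Ab.mem (F := F) (k := k) (.inr ⟨β⁻¹, inv_mem hβ, s.2, j.inv, rfl⟩)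
  refine ⟨_, k1, k2, l, [s], rfl, s.1 * β, mul_mem m hβ, by simp [wval_append, mul_assoc],
    fun n j' => ?_⟩
  obtain ⟨s0, l, rfl⟩ := List.exists_cons_of_ne_nil n
  exact D.cj (h.ep_tail s (by simp)).2 (by simpa using j'.mul j.inv)

theorem ED.nrm (D : ED F c k) (h2 : EE F b' e') (hβ : β ∈ XF F none)
    (h : WRed (XF F none) (EP c) l) (h1 : EE F b e) (h3 : e ≠ none → ∀ s ∈ l.head?, ¬ Cj s.1 c b)
    (h4 : e' ≠ none → l ≠ [] → ¬ Cj β b' c) (h5 : e ≠ none → e' ≠ none → l = [] → ¬ Cj β b' b) :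
    ∃ u, SW F (xw e u e') ∧ EW F c k u ∧ ∃ f ∈ XF F none, ∃ f' ∈ XF F none, f ∈ Ep b ∧
      f' ∈ Ep b' ∧ (e = none → f = 1) ∧ (e' = none → f' = 1) ∧
      vl u = f * (wval (ev c k) l * β) * f' := by
  induction l generalizing b e with
  | nil =>
    obtain ⟨f, f1, f', f2, f3, f4, f5, f6, f7⟩ :=
      one D.hy D.two h1 h2 hβ fun n n' => h5 n n' rfl
    exact ⟨_, f7, by simp [EW], f, f1, f', f2, f3, f4, f5, f6, by simp⟩
  | cons s l ih =>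
    obtain ⟨u, u1, u2, g', g1, f', f2, g3, f4, -, f6, u3⟩ := ih (b := c) h.tail (.inr ⟨rfl, D.pm⟩)
      (fun _ s' hs => D.cj (h.ep_tail s' (List.mem_of_mem_head? hs)).2)
      (fun n _ => h4 n (by simp)) fun _ n _ => h4 n (by simp)
    obtain ⟨f, f1, g, g2, f3, g4, f5, -, f7⟩ :=
      one (b' := c) D.hy D.two h1 (.inr ⟨rfl, D.pm⟩) h.mem fun n _ => h3 n s rfl
    have m := SE.mul (ev_mem_SE (XF F none) c k s.2) (inv_mem g2) (inv_mem g4) (inv_mem g1)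
      (inv_mem g3)
    refine ⟨(.inl none, f * s.1 * g) :: (.inr c, g⁻¹ * ev c k s.2 * g'⁻¹) :: u, ?_,
      List.forall_mem_cons.2 ⟨.inl rfl, List.forall_mem_cons.2 ⟨.inr ⟨rfl, m⟩, u2⟩⟩, f, f1, f', f2,
      f3, f4, f5, f6, by simp [u3, mul_assoc]⟩
    have := SW.glue (u := e.toList ++ [(.inl none, f * s.1 * g)]) (v := u ++ e'.toList)
      f7 u1 (D.ef (SE.mem m).2)
    rw [List.append_assoc] at this
    rw [xw, List.append_assoc]
    exact this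

theorem ED.nf (D : ED F c k) (hh : h ∈ ET (XF F none) c k) (h1 : EE F b e) (h2 : EE F b' e')
    (hj : e ≠ none → e' ≠ none → ¬ Cj h b' b) :
    ∃ u, Nice F u ∧ EW F c k u ∧ (e ≠ none → NE b (vl u)⁻¹) ∧ (e' ≠ none → NE b' (vl u)) ∧
      ∃ f ∈ ET (XF F none) c k, ∃ f' ∈ ET (XF F none) c k, f ∈ Ep b ∧ f' ∈ Ep b' ∧
        (e = none → f = 1) ∧ (e' = none → f' = 1) ∧ vl u = f * h * f' := by
  obtain ⟨l, β, hβ, r, rfl⟩ := D.red hh
  obtain ⟨g, g1, g2, g3, l1, β1, m1, r1, e1, n1⟩ : ∃ g ∈ ET (XF F none) c k, g ∈ Ep b ∧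
      (e = none → g = 1) ∧ ∃ l', ∃ β' ∈ XF F none, WRed (XF F none) (EP c) l' ∧
      g * (wval (ev c k) l * β) = wval (ev c k) l' * β' ∧
      (e ≠ none → ∀ s ∈ l'.head?, ¬ Cj s.1 c b) := by
    by_cases n : e = none
    · exact ⟨1, one_mem _, one_mem _, fun _ => rfl, l, β, hβ, r, one_mul _, fun k => absurd n k⟩
    · obtain ⟨g, g1, l', β', k1, k2, k3, k4⟩ := D.enl r hβ b
      exact ⟨g, g1.mem.1, g1.mem.2, fun k => absurd k n, l', β', k1, k2, k3, fun _ => k4⟩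
  obtain ⟨g', g4, g5, g6, l2, l3, rfl, β2, m2, e2, n2⟩ : ∃ g ∈ ET (XF F none) c k, g ∈ Ep b' ∧
      (e' = none → g = 1) ∧ ∃ l' l'', l1 = l' ++ l'' ∧ ∃ β' ∈ XF F none,
      wval (ev c k) l1 * β1 * g = wval (ev c k) l' * β' ∧ (e' ≠ none → l' ≠ [] → ¬ Cj β' b' c) := by
    by_cases n : e' = none
    · exact ⟨1, one_mem _, one_mem _, fun _ => rfl, l1, [], by simp, β1, m1, mul_one _,
        fun k => absurd n k⟩
    · obtain ⟨g, g1, g2, l', l'', k1, β', k2, k3, k4⟩ := D.enr r1 m1 b'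
      exact ⟨g, g1, g2, fun k => absurd k n, l', l'', k1, β', k2, k3, fun _ => k4⟩
  rw [← e1] at e2
  obtain ⟨u, u1, u2, f, f1, f', f2, f3, f4, f5, f6, u3⟩ := D.nrm h2 m2 r1.left h1
    (fun n s hs => n1 n s (List.mem_head?_append_of_mem_head? hs)) n2 (by
      rintro n n' rfl j
      refine hj n n' ?_
      have := ((Cj.of_mem (inv_mem g2)).mul j).mul (Cj.of_mem (inv_mem g5))
      rw [wval_nil, one_mul] at e2
      simpa [← e2, mul_assoc] using this)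
  obtain ⟨k1, k2, k3⟩ := u1.geo D.hy D.two h1 h2 (u2.nz D)
  exact ⟨u, k1, u2, k2, k3, f * g, mul_mem (le_ET _ c k f1) g1, g' * f', mul_mem g4 (le_ET _ c k f2),
    mul_mem f3 g2, mul_mem g5 f4, fun n => by rw [f5 n, g3 n, one_mul],
    fun n => by rw [f6 n, g6 n, one_mul], by rw [u3, ← e2]; group⟩

theorem ED.rig (D : ED F c k) (hb : b ∈ XF F none) (hd : d ∈ XF F none) (pb : Prim b) (pd : Prim d)
    {w w' f' : MM Γ a} (hw : w ∈ ET (XF F none) c k) (hw' : w' ∈ ET (XF F none) c k)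
    (hf : f ∈ Ep b) (hf' : f' ∈ Ep d) (q : f * w' = w * f') (hj : ¬ Cj w d b) :
    f ∈ ET (XF F none) c k := by
  obtain ⟨l, β, hβ, r, e0⟩ := D.red hw
  obtain ⟨g, g1, l1, β1, m1, r1, e1, n1⟩ := D.enl r hβ b
  obtain ⟨g', g4, g5, l2, l3, rfl, β2, m2, e2, n2⟩ := D.enr r1 m1 d
  obtain ⟨l', β', hβ', r', e0'⟩ := D.red (inv_mem hw')
  obtain ⟨g2, g3, l4, β4, m4, r4, e4, n4⟩ := D.enl r' hβ' d
  rw [← e1, ← e0] at e2
  rw [← e0'] at e4
  by_cases a1 : (g * f)⁻¹ ∈ XF F none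
  · exact (mul_mem_cancel_left g1.mem.1).1 (inv_mem_iff.1 (le_ET _ c k a1))
  by_cases a2 : g'⁻¹ * f' * g2⁻¹ ∈ XF F none
  · have := le_ET _ c k a2
    rw [mul_mem_cancel_right (inv_mem g3.mem.1), mul_mem_cancel_left (inv_mem g4)] at this
    rw [eq_mul_inv_of_mul_eq q]
    exact mul_mem (mul_mem hw this) (inv_mem hw')
  refine (D.hy.st Γ a _ ((1, b, (g * f)⁻¹) :: st c k l2 ++ (β2, d, g'⁻¹ * f' * g2⁻¹) :: st c k l4)
    D.two.gcm (by simp) (List.forall_mem_append.2 ⟨List.forall_mem_cons.2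
      ⟨⟨one_mem _, hb, pb, inv_mem (mul_mem g1.mem.2 hf), a1⟩, D.stv r1.left⟩,
      List.forall_mem_cons.2 ⟨⟨m2, hd, pd,
        mul_mem (mul_mem (inv_mem g5) hf') (inv_mem g3.mem.2), a2⟩, D.stv r4⟩⟩)
    ((D.str1 r1.left fun s hs => n1 s (List.mem_head?_append_of_mem_head? hs)).append
      (D.str1 r4 n4) ?_) ?_).elim
  · rintro s hs _ ⟨⟩ j
    rcases l2.eq_nil_or_concat' with rfl | ⟨l2, s', rfl⟩
    · obtain ⟨⟩ : (1, b, (g * f)⁻¹) = s := by simpa [st] using hs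
      have := ((Cj.of_mem (inv_mem g1.mem.2)).mul j).mul (Cj.of_mem (inv_mem g5))
      rw [wval_nil, one_mul] at e2
      exact hj (by simpa [← e2, mul_assoc] using this)
    · obtain ⟨⟩ : (s'.1, c, ev c k s'.2) = s := by
        rw [st, List.map_append, ← List.cons_append, List.map_singleton, List.getLast?_concat] at hs
        exact Option.some.inj hs
      exact n2 (by simp) j
  · have e5 : pv ((1, b, (g * f)⁻¹) :: st c k l2 ++ (β2, d, g'⁻¹ * f' * g2⁻¹) :: st c k l4) =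
        (g * f)⁻¹ * (pv (st c k l2) * β2) * (g'⁻¹ * f' * g2⁻¹) * (pv (st c k l4) * β4) * β4⁻¹ := by
      simp [pv, mul_assoc]
    change pv _ ∈ _
    rw [e5, st_pv, st_pv, ← e2, ← e4, show (g * f)⁻¹ * (g * w * g') * (g'⁻¹ * f' * g2⁻¹) *
      (g2 * w'⁻¹) = f⁻¹ * (w * f') * w'⁻¹ by group, ← q, inv_mul_cancel_left, mul_inv_cancel,
      one_mul]
    exact inv_mem m4

theorem ED.eet (D : ED F c k) (hd : d ∈ XF F none) (pd : Prim d) (hf : f ∈ ET (XF F none) c k)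
    (he : f ∈ Ep d) : f ∈ XF F none ∨
      ∃ x ∈ XF F none, Cj x c d ∧ x⁻¹ * f * x ∈ SE (XF F none) c k := by
  obtain ⟨l, β, hβ, r, e0⟩ := D.red hf
  obtain ⟨g, g1, l1, β1, m1, r1, e1, n1⟩ := D.enl r hβ d
  rw [← e0] at e1
  have m : g * f ∈ XF F none := by
    by_contra n
    refine D.hy.st Γ a _ ((1, d, (g * f)⁻¹) :: st c k l1) D.two.gcm (by simp)
      (List.forall_mem_cons.2 ⟨⟨one_mem _, hd, pd, inv_mem (mul_mem g1.mem.2 he),
        mt inv_mem_iff.1 n⟩, D.stv r1⟩) (D.str1 r1 n1) ?_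
    rw [List.map_cons, List.prod_cons, one_mul]
    change (g * f)⁻¹ * pv _ ∈ _
    rw [st_pv, e1, mul_inv_rev, inv_mul_cancel_right]
    exact inv_mem m1
  have m' := mul_mem g1.mem.2 he
  rcases g1 with rfl | ⟨x, hx, q, j, rfl⟩
  · exact .inl (by simpa using m)
  · refine .inr ⟨x, hx, j, ?_⟩
    have := SE.mul (ev_mem_SE (XF F none) c k q) (one_mem _) (one_mem _)
      (mul_mem (mul_mem (inv_mem hx) m) hx) (j.mem_Ep' m')
    simpa [mul_assoc] using this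

theorem ED.pur (D : ED F c k) (hd : d ∈ XF F none) (pd : Prim d) (hf : f ∈ ET (XF F none) c k)
    (he : f ∈ Ep d) {n : ℕ} (hn : 0 < n) : C_purA.Pu (ET (XF F none) c k) d f n := by
  rcases D.eet hd pd hf he with m | ⟨x, hx, j, f0, f1, f2, q, -, e⟩
  · obtain ⟨f', k1, k2⟩ := D.two.gcm.pur d hd pd f m he n hn
    exact ⟨f', le_ET _ c k k1, k2⟩
  refine C_purA.Pu.conj (le_ET _ c k hx) ?_
  obtain ⟨f', k1, k2, r, k3⟩ := D.two.gcm.pur _ (mul_mem (mul_mem (inv_mem hx) hd) hx) (pd.conj' x)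
    f0 f1 (j.ep ▸ f2) n hn
  refine ⟨f' * ipow c (k (q / n)), mul_mem (le_ET _ c k k1) (es_mem _ c k _),
    mul_mem k2 (j.ep ▸ ipow_mem_Ep c _), r, ?_⟩
  have c1 := es_comm (j.ep ▸ pow_mem (self_mem_Ep (x⁻¹ * d * x)) r) k q
  rw [e, (es_comm (j.ep ▸ k2) k _).mul_pow, es_pow,
    mul_div_cancel₀ _ (Nat.cast_ne_zero.2 hn.ne'), mul_assoc (f' ^ n), ← c1.eq,
    show (f0 * ipow c (k q))⁻¹ * (f' ^ n * ((x⁻¹ * d * x) ^ r * ipow c (k q))) =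
      (ipow c (k q))⁻¹ * (f0⁻¹ * (f' ^ n * (x⁻¹ * d * x) ^ r)) * ipow c (k q) by group,
    finOrder_conj']
  exact k3

theorem ED.cyc (D : ED F c k) (hh : h ∈ ET (XF F none) c k) (fi : ¬ IsOfFinOrder h) :
    ∃ z ∈ ET (XF F none) c k, (∃ b ∈ XF F none, Prim b ∧ z⁻¹ * h * z ∈ Ep b) ∨
      Cen (z⁻¹ * h * z) := by
  obtain ⟨g, hg, e⟩ := (D.rw _ _ _ _ _ (ews _ c k) h (ET_eq _ c k ▸ hh)).2
  rw [← ET_eq] at hg
  have fi' := mt (finOrder_conj' g h).1 fi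
  rcases e with e | ⟨l, n, e, r⟩ | ⟨b, -, s, e, j⟩
  · obtain ⟨b, b1, b2, b3⟩ := (D.hy.ro Γ a _ D.two.gcm).1 _ e fi'
    exact ⟨g, hg, .inl ⟨b, b1, b2, b3 ▸ self_mem_Ep _⟩⟩
  swap
  · exact ⟨g, hg, .inl ⟨c, D.pm.1, D.pm.2.1, InE.mem D.hy.el D.pm.2.1.1
      (e ▸ InE.mul j (InE.of_mem (ipow_mem_Ep c _))) fi'⟩⟩
  have al : ∀ s ∈ l, ¬ Cj s.1 c c := fun s hs => by
    obtain ⟨s0, l, rfl⟩ := List.exists_cons_of_ne_nil n
    exact D.cj (WRed.ep_tail r s (by simp [List.mem_cons.1 hs])).2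
  obtain ⟨l, s, rfl⟩ := l.eq_nil_or_concat'.resolve_left n
  have E : EE F c (some (.inr c, 1)) := .inr ⟨rfl, D.pm⟩
  obtain ⟨u, u1, u2, f, f1, f', f2, f3, f4, -, -, u3⟩ := D.nrm E (r.1 s (by simp)) r.left.left.left E
    (fun _ s' hs => al s' (by simp [List.mem_of_mem_head? hs])) (fun _ _ => al s (by simp))
    fun _ _ _ => al s (by simp)
  have m := SE.mul (ev_mem_SE (XF F none) c k s.2) (inv_mem f2) (inv_mem f4) (inv_mem f1)
    (inv_mem f3)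
  have m' := D.ef (SE.mem m).2
  obtain ⟨W, hW⟩ : ∃ W, W = u ++ [(.inr c, f'⁻¹ * ev c k s.2 * f⁻¹)] := ⟨_, rfl⟩
  have s1 : SW F [(.inr c, 1)] := u1.sub ⟨[], u ++ [(.inr c, 1)], by simp⟩
  have s2 : SW F (W ++ W) := by
    simpa [hW] using SW.glue (x := 1) (u1.sub ⟨[(.inr c, 1)], [], by simp⟩)
      (SW.glue (u := (.inr c, 1) :: u) u1 s1 m') m'
  have s3 : EW F c k W :=
    hW ▸ List.forall_mem_append.2 ⟨u2, List.forall_mem_singleton.2 (.inr ⟨rfl, m⟩)⟩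
  have N := s2.nice D.hy D.two (EW.nz (List.forall_mem_append.2 ⟨s3, s3⟩) D)
  have ev : (g * f⁻¹)⁻¹ * h * (g * f⁻¹) = vl W := by
    rw [show (g * f⁻¹)⁻¹ * h * (g * f⁻¹) = f * (g⁻¹ * h * g) * f⁻¹ by group, e]
    simp [hW, u3, wval_append, mul_assoc]
  refine ⟨g * f⁻¹, mul_mem hg (inv_mem (le_ET _ c k f1)), .inr ?_⟩
  have fi2 := mt (finOrder_conj' (g * f⁻¹) h).1 fi
  rw [ev] at fi2 ⊢
  have l1 : Ls (ln (vl W)) ((idC F).sl W) := Ls.of_le (Cv.ln_vl_le (C := idC F))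
  refine ls_of_scale (one_le_md' fi2) fun hb hl => ?_
  have hν := hb.of_ls l1
  have G := N.geo _ hν ⟨2, by rw [Cv.sl_append]; push_cast; linarith⟩
  rw [Cv.vs_append] at G
  have l2 : Ls ((idC F).sl W) (ln (vl W)) :=
    (Ls.refl' _).of_le_add (Cv.geo_iff.1 G.left) hν.pos 1 (by simp)
  have := G.md hν (by rwa [idC_prod])
  rw [idC_prod] at this
  exact hl.not_ls hb.pos (l1.trans' this)

theorem ED.adj (D : ED F c k) (hA : S_C_ARC) : AdjD (XF F none) (ET (XF F none) c k) := by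
  refine ⟨D.two.gcm, le_ET _ c k, fun μ hμ h hh hl => ?_,
    fun b hb d hd pb _ pd _ w hw w' hw' f hf f' hf' => D.rig hb hd pb pd hw hw' hf hf',
    fun γ => D.cyc, fun b hb p1 p2 h hh => ?_, fun b hb b' hb' p1 p2 p3 p4 h hh hj => ?_,
    fun d hd pd f hf he n hn => D.pur hd pd hf he hn⟩
  · obtain ⟨u, u1, u2, -, -, f, -, f', -, -, -, f5, f6, u3⟩ :=
      D.nf (b := 1) (b' := 1) hh (.inl rfl) (.inl rfl) (by simp)
    obtain rfl : vl u = h := by simpa [f5, f6] using u3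
    refine ⟨_, idC_prod, u1.geo' hμ hl, fun x hx => ?_⟩
    obtain ⟨⟨t, y⟩, hs, rfl⟩ := List.mem_map.1 hx
    have o := u1.wd _ hs
    have ly : Ls (ln y) μ := (u1.ls hμ hl).mono_left (Cv.ln_le_sl hs)
    rcases u2 _ hs with rfl | ⟨rfl, m⟩
    · exact ⟨le_ET _ c k o.2, 1, one_mem _, .inl ⟨y, o.2, ly, on_left hμ.pos.le _ _,
        by simpa using on_right hμ.pos.le _ _⟩⟩
    · refine ⟨(SE.mem m).1, 1, one_mem _, .inr fun _ => ⟨_, D.pm.1, D.pm.2.1, ?_⟩⟩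
      simpa [Arc] using hA Γ a F D.two μ _ y 1 y hμ o.1 o.2 (fun _ _ => D.se m) ly
        (on_left hμ.pos.le _ _) (on_right hμ.pos.le _ _)
  · obtain ⟨u, -, -, -, u2, f, -, f', f2, -, f4, f5, -, u3⟩ :=
      D.nf (b := 1) hh (.inl rfl) (.inr ⟨rfl, hb, p1, p2⟩) (by simp)
    exact ⟨f', f2, f4, by simpa [u3, f5] using u2⟩
  · obtain ⟨u, -, -, u1, u2, f, f1, f', f2, f3, f4, -, -, u3⟩ :=
      D.nf hh (.inr ⟨rfl, hb, p1, p2⟩) (.inr ⟨rfl, hb', p3, p4⟩) fun _ _ => hj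
    exact ⟨f, f1, f', f2, f3, f4, u3 ▸ u1 (by simp), u3 ▸ u2 (by simp)⟩

theorem ED.anf (D : ED F c k) :
    AddNF (ET (XF F none) c k) {g | g ∈ XF F none ∨ g ∈ SE (XF F none) c k} := by
  intro h hh
  by_cases hb : Big (ln h)
  · obtain ⟨u, u1, u2, -, -, f, -, f', -, -, -, f5, f6, u3⟩ :=
      D.nf (b := 1) (b' := 1) hh (.inl rfl) (.inl rfl) (by simp)
    obtain rfl : vl u = h := by simpa [f5, f6] using u3
    refine ⟨_, fun x hx => ?_, idC_prod, fun _ => Cv.geo_iff.1 (u1.geo' hb (Ls.refl' _)),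
      fun n => absurd hb n⟩
    obtain ⟨⟨t, y⟩, hs, rfl⟩ := List.mem_map.1 hx
    rcases u2 _ hs with rfl | ⟨rfl, m⟩
    exacts [.inl (u1.wd _ hs).2, .inr m]
  · exact ⟨[h], by simpa using .inl (std_le_M D.two hb), by simp, fun n => absurd n hb,
      fun _ => rfl⟩

end EadjA

open EadjA in
theorem p_EADJ (hELEM : S_ELEM) (hLINE : S_LINE) (hROOT : S_ROOT) (hNORM : S_NORM) (hCVX : S_CVX) (hSTAR : S_STAR) (hADJ0 : S_ADJ0) (hC_J0 : S_C_J0) (hC_JS0 : S_C_JS0) (hC_PATHW : S_C_PATHW) (hC_LEFT : S_C_LEFT) (hC_ARC : S_C_ARC) (hC2_RW : S_C2_RW) (hC2_EFIN : S_C2_EFIN) (hC2_EEXT : S_C2_EEXT) :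
    S_EADJ := by
  intro Γ a B c k hB hc hp hn
  obtain ⟨x, hx, -, hC⟩ := hB.cen1 hc hp.1
  have cj : ∀ f ∈ B, x * f * x⁻¹ ∈ B := fun f hf => mul_mem (mul_mem hx hf) (inv_mem hx)
  have m : x⁻¹ * c * x ∈ B := mul_mem (mul_mem (inv_mem hx) hc) hx
  have D : ED (StarA.FT B) (x⁻¹ * c * x) k :=
    ⟨⟨hELEM, hLINE, hROOT, hNORM, hSTAR, hC_J0, hC_JS0, hC_PATHW, hC_LEFT⟩, hC2_RW,
      StarA.two hCVX hNORM hB, ⟨StarA.xf.ge m, hp.conj' x, hC⟩, (StarA.ef _).ge, fun q hq => by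
        rw [StarA.xf, Exp.ipow_cj, mul_mem_cancel_right hx, mul_mem_cancel_left (inv_mem hx)]
        exact hn q hq⟩
  have a1 := (hADJ0 Γ a _ _ (D.adj hC_ARC)).1
  have a2 := D.anf
  have a3 := D.wbr
  rw [StarA.xf] at a1 a2 a3
  have a4 := hC2_EFIN Γ a B _ k hB m (hp.conj' x).1 a3
  rw [Exp.et_eq hx] at a1 a2 a4
  refine ⟨a1, a4, Exp.ext hx (hC2_EEXT Γ a B _ k a3), fun g hg => ?_⟩
  obtain ⟨l, k1, k2⟩ := a2 g hg
  refine ⟨l, fun y hy => (k1 y hy).imp_right ?_, k2⟩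
  rintro ⟨f, hf, h, q, -, rfl⟩
  exact ⟨x, hx, _, cj f hf, mem_Ep_conj'.1 h, hC, q, by rw [Exp.ipow_cj]; group⟩

end Pool.Agent.P.MP_dba3d2_lc
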