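import Pool.Agent.P.MP_dba3d2_lc.C.Iface
import Pool.Agent.P.MP_dba3d2_lc.A.Iface
import Pool.Agent.P.MP_dba3d2_lc.B.Sc

/-! Step GISO of the stability project. -/

namespace Pool.Agent.P.MP_dba3d2_lc

open Filter

namespace Giso

variable {Γ : HG} {a b : Amb}

theorem ep {H : Subgroup (MM Γ a)} (θ : H →* MM Γ b) (hθ : Function.Injective θ) (x c : H) :
    θ x ∈ Ep (θ c) ↔ (x : MM Γ a) ∈ Ep (c : MM Γ a) := by
  rw [mem_Ep, mem_Ep, ← map_pow, ← Subgroup.coe_pow]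
  exact ⟨fun h => (h.of_map hθ).map H.subtype,
    fun h => (show Commute x (c ^ Γ.e) from Subtype.ext h).map θ⟩

theorem fin {H : Subgroup (MM Γ a)} (θ : H →* MM Γ b) (hθ : Function.Injective θ) (c : H) :
    IsOfFinOrder (θ c) ↔ IsOfFinOrder (c : MM Γ a) :=
  hθ.isOfFinOrder_iff.trans H.subtype_injective.isOfFinOrder_iff.symm

/-- the inverse on the range -/
noncomputable def inv {H : Subgroup (MM Γ a)} (θ : H →* MM Γ b) (hθ : Function.Injective θ) :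
    θ.range →* MM Γ a := H.subtype.comp (MonoidHom.ofInjective hθ).symm.toMonoidHom

theorem inv_eq {H : Subgroup (MM Γ a)} (θ : H →* MM Γ b) (hθ : Function.Injective θ) (x : H) :
    inv θ hθ ⟨θ x, x, rfl⟩ = x :=
  congrArg Subtype.val ((MonoidHom.ofInjective hθ).symm_apply_apply x)

theorem ind {G : Type} [Group G] {H W : Subgroup G} (P : ↥(H ⊔ W) → Prop) (h1 : P 1)
    (hm : ∀ x y, P x → P y → P (x * y))
    (h0 : ∀ x : H, P ⟨x, (le_sup_left : H ≤ H ⊔ W) x.2⟩)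
    (h2 : ∀ y : W, P ⟨y, (le_sup_right : W ≤ H ⊔ W) y.2⟩) (t : ↥(H ⊔ W)) : P t := by
  obtain ⟨t, ht⟩ := t
  have e : H ⊔ W = ⨆ i : Bool, bif i then H else W := by rw [iSup_bool_eq]; rfl
  have k : ∀ t (h : t ∈ ⨆ i : Bool, bif i then H else W), P ⟨t, e ▸ h⟩ := fun t h => by
    induction h using Subgroup.iSup_induction' with
    | hp i x hx => cases i; exacts [h2 ⟨x, hx⟩, h0 ⟨x, hx⟩]
    | h1 => exact h1
    | hmul x y _ _ p q => exact hm _ _ p q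
  exact k t (e ▸ ht)

end Giso

open Giso in
theorem p_GISO (hELEM : S_ELEM) (hGRAFT : S_GRAFT) :
    S_GISO := by
  intro Γ a b H W θ0 θ1 hH hW S hH' hW' S' i0 i1 hc _
  obtain ⟨θ, t0, t1⟩ := (hGRAFT Γ a H W hH hW S).1.ext (MM Γ b) θ0 θ1 (fun x y e => (hc x y).1 e)
    fun c m n x y hx hy => by
      have e : θ0 ⟨c, m.1⟩ = θ1 ⟨c, m.2⟩ := (hc _ _).1 rfl
      exact (hELEM Γ b (θ0 ⟨c, m.1⟩) (mt (fin θ0 i0 _).1 n)).2.2.2.2.2.2.2.1 _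
        ((ep θ0 i0 x _).2 hx) _ (e ▸ (ep θ1 i1 y _).2 hy)
  obtain ⟨φ, s0, s1⟩ := (hGRAFT Γ b _ _ hH' hW' S').1.ext (MM Γ a) (inv θ0 i0) (inv θ1 i1)
    (by
      rintro ⟨_, x, rfl⟩ ⟨_, y, rfl⟩ e
      rw [inv_eq, inv_eq]
      exact (hc x y).2 e)
    (by
      rintro _ ⟨⟨c, rfl⟩, c', e⟩ n ⟨_, x, rfl⟩ ⟨_, y, rfl⟩ hx hy
      rw [inv_eq, inv_eq]
      have e' : (c : MM Γ a) = c' := (hc c c').2 e.symm
      refine (hELEM Γ a c (mt (fin θ0 i0 c).2 n)).2.2.2.2.2.2.2.1 _ ((ep θ0 i0 x c).1 hx) _ ?_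
      rw [e']
      exact (ep θ1 i1 y c').1 (e ▸ hy))
  have k : ∀ t, ∃ h : θ t ∈ θ0.range ⊔ θ1.range, φ ⟨θ t, h⟩ = t := by
    refine ind _ ⟨by rw [map_one]; exact one_mem _, ?_⟩ ?_ (fun x => ?_) fun y => ?_
    · simp only [map_one]
      exact map_one φ
    · rintro x y ⟨p, p'⟩ ⟨q, q'⟩
      refine ⟨by rw [map_mul]; exact mul_mem p q, ?_⟩
      simp only [map_mul]
      rw [Subgroup.coe_mul, ← p', ← q']
      exact map_mul φ ⟨_, p⟩ ⟨_, q⟩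
    · simp only [t0]
      exact ⟨Subgroup.mem_sup_left ⟨x, rfl⟩, (s0 ⟨θ0 x, x, rfl⟩).trans (inv_eq θ0 i0 x)⟩
    · simp only [t1]
      exact ⟨Subgroup.mem_sup_right ⟨y, rfl⟩, (s1 ⟨θ1 y, y, rfl⟩).trans (inv_eq θ1 i1 y)⟩
  refine ⟨θ, fun x y e => Subtype.ext ?_, le_antisymm ?_ (sup_le ?_ ?_), t0, t1⟩
  · obtain ⟨p, p'⟩ := k x
    obtain ⟨q, q'⟩ := k y
    rw [← p', ← q']
    exact congrArg φ (Subtype.ext e)
  · rintro _ ⟨t, rfl⟩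
    exact (k t).1
  · rintro _ ⟨x, rfl⟩
    exact ⟨_, t0 x⟩
  · rintro _ ⟨y, rfl⟩
    exact ⟨_, t1 y⟩

end Pool.Agent.P.MP_dba3d2_lc
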