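import Pool.Agent.P.MP_dba3d2_lc.C.Iface
import Pool.Agent.P.MP_dba3d2_lc.C.IfaceT
import Pool.Agent.P.MP_dba3d2_lc.C.LTb

/-! Step GRAFT of the stability project. -/

namespace Pool.Agent.P.MP_dba3d2_lc

open Filter

namespace Graft

variable {Γ : HG} {a : Amb} {H W M : Subgroup (MM Γ a)} {h w y : MM Γ a}

theorem pos (hn : h ∉ W) : 0 < ln h :=
  one_pos.trans_le (one_le_ln fun e => hn (e ▸ W.one_mem))

theorem split (S : Sep H W) {ν : a.K} (h0 : 0 ≤ ν) : ∀ l : List (MM Γ a),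
    (∀ g ∈ l, Ls (ln g) ν ∧ (g ∈ H ∨ g ∈ W ∨ ∃ x ∈ H, ∃ y ∈ W, g = x * y)) →
    ∃ l' : List (MM Γ a), (∀ g ∈ l', g ∈ H ∨ g ∈ W) ∧ l'.prod = l.prod ∧
      Ll ((l'.map ln).sum - (l.map ln).sum) ν
  | [], _ => ⟨[], by simp, rfl, by simpa using Ll.zero h0⟩
  | g :: l, hl => by
    obtain ⟨l', h1, h2, h3⟩ := split S h0 l fun x hx => hl x (List.mem_cons_of_mem _ hx)
    obtain ⟨b, e⟩ := hl g List.mem_cons_self
    by_cases c : g ∈ H ∨ g ∈ W
    · exact ⟨g :: l', List.forall_mem_cons.2 ⟨c, h1⟩, by simp [h2], by simpa using h3⟩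
    obtain ⟨x, hx, y, hy, rfl⟩ := (e.resolve_left fun e => c (Or.inl e)).resolve_left
      fun e => c (Or.inr e)
    have hn : x ∉ W := fun e => c (Or.inr (mul_mem e hy))
    have s := S x hx hn y hy
    have t : ln x ≤ ln (x * y) + ln y := by simpa using ln_mul_le (x * y) y⁻¹
    have u : Ls (ln x) (ln (x * y)) :=
      (Ls.refl' _).of_le_add s (pos hn) 1 (by simpa using t)
    refine ⟨x :: y :: l', List.forall_mem_cons.2 ⟨Or.inl hx, List.forall_mem_cons.2
      ⟨Or.inr hy, h1⟩⟩, by simp [h2, mul_assoc], ?_⟩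
    refine ((s.ls_right (u.trans' b) h0).two.add h3).mono_left ?_
    simp only [List.map_cons, List.sum_cons]
    linarith

end Graft

open Graft in
theorem p_GRAFT (hTWO : S_TWO) (hC_GRTW : S_C_GRTW) :
    S_GRAFT := by
  intro Γ a H W hH hW S
  have T := hC_GRTW Γ a H W hH hW S
  have O : TwoOut H W := hTWO Γ a _ T
  refine ⟨O, fun g hg => ?_⟩
  by_cases b : Big (ln g)
  · obtain ⟨l, h1, h2, h3, -⟩ := O.nf g hg
    have s : Ls (l.map ln).sum (ln g) := by
      have := ((h3 b).ls).add (Ls.refl' (ln g))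
      rwa [sub_add_cancel] at this
    obtain ⟨l', a1, a2, a3⟩ := split S (ln_nonneg g) l fun x hx => ⟨Ls.mono_left
      (List.single_le_sum (by simp [ln_nonneg]) _ (List.mem_map_of_mem hx)) s, by
        rcases h1 x hx with e | e | ⟨c, -, -, -, u, hu, v, hv, -, -, e⟩
        exacts [Or.inl e, Or.inr (Or.inl e), Or.inr (Or.inr ⟨u, hu, v, hv, e⟩)]⟩
    exact ⟨l', a1, a2.trans h2, fun _ => (a3.add (h3 b)).mono_left (by linarith),
      fun n => absurd b n⟩
  · exact ⟨[g], by simpa using Or.inl (hH.of_not_big b), by simp, fun n => absurd n b, fun _ => rfl⟩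

end Pool.Agent.P.MP_dba3d2_lc
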