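import Pool.Agent.P.MP_dba3d2_lc.A.Defs2

/-! Interface, chapter C: combination theorems. -/

namespace Pool.Agent.P.MP_dba3d2_lc

open Filter

-- deps: C_EMEM C_EXT2 C_FINP C_NFE C_G20S C_ANC C_CEN C_EX C_E12 C_PUR C_G2
-- imports: Pool.Agent.P.MP_dba3d2_lc.C.TTb
def S_TWO : Prop := ∀ (Γ : HG) (a : Amb) (F : Bool → Subgroup (MM Γ a)), TwoF F →
  TwoOut (F false) (F true)

-- deps: TWO C_GRTW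
def S_GRAFT : Prop := ∀ (Γ : HG) (a : Amb) (H W : Subgroup (MM Γ a)), GC0 H → GC0 W → Sep H W →
  TwoOut H W ∧ AddNF (H ⊔ W) {g | g ∈ H ∨ g ∈ W}

-- deps: ELEM GRAFT
-- imports: Pool.Agent.P.MP_dba3d2_lc.B.Axis2
def S_GISO : Prop := ∀ (Γ : HG) (a b : Amb) (H W : Subgroup (MM Γ a)) (θ0 : H →* MM Γ b)
  (θ1 : W →* MM Γ b), GC0 H → GC0 W → Sep H W → GC0 θ0.range → GC0 θ1.range →
  Sep θ0.range θ1.range → Function.Injective θ0 → Function.Injective θ1 →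
  (∀ (x : H) (y : W), (x : MM Γ a) = y ↔ θ0 x = θ1 y) →
  (∀ x : H, θ0 x ∈ θ1.range → (x : MM Γ a) ∈ W) →
  ∃ θ : ↥(H ⊔ W) →* MM Γ b, Function.Injective θ ∧ θ.range = θ0.range ⊔ θ1.range ∧
    (∀ x : H, θ ⟨x, (le_sup_left : H ≤ H ⊔ W) x.2⟩ = θ0 x) ∧
    ∀ y : W, θ ⟨y, (le_sup_right : W ≤ H ⊔ W) y.2⟩ = θ1 y

-- deps: C2_RX C2_TOP C2_HST C2_HFIN C2_HEXT C2_LGEO C2_LNF
-- imports: Pool.Agent.P.MP_dba3d2_lc.C.LTb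
def S_LET : Prop := ∀ (Γ : HG) (a : Amb) (μ : a.K) (B : Subgroup (MM Γ a)) (r : ℕ)
  (K : Fin r → Subgroup Γ.G) (u : Fin r → MM Γ a), Big μ → GC0 B → B ≤ ball Γ μ →
  Letters μ B K u →
  TopOut μ B (B ⊔ Subgroup.closure (Set.range u)) ∧ ExtL B u ∧
  AddNF (B ⊔ Subgroup.closure (Set.range u)) {g | g ∈ B ∨ ∃ i, g = u i ∨ g = (u i)⁻¹} ∧
  (∀ i, ∀ x ∈ B, (u i)⁻¹ * x * u i ∈ B → x ∈ (K i).map (cst Γ a)) ∧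
  ∀ c ∈ B, Prim c → ∀ f ∈ B ⊔ Subgroup.closure (Set.range u), f ∈ Ep c → f ∈ B

-- deps: ELEM PERC ROOT C2_RW C2_RX C2_TOP C2_HST C2_HFIN C2_HEXT C2_PJN C2_PGEO
-- imports: Pool.Agent.P.MP_dba3d2_lc.C.LTb
def S_PT : Prop := ∀ (Γ : HG) (a : Amb) (μ : a.K) (B : Subgroup (MM Γ a)) (p h : MM Γ a),
  Big μ → GC0 B → B ≤ ball Γ μ → h ∈ B → On μ p 1 h → (∀ x ∈ B, Ls μ (ds p x)) →
  (∀ x ∈ B, Ll (ds p (x * p)) μ → p⁻¹ * x * p ∈ std Γ a ∧ IsOfFinOrder x) →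
  TopOut μ B (B ⊔ Subgroup.closure (Set.range fun _ : Fin 1 => p)) ∧ ExtL B (fun _ : Fin 1 => p) ∧
  (∀ x ∈ B, p⁻¹ * x * p ∈ B → Ll (ds p (x * p)) μ) ∧
  ∀ c ∈ B, Prim c → ∀ f ∈ B ⊔ Subgroup.closure (Set.range fun _ : Fin 1 => p), f ∈ Ep c → f ∈ B

-- deps: C2_EEP C2_EEXT C2_EXP0
-- imports: Pool.Agent.P.MP_dba3d2_lc.C.LTb
def S_EXP : Prop := ∀ (Γ : HG) (a : Amb) (μ : a.K) (B : Subgroup (MM Γ a)) (c : MM Γ a)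
  (k : ℚ →+ a.Z), Big μ → GC0 B → B ≤ ball Γ μ → c ∈ B → Prim c → Ll (md c) μ →
  (∀ q, ipow c (k q) ∈ ball Γ μ) →
  (∀ q, q ≠ 0 → ∀ f ∈ B, f ∈ Ep c → Ls μ (md (f * ipow c (k q)))) →
  TopOut μ B (B ⊔ Subgroup.closure (Set.range fun q => ipow c (k q))) ∧ ExtE B c k ∧
  AddNF (B ⊔ Subgroup.closure (Set.range fun q => ipow c (k q)))
    {g | g ∈ B ∨ ∃ x ∈ B, ∃ f ∈ B, f ∈ Ep c ∧ Cen (x⁻¹ * c * x) ∧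
      ∃ q, g = x⁻¹ * (f * ipow c (k q)) * x} ∧
  (∀ d ∈ B, Prim d → (∀ x ∈ B, ¬ Cj x c d) →
    ∀ f ∈ B ⊔ Subgroup.closure (Set.range fun q => ipow c (k q)), f ∈ Ep d → f ∈ B) ∧
  ∀ f ∈ B ⊔ Subgroup.closure (Set.range fun q => ipow c (k q)), f ∈ Ep c →
    ∃ f0 ∈ B, ∃ q, f = f0 * ipow c (k q)

end Pool.Agent.P.MP_dba3d2_lc
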