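import Pool.Agent.P.MP_dba3d2_lc.C.DefsP

/-! Interface, chapter C: adjunctions at all scales. -/

namespace Pool.Agent.P.MP_dba3d2_lc

open Filter

-- deps: CVX NORM C_AM1 C_UPN
def S_STAR : Prop := ∀ (Γ : HG) (a : Amb) (H : Subgroup (MM Γ a))
  (l : List (MM Γ a × MM Γ a × MM Γ a)), GC0 H → l ≠ [] →
  (∀ s ∈ l, s.1 ∈ H ∧ s.2.1 ∈ H ∧ Prim s.2.1 ∧ s.2.2 ∈ Ep s.2.1 ∧ s.2.2 ∉ H) →
  l.IsChain (fun s s' => ¬ Cj s'.1 s'.2.1 s.2.1) → (l.map fun s => s.1 * s.2.2).prod ∉ H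

-- deps: ELEM LINE ROOT NORM CVX STAR ADJ0 C_J0 C_JS0 C_PATHW C_LEFT C_ARC C2_RW C2_EFIN C2_EEXT
def S_EADJ : Prop := ∀ (Γ : HG) (a : Amb) (B : Subgroup (MM Γ a)) (c : MM Γ a)
  (k : ℚ →+ a.Z), GC0 B → c ∈ B → Prim c → (∀ q, q ≠ 0 → ipow c (k q) ∉ B) →
  let T := B ⊔ Subgroup.closure (Set.range fun q => ipow c (k q))
  GC0 T ∧ FinRed T B B ∧ ExtE B c k ∧
  AddNF T {g | g ∈ B ∨ ∃ x ∈ B, ∃ f ∈ B, f ∈ Ep c ∧ Cen (x⁻¹ * c * x) ∧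
      ∃ q, g = x⁻¹ * (f * ipow c (k q)) * x}

-- deps: ELEM PERC ROOT C2_HFIN C2_HEXT Q_MIX2 Q_COV Q_ALL Q_PCH
-- imports: Pool.Agent.P.MP_dba3d2_lc.C.QTb
def S_PA : Prop := ∀ (Γ : HG) (a : Amb) (H : Subgroup (MM Γ a)) (l : ℕ → a.K) (u : MM Γ a),
  GC0 H → PLim H l u →
  (∀ x ∈ H, (∀ n, Ls (ln (u⁻¹ * x * u)) (l n)) → u⁻¹ * x * u ∈ std Γ a ∧ IsOfFinOrder x) →
  let T := H ⊔ Subgroup.closure (Set.range fun _ : Fin 1 => u)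
  GC0 T ∧ FinRed T H H ∧ ExtL H (fun _ : Fin 1 => u) ∧
  (∀ x ∈ H, u⁻¹ * x * u ∈ H → ∀ n, Ls (ln (u⁻¹ * x * u)) (l n)) ∧ Sc T H

end Pool.Agent.P.MP_dba3d2_lc
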