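import Pool.Agent.P.MP_dba3d2_lc.C.DefsQ

/-! Interface, chapter C3: chains of cosets and adjunctions at all scales. -/

namespace Pool.Agent.P.MP_dba3d2_lc

open Filter

-- deps:
-- imports: Pool.Agent.P.MP_dba3d2_lc.C.QTb
def S_Q_JL : Prop := ∀ (Γ : HG) (a : Amb) (μ : a.K) (p v : ℕ → MM Γ a) (N : ℕ), Big μ →
  (∀ s t, s < t → t ≤ N → ¬ Ovj μ (v s) (p (s + 1)) (v t) (p (t + 1))) →
  (∀ s t, s < t → t ≤ N + 1 → ¬ Ovj μ (v s) (p (s + 1)) (p t) (v t)) →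
  (∀ s t, s ≤ t → t ≤ N → ¬ Ovj μ (p s) (v s) (v t) (p (t + 1))) →
  (∀ s t, s < t → t ≤ N + 1 → ¬ Ovj μ (p s) (v s) (p t) (v t)) → G2 μ p v N

-- deps: ELEM LINE PERC ROOT Q_JL
-- imports: Pool.Agent.P.MP_dba3d2_lc.C.QTb
def S_Q_GEO : Prop := ∀ (Γ : HG) (a : Amb) (μ : a.K) (H : Subgroup (MM Γ a)) (u : MM Γ a)
  (g : ℕ → MM Γ a) (ε : ℕ → Nd Γ a) (p v : ℕ → MM Γ a) (N : ℕ), Big μ → GC0 H →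
  XCh H u g ε N → (∀ t ≤ N, Fe H (g t) (ε t) (ε (t + 1)) (v t) (p (t + 1))) →
  (∀ t ≤ N, Ls (ds (v t) (p (t + 1))) μ) → (∀ t ≤ N + 1, Eo μ (ε t) (p t) (v t)) → G2 μ p v N

-- deps: ELEM LINE NORM
-- imports: Pool.Agent.P.MP_dba3d2_lc.C.QTb
def S_Q_FEET : Prop := ∀ (Γ : HG) (a : Amb) (H : Subgroup (MM Γ a)) (u g : MM Γ a)
  (ε ε' : Nd Γ a), GC0 H → At H u g ε → At H u g ε' → Rd H u g ε ε' → ∃ x y, Fe H g ε ε' x y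

-- deps: ELEM LINE PERC ROOT RIG Q_GEO Q_FEET
-- imports: Pool.Agent.P.MP_dba3d2_lc.C.QTb
def S_Q_MIX2 : Prop := ∀ (Γ : HG) (a : Amb) (H : Subgroup (MM Γ a)) (u g g' : MM Γ a)
  (ε ε' : Nd Γ a), GC0 H → g⁻¹ * g' ∉ H → At H u g ε → At H u g' ε → At H u g ε' →
  At H u g' ε' → Sm H u ε ε'

-- deps: ROOT
-- imports: Pool.Agent.P.MP_dba3d2_lc.C.QTb
def S_Q_XCH : Prop := ∀ (Γ : HG) (a : Amb) (H : Subgroup (MM Γ a)) (u : MM Γ a)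
  (g : ℕ → MM Γ a) (ε : ℕ → Nd Γ a) (N : ℕ), GC0 H →
  (∀ n, Mx H u n → MCh H u g ε N → ∀ s t, s < t → t ≤ N → t < s + n →
    ∀ e, Aj H (g s) e → Aj H (g t) e → t = s + 1 ∧ Sm H u (.inr e) (ε s)) ∧
  (Mx H u (N + 1) → MCh H u g (fun t => ε (t + 1)) N → At H u (g 0) (ε 0) →
    At H u (g N) (ε (N + 1)) → Rd H u (g 0) (ε 0) (ε 1) → Rd H u (g N) (ε N) (ε (N + 1)) →
    XCh H u g ε N)

-- deps: Q_FEET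
-- imports: Pool.Agent.P.MP_dba3d2_lc.C.QTb
def S_Q_PEXT : Prop := ∀ (Γ : HG) (a : Amb) (H T : Subgroup (MM Γ a)) (u c : MM Γ a)
  (g : ℕ → MM Γ a) (ε : ℕ → Nd Γ a) (N : ℕ), GC0 H → MCh H u g ε (N + 1) →
  (g (N + 1))⁻¹ * (c * g 0) ∈ H → ¬ Sm H u (ε N) ((ε 0).mv c) → c ∈ T → (∀ t ≤ N, g t ∈ T) →
  ∃ g' ε' p v, QCh H u c g' ε' p v (N + 1) ∧ ∀ t, g' t ∈ T

-- deps: ROOT Q_GEO Q_XCH
-- imports: Pool.Agent.P.MP_dba3d2_lc.C.QTb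
def S_Q_CYC : Prop := ∀ (Γ : HG) (a : Amb) (H : Subgroup (MM Γ a)) (u c : MM Γ a)
  (g : ℕ → MM Γ a) (ε : ℕ → Nd Γ a) (p v : ℕ → MM Γ a) (N : ℕ), GC0 H → QCh H u c g ε p v N →
  Big (per2 p v N) ∧ (∀ i, per2 (fun t => p (i + t)) (fun t => v (i + t)) N = per2 p v N) ∧
  ∀ i M, Mx H u (M + 1) →
    G2 (per2 p v N) (fun t => p (i + 1 + t)) (fun t => v (i + 1 + t)) M

-- deps: ROOT Q_MIX2 Q_PEXT Q_CYC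
-- imports: Pool.Agent.P.MP_dba3d2_lc.C.QTb
def S_Q_MIX : Prop := ∀ (Γ : HG) (a : Amb) (H : Subgroup (MM Γ a)) (u : MM Γ a), GC0 H →
  ∀ n, Mx H u n

-- deps: ROOT
-- imports: Pool.Agent.P.MP_dba3d2_lc.C.QTb
def S_Q_MINP : Prop := ∀ (Γ : HG) (a : Amb) (H T : Subgroup (MM Γ a)) (u : MM Γ a), Cn H u T →
  (∀ n x y, x ∈ T → Wk H u T n x y → (∀ m < n, ¬ Wk H u T m x y) →
    ∃ g ε, MCh H u g ε n ∧ g 0 = x ∧ (g n)⁻¹ * y ∈ H ∧ ∀ t ≤ n, g t ∈ T) ∧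
  ∀ ε ε', (∃ x ∈ T, At0 H x ε) → (∃ y ∈ T, At0 H y ε') →
    ∃ g η N, MCh H u g η N ∧ (∀ t ≤ N, g t ∈ T) ∧ At0 H (g 0) ε ∧ At0 H (g N) ε' ∧
      ∀ M, N = M + 1 → (∀ d, ε = .inr d → ¬ Sm H u ε (η 0)) ∧
        ∀ d, ε' = .inr d → ¬ Sm H u (η M) ε'

-- deps: ROOT Q_XCH Q_MIX Q_MINP
-- imports: Pool.Agent.P.MP_dba3d2_lc.C.QTb
def S_Q_RIGT : Prop := ∀ (Γ : HG) (a : Amb) (H T : Subgroup (MM Γ a)) (u : MM Γ a), Cn H u T →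
  ∀ d d' e e', TP H T d → TP H T d' → TP H T e → TP H T e' → Ep d ≠ Ep d' →
    ∀ x, Cj x e d → Cj x e' d' → x ∈ T

-- deps: Q_FEET Q_XCH Q_MIX Q_MINP
-- imports: Pool.Agent.P.MP_dba3d2_lc.C.QTb
def S_Q_PATH : Prop := ∀ (Γ : HG) (a : Amb) (H T : Subgroup (MM Γ a)) (u : MM Γ a), Cn H u T →
  ∀ ε ε', (∃ x ∈ T, At0 H x ε) → (∃ y ∈ T, At0 H y ε') →
    (∀ d d', ε = .inr d → ε' = .inr d' → Ep d ≠ Ep d') →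
    ∃ g η p v N, NPa H u T g η p v N ∧ η 0 = ε ∧ η (N + 1) = ε'

-- deps: ROOT Q_GEO
-- imports: Pool.Agent.P.MP_dba3d2_lc.C.QTb
def S_Q_TOP : Prop := ∀ (Γ : HG) (a : Amb) (H T : Subgroup (MM Γ a)) (u : MM Γ a)
  (g : ℕ → MM Γ a) (ε : ℕ → Nd Γ a) (p v : ℕ → MM Γ a) (N : ℕ), GC0 H → NPa H u T g ε p v N →
  (∀ μ, Big μ → Ls (ds (v 0) (p (N + 1))) μ → G2 μ p v N ∧ Ls (len2 p v N) μ) ∧
  NAe (ε 0) (v 0) (p (N + 1)) ∧ NAe (ε (N + 1)) (p (N + 1)) (v 0)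

-- deps: ELEM LINE ROOT Q_PATH Q_TOP
-- imports: Pool.Agent.P.MP_dba3d2_lc.C.QTb
def S_Q_COV : Prop := ∀ (Γ : HG) (a : Amb) (H T : Subgroup (MM Γ a)) (u : MM Γ a), Cn H u T →
  ∀ μ, Big μ → ∀ t ∈ T, Ls (ln t) μ → Cvr μ (Pc H u T μ) 1 t

-- deps: ELEM LINE ROOT Q_PEXT Q_CYC Q_MIX Q_MINP
-- imports: Pool.Agent.P.MP_dba3d2_lc.C.QTb
def S_Q_CR : Prop := ∀ (Γ : HG) (a : Amb) (H T : Subgroup (MM Γ a)) (u : MM Γ a), Cn H u T →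
  ∀ c ∈ T, ¬ IsOfFinOrder c → ∃ p ∈ T, Ct c p

-- deps: ELEM LINE ROOT NORM ADJ0 Q_RIGT Q_PATH Q_TOP Q_COV Q_CR
-- imports: Pool.Agent.P.MP_dba3d2_lc.C.QTb
def S_Q_ALL : Prop := ∀ (Γ : HG) (a : Amb) (H T : Subgroup (MM Γ a)) (u : MM Γ a), Cn H u T →
  PurT H T → GC0 T

-- deps: ROOT C2_RW Q_XCH Q_MIX
-- imports: Pool.Agent.P.MP_dba3d2_lc.C.QTb
def S_Q_PCH : Prop := ∀ (Γ : HG) (a : Amb) (H : Subgroup (MM Γ a)) (u : MM Γ a), GC0 H →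
  LimD H u → WBr H (hv fun _ : Fin 1 => u) (HP H fun _ : Fin 1 => u) ∧
  ∀ c ∈ H, Prim c → ∀ f ∈ H ⊔ Subgroup.closure (Set.range fun _ : Fin 1 => u), f ∈ Ep c → f ∈ H

end Pool.Agent.P.MP_dba3d2_lc
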