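import Pool.Agent.P.MP_dba3d2_lc.C.Iface
import Pool.Agent.P.MP_dba3d2_lc.C.IfaceL2
import Pool.Agent.P.MP_dba3d2_lc.C.IfaceL
import Pool.Agent.P.MP_dba3d2_lc.C.LTb

/-! Step LET of the stability project. -/

namespace Pool.Agent.P.MP_dba3d2_lc

open Filter

theorem p_LET (hC2_RX : S_C2_RX) (hC2_TOP : S_C2_TOP) (hC2_HST : S_C2_HST) (hC2_HFIN : S_C2_HFIN) (hC2_HEXT : S_C2_HEXT) (hC2_LGEO : S_C2_LGEO) (hC2_LNF : S_C2_LNF) :
    S_LET := by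
  intro Γ a μ B r K u hμ hB hb hL
  obtain ⟨n1, n2, n3, n4⟩ := hC2_LNF Γ a μ B r K u hμ hB hb hL
  have hu : ∀ i, u i ∈ B ⊔ Subgroup.closure (Set.range u) := fun i =>
    Subgroup.mem_sup_right (Subgroup.subset_closure ⟨i, rfl⟩)
  have le : B ≤ B ⊔ Subgroup.closure (Set.range u) := le_sup_left
  have bd : B ⊔ Subgroup.closure (Set.range u) ≤ ball Γ μ :=
    sup_le hb ((Subgroup.closure_le _).2 (by
      rintro _ ⟨i, rfl⟩
      exact (mem_ball hμ.pos.le).2 (hL.sim i).1))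
  obtain ⟨s1, s2, s3⟩ := hC2_HST Γ a μ B _ hμ hB le bd n3
  have h0 := hμ.pos.le
  have D : TopD μ B (B ⊔ Subgroup.closure (Set.range u)) ((B : Set (MM Γ a)) ∪ Set.range u)
      ((B : Set (MM Γ a)) ∪ Set.range u) := by
    refine ⟨hμ, hB, le, bd, s1, fun t ht => ?_, ?_, ?_, s3 n4, ?_, ?_, ?_⟩
    · obtain ⟨L, a1, a2, a3⟩ := n2 t ht
      refine ⟨L, a1, a2, fun x hx => ?_⟩
      rcases a3 x hx with h | ⟨i, rfl | rfl⟩
      · exact ⟨le h, 1, one_mem _, x, Or.inl h, on_left h0 _ _, by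
          rw [one_mul]; exact on_right h0 _ _⟩
      · exact ⟨hu i, 1, one_mem _, u i, Or.inr ⟨i, rfl⟩, on_left h0 _ _, by
          rw [one_mul]; exact on_right h0 _ _⟩
      · exact ⟨inv_mem (hu i), _, inv_mem (hu i), u i, Or.inr ⟨i, rfl⟩, by
          rw [inv_mul_cancel]; exact on_right h0 _ _, on_left h0 _ _⟩
    · rintro w (hw | ⟨i, rfl⟩) w' (hw' | ⟨j, rfl⟩) g p q h hp
      · exact le (hB.g2 μ hμ w hw w' hw' (ball_ls hμ hb hw) (ball_ls hμ hb hw') g p q h hp)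
      · have := (h.mul g⁻¹).symm
        rw [inv_mul_cancel, inv_mul_cancel_left, mul_one] at this
        exact absurd this (hL.base j w hw (ball_ls hμ hb hw) _ _ _)
      · exact absurd h (hL.base i w' hw' (ball_ls hμ hb hw') _ _ _)
      · obtain ⟨-, k, -, rfl⟩ := hL.self i j g p q h
        exact le (hB.base ⟨k, rfl⟩)
    · rintro w (hw | ⟨i, rfl⟩) p q a1 a2 a3 a4
      · obtain ⟨c, c1, c2⟩ := hB.g20 μ hμ w hw (ball_ls hμ hb hw) p q a1 a2 a3 a4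
        exact ⟨c, le c1, c2⟩
      · exact absurd a4 (hL.nper i p q a1 a2 a3)
    · rw [Subgroup.closure_union, Subgroup.closure_eq]
    · rintro s (hs | ⟨i, rfl⟩) d _ hd hm
      · exact (hC2_RX Γ a μ _ d hμ hd.1 hm).2.2.2.2 B le hB hb hd s hs
      · refine ((hC2_RX Γ a μ _ d hμ hd.1 hm).2.2.2.1 1 (u i)).resolve_right ?_
        rintro ⟨p, q, a1, a2, a3, a4⟩
        exact hL.nper i p q a1 a2 a3 ⟨d, hd.1, a4⟩
    · intro c hc hp f hf he n hn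
      obtain ⟨f', a1, a2⟩ := hB.pur c hc hp f (s2 c hc hp f hf he) he n hn
      exact ⟨f', le a1, a2⟩
  obtain ⟨t1, t2⟩ := hC2_TOP Γ a μ B _ _ _ D
  refine ⟨⟨t1, bd, fun Z h1 h2 => ?_, t2, s1⟩, hC2_HEXT Γ a B r u n1,
    addNF_of hμ bd s1 (fun x hx => Or.inl hx) n2, (hC2_LGEO Γ a μ B r K u hμ hB hb hL).2.1, s2⟩
  obtain ⟨p, a1, a2⟩ := hC2_HFIN _ B _ u n1 Z h1 h2
  exact ⟨p, a1, Or.inl a2⟩

end Pool.Agent.P.MP_dba3d2_lc
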