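import Pool.Agent.P.MP_dba3d2_lc.C.DefsQ
import Pool.Agent.P.MP_dba3d2_lc.C.LTb

/-! Toolbox for chains of cosets. -/

namespace Pool.Agent.P.MP_dba3d2_lc

open Filter

variable {Γ : HG} {a : Amb} {H T : Subgroup (MM Γ a)} {μ ν : a.K}
  {c d d' e f g g' p q u w x x' y y' z : MM Γ a} {ε ε' ε'' η : Nd Γ a}

/-! ends -/

@[simp] theorem mv_inl (x w : MM Γ a) : Nd.mv x (.inl w) = .inl (x * w) := rfl
@[simp] theorem mv_inr (x d : MM Γ a) : Nd.mv x (.inr d) = .inr (x * d * x⁻¹) := rfl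
theorem mv_mv (x y : MM Γ a) (ε : Nd Γ a) : (ε.mv y).mv x = ε.mv (x * y) := by
  rcases ε with w | d <;> simp [mul_assoc]
@[simp] theorem mv_one (ε : Nd Γ a) : ε.mv 1 = ε := by rcases ε with w | d <;> simp

theorem co_symm (h : x⁻¹ * y ∈ H) : y⁻¹ * x ∈ H := by simpa using inv_mem h
theorem co_trans (h : x⁻¹ * y ∈ H) (h' : y⁻¹ * z ∈ H) : x⁻¹ * z ∈ H := by
  simpa [mul_assoc] using mul_mem h h'
theorem co_refl (H : Subgroup (MM Γ a)) (x : MM Γ a) : x⁻¹ * x ∈ H := by simp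
theorem co_mv (g x y : MM Γ a) : (g * x)⁻¹ * (g * y) = x⁻¹ * y := by group
theorem co_mem (h : x⁻¹ * y ∈ T) (hx : x ∈ T) : y ∈ T := by simpa using mul_mem hx h
theorem GC0.co_of_not_big (hH : GC0 H) (h : ¬ Big (ds x y)) : x⁻¹ * y ∈ H := hH.of_not_big h

theorem Aj.congr (h : Aj H g d) (e : g⁻¹ * g' ∈ H) : Aj H g' d := ⟨h.1, by
  simpa [mul_assoc] using mul_mem (mul_mem (inv_mem e) h.2) e⟩
theorem aj_mv (x : MM Γ a) : Aj H (x * g) (x * d * x⁻¹) ↔ Aj H g d := by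
  have e : (x * g)⁻¹ * (x * d * x⁻¹) * (x * g) = g⁻¹ * d * g := by group
  rw [Aj, Aj, e]
  exact and_congr_left fun _ => ⟨fun h => by simpa [mul_assoc] using h.conj' x, fun h => h.conj x⟩
theorem Aj.ep (hR : S_ROOT) (hH : GC0 H) (h : Aj H g d) (hp : Prim d') (e : Ep d' = Ep d) :
    Aj H g d' :=
  ⟨hp, (hR Γ a H hH).2.2.2.1 _ h.2 (h.1.conj' g).1 _ (hp.conj' g) ((Ep_conj_iff' g).2 e)⟩
theorem aj_one : Aj H 1 d ↔ Prim d ∧ d ∈ H := by simp [Aj]

theorem At.congr (h : At H u g ε) (e : g⁻¹ * g' ∈ H) : At H u g' ε := by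
  rcases ε with w | d
  · refine h.imp (co_trans (co_symm e)) fun h => ⟨h.1, ?_⟩
    simpa [mul_assoc] using mul_mem (inv_mem e) h.2
  · exact Aj.congr h e
theorem at_mv (x : MM Γ a) : At H u (x * g) (ε.mv x) ↔ At H u g ε := by
  rcases ε with w | d
  · simp only [mv_inl, At, co_mv]
  · exact aj_mv x
theorem At.mv (h : At H u g ε) (x : MM Γ a) : At H u (x * g) (ε.mv x) := (at_mv x).2 h
theorem At0.at (h : At0 H g ε) (u : MM Γ a) : At H u g ε := by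
  rcases ε with w | d
  exacts [Or.inl h, h]
theorem At0.congr (h : At0 H g ε) (e : g⁻¹ * g' ∈ H) : At0 H g' ε := by
  rcases ε with w | d
  exacts [co_trans (co_symm e) h, Aj.congr h e]

theorem Sm.symm (h : Sm H u ε ε') : Sm H u ε' ε := by
  rcases ε with w | d <;> rcases ε' with w' | d'
  · exact ⟨co_symm h.1, by simpa [mul_assoc] using inv_mem h.2⟩
  exacts [h, h, Eq.symm h]
theorem Sm.trans (h : Sm H u ε ε') (h' : Sm H u ε' ε'') : Sm H u ε ε'' := by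
  rcases ε with w | d <;> rcases ε' with w' | d' <;> rcases ε'' with w'' | d''
  · exact ⟨co_trans h.1 h'.1, by simpa [mul_assoc] using mul_mem h.2 h'.2⟩
  all_goals first | exact h.elim | exact h'.elim | exact Eq.trans h h'
theorem sm_mv (x : MM Γ a) : Sm H u (ε.mv x) (ε'.mv x) ↔ Sm H u ε ε' := by
  rcases ε with w | d <;> rcases ε' with w' | d'
  · simp only [mv_inl, Sm, co_mv]
  exacts [Iff.rfl, Iff.rfl, Ep_conj_iff x]
theorem Sm.inr (h : Sm H u (.inr e) ε) : ∃ d, ε = .inr d ∧ Ep e = Ep d := by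
  rcases ε with w | d
  exacts [h.elim, ⟨d, rfl, h⟩]
theorem At.same (hR : S_ROOT) (hH : GC0 H) (h : At H u g ε) (h' : At H u g' ε')
    (s : Sm H u ε ε') : At H u g ε' := by
  rcases ε with w | d <;> rcases ε' with w' | d'
  · refine h.imp (fun h => co_trans h s.1) fun h => ⟨h.1, ?_⟩
    simpa [mul_assoc] using mul_mem h.2 s.2
  exacts [s.elim, s.elim, Aj.ep hR hH h h'.1 (Eq.symm s)]
theorem Rd.ne (h : Rd H u g (.inr d) (.inr d')) : Ep d ≠ Ep d' := by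
  rcases h with h | ⟨_, h, -⟩ | ⟨_, h, -⟩
  · exact h
  · cases h
  · cases h
theorem LimD.not_mem (h : LimD H u) : u ∉ H := fun e => by
  have := (h.a1 u e).1.pos
  simp at this
theorem not_limD_one : ¬ LimD H 1 := fun h => h.not_mem (one_mem H)
theorem Ap.mono (h : Ap H ν u) (e : Ls ν μ) (h0 : 0 ≤ μ) : Ap H μ u :=
  let ⟨x, hx, k⟩ := h
  ⟨x, hx, k.ls_right e h0⟩

theorem PLim.limD {l : ℕ → a.K} (hH : GC0 H) (h : PLim H l u)
    (k : ∀ x ∈ H, (∀ n, Ls (ln (u⁻¹ * x * u)) (l n)) → u⁻¹ * x * u ∈ std Γ a ∧ IsOfFinOrder x) :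
    LimD H u := by
  have key : ∀ D : a.K, 0 ≤ D → (∃ n, ¬ Ls D (l n)) → Big D ∧ Ap H D u := by
    rintro D h0 ⟨n, hn⟩
    have e : Ll (l n) D := fun m => (not_le.1 fun k => hn ⟨m, k⟩).le
    obtain ⟨v, hv, k⟩ := h.apx n
    exact ⟨(h.big n).of_ls e.ls, v, hv, Ll.ls_left k e⟩
  refine ⟨fun x hx => key _ (ds_nonneg _ _) (ds_comm u x ▸ h.new x hx), fun x hx e =>
    key _ (ln_nonneg _) (not_forall.1 fun b => ?_)⟩
  exact e.elim (fun e => e (hH.base (k x hx b).1)) fun e => e (k x hx b).2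

/-! chains -/
section chains
variable {G G' : ℕ → MM Γ a} {E E' : ℕ → Nd Γ a} {N M n : ℕ}

theorem MCh.zero (H : Subgroup (MM Γ a)) (u : MM Γ a) (G : ℕ → MM Γ a) (E : ℕ → Nd Γ a) :
    MCh H u G E 0 := ⟨by simp, by simp, by simp, by simp⟩
theorem MCh.mono (h : MCh H u G E N) (k : M ≤ N) : MCh H u G E M :=
  ⟨fun t ht => h.l t (by omega), fun t ht => h.r t (by omega), fun t ht => h.ne t (by omega),
    fun t ht => h.rd t (by omega)⟩
theorem MCh.shift (h : MCh H u G E N) (i : ℕ) (k : i + M ≤ N) :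
    MCh H u (fun t => G (i + t)) (fun t => E (i + t)) M :=
  ⟨fun t ht => h.l (i + t) (by omega), fun t ht => h.r (i + t) (by omega),
    fun t ht => h.ne (i + t) (by omega), fun t ht => h.rd (i + t) (by omega)⟩
theorem MCh.congr (h : MCh H u G E N) (h1 : ∀ t ≤ N, G' t = G t) (h2 : ∀ t < N, E' t = E t) :
    MCh H u G' E' N := by
  refine ⟨fun t ht => ?_, fun t ht => ?_, fun t ht => ?_, fun t ht => ?_⟩
  · rw [h1 t ht.le, h2 t ht]; exact h.l t ht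
  · rw [h1 _ ht, h2 t ht]; exact h.r t ht
  · rw [h1 t ht.le, h1 _ ht]; exact h.ne t ht
  · rw [h2 t (by omega), h2 _ ht]; exact h.rd t ht
theorem MCh.mv (h : MCh H u G E N) (x : MM Γ a) :
    MCh H u (fun t => x * G t) (fun t => (E t).mv x) N :=
  ⟨fun t ht => (h.l t ht).mv x, fun t ht => (h.r t ht).mv x,
    fun t ht => by rw [co_mv]; exact h.ne t ht, fun t ht => mt (sm_mv x).1 (h.rd t ht)⟩
theorem MCh.rev (h : MCh H u G E N) :
    MCh H u (fun t => G (N - t)) (fun t => E (N - 1 - t)) N := by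
  refine ⟨fun t ht => ?_, fun t ht => ?_, fun t ht e => ?_, fun t ht e => ?_⟩
  · have := h.r (N - 1 - t) (by omega)
    rwa [show N - 1 - t + 1 = N - t by omega] at this
  · have := h.l (N - 1 - t) (by omega)
    rwa [show N - (t + 1) = N - 1 - t by omega]
  · have := h.ne (N - (t + 1)) (by omega)
    rw [show N - (t + 1) + 1 = N - t by omega] at this
    exact this (co_symm e)
  · have := h.rd (N - 1 - (t + 1)) (by omega)
    rw [show N - 1 - (t + 1) + 1 = N - 1 - t by omega] at this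
    exact this e.symm
/-- two chains joined by an end -/
theorem MCh.append (h : MCh H u G E N) (h' : MCh H u G' E' M) (a1 : At H u (G N) η)
    (a2 : At H u (G' 0) η) (ne : (G N)⁻¹ * G' 0 ∉ H) (r1 : ∀ k, N = k + 1 → ¬ Sm H u (E k) η)
    (r2 : 0 < M → ¬ Sm H u η (E' 0)) : ∃ G₂ E₂, MCh H u G₂ E₂ (N + 1 + M) ∧
      (∀ t ≤ N, G₂ t = G t) ∧ (∀ t, G₂ (N + 1 + t) = G' t) ∧ (∀ t < N, E₂ t = E t) ∧ E₂ N = η ∧
      ∀ t, E₂ (N + 1 + t) = E' t := by
  obtain ⟨G₂, g1, g2⟩ : ∃ G₂ : ℕ → MM Γ a, (∀ t ≤ N, G₂ t = G t) ∧ ∀ t, G₂ (N + 1 + t) = G' t :=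
    ⟨fun t => if t ≤ N then G t else G' (t - (N + 1)), fun t ht => if_pos ht,
      fun t => by
        beta_reduce
        rw [if_neg (by omega), Nat.add_sub_cancel_left]⟩
  obtain ⟨E₂, e1, e2, e3⟩ : ∃ E₂ : ℕ → Nd Γ a, (∀ t < N, E₂ t = E t) ∧ E₂ N = η ∧
      ∀ t, E₂ (N + 1 + t) = E' t :=
    ⟨fun t => if t < N then E t else if t = N then η else E' (t - (N + 1)), fun t ht => if_pos ht,
      by simp, fun t => by
        beta_reduce
        rw [if_neg (by omega), if_neg (by omega), Nat.add_sub_cancel_left]⟩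
  have cs : ∀ t, t < N ∨ t = N ∨ ∃ s, t = N + 1 + s := fun t => by
    rcases lt_trichotomy t N with k | k | k
    exacts [Or.inl k, Or.inr (Or.inl k), Or.inr (Or.inr ⟨t - (N + 1), by omega⟩)]
  have g0 : G₂ (N + 1) = G' 0 := g2 0
  have g3 : ∀ s, G₂ (N + 1 + s + 1) = G' (s + 1) := fun s => g2 (s + 1)
  refine ⟨G₂, E₂, ⟨fun t ht => ?_, fun t ht => ?_, fun t ht => ?_, fun t ht => ?_⟩, g1, g2, e1,
    e2, e3⟩ <;> rcases cs t with k | rfl | ⟨s, rfl⟩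
  · rw [g1 t k.le, e1 t k]; exact h.l t k
  · rwa [g1 t le_rfl, e2]
  · rw [g2, e3]; exact h'.l s (by omega)
  · rw [g1 _ k, e1 t k]; exact h.r t k
  · rwa [g0, e2]
  · rw [g3, e3]; exact h'.r s (by omega)
  · rw [g1 t k.le, g1 _ k]; exact h.ne t k
  · rwa [g1 t le_rfl, g0]
  · rw [g2, g3]; exact h'.ne s (by omega)
  · rw [e1 t k]
    rcases (Nat.succ_le_of_lt k).eq_or_lt with k' | k'
    · rw [show t + 1 = N from k', e2]; exact r1 t k'.symm
    · rw [e1 _ k']; exact h.rd t k'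
  · rw [e2, show E₂ (t + 1) = E' 0 from e3 0]; exact r2 (by omega)
  · rw [e3, show E₂ (N + 1 + s + 1) = E' (s + 1) from e3 (s + 1)]; exact h'.rd s (by omega)
theorem MCh.cons (h : MCh H u G E N) (a1 : At H u g η) (a2 : At H u (G 0) η)
    (ne : g⁻¹ * G 0 ∉ H) (r : 0 < N → ¬ Sm H u η (E 0)) : ∃ G₂ E₂, MCh H u G₂ E₂ (N + 1) ∧
      G₂ 0 = g ∧ (∀ t, G₂ (t + 1) = G t) ∧ E₂ 0 = η ∧ ∀ t, E₂ (t + 1) = E t := by
  obtain ⟨G₂, E₂, k, g1, g2, -, e2, e3⟩ := (MCh.zero H u (fun _ => g) E).append h a1 a2 ne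
    (fun k e => by omega) r
  exact ⟨G₂, E₂, by simpa [add_comm] using k, g1 0 le_rfl, fun t => by simpa [add_comm] using g2 t,
    e2, fun t => by simpa [add_comm] using e3 t⟩
theorem MCh.snoc (h : MCh H u G E N) (a1 : At H u (G N) η) (a2 : At H u g η)
    (ne : (G N)⁻¹ * g ∉ H) (r : ∀ k, N = k + 1 → ¬ Sm H u (E k) η) :
    ∃ G₂ E₂, MCh H u G₂ E₂ (N + 1) ∧ (∀ t ≤ N, G₂ t = G t) ∧ G₂ (N + 1) = g ∧
      (∀ t < N, E₂ t = E t) ∧ E₂ N = η := by
  obtain ⟨G₂, E₂, k, g1, g2, e1, e2, -⟩ := h.append (MCh.zero H u (fun _ => g) E) a1 a2 ne r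
    (fun e => by omega)
  exact ⟨G₂, E₂, k, g1, g2 0, e1, e2⟩
theorem Mx.mono (h : Mx H u n) (k : M ≤ n) : Mx H u M := fun G E N h1 h2 => h G E N h1 (h2.trans k)
theorem Mx.ne (h : Mx H u n) (k : MCh H u G E N) {s t : ℕ} (h1 : s < t) (h2 : t ≤ N)
    (h3 : t ≤ s + n) : (G s)⁻¹ * G t ∉ H := by
  obtain ⟨m, rfl⟩ := Nat.exists_eq_add_of_le h1.le
  exact h _ _ m (by omega) (by omega) (k.shift s h2)

theorem Wk.left (h : Wk H u T n x y) (e : x⁻¹ * x' ∈ H) : Wk H u T n x' y := by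
  cases h with
  | nil h => exact .nil (co_trans (co_symm e) h)
  | cons a1 a2 hz h => exact .cons (a1.congr e) a2 hz h
theorem Wk.trans {m : ℕ} (h : Wk H u T n x y) (h' : Wk H u T m y z) : Wk H u T (m + n) x z := by
  induction h with
  | nil h => exact h'.left (co_symm h)
  | cons a1 a2 hz _ ih => exact .cons a1 a2 hz (ih h')
theorem Wk.right (h : Wk H u T n x y) (e : y⁻¹ * y' ∈ H) : Wk H u T n x y' := by
  simpa using h.trans (.nil e)
theorem Wk.one (a1 : At H u x ε) (a2 : At H u y ε) (hy : y ∈ T) : Wk H u T 1 x y :=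
  .cons a1 a2 hy (.nil (co_refl H y))
theorem Wk.mv (h : Wk H u T n x y) (hg : g ∈ T) : Wk H u T n (g * x) (g * y) := by
  induction h with
  | nil h => exact .nil (by rwa [co_mv])
  | cons a1 a2 hz _ ih => exact .cons (a1.mv g) (a2.mv g) (mul_mem hg hz) ih
theorem Wk.zero (h : Wk H u T 0 x y) : x⁻¹ * y ∈ H := by
  cases h with
  | nil h => exact h
theorem MCh.wk (h : MCh H u G E N) (hT : ∀ t ≤ N, G t ∈ T) (s : ℕ) :
    ∀ k, s + k ≤ N → Wk H u T k (G s) (G (s + k))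
  | 0, _ => .nil (co_refl H _)
  | k + 1, e => by
    have := (h.wk hT s k (by omega)).trans
      (Wk.one (h.l (s + k) (by omega)) (h.r (s + k) (by omega)) (hT _ e))
    rwa [add_comm 1 k] at this

theorem Cn.of_gen {S : Set (MM Γ a)} (hH : GC0 H) (e : T = H ⊔ Subgroup.closure S)
    (hS : ∀ s ∈ S, ∃ ε, At H u 1 ε ∧ At H u s ε) (hu : LimD H u → u ∈ T) : Cn H u T := by
  have e' : T = Subgroup.closure (H ∪ S) := by
    rw [e, Subgroup.closure_union, Subgroup.closure_eq]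
  have key : ∀ t ∈ Subgroup.closure (H ∪ S : Set (MM Γ a)), ∃ n, Wk H u T n 1 t := by
    intro t ht
    induction ht using Subgroup.closure_induction'' with
    | mem x hx =>
      rcases hx with hx | hx
      · exact ⟨0, .nil (by simpa using hx)⟩
      · obtain ⟨ε, a1, a2⟩ := hS x hx
        exact ⟨1, .one a1 a2 (e' ▸ Subgroup.subset_closure (Or.inr hx))⟩
    | inv_mem x hx =>
      rcases hx with hx | hx
      · exact ⟨0, .nil (by simpa using hx)⟩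
      · obtain ⟨ε, a1, a2⟩ := hS x hx
        exact ⟨1, .one (by simpa using a2.mv x⁻¹) (by simpa using a1.mv x⁻¹)
          (inv_mem (e' ▸ Subgroup.subset_closure (Or.inr hx)))⟩
    | one => exact ⟨0, .nil (co_refl H 1)⟩
    | mul x y hx hy ihx ihy =>
      obtain ⟨n, h1⟩ := ihx
      obtain ⟨m, h2⟩ := ihy
      exact ⟨_, h1.trans (by simpa using h2.mv (e' ▸ hx : x ∈ T))⟩
  refine ⟨hH, e ▸ le_sup_left, hu, fun x hx y hy => ?_⟩
  obtain ⟨n, k⟩ := key _ (e' ▸ mul_mem (inv_mem hx) hy : x⁻¹ * y ∈ _)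
  exact ⟨n, by simpa using k.mv hx⟩
end chains

theorem TP.prim (h : TP H T d) : Prim d := let ⟨_, _, k⟩ := h; k.1
theorem TP.mem (h : TP H T d) (hT : H ≤ T) : d ∈ T := by
  obtain ⟨t, ht, k⟩ := h
  simpa [mul_assoc] using mul_mem (mul_mem ht (hT k.2)) (inv_mem ht)
theorem TP.conj (h : TP H T d) (hx : x ∈ T) : TP H T (x * d * x⁻¹) :=
  let ⟨t, ht, k⟩ := h
  ⟨x * t, mul_mem hx ht, (aj_mv x).2 k⟩
theorem TP.ep (hR : S_ROOT) (hH : GC0 H) (h : TP H T d) (hp : Prim d') (e : Ep d' = Ep d) :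
    TP H T d' :=
  let ⟨t, ht, k⟩ := h
  ⟨t, ht, k.ep hR hH hp e⟩

/-! centred points and segments along axes -/

theorem ct_iff : Ct d x ↔ Cen (x⁻¹ * d * x) := by rw [Ct, Cen, ds_conj, md_conj]
theorem ct_mv (g : MM Γ a) : Ct (g * d * g⁻¹) (g * x) ↔ Ct d x := by
  rw [Ct, Ct, disp_conj, md_conj']
theorem Ct.ll (h : Ct d x) (k : Ll (md d) μ) : Ll (ds x (d * x)) μ := Ll.ls_left h k
theorem Aj.centre (hH : GC0 H) (h : Aj H g d) : ∃ x, g⁻¹ * x ∈ H ∧ Ct d x := by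
  obtain ⟨p, hp, -, k⟩ := hH.cen1 h.2 (h.1.conj' g).1
  exact ⟨g * p, by simpa using hp, ct_iff.2 (by simpa [mul_assoc] using k)⟩
theorem disp_ls (hE : S_ELEM) (hL : S_LINE) (hd : ¬ IsOfFinOrder d) (hg : g ∈ Ep d)
    (p : MM Γ a) : Ls (ds p (g * p)) (ds p (d * p) + md g) := by
  have h1 : 1 ≤ ds p (d * p) := (one_le_md' hd).trans (md_le_ds d p)
  have h2 := md_nonneg g
  refine ls_of_scale (by linarith) fun b k => ll_irrefl b.pos ?_
  exact fix_of_fix hE hL hd hg (Ll.mono_left (by linarith) k) (Ll.mono_left (by linarith) k)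
/-- centred points of a primitive element are centred for its closure -/
theorem Ct.of_prim (hE : S_ELEM) (hL : S_LINE) (h : Ct d x) (hd : Prim d)
    (hc : ¬ IsOfFinOrder c) (e : Ep d = Ep c) : Ct c x :=
  (disp_ls hE hL hd.1 (e ▸ self_mem_Ep c) x).trans'
    ((Ls.trans' h (hd.md_ls hE hL hc e)).add (Ls.refl' _))

theorem al_mv (g : MM Γ a) : Al μ (g * d * g⁻¹) (g * x) (g * y) ↔ Al μ d x y := by
  refine ⟨fun ⟨q, h1, h2, h3⟩ => ⟨g⁻¹ * q, ?_, ?_, ?_⟩, fun ⟨q, h1, h2, h3⟩ =>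
    ⟨g * q, by rwa [ds_mul_left], h2.mul g, (stab_conj g).2 h3⟩⟩
  · rwa [← ds_mul_left g, mul_inv_cancel_left]
  · rwa [← on_mul_iff g, mul_inv_cancel_left]
  · rwa [← stab_conj g, mul_inv_cancel_left]
theorem Al.congr (hμ : Big μ) (h : Al μ d x y) (hx : Ll (ds x x') μ) (hy : Ll (ds y y') μ) :
    Al μ d x' y' := by
  obtain ⟨q, h1, h2, h3⟩ := h
  have h0 := FixA.ll_self hμ.pos.le q
  refine ⟨q, h1.of_le_add hx hμ.pos 1 ?_, h2.congr h0 hx hy, h3.congr hx h0⟩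
  have := ds_tri x x' q
  push_cast
  linarith
theorem Al.ep (hE : S_ELEM) (hL : S_LINE) (h : Al μ e x y) (hd : Prim d) (he : ¬ IsOfFinOrder e)
    (k : Ep d = Ep e) : Al μ d x y :=
  let ⟨q, h1, h2, h3⟩ := h
  ⟨q, h1, h2, hd.fix hE hL he k h3.1, hd.fix hE hL he k h3.2⟩
theorem Al.mono (h : Al μ d x y) (k : On μ y x z) : Al μ d x z :=
  let ⟨q, h1, h2, h3⟩ := h
  ⟨q, h1, (On.sub k h2).1, h3⟩
theorem Al.long (hμ : Big μ) (h : Al μ d x y) : Ls μ (ds x y) :=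
  let ⟨_, h1, h2, _⟩ := h
  On.nondeg hμ (on_left hμ.pos.le _ _) h2 h1
theorem na_mv (g : MM Γ a) : NA (g * d * g⁻¹) (g * x) (g * y) ↔ NA d x y := by
  simp only [NA, al_mv, ds_mul_left]
theorem NE.na (h : NE c y) : NA c 1 y⁻¹ := by
  intro μ hμ h1 h2
  have h3 := h2.long hμ
  rw [ds_one_left, ln_inv] at h1 h3
  have s : Sim μ (ln y) := ⟨h3, h1⟩
  obtain ⟨q, k1, k2, k3⟩ := h2
  exact h (hμ.of_ls h3) (k3.md.ls_right h3 (ln_nonneg _))
    ((s.fol_iff hμ.pos.le (ln_nonneg _)).1 ⟨q, by simpa using k1, k2, k3⟩)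

/-! feet and sides -/

theorem Ft.mem (D : Cn H u T) (hg : g ∈ T) (h : At H u g ε) (k : Ft H g ε x) : x ∈ T := by
  rcases ε with w | d
  · obtain rfl : x = w := k
    rcases h with h | h
    · exact co_mem (D.le h) hg
    · exact co_mem (by simpa using mul_mem (D.le h.2) (D.mem h.1)) hg
  · exact co_mem (D.le k.1) hg
theorem Ft.co (hu : ¬ LimD H u) (h : At H u g ε) (k : Ft H g ε x) : g⁻¹ * x ∈ H := by
  rcases ε with w | d
  · obtain rfl : x = w := k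
    exact h.resolve_right fun e => hu e.1
  · exact k.1
theorem Fe.mv (h : Fe H g ε ε' x y) (z : MM Γ a) :
    Fe H (z * g) (ε.mv z) (ε'.mv z) (z * x) (z * y) := by
  have ft : ∀ {ε : Nd Γ a} {x}, Ft H g ε x → Ft H (z * g) (ε.mv z) (z * x) := by
    rintro (w | d) x h
    · exact congrArg (z * ·) h
    · exact ⟨by rw [co_mv]; exact h.1, (ct_mv z).2 h.2⟩
  have na : ∀ {ε : Nd Γ a} {x y}, NAe ε x y → NAe (ε.mv z) (z * x) (z * y) := by
    rintro (w | d) x y h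
    exacts [trivial, (na_mv z).2 h]
  refine ⟨ft h.f, ft h.f', ?_, na h.na, na h.na'⟩
  simpa only [Sd, co_mv, ds_mul_left, mul_assoc] using h.sd
theorem Fe.symm (h : Fe H g ε ε' x y) : Fe H g ε' ε y x := by
  refine ⟨h.f', h.f, h.sd.imp And.symm ?_, h.na', h.na⟩
  rintro ⟨b, k, hk, k', hk', a1, a2⟩
  rw [ds_comm y x]
  exact ⟨b, k', hk', k, hk, a2, a1⟩
theorem Sd.near (h : Sd H g x y) (h0 : 0 ≤ μ) (k : Ls (ds x y) μ) :
    ∃ h ∈ H, ∃ h' ∈ H, Ll (ds x (g * h)) μ ∧ Ll (ds y (g * h')) μ := by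
  rcases h with h | ⟨-, h, hh, h', hh', a1, a2⟩
  · exact ⟨_, h.1, _, h.2, by simpa using Ll.zero h0, by simpa using Ll.zero h0⟩
  · exact ⟨h, hh, h', hh', a1.ls_right k h0, a2.ls_right k h0⟩
theorem Sd.co (h : Sd H g x y) (k : ¬ Big (ds x y)) : g⁻¹ * x ∈ H ∧ g⁻¹ * y ∈ H :=
  h.resolve_right fun e => k e.1
theorem Sd.seg (h : Sd H g x y) (hμ : Big μ) (k : Ls (ds x y) μ) : ∃ h ∈ H, ∃ h' ∈ H,
    Ls (ds h h') μ ∧ ∀ r, On μ r x y → On μ (g⁻¹ * r) h h' := by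
  obtain ⟨h, hh, h', hh', a1, a2⟩ := h.near hμ.pos.le k
  refine ⟨h, hh, h', hh', ?_, fun r hr => ?_⟩
  · have e1 := ds_tri (g * h) x (g * h')
    have e2 := ds_tri x y (g * h')
    rw [ds_mul_left, ds_comm _ x] at e1
    exact Ls.mono_left (by linarith) ((a1.ls.add k).add a2.ls)
  · simpa using (hr.congr (FixA.ll_self hμ.pos.le r) a1 a2).mul g⁻¹
/-- primitive periods on a side are adjacent to its coset -/
theorem Sd.aj (hE : S_ELEM) (hP : S_PERC) (hR : S_ROOT) (hH : GC0 H) (hμ : Big μ)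
    (h : Sd H g x y) (k : Ls (ds x y) μ) (hn : Ls μ (ds p q)) (hp : On μ p x y) (hq : On μ q x y)
    (hd : Prim d) (hs : Stab μ p q d) : Aj H g d := by
  obtain ⟨h, hh, h', hh', a1, a2⟩ := h.seg hμ k
  refine ⟨hd, hH.per_mem hE hP hR hμ hh hh' a1 (by rwa [ds_mul_left]) (a2 p hp) (a2 q hq)
    (hd.conj' g) ((stab_conj' g).2 (by simpa using hs))⟩
/-- overlapping sides -/
theorem Sd.ov (hE : S_ELEM) (hP : S_PERC) (hR : S_ROOT) (hH : GC0 H) (hμ : Big μ)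
    (h : Sd H g x y) (h' : Sd H g' x' y') (k : Ls (ds x y) μ) (k' : Ls (ds x' y') μ)
    (o : Ov μ p q x y x' y') :
    g⁻¹ * g' ∈ H ∨ ∃ e, Aj H g e ∧ Aj H g' e ∧ Stab μ p q e := by
  by_cases hp : Per μ p q
  · obtain ⟨e, he, s, -⟩ := hP Γ a μ p q hμ o.1 hp
    exact Or.inr ⟨e, h.aj hE hP hR hH hμ k o.1 o.2.1 o.2.2.1 he s,
      h'.aj hE hP hR hH hμ k' o.1 o.2.2.2.1 o.2.2.2.2 he s, s⟩
  · obtain ⟨h1, m1, h2, m2, a1, a2⟩ := h.seg hμ k
    obtain ⟨h3, m3, h4, m4, b1, b2⟩ := h'.seg hμ k'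
    refine Or.inl (hH.g2' hμ m1 m2 m3 m4 a1 b1 (p := g⁻¹ * p) (q := g⁻¹ * q)
      ⟨by rw [ds_mul_left]; exact o.1, a2 p o.2.1, a2 q o.2.2.1, ?_, ?_⟩ (mt (per_mul_iff _).1 hp))
    · simpa [mul_assoc] using (b2 p o.2.2.2.1).mul (g⁻¹ * g')
    · simpa [mul_assoc] using (b2 q o.2.2.2.2).mul (g⁻¹ * g')
theorem Aj.foot (h : Aj H g d) (k : g⁻¹ * x ∈ H) : x⁻¹ * d * x ∈ H := (h.congr k).2
/-- feet of an axis in different cosets are far apart -/
theorem Ft.long (hR : S_ROOT) (hH : GC0 H) (h : Aj H g d) (h' : Aj H g' d)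
    (k : Ft H g (.inr d) x) (k' : Ft H g' (.inr d) y) (ne : g⁻¹ * g' ∉ H) :
    Ll (md d) (ds x y) := by
  intro n
  by_contra b
  refine ne (co_trans (co_trans k.1 ?_) (co_symm k'.1))
  refine ((hR Γ a H hH).2.1 _ (h.foot k.1) _ (h'.foot k'.1) (h.1.conj' x) (h.1.conj' y) _
    (congrArg Ep (by group))).2 (ct_iff.1 k.2) (ct_iff.1 k'.2) ⟨n, ?_⟩
  rw [md_conj]
  exact (not_le.1 b).le
theorem Ft.eo (hR : S_ROOT) (hH : GC0 H) (h : At H u g ε) (h' : At H u g' ε) (k : Ft H g ε x)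
    (k' : Ft H g' ε y) (ne : g⁻¹ * g' ∉ H) (h0 : 0 ≤ μ) (b : Ls (ds x y) μ) : Eo μ ε x y := by
  rcases ε with w | d
  · obtain rfl : x = w := k
    obtain rfl : y = x := k'
    exact Or.inl (FixA.ll_self h0 _)
  · have m := (Ft.long hR hH h h' k k' ne).ls_right b h0
    exact Or.inr ⟨d, rfl, k.2.ll m, k'.2.ll m⟩

/-! paths -/
section paths
variable {P V : ℕ → MM Γ a} {N : ℕ} {X : MM Γ a → Prop}

theorem per2_succ (P V : ℕ → MM Γ a) (N : ℕ) :
    per2 P V (N + 1) = per2 P V N + (ds (V N) (P (N + 1)) + ds (P (N + 1)) (V (N + 1))) :=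
  Finset.sum_range_succ _ _
theorem len2_eq (P V : ℕ → MM Γ a) (N : ℕ) : len2 P V N = ds (P 0) (V 0) + per2 P V (N + 1) := by
  rw [len2, per2, Finset.sum_range_succ', Finset.sum_add_distrib]
  ring
theorem len2_succ (P V : ℕ → MM Γ a) (N : ℕ) : len2 P V (N + 1) =
    len2 P V N + (ds (V (N + 1)) (P (N + 2)) + ds (P (N + 2)) (V (N + 2))) := by
  rw [len2_eq, len2_eq, per2_succ _ _ (N + 1), ← add_assoc (ds (P 0) (V 0))]
theorem len2_zero (P V : ℕ → MM Γ a) :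
    len2 P V 0 = ds (P 0) (V 0) + ds (V 0) (P 1) + ds (P 1) (V 1) := by
  simp [len2_eq, per2, add_assoc]
theorem per2_nonneg (P V : ℕ → MM Γ a) (N : ℕ) : 0 ≤ per2 P V N :=
  Finset.sum_nonneg fun _ _ => add_nonneg (ds_nonneg _ _) (ds_nonneg _ _)
theorem ds_le_per2 (P V : ℕ → MM Γ a) : ∀ N, ds (V 0) (V N) ≤ per2 P V N
  | 0 => by simp [per2]
  | N + 1 => by
    rw [per2_succ]
    linarith [ds_le_per2 P V N, ds_tri (V 0) (V N) (V (N + 1)), ds_tri (V N) (P (N + 1)) (V (N + 1))]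
theorem ds_le_len2 (P V : ℕ → MM Γ a) (N : ℕ) : ds (P 0) (V (N + 1)) ≤ len2 P V N := by
  rw [len2_eq]
  linarith [ds_le_per2 P V (N + 1), ds_tri (P 0) (V 0) (V (N + 1))]
theorem le_per2 (P V : ℕ → MM Γ a) {t : ℕ} (h : t < N) :
    ds (V t) (P (t + 1)) + ds (P (t + 1)) (V (t + 1)) ≤ per2 P V N :=
  Finset.single_le_sum (f := fun t => ds (V t) (P (t + 1)) + ds (P (t + 1)) (V (t + 1)))
    (fun _ _ => add_nonneg (ds_nonneg _ _) (ds_nonneg _ _)) (Finset.mem_range.2 h)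
theorem c_le_len2 (P V : ℕ → MM Γ a) {t : ℕ} (h : t ≤ N) : ds (V t) (P (t + 1)) ≤ len2 P V N := by
  rw [len2_eq]
  linarith [le_per2 P V (Nat.lt_succ_of_le h), ds_nonneg (P 0) (V 0),
    ds_nonneg (P (t + 1)) (V (t + 1))]
theorem a_le_len2 (P V : ℕ → MM Γ a) {t : ℕ} (h : t ≤ N + 1) : ds (P t) (V t) ≤ len2 P V N := by
  rw [len2_eq]
  cases t with
  | zero => linarith [per2_nonneg P V (N + 1)]
  | succ t =>
    linarith [le_per2 P V (show t < N + 1 by omega), ds_nonneg (P 0) (V 0),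
      ds_nonneg (V t) (P (t + 1))]
theorem G2.zero (h : G2 μ P V 0) : On μ (V 0) (P 0) (P 1) ∧ On μ (P 1) (P 0) (V 1) := by
  rw [G2, len2_zero, zero_add] at h
  exact ⟨h.mono_left (by linarith [ds_tri (P 0) (P 1) (V 1)]),
    h.mono_left (by linarith [ds_tri (P 0) (V 0) (P 1)])⟩
theorem G2.step (h : G2 μ P V (N + 1)) : G2 μ P V N ∧ On μ (V (N + 1)) (P 0) (P (N + 2)) ∧
    On μ (P (N + 2)) (P 0) (V (N + 2)) := by
  rw [G2, len2_succ, show N + 1 + 1 = N + 2 from rfl] at h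
  have a1 := ds_le_len2 P V N
  have a2 := ds_tri (P 0) (P (N + 2)) (V (N + 2))
  have a3 := ds_tri (P 0) (V (N + 1)) (P (N + 2))
  exact ⟨h.mono_left (by linarith), h.mono_left (by linarith), h.mono_left (by linarith)⟩

theorem Cvr.refl (h0 : 0 ≤ μ) (X : MM Γ a → Prop) (x : MM Γ a) : Cvr μ X x x :=
  ⟨[], by simp, geo_nil h0, by simp⟩
theorem Cvr.single (h0 : 0 ≤ μ) (h : X (x⁻¹ * y)) : Cvr μ X x y :=
  ⟨[x⁻¹ * y], by simp, geo_single h0 _, by simpa using h⟩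
theorem Cvr.trans (h : Cvr μ X x y) (h' : Cvr μ X y z) (o : On μ y x z) : Cvr μ X x z := by
  obtain ⟨L, a1, a2, a3⟩ := h
  obtain ⟨L', b1, b2, b3⟩ := h'
  refine ⟨L ++ L', by rw [List.prod_append, a1, b1]; group, geo_append.2 ⟨a2, b2, ?_⟩,
    List.forall_mem_append.2 ⟨a3, b3⟩⟩
  rw [a1, b1]
  simpa [mul_assoc] using o.mul x⁻¹
theorem Geo.le_mem {L : List (MM Γ a)} (h : Geo μ L) (k : Ls (ln L.prod) μ) (hx : x ∈ L) :
    Ls (ln x) μ := by
  have := List.single_le_sum (l := L.map ln) (by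
    simpa using fun y _ => ln_nonneg y) _ (List.mem_map_of_mem hx)
  exact Ls.mono_left (by linarith) (h.ls.add k)
theorem exists_long (hμ : Big μ) : ∀ {L : List (MM Γ a)}, Ls μ (ln L.prod) → ∃ x ∈ L, Ls μ (ln x)
  | [], h => absurd (by simpa using h) ((Ll.zero hμ.pos.le).not_ls hμ.pos)
  | x :: L, h => by
    rcases Ls.add_cases (h.mono_right (by simpa using ln_mul_le x L.prod)) with k | k
    · exact ⟨x, by simp, k⟩
    · obtain ⟨y, hy, k⟩ := exists_long hμ k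
      exact ⟨y, by simp [hy], k⟩
end paths

end Pool.Agent.P.MP_dba3d2_lc
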