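import Pool.Agent.P.MP_dba3d2_lc.C.IfaceP
import Pool.Agent.P.MP_dba3d2_lc.A.Iface
import Pool.Agent.P.MP_dba3d2_lc.B.Iface
import Pool.Agent.P.MP_dba3d2_lc.C.IfaceL
import Pool.Agent.P.MP_dba3d2_lc.C.IfaceQ
import Pool.Agent.P.MP_dba3d2_lc.C.QTb

/-! Step PA of the stability project. -/

namespace Pool.Agent.P.MP_dba3d2_lc

open Filter

theorem p_PA (hELEM : S_ELEM) (hPERC : S_PERC) (hROOT : S_ROOT) (hC2_HFIN : S_C2_HFIN) (hC2_HEXT : S_C2_HEXT) (hQ_MIX2 : S_Q_MIX2) (hQ_COV : S_Q_COV) (hQ_ALL : S_Q_ALL) (hQ_PCH : S_Q_PCH) :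
    S_PA := by
  intro Γ a H l u hH hl hk T
  have D : LimD H u := hl.limD hH hk
  have uT : u ∈ T := Subgroup.mem_sup_right (Subgroup.subset_closure ⟨0, rfl⟩)
  have a1 : At H u 1 (.inl u) := Or.inr ⟨D, by simp⟩
  have a2 : At H u u (.inl u) := Or.inl (co_refl H u)
  have C : Cn H u T := Cn.of_gen hH rfl (by rintro _ ⟨_, rfl⟩; exact ⟨_, a1, a2⟩) fun _ => uT
  obtain ⟨b1, b2⟩ := hQ_PCH Γ a H u hH D
  refine ⟨hQ_ALL Γ a H T u C fun c hc hp f hf he n hn => ?_, fun K hK hf => ?_,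
    hC2_HEXT Γ a H 1 _ b1, fun x hx hy n => ?_, fun t ht hb => ?_⟩
  · obtain ⟨f', k1, k2⟩ := hH.pur c hc hp f (b2 c hc hp f hf he) he n hn
    exact ⟨f', C.le k1, k2⟩
  · obtain ⟨p, k1, k2⟩ := hC2_HFIN _ H _ _ b1 K hK hf
    exact ⟨p, k1, Or.inl k2⟩
  · by_contra k
    have e : Ll (l n) (ds u (x * u)) := fun m => by
      rw [ds_conj]
      exact (not_le.1 fun j => k ⟨m, j⟩).le
    have hμ := (hl.big n).of_ls e.ls
    obtain ⟨v, hv, k1⟩ := hl.apx n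
    have k2 := Ll.ls_left k1 e
    have s1 : Sd H 1 u (x * u) := Or.inr ⟨hμ, v, hv, x * v, mul_mem hx hv, by rwa [one_mul],
      by rwa [one_mul, ds_mul_left]⟩
    have s2 : Sd H u u (x * u) := Or.inl ⟨co_refl H u, by rwa [← mul_assoc]⟩
    have o1 := on_left hμ.pos.le u (x * u)
    have o2 := on_right hμ.pos.le u (x * u)
    have nm : (1 : MM Γ a)⁻¹ * u ∉ H := by simpa using D.not_mem
    rcases Sd.ov hELEM hPERC hROOT hH hμ s1 s2 (Ls.refl' _) (Ls.refl' _)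
      ⟨Ls.refl' _, o1, o2, o1, o2⟩ with j | ⟨d, j1, j2, -⟩
    · exact nm j
    · exact hQ_MIX2 Γ a H u 1 u (.inl u) (.inr d) hH nm a1 a2 j1 j2
  · obtain ⟨L, e, hG, hL⟩ := hQ_COV Γ a H T u C _ hb t ht (Ls.refl' _)
    rw [inv_one, one_mul] at e
    obtain ⟨x, hx, k⟩ := exists_long hb (L := L) (e ▸ Ls.refl' _)
    refine ⟨x, ?_, k, hG.le_mem (e ▸ Ls.refl' _) hx⟩
    rcases hL x hx with j | ⟨j, c, hc, hp, -, -, he⟩ | ⟨-, -, j⟩
    · exact j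
    · exact b2 c hc hp x j he
    · exact absurd k (j.not_ls hb.pos)

end Pool.Agent.P.MP_dba3d2_lc
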