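import Pool.Agent.P.MP_dba3d2_lc.C.Iface
import Pool.Agent.P.MP_dba3d2_lc.A.Iface
import Pool.Agent.P.MP_dba3d2_lc.B.Iface
import Pool.Agent.P.MP_dba3d2_lc.C.IfaceL
import Pool.Agent.P.MP_dba3d2_lc.C.IfaceL2
import Pool.Agent.P.MP_dba3d2_lc.C.LTb

/-! Step PT of the stability project. -/

namespace Pool.Agent.P.MP_dba3d2_lc

open Filter

theorem p_PT (hELEM : S_ELEM) (hPERC : S_PERC) (hROOT : S_ROOT) (hC2_RW : S_C2_RW) (hC2_RX : S_C2_RX) (hC2_TOP : S_C2_TOP) (hC2_HST : S_C2_HST) (hC2_HFIN : S_C2_HFIN) (hC2_HEXT : S_C2_HEXT) (hC2_PJN : S_C2_PJN) (hC2_PGEO : S_C2_PGEO) :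
    S_PT := by
  intro Γ a μ B p h hμ hB bd hh on far fix
  have D : PtD μ B p h := ⟨hμ, hB, bd, hh, on, far, fix⟩
  obtain ⟨j1, j2, j3⟩ := hC2_PJN Γ a μ B p h D
  obtain ⟨g1, g2⟩ := hC2_PGEO Γ a μ B p h D
  have rw := hC2_RW _ B _ _ _ (hws B fun _ : Fin 1 => p)
  rw [closure_hv] at rw
  have wb : WBr B (hv fun _ : Fin 1 => p) (HP B fun _ : Fin 1 => p) := fun l hl l0 hm => by
    obtain ⟨-, -, -, -, n⟩ := g1 l hl _ (inv_mem hm)
    obtain ⟨t, t', a1, a2, a3, -⟩ := n l0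
    rw [mul_inv_cancel] at a1 a2
    simpa using (On.nondeg hμ a1 a2 a3).pos hμ.pos
  have hf := hC2_HFIN _ B _ _ wb
  have gen : B ⊔ Subgroup.closure (Set.range fun _ : Fin 1 => p) =
      Subgroup.closure (B ∪ Set.range fun _ : Fin 1 => p) := by
    rw [Subgroup.closure_union, Subgroup.closure_eq]
  have pT : p ∈ B ⊔ Subgroup.closure (Set.range fun _ : Fin 1 => p) :=
    Subgroup.mem_sup_right (Subgroup.subset_closure ⟨0, rfl⟩)
  have bT : B ⊔ Subgroup.closure (Set.range fun _ : Fin 1 => p) ≤ ball Γ μ :=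
    sup_le bd ((Subgroup.closure_le _).2 (by
      rintro _ ⟨_, rfl⟩
      exact (mem_ball hμ.pos.le).2 j1))
  have le : B ≤ B ⊔ Subgroup.closure (Set.range fun _ : Fin 1 => p) := le_sup_left
  refine (fun H : _ ∧ _ => ⟨H.1, hC2_HEXT Γ a B 1 _ wb, fun x hx => (j2 x hx).1, H.2⟩) ?_
  generalize B ⊔ Subgroup.closure (Set.range fun _ : Fin 1 => p) = T at *
  have αT : ∀ α, α = 1 ∨ α = p → α ∈ T := by
    rintro _ (rfl | rfl)
    exacts [one_mem _, pT]
  obtain ⟨top, ep, star⟩ := hC2_HST Γ a μ B T hμ hB le bT fun z hz z0 => by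
    obtain ⟨l, b, hb, hl, rfl⟩ := (rw z hz).1
    obtain ⟨-, -, -, -, n⟩ := g1 l hl b hb
    exact n (by rintro rfl; exact z0 (by simpa using hb))
  have star := star fun c hc hm => by
    obtain ⟨g, hg, e | ⟨l, l0, e, hl⟩ | ⟨b, -, s, -, e⟩⟩ := (rw c hc).2
    · exact ⟨g, hg, e⟩
    · obtain ⟨α, hα, L, e1, e2⟩ := g2 l l0 hl
      have hα := αT α hα
      rw [← e] at e1
      by_cases hL : L.prod ∈ B
      · exact ⟨g * α, mul_mem hg hα, by simpa only [e1, mul_inv_rev, mul_assoc] using hL⟩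
      · have := e2.md hμ (top _ (e1 ▸ mul_mem (mul_mem (inv_mem hα)
          (mul_mem (mul_mem (inv_mem hg) hc) hg)) hα) hL)
        rw [e1, md_conj, md_conj] at this
        exact (hm.not_ls hμ.pos this).elim
    · exact (e.2.1 rfl).elim
  obtain ⟨gc, per⟩ := hC2_TOP Γ a μ B T B _
    { big := hμ, gc := hB, le := le, bd := bT, top := top, star := star, gen := gen
      cov := fun t ht => by
        obtain ⟨l, b, hb, hl, rfl⟩ := (rw t ht).1
        obtain ⟨L, e1, e2, e3, -⟩ := g1 l hl b hb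
        refine ⟨L, e1, e2, fun x hx => ?_⟩
        obtain ⟨α, α', a1, a2, β, hβ, rfl⟩ := e3 x hx
        obtain ⟨y, hy, y', hy', o1, o2⟩ := (j3 α α' a1 a2 β hβ).1
        refine ⟨mul_mem (mul_mem (inv_mem (αT _ a1)) (le hβ)) (αT _ a2), α⁻¹ * y,
          mul_mem (inv_mem (αT _ a1)) (le hy), y⁻¹ * y', mul_mem (inv_mem hy) hy', ?_, ?_⟩
        · simpa [mul_assoc] using o1.mul α⁻¹
        · simpa [mul_assoc] using o2.mul α⁻¹
      w2 := fun w hw w' hw' g r q o n =>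
        le (hB.g2 μ hμ w hw w' hw' (ball_ls hμ bd hw) (ball_ls hμ bd hw') g r q o n)
      w20 := fun w hw r q n o1 o2 e => by
        obtain ⟨c, hc, e⟩ := hB.g20 μ hμ w hw (ball_ls hμ bd hw) r q n o1 o2 e
        exact ⟨c, le hc, e⟩
      ex1 := fun s hs d _ hd hm => by
        obtain ⟨-, r2, -, r4, r5⟩ := hC2_RX Γ a μ T d hμ hd.1 hm
        have r5 := r5 B le hB bd hd
        obtain hs | ⟨_, rfl⟩ := hs
        · exact r5 s hs
        obtain e | ⟨r, r', n, o1, o2, st⟩ := r4 1 p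
        · exact e
        have dB := hB.per_mem hELEM hPERC hROOT hμ (one_mem _) hh (ball_ds hμ bd (one_mem _) hh) n
          (on.sub o1).1 (on.sub o2).1 hd st
        obtain e | ⟨q, -, -, o3, -, st', -⟩ := r4 h p
        · exact r2 _ _ _ (r5 h hh) e
        · exact (hd.1 (fix d dB (fix_conv hμ st.1 st' ((on.sub o1).2.sub' o3.symm).2)).2).elim
      pur1 := fun c hc h1 f hf h2 n hn => by
        obtain ⟨f', h3, e⟩ := hB.pur c hc h1 f (ep c hc h1 f hf h2) h2 n hn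
        exact ⟨f', le h3, e⟩ }
  refine ⟨⟨gc, bT, fun K k1 k2 => ?_, per, top⟩, ep⟩
  obtain ⟨q, hq, e⟩ := hf K k1 k2
  exact ⟨q, hq, Or.inl e⟩

end Pool.Agent.P.MP_dba3d2_lc
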