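import Pool.Agent.P.MP_dba3d2_lc.C.DefsT
import Pool.Agent.P.MP_dba3d2_lc.C.LTb

/-! Toolbox for two factors, value level. -/

namespace Pool.Agent.P.MP_dba3d2_lc

open Filter

variable {Γ : HG} {a : Amb} {F : Bool → Subgroup (MM Γ a)} {o o' : Option Bool}
  {b b' c d x y g w : MM Γ a} {t : Tg Γ a} {ν : a.K}

theorem M_le_F (i : Bool) : XF F none ≤ F i := by
  cases i
  exacts [inf_le_left, inf_le_right]
theorem mem_M_iff (i : Bool) : x ∈ XF F none ↔ x ∈ F i ∧ x ∈ F (!i) := by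
  cases i
  exacts [Iff.rfl, and_comm]
theorem M_le_XF (o : Option Bool) : XF F none ≤ XF F o := by
  cases o
  exacts [le_rfl, M_le_F _]
theorem F_le_P (i : Bool) : F i ≤ F false ⊔ F true := by
  cases i
  exacts [le_sup_left, le_sup_right]
theorem XF_le_P (o : Option Bool) : XF F o ≤ F false ⊔ F true := by
  cases o
  exacts [(M_le_F false).trans (F_le_P false), F_le_P _]
theorem XF_le_F {i : Bool} (h : o = none ∨ o = some i) : XF F o ≤ F i := by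
  rcases h with rfl | rfl
  exacts [M_le_F i, le_rfl]
theorem exists_F (o : Option Bool) : ∃ i, o = none ∨ o = some i := by
  cases o
  exacts [⟨false, .inl rfl⟩, ⟨_, .inr rfl⟩]
/-- two types lie in one factor or are the two factors -/
theorem opt_cases (o o' : Option Bool) :
    (∃ i, (o = none ∨ o = some i) ∧ (o' = none ∨ o' = some i)) ∨
      ∃ i, o = some i ∧ o' = some (!i) := by
  rcases o with _ | _ | _ <;> rcases o' with _ | _ | _ <;> simp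
theorem TwoF.gcx (h : TwoF F) (o : Option Bool) : GC0 (XF F o) := by
  cases o
  exacts [h.gcm, h.gc _]
theorem std_le_M (h : TwoF F) (hx : ¬ Big (ln x)) : x ∈ XF F none := h.gcm.of_not_big hx

theorem EF_le_Ep : EF F c ≤ Ep c := sup_le inf_le_right inf_le_right
theorem EF_le_P : EF F c ≤ F false ⊔ F true := sup_le_sup inf_le_left inf_le_left
theorem mem_EF (i : Bool) (h1 : x ∈ F i) (h2 : x ∈ Ep c) : x ∈ EF F c := by
  cases i
  exacts [Subgroup.mem_sup_left ⟨h1, h2⟩, Subgroup.mem_sup_right ⟨h1, h2⟩]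
theorem mem_EF' (o : Option Bool) (h1 : x ∈ XF F o) (h2 : x ∈ Ep c) : x ∈ EF F c := by
  obtain ⟨i, hi⟩ := exists_F o
  exact mem_EF i (XF_le_F hi h1) h2
theorem EF_congr (h : Ep c = Ep d) : EF F c = EF F d := by rw [EF, EF, h]
theorem EF_conj' (hb : b ∈ XF F none) (h : Cj b c d) (hx : x ∈ EF F d) : b⁻¹ * x * b ∈ EF F c := by
  simpa using EF_conj (inv_mem hb) h.inv hx
theorem LF_le_P (t : Tg Γ a) : LF F t ≤ F false ⊔ F true := by
  cases t
  exacts [XF_le_P _, EF_le_P]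
theorem mem_IE : g ∈ IE c ↔ InE c g :=
  Bas1.mem_clo (s := {g | InE c g}) (InE.of_mem (one_mem _)) (fun _ h _ h' => InE.mul h h') fun _ h => InE.inv h
theorem TOK.top {S : Option Bool → Prop} (h : TOK F S t) : TOK F (fun _ => True) t := by
  cases t
  exacts [trivial, h]
theorem Cj.mem_Ep (h : Cj g c d) (hx : x ∈ Ep c) : g * x * g⁻¹ ∈ Ep d := by
  rw [← h, mem_Ep_conj]
  simpa [mul_assoc] using hx
theorem Cj.mem_Ep' (h : Cj g c d) (hx : x ∈ Ep d) : g⁻¹ * x * g ∈ Ep c := by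
  simpa using h.inv.mem_Ep hx
theorem Cj.self' (x c : MM Γ a) : Cj x (x⁻¹ * c * x) c := congrArg Ep (by group)
theorem Cj.ep (h : Cj x d c) : Ep (x⁻¹ * c * x) = Ep d := by
  have := h.inv
  rwa [Cj, inv_inv] at this

/-- centring inside the base or a factor -/
theorem TwoF.cenx (h : TwoF F) (hb : b ∈ XF F o) (hp : Prim b) : ∃ p ∈ XF F o,
    p⁻¹ * b * p ∈ XF F o ∧ Prim (p⁻¹ * b * p) ∧ Cen (p⁻¹ * b * p) ∧ Cj p (p⁻¹ * b * p) b := by
  obtain ⟨p, h1, -, h2⟩ := (h.gcx o).cen1 hb hp.1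
  exact ⟨p, h1, mul_mem (mul_mem (inv_mem h1) hb) h1, hp.conj' p, h2, Cj.self' p b⟩
theorem TwoF.root4 (hR : S_ROOT) (h : TwoF F) (hc : c ∈ XF F o) (h1 : ¬ IsOfFinOrder c)
    (hd : Prim d) (e : Ep d = Ep c) : d ∈ XF F o :=
  (hR Γ a _ (h.gcx o)).2.2.2.1 c hc h1 d hd e
theorem TwoF.root3 (hR : S_ROOT) (h : TwoF F) (hc : c ∈ XF F o) (h1 : ¬ IsOfFinOrder c)
    (hx : x ∈ Ep c) (e : IsOfFinOrder x) : x ∈ XF F o :=
  (hR Γ a _ (h.gcx o)).2.2.1 c hc h1 x hx e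
/-- a conjugator between elements of `XF F o` is an element of `XF F o` times an exponent -/
theorem TwoF.root6 (hR : S_ROOT) (h : TwoF F) (hc : c ∈ XF F o) (hd : d ∈ XF F o)
    (h1 : ¬ IsOfFinOrder c) (h2 : ¬ IsOfFinOrder d) (e : Cj x d c) :
    ∃ g ∈ XF F o, Cj g d c ∧ x * g⁻¹ ∈ Ep c ∧ g⁻¹ * x ∈ Ep d := by
  obtain ⟨g, k1, k2⟩ := (hR Γ a _ (h.gcx o)).2.2.2.2.2 c hc d hd h1 h2 x e
  have k3 : Cj g d c := by
    have := (Cj.of_mem (inv_mem k2)).mul e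
    rwa [show (x * g⁻¹)⁻¹ * x = g by group] at this
  refine ⟨g, k1, k3, k2, ?_⟩
  have := k3.mem_Ep' k2
  rwa [show g⁻¹ * (x * g⁻¹) * g = g⁻¹ * x by group] at this

theorem kx_pos (o : Option Bool) : 0 < kx o := by cases o <;> simp [kx]
theorem kc_pos (t : Tg Γ a) : 0 < kc t := by
  cases t
  exacts [kx_pos _, two_pos]
@[simp] theorem kx_none : kx none = 1 := rfl
@[simp] theorem kx_some (i : Bool) : kx (some i) = 5 := rfl
@[simp] theorem kc_inl (o : Option Bool) : kc (.inl o : Tg Γ a) = kx o := rfl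
@[simp] theorem kc_inr (c : MM Γ a) : kc (.inr c : Tg Γ a) = 2 := rfl
@[simp] theorem k0_inl (o : Option Bool) : k0 (.inl o : Tg Γ a) = kx o := rfl
@[simp] theorem k0_inr (c : MM Γ a) : k0 (.inr c : Tg Γ a) = 0 := rfl
@[simp] theorem bt_inl (o : Option Bool) : bt (.inl o : Tg Γ a) = o := rfl
@[simp] theorem bt_inr (c : MM Γ a) : bt (.inr c : Tg Γ a) = none := rfl
@[simp] theorem LF_inl (o : Option Bool) : LF F (.inl o) = XF F o := rfl
@[simp] theorem LF_inr (c : MM Γ a) : LF F (.inr c) = EF F c := rfl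
@[simp] theorem XF_some (i : Bool) : XF F (some i) = F i := rfl
theorem kx_bt_le (t : Tg Γ a) : kx (bt t) ≤ kc t := by cases t <;> simp
theorem kc_eq_one (h : kc t ≤ 1) : t = .inl none := by
  rcases t with (_ | _) | _ <;> simp at h ⊢

theorem TC1.symm (h : TC1 F o o' b b' w) : TC1 F o' o b' b w⁻¹ := by
  rcases h with ⟨c, h1, h2, h3, e, h4, g, h5, g', h6, rfl, h7, h8⟩ | ⟨i, h1, h2, h3⟩
  · exact .inl ⟨c, h1, h2, h3, e⁻¹, inv_mem h4, g', h6, g, h5, by group, h8, h7⟩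
  · exact .inr ⟨i, h2, h1, inv_mem h3⟩
theorem TC1.congr {b1 b1' : MM Γ a} (h : TC1 F o o' b1 b1' w) (e1 : Ep b = Ep b1)
    (e2 : Ep b' = Ep b1') : TC1 F o o' b b' w := by
  rcases h with ⟨c, h1, h2, h3, e, h4, g, h5, g', h6, rfl, h7, h8⟩ | h
  · exact .inl ⟨c, h1, h2, h3, e, h4, g, h5, g', h6, rfl, h7.congr rfl e1, h8.congr rfl e2⟩
  · exact .inr h
theorem TC1.left (hg : g ∈ XF F o) (h : TC1 F o o' (g⁻¹ * b * g) b' w) :
    TC1 F o o' b b' (g * w) := by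
  rcases h with ⟨c, h1, h2, h3, e, h4, k, h5, g', h6, rfl, h7, h8⟩ | ⟨i, rfl, h2, h3⟩
  · exact .inl ⟨c, h1, h2, h3, e, h4, g * k, mul_mem hg h5, g', h6, by group,
      (Cj.self' g b).mul h7, h8⟩
  · exact .inr ⟨i, rfl, h2, mul_mem hg h3⟩
theorem TC1.right (hg : g ∈ XF F o') (h : TC1 F o o' b (g * b' * g⁻¹) w) :
    TC1 F o o' b b' (w * g) := by
  have := (TC1.left (b := b') (inv_mem hg) (by simpa using h.symm)).symm
  simpa using this
theorem TC1.efl (hx : x ∈ EF F b) (h : TC1 F none o' b b' w) : TC1 F none o' b b' (x * w) := by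
  rcases h with ⟨c, h1, h2, h3, e, h4, k, h5, g', h6, rfl, h7, h8⟩ | ⟨i, h1, -⟩
  · exact .inl ⟨c, h1, h2, h3, k⁻¹ * x * k * e, mul_mem (EF_conj' h5 h7 hx) h4, k, h5, g', h6,
      by group, h7, h8⟩
  · cases h1
theorem TC1.efr (hx : x ∈ EF F b') (h : TC1 F o none b b' w) : TC1 F o none b b' (w * x) := by
  simpa using (h.symm.efl (inv_mem hx)).symm
theorem TC1.weakl (h : TC1 F none o' b b' w) (o : Option Bool) : TC1 F o o' b b' w := by
  rcases h with ⟨c, h1, h2, h3, e, h4, k, h5, g', h6, rfl, h7, h8⟩ | ⟨i, h1, -⟩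
  · exact .inl ⟨c, h1, h2, h3, e, h4, k, M_le_XF o h5, g', h6, rfl, h7, h8⟩
  · cases h1
theorem TC1.weakr (h : TC1 F o none b b' w) (o' : Option Bool) : TC1 F o o' b b' w := by
  simpa using (h.symm.weakl o').symm
theorem TC.symm (h : TC F o o' w) : TC F o' o w⁻¹ := fun b hb b' hb' p p' e =>
  (h b' hb' b hb p' p (by simpa using e.inv)).symm

theorem pair_inr_left (s : Tg Γ a × MM Γ a) (x y : MM Γ a) :
    Pair F (.inr c, x) s ↔ Pair F (.inr c, y) s := by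
  obtain ⟨_ | _, _⟩ := s <;> rfl
theorem pair_inr_right (s : Tg Γ a × MM Γ a) (x y : MM Γ a) :
    Pair F s (.inr c, x) ↔ Pair F s (.inr c, y) := by
  obtain ⟨_ | _, _⟩ := s <;> rfl
theorem rp_inr_left (s : Tg Γ a × MM Γ a) (x y : MM Γ a) :
    RP F (.inr c, x) s ↔ RP F (.inr c, y) s := by
  obtain ⟨_ | _, _⟩ := s <;> rfl
theorem rp_inr_right (s : Tg Γ a × MM Γ a) (x y : MM Γ a) :
    RP F s (.inr c, x) ↔ RP F s (.inr c, y) := by
  obtain ⟨_ | _, _⟩ := s <;> rfl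
theorem Pair.inv {s s' : Tg Γ a × MM Γ a} (h : Pair F s s') : Pair F (sinv s') (sinv s) := by
  obtain ⟨o | c, y⟩ := s <;> obtain ⟨o' | c', y'⟩ := s'
  · obtain ⟨i, rfl, rfl, h⟩ := h
    refine ⟨!i, rfl, by simp, ?_⟩
    simp only [Bool.not_not, inv_inv, inv_mem_iff]
    exact h.symm
  · simpa only [sinv, Pair, inv_inv] using h
  · exact h
  · exact Ne.symm h
theorem ne_one (c : MM Γ a) : NE c 1 := fun h => by simpa using h.pos
/-- an arc that follows the axis contradicts the normalisation -/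
theorem NE.not_fol (h : NE c y) (hν : Big ν) (h1 : Ls (ln y) ν) : ¬ Fol ν y⁻¹ c := by
  rintro ⟨q, q1, q2, q3⟩
  have s : Sim (ln y) ν := ⟨h1, by
    simpa using On.nondeg hν (on_left hν.pos.le 1 y⁻¹) q2 (by simpa using q1)⟩
  exact h (s.big_iff.2 hν) ((s.ll_iff (ln_nonneg _) hν.pos.le).2 q3.md)
    ((s.fol_iff (ln_nonneg _) hν.pos.le).2 ⟨q, q1, q2, q3⟩)
theorem Arc.congr {p q p' q' : MM Γ a} (h : Arc F ν t y p q) (hp : Ll (ds p p') ν)
    (hq : Ll (ds q q') ν) : Arc F ν t y p' q' := by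
  have z : ∀ u : MM Γ a, Ll (ds u u) ν := fun u => Ll.of_nonpos (by simp) hp.nonneg
  cases t with
  | inr c => exact Stab.congr h hp hq
  | inl o =>
    rcases h with ⟨h1, h2, h3⟩ | ⟨b, h1, h2, h3, h4⟩
    · exact .inl ⟨h1, h2.congr hp (z _) (z _), h3.congr hq (z _) (z _)⟩
    · exact .inr ⟨b, h1, h2, h3, h4.congr hp hq⟩
/-- a conjugator of centred elements runs along the axis -/
theorem axis_stab (hE : S_ELEM) (hL : S_LINE) (hb : Prim b) (hb' : Prim b') (c1 : Cen b)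
    (c2 : Cen b') (h : Cj g b' b) (hm : Ll (md b) ν) :
    Ll (md b') ν ∧ Stab ν 1 g b ∧ Stab ν 1 g⁻¹ b' := by
  have m' : Ll (md b') ν := by
    have := (hb'.conj g).md_ls hE hL hb.1 h
    rw [md_conj'] at this
    exact Ll.ls_left this hm
  have l := c1.ll hm
  have l' := c2.ll m'
  refine ⟨m', ⟨by rwa [ds_one_mul], hb.fix hE hL (hb'.conj g).1 h.symm ?_⟩,
    ⟨by rwa [ds_one_mul], hb'.fix hE hL (hb.conj g⁻¹).1 h.inv.symm ?_⟩⟩
  · rwa [inv_mul_cancel_right, ds_mul_right]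
  · rwa [inv_mul_cancel_right, ds_mul_right]
theorem geo_inv {L : List (MM Γ a)} (h : Geo ν L) : Geo ν (L.map fun x => x⁻¹).reverse := by
  rw [Geo, ← List.prod_inv_reverse, ln_inv, List.map_reverse, List.sum_reverse, List.map_map]
  have : (ln ∘ fun x : MM Γ a => x⁻¹) = ln := funext fun x => ln_inv x
  rwa [this]
theorem Typ.endI (h : Typ F none b) : EndL F b (.inr b, 1) := ⟨rfl, h.1, h.2.1, h.2.2.1, rfl⟩
theorem Typ.endII (h : Typ F o b) (h0 : o ≠ none) (hy : y ∈ XF F o) : EndL F b (.inl o, y) :=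
  ⟨h0, hy, h.1, h.2.1, h.2.2.1⟩
theorem EndL.far {s : Tg Γ a × MM Γ a} (h : EndL F b s) (h' : Typ F (bt s.1) b) : Far F b s := by
  obtain ⟨t, y⟩ := s
  rintro o rfl
  exact h'.2.2.2 h.1 y h.2.1
theorem EndL.axis {s : Tg Γ a × MM Γ a} (h : EndL F b s) :
    b ∈ XF F (bt s.1) ∧ Prim b ∧ Cen b := by
  obtain ⟨_ | _, y⟩ := s
  exacts [h.2.2, ⟨h.2.1, h.2.2.1, h.2.2.2.1⟩]
theorem EndL.ok {s : Tg Γ a × MM Γ a} (h : EndL F b s) : (idC F).ok s := by
  obtain ⟨_ | _, y⟩ := s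
  · exact ⟨trivial, h.2.1⟩
  · obtain ⟨rfl, h1, h2, h3, rfl⟩ := h
    exact ⟨⟨h1, h2, h3⟩, one_mem _⟩
theorem EndL.cases {s : Tg Γ a × MM Γ a} (h : EndL F b s) :
    s = (.inr b, 1) ∧ b ∈ XF F none ∨ ∃ i y, s = (.inl (some i), y) ∧ y ∈ F i ∧ b ∈ F i := by
  obtain ⟨(_ | i) | _, y⟩ := s
  · exact absurd rfl h.1
  · exact .inr ⟨i, y, rfl, h.2.1, h.2.2.1⟩
  · obtain ⟨rfl, h1, -, -, rfl⟩ := h
    exact .inl ⟨rfl, h1⟩

end Pool.Agent.P.MP_dba3d2_lc
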