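import Pool.Agent.P.MP_dba3d2_lc.C.IfaceQ
import Pool.Agent.P.MP_dba3d2_lc.C.QTb
import Pool.Agent.P.MP_dba3d2_lc.C.IfaceE
import Pool.Agent.P.MP_dba3d2_lc.C.TTb0
import Pool.Agent.P.MP_dba3d2_lc.A.Iface
import Pool.Agent.P.MP_dba3d2_lc.B.Iface

/-! The closure conditions for connected coset spaces, from the abstract adjunction theorem. -/

namespace Pool.Agent.P.MP_dba3d2_lc

open Filter

namespace QAllB

variable {Γ : HG} {a : Amb} {H T : Subgroup (MM Γ a)} {u b b' d f h p x : MM Γ a} {μ : a.K}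

theorem al_of_fol (k : Fol μ (f⁻¹ * x) b) : Al μ (f * b * f⁻¹) f x := by
  obtain ⟨q, k1, k2, k3⟩ := k
  simpa using (al_mv (μ := μ) (d := b) (x := 1) (y := f⁻¹ * x) f).2 ⟨q, by simpa using k1, k2, k3⟩

theorem foot (hE : S_ELEM) (hL : S_LINE) (hR : S_ROOT) (hN : S_NORM) (D : Cn H u T) (hb : b ∈ H)
    (pb : Prim b) (cb : Cen b) (hp : p ∈ T) (m : p⁻¹ * b * p ∈ H) (ct : Ct b p) :
    ∃ f ∈ T, f ∈ Ep b ∧ Ls (ds f p) (md b) := by
  obtain ⟨y, hy, e⟩ := (hR Γ a H D.gc).2.2.2.2.2 b hb _ m pb.1 (pb.conj' p).1 p (Cj.self' p b)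
  obtain ⟨f, f1, f2, f3, -⟩ := (hN Γ a H D.gc).1 b hb pb cb y⁻¹ (inv_mem hy)
  have c1 : Ct b y := by
    have := (ct_mv (p * y⁻¹)⁻¹).2 ct
    rw [show (p * y⁻¹)⁻¹ * p = y by group] at this
    exact this.of_prim hE hL (pb.conj _) pb.1 (Ep_conj_mem (inv_mem e))
  refine ⟨p * y⁻¹ * f, mul_mem (mul_mem hp (inv_mem (D.le hy))) (D.le f1), mul_mem e f2, ?_⟩
  rw [ds_comm, ds, show p⁻¹ * (p * y⁻¹ * f) = y⁻¹ * f by group]
  rw [Ct, ds_conj] at c1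
  exact f3.trans' (by rwa [inv_inv])

theorem uniq (hμ : Big μ) (s : Stab μ p f b) (h1 : ¬ Al μ b p x) (h2 : ¬ Al μ b f x) :
    Ll (ds p f) μ := by
  obtain ⟨m, e, k⟩ := exists_median p f x
  have o := On.of_eq hμ.pos.le e
  have a1 := (ll_or_ls hμ.pos (ds p m)).resolve_right fun l =>
    h1 ⟨m, l, (k μ hμ).1, s.sub hμ (on_left hμ.pos.le _ _) o⟩
  have a2 := (ll_or_ls hμ.pos (ds f m)).resolve_right fun l =>
    h2 ⟨m, l, (k μ hμ).2, s.sub hμ (on_right hμ.pos.le _ _) o⟩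
  rw [← e, ds_comm m]
  exact a1.add a2

section
variable {g : ℕ → MM Γ a} {η : ℕ → Nd Γ a} {P V : ℕ → MM Γ a} {N : ℕ}

theorem lfoot (hT : S_Q_TOP) (D : Cn H u T) (k : NPa H u T g η P V N) (e : η 0 = .inr d) :
    V 0 ∈ T ∧ (V 0)⁻¹ * d * V 0 ∈ H ∧ Ct d (V 0) ∧ NA d (V 0) (P (N + 1)) := by
  have a1 := k.ch.l 0 (Nat.zero_le _)
  have a2 := (k.fe 0 (Nat.zero_le _)).f
  have a3 := (hT Γ a H T u g η P V N D.gc k).2.1
  rw [e] at a1 a2 a3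
  exact ⟨co_mem (D.le a2.1) (k.mem 0 (Nat.zero_le _)), Aj.foot a1 a2.1, a2.2, a3⟩

theorem rfoot (hT : S_Q_TOP) (D : Cn H u T) (k : NPa H u T g η P V N) (e : η (N + 1) = .inr d) :
    P (N + 1) ∈ T ∧ (P (N + 1))⁻¹ * d * P (N + 1) ∈ H ∧ Ct d (P (N + 1)) ∧
      NA d (P (N + 1)) (V 0) := by
  have a1 := k.ch.r N le_rfl
  have a2 := (k.fe N le_rfl).f'
  have a3 := (hT Γ a H T u g η P V N D.gc k).2.2
  rw [e] at a1 a2 a3
  exact ⟨co_mem (D.le a2.1) (k.mem N le_rfl), Aj.foot a1 a2.1, a2.2, a3⟩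

end

theorem n1 (hE : S_ELEM) (hL : S_LINE) (hR : S_ROOT) (hN : S_NORM) (hP : S_Q_PATH) (hT : S_Q_TOP)
    (D : Cn H u T) (hb : b ∈ H) (pb : Prim b) (cb : Cen b) (hx : x ∈ T) :
    ∃ f ∈ T, f ∈ Ep b ∧ NA b f x := by
  obtain ⟨g, η, P, V, N, k, e0, e1⟩ := hP Γ a H T u D (.inr b) (.inl x)
    ⟨1, one_mem _, aj_one.2 ⟨pb, hb⟩⟩ ⟨x, hx, co_refl H x⟩ fun _ _ _ e => by cases e
  obtain ⟨a1, a2, a3, a4⟩ := lfoot hT D k e0
  have a5 := (k.fe N le_rfl).f'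
  rw [e1] at a5
  rw [show P (N + 1) = x from a5] at a4
  obtain ⟨f, f1, f2, f3⟩ := foot hE hL hR hN D hb pb cb a1 a2 a3
  refine ⟨f, f1, f2, fun μ hμ l al => ?_⟩
  have s : Ll (ds f (V 0)) μ := Ll.ls_left f3 (let ⟨_, _, _, k⟩ := al; k.md)
  refine a4 μ hμ (Ls.mono_left (ds_tri _ f _) ((FixA.ll_comm s).ls.add l))
    (al.congr hμ s (FixA.ll_self hμ.pos.le _))

theorem ne (hE : S_ELEM) (hL : S_LINE) (pb : Prim b) (hf : f ∈ Ep b) (k : NA b f x) :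
    NE b (x⁻¹ * f) := fun hb _ fo => by
  rw [mul_inv_rev, inv_inv] at fo
  exact k _ hb (by rw [ds_comm]; exact Ls.refl' _)
    ((al_of_fol fo).ep hE hL pb (pb.conj f).1 (Ep_conj_mem hf).symm)

theorem n2 (hE : S_ELEM) (hL : S_LINE) (hR : S_ROOT) (hN : S_NORM) (hP : S_Q_PATH) (hT : S_Q_TOP)
    (D : Cn H u T) (hb : b ∈ H) (hb' : b' ∈ H) (pb : Prim b) (cb : Cen b) (pb' : Prim b')
    (cb' : Cen b') (hh : h ∈ T) (hj : ¬ Cj h b' b) (le : md b ≤ md b') :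
    ∃ f ∈ T, ∃ f' ∈ T, f ∈ Ep b ∧ f' ∈ Ep b' ∧ NE b (f * h * f')⁻¹ ∧ NE b' (f * h * f') := by
  obtain ⟨g, η, P, V, N, k, e0, e1⟩ := hP Γ a H T u D (.inr b) (.inr (h * b' * h⁻¹))
    ⟨1, one_mem _, aj_one.2 ⟨pb, hb⟩⟩ ⟨h, hh, pb'.conj h, by simpa [mul_assoc] using hb'⟩
    (by rintro _ _ ⟨⟩ ⟨⟩ e; exact hj e.symm)
  obtain ⟨-, -, a3, a4⟩ := lfoot hT D k e0
  obtain ⟨b1, b2, b3, b4⟩ := rfoot hT D k e1
  generalize V 0 = p at a3 a4 b4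
  generalize P (N + 1) = p' at a4 b1 b2 b3 b4
  obtain ⟨f', f1, f2, f3⟩ := foot hE hL hR hN D hb' pb' cb' (mul_mem (inv_mem hh) b1)
    (by simpa [mul_assoc] using b2) ((ct_mv h).1 (by rwa [mul_inv_cancel_left]))
  rw [← ds_mul_left h, mul_inv_cancel_left] at f3
  obtain ⟨f, g1, g2, g3⟩ := n1 hE hL hR hN hP hT D hb pb cb (mul_mem hh f1)
  refine ⟨f⁻¹, inv_mem g1, f', f1, inv_mem g2, f2, ?_, fun big ll fo => ?_⟩
  · simpa [mul_assoc] using ne hE hL pb g2 g3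
  have e : ln (f⁻¹ * h * f') = ds f (h * f') := by rw [ds, mul_assoc]
  rw [e] at big ll fo
  generalize hμ : ds f (h * f') = μ at big ll fo
  have al : Al μ (h * b' * h⁻¹) (h * f') f :=
    (al_of_fol (f := h * f') (x := f) (by simpa [mul_assoc] using fo)).ep hE hL (pb'.conj h)
      (pb'.conj _).1 (Eq.symm ((Cj.self h b').mul (Cj.of_mem f2)))
  have s : Ll (ds (h * f') p') μ := Ll.ls_left f3 ll
  have n0 := ds_nonneg p p'
  have l0 : Ls μ (ds p p' + μ) := Ls.of_le (by linarith)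
  have hν : Big (ds p p' + μ) := big.of_ls l0
  have mb : Ll (md b) (ds p p' + μ) := (ll.mono_left le).ls_right l0 hν.pos.le
  have un : Ll (ds p f) (ds p p' + μ) :=
    uniq hν ⟨a3.ll mb, (pb.stab_ep hE hL (cb.ll mb) g2).2⟩
      (a4 _ hν (Ls.of_le (by linarith [big.pos]))) fun al => g3 _ hν (hμ ▸ l0)
        (al.congr hν (FixA.ll_self hν.pos.le _) (FixA.ll_comm (s.ls_right l0 hν.pos.le)))
  have l1 : Ls (ds p p' + μ) μ := by
    refine (Ls.refl' _).of_le_add (un.add (s.ls_right l0 hν.pos.le)) hν.pos 2 ?_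
    have t1 := ds_tri p f p'
    have t2 := ds_tri f (h * f') p'
    push_cast
    linarith
  exact b4 μ big (by rw [ds_comm]; exact l1.mono_left (by linarith [big.pos]))
    (al.congr big s (FixA.ll_comm (un.ls_right l1 big.pos.le)))

theorem all (hE : S_ELEM) (hL : S_LINE) (hR : S_ROOT) (hN : S_NORM) (hA : S_ADJ0)
    (hG : S_Q_RIGT) (hP : S_Q_PATH) (hT : S_Q_TOP) (hV : S_Q_COV) (hC : S_Q_CR) : S_Q_ALL := by
  intro Γ a H T u D pu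
  refine (hA Γ a H T ⟨D.gc, D.le, fun μ hμ h hh hl => ?_,
    fun b hb d hd pb _ pd _ w hw w' hw' f hf f' hf' e hj => ?_, fun γ hγ fi => ?_,
    fun b hb pb cb h hh => ?_, fun b hb b' hb' pb cb pb' cb' h hh hj => ?_, pu⟩).1
  · obtain ⟨L, l1, l2, l3⟩ := hV Γ a H T u D μ hμ h hh hl
    rw [inv_one, one_mul] at l1
    refine ⟨L, l1, l2, fun x hx => ?_⟩
    rcases l3 x hx with m | ⟨m, c, c1, c2, -, c4, c5⟩ | ⟨-, m, s⟩
    · exact ⟨D.le m, 1, one_mem _, .inl ⟨x, m, l2.le_mem (l1 ▸ hl) hx, on_left hμ.pos.le _ _,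
        by simpa using on_right hμ.pos.le _ _⟩⟩
    · exact ⟨m, 1, one_mem _, .inr fun _ => ⟨c, c1, c2, by simpa using c2.stab_ep hE hL c4 c5⟩⟩
    · exact ⟨m, 1, one_mem _, .inr fun k => absurd k (s.not_ls hμ.pos)⟩
  · have tb : TP H T b := ⟨1, one_mem _, aj_one.2 ⟨pb, hb⟩⟩
    have td : TP H T d := ⟨1, one_mem _, aj_one.2 ⟨pd, hd⟩⟩
    refine hG Γ a H T u D b _ b _ tb (td.conj hw) tb (td.conj hw') (fun k => hj k.symm) f
      (Cj.of_mem hf) ?_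
    have := ((Cj.self w d).mul (Cj.of_mem hf')).mul (Cj.self w' d).inv
    rwa [← e, mul_inv_cancel_right] at this
  · obtain ⟨p, hp, k⟩ := hC Γ a H T u D γ hγ fi
    exact ⟨p, hp, .inr (ct_iff.1 k)⟩
  · obtain ⟨f, f1, f2, f3⟩ := n1 hE hL hR hN hP hT D hb pb cb (inv_mem hh)
    exact ⟨f, f1, f2, by simpa using ne hE hL pb f2 f3⟩
  · rcases le_total (md b) (md b') with l | l
    · exact n2 hE hL hR hN hP hT D hb hb' pb cb pb' cb' hh hj l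
    · obtain ⟨f, f1, f', f2, f3, f4, f5, f6⟩ := n2 hE hL hR hN hP hT D hb' hb pb' cb' pb cb
        (inv_mem hh) (fun k => hj (by simpa using k.inv)) l
      exact ⟨f'⁻¹, inv_mem f2, f⁻¹, inv_mem f1, inv_mem f4, inv_mem f3,
        by simpa [mul_assoc] using f6, by simpa [mul_assoc] using f5⟩

end QAllB

end Pool.Agent.P.MP_dba3d2_lc
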