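import Pool.Agent.P.MP_dba3d2_lc.C.IfaceQ
import Pool.Agent.P.MP_dba3d2_lc.A.Iface
import Pool.Agent.P.MP_dba3d2_lc.B.Iface
import Pool.Agent.P.MP_dba3d2_lc.C.IfaceE
import Pool.Agent.P.MP_dba3d2_lc.C.QTb
import Pool.Agent.P.MP_dba3d2_lc.C.QAllB

/-! Step Q_ALL of the stability project. -/

namespace Pool.Agent.P.MP_dba3d2_lc

open Filter

theorem p_Q_ALL (hELEM : S_ELEM) (hLINE : S_LINE) (hROOT : S_ROOT) (hNORM : S_NORM) (hADJ0 : S_ADJ0) (hQ_RIGT : S_Q_RIGT) (hQ_PATH : S_Q_PATH) (hQ_TOP : S_Q_TOP) (hQ_COV : S_Q_COV) (hQ_CR : S_Q_CR) :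
    S_Q_ALL :=
  QAllB.all hELEM hLINE hROOT hNORM hADJ0 hQ_RIGT hQ_PATH hQ_TOP hQ_COV hQ_CR

end Pool.Agent.P.MP_dba3d2_lc
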