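import Pool.Agent.P.MP_dba3d2_lc.C.IfaceQ
import Pool.Agent.P.MP_dba3d2_lc.A.Iface
import Pool.Agent.P.MP_dba3d2_lc.C.QTb

/-! Step Q_CEN of the stability project. -/

namespace Pool.Agent.P.MP_dba3d2_lc

open Filter

namespace Q_cenA

variable {Γ : HG} {a : Amb} {H T : Subgroup (MM Γ a)} {u c c' d d' p p' x : MM Γ a}

theorem a0 (hP : PerT H T) (hd : Prim d) (n : ¬ TP H T d) (hp : p ∈ T) (hx : x ∈ T) : NA d p x :=
  fun μ hμ hl ⟨q, q1, q2, q3⟩ => n (hP μ hμ p hp x hx hl p q q1 (on_left hμ.pos.le p x) q2 d hd q3)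

theorem a1 (hE : S_ELEM) (hL : S_LINE) (D : AllD H u T) (hP : PerT H T) (hc : c ∈ T)
    (ic : ¬ IsOfFinOrder c) (hd : Prim d) (e : Ep d = Ep c) (hx : x ∈ T) :
    ∃ p ∈ T, Ct c p ∧ NA d p x := by
  by_cases n : TP H T d
  · obtain ⟨p, h1, h2, h3⟩ := D.n1 d n x hx
    exact ⟨p, h1, h2.of_prim hE hL hd ic e, h3⟩
  · obtain ⟨p, h1, h2⟩ := D.cr c hc ic
    exact ⟨p, h1, h2, a0 hP hd n h1 hx⟩

theorem a2 (hE : S_ELEM) (hL : S_LINE) (D : AllD H u T) (hP : PerT H T) (hc : c ∈ T)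
    (ic : ¬ IsOfFinOrder c) (hd : Prim d) (e : Ep d = Ep c) (hc' : c' ∈ T)
    (ic' : ¬ IsOfFinOrder c') (hd' : Prim d') (e' : Ep d' = Ep c') (ne : Ep c ≠ Ep c') :
    ∃ p ∈ T, ∃ p' ∈ T, Ct c p ∧ Ct c' p' ∧ NA d p p' ∧ NA d' p' p := by
  by_cases n : TP H T d
  · by_cases n' : TP H T d'
    · obtain ⟨p, h1, p', h2, h3, h4, h5⟩ := D.n2 d d' n n' (by rwa [e, e'])
      exact ⟨p, h1, p', h2, h3.of_prim hE hL hd ic e, h4.of_prim hE hL hd' ic' e', h5⟩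
    · obtain ⟨p', h1, h2⟩ := D.cr c' hc' ic'
      obtain ⟨p, h3, h4, h5⟩ := a1 hE hL D hP hc ic hd e h1
      exact ⟨p, h3, p', h1, h4, h2, h5, a0 hP hd' n' h1 h3⟩
  · obtain ⟨p, h1, h2⟩ := D.cr c hc ic
    obtain ⟨p', h3, h4, h5⟩ := a1 hE hL D hP hc' ic' hd' e' h1
    exact ⟨p, h1, p', h3, h2, h4, a0 hP hd n h1 h3, h5⟩

theorem stab (hE : S_ELEM) (hL : S_LINE) (ic : ¬ IsOfFinOrder c) (hd : Prim d) (e : Ep d = Ep c)
    (h : Ct c p) {μ : a.K} (k : Ll (ds x (c * x)) μ) : Stab μ p x d :=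
  ⟨hd.fix hE hL ic e (h.ll (Ll.mono_left (md_le_ds c x) k)), hd.fix hE hL ic e k⟩

theorem b1 (hE : S_ELEM) (hL : S_LINE) (ic : ¬ IsOfFinOrder c) (hd : Prim d) (e : Ep d = Ep c)
    (h : Ct c p) (n : NA d p x) : Ls (ds p x) (ds x (c * x)) :=
  ls_of_scale ((one_le_md' ic).trans (md_le_ds c x)) fun b k => n _ b (Ls.refl' _)
    ⟨x, Ls.refl' _, on_right b.pos.le p x, stab hE hL ic hd e h k⟩

theorem b2 (hE : S_ELEM) (hL : S_LINE) (ic : ¬ IsOfFinOrder c) (hd : Prim d) (e : Ep d = Ep c)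
    (ic' : ¬ IsOfFinOrder c') (hd' : Prim d') (e' : Ep d' = Ep c') (h : Ct c p) (h' : Ct c' p')
    (n : NA d p p') (n' : NA d' p' p) (q : MM Γ a) :
    Ls (ds p p') (ds q (c * q) + ds q (c' * q)) := by
  have l := le_add_of_nonneg_right (a := ds q (c * q)) (ds_nonneg q (c' * q))
  have l' := le_add_of_nonneg_left (a := ds q (c' * q)) (ds_nonneg q (c * q))
  refine ls_of_scale ((one_le_md' ic).trans ((md_le_ds c q).trans l)) fun b k => ?_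
  obtain ⟨m, m1, m2, m3⟩ := two_fix b (stab hE hL ic hd e h (Ll.mono_left l k))
    (stab hE hL ic' hd' e' h' (Ll.mono_left l' k))
  rcases Ls.add_cases (Ls.of_le (ds_tri p m p')) with t | t
  · exact n _ b (Ls.refl' _) ⟨m, t, m1, m2⟩
  · exact n' _ b (Ls.of_le (ds_comm p' p).le) ⟨m, ds_comm m p' ▸ t, m1.symm, m3.symm⟩

end Q_cenA

open Q_cenA in
theorem p_Q_CEN (hELEM : S_ELEM) (hLINE : S_LINE) (hPERC : S_PERC) :
    S_Q_CEN := by
  intro Γ a H T u D hP c hc c' hc' ic ic'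
  obtain ⟨d, hd, e⟩ := (hELEM Γ a c ic).1
  obtain ⟨d', hd', e'⟩ := (hELEM Γ a c' ic').1
  have l : ∀ q, md c ≤ ds q (c * q) + ds q (c' * q) := fun q =>
    (md_le_ds c q).trans (le_add_of_nonneg_right (ds_nonneg _ _))
  have l' : ∀ q, md c' ≤ ds q (c * q) + ds q (c' * q) := fun q =>
    (md_le_ds c' q).trans (le_add_of_nonneg_left (ds_nonneg _ _))
  simp only [← ds_conj]
  by_cases ne : Ep c = Ep c'
  · obtain ⟨p, h1, h2, h3⟩ := a1 hELEM hLINE D hP hc ic hd e (one_mem T)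
    have k := b1 hELEM hLINE ic hd e h2 h3
    rw [ds_one_right, ds_one_mul] at k
    refine ⟨p, h1, k.mono_right (le_add_of_nonneg_right (ln_nonneg _)), fun q => ?_⟩
    have k1 := Ls.mono_right h2 (l q)
    exact k1.add ((disp_ls hELEM hLINE ic (ne ▸ self_mem_Ep c') p).trans' (k1.add (Ls.of_le (l' q))))
  · obtain ⟨p, h1, p', -, h3, h4, h5, h6⟩ := a2 hELEM hLINE D hP hc ic hd e hc' ic' hd' e' ne
    have k : ∀ q, Ls (ds p (c * p) + ds p (c' * p)) (ds q (c * q) + ds q (c' * q)) := fun q =>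
      (Ls.mono_right h3 (l q)).add (Ls.mono_left (disp_le c' p p')
        ((b2 hELEM hLINE ic hd e ic' hd' e' h3 h4 h5 h6 q).two.add (Ls.mono_right h4 (l' q))))
    have k0 := (one_le_md' ic).trans (l 1)
    have k1 := k 1
    rw [ds_one_mul, ds_one_mul] at k0 k1
    refine ⟨p, h1, ls_of_scale k0 fun b t => ne ?_, k⟩
    have t' := Ll.ls_left k1 t
    rw [← ds_one_mul c, ← ds_one_mul c'] at t
    exact Ep_eq_of_stab hELEM hPERC b (p := 1) (q := p) (Ls.of_le (ds_one_left p).ge) ic ic'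
      ⟨Ll.mono_left (le_add_of_nonneg_right (ds_nonneg _ _)) t,
        Ll.mono_left (le_add_of_nonneg_right (ds_nonneg _ _)) t'⟩
      ⟨Ll.mono_left (le_add_of_nonneg_left (ds_nonneg _ _)) t,
        Ll.mono_left (le_add_of_nonneg_left (ds_nonneg _ _)) t'⟩

end Pool.Agent.P.MP_dba3d2_lc
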