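import Pool.Agent.P.MP_dba3d2_lc.C.IfaceQ
import Pool.Agent.P.MP_dba3d2_lc.A.Iface
import Pool.Agent.P.MP_dba3d2_lc.B.Iface
import Pool.Agent.P.MP_dba3d2_lc.C.QTb

/-! Step Q_COV of the stability project. -/

namespace Pool.Agent.P.MP_dba3d2_lc

open Filter

namespace Q_covA

variable {Γ : HG} {a : Amb} {H T : Subgroup (MM Γ a)} {μ : a.K} {g g' u x y : MM Γ a}
  {ε ε' : Nd Γ a}

theorem coset_side (D : Cn H u T) (h0 : 0 ≤ μ) (hg : g ∈ T) (h : At H u g ε) (h' : At H u g ε')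
    (k : Fe H g ε ε' x y) (b : Ls (ds x y) μ) : Cvr μ (Pc H u T μ) x y := by
  by_cases hu : LimD H u
  · obtain ⟨m, hm, m', hm', a1, a2⟩ := k.sd.near h0 b
    have hx := k.f.mem D hg h
    have hy := k.f'.mem D hg h'
    have c1 : Cvr μ (Pc H u T μ) x (g * m) :=
      .single h0 (.inr (.inr ⟨hu, mul_mem (inv_mem hx) (mul_mem hg (D.le hm)), a1⟩))
    have c2 : Cvr μ (Pc H u T μ) (g * m) (g * m') :=
      .single h0 (.inl (by rw [co_mv]; exact mul_mem (inv_mem hm) hm'))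
    have c3 : Cvr μ (Pc H u T μ) (g * m') y :=
      .single h0 (.inr (.inr ⟨hu, mul_mem (inv_mem (mul_mem hg (D.le hm'))) hy, FixA.ll_comm a2⟩))
    exact (c1.trans c2 (On.of_near a1 _)).trans c3 (On.of_near a2 _).symm
  · exact .single h0 (.inl (co_trans (co_symm (k.f.co hu h)) (k.f'.co hu h')))

theorem axis_side (hE : S_ELEM) (hL : S_LINE) (hR : S_ROOT) (D : Cn H u T) (h0 : 0 ≤ μ)
    (hg : g ∈ T) (hg' : g' ∈ T) (h : At H u g ε) (h' : At H u g' ε) (k : Ft H g ε x)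
    (k' : Ft H g' ε y) (ne : g⁻¹ * g' ∉ H) (b : Ls (ds x y) μ) : Cvr μ (Pc H u T μ) x y := by
  have hx := k.mem D hg h
  have hy := k'.mem D hg' h'
  rcases ε with w | d
  · obtain rfl : x = w := k
    obtain rfl : y = x := k'
    exact .refl h0 _ _
  have m : Ll (md (x⁻¹ * d * x)) μ := by
    rw [md_conj]
    exact (Ft.long hR D.gc h h' k k' ne).ls_right b h0
  have p1 := h.1.conj' x
  have p2 := h.1.conj' y
  have n1 := ct_iff.1 k.2
  have n2 := ct_iff.1 k'.2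
  have cj : Cj (x⁻¹ * y) (y⁻¹ * d * y) (x⁻¹ * d * x) := congrArg Ep (by group)
  obtain ⟨j, l⟩ := short_conj hE hL p1 p2 n1 n2 cj
  have hz := ((hR Γ a H D.gc).2.1 _ (Aj.foot h k.1) _ (Aj.foot h' k'.1) p1 p2 _
    ((Cj.of_mem (inv_mem (ipow_mem_Ep _ j))).mul cj)).2 n1 n2 l
  have hf := ipow_mem_Ep (x⁻¹ * d * x) j
  generalize ipow (x⁻¹ * d * x) j = f at l hz hf
  have e : (x * f)⁻¹ * y = f⁻¹ * (x⁻¹ * y) := by group
  have hT : f ∈ T := by
    simpa [mul_assoc] using mul_mem (mul_mem (inv_mem hx) hy) (inv_mem (D.le hz))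
  have c1 : Cvr μ (Pc H u T μ) x (x * f) := .single h0 (by
    rw [inv_mul_cancel_left]
    exact .inr (.inl ⟨hT, _, Aj.foot h k.1, p1, n1, n1.ll m, hf⟩))
  refine c1.trans (.single h0 (.inl (e ▸ hz))) (On.of_near (FixA.ll_comm ?_) _).symm
  rw [ds, e]
  exact Ll.ls_left l m

end Q_covA

open Q_covA

theorem p_Q_COV (hELEM : S_ELEM) (hLINE : S_LINE) (hROOT : S_ROOT) (hQ_PATH : S_Q_PATH) (hQ_TOP : S_Q_TOP) :
    S_Q_COV := by
  intro Γ a H T u D μ hμ t ht hl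
  have h0 := hμ.pos.le
  obtain ⟨g, η, p, v, N, W, e0, e1⟩ := hQ_PATH Γ a H T u D (.inl 1) (.inl t)
    ⟨1, one_mem _, co_refl H 1⟩ ⟨t, ht, co_refl H t⟩ (fun _ _ e => by cases e)
  have v0 : v 0 = 1 := by
    have := (W.fe 0 (Nat.zero_le _)).f
    rwa [e0] at this
  have p1 : p (N + 1) = t := by
    have := (W.fe N le_rfl).f'
    rwa [e1] at this
  obtain ⟨G, hL⟩ := (hQ_TOP Γ a H T u g η p v N D.gc W).1 μ hμ (by rwa [v0, p1, ds_one_left])
  have C : ∀ s ≤ N, Cvr μ (Pc H u T μ) (v s) (p (s + 1)) := fun s hs =>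
    coset_side D h0 (W.mem s hs) (W.ch.l s hs) (W.ch.r s hs) (W.fe s hs)
      (Ls.mono_left (c_le_len2 p v hs) hL)
  have A : ∀ s ≤ N, Cvr μ (Pc H u T μ) (p (s + 1)) (v (s + 1)) := fun s hs => by
    rcases hs.eq_or_lt with rfl | k
    · rw [W.e1]
      exact .refl h0 _ _
    · exact axis_side hELEM hLINE hROOT D h0 (W.mem s hs) (W.mem _ k) (W.ch.r s hs) (W.ch.l _ k)
        (W.fe s hs).f' (W.fe _ k).f (W.ch.h0 s _ (Nat.lt_succ_self s) k)
        (Ls.mono_left (a_le_len2 p v (by omega)) hL)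
  have key : ∀ M ≤ N, G2 μ p v M → Cvr μ (Pc H u T μ) (p 0) (v (M + 1)) := by
    intro M
    induction M with
    | zero => exact fun k G => Cvr.trans (W.e0 ▸ C 0 k) (A 0 k) G.zero.2
    | succ M ih =>
      intro k G
      exact ((ih (by omega) G.step.1).trans (C _ k) G.step.2.1).trans (A _ k) G.step.2.2
  have := key N le_rfl G
  rwa [W.e0, v0, W.e1, p1] at this

end Pool.Agent.P.MP_dba3d2_lc
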