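import Pool.Agent.P.MP_dba3d2_lc.C.IfaceQ
import Pool.Agent.P.MP_dba3d2_lc.A.Iface
import Pool.Agent.P.MP_dba3d2_lc.B.Iface
import Pool.Agent.P.MP_dba3d2_lc.C.QTb

/-! Step Q_CR of the stability project. -/

namespace Pool.Agent.P.MP_dba3d2_lc

open Filter

namespace Q_cr
variable {Γ : HG} {a : Amb}

theorem per2_add (P V : ℕ → MM Γ a) (n m : ℕ) :
    per2 P V (n + m) = per2 P V n + per2 (fun t => P (n + t)) (fun t => V (n + t)) m :=
  Finset.sum_range_add _ _ _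

theorem cyc (hQ_CYC : S_Q_CYC) (hQ_MIX : S_Q_MIX) {H : Subgroup (MM Γ a)} {u c : MM Γ a}
    {g : ℕ → MM Γ a} {ε : ℕ → Nd Γ a} {p v : ℕ → MM Γ a} {N : ℕ} (hH : GC0 H)
    (h : QCh H u c g ε p v (N + 1)) : Ct c (v 1) := by
  obtain ⟨b, sh, k⟩ := hQ_CYC Γ a H u c g ε p v (N + 1) hH h
  have k1 := k 0 (N + 1 + N) (hQ_MIX Γ a H u hH _)
  rw [G2, len2_eq, show N + 1 + N + 1 = N + 1 + (N + 1) from rfl, per2_add] at k1
  have e1 := sh (0 + 1)
  have e2 := sh (0 + 1 + (N + 1))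
  simp only [add_assoc] at e1 e2 k1
  rw [e1, e2] at k1
  have v1 : v (1 + (N + 1)) = c * v 1 := h.pv 1
  have v2 : v (0 + (1 + (N + (1 + (N + 1))))) = c * (c * v 1) := by
    rw [← v1, ← h.pv]
    congr 1
    omega
  have d1 : ds (v 1) (c * v 1) ≤ per2 p v (N + 1) := by
    have := ds_le_per2 (fun t => p (1 + t)) (fun t => v (1 + t)) (N + 1)
    rwa [sh 1, v1] at this
  have m := md_ge ((v 1)⁻¹ * c * v 1)
  rw [md_conj, ← ds_conj, show ln ((v 1)⁻¹ * c * v 1 * ((v 1)⁻¹ * c * v 1)) =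
    ds (v 1) (c * (c * v 1)) from congrArg ln (by group)] at m
  rw [v2] at k1
  refine Ls.mono_left d1 ((Ls.refl' _).of_le_add (k1.add (b.ll_delta Γ).two) b.pos 1 ?_)
  have t := ds_tri (p 1) (v 1) (c * (c * v 1))
  simp only [zero_add, add_zero] at *
  push_cast
  linarith

end Q_cr

theorem p_Q_CR (hELEM : S_ELEM) (hLINE : S_LINE) (hROOT : S_ROOT) (hQ_PEXT : S_Q_PEXT) (hQ_CYC : S_Q_CYC) (hQ_MIX : S_Q_MIX) (hQ_MINP : S_Q_MINP) :
    S_Q_CR := by
  intro Γ a H T u D c hc hf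
  classical
  have ex : ∃ n, ∃ x ∈ T, Wk H u T n x (c * x) :=
    let ⟨n, k⟩ := D.conn 1 (one_mem T) (c * 1) (by simpa using hc)
    ⟨n, 1, one_mem T, k⟩
  obtain ⟨x, hx, w⟩ := Nat.find_spec ex
  have mn : ∀ m < Nat.find ex, ∀ y ∈ T, ¬ Wk H u T m y (c * y) := fun m hm y hy k =>
    Nat.find_min ex hm ⟨y, hy, k⟩
  generalize Nat.find ex = n at w mn
  cases n with
  | zero =>
    obtain ⟨p, hp, -, k⟩ := D.gc.cen1 (c := x⁻¹ * c * x) (by simpa [mul_assoc] using w.zero)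
      ((finOrder_conj' x c).not.2 hf)
    exact ⟨x * p, mul_mem hx (D.le hp), ct_iff.2 (by simpa [mul_assoc] using k)⟩
  | succ N =>
    obtain ⟨g, ε, ch, g0, gN, hT⟩ := (hQ_MINP Γ a H T u D).1 _ x _ hx w fun m hm => mn m hm x hx
    by_cases s : Sm H u (ε N) ((ε 0).mv c)
    · have a1 : At H u (c * g 1) (ε N) :=
        ((ch.r 0 (by omega)).mv c).same hROOT D.gc (ch.l N (by omega)) s.symm
      cases N with
      | succ M =>
        have k := (ch.wk hT 1 M (by omega)).trans (Wk.one (add_comm M 1 ▸ ch.l (M + 1) (by omega))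
          a1 (mul_mem hc (hT 1 (by omega))))
        exact (mn _ (by omega) _ (hT 1 (by omega)) k).elim
      | zero =>
        have a0 := ch.l 0 (by omega)
        generalize ε 0 = e at s a0
        rcases e with w | d
        · exact (mn 0 (by omega) w (Ft.mem D (hT 0 (by omega)) a0 rfl) (.nil s.1)).elim
        · have hd : Aj H (g 0) d := a0
          have m := InE.mem hELEM hd.1.1 (((hELEM Γ a d hd.1.1).2.2.2.1 c).2 (Eq.symm s)) hf
          obtain ⟨y, hy, k⟩ := hd.centre D.gc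
          exact ⟨y, co_mem (D.le hy) (hT 0 (by omega)),
            k.of_prim hELEM hLINE hd.1 hf (Ep_eq hELEM hd.1.1 m hf).symm⟩
    · obtain ⟨g', ε', p, v, q, hT'⟩ := hQ_PEXT Γ a H T u c g ε N D.gc ch (g0 ▸ gN) s hc
        fun t ht => hT t (by omega)
      exact ⟨v 1, Ft.mem D (hT' 2) ((q.ch 2).r 1 (by omega)) (q.fe 1).f,
        Q_cr.cyc hQ_CYC hQ_MIX D.gc q⟩

end Pool.Agent.P.MP_dba3d2_lc
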