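import Pool.Agent.P.MP_dba3d2_lc.C.IfaceQ
import Pool.Agent.P.MP_dba3d2_lc.B.Iface
import Pool.Agent.P.MP_dba3d2_lc.C.QTb

/-! Step Q_CYC of the stability project. -/

namespace Pool.Agent.P.MP_dba3d2_lc

open Filter

theorem p_Q_CYC (hROOT : S_ROOT) (hQ_GEO : S_Q_GEO) (hQ_XCH : S_Q_XCH) :
    S_Q_CYC := by
  intro Γ a H u c g ε p v N hH h
  let F : ℕ → a.K := fun t => ds (v t) (p (t + 1)) + ds (p (t + 1)) (v (t + 1))
  have hF : ∀ t, F (t + N) = F t := fun t => by
    have e := h.pv (t + 1)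
    rw [show t + 1 + N = t + N + 1 by omega] at e
    simp only [F, h.pv t, h.pp t, e, ds_mul_left]
  have sh : ∀ i, per2 (fun t => p (i + t)) (fun t => v (i + t)) N = per2 p v N := fun i => by
    induction i with
    | zero => simp
    | succ i ih =>
      rw [← ih]
      change ∑ t ∈ Finset.range N, F (i + 1 + t) = ∑ t ∈ Finset.range N, F (i + t)
      have e1 := Finset.sum_range_succ (fun t => F (i + t)) N
      have e2 := Finset.sum_range_succ' (fun t => F (i + t)) N
      simp only [hF, add_zero] at e1 e2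
      rw [e1] at e2
      rw [add_right_cancel e2]
      exact Finset.sum_congr rfl fun t _ => congrArg F (by omega)
  have le : ∀ t, ds (v t) (p (t + 1)) ≤ per2 p v N ∧ ds (p (t + 1)) (v (t + 1)) ≤ per2 p v N :=
    fun t => by
      have e : F t ≤ _ := (le_per2 (fun s => p (t + s)) (fun s => v (t + s)) h.pos).trans_eq (sh t)
      simp only [F] at e
      constructor <;> linarith [ds_nonneg (v t) (p (t + 1)), ds_nonneg (p (t + 1)) (v (t + 1))]
  have big : Big (per2 p v N) := by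
    by_contra b
    have nb : ∀ {s : a.K}, s ≤ per2 p v N → ¬ Big s := fun e k => b (k.of_ls (Ls.of_le e))
    exact (h.ch 2).ne 1 one_lt_two (co_trans (co_trans ((h.fe 0).sd.co (nb (le 0).1)).2
      (hH.co_of_not_big (nb (le 0).2))) (co_symm ((h.fe 1).sd.co (nb (le 1).1)).1))
  refine ⟨big, sh, fun i M hM => ?_⟩
  have l : ∀ t, At H u (g t) (ε t) := fun t => (h.ch (t + 1)).l t t.lt_succ_self
  have r : ∀ t, At H u (g (t + 1)) (ε t) := fun t => (h.ch (t + 1)).r t t.lt_succ_self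
  have ne : ∀ t, (g t)⁻¹ * g (t + 1) ∉ H := fun t => (h.ch (t + 1)).ne t t.lt_succ_self
  have rd : ∀ t, ¬ Sm H u (ε t) (ε (t + 1)) := fun t => (h.ch (t + 2)).rd t (t + 1).lt_succ_self
  refine hQ_GEO Γ a _ H u (fun t => g (i + 1 + t + 1)) (fun t => ε (i + 1 + t)) _ _ M big hH
    ((hQ_XCH Γ a H u _ _ M hH).2 hM ⟨fun t _ => l _, fun t _ => r (i + 1 + t + 1),
      fun t _ => ne _, fun t _ => rd (i + 1 + t + 1)⟩ (r _) (l _) (Or.inl (rd _)) (Or.inl (rd _)))
    (fun t _ => h.fe _) (fun t _ => Ls.of_le (le _).1) fun t _ => ?_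
  simp only [show i + 1 + t = i + t + 1 by omega]
  exact Ft.eo hROOT hH (l _) (r _) (h.fe (i + t)).f' (h.fe (i + t + 1)).f (ne _) big.pos.le
    (Ls.of_le (le _).2)

end Pool.Agent.P.MP_dba3d2_lc
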