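import Pool.Agent.P.MP_dba3d2_lc.C.IfaceQ
import Pool.Agent.P.MP_dba3d2_lc.A.Iface
import Pool.Agent.P.MP_dba3d2_lc.B.Iface
import Pool.Agent.P.MP_dba3d2_lc.C.QTb

/-! Step Q_FEET of the stability project. -/

namespace Pool.Agent.P.MP_dba3d2_lc

open Filter

namespace Q_feet

variable {Γ : HG} {a : Amb} {H : Subgroup (MM Γ a)} {d d' f g h u w w' x y z : MM Γ a}

/-- moving a centre by an exponent -/
theorem shift (hE : S_ELEM) (hL : S_LINE) (hd : Prim d) (hx : Ct d x) (hf : f ∈ Ep (x⁻¹ * d * x))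
    (n : NA (x⁻¹ * d * x) 1 z) : Ct d (x * f) ∧ NA d (x * f) (x * f * z) := by
  have p : Prim (x * f * (x⁻¹ * d * x) * (x * f)⁻¹) := (hd.conj' x).conj _
  have e : Ep (x * f * (x⁻¹ * d * x) * (x * f)⁻¹) = Ep d := by
    rw [← Ep_conj_iff' x, ← Ep_conj_mem hf]
    exact congrArg Ep (by group)
  have c : Ct (x * f * (x⁻¹ * d * x) * (x * f)⁻¹) (x * f) := by
    have := ct_iff.1 hx
    rw [ct_iff]
    convert this using 1
    group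
  refine ⟨c.of_prim hE hL p hd.1 e, fun μ hμ h1 h2 => ?_⟩
  have n' := (na_mv (x * f)).2 n
  rw [mul_one] at n'
  exact n' μ hμ h1 (h2.ep hE hL p hd.1 e)

theorem n1 (hE : S_ELEM) (hL : S_LINE) (hN : S_NORM) (hH : GC0 H) (hd : Aj H g d)
    (hy : g⁻¹ * y ∈ H) : ∃ x, g⁻¹ * x ∈ H ∧ Ct d x ∧ NA d x y := by
  obtain ⟨x, hx, c⟩ := hd.centre hH
  obtain ⟨f, hf, e, -, n⟩ := (hN Γ a H hH).1 _ (hd.foot hx) (hd.1.conj' x) (ct_iff.1 c) _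
    (co_trans (co_symm hy) hx)
  obtain ⟨k1, k2⟩ := shift hE hL hd.1 c e n.na
  refine ⟨x * f, by simpa [mul_assoc] using mul_mem hx hf, k1, ?_⟩
  convert k2 using 1
  group

theorem axes (hE : S_ELEM) (hL : S_LINE) (hN : S_NORM) (hH : GC0 H) (hd : Aj H g d)
    (hd' : Aj H g d') (ne : Ep d ≠ Ep d') : ∃ x y, Fe H g (.inr d) (.inr d') x y := by
  obtain ⟨x, hx, c⟩ := hd.centre hH
  obtain ⟨y, hy, c'⟩ := hd'.centre hH
  have nc : ¬ Cj (x⁻¹ * y) (y⁻¹ * d' * y) (x⁻¹ * d * x) := fun e => by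
    refine ne ((Ep_conj_iff' x).1 (Eq.trans (Eq.symm e) (congrArg Ep ?_)))
    group
  obtain ⟨f, hf, f', hf', e, e', n, n', -⟩ := (hN Γ a H hH).2 _ (hd.foot hx) _ (hd'.foot hy)
    (hd.1.conj' x) (hd'.1.conj' y) (ct_iff.1 c) (ct_iff.1 c') _ (co_trans (co_symm hx) hy) nc
  obtain ⟨k1, k2⟩ := shift hE hL hd.1 c (inv_mem e) n.na
  obtain ⟨l1, l2⟩ := shift hE hL hd'.1 c' e' n'.na
  have m : g⁻¹ * (x * f⁻¹) ∈ H := by simpa [mul_assoc] using mul_mem hx (inv_mem hf)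
  have m' : g⁻¹ * (y * f') ∈ H := by simpa [mul_assoc] using mul_mem hy hf'
  refine ⟨x * f⁻¹, y * f', ⟨m, k1⟩, ⟨m', l1⟩, Or.inl ⟨m, m'⟩, ?_, ?_⟩
  · change NA d _ _
    convert k2 using 1
    group
  · change NA d' _ _
    convert l2 using 1
    group

theorem near (hw : g⁻¹ * w * u⁻¹ ∈ H) (hh : h ∈ H) :
    ∃ k ∈ H, ds w (g * k) = ds u h :=
  ⟨_, mul_mem hw hh, congrArg ln (by group)⟩

theorem mixed (D : LimD H u) (hx : g⁻¹ * x ∈ H) (hw : g⁻¹ * w * u⁻¹ ∈ H) : Sd H g x w := by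
  obtain ⟨b, h, hh, k⟩ := D.a1 _ (mul_mem (inv_mem hw) hx)
  have e : ds ((g⁻¹ * w * u⁻¹)⁻¹ * (g⁻¹ * x)) u = ds x w := congrArg ln (by group)
  rw [e] at b k
  obtain ⟨h', hh', e'⟩ := near hw hh
  exact Or.inr ⟨b, _, hx, h', hh', by simpa using Ll.zero b.pos.le, e' ▸ k⟩

theorem limits (D : LimD H u) (hw : g⁻¹ * w * u⁻¹ ∈ H) (hw' : g⁻¹ * w' * u⁻¹ ∈ H)
    (n : ¬ Sm H u (.inl w) (.inl w')) : Sd H g w w' := by
  have m : u * (w⁻¹ * w') * u⁻¹ ∈ H := by simpa [mul_assoc] using mul_mem (inv_mem hw) hw'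
  have e : u⁻¹ * (u * (w⁻¹ * w') * u⁻¹) * u = w⁻¹ * w' := by group
  obtain ⟨b, h, hh, k⟩ := D.a2 _ m (Or.inl fun i => n ⟨e ▸ i, m⟩)
  rw [e] at b k
  obtain ⟨h1, m1, e1⟩ := near hw hh
  obtain ⟨h2, m2, e2⟩ := near hw' hh
  exact Or.inr ⟨b, h1, m1, h2, m2, e1 ▸ k, e2 ▸ k⟩

theorem axpt (hE : S_ELEM) (hL : S_LINE) (hN : S_NORM) (hH : GC0 H) (hd : Aj H g d)
    (hw : At H u g (.inl w)) : ∃ x y, Fe H g (.inr d) (.inl w) x y := by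
  rcases hw with hw | ⟨D, hw⟩
  · obtain ⟨x, hx, c, n⟩ := n1 hE hL hN hH hd hw
    exact ⟨x, w, ⟨hx, c⟩, rfl, Or.inl ⟨hx, hw⟩, n, trivial⟩
  have j : Aj H (w * u⁻¹) d := hd.congr (by rwa [← mul_assoc])
  obtain ⟨-, h, hh, k⟩ := D.a2 _ j.2 (Or.inr (hd.1.conj' _).1)
  have e : ln (u⁻¹ * ((w * u⁻¹)⁻¹ * d * (w * u⁻¹)) * u) = ds w (d * w) := congrArg ln (by group)
  rw [e] at k
  obtain ⟨h', hh', e'⟩ := near hw hh
  rw [← e'] at k
  obtain ⟨x, hx, c, n⟩ := n1 hE hL hN hH hd (y := g * h') (by simpa using hh')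
  refine ⟨x, w, ⟨hx, c⟩, rfl, mixed D hx hw, fun μ hμ h1 h2 => ?_, trivial⟩
  have s : Ll (ds x (d * x)) μ := let ⟨_, _, _, h3⟩ := h2; h3.1
  have t : Ll (ds w (g * h')) μ := k.ls_right
    (Ls.mono_left (disp_le d w x) ((Ls.two (ds_comm x w ▸ h1)).add s.ls)) hμ.pos.le
  exact n μ hμ (Ls.mono_left (ds_tri x w _) (h1.add t.ls))
    (h2.congr hμ (FixA.ll_self hμ.pos.le x) t)

theorem ptpt (k : Sd H g w w') : Fe H g (.inl w) (.inl w') w w' :=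
  ⟨rfl, rfl, k, trivial, trivial⟩

end Q_feet

open Q_feet in
theorem p_Q_FEET (hELEM : S_ELEM) (hLINE : S_LINE) (hNORM : S_NORM) :
    S_Q_FEET := by
  intro Γ a H u g ε ε' hH h h' r
  rcases ε with w | d <;> rcases ε' with w' | d'
  · refine ⟨w, w', ?_⟩
    rcases h with h | ⟨D, h⟩ <;> rcases h' with h' | ⟨D', h'⟩
    · exact ptpt (Or.inl ⟨h, h'⟩)
    · exact ptpt (mixed D' h h')
    · exact (ptpt (mixed D h' h)).symm
    · rcases r with r | ⟨_, e, r⟩ | ⟨_, e, r⟩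
      · exact ptpt (limits D h h' r)
      · cases e
        exact ptpt (mixed D r h')
      · cases e
        exact (ptpt (mixed D r h)).symm
  · obtain ⟨x, y, k⟩ := axpt hELEM hLINE hNORM hH h' h
    exact ⟨y, x, k.symm⟩
  · exact axpt hELEM hLINE hNORM hH h h'
  · exact axes hELEM hLINE hNORM hH h h' r.ne

end Pool.Agent.P.MP_dba3d2_lc
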