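import Pool.Agent.P.MP_dba3d2_lc.C.IfaceQ
import Pool.Agent.P.MP_dba3d2_lc.A.Iface
import Pool.Agent.P.MP_dba3d2_lc.B.Iface
import Pool.Agent.P.MP_dba3d2_lc.C.QTb

/-! Step Q_GEO of the stability project. -/

namespace Pool.Agent.P.MP_dba3d2_lc

open Filter

namespace Q_geo

variable {Γ : HG} {a : Amb} {μ : a.K} {d q r x x' y y' : MM Γ a} {ε : Nd Γ a}

theorem ax (hμ : Big μ) (h : Eo μ ε x y) (hn : Ls μ (ds r q)) (hr : On μ r x y)
    (hq : On μ q x y) : ∃ d, ε = .inr d ∧ Stab μ r q d := by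
  rcases h with h | ⟨d, e, s⟩
  · exact (h.not_ls hμ.pos (On.nondeg hμ hr hq hn)).elim
  · exact ⟨d, e, s.sub hμ hr hq⟩

theorem ov (hμ : Big μ) (h : Ovj μ x y x' y') : ∃ q, Ov μ y q x y x' y' ∧
    (∀ d, Stab μ y q d → Al μ d y x) ∧ ∀ d, Stab μ y q d → Al μ d x' y' := by
  obtain ⟨h0, q, h1, h2, h3⟩ := h
  have z := FixA.ll_self (Γ := Γ) hμ.pos.le
  refine ⟨q, ⟨h1, on_right hμ.pos.le _ _, h2.symm, On.of_near (FixA.ll_comm h0) _, h3⟩,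
    fun d s => ⟨q, h1, h2, s⟩, fun d s => ?_⟩
  exact Al.congr hμ ⟨q, h1, h3.congr (z _) (FixA.ll_comm h0) (z _), s⟩ h0 (z _)

end Q_geo

open Q_geo

theorem p_Q_GEO (hELEM : S_ELEM) (hLINE : S_LINE) (hPERC : S_PERC) (hROOT : S_ROOT) (hQ_JL : S_Q_JL) :
    S_Q_GEO := by
  intro Γ a μ H u g ε p v N hμ hH X F L E
  have hl : ∀ t ≤ N, ∀ d, ε t = .inr d → Aj H (g t) d := fun t ht d e => by
    have := X.l t ht
    rwa [e] at this
  have hr : ∀ t ≤ N, ∀ d, ε (t + 1) = .inr d → Aj H (g t) d := fun t ht d e => by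
    have := X.r t ht
    rwa [e] at this
  have hd : ∀ t ≤ N, ∀ d d', ε t = .inr d → ε (t + 1) = .inr d' → Ep d ≠ Ep d' :=
    fun t ht d d' e e' => by
      have := X.rd t ht
      rw [e, e'] at this
      exact this.ne
  have n1 : ∀ t ≤ N, ∀ d, ε t = .inr d → ¬ Al μ d (v t) (p (t + 1)) := fun t ht d e => by
    have := (F t ht).na
    rw [e] at this
    exact this μ hμ (L t ht)
  have n2 : ∀ t ≤ N, ∀ d, ε (t + 1) = .inr d → ¬ Al μ d (p (t + 1)) (v t) := fun t ht d e => by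
    have := (F t ht).na'
    rw [e] at this
    exact this μ hμ (ds_comm (v t) _ ▸ L t ht)
  refine hQ_JL Γ a μ p v N hμ ?_ ?_ ?_ ?_
  · intro s t h1 h2 o
    have h3 : s ≤ N := by omega
    obtain ⟨q, o, a1, -⟩ := ov hμ o
    rcases (F s h3).sd.ov hELEM hPERC hROOT hH hμ (F t h2).sd (L s h3) (L t h2) o with
      k | ⟨e, k1, k2, k3⟩
    · exact X.h0 s t h1 h2 k
    · obtain ⟨rfl, m⟩ := X.h2 s t h1 h2 e k1 k2
      obtain ⟨d, e1, e2⟩ := m.inr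
      exact n2 s h3 d e1 ((a1 e k3).ep hELEM hLINE (hl _ h2 d e1).1 k1.1.1 e2.symm)
  · intro s t h1 h2 o
    obtain ⟨t, rfl⟩ : ∃ t', t = t' + 1 := ⟨t - 1, by omega⟩
    have h3 : s ≤ N := by omega
    have h4 : t ≤ N := by omega
    obtain ⟨q, o, a1, -⟩ := ov hμ o
    obtain ⟨d, e1, k⟩ := ax hμ (E _ h2) o.1 o.2.2.2.1 o.2.2.2.2
    have b := hr t h4 d e1
    rcases (show s ≤ t by omega).eq_or_lt with rfl | h5
    · exact n2 s h3 d e1 (a1 d k)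
    · obtain ⟨d', e2, e3⟩ := (X.h2 s t h5 h4 d ((F s h3).sd.aj hELEM hPERC hROOT hH hμ (L s h3)
        o.1 o.2.1 o.2.2.1 b.1 k) b).2.inr
      exact hd t h4 d' d e2 e1 e3.symm
  · intro s t h1 h2 o
    have h3 : s ≤ N := by omega
    obtain ⟨q, o, -, a2⟩ := ov hμ o
    obtain ⟨d, e1, k⟩ := ax hμ (E s (by omega)) o.1 o.2.1 o.2.2.1
    have b := hl s h3 d e1
    rcases h1.eq_or_lt with rfl | h5
    · exact n1 s h3 d e1 (a2 d k)
    · obtain ⟨rfl, m⟩ := X.h2 s t h5 h2 d b ((F t h2).sd.aj hELEM hPERC hROOT hH hμ (L t h2)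
        o.1 o.2.2.2.1 o.2.2.2.2 b.1 k)
      obtain ⟨d', e2, e3⟩ := m.inr
      exact hd s h3 d d' e1 e2 e3
  · intro s t h1 h2 o
    obtain ⟨t, rfl⟩ : ∃ t', t = t' + 1 := ⟨t - 1, by omega⟩
    have h3 : s ≤ N := by omega
    have h4 : t ≤ N := by omega
    obtain ⟨q, o, -, -⟩ := ov hμ o
    obtain ⟨d, e1, k⟩ := ax hμ (E s (by omega)) o.1 o.2.1 o.2.2.1
    obtain ⟨d', e2, k'⟩ := ax hμ (E _ h2) o.1 o.2.2.2.1 o.2.2.2.2
    have b := hl s h3 d e1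
    have b' := hr t h4 d' e2
    have e := Ep_eq_of_stab hELEM hPERC hμ o.1 b.1.1 b'.1.1 k k'
    rcases (show s ≤ t by omega).eq_or_lt with rfl | h5
    · exact hd s h3 d d' e1 e2 e
    · obtain ⟨rfl, m⟩ := X.h2 s t h5 h4 d b (b'.ep hROOT hH b.1 e)
      obtain ⟨d'', e3, e4⟩ := m.inr
      exact hd s h3 d d'' e1 e3 e4

end Pool.Agent.P.MP_dba3d2_lc
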