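import Pool.Agent.P.MP_dba3d2_lc.C.IfaceQ
import Pool.Agent.P.MP_dba3d2_lc.C.QTb

/-! Step Q_JL of the stability project. -/

namespace Pool.Agent.P.MP_dba3d2_lc

open Filter

namespace Q_jl

variable {Γ : HG} {a : Amb} {μ : a.K}

/-- a path whose sides do not cancel in pairs is geodesic -/
theorem seq (hμ : Big μ) (P : ℕ → MM Γ a) : ∀ n : ℕ,
    (∀ i j, i < j → j < n → ¬ Ovj μ (P i) (P (i + 1)) (P j) (P (j + 1))) →
    (∀ i ≤ n, On μ (P i) (P 0) (P n)) ∧
      Ll (∑ t ∈ Finset.range n, ds (P t) (P (t + 1)) - ds (P 0) (P n)) μ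
  | 0, _ => ⟨fun i hi => by
      obtain rfl := Nat.le_zero.1 hi
      exact on_left hμ.pos.le _ _, by simpa using Ll.zero hμ.pos.le⟩
  | n + 1, h => by
    classical
    have h0 := hμ.pos.le
    have z : ∀ x : MM Γ a, Ll (ds x x) μ := fun x => by simpa using Ll.zero h0
    obtain ⟨ih1, ih2⟩ := seq hμ P n fun i j a b => h i j a (by omega)
    have key : On μ (P n) (P 0) (P (n + 1)) := by
      by_contra hn
      obtain ⟨q, e, k⟩ := exists_median (P 0) (P (n + 1)) (P n)
      obtain ⟨k1, k2⟩ := k μ hμ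
      have lq : Ls μ (ds q (P n)) := (ll_or_ls hμ.pos _).resolve_left fun e' =>
        hn ((On.of_eq h0 e).congr e' (z _) (z _))
      have l0 : Ls μ (ds (P 0) (P n)) := On.nondeg hμ k1 (on_right h0 _ _) lq
      obtain ⟨i, hi, hin, hg⟩ : ∃ i, Ls μ (ds (P i) (P n)) ∧ i ≤ n ∧
          ∀ j, i < j → j ≤ n → ¬ Ls μ (ds (P j) (P n)) :=
        ⟨Nat.findGreatest (fun i => Ls μ (ds (P i) (P n))) n,
          Nat.findGreatest_spec (P := fun i => Ls μ (ds (P i) (P n))) (Nat.zero_le n) l0,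
          Nat.findGreatest_le n, fun j a b => Nat.findGreatest_is_greatest a b⟩
      have hlt : i < n := lt_of_le_of_ne hin fun e => (z (P n)).not_ls hμ.pos (e ▸ hi)
      have hs : Ll (ds (P (i + 1)) (P n)) μ :=
        (ll_or_ls hμ.pos _).resolve_right (hg _ (Nat.lt_succ_self i) hlt)
      have lg : ∀ r, Ls μ (ds r (P n)) → Ls μ (ds (P (i + 1)) r) := fun r hr =>
        hr.of_le_add hs hμ.pos 1 (by
          rw [Nat.cast_one]
          linarith [ds_tri r (P (i + 1)) (P n), ds_comm r (P (i + 1))])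
      refine h i n hlt (Nat.lt_succ_self n) ⟨hs, ?_⟩
      rcases On.total hμ k1.symm (ih1 i hin).symm with o | o
      · exact ⟨q, lg q lq, o.1.congr (z _) (by rwa [ds_comm]) (z _), k2.symm⟩
      · exact ⟨P i, lg _ hi, on_right h0 _ _, (On.sub k2.symm o.1).1⟩
    refine ⟨fun i hi => ?_, ?_⟩
    · rcases Nat.le_succ_iff_eq_or_le.1 hi with rfl | hi
      exacts [on_right h0 _ _, (On.sub key (ih1 i hi)).1]
    · rw [Finset.sum_range_succ]
      exact (ih2.add key).mono_left (by linarith)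

/-- the interleaved sequence -/
def il (p v : ℕ → MM Γ a) (k : ℕ) : MM Γ a := if k % 2 = 0 then p (k / 2) else v (k / 2)

theorem il_even (p v : ℕ → MM Γ a) (s : ℕ) : il p v (2 * s) = p s := by
  rw [il, if_pos (by omega), show 2 * s / 2 = s by omega]
theorem il_odd (p v : ℕ → MM Γ a) (s : ℕ) : il p v (2 * s + 1) = v s := by
  rw [il, if_neg (by omega), show (2 * s + 1) / 2 = s by omega]
theorem il_next (p v : ℕ → MM Γ a) (s : ℕ) : il p v (2 * s + 1 + 1) = p (s + 1) :=
  il_even p v (s + 1)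

theorem il_sum (p v : ℕ → MM Γ a) : ∀ N : ℕ,
    ∑ t ∈ Finset.range (2 * N + 1), ds (il p v t) (il p v (t + 1)) = ds (p 0) (v 0) + per2 p v N
  | 0 => by simp [per2, il]
  | N + 1 => by
    rw [show 2 * (N + 1) + 1 = 2 * N + 1 + 1 + 1 by ring, Finset.sum_range_succ,
      Finset.sum_range_succ, il_sum p v N, per2_succ, il_odd, il_next,
      show 2 * N + 1 + 1 + 1 = 2 * (N + 1) + 1 by ring, il_odd]
    ring

end Q_jl

open Q_jl in
theorem p_Q_JL :
    S_Q_JL := by
  intro Γ a μ p v N hμ h1 h2 h3 h4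
  have k := (seq hμ (il p v) (2 * (N + 1) + 1) fun i j hij hj => ?_).2
  · rw [il_sum, il_odd, ← len2_eq] at k
    exact k
  · obtain ⟨s, rfl | rfl⟩ := Nat.even_or_odd' i <;> obtain ⟨t, rfl | rfl⟩ := Nat.even_or_odd' j <;>
      simp only [il_even, il_odd, il_next]
    · exact h4 s t (by omega) (by omega)
    · exact h3 s t (by omega) (by omega)
    · exact h2 s t (by omega) (by omega)
    · exact h1 s t (by omega) (by omega)

end Pool.Agent.P.MP_dba3d2_lc
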