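import Pool.Agent.P.MP_dba3d2_lc.C.IfaceQ
import Pool.Agent.P.MP_dba3d2_lc.B.Iface
import Pool.Agent.P.MP_dba3d2_lc.C.QTb

/-! Step Q_MINP of the stability project. -/

namespace Pool.Agent.P.MP_dba3d2_lc

open Filter

namespace Q_minp

variable {Γ : HG} {a : Amb} {H T : Subgroup (MM Γ a)} {u : MM Γ a}

theorem one (hR : S_ROOT) (D : Cn H u T) : ∀ n x y, x ∈ T → Wk H u T n x y →
    (∀ m < n, ¬ Wk H u T m x y) →
    ∃ g ε, MCh H u g ε n ∧ g 0 = x ∧ (g n)⁻¹ * y ∈ H ∧ ∀ t ≤ n, g t ∈ T := by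
  intro n
  induction n with
  | zero => exact fun x y hx h _ => ⟨fun _ => x, fun _ => .inl 1, .zero _ _ _ _, rfl, h.zero, fun _ _ => hx⟩
  | succ n ih =>
    intro x y hx h mn
    cases h with | @cons _ _ _ z ε a1 a2 hz w => ?_
    obtain ⟨G, E, c, rfl, e1, e2⟩ := ih z y hz w fun m hm k => mn (m + 1) (by omega) (.cons a1 a2 hz k)
    obtain ⟨G₂, E₂, c2, f1, f2, -⟩ := c.cons a1 a2 (fun e => mn n (by omega) (w.left (co_symm e)))
      fun h0 s => by
        obtain ⟨m, rfl⟩ : ∃ m, n = m + 1 := ⟨n - 1, by omega⟩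
        have k := c.wk e2 1 m (by omega)
        rw [add_comm] at k
        exact mn (m + 1) (by omega)
          (.cons a1 ((c.r 0 h0).same hR D.gc a1 s.symm) (e2 1 (by omega)) (k.right e1))
    refine ⟨G₂, E₂, c2, f1, f2 n ▸ e1, fun t ht => ?_⟩
    cases t with
    | zero => exact f1 ▸ hx
    | succ t => exact f2 t ▸ e2 t (by omega)

end Q_minp

theorem p_Q_MINP (hROOT : S_ROOT) :
    S_Q_MINP := by
  intro Γ a H T u D
  refine ⟨Q_minp.one hROOT D, fun ε ε' ⟨x0, hx0, a0⟩ ⟨y0, hy0, b0⟩ => ?_⟩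
  classical
  have ex : ∃ n, ∃ x ∈ T, ∃ y ∈ T, At0 H x ε ∧ At0 H y ε' ∧ Wk H u T n x y :=
    (D.conn x0 hx0 y0 hy0).imp fun n k => ⟨x0, hx0, y0, hy0, a0, b0, k⟩
  obtain ⟨x, hx, y, hy, a1, b1, w⟩ := Nat.find_spec ex
  have mn := fun m => Nat.find_min ex (m := m)
  generalize Nat.find ex = N at w mn
  obtain ⟨g, η, c, rfl, e1, e2⟩ := Q_minp.one hROOT D N x y hx w fun m hm k =>
    mn m hm ⟨x, hx, y, hy, a1, b1, k⟩
  refine ⟨g, η, N, c, e2, a1, b1.congr (co_symm e1), ?_⟩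
  rintro M rfl
  constructor
  · rintro d rfl s
    have k := c.wk e2 1 M (by omega)
    rw [add_comm] at k
    exact mn M (by omega) ⟨g 1, e2 1 (by omega), y, hy,
      (c.r 0 (by omega)).same hROOT D.gc (a1.at u) s.symm, b1, k.right e1⟩
  · rintro d rfl s
    have k := c.wk e2 0 M (by omega)
    rw [zero_add] at k
    exact mn M (by omega) ⟨g 0, hx, g M, e2 M (by omega), a1,
      (c.l M (by omega)).same hROOT D.gc (b1.at u) s, k⟩

end Pool.Agent.P.MP_dba3d2_lc
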