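import Pool.Agent.P.MP_dba3d2_lc.C.IfaceQ
import Pool.Agent.P.MP_dba3d2_lc.B.Iface
import Pool.Agent.P.MP_dba3d2_lc.C.QTb

/-! Step Q_MIX of the stability project. -/

namespace Pool.Agent.P.MP_dba3d2_lc

open Filter

namespace QMix

variable {Γ : HG} {a : Amb}

theorem per2_shift (p v : ℕ → MM Γ a) (i M : ℕ) :
    per2 (fun t => p (i + t)) (fun t => v (i + t)) (M + 2) =
      ds (v i) (p (i + 1)) + len2 (fun t => p (i + 1 + t)) (fun t => v (i + 1 + t)) M := by
  have e : per2 (fun t => p (i + 1 + t)) (fun t => v (i + 1 + t)) (M + 1) =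
      ∑ t ∈ Finset.range (M + 1), (ds (v (i + (t + 1))) (p (i + (t + 1 + 1))) +
        ds (p (i + (t + 1 + 1))) (v (i + (t + 1 + 1)))) := by
    refine Finset.sum_congr rfl fun t _ => ?_
    rw [show i + (t + 1) = i + 1 + t by omega, show i + (t + 1 + 1) = i + 1 + (t + 1) by omega]
  rw [len2_eq, e, per2, Finset.sum_range_succ']
  simp only [add_zero, zero_add]
  ring

theorem three_le (p v : ℕ → MM Γ a) (M : ℕ) :
    ds (v 0) (p 1) + ds (v 1) (p 2) + ds (v 2) (p 3) ≤ per2 p v (M + 3) := by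
  induction M with
  | zero =>
    rw [zero_add, per2_succ, per2_succ, per2_succ]
    linarith [per2_nonneg p v 0, ds_nonneg (p (0 + 1)) (v (0 + 1)),
      ds_nonneg (p (1 + 1)) (v (1 + 1)), ds_nonneg (p (2 + 1)) (v (2 + 1))]
  | succ M ih =>
    rw [show M + 1 + 3 = M + 3 + 1 from rfl, per2_succ]
    linarith [ds_nonneg (v (M + 3)) (p (M + 3 + 1)), ds_nonneg (p (M + 3 + 1)) (v (M + 3 + 1))]

end QMix

open QMix in
theorem p_Q_MIX (hROOT : S_ROOT) (hQ_MIX2 : S_Q_MIX2) (hQ_PEXT : S_Q_PEXT) (hQ_CYC : S_Q_CYC) :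
    S_Q_MIX := by
  intro Γ a H u hH n
  induction n with
  | zero => exact fun g ε N h1 h2 => by omega
  | succ n ih =>
    intro g ε N h1 h2 h k
    rcases h2.lt_or_eq with h2 | rfl
    · exact ih g ε N h1 (by omega) h k
    rcases n with _ | _ | M
    · exact h.ne 0 (by omega) k
    · exact h.rd 0 (by omega) (hQ_MIX2 Γ a H u (g 0) (g 1) (ε 0) (ε 1) hH (h.ne 0 (by omega))
        (h.l 0 (by omega)) (h.r 0 (by omega)) ((h.r 1 (by omega)).congr (co_symm k))
        (h.l 1 (by omega)))
    by_cases s : Sm H u (ε (M + 2)) (ε 0)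
    · have a1 : At H u (g (M + 2)) (ε (M + 2)) := h.l _ (by omega)
      have a2 : At H u (g 1) (ε (M + 2)) := At.same hROOT hH (h.r 0 (by omega)) a1 s.symm
      have ne : (g 1)⁻¹ * g (M + 2) ∉ H := ih.ne h (by omega) (by omega) (by omega)
      have e : 1 + (M + 1) = M + 2 := by omega
      obtain ⟨G, E, c, g1, g2, -, -⟩ := (h.shift (M := M + 1) 1 (by omega)).snoc (g := g 1)
        (η := ε (M + 2)) (by rw [e]; exact a1) a2 (by rw [e]; exact fun b => ne (co_symm b))
        (fun j hj => by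
          obtain rfl : M = j := by omega
          rw [add_comm 1 M]
          exact h.rd (M + 1) (by omega))
      refine ih G E _ (by omega) le_rfl c ?_
      rw [g1 0 (by omega), g2]
      exact co_refl H _
    · obtain ⟨g', ε', p, v, q, -⟩ := hQ_PEXT Γ a H ⊤ u 1 g ε (M + 2) hH h
        (by rw [one_mul]; exact co_symm k) (by rwa [mv_one]) trivial fun _ _ => trivial
      obtain ⟨b, sh, ge⟩ := hQ_CYC Γ a H u 1 g' ε' p v _ hH q
      have key : ∀ i, Ll (per2 p v (M + 3) - 2 * ds (v i) (p (i + 1))) (per2 p v (M + 3)) := by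
        intro i
        have e1 := ge i (M + 1) ih
        have e2 := (sh i).symm.trans (per2_shift p v i (M + 1))
        have e3 : v (i + 1 + (M + 1 + 1)) = v i := by
          rw [show i + 1 + (M + 1 + 1) = i + (M + 2 + 1) by omega, q.pv, one_mul]
        rw [G2, e3, add_zero, ds_comm (p (i + 1))] at e1
        exact e1.mono_left (by linarith)
      refine ll_irrefl b.pos (Ll.mono_left ?_ (((key 0).add (key 1)).add (key 2)))
      linarith [three_le p v M]

end Pool.Agent.P.MP_dba3d2_lc
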