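import Pool.Agent.P.MP_dba3d2_lc.C.IfaceQ
import Pool.Agent.P.MP_dba3d2_lc.A.Iface
import Pool.Agent.P.MP_dba3d2_lc.B.Iface
import Pool.Agent.P.MP_dba3d2_lc.C.QTb

/-! Step Q_MIX2 of the stability project. -/

namespace Pool.Agent.P.MP_dba3d2_lc

open Filter

namespace Q_mix2A

variable {Γ : HG} {a : Amb} {H : Subgroup (MM Γ a)} {μ : a.K} {u g g' x y x' y' d e : MM Γ a}
  {ε ε' : Nd Γ a}

theorem geo (hG : S_Q_GEO) (hμ : Big μ) (hH : GC0 H) (h1 : At H u g ε) (h2 : At H u g ε')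
    (hn : ¬ Sm H u ε ε') (f : Fe H g ε ε' x y) (l : Ls (ds x y) μ) (e1 : Eo μ ε x' x)
    (e2 : Eo μ ε' y y') : Ll (ds x' x + ds x y + ds y y' - ds x' y') μ := by
  have := hG Γ a μ H u (fun _ => g) (fun t => t.casesOn ε fun _ => ε')
    (fun t => t.casesOn x' fun _ => y) (fun t => t.casesOn x fun _ => y') 0 hμ hH
    ⟨fun t ht => by obtain rfl := Nat.le_zero.1 ht; exact h1, fun _ _ => h2,
      fun t ht => by obtain rfl := Nat.le_zero.1 ht; exact Or.inl hn,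
      fun s t k1 k2 => by omega, fun s t k1 k2 => by omega⟩
    (fun t ht => by obtain rfl := Nat.le_zero.1 ht; exact f)
    (fun t ht => by obtain rfl := Nat.le_zero.1 ht; exact l)
    (fun t _ => by cases t; exacts [e1, e2])
  rwa [G2, len2_zero] at this

theorem core (hE : S_ELEM) (hL : S_LINE) (hP : S_PERC) (hR : S_ROOT) (hG : S_Q_GEO)
    (hF : S_Q_FEET) (hH : GC0 H) (ne : g⁻¹ * g' ∉ H) (a1 : At H u g ε) (a2 : At H u g' ε)
    (a3 : At H u g ε') (a4 : At H u g' ε') (hn : ¬ Sm H u ε ε') :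
    ∃ e, Aj H g e ∧ Aj H g' e ∧ ¬ Sm H u (.inr e) ε := by
  obtain ⟨x, y, f⟩ := hF Γ a H u g ε ε' hH a1 a3 (Or.inl hn)
  obtain ⟨x', y', f'⟩ := hF Γ a H u g' ε ε' hH a2 a4 (Or.inl hn)
  have ne' : g'⁻¹ * g ∉ H := fun k => ne (co_symm k)
  have p1 := ds_nonneg x y
  have p2 := ds_nonneg x' y'
  have p3 := ds_nonneg x x'
  have p4 := ds_nonneg y y'
  have c1 := ds_comm x' x
  have c2 := ds_comm y' y
  obtain ⟨μ, hμ⟩ : ∃ μ, μ = ds x y + ds x' y' + ds x x' + ds y y' := ⟨_, rfl⟩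
  have l1 : Ls (ds x y) μ := Ls.of_le (by linarith)
  have l2 : Ls (ds x' y') μ := Ls.of_le (by linarith)
  have l3 : Ls (ds x x') μ := Ls.of_le (by linarith)
  have l4 : Ls (ds y y') μ := Ls.of_le (by linarith)
  have hb : Big μ := by
    by_contra b
    exact ne (co_trans (co_trans (f.sd.co (not_big_of_ls l1 b)).1
      (hH.co_of_not_big (not_big_of_ls l3 b))) (co_symm (f'.sd.co (not_big_of_ls l2 b)).1))
  have h0 := hb.pos.le
  have E1 := geo hG hb hH a1 a3 hn f l1 (Ft.eo hR hH a2 a1 f'.f f.f ne' h0 (c1 ▸ l3))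
    (Ft.eo hR hH a3 a4 f.f' f'.f' ne h0 l4)
  have E2 := geo hG hb hH a2 a4 hn f' l2 (Ft.eo hR hH a1 a2 f.f f'.f ne h0 l3)
    (Ft.eo hR hH a4 a3 f'.f' f.f' ne' h0 (c2 ▸ l4))
  have t1 := ds_tri x' x y'
  have t2 := ds_tri x y y'
  have t3 := ds_tri x' x y
  have lg : Ls μ (ds x y) :=
    (Ls.refl' μ).of_le_add (E1.add E2) hb.pos 2 (by push_cast; linarith)
  obtain ⟨e, k1, k2, k3⟩ := (Sd.ov hE hP hR hH hb f.sd f'.sd l1 l2 (p := x) (q := y)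
    ⟨lg, on_left h0 _ _, on_right h0 _ _, E1.mono_left (by linarith),
      E1.mono_left (by linarith)⟩).resolve_left ne
  refine ⟨e, k1, k2, fun s => ?_⟩
  obtain ⟨d, rfl, k⟩ := s.inr
  exact f.na μ hb l1 (Al.ep hE hL ⟨y, lg, on_right h0 _ _, k3⟩ a1.1 k1.1.1 k.symm)

theorem fin (hR : S_RIG) (hH : GC0 H) (a1 : Aj H g d) (a2 : Aj H g' d) (a3 : Aj H g e)
    (a4 : Aj H g' e) (hn : Ep e ≠ Ep d) : g⁻¹ * g' ∈ H :=
  (hR Γ a H hH).1 _ a3.2 _ a1.2 _ a4.2 _ a2.2 (a3.1.conj' g).1 (a1.1.conj' g).1 (a3.1.conj' g').1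
    (a1.1.conj' g').1 (mt (Ep_conj_iff' g).1 hn) _ (congrArg Ep (by group))
    (congrArg Ep (by group))

end Q_mix2A

open Q_mix2A in
theorem p_Q_MIX2 (hELEM : S_ELEM) (hLINE : S_LINE) (hPERC : S_PERC) (hROOT : S_ROOT) (hRIG : S_RIG) (hQ_GEO : S_Q_GEO) (hQ_FEET : S_Q_FEET) :
    S_Q_MIX2 := by
  intro Γ a H u g g' ε ε' hH ne a1 a2 a3 a4
  by_contra hn
  obtain ⟨e, k1, k2, k3⟩ := core hELEM hLINE hPERC hROOT hQ_GEO hQ_FEET hH ne a1 a2 a3 a4 hn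
  rcases ε with w | d
  · obtain ⟨e', l1, l2, l3⟩ := core hELEM hLINE hPERC hROOT hQ_GEO hQ_FEET hH ne
      (ε := .inr e) k1 k2 a1 a2 k3
    exact ne (fin hRIG hH k1 k2 l1 l2 l3)
  · exact ne (fin hRIG hH a1 a2 k1 k2 k3)

end Pool.Agent.P.MP_dba3d2_lc
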