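import Pool.Agent.P.MP_dba3d2_lc.C.IfaceQ
import Pool.Agent.P.MP_dba3d2_lc.C.QTb

/-! Step Q_PATH of the stability project. -/

namespace Pool.Agent.P.MP_dba3d2_lc

open Filter

theorem p_Q_PATH (hQ_FEET : S_Q_FEET) (hQ_XCH : S_Q_XCH) (hQ_MIX : S_Q_MIX) (hQ_MINP : S_Q_MINP) :
    S_Q_PATH := by
  intro Γ a H T u D ε ε' h1 h2 hne
  obtain ⟨g, η0, N, ch, mem, a0, aN, red⟩ := (hQ_MINP Γ a H T u D).2 ε ε' h1 h2
  obtain ⟨η, e0, e1, e2⟩ : ∃ η : ℕ → Nd Γ a, η 0 = ε ∧ η (N + 1) = ε' ∧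
      ∀ t < N, η (t + 1) = η0 t :=
    ⟨fun t => if t = 0 then ε else if t = N + 1 then ε' else η0 (t - 1), by simp, by simp,
      fun t ht => by simp [ht.ne]⟩
  have r0 : Rd H u (g 0) (η 0) (η 1) := by
    rw [e0]
    rcases ε with w | d
    · exact Or.inr (Or.inl ⟨w, rfl, a0⟩)
    · rcases N with _ | M
      · rw [show η 1 = ε' from e1]
        rcases ε' with w' | d'
        · exact Or.inr (Or.inr ⟨w', rfl, aN⟩)
        · exact Or.inl (hne d d' rfl rfl)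
      · rw [show η 1 = η0 0 from e2 0 (by omega)]
        exact Or.inl ((red M rfl).1 d rfl)
  have rN : Rd H u (g N) (η N) (η (N + 1)) := by
    rcases N with _ | M
    · exact r0
    · rw [e1, e2 M (by omega)]
      rcases ε' with w' | d'
      · exact Or.inr (Or.inr ⟨w', rfl, aN⟩)
      · exact Or.inl ((red M rfl).2 d' rfl)
  have X : XCh H u g η N :=
    (hQ_XCH Γ a H u g η N D.gc).2 (hQ_MIX Γ a H u D.gc _) (ch.congr (fun _ _ => rfl) e2)
      (e0 ▸ a0.at u) (e1 ▸ aN.at u) r0 rN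
  have F : ∀ t, ∃ x y, t ≤ N → Fe H (g t) (η t) (η (t + 1)) x y := fun t => by
    by_cases ht : t ≤ N
    · obtain ⟨x, y, k⟩ := hQ_FEET Γ a H u _ _ _ D.gc (X.l t ht) (X.r t ht) (X.rd t ht)
      exact ⟨x, y, fun _ => k⟩
    · exact ⟨1, 1, fun k => absurd k ht⟩
  choose x y F using F
  refine ⟨g, η, fun t => Nat.casesOn t (x 0) y, fun t => if t ≤ N then x t else y N, N,
    ⟨X, mem, fun t ht => ?_, by simp, by simp⟩, e0, e1⟩
  simpa [ht] using F t ht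

end Pool.Agent.P.MP_dba3d2_lc
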