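import Pool.Agent.P.MP_dba3d2_lc.C.IfaceQ
import Pool.Agent.P.MP_dba3d2_lc.B.Iface
import Pool.Agent.P.MP_dba3d2_lc.C.IfaceL
import Pool.Agent.P.MP_dba3d2_lc.C.QTb

/-! Step Q_PCH of the stability project. -/

namespace Pool.Agent.P.MP_dba3d2_lc

open Filter

namespace Q_pch

variable {Γ : HG} {a : Amb} {H : Subgroup (MM Γ a)} {u : MM Γ a}

theorem chain (hu : LimD H u) : ∀ l : List (MM Γ a × (Fin 1 × Bool)),
    WRed H (HP H fun _ : Fin 1 => u) l → ∀ g0 : MM Γ a, ∃ g ε, MCh H u g ε l.length ∧ g 0 = g0 ∧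
      g l.length = g0 * wval (hv fun _ : Fin 1 => u) l ∧
      ∀ s l', l = s :: l' → ε 0 = .inl (g0 * s.1 * bif s.2.2 then u else 1)
  | [], _, g0 => ⟨fun _ => g0, fun _ => .inl 1, MCh.zero _ _ _ _, rfl, by simp, by simp⟩
  | ⟨b, i, σ⟩ :: l, h, g0 => by
    have hb : b ∈ H := h.mem
    have hn := hu.not_mem
    obtain ⟨g, ε, k, e0, e1, e2⟩ :=
      chain hu l h.tail (g0 * b * hv (fun _ : Fin 1 => u) (i, σ))
    have a1 : At H u g0 (.inl (g0 * b * bif σ then u else 1)) := by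
      cases σ
      · exact Or.inl (by simpa [mul_assoc] using hb)
      · exact Or.inr ⟨hu, by simpa [mul_assoc] using hb⟩
    have a2 : At H u (g 0) (.inl (g0 * b * bif σ then u else 1)) := by
      rw [e0]
      cases σ
      · exact Or.inr ⟨hu, by simp [mul_assoc]⟩
      · exact Or.inl (by simp [mul_assoc])
    have ne : g0⁻¹ * g 0 ∉ H := by
      rw [e0]
      cases σ <;> simpa [mul_assoc, H.mul_mem_cancel_left hb] using hn
    have r : 0 < l.length → ¬ Sm H u (.inl (g0 * b * bif σ then u else 1)) (ε 0) := by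
      intro hl
      obtain ⟨⟨b', j, τ⟩, l', rfl⟩ := List.exists_cons_of_length_pos hl
      have hb' : b' ∈ H := h.tail.mem
      have np := h.np
      rw [e2 _ _ rfl]
      rintro ⟨s1, s2⟩
      cases σ <;> cases τ
      · exact hn (by simpa [mul_assoc, H.mul_mem_cancel_right hb'] using s1)
      · exact np ⟨Subsingleton.elim _ _, by simp, by simpa [mul_assoc] using s1⟩
      · exact np ⟨Subsingleton.elim _ _, by simp, by simpa [mul_assoc] using s2⟩
      · exact hn (by simpa [mul_assoc, H.mul_mem_cancel_left hb'] using s1)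
    obtain ⟨G, E, k', g1, g2, f1, -⟩ := k.cons a1 a2 ne r
    refine ⟨G, E, k', g1, ?_, ?_⟩
    · rw [List.length_cons, g2, e1, wval_cons]
      simp [mul_assoc]
    · rintro s l' ⟨⟩
      exact f1

end Q_pch

theorem p_Q_PCH (hROOT : S_ROOT) (hC2_RW : S_C2_RW) (hQ_XCH : S_Q_XCH) (hQ_MIX : S_Q_MIX) :
    S_Q_PCH := by
  intro Γ a H u hH hu
  refine ⟨fun l hl hne => ?_, fun c hc hp f hf hfc => ?_⟩
  · obtain ⟨g, ε, k, e0, e1, -⟩ := Q_pch.chain hu l hl 1
    have := hQ_MIX Γ a H u hH l.length g ε _ (List.length_pos_iff.2 hne) le_rfl k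
    simpa [e0, e1] using this
  · rw [← closure_hv] at hf
    obtain ⟨⟨l, b, hb, hl, rfl⟩, -⟩ := hC2_RW _ H _ _ _ (hws H fun _ : Fin 1 => u) f hf
    rcases l with _ | ⟨s, l⟩
    · simpa using hb
    obtain ⟨g, ε, k, e0, e1, e2⟩ := Q_pch.chain hu _ hl 1
    have a0 : Aj H (g 0) c := e0 ▸ aj_one.2 ⟨hp, hc⟩
    have a1 : Aj H (wval (hv fun _ : Fin 1 => u) (s :: l) * b) c :=
      ⟨hp, (hROOT Γ a H hH).2.2.2.1 c hc hp.1 _ (hp.conj' _) (Ep_conj_mem' hfc)⟩
    have a2 : Aj H (g (s :: l).length) c := by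
      rw [e1, one_mul]
      exact a1.congr (by simpa [mul_assoc, -wval_cons] using hb)
    have := ((hQ_XCH Γ a H u g ε _ hH).1 _ (hQ_MIX Γ a H u hH ((s :: l).length + 1)) k 0 _
      (by simp) le_rfl (by omega) c a0 a2).2
    rw [e2 _ _ rfl] at this
    exact this.elim

end Pool.Agent.P.MP_dba3d2_lc
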