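import Pool.Agent.P.MP_dba3d2_lc.C.IfaceQ
import Pool.Agent.P.MP_dba3d2_lc.C.QTb

/-! Step Q_PEXT of the stability project. -/

namespace Pool.Agent.P.MP_dba3d2_lc

open Filter

namespace Q_pext

variable {Γ : HG} {a : Amb}

/-- periodic extension of points -/
def ex (c : MM Γ a) (n : ℕ) (f : ℕ → MM Γ a) (t : ℕ) : MM Γ a := c ^ (t / n) * f (t % n)

/-- periodic extension of ends -/
def ee (c : MM Γ a) (n : ℕ) (f : ℕ → Nd Γ a) (t : ℕ) : Nd Γ a := (f (t % n)).mv (c ^ (t / n))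

theorem mv_one (ε : Nd Γ a) : ε.mv 1 = ε := by
  cases ε <;> simp [Nd.mv]

theorem ex_add (c : MM Γ a) (N : ℕ) (f : ℕ → MM Γ a) (t : ℕ) :
    ex c (N + 1) f (t + (N + 1)) = c * ex c (N + 1) f t := by
  unfold ex
  rw [Nat.add_div_right _ N.succ_pos, Nat.add_mod_right, pow_succ', mul_assoc]

theorem ee_add (c : MM Γ a) (N : ℕ) (f : ℕ → Nd Γ a) (t : ℕ) :
    ee c (N + 1) f (t + (N + 1)) = (ee c (N + 1) f t).mv c := by
  unfold ee
  rw [Nat.add_div_right _ N.succ_pos, Nat.add_mod_right, pow_succ', mv_mv]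

theorem ex_lt (c : MM Γ a) {n t : ℕ} (f : ℕ → MM Γ a) (h : t < n) : ex c n f t = f t := by
  unfold ex
  rw [Nat.div_eq_of_lt h, Nat.mod_eq_of_lt h, pow_zero, one_mul]

theorem ee_lt (c : MM Γ a) {n t : ℕ} (f : ℕ → Nd Γ a) (h : t < n) : ee c n f t = f t := by
  unfold ee
  rw [Nat.div_eq_of_lt h, Nat.mod_eq_of_lt h, pow_zero, mv_one]

theorem ind {P : ℕ → Prop} (N : ℕ) (h0 : ∀ t < N + 1, P t) (h1 : ∀ t, P t → P (t + (N + 1))) :
    ∀ t, P t := by
  intro t
  induction t using Nat.strong_induction_on with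
  | _ t ih =>
    rcases lt_or_ge t (N + 1) with h | h
    · exact h0 t h
    · obtain ⟨s, rfl⟩ := Nat.exists_eq_add_of_le' h
      exact h1 s (ih s (by omega))

end Q_pext

open Q_pext in
theorem p_Q_PEXT (hQ_FEET : S_Q_FEET) :
    S_Q_PEXT := by
  intro Γ a H T u c g ε N hH hM hs hr hc hT
  have sh : ∀ t, t + (N + 1) + 1 = t + 1 + (N + 1) := fun t => by omega
  have gN : ex c (N + 1) g (N + 1) = c * g 0 := by
    have := ex_add c N g 0
    rwa [zero_add, ex_lt c g N.succ_pos] at this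
  have eN : ee c (N + 1) ε (N + 1) = (ε 0).mv c := by
    have := ee_add c N ε 0
    rwa [zero_add, ee_lt c ε N.succ_pos] at this
  have co : ∀ t < N + 1, (g (t + 1))⁻¹ * ex c (N + 1) g (t + 1) ∈ H := by
    intro t ht
    rcases Nat.lt_succ_iff_lt_or_eq.1 ht with k | rfl
    · rw [ex_lt c g (Nat.succ_lt_succ k)]
      exact co_refl H _
    · rw [gN]
      exact hs
  have a1 : ∀ t, At H u (ex c (N + 1) g t) (ee c (N + 1) ε t) := by
    refine ind N (fun t ht => ?_) fun t h => ?_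
    · rw [ex_lt c g ht, ee_lt c ε ht]
      exact hM.l t ht
    · rw [ex_add, ee_add]
      exact h.mv c
  have a2 : ∀ t, At H u (ex c (N + 1) g (t + 1)) (ee c (N + 1) ε t) := by
    refine ind N (fun t ht => ?_) fun t h => ?_
    · rw [ee_lt c ε ht]
      exact (hM.r t ht).congr (co t ht)
    · rw [sh, ex_add, ee_add]
      exact h.mv c
  have a3 : ∀ t, (ex c (N + 1) g t)⁻¹ * ex c (N + 1) g (t + 1) ∉ H := by
    refine ind N (fun t ht => ?_) fun t h => ?_
    · rw [ex_lt c g ht]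
      exact fun k => hM.ne t ht (co_trans k (co_symm (co t ht)))
    · rw [sh, ex_add, ex_add, co_mv]
      exact h
  have a4 : ∀ t, ¬ Sm H u (ee c (N + 1) ε t) (ee c (N + 1) ε (t + 1)) := by
    refine ind N (fun t ht => ?_) fun t h => ?_
    · rw [ee_lt c ε ht]
      rcases Nat.lt_succ_iff_lt_or_eq.1 ht with k | rfl
      · rw [ee_lt c ε (Nat.succ_lt_succ k)]
        exact hM.rd t (Nat.succ_lt_succ k)
      · rw [eN]
        exact hr
    · rw [sh, ee_add, ee_add, sm_mv]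
      exact h
  choose x y hxy using fun t => hQ_FEET Γ a H u _ _ _ hH (a2 t) (a1 (t + 1)) (Or.inl (a4 t))
  refine ⟨ex c (N + 1) g, ee c (N + 1) ε, fun t => ex c (N + 1) y (t - 1), ex c (N + 1) x,
    ⟨N.succ_pos, fun M => ⟨fun t _ => a1 t, fun t _ => a2 t, fun t _ => a3 t, fun t _ => a4 t⟩,
      ?_, ex_add c N x, fun t => ?_⟩, ?_⟩
  · simp only [Nat.add_sub_cancel]
    refine ind N (fun t ht => ?_) fun t h => ?_
    · rw [ex_lt c x ht, ex_lt c y ht]
      exact hxy t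
    · rw [sh, ex_add, ex_add, ex_add, ee_add, ee_add]
      exact h.mv c
  · simp only [Nat.add_sub_cancel]
    exact ex_add c N y t
  · refine ind N (fun t ht => ?_) fun t h => ?_
    · rw [ex_lt c g ht]
      exact hT t (Nat.lt_succ_iff.1 ht)
    · rw [ex_add]
      exact mul_mem hc h

end Pool.Agent.P.MP_dba3d2_lc
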