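import Pool.Agent.P.MP_dba3d2_lc.C.IfaceQ
import Pool.Agent.P.MP_dba3d2_lc.B.Iface
import Pool.Agent.P.MP_dba3d2_lc.C.QTb

/-! Step Q_RIGT of the stability project. -/

namespace Pool.Agent.P.MP_dba3d2_lc

open Filter

theorem p_Q_RIGT (hROOT : S_ROOT) (hQ_XCH : S_Q_XCH) (hQ_MIX : S_Q_MIX) (hQ_MINP : S_Q_MINP) :
    S_Q_RIGT := by
  intro Γ a H T u D d d' e e' hd hd' he he' hne x c1 c2
  by_contra hx
  obtain ⟨G, E, N, h, hT, a0, a1, r⟩ := (hQ_MINP Γ a H T u D).2 (.inr d) (.inr d') hd hd'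
  obtain ⟨G', E', M, h', hT', b0, b1, r'⟩ := (hQ_MINP Γ a H T u D).2 (.inr e) (.inr e') he he'
  have c1' : Ep (x * e * x⁻¹) = Ep d := c1
  have c2' : Ep (x * e' * x⁻¹) = Ep d' := c2
  have k0 : Aj H (x * G' 0) d := ((aj_mv x).2 b0).ep hROOT D.gc hd.prim c1'.symm
  have k1 : Aj H (x * G' M) d' := ((aj_mv x).2 b1).ep hROOT D.gc hd'.prim c2'.symm
  have ne : (G N)⁻¹ * (x * G' (M - 0)) ∉ H := fun m => hx (by
    have := co_mem (D.le m) (hT N le_rfl)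
    simpa using mul_mem this (inv_mem (hT' (M - 0) (by omega))))
  obtain ⟨G₂, E₂, k, g1, g2, -, e2, -⟩ := h.append (η := .inr d') (h'.mv x).rev a1 k1 ne
    (fun j ej => (r j ej).2 d' rfl) (fun p s => by
      obtain ⟨j, rfl⟩ : ∃ j, M = j + 1 := ⟨M - 1, by omega⟩
      refine (r' j rfl).2 e' rfl ((sm_mv x).1 ?_)
      have s' : Sm H u (.inr (x * e' * x⁻¹)) (.inr d') := c2'
      exact (s'.trans s).symm)
  have A0 : Aj H (G₂ 0) d := by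
    rw [g1 0 (Nat.zero_le _)]
    exact a0
  have A1 : Aj H (G₂ (N + 1 + M)) d := by
    rw [g2 M]
    simpa using k0
  obtain ⟨q1, q2⟩ := (hQ_XCH Γ a H u G₂ E₂ (N + 1 + M) D.gc).1 (N + M + 2)
    (hQ_MIX Γ a H u D.gc _) k 0 (N + 1 + M) (by omega) le_rfl (by omega) d A0 A1
  obtain rfl : N = 0 := by omega
  rw [e2] at q2
  exact hne q2

end Pool.Agent.P.MP_dba3d2_lc
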