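import Pool.Agent.P.MP_dba3d2_lc.C.IfaceQ
import Pool.Agent.P.MP_dba3d2_lc.B.Iface
import Pool.Agent.P.MP_dba3d2_lc.C.QTb

/-! Step Q_TOP of the stability project. -/

namespace Pool.Agent.P.MP_dba3d2_lc

open Filter

namespace Q_top

variable {Γ : HG} {a : Amb} {H T : Subgroup (MM Γ a)} {u : MM Γ a} {g : ℕ → MM Γ a}
  {ε : ℕ → Nd Γ a} {p v : ℕ → MM Γ a} {N : ℕ} {μ : a.K}

theorem lemA (hR : S_ROOT) (hG : S_Q_GEO) (hH : GC0 H) (D : NPa H u T g ε p v N) (hμ : Big μ)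
    (hL : Ls (len2 p v N) μ) (p' v' : ℕ → MM Γ a) (hp : ∀ t, p' (t + 1) = p (t + 1))
    (hv : ∀ t ≤ N, v' t = v t) (e0 : Eo μ (ε 0) (p' 0) (v 0))
    (e1 : Eo μ (ε (N + 1)) (p (N + 1)) (v' (N + 1))) : G2 μ p' v' N := by
  refine hG Γ a μ H u g ε p' v' N hμ hH D.ch (fun t ht => ?_) (fun t ht => ?_) fun t ht => ?_
  · rw [hv t ht, hp t]; exact D.fe t ht
  · rw [hv t ht, hp t]; exact Ls.mono_left (c_le_len2 p v ht) hL
  · rcases t with _ | s
    · rwa [hv 0 (Nat.zero_le _)]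
    · rcases ht.eq_or_lt with e | e
      · obtain rfl : s = N := by omega
        rwa [hp]
      · have e' : s + 1 ≤ N := by omega
        rw [hp, hv _ e']
        exact Ft.eo hR hH (D.ch.r s (by omega)) (D.ch.l _ e') (D.fe s (by omega)).f'
          (D.fe _ e').f (D.ch.h0 s _ (by omega) e') hμ.pos.le
          (Ls.mono_left (a_le_len2 p v ht) hL)

theorem lemA0 (hR : S_ROOT) (hG : S_Q_GEO) (hH : GC0 H) (D : NPa H u T g ε p v N) (hμ : Big μ)
    (hL : Ls (len2 p v N) μ) : G2 μ p v N :=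
  lemA hR hG hH D hμ hL p v (fun _ => rfl) (fun _ _ => rfl)
    (Or.inl (by rw [D.e0]; exact FixA.ll_self hμ.pos.le _))
    (Or.inl (by rw [D.e1]; exact FixA.ll_self hμ.pos.le _))

theorem lemB (hR : S_ROOT) (hG : S_Q_GEO) (hH : GC0 H) (D : NPa H u T g ε p v N) (hμ : Big μ)
    (h : Ls (ds (v 0) (p (N + 1))) μ) : Ls (len2 p v N) μ := by
  by_cases b : Big (len2 p v N)
  · have k := lemA0 hR hG hH D b (Ls.refl' _) 2
    rw [D.e0, D.e1] at k
    push_cast at k
    exact Ls.mono_left (by linarith) h.two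
  · exact (hμ.ll_of_not_big b).ls

theorem last {P V : ℕ → MM Γ a} (h : G2 μ P V N) : On μ (P (N + 1)) (P 0) (V (N + 1)) := by
  cases N with
  | zero => exact h.zero.2
  | succ N => exact h.step.2.2

end Q_top

open Q_top in
theorem p_Q_TOP (hROOT : S_ROOT) (hQ_GEO : S_Q_GEO) :
    S_Q_TOP := by
  intro Γ a H T u g ε p v N hH D
  refine ⟨fun μ hμ h => ?_, ?_, ?_⟩
  · have k := lemB hROOT hQ_GEO hH D hμ h
    exact ⟨lemA0 hROOT hQ_GEO hH D hμ k, k⟩
  · rcases e : ε 0 with w | d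
    · trivial
    · rintro μ hμ h ⟨q, h1, h2, h3⟩
      have k := lemA hROOT hQ_GEO hH D hμ (lemB hROOT hQ_GEO hH D hμ h) (Function.update p 0 q) v
        (fun t => by simp) (fun _ _ => rfl) (Or.inr ⟨d, e, by simpa using ⟨h3.2, h3.1⟩⟩)
        (Or.inl (by rw [D.e1]; exact FixA.ll_self hμ.pos.le _))
      have k2 := ds_le_per2 (Function.update p 0 q) v (N + 1)
      rw [G2, len2_eq, Function.update_self, D.e1] at k
      rw [D.e1] at k2
      refine Ll.not_ls (Ll.half ((k.add h2).mono_left ?_)) hμ.pos h1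
      linarith [ds_comm q (v 0)]
  · rcases e : ε (N + 1) with w | d
    · trivial
    · rintro μ hμ h ⟨q, h1, h2, h3⟩
      rw [ds_comm] at h
      have k := last (lemA hROOT hQ_GEO hH D hμ (lemB hROOT hQ_GEO hH D hμ h) p
        (Function.update v (N + 1) q) (fun t => rfl)
        (fun t ht => Function.update_of_ne (by omega) _ _)
        (Or.inl (by rw [D.e0]; exact FixA.ll_self hμ.pos.le _))
        (Or.inr ⟨d, e, by simpa using h3⟩))
      rw [Function.update_self, D.e0] at k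
      refine Ll.not_ls (Ll.half ((Ll.add k h2).mono_left ?_)) hμ.pos h1
      linarith [ds_comm q (v 0), ds_comm (p (N + 1)) (v 0)]

end Pool.Agent.P.MP_dba3d2_lc
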