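import Pool.Agent.P.MP_dba3d2_lc.C.IfaceQ
import Pool.Agent.P.MP_dba3d2_lc.B.Iface
import Pool.Agent.P.MP_dba3d2_lc.C.QTb

/-! Step Q_XCH of the stability project. -/

namespace Pool.Agent.P.MP_dba3d2_lc

open Filter

namespace Q_xch

variable {Γ : HG} {a : Amb} {H : Subgroup (MM Γ a)} {u e : MM Γ a} {g : ℕ → MM Γ a}
  {ε : ℕ → Nd Γ a} {N n s t : ℕ}

theorem s1 (mx : Mx H u n) (c : MCh H u g ε N) (h1 : s < t) (h2 : t ≤ N) (h3 : t < s + n)
    (a1 : Aj H (g s) e) (a2 : Aj H (g t) e) : Sm H u (.inr e) (ε s) := by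
  by_contra k
  obtain ⟨m, rfl⟩ : ∃ m, t = s + m := ⟨t - s, by omega⟩
  obtain ⟨G, E, c2, f1, f2, -⟩ := (c.shift s h2).cons (η := .inr e) a2 a1
    (fun e => mx.ne c h1 h2 h3.le (co_symm e)) fun _ => k
  exact mx G E (m + 1) (by omega) (by omega) c2 (by rw [f1, f2]; exact co_refl H _)

theorem one (hR : S_ROOT) (hH : GC0 H) (mx : Mx H u n) (c : MCh H u g ε N) (h1 : s < t)
    (h2 : t ≤ N) (h3 : t < s + n) (a1 : Aj H (g s) e) (a2 : Aj H (g t) e) :
    t = s + 1 ∧ Sm H u (.inr e) (ε s) := by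
  have k := s1 mx c h1 h2 h3 a1 a2
  refine ⟨by_contra fun ne => c.rd s (by omega) (k.symm.trans (s1 mx c (t := t) (by omega) h2
    (by omega) ((c.r s (by omega)).same hR hH (g' := g s) (ε' := .inr e) a1 k.symm) a2)), k⟩

end Q_xch

theorem p_Q_XCH (hROOT : S_ROOT) :
    S_Q_XCH := by
  intro Γ a H u g ε N hH
  refine ⟨fun n mx c s t h1 h2 h3 e => Q_xch.one hROOT hH mx c h1 h2 h3,
    fun mx c a0 a1 r0 r1 => ⟨fun t ht => ?_, fun t ht => ?_, fun t ht => ?_,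
      fun s t h1 h2 => mx.ne c h1 h2 (by omega), fun s t h1 h2 e b1 b2 => ?_⟩⟩
  · cases t with
    | zero => exact a0
    | succ t => exact c.r t ht
  · rcases ht.eq_or_lt with rfl | h
    exacts [a1, c.l t h]
  · rcases ht.eq_or_lt with rfl | h
    · exact r1
    · cases t with
      | zero => exact r0
      | succ t => exact .inl (c.rd t h)
  · obtain ⟨rfl, k⟩ := Q_xch.one hROOT hH mx c h1 h2 (by omega) b1 b2
    exact ⟨rfl, k⟩

end Pool.Agent.P.MP_dba3d2_lc
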