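import Pool.Agent.P.MP_dba3d2_lc.C.IfaceP
import Pool.Agent.P.MP_dba3d2_lc.A.Iface
import Pool.Agent.P.MP_dba3d2_lc.B.Iface
import Pool.Agent.P.MP_dba3d2_lc.C.IfaceT
import Pool.Agent.P.MP_dba3d2_lc.C.TTb

/-! Step STAR of the stability project. -/

namespace Pool.Agent.P.MP_dba3d2_lc

open Filter

namespace StarA

variable {Γ : HG} {a : Amb} {H : Subgroup (MM Γ a)}

/-- the pair of `H` and the ambient group -/
def FT (H : Subgroup (MM Γ a)) : Bool → Subgroup (MM Γ a) := fun i => bif i then ⊤ else H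

theorem xf : XF (FT H) none = H := inf_top_eq H

theorem ef (c : MM Γ a) : EF (FT H) c = Ep c :=
  le_antisymm EF_le_Ep fun _ h => mem_EF true trivial h

theorem two (hC : S_CVX) (hN : S_NORM) (hH : GC0 H) : TwoF (FT H) := by
  have ht : GC0 (⊤ : Subgroup (MM Γ a)) := (hC Γ a ⊤ ⟨le_top, fun _ _ _ _ => trivial⟩).toGC0
  have v : ∀ y, NM (FT H (!true)) (FT H false ⊓ FT H true) y := fun y v h1 h2 =>
    absurd ⟨h1, trivial⟩ h2
  refine ⟨fun i => by cases i; exacts [hH, ht], by rw [show FT H false ⊓ FT H true = H from xf]; exact hH,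
    fun _ _ _ _ _ _ _ _ x _ _ _ _ => ⟨1, one_mem _, x, trivial, (one_mul _).symm⟩,
    fun c0 h0 c1 _ p0 _ x e => ⟨c0, ⟨h0, trivial⟩, p0, 1, one_mem _, x⁻¹, trivial,
      Cj.one_iff.2 rfl, e.inv⟩, fun i x h1 h2 c hc _ _ _ _ _ => ?_, fun i y h1 h2 => ?_,
    fun i y h1 h2 _ => ?_, fun i c hc p1 p2 y h1 h2 => ?_⟩ <;> cases i
  · exact ⟨hc, trivial⟩
  · exact absurd ⟨h1, trivial⟩ h2
  · exact absurd ⟨h1, trivial⟩ h2
  · exact ⟨1, one_mem _, v _⟩
  · exact absurd ⟨h1, trivial⟩ h2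
  · exact ⟨1, one_mem _, 1, one_mem _, v _, v _⟩
  · exact absurd ⟨H.mul_mem (H.mul_mem (H.inv_mem h1) hc) h1, trivial⟩ h2
  · obtain ⟨f, -, h3, -, h4⟩ := (hN Γ a ⊤ ht).1 c trivial p1 p2 y⁻¹ trivial
    exact ⟨f⁻¹, trivial, inv_mem h3, 1, one_mem _, v _, by simpa using h4⟩

/-- entries of star words -/
def V (H : Subgroup (MM Γ a)) (s : MM Γ a × MM Γ a × MM Γ a) : Prop :=
  s.1 ∈ H ∧ s.2.1 ∈ H ∧ Prim s.2.1 ∧ s.2.2 ∈ Ep s.2.1 ∧ s.2.2 ∉ H
/-- neighbours in star words -/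
def R (s s' : MM Γ a × MM Γ a × MM Γ a) : Prop := ¬ Cj s'.1 s'.2.1 s.2.1
/-- values of star words -/
def pv (l : List (MM Γ a × MM Γ a × MM Γ a)) : MM Γ a := (l.map fun s => s.1 * s.2.2).prod

theorem build {X Y : Subgroup (MM Γ a)} {c : MM Γ a} {n : ℕ} (hX : H ≤ X) (hY : Ep c ≤ Y)
    (hE : ∀ d ∈ H, Prim d → (¬ ∃ g ∈ H, Cj g c d) → Ep d ≤ X)
    (ih : ∀ m : List (MM Γ a × MM Γ a × MM Γ a), m.length < n → m ≠ [] → (∀ s ∈ m, V H s) →
      m.IsChain R → pv m ∉ H) {h : MM Γ a} (hh : h ∈ H) :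
    ∀ (l acc : List (MM Γ a × MM Γ a × MM Γ a)) (g d : MM Γ a), g ∈ H → Cj g c d →
      (acc ++ l).length < n → (∀ s ∈ acc ++ l, V H s) → (acc ++ l).IsChain R →
      (∀ s ∈ (acc ++ l).head?, ¬ Cj s.1 s.2.1 d) → pv acc ∈ X →
      ∃ W : List (Bool × MM Γ a), (∀ s ∈ W, s.2 ∈ (bif s.1 then Y else X) ∧ s.2 ∉ H ⊓ IE c) ∧
        W.IsChain (fun s s' => s.1 ≠ s'.1) ∧ (∀ s ∈ W.head?, s.1 = false) ∧
        ∃ k ∈ H ⊓ IE c, g⁻¹ * pv (acc ++ l) * h = (W.map Prod.snd).prod * k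
  | [], acc, g, d, hg, _, _, _, _, _, hx => by
    rw [List.append_nil]
    by_cases k : g⁻¹ * pv acc * h ∈ H ⊓ IE c
    · exact ⟨[], by simp, by simp, by simp, _, k, by simp⟩
    · refine ⟨[(false, g⁻¹ * pv acc * h)], ?_, by simp, by simp, 1, one_mem _, by simp⟩
      simpa using ⟨mul_mem (mul_mem (inv_mem (hX hg)) hx) (hX hh), by simpa using k⟩
  | (b, d', e) :: l, acc, g, d, hg, hj, hn, hv, hc, h0, hx => by
    obtain ⟨v1, v2, v3, v4, v5⟩ := hv (b, d', e) (by simp)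
    by_cases k : ∃ g' ∈ H, Cj g' c d'
    swap
    · have := build hX hY hE ih hh l (acc ++ [(b, d', e)]) g d hg hj (by simpa using hn)
        (by simpa using hv) (by simpa using hc) (by simpa using h0)
        (by simpa [pv] using mul_mem hx (mul_mem (hX v1) (hE d' v2 v3 k v4)))
      simpa using this
    obtain ⟨g', hg', hj'⟩ := k
    have c2 := hc.right_of_append
    obtain ⟨W, w1, w2, w3, k, w4, w5⟩ := build hX hY hE ih hh l [] g' d' hg' hj'
      (by simp at hn ⊢; omega) (fun s hs => hv s (by simp at hs; simp [hs])) c2.tail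
      (fun s hs => by
        rcases l with _ | ⟨s', l⟩
        · simp at hs
        · obtain rfl : s' = s := by simpa using hs
          exact (List.isChain_cons_cons.1 c2).1) (one_mem _)
    refine ⟨(false, g⁻¹ * pv acc * b * g') :: (true, g'⁻¹ * e * g') :: W, ?_, ?_, by simp, k, w4, ?_⟩
    · refine List.forall_mem_cons.2 ⟨⟨mul_mem (mul_mem (mul_mem (inv_mem (hX hg)) hx) (hX v1))
        (hX hg'), fun m => ?_⟩, List.forall_mem_cons.2 ⟨⟨hY (hj'.mem_Ep' v4), fun m => v5 ?_⟩, w1⟩⟩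
      · rcases acc with _ | ⟨s, acc⟩
        · have := (hj.mul (mem_IE.1 m.2).cj).mul hj'.inv
          refine h0 (b, d', e) rfl ?_
          rwa [show g * (g⁻¹ * pv [] * b * g') * g'⁻¹ = b by simp [pv, mul_assoc]] at this
        · refine ih (s :: acc) (by simp at hn ⊢; omega) (by simp)
            (fun t ht => hv t (List.mem_append_left _ ht)) hc.left_of_append ?_
          have : g⁻¹ * pv (s :: acc) * b * g' ∈ H := m.1
          rwa [mul_mem_cancel_right hg', mul_mem_cancel_right v1,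
            mul_mem_cancel_left (inv_mem hg)] at this
      · have : g'⁻¹ * e * g' ∈ H := m.1
        rwa [mul_mem_cancel_right hg', mul_mem_cancel_left (inv_mem hg')] at this
    · refine List.isChain_cons_cons.2 ⟨by simp, ?_⟩
      rcases W with _ | ⟨s, W⟩
      · simp
      · exact List.isChain_cons_cons.2 ⟨by simp [w3 s rfl], w2⟩
    · simp only [List.nil_append] at w5
      simp only [List.map_cons, List.prod_cons, mul_assoc, ← w5]
      simp [pv, mul_assoc]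

end StarA

open StarA in
theorem p_STAR (hCVX : S_CVX) (hNORM : S_NORM) (hC_AM1 : S_C_AM1) (hC_UPN : S_C_UPN) :
    S_STAR := by
  intro Γ a H l hH
  have hF := two hCVX hNORM hH
  suffices k : ∀ n, ∀ m : List (MM Γ a × MM Γ a × MM Γ a), m.length < n → m ≠ [] →
      (∀ s ∈ m, V H s) → m.IsChain R → pv m ∉ H from k _ l (Nat.lt_succ_self _)
  intro n
  induction n with
  | zero => intro m h; omega
  | succ n ih =>
    rintro (_ | ⟨⟨b, d, e⟩, l⟩) hn h0 hv hc hm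
    · exact h0 rfl
    obtain ⟨v1, v2, v3, v4, v5⟩ := hv (b, d, e) (by simp)
    obtain ⟨p, p1, p2, p3, p4, p5⟩ := hF.cenx (o := none) (xf.symm ▸ v2) v3
    have rn : RedNT (fun i => bif i then EPM (FT H) (p⁻¹ * d * p) else
        NS (FT H) {d' | d' ∈ PM (FT H) ∧ ¬ ∃ b ∈ H, Cj b (p⁻¹ * d * p) d'})
        (H ⊓ IE (p⁻¹ * d * p)) := by
      have := hC_UPN Γ a _ hF _ ⟨p2, p3, p4⟩
      rw [xf] at this
      exact hC_AM1 _ _ _ _ (inf_le_left.trans (xf.ge.trans le_sup_left))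
        ((inf_le_inf_right _ xf.ge).trans le_sup_right) this
    replace p1 := xf.le p1
    obtain ⟨W, w1, w2, w3, k, w4, w5⟩ := build (H := H) (n := n) (c := p⁻¹ * d * p)
      (X := NS (FT H) {d' | d' ∈ PM (FT H) ∧ ¬ ∃ b ∈ H, Cj b (p⁻¹ * d * p) d'})
      (Y := EPM (FT H) (p⁻¹ * d * p)) (xf.ge.trans le_sup_left) ((ef _).ge.trans le_sup_left)
      (fun d' m1 m2 m3 x hx => by
        obtain ⟨q, q1, q2, q3, q4, q5⟩ := hF.cenx (o := none) (xf.symm ▸ m1) m2
        have q0 : q ∈ NS (FT H) {d' | d' ∈ PM (FT H) ∧ ¬ ∃ b ∈ H, Cj b (p⁻¹ * d * p) d'} :=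
          Subgroup.mem_sup_left q1
        have : q⁻¹ * x * q ∈ NS (FT H)
            {d' | d' ∈ PM (FT H) ∧ ¬ ∃ b ∈ H, Cj b (p⁻¹ * d * p) d'} :=
          Subgroup.mem_sup_right (le_iSup₂_of_le (f := fun c _ => EF (FT H) c) (q⁻¹ * d' * q)
            ⟨⟨q2, q3, q4⟩, fun ⟨b, b1, b2⟩ => m3 ⟨q * b, mul_mem (xf.le q1) b1, q5.mul b2⟩⟩
            (ef _).ge (q5.mem_Ep' hx))
        rwa [mul_mem_cancel_right q0, mul_mem_cancel_left (inv_mem q0)] at this)
      ih (mul_mem (mul_mem (inv_mem hm) v1) p1) l [] p d p1 p5 (by simpa using hn)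
      (fun s hs => hv s (by simp at hs; simp [hs])) hc.tail (fun s hs => by
        rcases l with _ | ⟨s', l⟩
        · simp at hs
        · obtain rfl : s' = s := by simpa using hs
          exact (List.isChain_cons_cons.1 hc).1) (one_mem _)
    refine rn ((true, p⁻¹ * e * p) :: W) (by simp) (List.forall_mem_cons.2
      ⟨⟨Subgroup.mem_sup_left ((ef _).ge (p5.mem_Ep' v4)), fun m => v5 ?_⟩, w1⟩) ?_ ?_
    · have : p⁻¹ * e * p ∈ H := m.1
      rwa [mul_mem_cancel_right p1, mul_mem_cancel_left (inv_mem p1)] at this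
    · rcases W with _ | ⟨s, W⟩
      · simp
      · exact List.isChain_cons_cons.2 ⟨by simp [w3 s rfl], w2⟩
    · rw [List.map_cons, List.prod_cons, ← mul_mem_cancel_right w4, mul_assoc _ _ k, ← w5]
      simp [pv, mul_assoc]

end Pool.Agent.P.MP_dba3d2_lc
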