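import Pool.Agent.P.MP_dba3d2_lc.C.Iface
import Pool.Agent.P.MP_dba3d2_lc.C.IfaceT
import Pool.Agent.P.MP_dba3d2_lc.C.IfaceT2
import Pool.Agent.P.MP_dba3d2_lc.C.TTb

/-! Step TWO of the stability project. -/

namespace Pool.Agent.P.MP_dba3d2_lc

open Filter

theorem p_TWO (hC_EMEM : S_C_EMEM) (hC_EXT2 : S_C_EXT2) (hC_FINP : S_C_FINP) (hC_NFE : S_C_NFE) (hC_G20S : S_C_G20S) (hC_ANC : S_C_ANC) (hC_CEN : S_C_CEN) (hC_EX : S_C_EX) (hC_E12 : S_C_E12) (hC_PUR : S_C_PUR) (hC_G2 : S_C_G2) :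
    S_TWO := by
  intro Γ a F hF
  refine ⟨⟨(hF.gc false).base.trans le_sup_left, hC_G2 Γ a F hF, fun μ hμ h hh l p q n hp hq hr => ?_,
    hC_EX Γ a F hF, hC_PUR Γ a F hF, hC_CEN Γ a F hF⟩, hC_FINP Γ a F hF, (hC_ANC Γ a F hF).1,
    hC_EXT2 Γ a F hF, fun g hg => ?_, fun c hc hp f hf he => ?_, (hC_E12 Γ a F hF).2 false,
    (hC_E12 Γ a F hF).2 true⟩
  · obtain ⟨z, hz, o, b, hb, hs⟩ := hC_G20S Γ a F hF μ hμ h hh l p q n hp hq hr
    exact ⟨_, mul_mem (mul_mem hz (XF_le_P o hb.1)) (inv_mem hz), hb.2.1.conj z, hs⟩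
  · by_cases hb : Big (ln g)
    · obtain ⟨w, hw, rfl⟩ := (hC_NFE Γ a F hF).1 g hg
      refine ⟨(idC F).vs w, fun x hx => ?_, idC_prod, fun _ => ?_, fun h => absurd hb h⟩
      · obtain ⟨⟨t, y⟩, hs, rfl⟩ := List.mem_map.1 hx
        obtain ⟨h1, h2⟩ := hw.wd _ hs
        rcases t with (_ | _ | _) | c
        · exact .inl h2.1
        · exact .inl h2
        · exact .inr (.inl h2)
        · obtain ⟨x, m1, y', m2, e1, e2, e⟩ := hC_EMEM Γ a F hF c h1.1 h1.2.1.1 false y h2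
          exact .inr (.inr ⟨c, h1.1, h1.2.1, h1.2.2, x, m1, y', m2, e1, e2, e⟩)
      · exact Cv.geo_iff.1 (hw.geo' hb (Ls.refl' _))
    · exact ⟨[g], fun x hx => .inl (by
        obtain rfl := List.mem_singleton.1 hx
        exact (std_le_M hF hb).1), by simp, fun h => absurd h hb, fun _ => rfl⟩
  · exact hC_EMEM Γ a F hF c hc hp.1 false f ((hC_E12 Γ a F hF).1 c hc hp f hf he)

end Pool.Agent.P.MP_dba3d2_lc
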